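import Pool.Agent.Lib.MP_af3016_co.C.Defs
import Pool.Agent.Lib.MP_af3016_co.F.Pot

/-! The chain of minimisers. -/

set_option autoImplicit false
set_option linter.unusedSectionVars false

namespace Pool.Agent.Lib.MP_af3016_co

open Finset SimpleGraph

variable {V : Type} [DecidableEq V] {G : SimpleGraph V} {Y : Lay V} {U : Finset V}

theorem chain_step (G : SimpleGraph V) (W : Finset V) (b : ℕ) (S : Finset V) (β : ℕ) :
    ∃ S', S ⊆ W → β ≤ b → S ⊆ S' ∧ S' ⊆ W ∧
      (∀ v ∈ W, v ∉ S' → 2 * β + dH G v W < 2 * dH G v S' + b) ∧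
      (∀ v ∈ S', v ∉ S → 2 * dH G v S' + b ≤ 2 * β + dH G v W) ∧
      (S = ∅ → ∀ R, IsMin G W β (b - β) R → R.card ≤ S'.card) := by
  classical
  by_cases hS : S ⊆ W
  swap
  · exact ⟨S, fun h => absurd h hS⟩
  obtain ⟨M, m1, m2⟩ := exists_min_image (W.powerset.filter (S ⊆ ·)) (Pf G W β (b - β))
    ⟨S, by simp [hS]⟩
  obtain ⟨S', s1, s2⟩ := exists_max_image ((W.powerset.filter (S ⊆ ·)).filter
    fun R => Pf G W β (b - β) R ≤ Pf G W β (b - β) M) card ⟨M, by simpa using m1⟩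
  simp only [mem_filter, mem_powerset, and_imp] at m1 m2 s1 s2
  obtain ⟨⟨a1, a2⟩, a3⟩ := s1
  refine ⟨S', fun _ hb => ⟨a2, a1, fun v hv hn => ?_, fun v hv hn => ?_, ?_⟩⟩
  · have i1 := insert_subset hv a1
    have e1 := pf_erase (G := G) β (b - β) i1 (mem_insert_self v S')
    have e2 := dH_erase_self (G := G) v (insert v S')
    have e3 := dH_sdiff (G := G) (a := v) i1
    rw [erase_insert hn] at e1 e2
    by_contra k
    have := s2 _ i1 (a2.trans (subset_insert _ _)) (by omega)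
    rw [card_insert_of_notMem hn] at this
    omega
  · have e1 := pf_erase (G := G) β (b - β) a1 hv
    have e3 := dH_sdiff (G := G) (a := v) a1
    have := m2 _ ((erase_subset v S').trans a1) (subset_erase.2 ⟨a2, hn⟩)
    omega
  · rintro rfl R hR
    exact s2 R hR.1 (empty_subset _) (hR.le m1.1)

/-- the layering: interval bounds, bounds for the upper parts, and the bottom layer is a largest
minimiser of the potential -/
theorem chain {W : Finset V} (a b : ℕ → ℕ) (k : ℕ) (hW : Hap G W (∑ i ∈ range (k + 1), b i)) :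
    ∃ Y : Lay V, Y.a = a ∧ Y.b = b ∧ (∀ v ∈ W, Y.f v ≤ k) ∧
      (∀ v ∈ W, Df G Y W (Y.f v + 1) v 0) ∧
      (∀ v ∈ W, ∀ t ≤ Y.f v, dH G v (Y.iv W t (k + 1)) + 1 + Y.B t ≤ Y.B (k + 1)) ∧
      (1 ≤ k → ∀ S, IsMin G W (b 0) (Y.B (k + 1) - b 0) S → S.card ≤ (Y.iv W 0 1).card) := by
  classical
  choose F hF using chain_step G W (∑ i ∈ range (k + 1), b i)
  obtain ⟨S, s0, s1⟩ : ∃ S : ℕ → Finset V, S 0 = ∅ ∧
      ∀ t, S (t + 1) = if t < k then F (S t) (∑ i ∈ range (t + 1), b i) else W :=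
    ⟨fun t => Nat.rec ∅ (fun t R => if t < k then F R (∑ i ∈ range (t + 1), b i) else W) t, rfl,
      fun _ => rfl⟩
  have le : ∀ t < k, ∑ i ∈ range (t + 1), b i ≤ ∑ i ∈ range (k + 1), b i := fun t ht =>
    sum_le_sum_of_subset (range_mono (by omega))
  have sub : ∀ t, S t ⊆ W := fun t => by
    induction t with
    | zero => simp [s0]
    | succ t ih =>
      rw [s1]
      split_ifs with h
      exacts [(hF _ _ ih (le t h)).2.1, Subset.refl W]
  have mono : Monotone S := monotone_nat_of_le_succ fun t => by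
    rw [s1]
    split_ifs with h
    exacts [(hF _ _ (sub t) (le t h)).1, sub t]
  have top : S (k + 1) = W := by rw [s1, if_neg (lt_irrefl k)]
  obtain ⟨f, hf⟩ : ∃ f : V → ℕ, ∀ v ∈ W, ∀ t, v ∈ S t ↔ f v < t := by
    refine ⟨fun v => if h : ∃ t, v ∈ S (t + 1) then Nat.find h else 0, fun v hv t => ?_⟩
    have h : ∃ t, v ∈ S (t + 1) := ⟨k, top ▸ hv⟩
    simp only [dif_pos h]
    refine ⟨fun e => ?_, fun e => mono e (Nat.find_spec h)⟩
    cases t with
    | zero => simp [s0] at e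
    | succ t => exact Nat.lt_succ_of_le (Nat.find_min' h e)
  have iv : ∀ t g, Lay.iv ⟨f, a, b⟩ W t g = S g \ S t := fun t g => by
    ext v
    rw [Lay.mem_iv, mem_sdiff]
    exact ⟨fun h => ⟨(hf v h.1 g).2 h.2.2, fun e => ((hf v h.1 t).1 e).not_ge h.2.1⟩, fun h =>
      ⟨sub g h.1, not_lt.1 fun e => h.2 ((hf v (sub g h.1) t).2 e), (hf v (sub g h.1) g).1 h.1⟩⟩
  have fk : ∀ v ∈ W, f v ≤ k := fun v hv => Nat.le_of_lt_succ ((hf v hv _).1 (top ▸ hv))
  have lo : ∀ v ∈ W, ∀ t ≤ f v, 2 * ∑ i ∈ range t, b i + dH G v W <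
      2 * dH G v (S t) + ∑ i ∈ range (k + 1), b i := fun v hv t ht => by
    cases t with
    | zero => simpa [s0, dH_eq_zero.2] using hW v hv
    | succ t =>
      have h : t < k := by have := fk v hv; omega
      have e := s1 t
      rw [if_pos h] at e
      rw [e]
      exact (hF _ _ (sub t) (le t h)).2.2.1 v hv fun g => ((hf v hv _).1 (e ▸ g)).not_ge ht
  have up : ∀ v ∈ W, ∀ t ≤ f v, dH G v (S (k + 1) \ S t) + 1 + ∑ i ∈ range t, b i ≤
      ∑ i ∈ range (k + 1), b i := fun v hv t ht => by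
    have := lo v hv t ht
    have := hW v hv
    have := dH_sdiff (G := G) (a := v) (sub t)
    rw [top]
    omega
  refine ⟨⟨f, a, b⟩, rfl, rfl, fk, fun v hv t ht => ?_, fun v hv t ht => ?_, fun hk R hR => ?_⟩
  · change t < f v + 1 at ht
    change dH G v (Lay.iv _ W t (f v + 1)) + 1 + ∑ i ∈ range t, b i ≤ ∑ i ∈ range (f v + 1), b i
    rw [iv]
    rcases (fk v hv).lt_or_eq with h | h
    · have e := s1 (f v)
      rw [if_pos h] at e
      have := (hF _ _ (sub (f v)) (le _ h)).2.2.2.1 v (e ▸ (hf v hv _).2 (Nat.lt_succ_self _))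
        fun g => lt_irrefl _ ((hf v hv _).1 g)
      rw [← e] at this
      have := lo v hv t (by omega)
      have := dH_sdiff (G := G) (a := v) (mono ht.le)
      omega
    · rw [h]
      exact up v hv t (by omega)
  · rw [iv]
    exact up v hv t ht
  · rw [iv, s0, sdiff_empty, s1, if_pos (show 0 < k from hk)]
    exact (hF _ _ (sub 0) (le 0 hk)).2.2.2.2 s0 R (by simpa [Lay.B] using hR)

end Pool.Agent.Lib.MP_af3016_co
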