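import Pool.Agent.Lib.MP_af3016_co.C.Defs

/-! Cyclic orders with gaps: basic moves. -/

set_option autoImplicit false
set_option linter.unusedSectionVars false

namespace Pool.Agent.Lib.MP_af3016_co

open Finset SimpleGraph

variable {V : Type} [DecidableEq V] {G : SimpleGraph V} {Y : Lay V} {U : Finset V}

theorem cyc_lp_cons2 (x y : V) (t : List V) : lp (x :: y :: t) = s(x, y) ::ₘ lp (y :: t) := rfl

theorem cyc_lp_single (x : V) : lp [x] = 0 := rfl

theorem cyc_lp_append (A : List V) (a : V) (B : List V) :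
    lp (A ++ a :: B) = lp (A ++ [a]) + lp (a :: B) := by
  induction A with
  | nil => rw [List.nil_append, List.nil_append, cyc_lp_single, zero_add]
  | cons x A ih =>
    cases A with
    | nil =>
      simp only [List.cons_append, List.nil_append, cyc_lp_cons2, cyc_lp_single,
        Multiset.cons_add, zero_add]
    | cons y A =>
      simp only [List.cons_append, cyc_lp_cons2] at ih ⊢
      rw [ih, Multiset.cons_add]

theorem cyc_lp_join {l1 l2 : List V} {a b : V} (h1 : l1.getLast? = some a)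
    (h2 : l2.head? = some b) : lp (l1 ++ l2) = s(a, b) ::ₘ (lp l1 + lp l2) := by
  obtain ⟨A, rfl⟩ := List.getLast?_eq_some_iff.1 h1
  obtain ⟨B, rfl⟩ := List.head?_eq_some_iff.1 h2
  rw [List.append_assoc, List.singleton_append, cyc_lp_append, cyc_lp_cons2, Multiset.add_cons]

theorem cyc_lp_reverse (l : List V) : lp l.reverse = lp l := by
  induction l with
  | nil => rfl
  | cons x t ih =>
    cases t with
    | nil => rfl
    | cons y t =>
      rw [List.reverse_cons, cyc_lp_join (a := y) (b := x) (by simp) rfl, ih, cyc_lp_single,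
        add_zero, cyc_lp_cons2, Sym2.eq_swap]

theorem cyc_mem_lp {e : Sym2 V} {l : List V} (h : e ∈ lp l) :
    ∃ A a b B, l = A ++ a :: b :: B ∧ e = s(a, b) := by
  induction l with
  | nil => exact absurd h (Multiset.notMem_zero e)
  | cons x t ih =>
    cases t with
    | nil => exact absurd h (Multiset.notMem_zero e)
    | cons y t =>
      rw [cyc_lp_cons2, Multiset.mem_cons] at h
      rcases h with h | h
      · exact ⟨[], x, y, t, rfl, h⟩
      · obtain ⟨A, a, b, B, h1, h2⟩ := ih h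
        exact ⟨x :: A, a, b, B, by rw [h1, List.cons_append], h2⟩

theorem cyc_card_lp (x : V) (t : List V) : (lp (x :: t)).card = t.length := by
  induction t generalizing x with
  | nil => rfl
  | cons y t ih => rw [cyc_lp_cons2, Multiset.card_cons, ih, List.length_cons]

theorem cyc_ends {l : List V} {p q : V} (h : s(p, q) ∈ lp l) : p ∈ l ∧ q ∈ l := by
  obtain ⟨A, a, b, B, rfl, h2⟩ := cyc_mem_lp h
  rcases Sym2.eq_iff.1 h2 with ⟨rfl, rfl⟩ | ⟨rfl, rfl⟩ <;> simp

theorem cyc_ends' {x : V} {t : List V} {p q : V} (h : s(p, q) ∈ lp (x :: (t ++ [x]))) :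
    p ∈ x :: t ∧ q ∈ x :: t := by
  have := cyc_ends h
  simp only [List.mem_cons, List.mem_append, List.not_mem_nil, or_false] at this ⊢
  tauto

theorem cyc_card {X : Finset V} {l : List V} (h1 : l.Nodup) (h2 : ∀ v, v ∈ l ↔ v ∈ X) :
    X.card = l.length := by
  rw [← List.toFinset_card_of_nodup h1]
  congr 1
  ext v
  rw [List.mem_toFinset, h2]

theorem cyc_next {l : List V} {p : V} (x : V) (hp : p ∈ l) : ∃ q, s(p, q) ∈ lp (l ++ [x]) := by
  obtain ⟨A, B, rfl⟩ := List.append_of_mem hp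
  rw [List.append_assoc, List.cons_append, cyc_lp_append]
  cases B with
  | nil => exact ⟨x, Multiset.mem_add.2 (Or.inr (Multiset.mem_cons_self _ _))⟩
  | cons y B => exact ⟨y, Multiset.mem_add.2 (Or.inr (Multiset.mem_cons_self _ _))⟩

theorem cyc_cut0 {x : V} {t : List V} {e : Sym2 V} (h : e ∈ lp (x :: (t ++ [x]))) :
    ∃ (l : List V) (a b : V), l.head? = some a ∧ l.getLast? = some b ∧ e = s(a, b) ∧
      l.Perm (x :: t) ∧ lp (x :: (t ++ [x])) = e ::ₘ lp l := by
  obtain ⟨z, hz⟩ : ∃ z, (x :: t).getLast? = some z :=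
    ⟨_, List.getLast?_eq_some_getLast (List.cons_ne_nil x t)⟩
  have e1 : lp (x :: (t ++ [x])) = s(z, x) ::ₘ lp (x :: t) := by
    rw [← List.cons_append, cyc_lp_join hz rfl, cyc_lp_single, add_zero]
  rw [e1] at h ⊢
  rcases Multiset.mem_cons.1 h with h | h
  · exact ⟨x :: t, x, z, rfl, hz, by rw [h, Sym2.eq_swap], List.Perm.refl _, by rw [h]⟩
  · obtain ⟨A, a, b, B, h1, rfl⟩ := cyc_mem_lp h
    have g1 : (b :: B).getLast? = some z := by
      rw [h1, ← List.singleton_append, ← List.append_assoc,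
        List.getLast?_append_of_ne_nil _ (List.cons_ne_nil b B)] at hz
      exact hz
    have g2 : (A ++ [a]).head? = some x := by
      have : (x :: t).head? = some x := rfl
      rw [h1] at this
      cases A with
      | nil => exact this
      | cons y A => exact this
    refine ⟨(b :: B) ++ (A ++ [a]), b, a, rfl,
      by rw [← List.append_assoc, List.getLast?_concat], Sym2.eq_swap, ?_, ?_⟩
    · rw [h1]
      refine List.perm_append_comm.trans ?_
      rw [List.append_assoc, List.singleton_append]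
    · rw [cyc_lp_join g1 g2, h1, cyc_lp_append, cyc_lp_cons2, Multiset.add_cons,
        Multiset.cons_swap, add_comm]

theorem cyc_walk {a b : V} (w : G.Walk a b) : ∀ e ∈ lp w.support, e ∈ G.edgeSet := by
  induction w with
  | nil => intro e he; exact absurd he (Multiset.notMem_zero e)
  | @cons a c b hac w ih =>
    intro e he
    rw [Walk.support_cons, ← w.cons_tail_support, cyc_lp_cons2, w.cons_tail_support,
      Multiset.mem_cons] at he
    rcases he with rfl | he
    · exact hac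
    · exact ih e he

theorem cyc_hp (t : List V) : ∀ (p q : V), (p :: t).getLast? = some q → (p :: t).Nodup →
    (∀ e ∈ lp (p :: t), e ∈ G.edgeSet) → HP G p q (p :: t).toFinset := by
  induction t with
  | nil =>
    intro p q h _ _
    obtain rfl : p = q := by simpa using h
    simpa using HP.single p
  | cons y t ih =>
    intro p q h1 h2 h3
    rw [List.nodup_cons] at h2
    rw [cyc_lp_cons2] at h3
    rw [List.toFinset_cons]
    exact (ih y q (by rw [← h1, List.getLast?_cons_cons]) h2.2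
      fun e he => h3 e (Multiset.mem_cons_of_mem he)).cons
      (h3 _ (Multiset.mem_cons_self _ _)) fun g => h2.1 (List.mem_toFinset.1 g)

/-- an edge among the pairs is turned into a gap -/
theorem cyc_open {X : Finset V} {gs es : Multiset (Sym2 V)} {x : V} {t : List V} {e : Sym2 V}
    (h1 : (x :: t).Nodup) (h2 : ∀ v, v ∈ x :: t ↔ v ∈ X) (h3 : lp (x :: (t ++ [x])) = gs + es)
    (h4 : ∀ e ∈ es, e ∈ G.edgeSet) (he : e ∈ es) : CS G X (e ::ₘ gs) := by
  obtain ⟨es', rfl⟩ := Multiset.exists_cons_of_mem he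
  exact ⟨x, t, h1, h2, es', by rw [h3, Multiset.add_cons, Multiset.cons_add],
    fun f hf => h4 f (Multiset.mem_cons_of_mem hf)⟩

theorem CS.mem {X : Finset V} {gs : Multiset (Sym2 V)} {p q : V} (h : CS G X gs)
    (hg : s(p, q) ∈ gs) : p ∈ X ∧ q ∈ X := by
  obtain ⟨x, t, -, h2, es, h3, -⟩ := h
  have := cyc_ends' (x := x) (t := t) (p := p) (q := q)
    (by rw [h3]; exact Multiset.mem_add.2 (Or.inl hg))
  exact ⟨(h2 p).1 this.1, (h2 q).1 this.2⟩

theorem CS.card_le {X : Finset V} {gs : Multiset (Sym2 V)} (h : CS G X gs) :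
    gs.card ≤ X.card := by
  obtain ⟨x, t, h1, h2, es, h3, -⟩ := h
  have e1 := cyc_card h1 h2
  have e2 := cyc_card_lp x (t ++ [x])
  rw [h3, Multiset.card_add, List.length_append, List.length_singleton] at e2
  rw [List.length_cons] at e1
  omega

theorem CS.congr {G' : SimpleGraph V} {X : Finset V} {gs : Multiset (Sym2 V)} (h : CS G X gs)
    (hG : ∀ x ∈ X, ∀ y ∈ X, G.Adj x y → G'.Adj x y) : CS G' X gs := by
  obtain ⟨x, t, h1, h2, es, h3, h4⟩ := h
  refine ⟨x, t, h1, h2, es, h3, fun e he => ?_⟩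
  induction e using Sym2.ind with
  | _ p q =>
    have := cyc_ends' (x := x) (t := t) (p := p) (q := q)
      (by rw [h3]; exact Multiset.mem_add.2 (Or.inr he))
    exact hG p ((h2 p).1 this.1) q ((h2 q).1 this.2) (h4 _ he)

/-- a gap that is an edge is closed -/
theorem CS.edge {X : Finset V} {gs : Multiset (Sym2 V)} {p q : V} (h : CS G X (s(p, q) ::ₘ gs))
    (hpq : G.Adj p q) : CS G X gs := by
  obtain ⟨x, t, h1, h2, es, h3, h4⟩ := h
  refine ⟨x, t, h1, h2, s(p, q) ::ₘ es, by rw [h3, Multiset.add_cons, Multiset.cons_add],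
    fun e he => ?_⟩
  rcases Multiset.mem_cons.1 he with rfl | he
  · exact hpq
  · exact h4 e he

/-- some edge of the order is opened -/
theorem CS.open {X : Finset V} {gs : Multiset (Sym2 V)} (h : CS G X gs) (hlt : gs.card < X.card) :
    ∃ p q, G.Adj p q ∧ CS G X (s(p, q) ::ₘ gs) := by
  obtain ⟨x, t, h1, h2, es, h3, h4⟩ := h
  have e1 := cyc_card h1 h2
  have e2 := cyc_card_lp x (t ++ [x])
  rw [h3, Multiset.card_add, List.length_append, List.length_singleton] at e2
  rw [List.length_cons] at e1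
  obtain ⟨e, he⟩ := Multiset.card_pos_iff_exists_mem.1 (show 0 < es.card by omega)
  induction e using Sym2.ind with
  | _ p q => exact ⟨p, q, h4 _ he, cyc_open h1 h2 h3 h4 he⟩

/-- an edge of the order at a prescribed vertex is opened -/
theorem CS.openAt {X : Finset V} {gs : Multiset (Sym2 V)} {p : V} (h : CS G X gs) (hp : p ∈ X)
    (hn : ∀ q, s(p, q) ∉ gs) : ∃ q, G.Adj p q ∧ CS G X (s(p, q) ::ₘ gs) := by
  obtain ⟨x, t, h1, h2, es, h3, h4⟩ := h
  obtain ⟨q, hq⟩ := cyc_next x ((h2 p).2 hp)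
  rw [List.cons_append, h3, Multiset.mem_add] at hq
  have he := hq.resolve_left (hn q)
  exact ⟨q, h4 _ he, cyc_open h1 h2 h3 h4 he⟩

/-- the linear order obtained by cutting at a gap -/
theorem CS.cut {X : Finset V} {gs : Multiset (Sym2 V)} {p q : V} (h : CS G X (s(p, q) ::ₘ gs)) :
    ∃ l : List V, l.head? = some p ∧ l.getLast? = some q ∧ l.Nodup ∧ (∀ v, v ∈ l ↔ v ∈ X) ∧
      ∃ es, lp l = gs + es ∧ ∀ e ∈ es, e ∈ G.edgeSet := by
  obtain ⟨x, t, h1, h2, es, h3, h4⟩ := h
  obtain ⟨l, a, b, g1, g2, g3, g4, g5⟩ := cyc_cut0 (x := x) (t := t) (e := s(p, q))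
    (by rw [h3]; exact Multiset.mem_add.2 (Or.inl (Multiset.mem_cons_self _ _)))
  rw [h3, Multiset.cons_add, Multiset.cons_inj_right] at g5
  have n : l.Nodup := g4.nodup_iff.2 h1
  have m : ∀ v, v ∈ l ↔ v ∈ X := fun v => g4.mem_iff.trans (h2 v)
  rcases Sym2.eq_iff.1 g3 with ⟨rfl, rfl⟩ | ⟨rfl, rfl⟩
  · exact ⟨l, g1, g2, n, m, es, g5.symm, h4⟩
  · exact ⟨l.reverse, by rw [List.head?_reverse, g2], by rw [List.getLast?_reverse, g1],
      List.nodup_reverse.2 n, fun v => List.mem_reverse.trans (m v), es,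
      by rw [cyc_lp_reverse, g5], h4⟩

/-- closing a linear order -/
theorem cs_of_list {X : Finset V} {gs es : Multiset (Sym2 V)} {p q : V} {l : List V}
    (h1 : l.head? = some p) (h2 : l.getLast? = some q) (h3 : l.Nodup) (h4 : ∀ v, v ∈ l ↔ v ∈ X)
    (h5 : lp l = gs + es) (h6 : ∀ e ∈ es, e ∈ G.edgeSet) : CS G X (s(p, q) ::ₘ gs) := by
  obtain ⟨t, rfl⟩ := List.head?_eq_some_iff.1 h1
  refine ⟨p, t, h3, h4, es, ?_, h6⟩
  rw [← List.cons_append, cyc_lp_join h2 rfl, cyc_lp_single, add_zero, h5, Multiset.cons_add,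
    Sym2.eq_swap]

theorem HP.cs {X : Finset V} {x y : V} (h : HP G x y X) : CS G X {s(x, y)} := by
  obtain ⟨w, h1, h2⟩ := h
  exact cs_of_list (gs := 0) (es := lp w.support) (l := w.support)
    (by rw [← w.cons_tail_support]; rfl)
    (by rw [List.getLast?_eq_some_getLast w.support_ne_nil, w.getLast_support])
    h1.support_nodup h2 (zero_add _).symm (cyc_walk w)

theorem CS.path {X : Finset V} {p q : V} (h : CS G X {s(p, q)}) : HP G p q X := by
  obtain ⟨l, g1, g2, g3, g4, es, g5, g6⟩ := CS.cut (gs := 0) h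
  obtain ⟨t, rfl⟩ := List.head?_eq_some_iff.1 g1
  rw [zero_add] at g5
  have e : (p :: t).toFinset = X := by
    ext v
    rw [List.mem_toFinset, g4]
  exact e ▸ cyc_hp t p q g2 g3 (by rw [g5]; exact g6)

theorem cyc_glue {X X' : Finset V} {gs gs' : Multiset (Sym2 V)} {p q p' q' : V}
    (h : CS G X (s(p, q) ::ₘ gs)) (h' : CS G X' (s(p', q') ::ₘ gs')) (hd : Disjoint X X') :
    CS G (X ∪ X') (s(p, p') ::ₘ s(q, q') ::ₘ (gs + gs')) := by
  obtain ⟨l, g1, g2, g3, g4, es, g5, g6⟩ := h.cut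
  obtain ⟨l', k1, k2, k3, k4, es', k5, k6⟩ := h'.cut
  have n : l ≠ [] := by rintro rfl; simp at g1
  have n' : l'.reverse ≠ [] := by
    rw [Ne, List.reverse_eq_nil_iff]
    rintro rfl
    simp at k1
  refine cs_of_list (es := es + es') (l := l ++ l'.reverse) ?_ ?_ ?_ (fun v => ?_) ?_
    fun e he => (Multiset.mem_add.1 he).elim (g6 e) (k6 e)
  · rw [List.head?_append_of_ne_nil _ n, g1]
  · rw [List.getLast?_append_of_ne_nil _ n', List.getLast?_reverse, k1]
  · rw [List.nodup_append]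
    refine ⟨g3, List.nodup_reverse.2 k3, fun a ha b hb e => ?_⟩
    exact Finset.disjoint_left.1 hd ((g4 a).1 ha) ((k4 a).1 (e ▸ List.mem_reverse.1 hb))
  · rw [List.mem_append, List.mem_reverse, g4, k4, mem_union]
  · rw [cyc_lp_join g2 (by rw [List.head?_reverse, k2]), cyc_lp_reverse, g5, k5,
      Multiset.cons_add, add_add_add_comm]

/-- a gap is filled by a path outside -/
theorem CS.fill {X Z : Finset V} {gs : Multiset (Sym2 V)} {p q z z' : V}
    (h : CS G X (s(p, q) ::ₘ gs)) (hZ : HP G z z' Z) (h1 : G.Adj p z) (h2 : G.Adj q z')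
    (hd : Disjoint X Z) : CS G (X ∪ Z) gs := by
  have := cyc_glue (gs' := 0) h hZ.cs hd
  rw [add_zero] at this
  exact (this.edge h1).edge h2

/-- two orders are cut at a gap each and glued -/
theorem CS.glue {X X' : Finset V} {gs gs' : Multiset (Sym2 V)} {p q p' q' : V}
    (h : CS G X (s(p, q) ::ₘ gs)) (h' : CS G X' (s(p', q') ::ₘ gs')) (hd : Disjoint X X') :
    CS G (X ∪ X') (s(p, p') ::ₘ s(q, q') ::ₘ (gs + gs')) := by
  exact cyc_glue h h' hd

theorem CS.done {X : Finset V} (h : CS G X 0) (h3 : 3 ≤ X.card) : HC G X := by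
  obtain ⟨p, q, g1, g2⟩ := h.open (by rw [Multiset.card_zero]; omega)
  exact (CS.path g2).cycle g1.symm h3

theorem HC.cs {X : Finset V} (h : HC G X) : CS G X 0 := by
  obtain ⟨t, ht⟩ : X.Nonempty := card_pos.1 (by have := h.three; omega)
  obtain ⟨p, h1, h2⟩ := h.open ht
  exact CS.edge (gs := 0) h1.cs h2.symm

theorem exists_cs (G : SimpleGraph V) {X : Finset V} (h : X.Nonempty) : ∃ gs, CS G X gs := by
  obtain ⟨x, t, e⟩ := List.exists_cons_of_ne_nil (l := X.toList)
    (fun g => h.ne_empty (toList_eq_nil.1 g))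
  exact ⟨lp (x :: (t ++ [x])), x, t, e ▸ X.nodup_toList, fun v => e ▸ mem_toList, 0,
    (add_zero _).symm, fun f hf => absurd hf (Multiset.notMem_zero f)⟩

/-- the edges of a larger graph become gaps -/
theorem CS.virt {G' : SimpleGraph V} {X : Finset V} {gs : Multiset (Sym2 V)} (h : CS G' X gs) :
    ∃ gs', CS G X (gs + gs') ∧ ∀ p q, s(p, q) ∈ gs' → G'.Adj p q ∧ ¬G.Adj p q := by
  classical
  obtain ⟨x, t, h1, h2, es, h3, h4⟩ := h
  refine ⟨es.filter fun e => ¬e ∈ G.edgeSet, ⟨x, t, h1, h2, es.filter fun e => e ∈ G.edgeSet, ?_,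
    fun e he => (Multiset.mem_filter.1 he).2⟩, fun p q he => ?_⟩
  · rw [h3, add_assoc, add_comm (es.filter _), Multiset.filter_add_not]
  · rw [Multiset.mem_filter] at he
    exact ⟨h4 _ he.1, he.2⟩

end Pool.Agent.Lib.MP_af3016_co
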