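import Pool.Agent.Lib.MP_af3016_co.F.Tools

/-! Layered reservoirs and cyclic orders with gaps. -/

set_option autoImplicit false
set_option linter.unusedSectionVars false

namespace Pool.Agent.Lib.MP_af3016_co

open Finset SimpleGraph

/-- a layering: `f v` is the layer of `v` (layer `0` is the bottom), layer `i` has the nominal
size `a i + b i` and the budget `b i` -/
structure Lay (V : Type) where
  f : V → ℕ
  a : ℕ → ℕ
  b : ℕ → ℕ

variable {V : Type} [DecidableEq V] {G : SimpleGraph V}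

/-- the members of `U` in the layers `t, ..., g - 1` -/
def Lay.iv (Y : Lay V) (U : Finset V) (t g : ℕ) : Finset V :=
  U.filter fun v => t ≤ Y.f v ∧ Y.f v < g

/-- the sum of `a` over the layers below `t` -/
def Lay.A (Y : Lay V) (t : ℕ) : ℕ := ∑ i ∈ range t, Y.a i

/-- the sum of `b` over the layers below `t` -/
def Lay.B (Y : Lay V) (t : ℕ) : ℕ := ∑ i ∈ range t, Y.b i

/-- `u` has defect `e` for the layers below `g` -/
def Df (G : SimpleGraph V) (Y : Lay V) (U : Finset V) (g : ℕ) (u : V) (e : ℕ) : Prop :=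
  ∀ t < g, dH G u (Y.iv U t g) + 1 + Y.B t ≤ Y.B g + e

/-- the members of `U` in the layers below `m` form a reservoir with slack `s` -/
structure Rs (G : SimpleGraph V) (Y : Lay V) (U : Finset V) (m s : ℕ) : Prop where
  ba : ∀ l < m, Y.b l ≤ Y.a l
  one : ∀ l < m, 1 ≤ Y.b l
  leg : ∀ t ≤ m, Y.A t + Y.B t ≤ (Y.iv U 0 t).card
  top : (Y.iv U 0 m).card = Y.A m + Y.B m + s
  int : ∀ v ∈ U, Y.f v < m → Df G Y U (Y.f v + 1) v 0

/-- a path on `r` vertices of the reservoir joins `u` and `u'` and leaves the slack `w` -/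
def Lnk (G : SimpleGraph V) (Y : Lay V) (U : Finset V) (m r w : ℕ) (u u' : V) : Prop :=
  ∃ z z' Z, HP G z z' Z ∧ G.Adj u z ∧ G.Adj u' z' ∧ Z ⊆ Y.iv U 0 m ∧ Z.card = r ∧
    Rs G Y (U \ Z) m w

/-- the order condition on the layers below `m` -/
def Lay.Ord (Y : Lay V) (m : ℕ) : Prop := ∀ l, l + 1 < m → Y.b (l + 1) ≤ Y.a l

/-- `D` is completed to a cycle by the whole slack `s` of the reservoir -/
def Fil (G : SimpleGraph V) (Y : Lay V) (U : Finset V) (m s : ℕ) (D : Finset V) : Prop :=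
  ∃ Z, Z ⊆ Y.iv U 0 m ∧ Z.card = s ∧ HC G (D ∪ Z) ∧ Rs G Y (U \ Z) m 0

/-- a class `D` of nominal size `α + β` above a reservoir -/
structure Top (G : SimpleGraph V) (Y : Lay V) (U : Finset V) (m s : ℕ) (D : Finset V)
    (α β : ℕ) : Prop where
  rs : Rs G Y U m s
  ba : β ≤ α
  ab : α ≤ β + 1
  three : 3 ≤ α + β
  card : D.card + s = α + β
  disj : Disjoint D (Y.iv U 0 m)
  hap : Hap G D β
  df : ∀ v ∈ D, Df G Y U m v (β - dH G v D)

/-- the last class: all slacks are positive and the bounds for the upper parts hold -/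
structure Star (G : SimpleGraph V) (Y : Lay V) (U : Finset V) (m s : ℕ) (D : Finset V)
    (α β : ℕ) : Prop extends Top G Y U m s D α β where
  pos : ∀ t, 1 ≤ t → t ≤ m → Y.A t + Y.B t + 1 ≤ (Y.iv U 0 t).card
  two : ∀ l < m, 2 ≤ Y.a l
  suf : ∀ v ∈ U, Y.f v < m → ∀ t ≤ Y.f v,
    dH G v D + dH G v (Y.iv U t m) + 1 + Y.B t ≤ Y.B m + β

/-- the claim for all smaller sets and all lists -/
def Ia (G : SimpleGraph V) (n : ℕ) : Prop :=
  ∀ (X : Finset V) (L : Multiset ℕ), X.card < n → (∀ x ∈ L, 3 ≤ x) → L.sum = X.card →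
    Hap G X (bS L) → Til G X L

/-- the list of the layers `0, ..., m`, the bottom layer having the list `I` -/
def Lay.lst (Y : Lay V) (I : Multiset ℕ) (m : ℕ) : Multiset ℕ :=
  I + ∑ l ∈ range m, {Y.a (l + 1) + Y.b (l + 1)}

/-- the layers `1, ..., m` are single cycles in non-increasing order above a block -/
structure Stk (G : SimpleGraph V) (W : Finset V) (Y : Lay V) (I : Multiset ℕ) (m : ℕ) :
    Prop where
  sq : Sq G W I (Y.a 0) (Y.b 0)
  len : ∀ l < m, Y.b (l + 1) ≤ Y.a (l + 1) ∧ Y.a (l + 1) ≤ Y.b (l + 1) + 1 ∧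
    3 ≤ Y.a (l + 1) + Y.b (l + 1)
  dec : ∀ l < m, Y.a (l + 1) ≤ Y.a l ∧ Y.b (l + 1) ≤ Y.b l

/-- a class `D` between a reservoir with slack `σ` and a block `B` with surplus `μ` -/
structure Mid (G : SimpleGraph V) (W : Finset V) (Y : Lay V) (U : Finset V) (g : ℕ)
    (D B : Finset V) (α β α' β' σ μ : ℕ) (I J : Multiset ℕ) : Prop where
  ih : Ia G W.card
  stk : Stk G W Y I g
  sJ : Sq G W J α' β'
  lI : Y.a 0 = aS I ∧ Y.b 0 = bS I
  lJ : α' = aS J ∧ β' = bS J ∧ ∀ x ∈ J, 5 ≤ x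
  rs : Rs G Y U (g + 1) σ
  pos : ∀ t, 1 ≤ t → t ≤ g + 1 → Y.A t + Y.B t + 1 ≤ (Y.iv U 0 t).card
  sub : U ⊆ W
  mem : ∀ v, v ∈ W ↔ v ∈ Y.iv U 0 (g + 1) ∨ v ∈ D ∨ v ∈ B
  dD : Disjoint D (Y.iv U 0 (g + 1))
  dB : Disjoint B (Y.iv U 0 (g + 1))
  dDB : Disjoint D B
  ba : β ≤ α
  ab : α ≤ β + 1
  five : 5 ≤ α + β
  lo : α ≤ Y.a g ∧ β ≤ Y.b g
  up : α ≤ α' ∧ β ≤ β'
  mu : 1 ≤ μ
  cD : D.card + σ + μ = α + β
  cB : B.card = α' + β' + μ
  hapD : Hap G D β
  hapB : Hap G B β'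
  df : ∀ v ∈ D, Df G Y U (g + 1) v (β - dH G v D)
  suf : ∀ t ≤ g + 1, ∀ v, v ∈ Y.iv U t (g + 1) ∨ v ∈ D ∨ v ∈ B →
    dH G v (Y.iv U t (g + 1)) + dH G v D + dH G v B + 1 + Y.B t ≤ Y.B (g + 1) + β + β'

/-- the class is completed by the whole slack and the whole surplus -/
def Fin2 (G : SimpleGraph V) (Y : Lay V) (U : Finset V) (g : ℕ) (D B : Finset V) (σ μ : ℕ) :
    Prop :=
  ∃ Z Z', Z ⊆ Y.iv U 0 (g + 1) ∧ Z' ⊆ B ∧ Z.card = σ ∧ Z'.card = μ ∧ HC G (D ∪ Z ∪ Z') ∧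
    Rs G Y (U \ Z) (g + 1) 0

/-- the block `B` as a layering with one layer -/
def flat (V : Type) (α β : ℕ) : Lay V := ⟨fun _ => 0, fun _ => α, fun _ => β⟩

/-- `σ` is the successor function of a spanning cycle (or of the edge) on `D` -/
structure Cyc (G : SimpleGraph V) (D : Finset V) (σ : V → V) : Prop where
  mem : ∀ v ∈ D, σ v ∈ D
  inj : ∀ p ∈ D, ∀ q ∈ D, σ p = σ q → p = q
  adj : ∀ v ∈ D, G.Adj v (σ v)
  path : ∀ v ∈ D, HP G (σ v) v D
  succ : ∀ p ∈ D, ∀ q ∈ D, p ≠ q → D.card + 1 ≤ dG G (σ p) D + dG G (σ q) D → HP G p q D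

/-- the consecutive pairs of a list -/
def lp : List V → Multiset (Sym2 V)
  | x :: y :: t => s(x, y) ::ₘ lp (y :: t)
  | _ => 0

/-- a cyclic order of `X` all of whose consecutive pairs outside `gs` are edges -/
def CS (G : SimpleGraph V) (X : Finset V) (gs : Multiset (Sym2 V)) : Prop :=
  ∃ (x : V) (t : List V), (x :: t).Nodup ∧ (∀ v, v ∈ x :: t ↔ v ∈ X) ∧
    ∃ es, lp (x :: (t ++ [x])) = gs + es ∧ ∀ e ∈ es, e ∈ G.edgeSet

variable {Y : Lay V} {U : Finset V}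

theorem Lay.mem_iv {t g : ℕ} {v : V} : v ∈ Y.iv U t g ↔ v ∈ U ∧ t ≤ Y.f v ∧ Y.f v < g :=
  mem_filter

theorem Lay.A_zero (Y : Lay V) : Y.A 0 = 0 := rfl

theorem Lay.B_zero (Y : Lay V) : Y.B 0 = 0 := rfl

theorem Lay.A_succ (Y : Lay V) (t : ℕ) : Y.A (t + 1) = Y.A t + Y.a t := sum_range_succ _ _

theorem Lay.B_succ (Y : Lay V) (t : ℕ) : Y.B (t + 1) = Y.B t + Y.b t := sum_range_succ _ _

theorem Lay.A_mono (Y : Lay V) {t g : ℕ} (h : t ≤ g) : Y.A t ≤ Y.A g :=
  sum_le_sum_of_subset (range_mono h)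

theorem Lay.B_mono (Y : Lay V) {t g : ℕ} (h : t ≤ g) : Y.B t ≤ Y.B g :=
  sum_le_sum_of_subset (range_mono h)

theorem Lay.iv_sub (Y : Lay V) (U : Finset V) (t g : ℕ) : Y.iv U t g ⊆ U := filter_subset _ _

theorem Lay.iv_self (Y : Lay V) (U : Finset V) (t : ℕ) : Y.iv U t t = ∅ :=
  eq_empty_of_forall_notMem fun v hv => by rw [Lay.mem_iv] at hv; omega

theorem Lay.iv_mono {U' : Finset V} {t g t' g' : ℕ} (h : U ⊆ U') (ht : t' ≤ t) (hg : g ≤ g') :
    Y.iv U t g ⊆ Y.iv U' t' g' := fun v hv => by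
  rw [Lay.mem_iv] at hv ⊢
  exact ⟨h hv.1, by omega, by omega⟩

theorem Lay.iv_sdiff (Y : Lay V) (U Z : Finset V) (t g : ℕ) :
    Y.iv (U \ Z) t g = Y.iv U t g \ Z := by
  ext v
  simp only [Lay.mem_iv, mem_sdiff]
  tauto

theorem Lay.iv_disj (Y : Lay V) (U : Finset V) (t l g : ℕ) :
    Disjoint (Y.iv U t l) (Y.iv U l g) :=
  Finset.disjoint_left.2 fun v h1 h2 => by rw [Lay.mem_iv] at h1 h2; omega

theorem Lay.iv_union (Y : Lay V) (U : Finset V) {t l g : ℕ} (h1 : t ≤ l) (h2 : l ≤ g) :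
    Y.iv U t l ∪ Y.iv U l g = Y.iv U t g := by
  ext v
  simp only [Lay.mem_iv, mem_union]
  constructor
  · rintro (h | h) <;> exact ⟨h.1, by omega, by omega⟩
  · intro h
    by_cases e : Y.f v < l
    exacts [Or.inl ⟨h.1, h.2.1, e⟩, Or.inr ⟨h.1, by omega, h.2.2⟩]

theorem Lay.card_iv (Y : Lay V) (U : Finset V) {t l g : ℕ} (h1 : t ≤ l) (h2 : l ≤ g) :
    (Y.iv U t l).card + (Y.iv U l g).card = (Y.iv U t g).card := by
  rw [← card_union_of_disjoint (Y.iv_disj U t l g), Y.iv_union U h1 h2]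

theorem Lay.dH_iv (Y : Lay V) (U : Finset V) (u : V) {t l g : ℕ} (h1 : t ≤ l) (h2 : l ≤ g) :
    dH G u (Y.iv U t l) + dH G u (Y.iv U l g) = dH G u (Y.iv U t g) := by
  rw [← dH_union (Y.iv_disj U t l g), Y.iv_union U h1 h2]

theorem Lay.dG_iv (Y : Lay V) (U : Finset V) (u : V) {t l g : ℕ} (h1 : t ≤ l) (h2 : l ≤ g) :
    dG G u (Y.iv U t l) + dG G u (Y.iv U l g) = dG G u (Y.iv U t g) := by
  rw [← dG_union (Y.iv_disj U t l g), Y.iv_union U h1 h2]

theorem Df.mono {g e e' : ℕ} {u : V} (h : Df G Y U g u e) (he : e ≤ e') : Df G Y U g u e' :=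
  fun t ht => by have := h t ht; omega

theorem Df.sub {U' : Finset V} {g e : ℕ} {u : V} (h : Df G Y U g u e) (hU : U' ⊆ U) :
    Df G Y U' g u e := fun t ht => by
  have := h t ht
  have := dH_mono (G := G) (a := u) (Lay.iv_mono (Y := Y) hU (le_refl t) (le_refl g))
  omega

theorem Df.sdiff {g e : ℕ} {u : V} (h : Df G Y U g u e) (Z : Finset V) : Df G Y (U \ Z) g u e :=
  h.sub sdiff_subset

/-- passing to lower layers: the defect grows by the unused budget -/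
theorem Df.down {l g e e' : ℕ} {u : V} (h : Df G Y U g u e) (hl : l ≤ g)
    (he : e + Y.B g ≤ e' + Y.B l + dH G u (Y.iv U l g)) : Df G Y U l u e' := fun t ht => by
  have := h t (by omega)
  have := Y.dH_iv (G := G) U u ht.le hl
  omega

theorem Df.down1 {g e e' : ℕ} {u : V} (h : Df G Y U (g + 1) u e)
    (he : e + Y.b g ≤ e' + dH G u (Y.iv U g (g + 1))) : Df G Y U g u e' :=
  h.down (Nat.le_succ g) (by rw [Y.B_succ]; omega)

theorem Rs.AB {m s : ℕ} (h : Rs G Y U m s) {t g : ℕ} (ht : t ≤ g) (hg : g ≤ m) :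
    Y.B g + Y.A t ≤ Y.A g + Y.B t := by
  induction g, ht using Nat.le_induction with
  | base => omega
  | succ g _ ih =>
    have := ih (by omega)
    have := h.ba g (by omega)
    rw [Y.A_succ, Y.B_succ]
    omega

/-- the lower layers form a reservoir -/
theorem Rs.low {m s t : ℕ} (h : Rs G Y U m s) (ht : t ≤ m) : ∃ s', Rs G Y U t s' :=
  ⟨(Y.iv U 0 t).card - (Y.A t + Y.B t), fun l hl => h.ba l (by omega),
    fun l hl => h.one l (by omega), fun l hl => h.leg l (by omega),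
    by have := h.leg t ht; omega, fun v hv g => h.int v hv (by omega)⟩

theorem Rs.down {g s : ℕ} (h : Rs G Y U (g + 1) s) :
    ∃ s', Rs G Y U g s' ∧ (Y.iv U g (g + 1)).card + s' = Y.a g + Y.b g + s := by
  obtain ⟨s', h'⟩ := h.low (Nat.le_succ g)
  refine ⟨s', h', ?_⟩
  have := Y.card_iv U (Nat.zero_le g) (Nat.le_succ g)
  have := h.top
  have := h'.top
  rw [Y.A_succ, Y.B_succ] at *
  simp only [Nat.succ_eq_add_one] at *
  omega

theorem Rs.zero {s : ℕ} (h : Rs G Y U 0 s) : s = 0 := by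
  have := h.top
  rw [Y.iv_self, card_empty] at this
  omega

/-- removal of a set that meets the layers below `t` in at most as many vertices as their slack -/
theorem Rs.remove {m r w : ℕ} (h : Rs G Y U m (r + w)) {Z : Finset V} (hZ : Z ⊆ Y.iv U 0 m)
    (hr : Z.card = r)
    (hl : ∀ t < m, Y.A t + Y.B t + (Y.iv Z 0 t).card ≤ (Y.iv U 0 t).card) :
    Rs G Y (U \ Z) m w := by
  have key : ∀ t, (Y.iv (U \ Z) 0 t).card + (Y.iv Z 0 t).card = (Y.iv U 0 t).card := fun t => by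
    have e : Y.iv (U \ Z) 0 t = Y.iv U 0 t \ Y.iv Z 0 t := by
      ext v
      simp only [Lay.mem_iv, mem_sdiff]
      tauto
    rw [e]
    exact card_sdiff_add_card_eq_card
      (Lay.iv_mono (hZ.trans (Y.iv_sub U 0 m)) (le_refl 0) (le_refl t))
  have e : Y.iv Z 0 m = Z := by
    ext v
    rw [Lay.mem_iv]
    exact ⟨fun g => g.1, fun g => ⟨g, (Lay.mem_iv.1 (hZ g)).2⟩⟩
  have h1 := key m
  rw [e] at h1
  have h2 := h.top
  refine ⟨h.ba, h.one, fun t ht => ?_, by omega,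
    fun v hv g => (h.int v (mem_sdiff.1 hv).1 g).sdiff Z⟩
  rcases ht.lt_or_eq with g | rfl
  · have := hl t g
    have := key t
    omega
  · omega

/-- removal of a set inside the layers from `i` on, all higher slacks being large -/
theorem Rs.remove_iv {m r w i : ℕ} (h : Rs G Y U m (r + w)) {Z : Finset V} (hZ : Z ⊆ Y.iv U i m)
    (hr : Z.card = r) (hl : ∀ t, i < t → t < m → Y.A t + Y.B t + r ≤ (Y.iv U 0 t).card) :
    Rs G Y (U \ Z) m w := by
  refine h.remove (hZ.trans (Lay.iv_mono (Subset.refl U) (Nat.zero_le i) (le_refl m))) hr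
    fun t ht => ?_
  by_cases e : i < t
  · have := hl t e ht
    have := card_le_card (Y.iv_sub Z 0 t)
    omega
  · have : Y.iv Z 0 t = ∅ := eq_empty_of_forall_notMem fun v hv => by
      rw [Lay.mem_iv] at hv
      have := Lay.mem_iv.1 (hZ hv.1)
      omega
    rw [this, card_empty]
    exact h.leg t ht.le

/-- removal of a vertex of the top layer -/
theorem Rs.remove_top {g s : ℕ} (h : Rs G Y U (g + 1) (1 + s)) {z : V}
    (hz : z ∈ Y.iv U g (g + 1)) : Rs G Y (U \ {z}) (g + 1) s :=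
  h.remove_iv (singleton_subset_iff.2 hz) (card_singleton z) fun t h1 h2 => by omega

/-- a removal that is legal for the layers below `g` is legal if the higher slacks are large -/
theorem Rs.lift {m r w g w' : ℕ} (h : Rs G Y U m (r + w)) (hg : g ≤ m) {Z : Finset V}
    (hZ : Z ⊆ Y.iv U 0 g) (hr : Z.card = r) (h' : Rs G Y (U \ Z) g w')
    (hl : ∀ t, g < t → t < m → Y.A t + Y.B t + r ≤ (Y.iv U 0 t).card) : Rs G Y (U \ Z) m w := by
  refine h.remove (hZ.trans (Lay.iv_mono (Subset.refl U) (le_refl 0) hg)) hr fun t ht => ?_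
  by_cases e : g < t
  · have := hl t e ht
    have := card_le_card (Y.iv_sub Z 0 t)
    omega
  · have h1 := h'.leg t (by omega)
    have e : Y.iv (U \ Z) 0 t = Y.iv U 0 t \ Y.iv Z 0 t := by
      ext v
      simp only [Lay.mem_iv, mem_sdiff]
      tauto
    have h2 := card_sdiff_add_card_eq_card (Lay.iv_mono (Y := Y) (hZ.trans (Y.iv_sub U 0 g))
      (le_refl 0) (le_refl t))
    rw [e] at h1
    omega

theorem Lnk.lift {m r w g w' : ℕ} {u u' : V} (h : Rs G Y U m (r + w)) (hg : g ≤ m)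
    (h' : Lnk G Y U g r w' u u')
    (hl : ∀ t, g < t → t < m → Y.A t + Y.B t + r ≤ (Y.iv U 0 t).card) : Lnk G Y U m r w u u' := by
  obtain ⟨z, z', Z, h1, h2, h3, h4, h5, h6⟩ := h'
  exact ⟨z, z', Z, h1, h2, h3, h4.trans (Lay.iv_mono (Subset.refl U) (le_refl 0) hg), h5,
    h.lift hg h4 h5 h6 hl⟩

theorem Lnk.symm {m r w : ℕ} {u u' : V} (h : Lnk G Y U m r w u u') : Lnk G Y U m r w u' u := by
  obtain ⟨z, z', Z, h1, h2, h3, h4⟩ := h
  exact ⟨z', z, Z, h1.symm, h3, h2, h4⟩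

/-- a link from a removed neighbour `z` of `u` gives a link from `u` -/
theorem Lnk.cons {m r w : ℕ} {u u' z : V} (hz : z ∈ Y.iv U 0 m) (huz : G.Adj u z)
    (h : Lnk G Y (U \ {z}) m r w z u') : Lnk G Y U m (r + 1) w u u' := by
  obtain ⟨y, y', Z, h1, h2, h3, h4, h5, h6⟩ := h
  rw [Y.iv_sdiff] at h4
  have hn : z ∉ Z := fun g => (mem_sdiff.1 (h4 g)).2 (mem_singleton_self z)
  refine ⟨z, y', insert z Z, h1.cons h2 hn, huz, h3,
    insert_subset hz (h4.trans sdiff_subset), by rw [card_insert_of_notMem hn, h5], ?_⟩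
  have e : U \ insert z Z = (U \ {z}) \ Z := by
    ext v
    simp only [mem_sdiff, mem_insert, mem_singleton]
    tauto
  exact e ▸ h6

theorem Lay.Ord.mono {m t : ℕ} (h : Y.Ord m) (ht : t ≤ m) : Y.Ord t := fun l hl => h l (by omega)

/-- a spanning path of `D` is closed by a link -/
theorem Lnk.fil {m s : ℕ} {D : Finset V} {p q : V} (h : Lnk G Y U m s 0 p q) (hp : HP G p q D)
    (hd : Disjoint D (Y.iv U 0 m)) (h3 : 3 ≤ D.card + s) : Fil G Y U m s D := by
  obtain ⟨z, z', Z, h1, h2, h3', h4, h5, h6⟩ := h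
  have hZ : Disjoint D Z := hd.mono_right h4
  refine ⟨Z, h4, h5, (hp.join h1.symm (fun t ht => Finset.disjoint_left.1 hZ ht) h3'
    fun t => mem_union).cycle h2.symm ?_, h6⟩
  rw [card_union_of_disjoint hZ]
  omega

theorem flat_iv (α β : ℕ) (B : Finset V) : (flat V α β).iv B 0 1 = B := by
  ext v
  simp [Lay.mem_iv, flat]

theorem flat_ord (α β : ℕ) : (flat V α β).Ord 1 := fun _ _ => by omega

theorem flat_df {B : Finset V} {α β e : ℕ} {u : V} :
    Df G (flat V α β) B 1 u e ↔ dH G u B + 1 ≤ β + e := by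
  constructor
  · intro h
    have := h 0 Nat.one_pos
    rw [flat_iv] at this
    simpa [Lay.B, flat] using this
  · intro h t ht
    obtain rfl : t = 0 := by omega
    rw [flat_iv]
    simpa [Lay.B, flat] using h

theorem flat_rs {B : Finset V} {α β s : ℕ} (hab : β ≤ α) (h1 : 1 ≤ β) (hc : B.card = α + β + s)
    (hh : Hap G B β) : Rs G (flat V α β) B 1 s := by
  refine ⟨fun _ _ => hab, fun _ _ => h1, fun t ht => ?_, ?_,
    fun v hv _ => flat_df.2 (hh v hv)⟩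
  · rcases ht.lt_or_eq with g | rfl
    · obtain rfl : t = 0 := by omega
      simp [Lay.A, Lay.B]
    · rw [flat_iv]
      simp [Lay.A, Lay.B, flat, hc]
  · rw [flat_iv]
    simp [Lay.A, Lay.B, flat, hc]

end Pool.Agent.Lib.MP_af3016_co
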