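import Pool.Agent.Lib.MP_af3016_co.C.Link

/-! Links that need no order of the layers. -/

set_option autoImplicit false
set_option linter.unusedSectionVars false

namespace Pool.Agent.Lib.MP_af3016_co

open Finset SimpleGraph

variable {V : Type} [DecidableEq V] {G : SimpleGraph V} {Y : Lay V} {U : Finset V}

theorem walk_out {U' : Finset V} {m : ℕ} {u : V} (hu : u ∉ Y.iv U 0 m) (h : U' ⊆ U) :
    u ∉ Y.iv U' 0 m := fun g => hu (Lay.iv_mono h (le_refl 0) (le_refl m) g)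

theorem walk_self {m : ℕ} (U : Finset V) (z : V) : z ∉ Y.iv (U \ {z}) 0 m := fun g =>
  (mem_sdiff.1 (Y.iv_sub _ 0 m g)).2 (mem_singleton_self z)

theorem walk_top {g s : ℕ} (h : Rs G Y U (g + 1) s) {z : V} (hz : z ∈ Y.iv U g (g + 1)) :
    Df G Y U (g + 1) z 0 := by
  rw [Lay.mem_iv] at hz
  have e : Y.f z = g := by omega
  have := h.int z hz.1 hz.2.2
  rwa [e] at this

/-- a vertex without a neighbour in the top layer -/
theorem walk_miss {g e : ℕ} {u : V} (hu : u ∉ Y.iv U 0 (g + 1)) (d : Df G Y U (g + 1) u e)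
    (hn : ¬∃ z ∈ Y.iv U g (g + 1), G.Adj u z) :
    dH G u (Y.iv U g (g + 1)) = (Y.iv U g (g + 1)).card ∧
      (Y.iv U g (g + 1)).card + 1 ≤ Y.b g + e := by
  have h1 : dH G u (Y.iv U g (g + 1)) = (Y.iv U g (g + 1)).card :=
    dH_eq_card fun b hb => ⟨fun k => hu (k ▸ Lay.iv_mono (Subset.refl U) (Nat.zero_le g)
      (le_refl _) hb), fun k => hn ⟨b, hb, k⟩⟩
  have h2 := d g (Nat.lt_succ_self g)
  rw [Y.B_succ] at h2
  exact ⟨h1, by omega⟩

theorem link_walk {m r w e e' : ℕ} {u u' : V} (h : Rs G Y U m (r + w)) (hr : 1 ≤ r)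
    (hu : u ∉ Y.iv U 0 m) (hu' : u' ∉ Y.iv U 0 m) (d : Df G Y U m u e) (d' : Df G Y U m u' e')
    (he : e + e' ≤ w + 2) : Lnk G Y U m r w u u' := by
  induction m generalizing U r w e e' u u' with
  | zero => have := h.zero; omega
  | succ g ih =>
    induction r, hr using Nat.le_induction generalizing U e u with
    | base => exact link_one h hu hu' d d' he
    | succ r hr ihr =>
      by_cases hn : ∃ z ∈ Y.iv U g (g + 1), G.Adj u z
      · obtain ⟨z, hz, huz⟩ := hn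
        have h1 : Rs G Y (U \ {z}) (g + 1) (r + w) :=
          Rs.remove_top (by rw [show 1 + (r + w) = r + 1 + w by omega]; exact h) hz
        exact Lnk.cons (Lay.iv_mono (Subset.refl U) (Nat.zero_le g) (le_refl _) hz) huz
          (ihr h1 (walk_self U z) (walk_out hu' sdiff_subset) ((walk_top h hz).sdiff _)
            (d'.sdiff _) (by omega))
      · obtain ⟨k1, k2⟩ := walk_miss hu d hn
        obtain ⟨s', h1, h2⟩ := h.down
        have k3 := h.ba g (Nat.lt_succ_self g)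
        have k4 := h.one g (Nat.lt_succ_self g)
        obtain ⟨w1, rfl⟩ : ∃ w1, s' = r + 1 + w1 := ⟨s' - (r + 1), by omega⟩
        have q : Y.iv U 0 g ⊆ Y.iv U 0 (g + 1) :=
          Lay.iv_mono (Subset.refl U) (le_refl 0) (Nat.le_succ g)
        refine Lnk.lift h (Nat.le_succ g) (ih (e := e + Y.b g - (Y.iv U g (g + 1)).card)
          (e' := e' + Y.b g) h1 (by omega) (fun k => hu (q k)) (fun k => hu' (q k))
          (d.down1 (by omega)) (d'.down1 (by omega)) (by omega)) fun t _ _ => by omega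

theorem link_two {m w e e' : ℕ} {u u' : V} (h : Rs G Y U m (2 + w))
    (hu : u ∉ Y.iv U 0 m) (hu' : u' ∉ Y.iv U 0 m) (d : Df G Y U m u e) (d' : Df G Y U m u' e')
    (he : e ≤ w + 2) (he' : e' ≤ w + 2) : Lnk G Y U m 2 w u u' := by
  induction m generalizing w e e' with
  | zero => have := h.zero; omega
  | succ g ih =>
    have key : ∀ (v v' : V) (c : ℕ), v' ∉ Y.iv U 0 (g + 1) → Df G Y U (g + 1) v' c → c ≤ w + 2 →
        (∃ z ∈ Y.iv U g (g + 1), G.Adj v z) → Lnk G Y U (g + 1) 2 w v v' := by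
      rintro v v' c hv' dv hc ⟨z, hz, hvz⟩
      have h1 : Rs G Y (U \ {z}) (g + 1) (1 + w) :=
        Rs.remove_top (by rw [show 1 + (1 + w) = 2 + w by omega]; exact h) hz
      exact Lnk.cons (Lay.iv_mono (Subset.refl U) (Nat.zero_le g) (le_refl _) hz) hvz
        (link_one h1 (walk_self U z) (walk_out hv' sdiff_subset) ((walk_top h hz).sdiff _)
          (dv.sdiff _) (by omega))
    by_cases hn : ∃ z ∈ Y.iv U g (g + 1), G.Adj u z
    · exact key u u' e' hu' d' he' hn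
    by_cases hn' : ∃ z ∈ Y.iv U g (g + 1), G.Adj u' z
    · exact (key u' u e hu d he hn').symm
    obtain ⟨k1, k2⟩ := walk_miss hu d hn
    obtain ⟨k1', k2'⟩ := walk_miss hu' d' hn'
    obtain ⟨s', h1, h2⟩ := h.down
    have k3 := h.ba g (Nat.lt_succ_self g)
    have k4 := h.one g (Nat.lt_succ_self g)
    obtain ⟨w1, rfl⟩ : ∃ w1, s' = 2 + w1 := ⟨s' - 2, by omega⟩
    have q : Y.iv U 0 g ⊆ Y.iv U 0 (g + 1) :=
      Lay.iv_mono (Subset.refl U) (le_refl 0) (Nat.le_succ g)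
    refine Lnk.lift h (Nat.le_succ g) (ih (e := e + Y.b g - (Y.iv U g (g + 1)).card)
      (e' := e' + Y.b g - (Y.iv U g (g + 1)).card) h1 (fun k => hu (q k)) (fun k => hu' (q k))
      (d.down1 (by omega)) (d'.down1 (by omega)) (by omega) (by omega)) fun t _ _ => by omega

/-- a vertex of the highest nonempty layer -/
theorem anchor {m s : ℕ} (h : Rs G Y U m (1 + s)) :
    ∃ z ∈ Y.iv U 0 m, Rs G Y (U \ {z}) m s ∧ Df G Y U m z 0 := by
  have hne : (Y.iv U 0 m).Nonempty := card_pos.1 (by have := h.top; omega)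
  obtain ⟨z, hz, hmax⟩ := exists_max_image _ Y.f hne
  have hz' := Lay.mem_iv.1 hz
  have key : ∀ t g, Y.f z < g → g ≤ m → Y.iv U t g = Y.iv U t m := fun t g h1 h2 => by
    ext v
    simp only [Lay.mem_iv]
    constructor
    · rintro ⟨a, b, c⟩
      exact ⟨a, b, by omega⟩
    · rintro ⟨a, b, c⟩
      have := hmax v (Lay.mem_iv.2 ⟨a, Nat.zero_le _, c⟩)
      exact ⟨a, b, by omega⟩
  refine ⟨z, hz, h.remove_iv (i := Y.f z)
    (singleton_subset_iff.2 (Lay.mem_iv.2 ⟨hz'.1, le_refl _, hz'.2.2⟩)) (card_singleton z)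
    fun t h1 h2 => ?_, fun t ht => ?_⟩
  · rw [key 0 t h1 h2.le, h.top]
    have := Y.A_mono h2.le
    have := Y.B_mono h2.le
    omega
  · by_cases e : t ≤ Y.f z
    · have h1 := h.int z hz'.1 hz'.2.2 t (by omega)
      rw [key t _ (Nat.lt_succ_self _) hz'.2.2] at h1
      have := Y.B_mono (show Y.f z + 1 ≤ m from hz'.2.2)
      omega
    · rw [← key t t (by omega) ht.le, Y.iv_self]
      have h1 := dH_le_card (G := G) z (∅ : Finset V)
      rw [card_empty] at h1
      have h2 := h.one t ht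
      have h3 := Y.B_succ t
      have := Y.B_mono (show t + 1 ≤ m from ht)
      omega

/-- two steps lead from `u'` to a vertex without defect -/
theorem link_desc {m r w e' : ℕ} {u u' : V} (h : Rs G Y U m (r + 2 + w)) (hu' : u' ∉ Y.iv U 0 m)
    (d' : Df G Y U m u' e') (he : e' ≤ r + 2 + w)
    (k : ∀ U' z, U' ⊆ U → z ∉ U' → Rs G Y U' m (r + w) → Df G Y U' m z 0 →
      Lnk G Y U' m r w z u) : Lnk G Y U m (r + 2) w u' u := by
  obtain ⟨z, hz, h1, dz⟩ := anchor (s := 1 + (r + w))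
    (by rw [show 1 + (1 + (r + w)) = r + 2 + w by omega]; exact h)
  obtain ⟨y, y', Z, p1, p2, p3, p4, p5, p6⟩ := link_one h1 (walk_out hu' sdiff_subset)
    (walk_self U z) (d'.sdiff _) (dz.sdiff _) (by omega)
  obtain ⟨c, rfl⟩ := card_eq_one.1 p5
  obtain rfl : y = c := mem_singleton.1 p1.left
  obtain rfl : y' = y := mem_singleton.1 p1.right
  have hy := p4 (mem_singleton_self y')
  rw [Y.iv_sdiff, mem_sdiff, mem_singleton] at hy
  have e : (U \ {z}) \ {y'} = (U \ {y'}) \ {z} := sdiff_right_comm _ _ _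
  have q := k ((U \ {z}) \ {y'}) z (sdiff_subset.trans sdiff_subset)
    (fun g => (mem_sdiff.1 (mem_sdiff.1 g).1).2 (mem_singleton_self z)) p6
    ((dz.sdiff _).sdiff _)
  rw [e] at q
  refine Lnk.cons hy.1 p2 (Lnk.cons ?_ p3.symm q)
  rw [Y.iv_sdiff, mem_sdiff, mem_singleton]
  exact ⟨hz, fun g => hy.2 g.symm⟩

theorem walk_last {m s e e' : ℕ} {u u' : V} (h : Rs G Y U m (s + 3))
    (hu : u ∉ Y.iv U 0 m) (hu' : u' ∉ Y.iv U 0 m) (d : Df G Y U m u e) (d' : Df G Y U m u' e')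
    (h1 : 1 ≤ e) (h1' : e ≤ e') (he : e + e' ≤ s + 4) : Lnk G Y U m (s + 3) 0 u' u := by
  refine link_desc (r := s + 1) (w := 0) h hu' d' (by omega) fun U' z k1 k2 k3 k4 => ?_
  have hz : z ∉ Y.iv U' 0 m := fun g => k2 (Y.iv_sub U' 0 m g)
  by_cases hs : s ≤ 1
  · exact link_walk k3 (by omega) hz (walk_out hu k1) k4 (d.sub k1) (by omega)
  · obtain ⟨r, rfl⟩ : ∃ r, s = r + 1 := ⟨s - 1, by omega⟩
    refine (link_desc (r := r) (w := 0) k3 (walk_out hu k1) (d.sub k1) (by omega)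
      fun U'' y q1 q2 q3 q4 => ?_).symm
    exact link_walk q3 (by omega) (fun g => q2 (Y.iv_sub U'' 0 m g)) (walk_out hz q1) q4
      (k4.sub q1) (by omega)

theorem link_last {m s e e' : ℕ} {u u' : V} (h : Rs G Y U m s)
    (hu : u ∉ Y.iv U 0 m) (hu' : u' ∉ Y.iv U 0 m) (d : Df G Y U m u e) (d' : Df G Y U m u' e')
    (h1 : 1 ≤ e) (h1' : 1 ≤ e') (he : e + e' ≤ s + 1) : Lnk G Y U m s 0 u u' := by
  obtain rfl | rfl | ⟨r, rfl⟩ : s = 1 ∨ s = 2 ∨ ∃ r, s = r + 3 := by
    by_cases a : s = 1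
    · exact Or.inl a
    by_cases b : s = 2
    · exact Or.inr (Or.inl b)
    exact Or.inr (Or.inr ⟨s - 3, by omega⟩)
  · exact link_one (w := 0) h hu hu' d d' (by omega)
  · exact link_two (w := 0) h hu hu' d d' (by omega) (by omega)
  · rcases le_total e e' with c | c
    · exact (walk_last h hu hu' d d' h1 c he).symm
    · exact walk_last h hu' hu d' d h1' c (by omega)

/-- a whole cycle inside the reservoir -/
theorem link_cyc {m r w : ℕ} (h : Rs G Y U m (r + w)) (hr : 3 ≤ r) :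
    ∃ Z, Z ⊆ Y.iv U 0 m ∧ Z.card = r ∧ HC G Z ∧ Rs G Y (U \ Z) m w := by
  obtain ⟨r, rfl⟩ : ∃ r', r = r' + 1 := ⟨r - 1, by omega⟩
  obtain ⟨z, hz, h1, dz⟩ := anchor (s := r + w)
    (by rw [show 1 + (r + w) = r + 1 + w by omega]; exact h)
  obtain ⟨y, y', Z, p1, p2, p3, p4, p5, p6⟩ := link_walk h1 (by omega) (walk_self U z)
    (walk_self U z) (dz.sdiff _) (dz.sdiff _) (by omega)
  have hn : z ∉ Z := fun g => walk_self U z (p4 g)
  rw [Y.iv_sdiff] at p4
  refine ⟨insert z Z, insert_subset hz (p4.trans sdiff_subset),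
    by rw [card_insert_of_notMem hn, p5], p1.close (p1.ne (by omega)) hn p2 p3, ?_⟩
  have e : U \ insert z Z = (U \ {z}) \ Z := by
    ext v
    simp only [mem_sdiff, mem_insert, mem_singleton]
    tauto
  exact e ▸ p6

end Pool.Agent.Lib.MP_af3016_co
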