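import Pool.Agent.Lib.MP_af3016_co.C.Succ
import Pool.Agent.Lib.MP_af3016_co.C.Walk

/-! One-sided filling of a Hamiltonian set that lacks one vertex. -/

set_option autoImplicit false
set_option linter.unusedSectionVars false

namespace Pool.Agent.Lib.MP_af3016_co

open Finset SimpleGraph

variable {V : Type} [DecidableEq V] {G : SimpleGraph V} {Y : Lay V} {U : Finset V}

/-- a spanning path whose ends have small defects is closed by one vertex -/
theorem fill1a_link {D : Finset V} {m α β : ℕ} (h : Top G Y U m 1 D α β) (h3 : 3 ≤ D.card)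
    {p q : V} (hp : HP G p q D) (ht : 2 * β ≤ dH G p D + dH G q D + 2) : Fil G Y U m 1 D := by
  have h1 := h.hap p hp.left
  have h2 := h.hap q hp.right
  have hr : Rs G Y U m (1 + 0) := h.rs
  exact (link_one hr (Finset.disjoint_left.1 h.disj hp.left)
    (Finset.disjoint_left.1 h.disj hp.right) (h.df p hp.left) (h.df q hp.right)
    (by omega)).fil hp h.disj (by omega)

/-- a usable common neighbour of the ends closes a spanning path -/
theorem fill1a_ins {D : Finset V} {m i α β : ℕ} (h : Top G Y U m 1 D α β) (h3 : 3 ≤ D.card)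
    (hl : ∀ t, i < t → t < m → Y.A t + Y.B t + 1 ≤ (Y.iv U 0 t).card) {y p q : V}
    (hy : y ∈ Y.iv U i m) (hp : HP G p q D) (h1 : G.Adj y p) (h2 : G.Adj y q) :
    Fil G Y U m 1 D := by
  have hr : Rs G Y U m (1 + 0) := h.rs
  have hs : ({y} : Finset V) ⊆ Y.iv U i m := singleton_subset_iff.2 hy
  have hk : Lnk G Y U m 1 0 p q :=
    ⟨y, y, {y}, HP.single y, h1.symm, h2.symm,
      hs.trans (Lay.iv_mono (Subset.refl U) (Nat.zero_le i) (le_refl m)), card_singleton y,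
      hr.remove_iv hs (card_singleton y) hl⟩
  exact hk.fil hp h.disj (by omega)

/-- successors with few non-neighbours give a spanning path -/
theorem fill1a_succ {D : Finset V} {σ : V → V} (hσ : Cyc G D σ) {p q : V} (hp : p ∈ D)
    (hq : q ∈ D) (hpq : p ≠ q) (hd : dH G (σ p) D + dH G (σ q) D + 3 ≤ D.card) : HP G p q D := by
  have h1 := dG_add_dH_in (G := G) (hσ.mem p hp)
  have h2 := dG_add_dH_in (G := G) (hσ.mem q hq)
  exact hσ.succ p hp q hq hpq (by omega)

/-- two distinct neighbours inside a set -/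
theorem fill1a_two {a : V} {S : Finset V} (h : 2 ≤ dG G a S) :
    ∃ p ∈ S, ∃ q ∈ S, p ≠ q ∧ G.Adj a p ∧ G.Adj a q := by
  obtain ⟨N, h1, h2⟩ := exists_nbhd (G := G) a S
  obtain ⟨p, hp, q, hq, hpq⟩ := one_lt_card.1 (show 1 < N.card by omega)
  exact ⟨p, ((h2 p).1 hp).1, q, ((h2 q).1 hq).1, hpq, ((h2 p).1 hp).2, ((h2 q).1 hq).2⟩

/-- a vertex of a cycle has two neighbours on it -/
theorem fill1a_deg {D : Finset V} (hC : HC G D) {v : V} (hv : v ∈ D) : 2 ≤ dG G v D := by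
  obtain ⟨c, p, h1, h2, h3, h4⟩ := hC.del hv
  have := le_dG (G := G) (a := v) (S := D) (R := {c, p}) fun b hb => by
    rcases mem_insert.1 hb with rfl | hb
    · exact ⟨mem_of_mem_erase h4.left, h2⟩
    · rw [mem_singleton.1 hb]
      exact ⟨mem_of_mem_erase h4.right, h3⟩
  rwa [card_pair h1] at this

/-- double counting against a set whose members have at most one neighbour -/
theorem fill1a_count {S P : Finset V} {k : ℕ} (h1 : ∀ y ∈ S, k ≤ dG G y P)
    (h2 : ∀ z ∈ P, dG G z S ≤ 1) : S.card * k ≤ P.card := by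
  have g1 : S.card * k ≤ ∑ y ∈ S, dG G y P := by
    simpa using card_nsmul_le_sum S (fun y => dG G y P) k h1
  have g2 : ∑ z ∈ P, dG G z S ≤ P.card := by
    simpa using sum_le_card_nsmul P (fun z => dG G z S) 1 h2
  rw [sum_dG_comm] at g1
  exact g1.trans g2

/-- the structure forced by a usable vertex with two neighbours in `D` -/
theorem one_multi {D : Finset V} {m i α β : ℕ} (h : Top G Y U m 1 D α β) (hC : HC G D)
    (hl : ∀ t, i < t → t < m → Y.A t + Y.B t + 1 ≤ (Y.iv U 0 t).card) {z : V}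
    (hz : z ∈ Y.iv U i m) (h2 : 2 ≤ dG G z D) :
    Fil G Y U m 1 D ∨ ∃ v ∈ D, ∃ q ∈ D, G.Adj v q ∧ dH G v D + 1 = β ∧ 4 ≤ D.card ∧ α = β ∧
      (∀ y ∈ Y.iv U i m, dG G y (D.erase q) ≤ 1) ∧
      ∀ y ∈ Y.iv U i m, G.Adj y v → dG G y D = 1 := by
  rw [or_iff_not_imp_left]
  intro hn
  have h3 := hC.three
  have hc := h.card
  have hba := h.ba
  obtain ⟨σ, -, hσ, -, -⟩ := hC.cs.cyc (by omega)
  have hA : ∀ v ∈ D, dH G v D + dH G (σ v) D + 3 ≤ 2 * β := fun v hv => by
    by_contra g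
    exact hn (fill1a_link h h3 (hσ.path v hv) (by omega))
  have hB : ∀ p ∈ D, ∀ q ∈ D, dH G p D + 1 = β → dH G q D + 1 = β → p = q :=
    fun p hp q hq g1 g2 => by
      by_contra g
      have := hA p hp
      have := hA q hq
      exact hn (fill1a_link h h3 (fill1a_succ hσ hp hq g (by omega)) (by omega))
  have hD : ∀ y ∈ Y.iv U i m, ∀ p ∈ D, ∀ q ∈ D, p ≠ q → G.Adj y p → G.Adj y q →
      α = β ∧ (dH G (σ p) D + 1 = β ∨ dH G (σ q) D + 1 = β) := fun y hy p hp q hq g g1 g2 => by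
    have k1 : ¬dH G (σ p) D + dH G (σ q) D + 3 ≤ D.card := fun k =>
      hn (fill1a_ins h h3 hl hy (fill1a_succ hσ hp hq g k) g1 g2)
    have k2 := h.hap _ (hσ.mem p hp)
    have k3 := h.hap _ (hσ.mem q hq)
    have k4 : ¬(dH G (σ p) D + 1 = β ∧ dH G (σ q) D + 1 = β) := fun k =>
      g (hσ.inj p hp q hq (hB _ (hσ.mem p hp) _ (hσ.mem q hq) k.1 k.2))
    omega
  obtain ⟨q, hq, e, hv⟩ : ∃ q ∈ D, α = β ∧ dH G (σ q) D + 1 = β := by
    obtain ⟨p, hp, q, hq, g, g1, g2⟩ := fill1a_two h2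
    obtain ⟨e, k | k⟩ := hD z hz p hp q hq g g1 g2
    exacts [⟨p, hp, e, k⟩, ⟨q, hq, e, k⟩]
  have hE : ∀ y ∈ Y.iv U i m, ∀ p ∈ D, ∀ p' ∈ D, p ≠ p' → G.Adj y p → G.Adj y p' →
      p = q ∨ p' = q := fun y hy p hp p' hp' g g1 g2 =>
    (hD y hy p hp p' hp' g g1 g2).2.imp
      (fun k => hσ.inj p hp q hq (hB _ (hσ.mem p hp) _ (hσ.mem q hq) k hv))
      (fun k => hσ.inj p' hp' q hq (hB _ (hσ.mem p' hp') _ (hσ.mem q hq) k hv))
  have hvD := hσ.mem q hq
  refine ⟨σ q, hvD, q, hq, (hσ.adj q hq).symm, hv, ?_, e, fun y hy => ?_, fun y hy g => ?_⟩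
  · have := fill1a_deg hC hvD
    have := dG_add_dH_in (G := G) hvD
    omega
  · by_contra g
    obtain ⟨p, hp, p', hp', k, k1, k2⟩ := fill1a_two (show 2 ≤ dG G y (D.erase q) by omega)
    rw [mem_erase] at hp hp'
    exact (hE y hy p hp.2 p' hp'.2 k k1 k2).elim hp.1 hp'.1
  · have k0 : 1 ≤ dG G y D := by
      simpa using le_dG (G := G) (a := y) (S := D) (R := {σ q}) fun b hb => by
        rw [mem_singleton.1 hb]
        exact ⟨hvD, g⟩
    by_contra k
    obtain ⟨p, hp, k1, k2⟩ := exists_adj_notMem (G := G) (a := y) (S := D) (R := {σ q})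
      (by rw [card_singleton]; omega)
    rw [mem_singleton] at k2
    rcases hE y hy p hp _ hvD k2 k1 g with k3 | k3
    · exact hn (fill1a_ins h h3 hl hy (hσ.path q hq) g (k3 ▸ k1))
    · exact (hσ.adj q hq).ne k3.symm

theorem fill1a' {D : Finset V} {m i α β : ℕ} (h : Top G Y U m 1 D α β) (hC : HC G D) (hi : i < m)
    (hl : ∀ t, i < t → t < m → Y.A t + Y.B t + 1 ≤ (Y.iv U 0 t).card)
    (h0 : (Y.iv U 0 i).card = Y.A i + Y.B i) (hx : β + Y.A i ≤ Y.A m) : Fil G Y U m 1 D := by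
  have h3 := hC.three
  have hc := h.card
  have hba := h.ba
  have c1 := Y.card_iv U (Nat.zero_le i) hi.le
  have c2 := h.rs.top
  have c3 := h.rs.AB hi.le (le_refl m)
  obtain ⟨x, ex⟩ := Nat.exists_eq_add_of_le hx
  have hd : ∀ y ∈ D, x + 2 ≤ dG G y (Y.iv U i m) := fun y hy => by
    have k1 := h.df y hy i hi
    have k2 := h.hap y hy
    have k3 : y ∉ Y.iv U i m := fun g => Finset.disjoint_left.1 h.disj hy
      (Lay.iv_mono (Subset.refl U) (Nat.zero_le i) (le_refl m) g)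
    have k4 := dG_add_dH_out (G := G) k3
    omega
  have hP : (Y.iv U i m).card ≤ 2 * β + 2 * x + 1 := by omega
  by_cases hm : ∃ z ∈ Y.iv U i m, 2 ≤ dG G z D
  · obtain ⟨z, hz, h2⟩ := hm
    rcases one_multi h hC hl hz h2 with g | ⟨v, -, q, hq, -, -, g4, e, g1, -⟩
    · exact g
    · have k := fill1a_count (fun y hy => hd y (mem_of_mem_erase hy)) g1
      rw [card_erase_of_mem hq] at k
      obtain ⟨n, en⟩ : ∃ n, D.card - 1 = n + 2 := ⟨D.card - 3, by omega⟩
      rw [en] at k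
      have k' : (n + 2) * (x + 2) = n * x + 2 * n + 2 * x + 4 := by ring
      omega
  · push Not at hm
    have k := fill1a_count hd fun z hz => Nat.lt_succ_iff.1 (hm z hz)
    obtain ⟨n, en⟩ : ∃ n, D.card = n + 2 := ⟨D.card - 2, by omega⟩
    rw [en] at k
    have k' : (n + 2) * (x + 2) = n * x + 2 * n + 2 * x + 4 := by ring
    omega

theorem fill1a {D : Finset V} {g α β : ℕ} (h : Top G Y U (g + 1) 1 D α β) (ho : Y.Ord (g + 1))
    (hb : β ≤ Y.a g) (hC : HC G D) : Fil G Y U (g + 1) 1 D := by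
  obtain ⟨i, hi, hmax⟩ := exists_max_image
    ((range (g + 1)).filter fun t => (Y.iv U 0 t).card = Y.A t + Y.B t) id
    ⟨0, mem_filter.2 ⟨mem_range.2 (Nat.succ_pos g), by
      rw [Y.iv_self, card_empty, Y.A_zero, Y.B_zero]⟩⟩
  rw [mem_filter, mem_range] at hi
  refine fill1a' h hC hi.1 (fun t h1 h2 => ?_) hi.2 ?_
  · have k1 := h.rs.leg t h2.le
    have k2 : (Y.iv U 0 t).card ≠ Y.A t + Y.B t := fun k =>
      absurd (hmax t (mem_filter.2 ⟨mem_range.2 h2, k⟩)) (not_le.2 h1)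
    omega
  · have k1 := Y.A_mono (Nat.lt_succ_iff.1 hi.1)
    rw [Y.A_succ]
    omega

end Pool.Agent.Lib.MP_af3016_co
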