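import Pool.Agent.Lib.MP_af3016_co.C.Succ
import Pool.Agent.Lib.MP_af3016_co.C.Walk

/-! One-sided filling of a Hamiltonian set that lacks two vertices. -/

set_option autoImplicit false
set_option linter.unusedSectionVars false

namespace Pool.Agent.Lib.MP_af3016_co

open Finset SimpleGraph

variable {V : Type} [DecidableEq V] {G : SimpleGraph V} {Y : Lay V} {U : Finset V}

/-- the graph with all pairs of `D` added -/
def f1b_sat (G : SimpleGraph V) (D : Finset V) : SimpleGraph V :=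
  G ⊔ SimpleGraph.fromRel fun a b => a ∈ D ∧ b ∈ D

theorem f1b_in {D : Finset V} {a b : V} (ha : a ∈ D) (hb : b ∈ D) (e : a ≠ b) :
    (f1b_sat G D).Adj a b :=
  Or.inr ((fromRel_adj _ _ _).2 ⟨e, .inl ⟨ha, hb⟩⟩)

theorem f1b_clq {D R : Finset V} (h : R ⊆ D) : Clq (f1b_sat G D) R :=
  fun _ ha _ hb e => f1b_in (h ha) (h hb) e

/-- the added pairs are removed by the closure lemma -/
theorem f1b_close {D X : Finset V} {α : ℕ} (hd : ∀ y ∈ D, α ≤ dG G y D) (hX : D ⊆ X)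
    (hc : X.card ≤ 2 * α) (h : HC (f1b_sat G D) X) : HC G X := by
  refine closure h fun x _ y _ g1 g2 => ?_
  have g3 : x ∈ D ∧ y ∈ D := by
    rcases ((fromRel_adj _ _ _).1 (g1.resolve_left g2)).2 with e | e
    exacts [e, e.symm]
  have k1 := hd x g3.1
  have k2 := hd y g3.2
  have k3 := dG_mono (G := G) (a := x) hX
  have k4 := dG_mono (G := G) (a := y) hX
  omega

/-- an edge outside `D` hanging at two different vertices -/
theorem f1b_E {D : Finset V} {y y' z z' : V} (hy : y ∈ D) (hy' : y' ∈ D) (hyy : y ≠ y')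
    (hz : z ∉ D) (hz' : z' ∉ D) (h1 : G.Adj y z) (h2 : G.Adj y' z') (h3 : G.Adj z z') :
    HC (f1b_sat G D) (D ∪ {z, z'}) := by
  have k1 : HP (f1b_sat G D) z y' (insert z D) :=
    (HP.clique _ D y y' rfl (f1b_clq (Subset.refl D)) hy hy' hyy).cons (Or.inl h1.symm) hz
  have k2 := k1.close (t := z') (fun e => hz (e ▸ hy')) (by simp [hz', h3.ne.symm])
    (Or.inl h3.symm) (Or.inl h2.symm)
  have e : D ∪ {z, z'} = insert z' (insert z D) := by
    ext v
    simp only [mem_union, mem_insert, mem_singleton]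
    tauto
  exact e ▸ k2

/-- two vertices outside `D` with different pairs of neighbours -/
theorem f1b_M0 {D : Finset V} {p q p' q' z z' : V} (hp : p ∈ D) (hq : q ∈ D) (hp' : p' ∈ D)
    (hq' : q' ∈ D) (hz : z ∉ D) (hz' : z' ∉ D) (hzz : z ≠ z') (a1 : G.Adj z p) (a2 : G.Adj z q)
    (a3 : G.Adj z' p') (a4 : G.Adj z' q') (n1 : p ≠ q) (n2 : p' ≠ q') (n3 : p ≠ p') (n4 : p ≠ q')
    (n5 : q ≠ q') : HC (f1b_sat G D) (D ∪ {z, z'}) := by
  have zq : q ≠ z := fun e => hz (e ▸ hq)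
  have zp' : p' ≠ z := fun e => hz (e ▸ hp')
  have zq' : z' ≠ q := fun e => hz' (e ▸ hq)
  have zp'' : z' ≠ p' := fun e => hz' (e ▸ hp')
  by_cases e : q = p'
  · subst e
    have k0 : HP (f1b_sat G D) p q' (D.erase q) :=
      HP.clique _ _ p q' rfl (f1b_clq (erase_subset q D)) (mem_erase.2 ⟨n1, hp⟩)
        (mem_erase.2 ⟨n5.symm, hq'⟩) n4
    have k1 := k0.cons (a := z) (Or.inl a1) fun g => hz (mem_of_mem_erase g)
    have k2 := k1.cons (a := q) (Or.inl a2.symm) (by simp [zq])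
    have k3 := k2.close (t := z') n5 (by simp [zq', hzz.symm, hz']) (Or.inl a3) (Or.inl a4)
    have e : D ∪ {z, z'} = insert z' (insert q (insert z (D.erase q))) := by
      ext v
      simp only [mem_union, mem_insert, mem_singleton, mem_erase]
      by_cases g : v = q
      · simp [g, hq]
      · tauto
    exact e ▸ k3
  · have k0 : HP (f1b_sat G D) p q' ((D.erase q).erase p') :=
      HP.clique _ _ p q' rfl (f1b_clq ((erase_subset _ _).trans (erase_subset q D)))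
        (mem_erase.2 ⟨n3, mem_erase.2 ⟨n1, hp⟩⟩)
        (mem_erase.2 ⟨n2.symm, mem_erase.2 ⟨n5.symm, hq'⟩⟩) n4
    have k1 := k0.cons (a := z) (Or.inl a1) fun g => hz (mem_of_mem_erase (mem_of_mem_erase g))
    have k2 := k1.cons (a := q) (Or.inl a2.symm) (by simp [zq])
    have k3 := k2.cons (a := p') (f1b_in hp' hq (Ne.symm e)) (by simp [zp', Ne.symm e])
    have k4 := k3.close (t := z') n2 (by simp [zq', zp'', hzz.symm, hz']) (Or.inl a3) (Or.inl a4)
    have e : D ∪ {z, z'} =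
        insert z' (insert p' (insert q (insert z ((D.erase q).erase p')))) := by
      ext v
      simp only [mem_union, mem_insert, mem_singleton, mem_erase]
      by_cases g : v = q
      · simp [g, hq]
      · by_cases g' : v = p'
        · simp [g', hp']
        · tauto
    exact e ▸ k4

theorem f1b_M {D : Finset V} {p q p' q' z z' : V} (hp : p ∈ D) (hq : q ∈ D) (hp' : p' ∈ D)
    (hq' : q' ∈ D) (hz : z ∉ D) (hz' : z' ∉ D) (hzz : z ≠ z') (a1 : G.Adj z p) (a2 : G.Adj z q)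
    (a3 : G.Adj z' p') (a4 : G.Adj z' q') (n1 : p ≠ q) (n2 : p' ≠ q') (n3 : p ≠ p')
    (n4 : p ≠ q') : HC (f1b_sat G D) (D ∪ {z, z'}) := by
  by_cases e : q = q'
  · exact f1b_M0 hp hq hq' hp' hz hz' hzz a1 a2 a4 a3 n1 n2.symm n4 n3 (e ▸ n2.symm)
  · exact f1b_M0 hp hq hp' hq' hz hz' hzz a1 a2 a3 a4 n1 n2 n3 n4 e

theorem f1b_two {w : V} {S : Finset V} (h : ¬dG G w S ≤ 1) :
    ∃ a ∈ S, ∃ b ∈ S, a ≠ b ∧ G.Adj w a ∧ G.Adj w b := by
  obtain ⟨N, k1, k2⟩ := exists_nbhd (G := G) w S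
  obtain ⟨c, hc, p, hp, hcp⟩ := one_lt_card.1 (show 1 < N.card by omega)
  rw [k2] at hc hp
  exact ⟨c, hc.1, p, hp.1, hcp, hc.2, hp.2⟩

/-- either two good vertices exist or the neighbourhoods are almost disjoint -/
theorem f1b_multi {D P : Finset V} (hd : ∀ z ∈ P, z ∉ D) (z0 : V)
    (hM : ∀ z ∈ P, ∀ z' ∈ P, z ≠ z' → ¬HC (f1b_sat G D) (D ∪ {z, z'})) :
    (∃ w0, ∀ w ∈ P, w ≠ w0 → dG G w D ≤ 1) ∨ ∃ y1, ∀ w ∈ P, dG G w (D.erase y1) ≤ 1 := by
  by_cases hA : ∃ w0, ∀ w ∈ P, w ≠ w0 → dG G w D ≤ 1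
  · exact Or.inl hA
  right
  push Not at hA
  obtain ⟨w1, hw1, -, m1⟩ := hA z0
  obtain ⟨w2, hw2, n12, m2⟩ := hA w1
  obtain ⟨y1, hy1, y2, hy2, n1, a1, a2⟩ := f1b_two (not_le.2 m1)
  obtain ⟨c, hc, d, hd', n2, a3, a4⟩ := f1b_two (not_le.2 m2)
  refine ⟨y1, fun w hw => ?_⟩
  by_contra g
  obtain ⟨a, ha, b, hb, n3, a5, a6⟩ := f1b_two g
  rw [mem_erase] at ha hb
  by_cases e : w = w1
  · subst e
    refine hM w hw1 w2 hw2 n12.symm ?_
    have key := fun p q (hp : p ∈ D) (hq : q ∈ D) (g1 : G.Adj w p) (g2 : G.Adj w q)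
      (g3 : p ≠ q) (g4 : p ≠ c) (g5 : p ≠ d) =>
      f1b_M hp hq hc hd' (hd w hw1) (hd w2 hw2) n12.symm g1 g2 a3 a4 g3 n2 g4 g5
    by_cases e1 : y1 ≠ c ∧ y1 ≠ d
    · exact key y1 a hy1 ha.2 a1 a5 ha.1.symm e1.1 e1.2
    by_cases e2 : a ≠ c ∧ a ≠ d
    · exact key a b ha.2 hb.2 a5 a6 n3 e2.1 e2.2
    refine key b a hb.2 ha.2 a6 a5 n3.symm ?_ ?_
    · rintro rfl
      have g1 : y1 = d := by
        by_contra g1
        exact e1 ⟨hb.1.symm, g1⟩
      have g2 : a = d := by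
        by_contra g2
        exact e2 ⟨n3, g2⟩
      exact ha.1 (g2.trans g1.symm)
    · rintro rfl
      have g1 : y1 = c := by
        by_contra g1
        exact e1 ⟨g1, hb.1.symm⟩
      have g2 : a = c := by
        by_contra g2
        exact e2 ⟨g2, n3⟩
      exact ha.1 (g2.trans g1.symm)
  · exact hM w1 hw1 w hw (Ne.symm e) (f1b_M hy1 hy2 ha.2 hb.2 (hd w1 hw1) (hd w hw) (Ne.symm e)
      a1 a2 a5 a6 n1 n3 ha.1.symm hb.1.symm)

theorem f1b_count {D' S : Finset V} {x : ℕ} (h : ∀ y ∈ D', x + 2 ≤ dG G y S)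
    (h1 : 1 ≤ D'.card) : x + 2 * D'.card ≤ ∑ w ∈ S, dG G w D' := by
  rw [← sum_dG_comm]
  have k1 := card_nsmul_le_sum D' _ (x + 2) h
  have k2 := Nat.mul_le_mul_right x h1
  rw [smul_eq_mul, mul_add] at k1
  omega

theorem f1b_one {D' S : Finset V} (h : ∀ w ∈ S, dG G w D' ≤ 1) :
    ∑ w ∈ S, dG G w D' ≤ S.card := by
  simpa using sum_le_card_nsmul S _ 1 h

theorem fill1b {D : Finset V} {g α β : ℕ} (h : Top G Y U (g + 1) 2 D α β) (ho : Y.Ord (g + 1))
    (hb : β ≤ Y.a g) (hC : HC G D) : Fil G Y U (g + 1) 2 D := by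
  classical
  have hN := hC.three
  have hc := h.card
  have hba := h.ba
  have hab := h.ab
  have hout : ∀ v ∈ D, v ∉ Y.iv U 0 (g + 1) := fun v hv => Finset.disjoint_left.1 h.disj hv
  by_cases hs : ∃ v ∈ D, β - dH G v D ≤ 2
  · obtain ⟨v, hv, hv2⟩ := hs
    obtain ⟨p, k1, -⟩ := hC.open hv
    have k2 := h.hap v hv
    have k3 := h.hap p k1.right
    exact (link_all h.rs ho (by omega) (hout v hv) (hout p k1.right) (h.df v hv)
      (h.df p k1.right) (by omega) (by omega) (by omega) (by omega) (by omega)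
      fun _ => Or.inl hv2).fil k1 h.disj (by omega)
  push Not at hs
  have hdeg : ∀ y ∈ D, α ≤ dG G y D := fun y hy => by
    have := hs y hy
    have := dG_add_dH_in (G := G) hy
    omega
  obtain ⟨y', hy'⟩ : D.Nonempty := card_pos.1 (by omega)
  have hβ : 3 ≤ β := by
    have := hs y' hy'
    omega
  obtain ⟨i, hi, hmax⟩ := exists_max_image ((range (g + 1)).filter fun t =>
    (Y.iv U 0 t).card ≤ Y.A t + Y.B t + 1) id ⟨0, by simp [Y.iv_self]⟩
  rw [mem_filter, mem_range] at hi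
  have hl : ∀ t, i < t → t < g + 1 → Y.A t + Y.B t + 2 ≤ (Y.iv U 0 t).card := fun t h1 h2 => by
    by_contra k
    have := hmax t (mem_filter.2 ⟨mem_range.2 h2, by omega⟩)
    simp only [id] at this
    omega
  obtain ⟨P, hP⟩ : ∃ P, P = Y.iv U i (g + 1) := ⟨_, rfl⟩
  have hsub : P ⊆ Y.iv U 0 (g + 1) :=
    hP ▸ Lay.iv_mono (Subset.refl U) (Nat.zero_le i) (le_refl _)
  have hPD : ∀ z ∈ P, z ∉ D := fun z hz k => hout z k (hsub hz)
  by_contra hF
  have hM : ∀ z ∈ P, ∀ z' ∈ P, z ≠ z' → ¬HC (f1b_sat G D) (D ∪ {z, z'}) := by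
    intro z hz z' hz' hzz k
    have k1 : ({z, z'} : Finset V) ⊆ P := insert_subset hz (singleton_subset_iff.2 hz')
    have k2 := card_pair hzz
    have k3 := card_union_le D ({z, z'} : Finset V)
    exact hF ⟨{z, z'}, k1.trans hsub, k2, f1b_close hdeg subset_union_left (by omega) k,
      Rs.remove_iv (r := 2) (w := 0) h.rs (hP ▸ k1) k2 hl⟩
  have e1 := Y.card_iv U (Nat.zero_le i) hi.1.le
  have e2 := h.rs.top
  have e3 := h.rs.AB hi.1.le (le_refl _)
  have e4 := Y.A_mono (show i ≤ g by omega)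
  have e5 := Y.A_succ g
  have e6 := Y.B_mono hi.1.le
  obtain ⟨x, hx⟩ : ∃ x, Y.A (g + 1) = Y.A i + β + x := ⟨Y.A (g + 1) - (Y.A i + β), by omega⟩
  have hP2 : ∀ y ∈ D, x + 2 ≤ dG G y P := fun y hy => by
    have k1 := h.df y hy i hi.1
    have k2 := dG_add_dH_out (G := G) (a := y) (S := P) fun k => hPD y k hy
    rw [← hP] at k1 e1
    omega
  obtain ⟨z1, hz1, hz1'⟩ := exists_adj (show 0 < dG G y' P by have := hP2 y' hy'; omega)
  obtain ⟨z, hz, hzm⟩ := exists_max_image (P.filter fun z => ∃ y ∈ D, G.Adj y z) Y.f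
    ⟨z1, mem_filter.2 ⟨hz1, y', hy', hz1'⟩⟩
  obtain ⟨hzP, y0, hy0, a0⟩ := mem_filter.1 hz
  have hzi := Lay.mem_iv.1 (hP ▸ hzP)
  obtain ⟨S, hS⟩ : ∃ S : Finset V, ∀ w, w ∈ S ↔ w ∈ P ∧ ∃ y ∈ D, y ≠ y0 ∧ G.Adj y w :=
    ⟨P.filter fun w => ∃ y ∈ D, y ≠ y0 ∧ G.Adj y w, fun w => mem_filter⟩
  have hSc : S.card ≤ β + x := by
    have k1 := h.rs.int z hzi.1 hzi.2.2 i (by omega)
    have k2 := Y.B_mono (show Y.f z + 1 ≤ g + 1 by omega)
    have k3 : (S.erase z).card ≤ dH G z (Y.iv U i (Y.f z + 1)) := le_dH fun w hw => by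
      obtain ⟨n1, hw⟩ := mem_erase.1 hw
      obtain ⟨hwP, y, hy, n2, a1⟩ := (hS w).1 hw
      have k4 := hzm w (mem_filter.2 ⟨hwP, y, hy, a1⟩)
      have k5 := Lay.mem_iv.1 (hP ▸ hwP)
      exact ⟨Lay.mem_iv.2 ⟨k5.1, k5.2.1, by omega⟩, n1, fun a2 => hM z hzP w hwP n1.symm
        (f1b_E hy0 hy n2.symm (hPD z hzP) (hPD w hwP) a0 a1 a2)⟩
    have k4 := pred_card_le_card_erase (s := S) (a := z)
    omega
  have hS2 : ∀ y ∈ D.erase y0, x + 2 ≤ dG G y S := fun y hy => by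
    rw [mem_erase] at hy
    obtain ⟨N, k1, k2⟩ := exists_nbhd (G := G) y P
    refine (hP2 y hy.2).trans (k1 ▸ le_dG fun w hw => ?_)
    rw [k2] at hw
    exact ⟨(hS w).2 ⟨hw.1, y, hy.2, hy.1, hw.2⟩, hw.2⟩
  have c0 := card_erase_add_one hy0
  rcases f1b_multi hPD z hM with ⟨w0, k⟩ | ⟨y1, k⟩
  · have k1 := f1b_count hS2 (by omega)
    have k2 : ∀ w ∈ S.erase w0, dG G w (D.erase y0) ≤ 1 := fun w hw =>
      (dG_mono (erase_subset y0 D)).trans
        (k w ((hS w).1 (mem_of_mem_erase hw)).1 (mem_erase.1 hw).1)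
    have k3 := f1b_one k2
    by_cases e : w0 ∈ S
    · rw [← add_sum_erase S _ e] at k1
      have k4 := dG_le_card (G := G) w0 (D.erase y0)
      have k5 := card_erase_add_one e
      omega
    · rw [erase_eq_of_notMem e] at k3
      omega
  · have k3 := pred_card_le_card_erase (s := D.erase y0) (a := y1)
    have k1 := f1b_count (D' := (D.erase y0).erase y1)
      (fun y hy => hS2 y (mem_of_mem_erase hy)) (by omega)
    have k2 := f1b_one (S := S) (D' := (D.erase y0).erase y1) fun w hw =>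
      (dG_mono (erase_subset_erase y1 (erase_subset y0 D))).trans (k w ((hS w).1 hw).1)
    omega

end Pool.Agent.Lib.MP_af3016_co
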