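import Pool.Agent.Lib.MP_af3016_co.C.Filly
import Pool.Agent.Lib.MP_af3016_co.C.Fill1a
import Pool.Agent.Lib.MP_af3016_co.C.Fill1b

/-! One-sided filling and the descent through the layers. -/

set_option autoImplicit false
set_option linter.unusedSectionVars false

namespace Pool.Agent.Lib.MP_af3016_co

open Finset SimpleGraph

variable {V : Type} [DecidableEq V] {G : SimpleGraph V} {Y : Lay V} {U : Finset V}

theorem fill1_out {D : Finset V} {m s α β : ℕ} (h : Top G Y U m s D α β) {v : V} (hv : v ∈ D) :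
    v ∉ Y.iv U 0 m := Finset.disjoint_left.1 h.disj hv

/-- an edge of an order without gaps with a spanning path between its ends -/
theorem fill1_open {D : Finset V} (h : CS G D 0) (h1 : 1 ≤ D.card) :
    ∃ p ∈ D, ∃ q ∈ D, G.Adj p q ∧ HP G p q D := by
  obtain ⟨p, q, hpq, c⟩ := h.open (by rw [Multiset.card_zero]; omega)
  have hp : HP G p q D := CS.path (by simpa using c)
  exact ⟨p, hp.left, q, hp.right, hpq, hp⟩

/-- the cases that need neither an order nor the bounds for the upper parts -/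
theorem fill1_pre {D : Finset V} {m s α β : ℕ} (h : Top G Y U m s D α β) :
    Fil G Y U m s D ∨ (1 ≤ s ∧ 2 ≤ D.card ∧ CS G D 0 ∧ (D.card = 2 → 3 ≤ s)) := by
  have hba := h.ba
  have hab := h.ab
  have h3 := h.three
  have hc := h.card
  rcases Nat.eq_zero_or_pos s with rfl | hs
  · refine Or.inl ⟨∅, empty_subset _, card_empty, ?_, by rw [sdiff_empty]; exact h.rs⟩
    rw [union_empty]
    refine dirac (by omega) ?_
    rw [show D.card / 2 = β by omega]
    exact h.hap
  rcases D.eq_empty_or_nonempty with rfl | hD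
  · rw [card_empty] at hc
    obtain ⟨Z, k1, k2, k3, k4⟩ := link_cyc (w := 0) h.rs (by omega)
    exact Or.inl ⟨Z, k1, k2, by rwa [empty_union], k4⟩
  obtain ⟨gs0, c0⟩ := exists_cs G hD
  obtain ⟨gs, c, -, hg⟩ := plan (X := D) (D := D) (F := 0) (gs0 := gs0) (by rwa [zero_add])
    fun p q e => c0.mem e
  rw [zero_add] at c
  by_cases e0 : gs = 0
  · subst e0
    obtain ⟨p, hp, q, hq, hpq, k⟩ := fill1_open c (card_pos.2 hD)
    have h2 : 2 ≤ D.card := one_lt_card.2 ⟨p, hp, q, hq, hpq.ne⟩
    by_cases e : D.card = 2 → 3 ≤ s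
    · exact Or.inr ⟨hs, h2, c, e⟩
    left
    have dp := h.df p hp
    have dq := h.df q hq
    obtain rfl | rfl : s = 1 ∨ s = 2 := by omega
    · exact (link_one (w := 0) h.rs (fill1_out h hp) (fill1_out h hq) dp dq (by omega)).fil k
        h.disj (by omega)
    · exact (link_two (w := 0) h.rs (fill1_out h hp) (fill1_out h hq) dp dq (by omega)
        (by omega)).fil k h.disj (by omega)
  · obtain ⟨Z, k1, k2, k3, k4⟩ := filly (rest := 0) (e := fun v => β - dH G v D)
      (by rwa [add_zero]) e0 h.rs h.disj fun p q e => by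
        obtain ⟨hp, hq, -, k⟩ := hg p q e
        have a1 := dG_add_dH_in (G := G) hp
        have a2 := dG_add_dH_in (G := G) hq
        have a3 := h.hap p hp
        have a4 := h.hap q hq
        rw [Multiset.card_zero] at k
        exact ⟨h.df p hp, by omega, by omega⟩
    refine Or.inl ⟨Z, k1, k2, k3.done ?_, k4⟩
    rw [card_union_of_disjoint (h.disj.mono_right k1)]
    omega

theorem fill1 {D : Finset V} {g s α β : ℕ} (h : Top G Y U (g + 1) s D α β) (ho : Y.Ord (g + 1))
    (hb : β ≤ Y.a g) : Fil G Y U (g + 1) s D := by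
  rcases fill1_pre h with k | ⟨h1, h2, c, h3⟩
  · exact k
  by_cases e : 3 ≤ s
  · obtain ⟨p, hp, q, hq, -, k⟩ := fill1_open c (by omega)
    have a3 := h.hap p hp
    have a4 := h.hap q hq
    exact (link_all h.rs ho h1 (fill1_out h hp) (fill1_out h hq) (h.df p hp) (h.df q hq)
      (by omega) (by omega) (by omega) (by omega) (by omega) (by omega)).fil k h.disj (by omega)
  have hC : HC G D := c.done (by omega)
  obtain rfl | rfl : s = 1 ∨ s = 2 := by omega
  exacts [fill1a h ho hb hC, fill1b h ho hb hC]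

theorem Stk.ord {W : Finset V} {I : Multiset ℕ} {m : ℕ} (h : Stk G W Y I m) :
    Y.Ord (m + 1) := by
  intro l hl
  have h1 := h.len l (by omega)
  have h2 := h.dec l (by omega)
  omega

theorem Stk.mono {W : Finset V} {I : Multiset ℕ} {m t : ℕ} (h : Stk G W Y I m) (ht : t ≤ m) :
    Stk G W Y I t := by
  exact ⟨h.sq, fun l hl => h.len l (by omega), fun l hl => h.dec l (by omega)⟩

/-- a layer is happy at its own budget -/
theorem fill1_hap {m s l : ℕ} (h : Rs G Y U m s) (hl : l < m) :
    Hap G (Y.iv U l (l + 1)) (Y.b l) := by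
  intro v hv
  obtain ⟨h1, h2, h3⟩ := Lay.mem_iv.1 hv
  have e : Y.f v = l := by omega
  have k := h.int v h1 (by omega)
  rw [e] at k
  have := k l (Nat.lt_succ_self l)
  rw [Y.B_succ] at this
  omega

/-- a reservoir without slack is tiled -/
theorem descend {W : Finset V} {I : Multiset ℕ} {m : ℕ} (hg : Stk G W Y I m) (hU : U ⊆ W)
    (hR : Rs G Y U (m + 1) 0) : Til G (Y.iv U 0 (m + 1)) (Y.lst I m) := by
  induction m generalizing U with
  | zero =>
    have e : Y.lst I 0 = I := by simp [Lay.lst]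
    rw [e]
    refine hg.sq.orc _ ((Y.iv_sub U 0 _).trans hU) ?_ (fill1_hap hR Nat.one_pos)
    have := hR.top
    rw [Y.A_succ, Y.B_succ, Y.A_zero, Y.B_zero] at this
    omega
  | succ m ih =>
    obtain ⟨s, h1, h2⟩ := hR.down
    have hl := hg.len m (Nat.lt_succ_self m)
    have hT : Top G Y U (m + 1) s (Y.iv U (m + 1) (m + 1 + 1)) (Y.a (m + 1)) (Y.b (m + 1)) := by
      refine ⟨h1, hl.1, hl.2.1, hl.2.2, by omega, (Y.iv_disj U 0 (m + 1) _).symm,
        fill1_hap hR (Nat.lt_succ_self _), fun v hv => ?_⟩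
      obtain ⟨g1, g2, g3⟩ := Lay.mem_iv.1 hv
      have e : Y.f v = m + 1 := by omega
      have k := hR.int v g1 g3
      rw [e] at k
      exact k.down1 (by omega)
    obtain ⟨Z, k1, k2, k3, k4⟩ := fill1 hT (hg.ord.mono (Nat.le_succ _))
      (hg.ord m (Nat.lt_succ_self _))
    have k5 := ih (hg.mono (Nat.le_succ m)) (sdiff_subset.trans hU) k4
    have e : Y.lst I (m + 1) = (Y.a (m + 1) + Y.b (m + 1)) ::ₘ Y.lst I m := by
      rw [Lay.lst, Lay.lst, sum_range_succ, ← add_assoc, add_comm, Multiset.singleton_add]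
    rw [e]
    refine k5.add k3 ?_ ?_ ?_
    · rw [card_union_of_disjoint (hT.disj.mono_right k1)]
      omega
    · rw [Y.iv_sdiff]
      exact disjoint_union_left.2 ⟨hT.disj.mono_right sdiff_subset, disjoint_sdiff⟩
    · rw [Y.iv_sdiff, union_assoc, union_sdiff_of_subset k1, union_comm,
        Y.iv_union U (Nat.zero_le _) (Nat.le_succ _)]

end Pool.Agent.Lib.MP_af3016_co
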