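import Pool.Agent.Lib.MP_af3016_co.C.Cyc
import Pool.Agent.Lib.MP_af3016_co.C.Walk

/-! Filling gaps from one reservoir. -/

set_option autoImplicit false
set_option linter.unusedSectionVars false

namespace Pool.Agent.Lib.MP_af3016_co

open Finset SimpleGraph

variable {V : Type} [DecidableEq V] {G : SimpleGraph V} {Y : Lay V} {U : Finset V}

theorem CS.lnk {X : Finset V} {gs : Multiset (Sym2 V)} {p q : V} {m r w : ℕ}
    (h : CS G X (s(p, q) ::ₘ gs)) (hd : Disjoint X (Y.iv U 0 m)) (hl : Lnk G Y U m r w p q) :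
    ∃ Z, Z ⊆ Y.iv U 0 m ∧ Z.card = r ∧ CS G (X ∪ Z) gs ∧ Rs G Y (U \ Z) m w := by
  obtain ⟨z, z', Z, h1, h2, h3, h4, h5, h6⟩ := hl
  exact ⟨Z, h4, h5, h.fill h1 h2 h3 (hd.mono_right h4), h6⟩

theorem filly_disj {X : Finset V} {m : ℕ} (hd : Disjoint X (Y.iv U 0 m)) (Z : Finset V) :
    Disjoint (X ∪ Z) (Y.iv (U \ Z) 0 m) := by
  rw [Y.iv_sdiff]
  exact disjoint_union_left.2 ⟨hd.mono_right sdiff_subset, disjoint_sdiff⟩

theorem filly_join {X Z Z' : Finset V} {rest : Multiset (Sym2 V)} {m w n : ℕ}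
    (h1 : Z ⊆ Y.iv U 0 m) (h2 : Z' ⊆ Y.iv (U \ Z) 0 m) (hn : Z.card + Z'.card = n)
    (h3 : CS G (X ∪ Z ∪ Z') rest) (h4 : Rs G Y ((U \ Z) \ Z') m w) :
    ∃ Z, Z ⊆ Y.iv U 0 m ∧ Z.card = n ∧ CS G (X ∪ Z) rest ∧ Rs G Y (U \ Z) m w := by
  rw [Y.iv_sdiff] at h2
  refine ⟨Z ∪ Z', union_subset h1 (h2.trans sdiff_subset), ?_, by rwa [← union_assoc], ?_⟩
  · rw [card_union_of_disjoint (disjoint_sdiff.mono_right h2), hn]
  · rwa [sdiff_sdiff_left, sup_eq_union] at h4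

/-- every gap in `gs` is filled by one vertex -/
theorem fill_ones {X : Finset V} {gs rest : Multiset (Sym2 V)} {m w : ℕ} {e : V → ℕ}
    (h : CS G X (gs + rest)) (hR : Rs G Y U m (gs.card + w)) (hd : Disjoint X (Y.iv U 0 m))
    (he : ∀ p q, s(p, q) ∈ gs → Df G Y U m p (e p) ∧ e p + e q ≤ w + 2) :
    ∃ Z, Z ⊆ Y.iv U 0 m ∧ Z.card = gs.card ∧ CS G (X ∪ Z) rest ∧ Rs G Y (U \ Z) m w := by
  induction gs using Multiset.induction_on generalizing X U with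
  | empty => exact ⟨∅, empty_subset _, rfl, by simpa using h, by simpa using hR⟩
  | cons a gs ih =>
    induction a using Sym2.ind with
    | _ p q =>
    rw [Multiset.cons_add] at h
    rw [Multiset.card_cons, add_comm _ 1, add_assoc] at hR
    have hm := h.mem (Multiset.mem_cons_self _ _)
    have h1 := he p q (Multiset.mem_cons_self _ _)
    have h2 := he q p (Sym2.eq_swap ▸ Multiset.mem_cons_self _ _)
    obtain ⟨Z, g1, g2, g3, g4⟩ := h.lnk hd (link_one hR (Finset.disjoint_left.1 hd hm.1)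
      (Finset.disjoint_left.1 hd hm.2) h1.1 h2.1 (by omega))
    obtain ⟨Z', k1, k2, k3, k4⟩ := ih g3 g4 (filly_disj hd Z) fun x y hxy =>
      (he x y (Multiset.mem_cons_of_mem hxy)).imp_left fun d => d.sdiff Z
    exact filly_join g1 k1 (by rw [Multiset.card_cons]; omega) k3 k4

/-- the gaps in `gs` get one vertex each, the gap `p q` gets the remaining slack `r` -/
theorem fill_last {X : Finset V} {gs rest : Multiset (Sym2 V)} {p q : V} {g r : ℕ} {e : V → ℕ}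
    (h : CS G X (s(p, q) ::ₘ gs + rest)) (hR : Rs G Y U (g + 1) (gs.card + r))
    (ho : Y.Ord (g + 1)) (hr : 1 ≤ r)
    (hd : Disjoint X (Y.iv U 0 (g + 1)))
    (he : ∀ x y, s(x, y) ∈ gs → Df G Y U (g + 1) x (e x) ∧ e x + e y ≤ r + 2)
    (hp : Df G Y U (g + 1) p (e p) ∧ 1 ≤ e p ∧ e p ≤ Y.a g)
    (hq : Df G Y U (g + 1) q (e q) ∧ 1 ≤ e q ∧ e q ≤ Y.a g)
    (h1 : r = 1 → e p + e q ≤ 2) (h2 : r = 2 → e p ≤ 2 ∨ e q ≤ 2) :
    ∃ Z, Z ⊆ Y.iv U 0 (g + 1) ∧ Z.card = gs.card + r ∧ CS G (X ∪ Z) rest ∧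
      Rs G Y (U \ Z) (g + 1) 0 := by
  rw [Multiset.cons_add] at h
  have hm := h.mem (Multiset.mem_cons_self _ _)
  rw [← Multiset.add_cons] at h
  obtain ⟨Z, g1, g2, g3, g4⟩ := fill_ones h hR hd he
  have hd' := filly_disj hd Z
  obtain ⟨Z', k1, k2, k3, k4⟩ := g3.lnk hd' (link_all g4 ho hr
    (Finset.disjoint_left.1 hd' (mem_union_left _ hm.1))
    (Finset.disjoint_left.1 hd' (mem_union_left _ hm.2)) (hp.1.sdiff Z) (hq.1.sdiff Z) hp.2.1
    hq.2.1 hp.2.2 hq.2.2 h1 h2)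
  exact filly_join g1 k1 (by omega) k3 k4

theorem filly {X : Finset V} {gs rest : Multiset (Sym2 V)} {m s : ℕ} {e : V → ℕ}
    (h : CS G X (gs + rest)) (h0 : gs ≠ 0) (hR : Rs G Y U m s) (hd : Disjoint X (Y.iv U 0 m))
    (he : ∀ p q, s(p, q) ∈ gs → Df G Y U m p (e p) ∧ 1 ≤ e p ∧ e p + e q + gs.card ≤ s + 2) :
    ∃ Z, Z ⊆ Y.iv U 0 m ∧ Z.card = s ∧ CS G (X ∪ Z) rest ∧ Rs G Y (U \ Z) m 0 := by
  obtain ⟨a, ha⟩ := Multiset.exists_mem_of_ne_zero h0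
  obtain ⟨gs, rfl⟩ := Multiset.exists_cons_of_mem ha
  induction a using Sym2.ind with
  | _ p q =>
  rw [Multiset.card_cons] at he
  have h1 := he p q ha
  have h2 := he q p (Sym2.eq_swap ▸ ha)
  obtain ⟨r, rfl⟩ : ∃ r, s = gs.card + r := ⟨s - gs.card, by omega⟩
  rw [Multiset.cons_add] at h
  have hm := h.mem (Multiset.mem_cons_self _ _)
  rw [← Multiset.add_cons] at h
  obtain ⟨Z, g1, g2, g3, g4⟩ := fill_ones (e := e) h hR hd fun x y hxy => by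
    have := he x y (Multiset.mem_cons_of_mem hxy)
    exact ⟨this.1, by omega⟩
  have hd' := filly_disj hd Z
  obtain ⟨Z', k1, k2, k3, k4⟩ := g3.lnk hd' (link_last g4
    (Finset.disjoint_left.1 hd' (mem_union_left _ hm.1))
    (Finset.disjoint_left.1 hd' (mem_union_left _ hm.2)) (h1.1.sdiff Z) (h2.1.sdiff Z) h1.2.1
    h2.2.1 (by omega))
  exact filly_join g1 k1 (by omega) k3 k4

end Pool.Agent.Lib.MP_af3016_co
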