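import Pool.Agent.Lib.MP_af3016_co.C.Filly

/-! Distribution of the gaps between two reservoirs. -/

set_option autoImplicit false
set_option linter.unusedSectionVars false

namespace Pool.Agent.Lib.MP_af3016_co

open Finset SimpleGraph

variable {V : Type} [DecidableEq V] {G : SimpleGraph V} {Y : Lay V} {U : Finset V}

theorem greedy_sub {α : Type} (D : Multiset α) :
    ∀ n, n ≤ D.card → ∃ E F, D = E + F ∧ E.card = n := by
  induction D using Multiset.induction_on with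
  | empty =>
    intro n hn
    rw [Multiset.card_zero] at hn
    exact ⟨0, 0, rfl, by rw [Multiset.card_zero]; omega⟩
  | cons a D ih =>
    intro n hn
    rcases n with _ | n
    · exact ⟨0, a ::ₘ D, (zero_add _).symm, rfl⟩
    · rw [Multiset.card_cons] at hn
      obtain ⟨E, F, h1, h2⟩ := ih n (by omega)
      exact ⟨a ::ₘ E, F, by rw [h1, Multiset.cons_add], by rw [Multiset.card_cons, h2]⟩

/-- the counting part: a split of the gaps that is good on both sides -/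
theorem greedy_split {α : Type} {gs : Multiset α} {A B : α → ℕ} {s s' : ℕ} (h2 : 2 ≤ gs.card)
    (hsum : ∀ x ∈ gs, A x + B x + gs.card ≤ s + s' + 4) (hA : ∃ x ∈ gs, A x ≤ s + 1)
    (hB : ∃ x ∈ gs, B x ≤ s' + 1) :
    ∃ T T', gs = T + T' ∧ T ≠ 0 ∧ T' ≠ 0 ∧ (∀ x ∈ T, A x + T.card ≤ s + 2) ∧
      ∀ x ∈ T', B x + T'.card ≤ s' + 2 := by
  classical
  have ex : ∃ k, 1 ≤ k ∧ k + 1 ≤ gs.card ∧
      (gs.filter fun x => ¬(B x + gs.card ≤ s' + k + 2)).card ≤ k := by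
    refine ⟨gs.card - 1, by omega, by omega, ?_⟩
    obtain ⟨x, hx, hx'⟩ := hB
    have h1 := congrArg Multiset.card
      (Multiset.filter_add_not (fun x => B x + gs.card ≤ s' + (gs.card - 1) + 2) gs)
    have h3 : 0 < (gs.filter fun x => B x + gs.card ≤ s' + (gs.card - 1) + 2).card :=
      Multiset.card_pos_iff_exists_mem.2 ⟨x, Multiset.mem_filter.2 ⟨hx, by omega⟩⟩
    rw [Multiset.card_add] at h1
    omega
  obtain ⟨k, ⟨k1, k2, k3⟩, kmin⟩ : ∃ k, (1 ≤ k ∧ k + 1 ≤ gs.card ∧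
      (gs.filter fun x => ¬(B x + gs.card ≤ s' + k + 2)).card ≤ k) ∧ ∀ j < k,
      ¬(1 ≤ j ∧ j + 1 ≤ gs.card ∧
      (gs.filter fun x => ¬(B x + gs.card ≤ s' + j + 2)).card ≤ j) :=
    ⟨Nat.find ex, Nat.find_spec ex, fun j hj => Nat.find_min ex hj⟩
  have hk : k ≤ (gs.filter fun x => A x + k ≤ s + 2).card := by
    rcases k1.lt_or_eq with g | rfl
    · have h1 := kmin (k - 1) (by omega)
      have h3 : (gs.filter fun x => ¬(B x + gs.card ≤ s' + (k - 1) + 2)) ≤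
          gs.filter fun x => A x + k ≤ s + 2 := by
        refine Multiset.le_filter.2 ⟨Multiset.filter_le _ _, fun x hx => ?_⟩
        rw [Multiset.mem_filter] at hx
        have := hsum x hx.1
        omega
      have := Multiset.card_le_card h3
      omega
    · obtain ⟨x, hx, hx'⟩ := hA
      exact Multiset.card_pos_iff_exists_mem.2 ⟨x, Multiset.mem_filter.2 ⟨hx, by omega⟩⟩
  obtain ⟨M, N, hMN, hM, hN, hc⟩ : ∃ M N : Multiset α, M + N = gs ∧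
      (∀ x ∈ M, B x + gs.card ≤ s' + k + 2) ∧ (∀ x ∈ N, A x + k ≤ s + 2) ∧ N.card ≤ k :=
    ⟨_, _, Multiset.filter_add_not (fun x => B x + gs.card ≤ s' + k + 2) gs,
      fun x hx => (Multiset.mem_filter.1 hx).2, fun x hx => by
        rw [Multiset.mem_filter] at hx
        have := hsum x hx.1
        omega, k3⟩
  have hk' : k ≤ (M.filter fun x => A x + k ≤ s + 2).card + N.card := by
    have h1 : (gs.filter fun x => A x + k ≤ s + 2) =
        (M.filter fun x => A x + k ≤ s + 2) + N := by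
      rw [← hMN, Multiset.filter_add, Multiset.filter_eq_self.2 hN]
    rwa [h1, Multiset.card_add] at hk
  obtain ⟨E, F, h1, h3⟩ := greedy_sub (M.filter fun x => A x + k ≤ s + 2) (k - N.card) (by omega)
  have h4 := Multiset.filter_add_not (fun x => A x + k ≤ s + 2) M
  rw [h1] at h4
  have h5 : gs = (E + N) + (F + M.filter fun x => ¬(A x + k ≤ s + 2)) := by
    rw [← hMN]
    conv_lhs => rw [← h4]
    abel
  have h6 : (E + N).card = k := by rw [Multiset.card_add]; omega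
  have h7 := congrArg Multiset.card h5
  rw [Multiset.card_add, h6] at h7
  refine ⟨_, _, h5, fun g => ?_, fun g => ?_, fun x hx => ?_, fun x hx => ?_⟩
  · rw [g, Multiset.card_zero] at h6
    omega
  · rw [g, Multiset.card_zero] at h7
    omega
  · rw [h6]
    rcases Multiset.mem_add.1 hx with g | g
    · exact (Multiset.mem_filter.1 (h1 ▸ Multiset.mem_add.2 (Or.inl g) :
        x ∈ M.filter fun x => A x + k ≤ s + 2)).2
    · exact hN x g
  · have : x ∈ M := by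
      rw [← h4, add_assoc]
      exact Multiset.mem_add.2 (Or.inr hx)
    have := hM x this
    omega

/-- the second side takes all remaining gaps -/
theorem greedy_second {Y' : Lay V} {U' X Z : Finset V} {gs : Multiset (Sym2 V)} {m m' s' : ℕ}
    {e' : V → ℕ} (h : CS G (X ∪ Z) gs) (h0 : gs ≠ 0) (hR' : Rs G Y' U' m' s')
    (hZ : Z ⊆ Y.iv U 0 m) (hd' : Disjoint X (Y'.iv U' 0 m'))
    (hdd : Disjoint (Y.iv U 0 m) (Y'.iv U' 0 m'))
    (he' : ∀ p q, s(p, q) ∈ gs → Df G Y' U' m' p (e' p) ∧ 1 ≤ e' p ∧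
      e' p + e' q + gs.card ≤ s' + 2) :
    ∃ Z', Z' ⊆ Y'.iv U' 0 m' ∧ Z'.card = s' ∧ CS G (X ∪ Z ∪ Z') 0 ∧ Rs G Y' (U' \ Z') m' 0 :=
  filly (rest := 0) (by rwa [add_zero]) h0 hR'
    (disjoint_union_left.2 ⟨hd', hdd.mono_left hZ⟩) he'

/-- the exceptional case: all gaps are bad for the first side -/
theorem greedy_exc {Y' : Lay V} {U' X : Finset V} {gs : Multiset (Sym2 V)} {g g' s s' : ℕ}
    {e e' : V → ℕ} (h : CS G X gs) (h2 : 2 ≤ gs.card) (hR : Rs G Y U (g + 1) s)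
    (hR' : Rs G Y' U' (g' + 1) s') (ho : Y.Ord (g + 1))
    (hd : Disjoint X (Y.iv U 0 (g + 1))) (hd' : Disjoint X (Y'.iv U' 0 (g' + 1)))
    (hdd : Disjoint (Y.iv U 0 (g + 1)) (Y'.iv U' 0 (g' + 1)))
    (he : ∀ p q, s(p, q) ∈ gs → Df G Y U (g + 1) p (e p) ∧ 1 ≤ e p ∧ e p ≤ Y.a g)
    (he' : ∀ p q, s(p, q) ∈ gs → Df G Y' U' (g' + 1) p (e' p) ∧ 1 ≤ e' p ∧ e' p ≤ Y'.a g')
    (hsum : ∀ p q, s(p, q) ∈ gs → e' p + e' q + gs.card ≤ s' + 2)
    (hx : 3 ≤ s ∨ (s = 2 ∧ ∃ p q, s(p, q) ∈ gs ∧ e p ≤ 2)) :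
    ∃ Z Z', Z ⊆ Y.iv U 0 (g + 1) ∧ Z' ⊆ Y'.iv U' 0 (g' + 1) ∧ Z.card = s ∧ Z'.card = s' ∧
      CS G (X ∪ Z ∪ Z') 0 ∧ Rs G Y (U \ Z) (g + 1) 0 ∧ Rs G Y' (U' \ Z') (g' + 1) 0 := by
  obtain ⟨p, q, hpq, h1, h3⟩ : ∃ p q, s(p, q) ∈ gs ∧ 2 ≤ s ∧ (s = 2 → e p ≤ 2 ∨ e q ≤ 2) := by
    rcases hx with g | ⟨g, p, q, g1, g2⟩
    · obtain ⟨x, hx⟩ := Multiset.card_pos_iff_exists_mem.1 (show 0 < gs.card by omega)
      induction x using Sym2.ind with
      | _ p q => exact ⟨p, q, hx, by omega, fun _ => by omega⟩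
    · exact ⟨p, q, g1, by omega, fun _ => Or.inl g2⟩
  have hp := he p q hpq
  have hq := he q p (Sym2.eq_swap (a := p) (b := q) ▸ hpq)
  have hm := h.mem hpq
  obtain ⟨gs', rfl⟩ := Multiset.exists_cons_of_mem hpq
  have hl : Lnk G Y U (g + 1) s 0 p q :=
    link_all hR ho (by omega) (Finset.disjoint_left.1 hd hm.1) (Finset.disjoint_left.1 hd hm.2)
      hp.1 hq.1 hp.2.1 hq.2.1 hp.2.2 hq.2.2 (fun _ => by omega) h3
  obtain ⟨Z, z1, z2, z3, z4⟩ := h.lnk hd hl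
  rw [Multiset.card_cons] at h2 hsum
  obtain ⟨Z', y1, y2, y3, y4⟩ := greedy_second (e' := e') z3
    (fun g => by rw [g, Multiset.card_zero] at h2; omega) hR' z1 hd' hdd fun x y hxy => by
      have g1 := he' x y (Multiset.mem_cons_of_mem hxy)
      have g2 := hsum x y (Multiset.mem_cons_of_mem hxy)
      exact ⟨g1.1, g1.2.1, by omega⟩
  exact ⟨Z, Z', z1, y1, z2, y2, y3, z4, y4⟩

theorem greedy {Y' : Lay V} {U' X : Finset V} {gs : Multiset (Sym2 V)} {g g' s s' : ℕ}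
    {e e' : V → ℕ} (h : CS G X gs) (h2 : 2 ≤ gs.card) (hR : Rs G Y U (g + 1) s)
    (hR' : Rs G Y' U' (g' + 1) s') (ho : Y.Ord (g + 1)) (ho' : Y'.Ord (g' + 1))
    (hs : 1 ≤ s) (hs' : 1 ≤ s')
    (hd : Disjoint X (Y.iv U 0 (g + 1))) (hd' : Disjoint X (Y'.iv U' 0 (g' + 1)))
    (hdd : Disjoint (Y.iv U 0 (g + 1)) (Y'.iv U' 0 (g' + 1)))
    (he : ∀ p q, s(p, q) ∈ gs → Df G Y U (g + 1) p (e p) ∧ 1 ≤ e p ∧ e p ≤ Y.a g)
    (he' : ∀ p q, s(p, q) ∈ gs → Df G Y' U' (g' + 1) p (e' p) ∧ 1 ≤ e' p ∧ e' p ≤ Y'.a g')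
    (hsum : ∀ p q, s(p, q) ∈ gs → e p + e q + e' p + e' q + gs.card ≤ s + s' + 4)
    (hx : (∀ p q, s(p, q) ∈ gs → s + 2 ≤ e p + e q) →
      3 ≤ s ∨ (s = 2 ∧ ∃ p q, s(p, q) ∈ gs ∧ e p ≤ 2))
    (hx' : (∀ p q, s(p, q) ∈ gs → s' + 2 ≤ e' p + e' q) →
      3 ≤ s' ∨ (s' = 2 ∧ ∃ p q, s(p, q) ∈ gs ∧ e' p ≤ 2)) :
    ∃ Z Z', Z ⊆ Y.iv U 0 (g + 1) ∧ Z' ⊆ Y'.iv U' 0 (g' + 1) ∧ Z.card = s ∧ Z'.card = s' ∧
      CS G (X ∪ Z ∪ Z') 0 ∧ Rs G Y (U \ Z) (g + 1) 0 ∧ Rs G Y' (U' \ Z') (g' + 1) 0 := by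
  by_cases c1 : ∀ p q, s(p, q) ∈ gs → s + 2 ≤ e p + e q
  · exact greedy_exc h h2 hR hR' ho hd hd' hdd he he' (fun p q hpq => by
      have := c1 p q hpq
      have := hsum p q hpq
      omega) (hx c1)
  by_cases c2 : ∀ p q, s(p, q) ∈ gs → s' + 2 ≤ e' p + e' q
  · obtain ⟨Z', Z, y1, z1, y2, z2, z3, y4, z4⟩ := greedy_exc h h2 hR' hR ho' hd' hd hdd.symm he' he
      (fun p q hpq => by
        have := c2 p q hpq
        have := hsum p q hpq
        omega) (hx' c2)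
    exact ⟨Z, Z', z1, y1, z2, y2, by rwa [union_right_comm], z4, y4⟩
  push Not at c1 c2
  obtain ⟨T, T', rfl, t0, t0', t1, t1'⟩ := greedy_split (s := s) (s' := s')
    (A := Sym2.lift ⟨fun p q => e p + e q, fun p q => add_comm _ _⟩)
    (B := Sym2.lift ⟨fun p q => e' p + e' q, fun p q => add_comm _ _⟩) h2
    (fun x hx => by
      induction x using Sym2.ind with
      | _ p q =>
        have := hsum p q hx
        simp only [Sym2.lift_mk]
        omega)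
    (by
      obtain ⟨p, q, g1, g2⟩ := c1
      exact ⟨_, g1, by simp only [Sym2.lift_mk]; omega⟩)
    (by
      obtain ⟨p, q, g1, g2⟩ := c2
      exact ⟨_, g1, by simp only [Sym2.lift_mk]; omega⟩)
  obtain ⟨Z, z1, z2, z3, z4⟩ := filly (e := e) h t0 hR hd fun p q hpq => by
    have g1 := he p q (Multiset.mem_add.2 (Or.inl hpq))
    have g2 := t1 _ hpq
    simp only [Sym2.lift_mk] at g2
    exact ⟨g1.1, g1.2.1, g2⟩
  obtain ⟨Z', y1, y2, y3, y4⟩ := greedy_second (e' := e') z3 t0' hR' z1 hd' hdd fun p q hpq => by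
    have g1 := he' p q (Multiset.mem_add.2 (Or.inr hpq))
    have g2 := t1' _ hpq
    simp only [Sym2.lift_mk] at g2
    exact ⟨g1.1, g1.2.1, g2⟩
  exact ⟨Z, Z', z1, y1, z2, y2, y3, z4, y4⟩

end Pool.Agent.Lib.MP_af3016_co
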