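import Pool.Agent.Lib.MP_af3016_co.C.Defs

/-! Links through a reservoir. -/

set_option autoImplicit false
set_option linter.unusedSectionVars false

namespace Pool.Agent.Lib.MP_af3016_co

open Finset SimpleGraph

variable {V : Type} [DecidableEq V] {G : SimpleGraph V} {Y : Lay V} {U : Finset V}

theorem link_one {m w e e' : ℕ} {u u' : V} (h : Rs G Y U m (1 + w)) (hu : u ∉ Y.iv U 0 m)
    (hu' : u' ∉ Y.iv U 0 m) (d : Df G Y U m u e) (d' : Df G Y U m u' e') (he : e + e' ≤ w + 2) :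
    Lnk G Y U m 1 w u u' := by
  classical
  obtain ⟨t, ht, hmax⟩ := exists_max_image
    ((range (m + 1)).filter fun t => (Y.iv U 0 t).card = Y.A t + Y.B t) id
    ⟨0, by simp [Y.iv_self, Y.A_zero, Y.B_zero]⟩
  rw [mem_filter, mem_range] at ht
  have htop := h.top
  have htm : t < m := by
    rcases (Nat.lt_succ_iff.1 ht.1).lt_or_eq with g | g
    · exact g
    · have := ht.2
      rw [g] at this
      omega
  have hsub : Y.iv U t m ⊆ Y.iv U 0 m := Lay.iv_mono (Subset.refl U) (Nat.zero_le t) (le_refl m)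
  have h1 := dG_add_dH_out (G := G) (a := u) (S := Y.iv U t m) fun g => hu (hsub g)
  have h2 := dG_add_dH_out (G := G) (a := u') (S := Y.iv U t m) fun g => hu' (hsub g)
  have h3 := d t htm
  have h4 := d' t htm
  have h5 := Y.card_iv U (Nat.zero_le t) htm.le
  have h6 := h.AB htm.le (le_refl m)
  have h7 := ht.2
  obtain ⟨z, hz, g1, g2⟩ := exists_common (G := G) (a := u) (b := u') (S := Y.iv U t m) (by omega)
  refine ⟨z, z, {z}, HP.single z, g1, g2, singleton_subset_iff.2 (hsub hz), card_singleton z,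
    h.remove_iv (singleton_subset_iff.2 hz) (card_singleton z) fun l hl hlm => ?_⟩
  have k1 := h.leg l hlm.le
  by_contra k2
  have k3 := hmax l (by rw [mem_filter, mem_range]; exact ⟨by omega, by omega⟩)
  simp only [id] at k3
  omega

theorem lk_not {g g' : ℕ} {u : V} {Z : Finset V} (hu : u ∉ Y.iv U 0 g) (hg : g' ≤ g) :
    u ∉ Y.iv (U \ Z) 0 g' := fun k => hu (Lay.iv_mono sdiff_subset (le_refl 0) hg k)

theorem lk_self {g : ℕ} {z : V} : z ∉ Y.iv (U \ {z}) 0 g := fun k =>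
  (mem_sdiff.1 (Lay.mem_iv.1 k).1).2 (mem_singleton_self z)

theorem lk_df {g s : ℕ} {z : V} (h : Rs G Y U (g + 1) s) (hz : z ∈ Y.iv U g (g + 1)) :
    Df G Y (U \ {z}) (g + 1) z 0 := by
  obtain ⟨h1, h2, h3⟩ := Lay.mem_iv.1 hz
  have e : Y.f z = g := by omega
  have := h.int z h1 h3
  rw [e] at this
  exact this.sdiff _

theorem lk_miss {g : ℕ} {u : V} (hu : u ∉ Y.iv U 0 (g + 1))
    (hn : ¬∃ z ∈ Y.iv U g (g + 1), G.Adj u z) :
    dH G u (Y.iv U g (g + 1)) = (Y.iv U g (g + 1)).card :=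
  dH_eq_card fun b hb =>
    ⟨fun e => hu (e ▸ Lay.iv_mono (Subset.refl U) (Nat.zero_le g) (le_refl _) hb),
      fun k => hn ⟨b, hb, k⟩⟩

theorem lk_edge (n : ℕ) : ∀ (U : Finset V) (g r w e e' : ℕ) (u u' : V), g + r = n →
    Rs G Y U (g + 1) (r + w) → Y.Ord (g + 1) → 2 ≤ r → u ∉ Y.iv U 0 (g + 1) →
    u' ∉ Y.iv U 0 (g + 1) → Df G Y U (g + 1) u e → Df G Y U (g + 1) u' e' → 1 ≤ e' →
    e' ≤ w + 2 → e + e' ≤ Y.a g + w + 2 → Lnk G Y U (g + 1) r w u u' := by
  induction n using Nat.strong_induction_on with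
  | _ n ih =>
    intro U g r w e e' u u' hn h ho hr hu hu' d d' h1 h2 h3
    by_cases hz : ∃ z ∈ Y.iv U g (g + 1), G.Adj u z
    · obtain ⟨z, hz, huz⟩ := hz
      obtain ⟨r, rfl⟩ : ∃ r', r = r' + 1 := ⟨r - 1, by omega⟩
      have hz0 : z ∈ Y.iv U 0 (g + 1) :=
        Lay.iv_mono (Subset.refl U) (Nat.zero_le g) (le_refl _) hz
      have h' : Rs G Y (U \ {z}) (g + 1) (r + w) :=
        Rs.remove_top (by rwa [show 1 + (r + w) = r + 1 + w by omega]) hz
      have dz := lk_df h hz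
      refine Lnk.cons hz0 huz ?_
      by_cases e1 : r = 1
      · subst e1
        exact link_one h' lk_self (lk_not hu' (le_refl _)) dz (d'.sdiff _) (by omega)
      · have k1 := h.ba g (by omega)
        have k2 := h.one g (by omega)
        exact (ih (g + r) (by omega) _ g r w e' 1 u' z rfl h' ho (by omega)
          (lk_not hu' (le_refl _)) lk_self (d'.sdiff _) (dz.mono (Nat.zero_le 1)) (le_refl 1)
          (by omega) (by omega)).symm
    · have hm := lk_miss hu hz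
      obtain ⟨s', hs, hc⟩ := h.down
      have k1 := d g (Nat.lt_succ_self g)
      rw [Y.B_succ] at k1
      cases g with
      | zero =>
        have := hs.zero
        omega
      | succ g =>
        obtain ⟨w1, rfl⟩ : ∃ w1, s' = r + w1 := ⟨s' - r, by omega⟩
        have k2 := ho g (by omega)
        have hs1 : Y.iv U 0 (g + 1) ⊆ Y.iv U 0 (g + 1 + 1) :=
          Lay.iv_mono (Subset.refl U) (le_refl 0) (Nat.le_succ _)
        have := ih (g + r) (by omega) U g r w1 (e' + Y.b (g + 1))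
          (e + w1 - (Y.a (g + 1) + w)) u' u rfl hs (ho.mono (Nat.le_succ _)) hr
          (fun k => hu' (hs1 k)) (fun k => hu (hs1 k)) (d'.down1 (by omega)) (d.down1 (by omega))
          (by omega) (by omega) (by omega)
        exact Lnk.lift h (Nat.le_succ _) this.symm fun t k3 k4 => by omega

theorem link_edge {g r w e e' : ℕ} {u u' : V} (h : Rs G Y U (g + 1) (r + w)) (ho : Y.Ord (g + 1))
    (hr : 2 ≤ r)
    (hu : u ∉ Y.iv U 0 (g + 1)) (hu' : u' ∉ Y.iv U 0 (g + 1)) (d : Df G Y U (g + 1) u e)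
    (d' : Df G Y U (g + 1) u' e') (h1 : 1 ≤ e') (h2 : e' ≤ w + 2)
    (h3 : e + e' ≤ Y.a g + w + 2) : Lnk G Y U (g + 1) r w u u' := by
  exact lk_edge (g + r) U g r w e e' u u' rfl h ho hr hu hu' d d' h1 h2 h3

theorem lk_hit {g r w e' : ℕ} {u u' z : V} (h : Rs G Y U (g + 1) (r + w)) (ho : Y.Ord (g + 1))
    (hr : 3 ≤ r) (hu' : u' ∉ Y.iv U 0 (g + 1)) (d' : Df G Y U (g + 1) u' e')
    (h2 : e' ≤ Y.a g + w + 1) (hz : z ∈ Y.iv U g (g + 1)) (huz : G.Adj u z) :
    Lnk G Y U (g + 1) r w u u' := by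
  obtain ⟨r, rfl⟩ : ∃ r', r = r' + 1 := ⟨r - 1, by omega⟩
  have hz0 : z ∈ Y.iv U 0 (g + 1) :=
    Lay.iv_mono (Subset.refl U) (Nat.zero_le g) (le_refl _) hz
  have h' : Rs G Y (U \ {z}) (g + 1) (r + w) :=
    Rs.remove_top (by rwa [show 1 + (r + w) = r + 1 + w by omega]) hz
  exact Lnk.cons hz0 huz (link_edge h' ho (by omega) (lk_not hu' (le_refl _)) lk_self
    (d'.sdiff _) ((lk_df h hz).mono (Nat.zero_le 1)) (le_refl 1) (by omega) (by omega)).symm

theorem link_seg {g r w e e' : ℕ} {u u' : V} (h : Rs G Y U (g + 1) (r + w)) (ho : Y.Ord (g + 1))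
    (hr : 3 ≤ r)
    (hu : u ∉ Y.iv U 0 (g + 1)) (hu' : u' ∉ Y.iv U 0 (g + 1)) (d : Df G Y U (g + 1) u e)
    (d' : Df G Y U (g + 1) u' e') (h1 : e ≤ Y.a g + w + 1) (h2 : e' ≤ Y.a g + w + 1) :
    Lnk G Y U (g + 1) r w u u' := by
  induction g generalizing w e e' with
  | zero =>
    by_cases hz : ∃ z ∈ Y.iv U 0 (0 + 1), G.Adj u z
    · obtain ⟨z, hz, huz⟩ := hz
      exact lk_hit h ho hr hu' d' h2 hz huz
    · have hm := lk_miss hu hz
      obtain ⟨s', hs, hc⟩ := h.down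
      have k1 := d 0 (Nat.lt_succ_self 0)
      rw [Y.B_succ] at k1
      have := hs.zero
      omega
  | succ g ih =>
    by_cases hz : ∃ z ∈ Y.iv U (g + 1) (g + 1 + 1), G.Adj u z
    · obtain ⟨z, hz, huz⟩ := hz
      exact lk_hit h ho hr hu' d' h2 hz huz
    by_cases hz' : ∃ z ∈ Y.iv U (g + 1) (g + 1 + 1), G.Adj u' z
    · obtain ⟨z, hz', huz⟩ := hz'
      exact (lk_hit h ho hr hu d h1 hz' huz).symm
    have hm := lk_miss hu hz
    have hm' := lk_miss hu' hz'
    obtain ⟨s', hs, hc⟩ := h.down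
    have k1 := d (g + 1) (Nat.lt_succ_self _)
    rw [Y.B_succ (g + 1)] at k1
    obtain ⟨w1, rfl⟩ : ∃ w1, s' = r + w1 := ⟨s' - r, by omega⟩
    have hs1 : Y.iv U 0 (g + 1) ⊆ Y.iv U 0 (g + 1 + 1) :=
      Lay.iv_mono (Subset.refl U) (le_refl 0) (Nat.le_succ _)
    have := ih (w := w1) (e := w1 + 1) (e' := w1 + 1) hs (ho.mono (Nat.le_succ _))
      (fun k => hu (hs1 k)) (fun k => hu' (hs1 k)) (d.down1 (by omega)) (d'.down1 (by omega))
      (by omega) (by omega)
    exact Lnk.lift h (Nat.le_succ _) this fun t k3 k4 => by omega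

/-- a link that uses up the whole slack -/
theorem link_all {g r e e' : ℕ} {u u' : V} (h : Rs G Y U (g + 1) r) (ho : Y.Ord (g + 1))
    (hr : 1 ≤ r)
    (hu : u ∉ Y.iv U 0 (g + 1)) (hu' : u' ∉ Y.iv U 0 (g + 1)) (d : Df G Y U (g + 1) u e)
    (d' : Df G Y U (g + 1) u' e') (h1 : 1 ≤ e) (h1' : 1 ≤ e') (h2 : e ≤ Y.a g) (h2' : e' ≤ Y.a g)
    (h3 : r = 1 → e + e' ≤ 2) (h4 : r = 2 → e ≤ 2 ∨ e' ≤ 2) : Lnk G Y U (g + 1) r 0 u u' := by
  by_cases e1 : r = 1
  · subst e1
    exact link_one (w := 0) h hu hu' d d' (h3 rfl)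
  by_cases e2 : r = 2
  · rcases h4 e2 with k | k
    · exact (link_edge (w := 0) h ho (by omega) hu' hu d' d h1 (by omega) (by omega)).symm
    · exact link_edge (w := 0) h ho (by omega) hu hu' d d' h1' (by omega) (by omega)
  · exact link_seg (w := 0) h ho (by omega) hu hu' d d' (by omega) (by omega)

end Pool.Agent.Lib.MP_af3016_co
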