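import Pool.Agent.Lib.MP_af3016_co.C.Mid0

/-! Cyclic orders with two movable marked positions. -/

set_option autoImplicit false
set_option linter.unusedSectionVars false

namespace Pool.Agent.Lib.MP_af3016_co

open Finset SimpleGraph

variable {V : Type} [DecidableEq V] {G : SimpleGraph V} {Y : Lay V} {U : Finset V}

theorem m6_ne {X : Finset V} {gs : Multiset (Sym2 V)} {p q : V} (h : CS G X (s(p, q) ::ₘ gs))
    (h2 : 2 ≤ X.card) : p ≠ q := by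
  rintro rfl
  obtain ⟨l, h1, h3, h4, h5, -⟩ := h.cut
  rcases l with _ | ⟨x, _ | ⟨y, t⟩⟩
  · simp at h1
  · have : X.card ≤ 1 := card_le_one.2 fun a ha b hb => by
      rw [← h5, List.mem_singleton] at ha hb
      rw [ha, hb]
    omega
  · obtain rfl : x = p := by simpa using h1
    rw [List.getLast?_cons_cons] at h3
    exact (List.nodup_cons.1 h4).1 (List.mem_of_getLast? h3)

theorem m6_cut {X : Finset V} {gs : Multiset (Sym2 V)} {u w : V} (h : CS G X (s(u, w) ::ₘ gs))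
    (hne : u ≠ w) (hg : ∀ q, s(u, q) ∉ gs) :
    ∃ a t es, (u :: a :: t).Nodup ∧ (a :: t).getLast? = some w ∧
      (∀ v, v ∈ u :: a :: t ↔ v ∈ X) ∧ G.Adj u a ∧ lp (a :: t) = gs + es ∧
      ∀ e ∈ es, e ∈ G.edgeSet := by
  obtain ⟨l, h1, h3, h4, h5, es, h6, h7⟩ := h.cut
  rcases l with _ | ⟨x, _ | ⟨a, t⟩⟩
  · simp at h1
  · obtain rfl : x = u := by simpa using h1
    exact absurd (by simpa using h3) hne
  · obtain rfl : x = u := by simpa using h1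
    rw [List.getLast?_cons_cons] at h3
    have e : lp (x :: a :: t) = s(x, a) ::ₘ lp (a :: t) := rfl
    have hm : s(x, a) ∈ es := by
      have : s(x, a) ∈ gs + es := by rw [← h6, e]; exact Multiset.mem_cons_self _ _
      exact (Multiset.mem_add.1 this).resolve_left (hg a)
    obtain ⟨es', rfl⟩ := Multiset.exists_cons_of_mem hm
    refine ⟨a, t, es', h4, h3, h5, h7 _ (Multiset.mem_cons_self _ _), ?_,
      fun f hf => h7 f (Multiset.mem_cons_of_mem hf)⟩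
    rw [e, Multiset.add_cons] at h6
    exact (Multiset.cons_inj_right _).1 h6

/-- the second position at an end of a gap is opened -/
theorem m6_open2 {X : Finset V} {gs : Multiset (Sym2 V)} {u w : V}
    (h : CS G X (s(u, w) ::ₘ gs)) (h2 : 2 ≤ X.card) (hg : ∀ q, s(u, q) ∉ gs) :
    ∃ q, G.Adj u q ∧ CS G X (s(u, q) ::ₘ s(u, w) ::ₘ gs) := by
  obtain ⟨a, t, es, k1, k2, k3, k4, k5, k6⟩ := m6_cut h (m6_ne h h2) hg
  refine ⟨a, k4, ?_⟩
  rw [Multiset.cons_swap]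
  refine cs_of_list (l := u :: a :: t) (es := es) rfl (by rw [List.getLast?_cons_cons]; exact k2)
    k1 k3 ?_ k6
  rw [Multiset.cons_add, ← k5]
  rfl

/-- at most one member of `gs` contains `u` -/
def M6f (u : V) (gs : Multiset (Sym2 V)) : Prop :=
  ∀ w gs', gs = s(u, w) ::ₘ gs' → ∀ q, s(u, q) ∉ gs'

theorem m6f_one (u : V) (e : Sym2 V) : M6f u {e} := fun w gs' h q hq => by
  have := congrArg Multiset.card h
  rw [Multiset.card_singleton, Multiset.card_cons] at this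
  have := Multiset.card_pos_iff_exists_mem.2 ⟨_, hq⟩
  omega

theorem m6f_two {u : V} {e e' : Sym2 V} (h : ¬(u ∈ e ∧ u ∈ e')) : M6f u (e ::ₘ {e'}) := by
  intro w gs' k q hq
  rcases Multiset.cons_eq_cons.1 k with ⟨k1, k2⟩ | ⟨-, cs, k1, k2⟩
  · rw [← k2, Multiset.mem_singleton] at hq
    exact h ⟨k1 ▸ Sym2.mem_mk_left u w, hq ▸ Sym2.mem_mk_left u q⟩
  · obtain ⟨k3, k4⟩ := Multiset.singleton_eq_cons_iff _ |>.1 k1
    rw [k2, k4, Multiset.cons_zero, Multiset.mem_singleton] at hq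
    exact h ⟨hq ▸ Sym2.mem_mk_left u q, k3 ▸ Sym2.mem_mk_left u w⟩

/-- a free position at `u` is opened -/
theorem m6_open {X : Finset V} {gs : Multiset (Sym2 V)} {u : V} (h : CS G X gs) (hu : u ∈ X)
    (h2 : 2 ≤ X.card) (hg : M6f u gs) : ∃ q, G.Adj u q ∧ CS G X (s(u, q) ::ₘ gs) := by
  by_cases e : ∃ w, s(u, w) ∈ gs
  · obtain ⟨w, hw⟩ := e
    obtain ⟨gs', rfl⟩ := Multiset.exists_cons_of_mem hw
    exact m6_open2 h h2 (hg w gs' rfl)
  · exact h.openAt hu fun q hq => e ⟨q, hq⟩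

theorem m6_re {X : Finset V} {gs gs' : Multiset (Sym2 V)} (h : CS G X gs) (e : gs = gs') :
    CS G X gs' := e ▸ h

/-- `G` with the neighbourhood of `ν` replaced by `M` -/
def m6v (G : SimpleGraph V) (ν : V) (M : Finset V) : SimpleGraph V :=
  SimpleGraph.fromRel fun x y => (x ≠ ν ∧ y ≠ ν ∧ G.Adj x y) ∨ (x = ν ∧ y ∈ M)

theorem m6v_in {ν x y : V} {M : Finset V} (hx : x ≠ ν) (hy : y ≠ ν) :
    (m6v G ν M).Adj x y ↔ G.Adj x y := by
  rw [m6v, fromRel_adj]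
  constructor
  · rintro ⟨-, (h | h) | (h | h)⟩
    exacts [h.2.2, absurd h.1 hx, h.2.2.symm, absurd h.1 hy]
  · exact fun h => ⟨h.ne, Or.inl (Or.inl ⟨hx, hy, h⟩)⟩

theorem m6v_nu {ν x : V} {M : Finset V} (hx : x ≠ ν) : (m6v G ν M).Adj x ν ↔ x ∈ M := by
  rw [m6v, fromRel_adj]
  constructor
  · rintro ⟨-, (h | h) | (h | h)⟩
    exacts [absurd rfl h.2.1, absurd h.1 hx, absurd rfl h.1, h.2]
  · exact fun h => ⟨hx, Or.inr (Or.inr ⟨rfl, h⟩)⟩

theorem m6_put {X M : Finset V} {gs : Multiset (Sym2 V)} {a b ν : V}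
    (h : CS G X (s(a, b) ::ₘ gs)) (hν : ν ∉ X) (ha : a ∈ M) (hb : b ∈ M) :
    CS (m6v G ν M) (insert ν X) gs := by
  have hn : ∀ x ∈ X, x ≠ ν := fun x hx e => hν (e ▸ hx)
  have hm := h.mem (Multiset.mem_cons_self _ _)
  have h' : CS (m6v G ν M) X (s(a, b) ::ₘ gs) :=
    h.congr fun x hx y hy e => (m6v_in (hn x hx) (hn y hy)).2 e
  have := h'.fill (HP.single ν) ((m6v_nu (hn a hm.1)).2 ha) ((m6v_nu (hn b hm.2)).2 hb)
    (disjoint_singleton_right.2 hν)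
  rwa [union_comm, ← insert_eq] at this

theorem m6_take {X M : Finset V} {gs : Multiset (Sym2 V)} {ν : V}
    (h : CS (m6v G ν M) (insert ν X) gs) (hν : ν ∉ X) (hg : ∀ q, s(ν, q) ∉ gs) :
    ∃ a ∈ M, ∃ b ∈ M, CS G X (s(a, b) ::ₘ gs) := by
  have hn : ∀ x ∈ X, x ≠ ν := fun x hx e => hν (e ▸ hx)
  obtain ⟨q, hq, h1⟩ := h.openAt (mem_insert_self _ _) hg
  obtain ⟨a, t, es, k1, k2, k3, k4, k5, k6⟩ := m6_cut h1 hq.ne hg
  refine ⟨a, (m6v_nu k4.ne.symm).1 k4.symm, q, (m6v_nu hq.ne.symm).1 hq.symm, ?_⟩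
  rw [List.nodup_cons] at k1
  have : CS (m6v G ν M) X (s(a, q) ::ₘ gs) := by
    refine cs_of_list (l := a :: t) (es := es) rfl k2 k1.2 (fun v => ?_) k5 k6
    have := k3 v
    rw [List.mem_cons, mem_insert] at this
    constructor
    · exact fun hv => (this.1 (Or.inr hv)).resolve_left fun e => k1.1 (e ▸ hv)
    · exact fun hv => (this.2 (Or.inr hv)).resolve_left (hn v hv)
  exact this.congr fun x hx y hy e => (m6v_in (hn x hx) (hn y hy)).1 e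

/-- the indicator of a set -/
def m6i (M : Finset V) (x : V) : ℕ := if x ∈ M then 1 else 0

theorem m6i_pos {M : Finset V} {x : V} (h : x ∈ M) : m6i M x = 1 := if_pos h

theorem m6i_neg {M : Finset V} {x : V} (h : x ∉ M) : m6i M x = 0 := if_neg h

theorem m6_deg {X M : Finset V} {p ν : V} (hν : ν ∉ X) (hp : p ∈ X) :
    dG G p X + m6i M p ≤ dG (m6v G ν M) p (insert ν X) := by
  have hn : ∀ x ∈ X, x ≠ ν := fun x hx e => hν (e ▸ hx)
  obtain ⟨N, h1, h2⟩ := exists_nbhd (G := G) p X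
  have h3 : ∀ b ∈ N, b ∈ insert ν X ∧ (m6v G ν M).Adj p b := fun b hb =>
    ⟨mem_insert_of_mem ((h2 b).1 hb).1, (m6v_in (hn p hp) (hn b ((h2 b).1 hb).1)).2 ((h2 b).1 hb).2⟩
  by_cases e : p ∈ M
  · rw [m6i_pos e, ← h1, ← card_insert_of_notMem (a := ν) fun g => hν ((h2 ν).1 g).1]
    refine le_dG fun b hb => ?_
    rcases mem_insert.1 hb with rfl | hb
    exacts [⟨mem_insert_self _ _, (m6v_nu (hn p hp)).2 e⟩, h3 b hb]
  · rw [m6i_neg e, ← h1]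
    exact le_dG h3

/-- an order with a marked position in `M1`, one in `M2`, the kept pairs `F` and the gaps `gs` -/
def M6c (G : SimpleGraph V) (D M1 M2 : Finset V) (F : Multiset (Sym2 V)) (a1 b1 a2 b2 : V)
    (gs : Multiset (Sym2 V)) : Prop :=
  a1 ∈ M1 ∧ b1 ∈ M1 ∧ a2 ∈ M2 ∧ b2 ∈ M2 ∧ CS G D (s(a1, b1) ::ₘ s(a2, b2) ::ₘ (F + gs))

theorem m6_bc {D M1 M2 : Finset V} {F gs : Multiset (Sym2 V)} {a1 b1 a2 b2 p q ν1 ν2 : V}
    (h : M6c G D M1 M2 F a1 b1 a2 b2 (s(p, q) ::ₘ gs)) (n1 : ν1 ∉ D) (n2 : ν2 ∉ D)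
    (n3 : ν2 ≠ ν1) (hM : M2 ⊆ D)
    (hd : D.card + 2 + F.card ≤
      dG G p D + dG G q D + m6i M1 p + m6i M1 q + m6i M2 p + m6i M2 q + gs.card) :
    ∃ a1 b1 a2 b2 gs', M6c G D M1 M2 F a1 b1 a2 b2 gs' ∧ gs'.card ≤ gs.card := by
  obtain ⟨h1, h2, h3, h4, h5⟩ := h
  have hm : ∀ x y, s(x, y) ∈ F + s(p, q) ::ₘ gs → x ∈ D ∧ y ∈ D := fun x y e =>
    h5.mem (Multiset.mem_cons_of_mem (Multiset.mem_cons_of_mem e))
  have n4 : ν2 ∉ insert ν1 D := fun e => (mem_insert.1 e).elim n3 n2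
  have hp := hm p q (Multiset.mem_add.2 (Or.inr (Multiset.mem_cons_self _ _)))
  have k := m6_put (m6_put h5 n1 h1 h2) n4 h3 h4
  have d1 := m6_deg (G := G) (M := M1) n1 hp.1
  have d2 := m6_deg (G := G) (M := M1) n1 hp.2
  have d3 := m6_deg (G := m6v G ν1 M1) (M := M2) n4 (mem_insert_of_mem hp.1)
  have d4 := m6_deg (G := m6v G ν1 M1) (M := M2) n4 (mem_insert_of_mem hp.2)
  obtain ⟨gs', k1, k2, k3⟩ := k.bc (D := D) hp.1 hp.2
    (fun x y e => hm x y (Multiset.mem_add.2 (Or.inr (Multiset.mem_cons_of_mem e))))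
    (by rw [card_insert_of_notMem n4, card_insert_of_notMem n1]; omega)
  have hm' : ∀ x y, s(x, y) ∈ F + gs' → x ∈ D := fun x y e =>
    (Multiset.mem_add.1 e).elim (fun e => (hm x y (Multiset.mem_add.2 (Or.inl e))).1)
      fun e => (k3 x y e).1
  obtain ⟨a, ha, b, hb, k4⟩ := m6_take k1 n4 fun y e => n2 (hm' _ y e)
  obtain ⟨a', ha', b', hb', k5⟩ := m6_take k4 n1 fun y e => by
    rcases Multiset.mem_cons.1 e with e | e
    · rcases Sym2.eq_iff.1 e with e | e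
      exacts [n1 (e.1 ▸ hM ha), n1 (e.1 ▸ hM hb)]
    · exact n1 (hm' _ y e)
  exact ⟨a', b', a, b, gs', ⟨ha', hb', ha, hb, k5⟩, k2⟩

/-- the bound for a gap of an order with the least number `c` of gaps -/
def M6b (G : SimpleGraph V) (D M1 M2 : Finset V) (f c : ℕ) (x y : V) : Prop :=
  x ∈ D ∧ y ∈ D ∧ x ≠ y ∧ ¬G.Adj x y ∧
    dG G x D + dG G y D + m6i M1 x + m6i M1 y + m6i M2 x + m6i M2 y + c ≤ D.card + 2 + f

theorem m6_core {D M1 M2 : Finset V} {F gs0 : Multiset (Sym2 V)} {a1 b1 a2 b2 ν1 ν2 : V}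
    (h : M6c G D M1 M2 F a1 b1 a2 b2 gs0) (n1 : ν1 ∉ D) (n2 : ν2 ∉ D) (n3 : ν2 ≠ ν1)
    (hM : M2 ⊆ D) (h2 : 2 ≤ D.card) :
    ∃ a1 b1 a2 b2 gs, M6c G D M1 M2 F a1 b1 a2 b2 gs ∧ a1 ≠ b1 ∧ a2 ≠ b2 ∧
      (∀ p q, s(p, q) ∈ gs → M6b G D M1 M2 F.card gs.card p q) ∧
      (∀ p q, s(p, q) ∈ gs → p ∈ M1 → q ∈ M1 → M6b G D M1 M2 F.card gs.card a1 b1) ∧
      (∀ p q, s(p, q) ∈ gs → p ∈ M2 → q ∈ M2 → M6b G D M1 M2 F.card gs.card a2 b2) := by
  classical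
  have ex : ∃ c, ∃ a1 b1 a2 b2 gs, M6c G D M1 M2 F a1 b1 a2 b2 gs ∧ gs.card = c :=
    ⟨_, a1, b1, a2, b2, gs0, h, rfl⟩
  have key : ∀ a1 b1 a2 b2 p q gs, M6c G D M1 M2 F a1 b1 a2 b2 (s(p, q) ::ₘ gs) →
      gs.card + 1 = Nat.find ex → M6b G D M1 M2 F.card (Nat.find ex) p q := by
    intro a1 b1 a2 b2 p q gs k e
    have k' : CS G D (s(p, q) ::ₘ s(a1, b1) ::ₘ s(a2, b2) ::ₘ (F + gs)) := by
      have := k.2.2.2.2
      rwa [Multiset.add_cons, Multiset.cons_swap s(a2, b2), Multiset.cons_swap s(a1, b1)] at this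
    have hm := k'.mem (Multiset.mem_cons_self _ _)
    refine ⟨hm.1, hm.2, m6_ne k' h2, fun g => ?_, ?_⟩
    · exact Nat.find_min ex (show gs.card < Nat.find ex by omega)
        ⟨a1, b1, a2, b2, gs, ⟨k.1, k.2.1, k.2.2.1, k.2.2.2.1, k'.edge g⟩, rfl⟩
    · by_contra g
      obtain ⟨c1, d1, c2, d2, gs', g1, g2⟩ := m6_bc k n1 n2 n3 hM (by omega)
      exact Nat.find_min ex (show gs'.card < Nat.find ex by omega) ⟨c1, d1, c2, d2, gs', g1, rfl⟩
  obtain ⟨c1, d1, c2, d2, gs, k, e⟩ := Nat.find_spec ex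
  refine ⟨c1, d1, c2, d2, gs, k, m6_ne k.2.2.2.2 h2,
    m6_ne (by have := k.2.2.2.2; rwa [Multiset.cons_swap] at this) h2, fun p q hp => ?_,
    fun p q hp g1 g2 => ?_, fun p q hp g1 g2 => ?_⟩
  · obtain ⟨gs', rfl⟩ := Multiset.exists_cons_of_mem hp
    rw [e]
    exact key _ _ _ _ _ _ _ k (by rw [← e, Multiset.card_cons])
  · obtain ⟨gs', rfl⟩ := Multiset.exists_cons_of_mem hp
    rw [e]
    refine key p q c2 d2 _ _ gs' ⟨g1, g2, k.2.2.1, k.2.2.2.1, ?_⟩ (by rw [← e, Multiset.card_cons])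
    exact m6_re k.2.2.2.2 (by simp only [← Multiset.singleton_add]; abel)
  · obtain ⟨gs', rfl⟩ := Multiset.exists_cons_of_mem hp
    rw [e]
    refine key c1 d1 p q _ _ gs' ⟨k.1, k.2.1, g1, g2, ?_⟩ (by rw [← e, Multiset.card_cons])
    exact m6_re k.2.2.2.2 (by simp only [← Multiset.singleton_add]; abel)

end Pool.Agent.Lib.MP_af3016_co
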