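import Pool.Agent.Lib.MP_af3016_co.C.Two

/-! Tools for an upper quota of at least three. -/

set_option autoImplicit false
set_option linter.unusedSectionVars false

namespace Pool.Agent.Lib.MP_af3016_co

open Finset SimpleGraph

variable {V : Type} [DecidableEq V] {G : SimpleGraph V} {Y : Lay V} {U : Finset V}

variable {W D B : Finset V} {g α β α' β' σ μ : ℕ} {I J : Multiset ℕ}

/-- the defects on both sides -/
def Dd (G : SimpleGraph V) (Y : Lay V) (U : Finset V) (g : ℕ) (D B : Finset V) (β α' β' : ℕ)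
    (al be : V → ℕ) : Prop :=
  ∀ v ∈ D, Df G (flat V α' β') B 1 v (al v) ∧ Df G Y U (g + 1) v (be v) ∧
    1 ≤ al v ∧ 1 ≤ be v ∧ al v + dH G v D ≤ β ∧ be v + dH G v D ≤ β ∧
    al v + be v + dH G v D ≤ β + 1

theorem ab_ne {X : Finset V} {gs : Multiset (Sym2 V)} {p q : V} (h : CS G X gs) (h2 : 2 ≤ X.card)
    (hg : s(p, q) ∈ gs) : p ≠ q := by
  rintro rfl
  obtain ⟨g1, rfl⟩ := Multiset.exists_cons_of_mem hg
  obtain ⟨l, h1, h3, h4, h5, -⟩ := h.cut
  obtain ⟨t, rfl⟩ := List.head?_eq_some_iff.1 h1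
  have hc := cyc_card h4 h5
  cases t with
  | nil => simp at hc; omega
  | cons y t =>
    rw [List.getLast?_cons_cons] at h3
    exact (List.nodup_cons.1 h4).1 (List.mem_of_getLast? h3)

theorem ab_one {a b : V} (h : 0 < dG G a {b}) : G.Adj a b := by
  obtain ⟨c, h1, h2⟩ := exists_adj h
  rwa [mem_singleton.1 h1] at h2

/-- an order with one movable pair inside `M` and a least number of gaps -/
theorem ab_mark {M : Finset V} {y1 y2 : V} {gs0 : Multiset (Sym2 V)}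
    (h : CS G D (s(y1, y2) ::ₘ gs0)) (h1 : y1 ∈ M) (h2 : y2 ∈ M) :
    ∃ x1 ∈ M, ∃ x2 ∈ M, ∃ gs, CS G D (s(x1, x2) ::ₘ gs) ∧ ∀ p q, s(p, q) ∈ gs →
      dG G p D + dG G q D + (if p ∈ M then 1 else 0) + (if q ∈ M then 1 else 0) + gs.card ≤
        D.card + 1 := by
  induction hn : gs0.card using Nat.strong_induction_on generalizing gs0 y1 y2 with
  | _ n ih =>
    subst hn
    by_cases k : ∀ p q, s(p, q) ∈ gs0 → dG G p D + dG G q D + (if p ∈ M then 1 else 0) +
      (if q ∈ M then 1 else 0) + gs0.card ≤ D.card + 1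
    · exact ⟨y1, h1, y2, h2, gs0, h, k⟩
    simp only [not_forall] at k
    obtain ⟨p, q, e, k⟩ := k
    obtain ⟨g1, rfl⟩ := Multiset.exists_cons_of_mem e
    have m := h.mem (Multiset.mem_cons_of_mem e)
    rw [Multiset.card_cons] at k ih
    rcases CS.scan (F := {s(y1, y2)}) (D := D) (gs := g1) (p := p) (q := q)
      (fun _ => 2 - (if p ∈ M then 1 else 0) - (if q ∈ M then 1 else 0))
      (by rwa [Multiset.singleton_add]) m.1 m.2
      (fun x y hxy => h.mem (Multiset.mem_cons_of_mem (Multiset.mem_cons_of_mem hxy))) with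
      ⟨g2, c, l, -⟩ | ⟨a, b, F', e1, e2, c⟩ | c
    · rw [Multiset.singleton_add] at c
      exact ih _ (by omega) c h1 h2 rfl
    · obtain ⟨e3, rfl⟩ := Multiset.singleton_eq_cons_iff _ |>.1 e1
      have hab : a ∈ M ∧ b ∈ M := by
        rcases Sym2.eq_iff.1 e3 with ⟨rfl, rfl⟩ | ⟨rfl, rfl⟩
        exacts [⟨h1, h2⟩, ⟨h2, h1⟩]
      rw [zero_add] at c
      have c1 := dG_le_card (G := G) p {b}
      have c2 := dG_le_card (G := G) q {a}
      rw [card_singleton] at c1 c2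
      by_cases k1 : q ∈ M ∧ 0 < dG G p {b}
      · exact ih _ (by omega) (c.edge (ab_one k1.2)) k1.1 hab.1 rfl
      · have k2 : p ∈ M ∧ 0 < dG G q {a} := by
          by_cases kp : p ∈ M <;> by_cases kq : q ∈ M <;>
            simp only [kp, kq, if_true, if_false, true_and, false_and] at e2 k1 ⊢ <;> omega
        exact ih _ (by omega) ((Multiset.cons_swap _ _ _ ▸ c).edge (ab_one k2.2)) k2.1 hab.2 rfl
    · simp only [Multiset.card_singleton, Multiset.map_singleton, Multiset.sum_singleton] at c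
      split_ifs at c k <;> omega

/-- single vertices for the gaps `gs`, the rest for the gap `p q`, all inside the block -/
theorem Mid.fbY (h : Mid G W Y U g D B α β α' β' σ μ I J) {al be : V → ℕ}
    (hd : Dd G Y U g D B β α' β' al be) {K : Finset V} (hK : K ⊆ B) {gs : Multiset (Sym2 V)}
    {p q : V} {r e e' : ℕ} (hc : K.card + (gs.card + r) = μ) (hr : 1 ≤ r)
    (hgs : ∀ x y, s(x, y) ∈ gs → x ∈ D ∧ al x + al y ≤ r + 2)
    (dp : Df G (flat V α' β') B 1 p e) (dq : Df G (flat V α' β') B 1 q e') (he : e ≤ β)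
    (he' : e' ≤ β) (h1 : r = 1 → e + e' ≤ 2) (h2 : r = 2 → e ≤ 2 ∨ e' ≤ 2) :
    Fb G (flat V α' β') (B \ K) 1 (gs.card + r) (gs + {s(p, q)}) := by
  have := h.up
  have := h.sJ.le
  exact Fb.ones (e := al) (h.rsB' hK hc)
    (fun x y hxy => ⟨(hd x (hgs x y hxy).1).1.sdiff K, (hgs x y hxy).2⟩) fun U' hU hR =>
      Fb.all (g := 0) hR (flat_ord _ _) hr (dp.sub (hU.trans sdiff_subset))
        (dq.sub (hU.trans sdiff_subset)) (show e ≤ α' by omega) (show e' ≤ α' by omega) h1 h2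

theorem Mid.disjT (h : Mid G W Y U g D B α β α' β' σ μ I J) {Z0 K : Finset V}
    (h1 : Z0 ⊆ Y.iv U 0 (g + 1)) (h2 : K ⊆ B) : Disjoint D (Z0 ∪ K) :=
  disjoint_union_right.2 ⟨h.dD.mono_right h1, h.dDB.mono_right h2⟩

/-- a path through the whole lower quota leads from `v` to a vertex `p` of the block -/
theorem Mid.endp (h : Mid G W Y U g D B α β α' β' σ μ I J) {al be : V → ℕ}
    (hd : Dd G Y U g D B β α' β' al be) {Z0 K : Finset V} {v v' z p : V}
    {gs : Multiset (Sym2 V)} {r : ℕ} (hc : CS G D (s(v, v') ::ₘ gs)) (hp : HP G z p (Z0 ∪ K))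
    (hvz : G.Adj v z) (h1 : Z0 ⊆ Y.iv U 0 (g + 1)) (h2 : K ⊆ B) (hpB : p ∈ B) (c1 : Z0.card = σ)
    (hR : Rs G Y (U \ Z0) (g + 1) 0) (c2 : K.card + (gs.card + r) = μ) (hr : 1 ≤ r)
    (hgs : ∀ x y, s(x, y) ∈ gs → al x + al y ≤ r + 2) (h3 : r = 1 → al v' ≤ 2) :
    Fin2 G Y U g D B σ μ := by
  have hv' := (hc.mem (Multiset.mem_cons_self _ _)).2
  have c := (hc.glue (gs' := 0) hp.cs (h.disjT h1 h2)).edge hvz
  have k := hd v' hv'
  refine h.two (gs := 0) (gs' := gs + {s(v', p)}) (s := 0) h1 h2 ?_ c1 c2 (Fb.zero hR)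
    (h.fbY hd h2 c2 hr (fun x y hxy => ⟨(hc.mem (Multiset.mem_cons_of_mem hxy)).1, hgs x y hxy⟩)
      k.1 (h.dfB hpB (Subset.refl B)) (by omega) (Nat.zero_le _) h3 fun _ => Or.inr (by omega))
  rw [union_assoc, zero_add, add_comm, Multiset.singleton_add]
  rwa [add_zero] at c

/-- the class is empty: a path through the lower quota has both ends in the block -/
theorem Mid.both (h : Mid G W Y U g D B α β α' β' σ μ I J) {Z0 K : Finset V} {p q : V} {r : ℕ}
    (hp : HP G p q (D ∪ Z0 ∪ K)) (h1 : Z0 ⊆ Y.iv U 0 (g + 1)) (h2 : K ⊆ B) (hpB : p ∈ B)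
    (hqB : q ∈ B) (c1 : Z0.card = σ) (hR : Rs G Y (U \ Z0) (g + 1) 0) (c2 : K.card + r = μ)
    (hr : 1 ≤ r) : Fin2 G Y U g D B σ μ :=
  h.two (gs := 0) (gs' := {s(p, q)}) (s := 0) h1 h2 (by rw [zero_add]; exact hp.cs) c1 c2
    (Fb.zero hR) (Fb.all (g := 0) (e := 0) (e' := 0) (h.rsB' h2 c2) (flat_ord _ _) hr
      (h.dfB hpB sdiff_subset) (h.dfB hqB sdiff_subset) (Nat.zero_le _) (Nat.zero_le _)
      (fun _ => by omega) fun _ => by omega)

/-- disjoint neighbourhoods -/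
theorem ab_sum {S L T : Finset V} (hT : T ⊆ L) (h1 : ∀ z ∈ L, dG G z S ≤ 1)
    (h0 : ∀ z ∈ T, dG G z S = 0) : ∑ v ∈ S, dG G v L + T.card ≤ L.card := by
  rw [sum_dG_comm, ← sum_sdiff hT, sum_eq_zero h0, add_zero]
  have := sum_le_card_nsmul (L \ T) (fun z => dG G z S) 1 fun z hz => h1 z (mem_sdiff.1 hz).1
  have := card_sdiff_add_card_eq_card hT
  simp only [smul_eq_mul] at *
  omega

theorem ab_le_one {z : V} {S : Finset V}
    (h : ∀ a ∈ S, ∀ b ∈ S, G.Adj z a → G.Adj z b → a = b) : dG G z S ≤ 1 := by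
  obtain ⟨N, h1, h2⟩ := exists_nbhd (G := G) z S
  rw [← h1]
  exact card_le_one.2 fun a ha b hb => h a ((h2 a).1 ha).1 b ((h2 b).1 hb).1 ((h2 a).1 ha).2
    ((h2 b).1 hb).2

theorem ab_two {z : V} {S : Finset V} (h : 2 ≤ dG G z S) :
    ∃ a ∈ S, ∃ b ∈ S, a ≠ b ∧ G.Adj z a ∧ G.Adj z b := by
  by_contra k
  push Not at k
  have := ab_le_one (G := G) (z := z) (S := S) fun a ha b hb h1 h2 => by
    by_contra e
    exact k a ha b hb e h1 h2
  omega

theorem ab_hp2 {a b : V} (h : G.Adj a b) : HP G a b {a, b} :=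
  (HP.single b).cons h (by simp [h.ne])

theorem HP.set {a b : V} {X X' : Finset V} (h : HP G a b X) (e : ∀ v, v ∈ X ↔ v ∈ X') :
    HP G a b X' := (Finset.ext e : X = X') ▸ h

end Pool.Agent.Lib.MP_af3016_co
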