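import Pool.Agent.Lib.MP_af3016_co.C.Plan

/-! Successor functions. -/

set_option autoImplicit false
set_option linter.unusedSectionVars false

namespace Pool.Agent.Lib.MP_af3016_co

open Finset SimpleGraph

variable {V : Type} [DecidableEq V] {G : SimpleGraph V} {Y : Lay V} {U : Finset V}

/-- the successor of the last member of a rotation is its head -/
theorem succ_head {l M : List V} {z : V} (hl : l.Nodup) (hr : List.IsRotated l (M ++ [z])) :
    (M ++ [z]).head? = some (l.formPerm z) := by
  rw [List.formPerm_eq_of_isRotated hl hr]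
  cases M with
  | nil => simp
  | cons x t =>
    rw [List.cons_append, List.formPerm_cons_concat_apply_last]
    rfl

/-- the successor of a member of a rotation that is not the last one -/
theorem succ_next {l A B : List V} {a b : V} (hl : l.Nodup)
    (hr : List.IsRotated l (A ++ a :: b :: B)) : l.formPerm a = b := by
  have h1 : List.IsRotated (A ++ a :: b :: B) ((b :: (B ++ A)) ++ [a]) := by
    have := List.isRotated_append (l := A ++ [a]) (l' := b :: B)
    simpa using this
  have := succ_head hl (hr.trans h1)
  simpa using this.symm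

/-- a list whose consecutive members are adjacent is a path -/
theorem succ_hp (z : V) : ∀ (M : List V) (a : V), (M ++ [z]).head? = some a → (M ++ [z]).Nodup →
    (∀ A x y B, M ++ [z] = A ++ x :: y :: B → G.Adj x y) → HP G a z (M ++ [z]).toFinset := by
  intro M
  induction M with
  | nil =>
    intro a h _ _
    have : z = a := by simpa using h
    subst this
    simpa using HP.single z
  | cons x t ih =>
    intro a h hn hc
    have : x = a := by simpa using h
    subst this
    rw [List.cons_append, List.nodup_cons] at hn
    obtain ⟨c, B, hB⟩ : ∃ c B, t ++ [z] = c :: B := by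
      cases t with
      | nil => exact ⟨z, [], rfl⟩
      | cons c t => exact ⟨c, t ++ [z], rfl⟩
    have h1 := ih c (by rw [hB]; rfl) hn.2 fun A u v B' e =>
      hc (x :: A) u v B' (by rw [List.cons_append, e]; rfl)
    have h2 : G.Adj x c := hc [] x c B (by rw [List.cons_append, hB]; rfl)
    rw [List.cons_append, List.toFinset_cons]
    exact h1.cons h2 (by rw [List.mem_toFinset]; exact hn.1)

/-- an initial segment of a rotation is a path -/
theorem succ_seg {l M R : List V} {a z : V} (hl : l.Nodup)
    (ha : ∀ v ∈ l, G.Adj v (l.formPerm v)) (hr : List.IsRotated l ((M ++ [z]) ++ R))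
    (hh : (M ++ [z]).head? = some a) : HP G a z (M ++ [z]).toFinset := by
  have hn := hr.nodup_iff.1 hl
  refine succ_hp z M a hh (List.nodup_append.1 hn).1 fun A x y B e => ?_
  have h1 : List.IsRotated l (A ++ x :: y :: (B ++ R)) := by
    rw [e] at hr
    simpa using hr
  have h2 := ha x (h1.mem_iff.2 (by simp))
  rwa [succ_next hl h1] at h2

/-- a rotation that ends in a prescribed member -/
theorem succ_rot {l : List V} {p : V} (hp : p ∈ l) : ∃ M, List.IsRotated l (M ++ [p]) := by
  obtain ⟨A, B, rfl⟩ := List.append_of_mem hp
  refine ⟨B ++ A, ?_⟩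
  have := List.isRotated_append (l := A ++ [p]) (l' := B)
  simpa using this

theorem succ_cyc {D : Finset V} {l : List V} (hl : l.Nodup) (hD : ∀ v, v ∈ l ↔ v ∈ D)
    (ha : ∀ v ∈ l, G.Adj v (l.formPerm v)) : Cyc G D l.formPerm := by
  refine ⟨fun v hv => (hD _).1 (List.formPerm_apply_mem_of_mem ((hD v).2 hv)),
    fun p _ q _ e => l.formPerm.injective e, fun v hv => ha v ((hD v).2 hv), fun v hv => ?_,
    fun p hp q hq hpq hd => ?_⟩
  · obtain ⟨M, hM⟩ := succ_rot ((hD v).2 hv)
    have h1 := succ_seg (R := []) hl ha (by simpa using hM) (succ_head hl hM)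
    have h2 : (M ++ [v]).toFinset = D := by
      ext w
      rw [List.mem_toFinset, ← hM.mem_iff, hD]
    rwa [h2] at h1
  · obtain ⟨M, hM⟩ := succ_rot ((hD p).2 hp)
    have hqM : q ∈ M := by
      have := hM.mem_iff.1 ((hD q).2 hq)
      rw [List.mem_append, List.mem_singleton] at this
      exact this.resolve_right hpq.symm
    obtain ⟨C, E, rfl⟩ := List.append_of_mem hqM
    have r1 : List.IsRotated l ((C ++ [q]) ++ (E ++ [p])) := by simpa using hM
    have r2 : List.IsRotated l ((E ++ [p]) ++ (C ++ [q])) := r1.trans List.isRotated_append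
    have e1 : (C ++ [q]).head? = some (l.formPerm p) := by
      have := succ_head (M := C ++ [q] ++ E) hl (by simpa using r1)
      cases C <;> simpa using this
    have e2 : (E ++ [p]).head? = some (l.formPerm q) := by
      have := succ_head (M := E ++ [p] ++ C) hl (by simpa using r2)
      cases E <;> simpa using this
    have p1 := succ_seg hl ha r1 e1
    have p2 := succ_seg hl ha r2 e2
    have hdis : Disjoint (C ++ [q]).toFinset (E ++ [p]).toFinset :=
      List.disjoint_toFinset_iff_disjoint.2 (List.disjoint_of_nodup_append (r1.nodup_iff.1 hl))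
    have hun : (C ++ [q]).toFinset ∪ (E ++ [p]).toFinset = D := by
      ext w
      rw [← List.toFinset_append, List.mem_toFinset, ← r1.mem_iff, hD]
    have g := p1.cs.glue (gs := 0) (gs' := 0) p2.cs hdis
    rw [hun] at g
    have g2 := g.bc1 (by simpa using hd)
    exact (CS.path (p := q) (q := p) (by simpa using g2)).symm

/-- consecutive members of a list give a member of `lp` -/
theorem succ_lp (a b : V) (B : List V) : ∀ A : List V, s(a, b) ∈ lp (A ++ a :: b :: B) := by
  intro A
  induction A with
  | nil => simp [lp]
  | cons x t ih =>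
    cases t with
    | nil => exact Multiset.mem_cons_of_mem ih
    | cons y t => exact Multiset.mem_cons_of_mem ih

theorem CS.cyc {D : Finset V} (h : CS G D 0) (h2 : 2 ≤ D.card) :
    ∃ σ π, Cyc G D σ ∧ Cyc G D π ∧ ∀ v ∈ D, π (σ v) = v ∧ σ (π v) = v := by
  obtain ⟨x, t, hn, hD, es, he, hes⟩ := h
  rw [zero_add] at he
  have ha : ∀ v ∈ x :: t, G.Adj v ((x :: t).formPerm v) := by
    intro v hv
    obtain ⟨A, B, e⟩ := List.append_of_mem hv
    cases B with
    | nil =>
      have h1 := succ_head (M := A) (z := v) hn (by rw [e])
      rw [← e] at h1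
      have h3 : (x :: t).formPerm v = x := by simpa using h1.symm
      rw [h3, ← G.mem_edgeSet]
      refine hes _ ?_
      rw [← he, ← List.cons_append, e]
      simpa using succ_lp v x [] A
    | cons b B =>
      rw [succ_next (A := A) (B := B) (b := b) hn (by rw [e]), ← G.mem_edgeSet]
      refine hes _ ?_
      rw [← he, ← List.cons_append, e]
      simpa using succ_lp v b (B ++ [x]) A
  refine ⟨(x :: t).formPerm, (x :: t).reverse.formPerm, succ_cyc hn hD ha,
    succ_cyc (List.nodup_reverse.2 hn) (fun v => by rw [List.mem_reverse, hD]) fun v hv => ?_,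
    fun v _ => ?_⟩
  · rw [List.formPerm_reverse]
    rw [List.mem_reverse] at hv
    have h1 : (x :: t).formPerm ((x :: t).formPerm⁻¹ v) = v := by simp
    have h3 := ha ((x :: t).formPerm⁻¹ v) (List.mem_of_formPerm_apply_mem (by rw [h1]; exact hv))
    rw [h1] at h3
    exact h3.symm
  · rw [List.formPerm_reverse]
    simp

end Pool.Agent.Lib.MP_af3016_co
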