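import Pool.Agent.Lib.MP_af3016_co.C.Two2
import Pool.Agent.Lib.MP_af3016_co.C.M6a
import Pool.Agent.Lib.MP_af3016_co.C.MidAB
import Pool.Agent.Lib.MP_af3016_co.C.Succ

/-! Upper quota one: data and tools. -/

set_option autoImplicit false
set_option linter.unusedSectionVars false

namespace Pool.Agent.Lib.MP_af3016_co

open Finset SimpleGraph

variable {V : Type} [DecidableEq V] {G : SimpleGraph V} {Y : Lay V} {U : Finset V}

variable {W D B : Finset V} {g α β α' β' σ : ℕ} {I J : Multiset ℕ} {be : V → ℕ}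

/-- upper quota one, with the defects `be` for the lower side -/
structure M1 (G : SimpleGraph V) (W : Finset V) (Y : Lay V) (U : Finset V) (g : ℕ)
    (D B : Finset V) (α β α' β' σ : ℕ) (I J : Multiset ℕ) (be : V → ℕ) : Prop where
  mid : Mid G W Y U g D B α β α' β' σ 1 I J
  dfe : ∀ v ∈ D, Df G Y U (g + 1) v (be v)
  one : ∀ v ∈ D, 1 ≤ be v
  le : ∀ v ∈ D, be v + dH G v D ≤ β
  deg : ∀ v ∈ D, α' + 1 + dH G v D + be v ≤ dG G v B + β

/-- a set `R` of pairwise linked vertices that makes up for the missing vertex -/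
structure Nu (G : SimpleGraph V) (W : Finset V) (Y : Lay V) (U : Finset V) (g : ℕ)
    (D B : Finset V) (α β α' β' σ : ℕ) (I J : Multiset ℕ) (be : V → ℕ) (R : Finset V) :
    Prop where
  m1 : M1 G W Y U g D B α β α' β' σ I J be
  two : 2 ≤ D.card
  sub : R ⊆ D
  cR : 2 ≤ R.card
  lnk : ∀ a ∈ R, ∀ b ∈ R, a ≠ b → ∃ p ∈ B, G.Adj p a ∧ G.Adj p b
  sum : ∀ w ∈ D, ∀ w' ∈ D, w ≠ w' → be w + be w' + 2 * D.card ≤
    dG G w D + m6i R w + dG G w' D + m6i R w' + 2 * β
  n0 : ∀ w ∈ D, ∀ w' ∈ D, w ≠ w' → be w + dH G w D = β → be w' + dH G w' D = β → w ∈ R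

/-- a cyclic order with a marked position inside `R` and the gaps `gs` -/
def Mk (G : SimpleGraph V) (D R : Finset V) (gs : Multiset (Sym2 V)) : Prop :=
  ∃ a ∈ R, ∃ b ∈ R, CS G D (s(a, b) ::ₘ gs)

/-- the successor function of a spanning path from `r1` to `r2`, both ends in `R` -/
structure Lin (G : SimpleGraph V) (D R : Finset V) (r1 r2 : V) (f f' : V → V) : Prop where
  m1 : r1 ∈ R
  m2 : r2 ∈ R
  ne : r1 ≠ r2
  mem : ∀ v ∈ D, v ≠ r2 → f v ∈ D
  inv : ∀ v ∈ D, v ≠ r2 → f' (f v) = v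
  ne1 : ∀ v ∈ D, v ≠ r2 → f v ≠ r1 ∧ f v ≠ v
  adj : ∀ v ∈ D, v ≠ r2 → Mk G D R {s(v, f v)}
  succ : ∀ p ∈ D, ∀ q ∈ D, p ≠ q → p ≠ r2 → q ≠ r2 →
    D.card + 2 ≤ dG G (f p) D + m6i R (f p) + dG G (f q) D + m6i R (f q) → Mk G D R {s(p, q)}

/-- no vertex of the block has two neighbours in the class -/
structure Sp (G : SimpleGraph V) (W : Finset V) (Y : Lay V) (U : Finset V) (g : ℕ)
    (D B : Finset V) (α β α' β' σ : ℕ) (I J : Multiset ℕ) (be : V → ℕ) (j : ℕ)
    (Y0 : Finset V) : Prop where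
  m1 : M1 G W Y U g D B α β α' β' σ I J be
  two : 2 ≤ D.card
  nm : ∀ p ∈ B, dG G p D ≤ 1
  port : Port Y U (g + 1) j
  y0 : ∀ p, p ∈ Y0 ↔ p ∈ B ∧ dG G p D = 0
  sum : Y0.card + ∑ v ∈ D, dG G v B = B.card
  star : Y0.card + eH G D + ∑ v ∈ D, be v + α ≤ σ + 2 + β

theorem Mid.m1 (h : Mid G W Y U g D B α β α' β' σ 1 I J) :
    ∃ be, M1 G W Y U g D B α β α' β' σ I J be := by
  obtain ⟨al, be, k⟩ := h.defects
  refine ⟨fun v => β + 1 - dH G v D - al v, h, fun v hv => ?_, fun v hv => ?_, fun v hv => ?_,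
    fun v hv => ?_⟩
  · obtain ⟨-, k2, -, -, -, -, k7⟩ := k v hv
    exact k2.mono (by omega)
  · have := (k v hv).2.2.2.2.1
    omega
  · have := (k v hv).2.2.1
    have := (k v hv).2.2.2.2.1
    omega
  · have := flat_df.1 (k v hv).1
    have := (k v hv).2.2.2.2.1
    have := dG_add_dH_out (G := G) (Finset.disjoint_left.1 h.dDB hv)
    have := h.cB
    omega

/-- the finish: a gadget on `Z0` and `p`, the gaps are filled from below -/
theorem M1.fin (h : M1 G W Y U g D B α β α' β' σ I J be) {p : V} {Z0 : Finset V}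
    {gs : Multiset (Sym2 V)} {s : ℕ} (hp : p ∈ B) (h1 : Z0 ⊆ Y.iv U 0 (g + 1))
    (hc : CS G (D ∪ Z0 ∪ {p}) gs) (c1 : Z0.card + s = σ) (k : Fb G Y (U \ Z0) (g + 1) s gs) :
    Fin2 G Y U g D B σ 1 := by
  exact h.mid.two (gs' := 0) (u := 0) h1 (singleton_subset_iff.2 hp) (by rwa [add_zero]) c1
    (by simp) k (Fb.zero (h.mid.rsB' (singleton_subset_iff.2 hp) (by simp)))

/-- the finish: `p` fills the gap `a b`, the other gaps are filled from below -/
theorem M1.mark (h : M1 G W Y U g D B α β α' β' σ I J be) {p a b : V} {gs : Multiset (Sym2 V)}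
    (hp : p ∈ B) (ha : G.Adj p a) (hb : G.Adj p b) (hc : CS G D (s(a, b) ::ₘ gs))
    (k : Fb G Y U (g + 1) σ gs) : Fin2 G Y U g D B σ 1 := by
  refine h.fin (Z0 := ∅) (s := σ) hp (empty_subset _) ?_ (by simp) (by simpa using k)
  rw [union_empty]
  exact hc.fill (HP.single p) ha.symm hb.symm (h.mid.dDB.mono_right (singleton_subset_iff.2 hp))

/-- two vertices of least upper defect have a common neighbour in the block -/
theorem M1.common (h : M1 G W Y U g D B α β α' β' σ I J be) {w w' : V} (hw : w ∈ D)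
    (hw' : w' ∈ D) (e : be w + dH G w D = β) (e' : be w' + dH G w' D = β) :
    ∃ p ∈ B, G.Adj p w ∧ G.Adj p w' := by
  have := h.deg w hw
  have := h.deg w' hw'
  have := h.mid.cB
  have := h.mid.sJ.le
  obtain ⟨p, h1, h2, h3⟩ := exists_common (G := G) (a := w) (b := w') (S := B) (by omega)
  exact ⟨p, h1, h2.symm, h3.symm⟩

/-- the numbers -/
theorem M1.num (h : M1 G W Y U g D B α β α' β' σ I J be) :
    β ≤ α ∧ α ≤ β + 1 ∧ 5 ≤ α + β ∧ D.card + σ + 1 = α + β ∧ B.card = α' + β' + 1 ∧ α ≤ α' ∧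
      β ≤ β' ∧ β' ≤ α' ∧ α ≤ Y.a g ∧ β ≤ Y.b g ∧ 1 ≤ σ := by
  exact ⟨h.mid.ba, h.mid.ab, h.mid.five, h.mid.cD, h.mid.cB, h.mid.up.1, h.mid.up.2, h.mid.sJ.le,
    h.mid.lo.1, h.mid.lo.2, h.mid.sg⟩

/-- the degree of a vertex of the class into the layers from `t` on -/
theorem M1.dlow (h : M1 G W Y U g D B α β α' β' σ I J be) {t : ℕ} (ht : t ≤ g) {v : V}
    (hv : v ∈ D) : (Y.iv U t (g + 1)).card + 1 + Y.B t ≤
      dG G v (Y.iv U t (g + 1)) + Y.B (g + 1) + be v := by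
  have := h.dfe v hv t (by omega)
  have := dG_add_dH_out (G := G) (show v ∉ Y.iv U t (g + 1) from fun k =>
    Finset.disjoint_left.1 h.mid.dD hv (Lay.iv_mono (Subset.refl U) (Nat.zero_le t) le_rfl k))
  omega

/-- lower quota one: any common neighbour is a link -/
theorem M1.lnk1 (h : M1 G W Y U g D B α β α' β' 1 I J be) {z p q : V}
    (hz : z ∈ Y.iv U 0 (g + 1)) (hp : G.Adj z p) (hq : G.Adj z q) :
    Fb G Y U (g + 1) 1 {s(p, q)} := by
  refine Fb.one fun _ _ => ⟨z, z, {z}, HP.single z, hp.symm, hq.symm, singleton_subset_iff.2 hz,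
    card_singleton z, ?_⟩
  exact Rs.remove_iv (r := 1) (w := 0) h.mid.rs (singleton_subset_iff.2 hz) (card_singleton z)
    fun t h1 h2 => h.mid.pos t h1 h2.le

/-- lower quota one: the weight of a set without common neighbours below -/
theorem M1.wt (h : M1 G W Y U g D B α β α' β' 1 I J be) {S : Finset V} (hS : S ⊆ D)
    (h2 : 2 ≤ S.card) (hn : ∀ z ∈ Y.iv U 0 (g + 1), dG G z S ≤ 1) :
    S.card * (β + 2) ≤ 2 * β + 1 + ∑ v ∈ S, be v := by
  have a1 := ab_sum (G := G) (T := ∅) (empty_subset _) hn (by simp)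
  have a2 := h.mid.rs.top
  have a3 := h.mid.rs.AB (Nat.zero_le (g + 1)) le_rfl
  have a4 := Y.A_succ g
  have a5 := h.num
  have a6 : ∑ _v ∈ S, (Y.A (g + 1) + 2) ≤ ∑ v ∈ S, (dG G v (Y.iv U 0 (g + 1)) + be v) :=
    sum_le_sum fun v hv => by
      have := h.dlow (Nat.zero_le g) (hS hv)
      omega
  rw [sum_const, smul_eq_mul, sum_add_distrib] at a6
  rw [Y.A_zero, Y.B_zero] at a3
  obtain ⟨y, hy⟩ : ∃ y, Y.A (g + 1) = β + y := ⟨Y.A (g + 1) - β, by omega⟩
  have a7 := Nat.mul_le_mul_right y h2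
  rw [hy] at a6
  have a8 : S.card * (β + y + 2) = S.card * (β + 2) + S.card * y := by ring
  omega

theorem Nu.fin {R : Finset V} (h : Nu G W Y U g D B α β α' β' σ I J be R)
    {gs : Multiset (Sym2 V)} (hc : Mk G D R gs) (k : Fb G Y U (g + 1) σ gs) :
    Fin2 G Y U g D B σ 1 := by
  obtain ⟨a, ha, b, hb, hc⟩ := hc
  obtain ⟨p, hp, h1, h2⟩ := h.lnk a ha b hb (m6_ne hc h.two)
  exact h.m1.mark hp h1 h2 hc k

/-- a removed port and a vertex of defect `e` are linked by one vertex -/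
theorem port_one {m j s w e : ℕ} (P : Port Y U m j) (hR : Rs G Y U m s) {U' : Finset V}
    (hU : U' ⊆ U) (hR' : Rs G Y U' m (1 + w)) {v u : V} (hv : v ∈ Y.iv U j m)
    (hn : v ∉ Y.iv U' 0 m) (hu : u ∉ Y.iv U' 0 m) (d : Df G Y U' m u e) (he : e ≤ w + 2) :
    Lnk G Y U' m 1 w v u := by
  have hv' := Lay.mem_iv.1 hv
  have hm : Y.f v + 1 ≤ m := hv'.2.2
  obtain ⟨s', h'⟩ := hR'.low hm
  have k1 := h'.top
  have k2 := hR'.top
  have k3 := Y.card_iv U' (Nat.zero_le _) hm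
  have k4 := hR'.AB hm le_rfl
  have k5 : (Y.iv U' (Y.f v + 1) m).card + Y.B (Y.f v + 1) ≤ Y.B m := by
    rcases hm.lt_or_eq with e | e
    · have := P.small (Y.f v + 1) (by omega) e
      have := card_le_card (Lay.iv_mono (Y := Y) hU (le_refl (Y.f v + 1)) (le_refl m))
      omega
    · rw [e, Y.iv_self, card_empty]
      omega
  obtain ⟨w', rfl⟩ : ∃ w', s' = 1 + w' := ⟨s' - 1, by omega⟩
  refine Lnk.lift hR' hm (link_one h' (fun k => hn (Lay.iv_mono (Subset.refl _) le_rfl hm k))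
    (fun k => hu (Lay.iv_mono (Subset.refl _) le_rfl hm k)) ((hR.int v hv'.1 hv'.2.2).sub hU)
    (d.down hm (e' := w' + 2) (by omega)) (by omega)) fun t h1 h2 => ?_
  have := P.slack hU hR' t (by omega) h2
  omega

/-- a port and a vertex of the class take the whole slack -/
theorem M1.port_all (h : M1 G W Y U g D B α β α' β' σ I J be) {j r : ℕ}
    (P : Port Y U (g + 1) j) {U' : Finset V} (hU : U' ⊆ U) (hR : Rs G Y U' (g + 1) r) {v u : V}
    (hv : v ∈ Y.iv U j (g + 1)) (hu : u ∈ D) (h0 : r = 0 → G.Adj v u) (h1 : r = 1 → be u ≤ 2) :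
    Fb G Y U' (g + 1) r {s(v, u)} := by
  have d := (h.dfe u hu).sub hU
  have a1 := h.num
  have a2 := h.le u hu
  rcases Nat.lt_or_ge r 2 with e | e
  · obtain rfl | rfl : r = 0 ∨ r = 1 := by omega
    · exact Fb.adj hR (h0 rfl)
    · exact Fb.one fun k k' => port_one (w := 0) P h.mid.rs hU hR hv k k' d (h1 rfl)
  · exact Fb.all hR h.mid.ord (by omega) ((P.df h.mid.rs hv).sub hU) d (by omega) (by omega)
      (by omega) fun _ => Or.inl (by omega)

theorem m1d_out (h : M1 G W Y U g D B α β α' β' σ I J be) {j : ℕ} {v p : V}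
    (hv : v ∈ Y.iv U j (g + 1) ∨ v ∈ D) (hp : p ∈ B) :
    dG G p (Y.iv U j (g + 1)) + dH G p (Y.iv U j (g + 1)) = (Y.iv U j (g + 1)).card ∧
      dG G p D + dH G p D = D.card ∧ dG G v B + dH G v B = B.card := by
  have s1 : Y.iv U j (g + 1) ⊆ Y.iv U 0 (g + 1) :=
    Lay.iv_mono (Subset.refl U) (Nat.zero_le j) le_rfl
  exact ⟨dG_add_dH_out fun k => Finset.disjoint_left.1 h.mid.dB hp (s1 k),
    dG_add_dH_out fun k => Finset.disjoint_left.1 h.mid.dDB k hp,
    dG_add_dH_out fun k => hv.elim (fun i => Finset.disjoint_left.1 h.mid.dB k (s1 i))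
      fun i => Finset.disjoint_left.1 h.mid.dDB i k⟩

/-- a common neighbour below the ports, after `k` earlier removals below the ports -/
theorem M1.ll (h : M1 G W Y U g D B α β α' β' σ I J be) {j k w : ℕ}
    (P : Port Y U (g + 1) j) {Z0 U' : Finset V} (hZ : Z0 ⊆ Y.iv U j (g + 1)) (hU : U' ⊆ U \ Z0)
    (hR : Rs G Y U' (g + 1) (1 + w)) (hk : Z0.card + k + 1 + w = σ) {v p : V}
    (hv : v ∈ Y.iv U j (g + 1) ∨ v ∈ D) (hp : p ∈ B)
    (hc : dG G p (Y.iv U j (g + 1)) + dG G p D + dG G v B + k ≤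
      1 + dH G v (Y.iv U j (g + 1)) + dH G v D) : Lnk G Y U' (g + 1) 1 w p v := by
  obtain ⟨c1, c2, c3⟩ := m1d_out h hv hp
  exact h.mid.low_link P hZ hU hR hk (Or.inr (Or.inr hp)) (hv.imp_right Or.inl) (by omega)

/-- a link by two vertices below the ports -/
theorem M1.ll2 (h : M1 G W Y U g D B α β α' β' σ I J be) {j w : ℕ}
    (P : Port Y U (g + 1) j) {Z0 : Finset V} (hZ : Z0 ⊆ Y.iv U j (g + 1))
    (hR : Rs G Y (U \ Z0) (g + 1) (2 + w)) {v p : V}
    (hv : v ∈ Y.iv U j (g + 1) ∨ v ∈ D) (hp : p ∈ B)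
    (hc : dG G p (Y.iv U j (g + 1)) + dG G p D + dG G v B ≤
        dH G v (Y.iv U j (g + 1)) + dH G v D ∨
      (Y.A j + Y.B j + 2 ≤ (Y.iv U 0 j).card ∧
        dG G p (Y.iv U j (g + 1)) + dG G p D + dG G v B ≤
          3 + dH G v (Y.iv U j (g + 1)) + dH G v D)) :
    Lnk G Y (U \ Z0) (g + 1) 2 w p v := by
  obtain ⟨c1, c2, c3⟩ := m1d_out h hv hp
  obtain ⟨e, e', s', h1, h2, h3, h4, h5, h6⟩ :=
    h.mid.pt2 P.lt.le (Or.inr (Or.inr hp)) (hv.imp_right Or.inl)
  have hU : U \ Z0 ⊆ U := sdiff_subset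
  have e1 : Y.iv (U \ Z0) 0 j = Y.iv U 0 j := by
    rw [Y.iv_sdiff]
    exact sdiff_eq_self_of_disjoint ((Y.iv_disj U 0 j (g + 1)).mono_right hZ)
  obtain ⟨s'', k1⟩ := hR.low P.lt.le
  have c7 := h1.top
  have c8 := k1.top
  rw [e1] at c8
  obtain ⟨w', rfl⟩ : ∃ w', s'' = 2 + w' := ⟨s'' - 2, by omega⟩
  have key : ∀ x, x ∈ Y.iv U j (g + 1) ∨ x ∈ D ∨ x ∈ B → x ∉ Y.iv (U \ Z0) 0 j := fun x hx k => by
    have k' := Lay.iv_mono (Y := Y) hU (le_refl 0) P.lt.le k
    rcases hx with hx | hx | hx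
    · rw [Lay.mem_iv] at hx k
      omega
    · exact Finset.disjoint_left.1 h.mid.dD hx k'
    · exact Finset.disjoint_left.1 h.mid.dB hx k'
  have o1 := key p (Or.inr (Or.inr hp))
  have o2 := key v (hv.imp_right Or.inl)
  refine P.lift (w' := w') hU hR ?_
  rcases hc with hc | hc
  · exact link_walk k1 (by omega) o1 o2 (h2.sub hU) (h3.sub hU) (by omega)
  · have a1 := h.num
    have ho := h.mid.ord.mono P.lt.le
    have hj := P.lt
    cases j with
    | zero => exact absurd k1.zero (by omega)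
    | succ t =>
      have a6 := (h.mid.low t (by omega)).1
      by_cases c : e' ≤ e
      · exact link_edge k1 ho le_rfl o1 o2 (h2.sub hU) (h3.sub hU) h5 (by omega) (by omega)
      · exact (link_edge k1 ho le_rfl o2 o1 (h3.sub hU) (h2.sub hU) h4 (by omega) (by omega)).symm

/-- the degree of a port into the block -/
theorem M1.dport (h : M1 G W Y U g D B α β α' β' σ I J be) {j : ℕ} (hj : j ≤ g + 1) {v : V}
    (hv : v ∈ Y.iv U j (g + 1)) :
    α' + 2 + dH G v (Y.iv U j (g + 1)) + dH G v D + Y.B j ≤ dG G v B + β + Y.B (g + 1) := by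
  have a := h.mid.suf j hj v (Or.inl hv)
  have c1 := dG_add_dH_out (G := G) (show v ∉ B from fun k => Finset.disjoint_left.1 h.mid.dB k
    (Lay.iv_mono (Subset.refl U) (Nat.zero_le j) le_rfl hv))
  have c8 := h.mid.cB
  omega

/-- two defects are bounded by the sum of all defects -/
theorem M1.pair (h : M1 G W Y U g D B α β α' β' σ I J be) {p q : V} (hp : p ∈ D) (hq : q ∈ D)
    (hpq : p ≠ q) : be p + be q + D.card ≤ ∑ v ∈ D, be v + 2 := by
  have hq' : q ∈ D.erase p := mem_erase.2 ⟨hpq.symm, hq⟩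
  have a1 := add_sum_erase D be hp
  have a2 := add_sum_erase (D.erase p) be hq'
  have a3 := card_nsmul_le_sum ((D.erase p).erase q) (fun x => be x) 1 fun x hx =>
    h.one x (mem_of_mem_erase (mem_of_mem_erase hx))
  have a4 := card_erase_add_one hp
  have a5 := card_erase_add_one hq'
  rw [smul_eq_mul, mul_one] at a3
  omega

theorem M1.sp (h : M1 G W Y U g D B α β α' β' σ I J be) (h2 : 2 ≤ D.card)
    (nm : ∀ p ∈ B, dG G p D ≤ 1) : ∃ j Y0, Sp G W Y U g D B α β α' β' σ I J be j Y0 := by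
  obtain ⟨j, P⟩ := exists_port h.mid.rs h.mid.sg
  have s1 : (B.filter fun p => dG G p D = 0).card + ∑ v ∈ D, dG G v B = B.card := by
    rw [sum_dG_comm, card_filter, ← sum_add_distrib, card_eq_sum_ones]
    refine sum_congr rfl fun p hp => ?_
    have := nm p hp
    split_ifs <;> omega
  refine ⟨j, B.filter fun p => dG G p D = 0, h, h2, nm, P, fun p => mem_filter, s1, ?_⟩
  have a1 := h.num
  have a2 : ∑ v ∈ D, (α' + 1 + dH G v D + be v) ≤ ∑ v ∈ D, (dG G v B + β) :=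
    sum_le_sum h.deg
  simp only [sum_add_distrib, sum_const, smul_eq_mul] at a2
  obtain ⟨x, rfl⟩ : ∃ x, α' = β + x := ⟨α' - β, by omega⟩
  have a7 := Nat.mul_le_mul_right x h2
  have a8 : D.card * (β + x) = D.card * β + D.card * x := by ring
  unfold eH
  omega

end Pool.Agent.Lib.MP_af3016_co
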