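import Pool.Agent.Lib.MP_af3016_co.C.M1v

/-! Both quotas one, length at least seven. -/

set_option autoImplicit false
set_option linter.unusedSectionVars false

namespace Pool.Agent.Lib.MP_af3016_co

open Finset SimpleGraph

variable {V : Type} [DecidableEq V] {G : SimpleGraph V} {Y : Lay V} {U : Finset V}

variable {W D B : Finset V} {g α β α' β' σ : ℕ} {I J : Multiset ℕ} {be : V → ℕ}

/-- a marked order whose only gap is linked below -/
theorem m1a_key {R : Finset V} (h : Nu G W Y U g D B α β α' β' 1 I J be R) {z p q : V}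
    (hz : z ∈ Y.iv U 0 (g + 1)) (hp : G.Adj z p) (hq : G.Adj z q) (hc : Mk G D R {s(p, q)}) :
    Fin2 G Y U g D B 1 1 :=
  h.fin hc (h.m1.lnk1 hz hp hq)

/-- two vertices of defect one are linked below -/
theorem m1a_pair (h : M1 G W Y U g D B α β α' β' 1 I J be) {p q : V} (hp : p ∈ D) (hq : q ∈ D)
    (n : p ≠ q) (e : be p = 1) (e' : be q = 1) :
    ∃ z ∈ Y.iv U 0 (g + 1), G.Adj z p ∧ G.Adj z q := by
  by_contra k
  have := h.wt (S := {p, q}) (insert_subset hp (singleton_subset_iff.2 hq)) (card_pair n).ge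
    fun z hz => ab_le_one fun a ha b hb g1 g2 => by
      simp only [mem_insert, mem_singleton] at ha hb
      rcases ha with rfl | rfl <;> rcases hb with rfl | rfl
      exacts [rfl, absurd ⟨z, hz, g1, g2⟩ k, absurd ⟨z, hz, g2, g1⟩ k, rfl]
  rw [card_pair n, sum_pair n] at this
  omega

/-- the vertices whose successor has a large defect are not linked -/
theorem m1a_unl {R : Finset V} {r1 r2 : V} {f f' : V → V}
    (h : Nu G W Y U g D B α β α' β' 1 I J be R) (hn : ¬Fin2 G Y U g D B 1 1)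
    (l : Lin G D R r1 r2 f f') {z : V} (hz : z ∈ Y.iv U 0 (g + 1)) :
    dG G z (D.filter fun v => v ≠ r2 ∧ 2 ≤ be (f v)) ≤ 1 := by
  refine ab_le_one fun p hp q hq g1 g2 => ?_
  by_contra n
  rw [mem_filter] at hp hq
  have k1 := h.sum _ (l.mem p hp.1 hp.2.1) _ (l.mem q hq.1 hq.2.1) fun e =>
    n (by rw [← l.inv p hp.1 hp.2.1, e, l.inv q hq.1 hq.2.1])
  have k2 := h.m1.num
  have k3 := hp.2.2
  have k4 := hq.2.2
  exact hn (m1a_key h hz g1 g2 (l.succ p hp.1 q hq.1 n hp.2.1 hq.2.1 (by omega)))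

theorem m1a_mem {R : Finset V} {r1 r2 : V} {f f' : V → V}
    (h : Nu G W Y U g D B α β α' β' 1 I J be R) (hn : ¬Fin2 G Y U g D B 1 1)
    (l : Lin G D R r1 r2 f f') {v : V} (hv : v ∈ D) (e : be v = 1) (n : v ≠ r2) :
    v ∈ D.filter fun v => v ≠ r2 ∧ 2 ≤ be (f v) := by
  refine mem_filter.2 ⟨hv, n, ?_⟩
  by_contra k
  have k1 := h.m1.one _ (l.mem v hv n)
  obtain ⟨z, hz, g1, g2⟩ := m1a_pair h.m1 hv (l.mem v hv n) (l.ne1 v hv n).2.symm e (by omega)
  exact hn (m1a_key h hz g1 g2 (l.adj v hv n))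

theorem m1a_uniq {R : Finset V} {r1 r2 : V} {f f' : V → V}
    (h : Nu G W Y U g D B α β α' β' 1 I J be R) (hn : ¬Fin2 G Y U g D B 1 1)
    (l : Lin G D R r1 r2 f f') : (D.filter fun v => be v = 1 ∧ v ≠ r2).card ≤ 1 := by
  refine card_le_one.2 fun p hp q hq => ?_
  by_contra n
  rw [mem_filter] at hp hq
  obtain ⟨z, hz, g1, g2⟩ := m1a_pair h.m1 hp.1 hq.1 n hp.2.1 hq.2.1
  have k1 := m1a_unl h hn l hz
  have k2 := le_dG (G := G) (a := z) (S := D.filter fun v => v ≠ r2 ∧ 2 ≤ be (f v)) (R := {p, q})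
    fun b hb => by
      rcases mem_insert.1 hb with rfl | hb
      · exact ⟨m1a_mem h hn l hp.1 hp.2.1 hp.2.2, g1⟩
      · rw [mem_singleton.1 hb]
        exact ⟨m1a_mem h hn l hq.1 hq.2.1 hq.2.2, g2⟩
  rw [card_pair n] at k2
  omega

theorem m1a_card {R : Finset V} {r1 r2 : V} {f f' : V → V}
    (h : Nu G W Y U g D B α β α' β' 1 I J be R) (l : Lin G D R r1 r2 f f') :
    D.card ≤ (D.filter fun v => v ≠ r2 ∧ 2 ≤ be (f v)).card + 1 +
      (D.filter fun v => be v = 1 ∧ v ≠ r1).card := by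
  have k : D ⊆ insert r2 (D.filter fun v => v ≠ r2 ∧ 2 ≤ be (f v)) ∪
      (D.filter fun v => be v = 1 ∧ v ≠ r1).image f' := fun v hv => by
    by_cases n : v = r2
    · exact mem_union_left _ (mem_insert.2 (Or.inl n))
    by_cases e : 2 ≤ be (f v)
    · exact mem_union_left _ (mem_insert_of_mem (mem_filter.2 ⟨hv, n, e⟩))
    have := h.m1.one _ (l.mem v hv n)
    exact mem_union_right _ (mem_image.2 ⟨f v, mem_filter.2 ⟨l.mem v hv n, by omega,
      (l.ne1 v hv n).1⟩, l.inv v hv n⟩)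
  exact (card_le_card k).trans ((card_union_le _ _).trans
    (add_le_add (card_insert_le _ _) card_image_le))

theorem m1a_main {R : Finset V} {r1 r2 : V} {f f' : V → V}
    (h : Nu G W Y U g D B α β α' β' 1 I J be R) (h7 : 7 ≤ α + β) (hn : ¬Fin2 G Y U g D B 1 1)
    (l : Lin G D R r1 r2 f f') (l' : Lin G D R r2 r1 f' f) {v : V} (hv : v ∈ D) (e : be v = 1)
    (n : v ≠ r2) : False := by
  have k1 := m1a_card h l
  have k2 := m1a_uniq h hn l'
  have k3 := h.m1.num
  have k4 := m1a_mem h hn l hv e n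
  have k5 := h.m1.wt (filter_subset _ D) (by omega) fun z hz => m1a_unl h hn l hz
  have hS := filter_subset (fun v => v ≠ r2 ∧ 2 ≤ be (f v)) D
  generalize (D.filter fun v => v ≠ r2 ∧ 2 ≤ be (f v)) = S at *
  have k6 : ∑ x ∈ S.erase v, be x ≤ _ := sum_le_card_nsmul (S.erase v) be β fun x hx => by
    have := h.m1.le x (hS (mem_of_mem_erase hx))
    omega
  have k7 := add_sum_erase S be k4
  have k8 := card_erase_add_one k4
  rw [← k8, add_mul, mul_add] at k5
  rw [smul_eq_mul] at k6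
  omega

theorem m1_seven {R : Finset V} (h : Nu G W Y U g D B α β α' β' 1 I J be R) (h7 : 7 ≤ α + β)
    (hc : Mk G D R 0) : Fin2 G Y U g D B 1 1 := by
  by_contra hn
  have k3 := h.m1.num
  obtain ⟨ν, hν⟩ : B.Nonempty := card_pos.1 (by omega)
  obtain ⟨r1, r2, f, f', l, l'⟩ :=
    hc.lin (fun k => Finset.disjoint_left.1 h.m1.mid.dDB k hν) h.two
  by_cases k : ∃ v ∈ D, be v = 1
  · obtain ⟨v, hv, e⟩ := k
    by_cases n : v = r2
    · exact m1a_main h h7 hn l' l hv e (n ▸ l.ne.symm)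
    · exact m1a_main h h7 hn l l' hv e n
  have k1 := m1a_card h l
  rw [show (D.filter fun v => be v = 1 ∧ v ≠ r1) = ∅ from
    filter_eq_empty_iff.2 fun v hv e => k ⟨v, hv, e.1⟩, card_empty] at k1
  have k5 := h.m1.wt (filter_subset _ D) (by omega) fun z hz => m1a_unl h hn l hz
  have hS := filter_subset (fun v => v ≠ r2 ∧ 2 ≤ be (f v)) D
  generalize (D.filter fun v => v ≠ r2 ∧ 2 ≤ be (f v)) = S at *
  have k6 : ∑ x ∈ S, be x ≤ _ := sum_le_card_nsmul S be β fun x hx => by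
    have := h.m1.le x (hS hx)
    omega
  rw [mul_add] at k5
  rw [smul_eq_mul] at k6
  omega

end Pool.Agent.Lib.MP_af3016_co
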