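import Pool.Agent.Lib.MP_af3016_co.C.M1v
import Pool.Agent.Lib.MP_af3016_co.C.Fill1b

/-! Lower quota two, all defects large. -/

set_option autoImplicit false
set_option linter.unusedSectionVars false

namespace Pool.Agent.Lib.MP_af3016_co

open Finset SimpleGraph

variable {V : Type} [DecidableEq V] {G : SimpleGraph V} {Y : Lay V} {U : Finset V}

variable {W D B : Finset V} {g α β α' β' σ : ℕ} {I J : Multiset ℕ} {be : V → ℕ}

/-- a path that ends in a clique is extended through the whole clique -/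
theorem m1b_ext {P : Finset V} {a b : V} (hD : Clq G D) (h : HP G a b P) (hb : b ∈ D) :
    ∃ b' ∈ D, HP G a b' (D ∪ P) := by
  by_cases e : D \ P = ∅
  · rw [union_eq_right.2 (sdiff_eq_empty_iff_subset.1 e)]
    exact ⟨b, hb, h⟩
  obtain ⟨c, d, k⟩ : ∃ c d, HP G c d (D \ P) := by
    obtain ⟨c, hc⟩ := nonempty_iff_ne_empty.2 e
    by_cases e' : ∃ d ∈ D \ P, c ≠ d
    · obtain ⟨d, hd, hcd⟩ := e'
      exact ⟨c, d, HP.clique _ _ c d rfl (hD.mono fun _ k => (mem_sdiff.1 k).1) hc hd hcd⟩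
    · push Not at e'
      rw [eq_singleton_iff_unique_mem.2 ⟨hc, fun d hd => (e' d hd).symm⟩]
      exact ⟨c, c, HP.single c⟩
  have hc := mem_sdiff.1 k.left
  refine ⟨d, (mem_sdiff.1 k.right).1, h.join k (fun t ht k' => (mem_sdiff.1 k').2 ht)
    (hD b hb c hc.1 fun e => hc.2 (e ▸ h.right)) fun t => ?_⟩
  rw [mem_union, mem_sdiff]
  tauto

/-- a path is continued through a path outside the clique -/
theorem m1b_att {P Z : Finset V} {w e u u' z z' : V} (hD : Clq G D) (h : HP G w e P) (he : e ∈ D)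
    (hu : u ∈ D) (hu' : u' ∈ D) (huu : u ≠ u') (hZ : HP G z z' Z) (a1 : G.Adj u z)
    (a2 : G.Adj z' u') (dZ : ∀ t ∈ Z, t ∉ P ∧ t ∉ D) (n1 : u' ∉ P) (n2 : u = e ∨ u ∉ P) :
    ∃ Q, HP G w u' Q ∧ ∀ t, t ∈ Q ↔ t ∈ P ∨ t = u ∨ t = u' ∨ t ∈ Z := by
  have k1 : HP G z u' (insert u' Z) :=
    (hZ.symm.cons a2.symm fun k => (dZ u' k).2 hu').symm
  by_cases e1 : u = e
  · subst e1
    refine ⟨P ∪ insert u' Z, h.join k1 (fun t ht k => ?_) a1 fun t => mem_union, fun t => ?_⟩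
    · rcases mem_insert.1 k with rfl | k
      exacts [n1 ht, (dZ t k).1 ht]
    · rw [mem_union, mem_insert]
      have : t = u → t ∈ P := fun e => e ▸ h.right
      tauto
  · have n3 := n2.resolve_left e1
    have k2 := k1.cons a1 (by
      rw [mem_insert, not_or]
      exact ⟨huu, fun k => (dZ u k).2 hu⟩)
    refine ⟨P ∪ insert u (insert u' Z), h.join k2 (fun t ht k => ?_) (hD e he u hu (Ne.symm e1))
      fun t => mem_union, fun t => by rw [mem_union, mem_insert, mem_insert]⟩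
    rcases mem_insert.1 k with rfl | k
    · exact n3 ht
    · rcases mem_insert.1 k with rfl | k
      exacts [n1 ht, (dZ t k).1 ht]

theorem m1b_fin {R : Finset V} (h : Nu G W Y U g D B α β α' β' 2 I J be R) {z z' a b : V}
    (hz : z ∈ Y.iv U 0 (g + 1)) (hz' : z' ∈ Y.iv U 0 (g + 1)) (hzz : z ≠ z')
    (hR : Rs G Y (U \ {z, z'}) (g + 1) 0) (ha : a ∈ R) (hb : b ∈ R)
    (hc : CS G (D ∪ {z, z'}) (s(a, b) ::ₘ 0)) : Fin2 G Y U g D B 2 1 := by
  obtain ⟨p, hp, a1, a2⟩ := h.lnk a ha b hb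
    (m6_ne hc (h.two.trans (card_le_card subset_union_left)))
  have s1 : ({z, z'} : Finset V) ⊆ Y.iv U 0 (g + 1) := insert_subset hz (singleton_subset_iff.2 hz')
  refine h.m1.fin (s := 0) hp s1 (((hc.ext (z := p) (fun k => ?_) a1.symm).edge a2).set fun v => ?_)
    (by rw [card_pair hzz]) (Fb.zero hR)
  · rcases mem_union.1 k with k | k
    exacts [Finset.disjoint_left.1 h.m1.mid.dDB k hp, Finset.disjoint_left.1 h.m1.mid.dB hp (s1 k)]
  · simp only [mem_insert, mem_union, mem_singleton]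
    tauto

theorem m1b_close {R P : Finset V} (h : Nu G W Y U g D B α β α' β' 2 I J be R)
    (h3 : ∀ v ∈ D, 3 ≤ be v) {z z' ν w e : V} (hz : z ∈ Y.iv U 0 (g + 1))
    (hz' : z' ∈ Y.iv U 0 (g + 1)) (hzz : z ≠ z') (hR : Rs G Y (U \ {z, z'}) (g + 1) 0)
    (hν : ν ∈ B) (hp : HP (f1b_sat (m6v G ν R) D) w e P) (hw : w ∈ D) (he : e ∈ D)
    (hP : ∀ t, t ∈ D ∨ t ∈ P ↔ t = ν ∨ t ∈ D ∨ t = z ∨ t = z') : Fin2 G Y U g D B 2 1 := by
  obtain ⟨b, hb, k⟩ := m1b_ext (f1b_clq (Subset.refl D)) hp he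
  have n1 : ν ∉ D := fun k => Finset.disjoint_left.1 h.m1.mid.dDB k hν
  have n2 : ν ∉ D ∪ {z, z'} := fun k => by
    simp only [mem_insert, mem_union, mem_singleton] at k
    rcases k with k | rfl | rfl
    exacts [n1 k, Finset.disjoint_left.1 h.m1.mid.dB hν hz, Finset.disjoint_left.1 h.m1.mid.dB hν hz']
  have e1 : D ∪ P = insert ν (D ∪ {z, z'}) := by
    ext t
    simp only [mem_insert, mem_union, mem_singleton]
    exact hP t
  rw [e1] at k
  have c1 := card_insert_of_notMem n2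
  have c2 := card_union_le D ({z, z'} : Finset V)
  have c3 := card_pair hzz
  have c4 := card_le_card (subset_union_left : D ⊆ D ∪ {z, z'})
  have c5 := h.two
  have num := h.m1.num
  have k1 := k.cycle (f1b_in hb hw (k.ne (by omega)).symm) (by omega)
  have k2 : HC (m6v G ν R) (insert ν (D ∪ {z, z'})) := by
    refine closure k1 fun x _ y _ g1 g2 => ?_
    have g3 : x ∈ D ∧ y ∈ D := by
      rcases ((fromRel_adj _ _ _).1 (g1.resolve_left g2)).2 with e | e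
      exacts [e, e.symm]
    have s : insert ν D ⊆ insert ν (D ∪ {z, z'}) := insert_subset_insert ν subset_union_left
    have := m6_deg (G := G) (M := R) n1 g3.1
    have := m6_deg (G := G) (M := R) n1 g3.2
    have := dG_mono (G := m6v G ν R) (a := x) s
    have := dG_mono (G := m6v G ν R) (a := y) s
    have := h.sum x g3.1 y g3.2 g1.ne
    have := h3 x g3.1
    have := h3 y g3.2
    omega
  obtain ⟨a, ha, b, hb, k3⟩ := m6_take k2.cs n2 (by simp)
  exact m1b_fin h hz hz' hzz hR ha hb k3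

/-- the neighbourhoods when no edge hangs at two different vertices of `D'` -/
theorem m1b_noe {m s i : ℕ} (hR : Rs G Y U m s) {D' : Finset V}
    (hn : ∃ y ∈ D', ∃ z ∈ Y.iv U i m, G.Adj y z)
    (hE : ∀ y ∈ D', ∀ y' ∈ D', ∀ z ∈ Y.iv U i m, ∀ z' ∈ Y.iv U 0 m, y ≠ y' → G.Adj y z →
      G.Adj y' z' → ¬G.Adj z z') :
    ∃ y0 ∈ D', ∃ z0 ∈ Y.iv U i m, G.Adj y0 z0 ∧ ∀ t ≤ i, ∃ K, K ⊆ Y.iv U t m ∧ z0 ∈ K ∧
      K.card + Y.B t ≤ Y.B m ∧ ∀ y ∈ D', y ≠ y0 → ∀ w ∈ Y.iv U t m, G.Adj y w → w ∈ K := by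
  classical
  obtain ⟨y1, hy1, z1, hz1, a1⟩ := hn
  obtain ⟨z, hz, hzm⟩ := exists_max_image ((Y.iv U i m).filter fun z => ∃ y ∈ D', G.Adj y z) Y.f
    ⟨z1, mem_filter.2 ⟨hz1, y1, hy1, a1⟩⟩
  obtain ⟨hzP, y0, hy0, a0⟩ := mem_filter.1 hz
  have hzi := Lay.mem_iv.1 hzP
  refine ⟨y0, hy0, z, hzP, a0, fun t ht => ?_⟩
  obtain ⟨N, k1, k2⟩ := exists_non (G := G) z (Y.iv U t (Y.f z + 1))
  have k3 := hR.int z hzi.1 hzi.2.2 t (by omega)
  have k4 := Y.B_mono (show Y.f z + 1 ≤ m by omega)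
  have k5 := card_insert_le z N
  refine ⟨insert z N, insert_subset (Lay.mem_iv.2 ⟨hzi.1, by omega, hzi.2.2⟩) fun w hw =>
    Lay.iv_mono (Subset.refl U) le_rfl (by omega) ((k2 w).1 hw).1, mem_insert_self _ _, by omega,
    fun y hy n w hw a => ?_⟩
  by_cases e : w = z
  · exact e ▸ mem_insert_self _ _
  have hw' := Lay.mem_iv.1 hw
  refine mem_insert_of_mem ((k2 w).2 ⟨Lay.mem_iv.2 ⟨hw'.1, hw'.2.1, ?_⟩, e,
    hE y0 hy0 y hy z hzP w (Lay.mem_iv.2 ⟨hw'.1, Nat.zero_le _, hw'.2.2⟩) n.symm a0 a⟩)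
  by_cases e' : i ≤ Y.f w
  · have := hzm w (mem_filter.2 ⟨Lay.mem_iv.2 ⟨hw'.1, e', hw'.2.2⟩, y, hy, a⟩)
    omega
  · omega

theorem m1b_multi {D' K : Finset V} {x : ℕ} (h : ∀ y ∈ D', x + 2 ≤ dG G y K) (h1 : 1 ≤ D'.card)
    (h2 : K.card < x + 2 * D'.card) :
    ∃ z ∈ K, ∃ a ∈ D', ∃ b ∈ D', a ≠ b ∧ G.Adj z a ∧ G.Adj z b := by
  have k1 := f1b_count h h1
  by_contra k
  have k2 := f1b_one (G := G) (D' := D') (S := K) fun w hw => by
    by_contra k'
    exact k ⟨w, hw, f1b_two k'⟩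
  omega

theorem m1_hard {R : Finset V} (h : Nu G W Y U g D B α β α' β' 2 I J be R)
    (h3 : ∀ v ∈ D, 3 ≤ be v) : Fin2 G Y U g D B 2 1 := by
  classical
  have num := h.m1.num
  have mid := h.m1.mid
  obtain ⟨i, hi, hmax⟩ := exists_max_image ((range (g + 1)).filter fun t =>
    (Y.iv U 0 t).card ≤ Y.A t + Y.B t + 1) id ⟨0, by simp [Y.iv_self]⟩
  rw [mem_filter, mem_range] at hi
  have sP : Y.iv U i (g + 1) ⊆ Y.iv U 0 (g + 1) :=
    Lay.iv_mono (Subset.refl U) (Nat.zero_le i) le_rfl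
  have leg : ∀ z ∈ Y.iv U i (g + 1), ∀ z' ∈ Y.iv U 0 (g + 1), z ≠ z' →
      Rs G Y (U \ {z, z'}) (g + 1) 0 := fun z hz z' hz' hzz => by
    refine Rs.remove (r := 2) (w := 0) mid.rs (insert_subset (sP hz) (singleton_subset_iff.2 hz'))
      (card_pair hzz) fun t ht => ?_
    by_cases e : i < t
    · have := card_le_card (Y.iv_sub {z, z'} 0 t)
      have := card_pair hzz
      by_contra k
      have := hmax t (mem_filter.2 ⟨mem_range.2 ht, by omega⟩)
      simp only [id] at this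
      omega
    by_cases e0 : t = 0
    · subst e0
      simp [Y.iv_self, Y.A_zero, Y.B_zero]
    have := mid.pos t (by omega) ht.le
    have : (Y.iv {z, z'} 0 t).card ≤ ({z'} : Finset V).card := card_le_card fun v hv => by
      rw [Lay.mem_iv, mem_insert] at hv
      refine hv.1.resolve_left fun k => ?_
      have := Lay.mem_iv.1 hz
      rw [k] at hv
      omega
    rw [card_singleton] at this
    omega
  have nD : ∀ z ∈ Y.iv U 0 (g + 1), z ∉ D := fun z hz k => Finset.disjoint_left.1 mid.dD k hz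
  have e1 := Y.card_iv U (Nat.zero_le i) hi.1.le
  have e2 := mid.rs.top
  have e3 := mid.rs.AB hi.1.le le_rfl
  have e4 := Y.A_mono (show i ≤ g by omega)
  have e5 := Y.A_succ g
  have e6 := Y.B_mono hi.1.le
  have e7 := mid.rs.AB (Nat.zero_le (g + 1)) le_rfl
  rw [Y.A_zero, Y.B_zero] at e7
  obtain ⟨x, hx⟩ : ∃ x, Y.A (g + 1) = Y.A i + β + x := ⟨Y.A (g + 1) - (Y.A i + β), by omega⟩
  have dP : ∀ y ∈ D, x + 2 ≤ dG G y (Y.iv U i (g + 1)) := fun y hy => by
    have := h.m1.dlow (show i ≤ g by omega) hy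
    have := h.m1.le y hy
    omega
  have dX : ∀ y ∈ D, Y.A i + x + 3 ≤ dG G y (Y.iv U 0 (g + 1)) := fun y hy => by
    have := h.m1.dlow (Nat.zero_le g) hy
    have := h.m1.le y hy
    rw [Y.B_zero] at *
    omega
  have sub : ∀ {y : V} {S K : Finset V}, (∀ w ∈ S, G.Adj y w → w ∈ K) → dG G y S ≤ dG G y K := by
    intro y S K k
    obtain ⟨N, k1, k2⟩ := exists_nbhd (G := G) y K
    exact k1 ▸ dG_le fun w hw a => (k2 w).2 ⟨k w hw a, a⟩
  have ne : ∀ D', D' ⊆ D → 1 ≤ D'.card → ∃ y ∈ D', ∃ z ∈ Y.iv U i (g + 1), G.Adj y z := by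
    intro D' k1 k2
    obtain ⟨y, hy⟩ := card_pos.1 k2
    exact ⟨y, hy, exists_adj (by have := dP y (k1 hy); omega)⟩
  obtain ⟨v0, hv0⟩ : D.Nonempty := card_pos.1 (by have := h.two; omega)
  have b3 : 3 ≤ β := by
    have := h3 v0 hv0
    have := h.m1.le v0 hv0
    omega
  by_contra hF
  by_cases e3 : β = 3
  · have h0 : ∀ v ∈ D, dH G v D = 0 ∧ be v = 3 := fun v hv => by
      have := h3 v hv
      have := h.m1.le v hv
      omega
    have clq : Clq G D := fun a ha b hb k => dH_eq_zero.1 (h0 a ha).1 b hb k.symm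
    have hDR : ∀ v ∈ D, v ∈ R := fun v hv => by
      obtain ⟨v', hv', k⟩ := exists_mem_ne (show 1 < D.card by omega) v
      exact h.n0 v hv v' hv' k.symm (by have := h0 v hv; omega) (by have := h0 v' hv'; omega)
    have fin : ∀ z ∈ Y.iv U i (g + 1), ∀ z' ∈ Y.iv U 0 (g + 1), z ≠ z' → ∀ a ∈ D, ∀ b ∈ D, ∀ P,
        HP G a b P → (∀ t, t ∈ D ∨ t ∈ P ↔ t ∈ D ∨ t = z ∨ t = z') → False := by
      intro z hz z' hz' hzz a ha b hb P k1 k2
      obtain ⟨b', hb', k3⟩ := m1b_ext clq k1 hb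
      exact hF (m1b_fin h (sP hz) hz' hzz (leg z hz z' hz' hzz) (hDR a ha) (hDR b' hb')
        (k3.cs.set fun t => by
          simp only [mem_insert, mem_union, mem_singleton]
          exact k2 t))
    obtain ⟨y0, hy0, z0, hz0, a0, k⟩ := m1b_noe (i := i) mid.rs (ne D (Subset.refl D) (by omega))
      fun y hy y' hy' z hz z' hz' n a1 a2 a3 => by
        obtain ⟨Q, k1, k2⟩ := m1b_att clq (HP.single y) hy hy hy' n (ab_hp2 a3) a1 a2.symm
          (fun t ht => by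
            have : t ∉ D := by
              rcases mem_insert.1 ht with rfl | ht
              exacts [nD _ (sP hz), mem_singleton.1 ht ▸ nD _ hz']
            exact ⟨fun k => this (mem_singleton.1 k ▸ hy), this⟩)
          (by simp [n.symm]) (Or.inl rfl)
        refine fin z hz z' hz' a3.ne y hy y' hy' Q k1 fun t => ?_
        rw [k2]
        simp only [mem_insert, mem_singleton]
        have q0 : t = y → t ∈ D := fun e => e ▸ hy
        have q1 : t = y' → t ∈ D := fun e => e ▸ hy'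
        clear * - q0 q1
        grind
    obtain ⟨K, k1, k2, k3, k4⟩ := k 0 (Nat.zero_le i)
    rw [Y.B_zero] at k3
    have all : ∀ y ∈ D, y ≠ y0 → ∀ w ∈ K, G.Adj y w := fun y hy n w hw => by
      by_contra a
      have := dG_le (G := G) (a := y) (S := Y.iv U 0 (g + 1)) (R := K.erase w) fun b hb a' =>
        mem_erase.2 ⟨fun e => a (e ▸ a'), k4 y hy n b hb a'⟩
      have := card_erase_add_one hw
      have := dX y hy
      omega
    have c0 := card_erase_add_one hy0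
    obtain ⟨y1, hy1, y2, hy2, n12⟩ := one_lt_card.1 (show 1 < (D.erase y0).card by omega)
    rw [mem_erase] at hy1 hy2
    obtain ⟨z2, hz2, n2⟩ := exists_mem_ne (show 1 < K.card by
      have := dG_le (k4 y1 hy1.2 hy1.1)
      have := dX y1 hy1.2
      omega) z0
    have m0 := nD z0 (sP hz0)
    have m2 := nD z2 (k1 hz2)
    obtain ⟨Q, l1, l2⟩ := m1b_att clq (HP.single y0) hy0 hy0 hy1.2 hy1.1.symm (HP.single z0) a0
      (all y1 hy1.2 hy1.1 z0 k2).symm
      (fun t ht => mem_singleton.1 ht ▸ ⟨fun k => m0 (mem_singleton.1 k ▸ hy0), m0⟩)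
      (by simp [hy1.1]) (Or.inl rfl)
    obtain ⟨Q', l3, l4⟩ := m1b_att clq l1 hy1.2 hy1.2 hy2.2 n12 (HP.single z2)
      (all y1 hy1.2 hy1.1 z2 hz2) (all y2 hy2.2 hy2.1 z2 hz2).symm
      (fun t ht => mem_singleton.1 ht ▸ ⟨by
        rw [l2]
        simp only [mem_singleton, not_or]
        exact ⟨fun e => m2 (e ▸ hy0), fun e => m2 (e ▸ hy0), fun e => m2 (e ▸ hy1.2), n2⟩, m2⟩)
      (by
        rw [l2]
        simp only [mem_singleton, not_or]
        exact ⟨hy2.1, hy2.1, n12.symm, fun e => m0 (e ▸ hy2.2)⟩) (Or.inl rfl)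
    refine fin z0 hz0 z2 (k1 hz2) n2.symm y0 hy0 y2 hy2.2 Q' l3 fun t => ?_
    rw [l4, l2]
    simp only [mem_singleton]
    have q0 : t = y0 → t ∈ D := fun e => e ▸ hy0
    have q1 : t = y1 → t ∈ D := fun e => e ▸ hy1.2
    have q2 : t = y2 → t ∈ D := fun e => e ▸ hy2.2
    clear * - q0 q1 q2
    grind
  obtain ⟨w1, hw1, w2, hw2, n12⟩ := one_lt_card.1 (show 1 < R.card from h.cR)
  obtain ⟨ν, hν⟩ : B.Nonempty := card_pos.1 (by omega)
  have nν : ∀ v ∈ D, v ≠ ν := fun v hv e => Finset.disjoint_left.1 mid.dDB hv (e ▸ hν)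
  have nν' : ∀ z ∈ Y.iv U 0 (g + 1), z ≠ ν := fun z hz e =>
    Finset.disjoint_left.1 mid.dB hν (e ▸ hz)
  have clq : Clq (f1b_sat (m6v G ν R) D) D := f1b_clq (Subset.refl D)
  have up : ∀ {a b : V}, a ≠ ν → b ≠ ν → G.Adj a b → (f1b_sat (m6v G ν R) D).Adj a b :=
    fun k1 k2 k3 => Or.inl ((m6v_in k1 k2).2 k3)
  have d1 := h.sub hw1
  have d2 := h.sub hw2
  obtain ⟨P0, p1, p2⟩ := m1b_att clq (HP.single w1) d1 d1 d2 n12 (HP.single ν)
    (Or.inl ((m6v_nu (nν w1 d1)).2 hw1)) (Or.inl ((m6v_nu (nν w2 d2)).2 hw2).symm)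
    (fun t ht => mem_singleton.1 ht ▸ ⟨fun k => nν w1 d1 (mem_singleton.1 k).symm,
      fun k => nν ν k rfl⟩) (by simp [n12.symm]) (Or.inl rfl)
  simp only [mem_singleton] at p2
  have out : ∀ t ∈ Y.iv U 0 (g + 1), t ∉ P0 ∧ t ∉ D := fun t ht => ⟨by
    rw [p2]
    simp only [not_or]
    exact ⟨fun e => nD t ht (e ▸ d1), fun e => nD t ht (e ▸ d1), fun e => nD t ht (e ▸ d2),
      nν' t ht⟩, nD t ht⟩
  have inn : ∀ u ∈ D.erase w1, u ≠ w2 → u ∉ P0 := fun u hu n => by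
    rw [p2]
    rw [mem_erase] at hu
    simp only [not_or]
    exact ⟨hu.1, hu.1, n, nν u hu.2⟩
  have inn' : ∀ u ∈ D.erase w1, u = w2 ∨ u ∉ P0 := fun u hu =>
    (em (u = w2)).imp_right (inn u hu)
  have c1 := card_erase_add_one d1
  have keyE : ∀ y ∈ D.erase w1, ∀ y' ∈ D.erase w1, ∀ z ∈ Y.iv U 0 (g + 1),
      ∀ z' ∈ Y.iv U 0 (g + 1), y ≠ y' → y' ≠ w2 → G.Adj y z → G.Adj y' z' → G.Adj z z' →
      Rs G Y (U \ {z, z'}) (g + 1) 0 → False := by
    intro y hy y' hy' z hz z' hz' n n' a1 a2 a3 hR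
    have f1 := mem_of_mem_erase hy
    have f2 := mem_of_mem_erase hy'
    obtain ⟨Q, k1, k2⟩ := m1b_att clq p1 d2 f1 f2 n (ab_hp2 (up (nν' z hz) (nν' z' hz') a3))
      (up (nν y f1) (nν' z hz) a1) (up (nν' z' hz') (nν y' f2) a2.symm)
      (fun t ht => by
        rcases mem_insert.1 ht with rfl | ht
        exacts [out _ hz, mem_singleton.1 ht ▸ out _ hz']) (inn y' hy' n') (inn' y hy)
    refine hF (m1b_close h h3 hz hz' a3.ne hR hν k1 d1 f2 fun t => ?_)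
    rw [k2, p2]
    simp only [mem_insert, mem_singleton]
    have q0 : t = y → t ∈ D := fun e => e ▸ f1
    have q1 : t = y' → t ∈ D := fun e => e ▸ f2
    have q2 : t = w1 → t ∈ D := fun e => e ▸ d1
    have q3 : t = w2 → t ∈ D := fun e => e ▸ d2
    clear * - q0 q1 q2 q3
    grind
  have keyM : ∀ a ∈ D.erase w1, ∀ b ∈ D.erase w1, ∀ c ∈ D.erase w1, ∀ d ∈ D.erase w1,
      ∀ z ∈ Y.iv U 0 (g + 1), ∀ z' ∈ Y.iv U 0 (g + 1), z ≠ z' → a ≠ b → c ≠ d → b ≠ w2 →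
      d ≠ w2 → d ≠ a → d ≠ b → c ≠ a → c ≠ w2 → G.Adj z a → G.Adj z b → G.Adj z' c →
      G.Adj z' d → Rs G Y (U \ {z, z'}) (g + 1) 0 → False := by
    intro a ha b hb c hc d hd z hz z' hz' n0 n1 n2 n3 n4 n5 n6 n7 n8 a1 a2 a3 a4 hR
    have f1 := mem_of_mem_erase ha
    have f2 := mem_of_mem_erase hb
    have f3 := mem_of_mem_erase hc
    have f4 := mem_of_mem_erase hd
    obtain ⟨Q, k1, k2⟩ := m1b_att clq p1 d2 f1 f2 n1 (HP.single z)
      (up (nν a f1) (nν' z hz) a1.symm) (up (nν' z hz) (nν b f2) a2)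
      (fun t ht => mem_singleton.1 ht ▸ out _ hz) (inn b hb n3) (inn' a ha)
    simp only [mem_singleton] at k2
    obtain ⟨Q', k3, k4⟩ := m1b_att clq k1 f2 f3 f4 n2 (HP.single z')
      (up (nν c f3) (nν' z' hz') a3.symm) (up (nν' z' hz') (nν d f4) a4)
      (fun t ht => mem_singleton.1 ht ▸ ⟨by
        rw [k2]
        simp only [not_or]
        exact ⟨(out _ hz').1, fun e => nD _ hz' (e ▸ f1), fun e => nD _ hz' (e ▸ f2), n0.symm⟩,
        nD _ hz'⟩)
      (by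
        rw [k2]
        simp only [not_or]
        exact ⟨inn d hd n4, n5, n6, fun e => nD _ hz (e ▸ f4)⟩)
      ((em (c = b)).imp_right fun e => by
        rw [k2]
        simp only [not_or]
        exact ⟨inn c hc n8, n7, e, fun e => nD _ hz (e ▸ f3)⟩)
    refine hF (m1b_close h h3 hz hz' n0 hR hν k3 d1 f4 fun t => ?_)
    rw [k4, k2, p2]
    simp only [mem_singleton]
    have q0 : t = a → t ∈ D := fun e => e ▸ f1
    have q1 : t = b → t ∈ D := fun e => e ▸ f2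
    have q2 : t = c → t ∈ D := fun e => e ▸ f3
    have q3 : t = d → t ∈ D := fun e => e ▸ f4
    have q4 : t = w1 → t ∈ D := fun e => e ▸ d1
    have q5 : t = w2 → t ∈ D := fun e => e ▸ d2
    clear * - q0 q1 q2 q3 q4 q5
    grind
  obtain ⟨y0, hy0, z0, -, -, k⟩ := m1b_noe (i := i) mid.rs
    (ne (D.erase w1) (erase_subset _ _) (by omega))
    fun y hy y' hy' z hz z' hz' n a1 a2 a3 => by
      by_cases e : y' = w2
      · exact keyE y' hy' y hy z' hz' z (sP hz) n.symm (e ▸ n) a2 a1 a3.symm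
          (pair_comm z z' ▸ leg z hz z' hz' a3.ne)
      · exact keyE y hy y' hy' z (sP hz) z' hz' n e a1 a2 a3 (leg z hz z' hz' a3.ne)
  obtain ⟨K, k1, -, k3, k4⟩ := k i le_rfl
  obtain ⟨K', l1, -, l3, l4⟩ := k 0 (Nat.zero_le i)
  rw [Y.B_zero] at l3
  have c2 := card_erase_add_one hy0
  obtain ⟨z1, hz1, a, ha, b, hb, n1, n1', a1, a2⟩ : ∃ z ∈ K, ∃ a ∈ (D.erase w1).erase y0,
      ∃ b ∈ (D.erase w1).erase y0, a ≠ b ∧ b ≠ w2 ∧ G.Adj z a ∧ G.Adj z b := by
    obtain ⟨z, hz, a, ha, b, hb, n, a1, a2⟩ := m1b_multi (G := G) (D' := (D.erase w1).erase y0)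
      (K := K) (x := x) (fun y hy => (dP y (mem_of_mem_erase (mem_of_mem_erase hy))).trans
        (sub (k4 y (mem_of_mem_erase hy) (mem_erase.1 hy).1))) (by omega) (by omega)
    by_cases e : b = w2
    · exact ⟨z, hz, b, hb, a, ha, n.symm, e ▸ n, a2, a1⟩
    · exact ⟨z, hz, a, ha, b, hb, n, e, a1, a2⟩
  have c3 := card_erase_add_one ha
  have c4 := card_erase_add_one
    (l4 a (mem_of_mem_erase ha) (mem_erase.1 ha).1 z1 (sP (k1 hz1)) a1.symm)
  obtain ⟨z2, hz2, c, hc, d, hd, n2, a3, a4⟩ := m1b_multi (G := G)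
    (D' := ((D.erase w1).erase y0).erase a) (K := K'.erase z1) (x := Y.A i + x) (fun y hy => by
      have hy' := mem_of_mem_erase hy
      have := dX y (mem_of_mem_erase (mem_of_mem_erase hy'))
      have := sub (l4 y (mem_of_mem_erase hy') (mem_erase.1 hy').1)
      have := (tools_erase (G := G) y z1 K').1
      omega) (by omega) (by omega)
  rw [mem_erase] at hz2 hc hd
  have fa := mem_of_mem_erase ha
  have fb := mem_of_mem_erase hb
  have fc := mem_of_mem_erase hc.2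
  have fd := mem_of_mem_erase hd.2
  have hR := leg z1 (k1 hz1) z2 (l1 hz2.2) hz2.1.symm
  by_cases e : a = w2
  · by_cases e' : d = b
    · exact keyM a fa b fb d fd c fc z1 (sP (k1 hz1)) z2 (l1 hz2.2) hz2.1.symm n1 n2.symm n1'
        (e ▸ hc.1) hc.1 (e' ▸ n2) hd.1 (e ▸ hd.1) a1 a2 a4 a3 hR
    · exact keyM a fa b fb c fc d fd z1 (sP (k1 hz1)) z2 (l1 hz2.2) hz2.1.symm n1 n2 n1'
        (e ▸ hd.1) hd.1 e' hc.1 (e ▸ hc.1) a1 a2 a3 a4 hR
  · rw [pair_comm] at hR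
    by_cases e' : d = w2 ∨ c = b
    · refine keyM d fd c fc b fb a fa z2 (l1 hz2.2) z1 (sP (k1 hz1)) hz2.1 n2.symm n1.symm ?_ e
        hd.1.symm hc.1.symm ?_ n1' a4 a3 a2 a1 hR
      · rcases e' with e' | e'
        exacts [e' ▸ n2, e' ▸ n1']
      · rcases e' with e' | e'
        exacts [e' ▸ n1', e' ▸ n2]
    · rw [not_or] at e'
      exact keyM c fc d fd b fb a fa z2 (l1 hz2.2) z1 (sP (k1 hz1)) hz2.1 n2 n1.symm e'.1 e
        hc.1.symm hd.1.symm (Ne.symm e'.2) n1' a3 a4 a2 a1 hR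

end Pool.Agent.Lib.MP_af3016_co
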