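import Pool.Agent.Lib.MP_af3016_co.C.M1v

/-! Both quotas one, length five. -/

set_option autoImplicit false
set_option linter.unusedSectionVars false

namespace Pool.Agent.Lib.MP_af3016_co

open Finset SimpleGraph

variable {V : Type} [DecidableEq V] {G : SimpleGraph V} {Y : Lay V} {U : Finset V}

variable {W D B : Finset V} {g α β α' β' σ : ℕ} {I J : Multiset ℕ} {be : V → ℕ}

theorem m1f_cyc {a b c d e : V} (hab : G.Adj a b) (hbc : G.Adj b c) (hcd : G.Adj c d)
    (hde : G.Adj d e) (hea : G.Adj e a) (hac : a ≠ c) (had : a ≠ d) (hbd : b ≠ d) (hbe : b ≠ e)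
    (hce : c ≠ e) : HC G {a, b, c, d, e} := by
  refine HP.close (c := b) (p := e) ?_ hbe (by simp [hab.ne, hac, had, hea.ne.symm]) hab hea.symm
  exact ((ab_hp2 hde).cons hcd (by simp [hcd.ne, hce])).cons hbc (by simp [hbc.ne, hbd, hbe])

/-- three vertices between two sides -/
structure M1fS (D X B : Finset V) : Prop where
  three : D.card = 3
  dX : Disjoint D X
  dB : Disjoint D B
  dXB : Disjoint X B

/-- the class and one vertex of each side span a cycle -/
def M1fE (G : SimpleGraph V) (D X B : Finset V) : Prop :=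
  ∃ z ∈ X, ∃ p ∈ B, HC G (D ∪ {z} ∪ {p})

variable {X : Finset V}

theorem M1fS.symm (h : M1fS D X B) : M1fS D B X := ⟨h.three, h.dB, h.dX, h.dXB.symm⟩

theorem M1fE.symm (h : M1fE G D X B) : M1fE G D B X := by
  obtain ⟨z, hz, p, hp, k⟩ := h
  exact ⟨p, hp, z, hz, by rwa [union_right_comm]⟩

theorem M1fS.eq (h : M1fS D X B) {u v w : V} (hu : u ∈ D) (hv : v ∈ D) (hw : w ∈ D) (huv : u ≠ v)
    (huw : u ≠ w) (hvw : v ≠ w) : D = {u, v, w} :=
  (eq_of_subset_of_card_le (by simp [insert_subset_iff, hu, hv, hw])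
    (by rw [h.three, card_eq_three.2 ⟨u, v, w, huv, huw, hvw, rfl⟩])).symm

theorem M1fS.third (h : M1fS D X B) (u v : V) : ∃ w ∈ D, u ≠ w ∧ v ≠ w := by
  obtain ⟨w, h1, h2⟩ := exists_mem_notMem_of_card_lt_card (s := {u, v}) (t := D)
    (by have := card_le_two (a := u) (b := v); have := h.three; omega)
  simp only [mem_insert, mem_singleton, not_or] at h2
  exact ⟨w, h1, Ne.symm h2.1, Ne.symm h2.2⟩

/-- two different linked pairs -/
theorem M1fS.c1 (h : M1fS D X B) {u v w z p : V} (hu : u ∈ D) (hv : v ∈ D) (hw : w ∈ D)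
    (huv : u ≠ v) (hvw : v ≠ w) (hz : z ∈ X) (hp : p ∈ B) (e1 : G.Adj u z) (e2 : G.Adj v z)
    (e3 : G.Adj v p) (e4 : G.Adj w p) (e5 : G.Adj w u) : M1fE G D X B := by
  have k := m1f_cyc e1 e2.symm e3 e4.symm e5 huv
    (fun e => Finset.disjoint_left.1 h.dB hu (e ▸ hp))
    (fun e => Finset.disjoint_left.1 h.dXB hz (e ▸ hp))
    (fun e => Finset.disjoint_left.1 h.dX hw (e ▸ hz)) hvw
  refine ⟨z, hz, p, hp, ?_⟩
  rw [h.eq hu hv hw huv e5.ne.symm hvw]
  convert k using 1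
  ext t
  simp only [mem_union, mem_insert, mem_singleton]
  tauto

/-- an edge between the sides -/
theorem M1fS.c2 (h : M1fS D X B) {u v w z p : V} (hu : u ∈ D) (hv : v ∈ D) (hw : w ∈ D)
    (huv : u ≠ v) (hz : z ∈ X) (hp : p ∈ B) (e1 : G.Adj u z) (e2 : G.Adj z p)
    (e3 : G.Adj v p) (e4 : G.Adj v w) (e5 : G.Adj w u) : M1fE G D X B := by
  have k := m1f_cyc e1 e2 e3.symm e4 e5
    (fun e => Finset.disjoint_left.1 h.dB hu (e ▸ hp)) huv
    (fun e => Finset.disjoint_left.1 h.dX hv (e ▸ hz))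
    (fun e => Finset.disjoint_left.1 h.dX hw (e ▸ hz))
    (fun e => Finset.disjoint_left.1 h.dB hw (e ▸ hp))
  refine ⟨z, hz, p, hp, ?_⟩
  rw [h.eq hu hv hw huv e5.ne.symm e4.ne]
  convert k using 1
  ext t
  simp only [mem_union, mem_insert, mem_singleton]
  tauto

theorem m1f_link {a : ℕ} (h3 : D.card = 3) (hd : ∀ w ∈ D, a ≤ dG G w X) (hc : X.card < 3 * a) :
    ∃ z ∈ X, ∃ u ∈ D, ∃ v ∈ D, u ≠ v ∧ G.Adj z u ∧ G.Adj z v := by
  by_contra k
  have h1 := ab_sum (G := G) (S := D) (empty_subset X)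
    (fun z hz => not_lt.1 fun e => k ⟨z, hz, ab_two e⟩) (by simp)
  have h2 := card_nsmul_le_sum D (fun w => dG G w X) a hd
  rw [h3, smul_eq_mul] at h2
  omega

theorem m1f_cover {u v : V} (hn : ∀ z ∈ X, G.Adj u z → ¬G.Adj v z)
    (hc : X.card ≤ dG G u X + dG G v X) {z : V} (hz : z ∈ X) : G.Adj u z ∨ G.Adj v z := by
  by_contra k
  rw [not_or] at k
  have key : ∀ y, ¬G.Adj y z → dG G y X ≤ dG G y (X.erase z) := fun y hy => by
    obtain ⟨N, h1, h2⟩ := exists_nbhd (G := G) y (X.erase z)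
    rw [← h1]
    exact dG_le fun b hb e => (h2 b).2 ⟨mem_erase.2 ⟨fun e' => hy (e' ▸ e), hb⟩, e⟩
  have := key u k.1
  have := key v k.2
  have := card_erase_of_mem hz
  have := card_pos.2 ⟨z, hz⟩
  obtain ⟨c, h1, h2, h3⟩ := exists_common (G := G) (a := u) (b := v) (S := X.erase z) (by omega)
  exact hn c (mem_of_mem_erase h1) h2 h3

/-- a link of the pair `u, w` misses the other side -/
theorem M1fS.miss (h : M1fS D X B) (hn : ¬M1fE G D X B) {u v w z : V} (hu : u ∈ D) (hv : v ∈ D)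
    (hw : w ∈ D) (e1 : G.Adj u v) (e2 : G.Adj v w) (e3 : G.Adj w u) (hz : z ∈ X)
    (z1 : G.Adj u z) (z2 : ¬G.Adj v z) (z3 : G.Adj w z) (hc : ∀ p ∈ B, G.Adj u p ∨ G.Adj v p) :
    B.card + 1 ≤ dH G z D + dH G z B := by
  have h1 : 0 < dH G z D :=
    dH_pos hv (fun e => Finset.disjoint_left.1 h.dX hv (e ▸ hz)) fun e => z2 e.symm
  have h2 : dH G z B = B.card := dH_eq_card fun p hp =>
    ⟨fun e => Finset.disjoint_left.1 h.dXB hz (e ▸ hp), fun e => hn ((hc p hp).elim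
      (fun k => h.c2 hw hu hv e3.ne hz hp z3 e k e1 e2)
      fun k => h.c2 hu hv hw e1.ne hz hp z1 e k e2 e3)⟩
  omega

theorem M1fS.core (h : M1fS D X B) {a b a' b' : ℕ} (cX : X.card = a + b + 1)
    (cB : B.card = a' + b' + 1) (ba : b ≤ a) (ba' : b' ≤ a') (a2 : 2 ≤ a) (a2' : 2 ≤ a')
    (deg : ∀ w ∈ D, dH G w D ≤ 1 ∧ a + dH G w D ≤ dG G w X ∧ a' + dH G w D ≤ dG G w B ∧
      a + a' + 1 ≤ dG G w X + dG G w B)
    (suf : ∀ v, v ∈ X ∨ v ∈ B → dH G v X + dH G v D + dH G v B + 1 ≤ b + 2 + b') :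
    M1fE G D X B := by
  by_cases tri : ∀ u ∈ D, ∀ v ∈ D, u ≠ v → G.Adj u v
  swap
  · push Not at tri
    obtain ⟨u, hu, w, hw, huw, hn⟩ := tri
    obtain ⟨v, hv, huv, hwv⟩ := h.third u w
    have key : ∀ x ∈ D, ∀ y ∈ D, x ≠ y → ¬G.Adj x y → x ≠ v → y ≠ v →
        G.Adj x v ∧ a + 1 ≤ dG G x X ∧ a' + 1 ≤ dG G x B := fun x hx y hy hxy n h1 h2 => by
      obtain ⟨d1, d2, d3, -⟩ := deg x hx
      have := dH_pos hy hxy.symm n
      refine ⟨by_contra fun n' => ?_, by omega, by omega⟩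
      have := le_dH (G := G) (a := x) (S := D) (R := {y, v}) fun t ht => by
        rcases mem_insert.1 ht with rfl | ht
        · exact ⟨hy, hxy.symm, n⟩
        · rw [mem_singleton.1 ht]
          exact ⟨hv, h1.symm, n'⟩
      rw [card_pair h2] at this
      omega
    obtain ⟨-, u2, u3⟩ := key u hu w hw huw hn huv hwv
    obtain ⟨w1, w2, w3⟩ := key w hw u hu huw.symm (fun e => hn e.symm) hwv huv
    obtain ⟨-, d2, d3, d4⟩ := deg v hv
    by_cases e : a + 1 ≤ dG G v X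
    · obtain ⟨z, hz, z1, z2⟩ := exists_common (G := G) (a := v) (b := u) (S := X) (by omega)
      obtain ⟨p, hp, p1, p2⟩ := exists_common (G := G) (a := u) (b := w) (S := B) (by omega)
      exact h.c1 hv hu hw huv.symm huw hz hp z1 z2 p1 p2 w1
    · obtain ⟨z, hz, z1, z2⟩ := exists_common (G := G) (a := v) (b := u) (S := B) (by omega)
      obtain ⟨p, hp, p1, p2⟩ := exists_common (G := G) (a := u) (b := w) (S := X) (by omega)
      exact (h.symm.c1 hv hu hw huv.symm huw hz hp z1 z2 p1 p2 w1).symm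
  by_contra hn
  obtain ⟨z, hz, u, hu, w, hw, huw, z1, z3⟩ := m1f_link (G := G) (X := X) (a := a) h.three
    (fun w hw => by have := deg w hw; omega) (by omega)
  obtain ⟨p, hp, x, hx, y, hy, hxy, p1, p2⟩ := m1f_link (G := G) (X := B) (a := a') h.three
    (fun w hw => by have := deg w hw; omega) (by omega)
  obtain ⟨v, hv, huv, hwv⟩ := h.third u w
  have n1 : ∀ q ∈ B, G.Adj u q → ¬G.Adj v q := fun q hq k k' =>
    hn (h.c1 hw hu hv huw.symm huv hz hq z3.symm z1.symm k k' (tri v hv w hw hwv.symm))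
  have n2 : ∀ q ∈ B, G.Adj w q → ¬G.Adj v q := fun q hq k k' =>
    hn (h.c1 hu hw hv huw hwv hz hq z1.symm z3.symm k k' (tri v hv u hu huv.symm))
  have p3 : G.Adj u p ∧ G.Adj w p := by
    rw [h.eq hu hv hw huv huw hwv.symm] at hx hy
    simp only [mem_insert, mem_singleton] at hx hy
    rcases hx with rfl | rfl | rfl <;> rcases hy with rfl | rfl | rfl
    exacts [absurd rfl hxy, absurd p2.symm (n1 p hp p1.symm), ⟨p1.symm, p2.symm⟩,
      absurd p1.symm (n1 p hp p2.symm), absurd rfl hxy, absurd p1.symm (n2 p hp p2.symm),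
      ⟨p2.symm, p1.symm⟩, absurd p2.symm (n2 p hp p1.symm), absurd rfl hxy]
  have n3 : ∀ q ∈ X, G.Adj u q → ¬G.Adj v q := fun q hq k k' =>
    hn (h.c1 hv hu hw huv.symm huw hq hp k' k p3.1 p3.2 (tri w hw v hv hwv))
  have l1 : dG G u X + dG G v X ≤ X.card := not_lt.1 fun k => by
    obtain ⟨c, h1, h2, h3⟩ := exists_common k
    exact n3 c h1 h2 h3
  have l2 : dG G u B + dG G v B ≤ B.card := not_lt.1 fun k => by
    obtain ⟨c, h1, h2, h3⟩ := exists_common k
    exact n1 c h1 h2 h3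
  have du := (deg u hu).2.2.2
  have dv := (deg v hv).2.2.2
  have e1 := tri u hu v hv huv
  have e2 := tri v hv w hw hwv.symm
  have e3 := tri w hw u hu huw.symm
  have m1 := h.miss hn hu hv hw e1 e2 e3 hz z1.symm (n3 z hz z1.symm) z3.symm
    fun q hq => m1f_cover n1 (by omega) hq
  have m2 := h.symm.miss (fun k => hn k.symm) hu hv hw e1 e2 e3 hp p3.1 (n1 p hp p3.1) p3.2
    fun q hq => m1f_cover n3 (by omega) hq
  have s1 := suf z (Or.inl hz)
  have s2 := suf p (Or.inr hp)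
  omega

theorem m1_five (h : M1 G W Y U g D B α β α' β' 1 I J be) (h5 : α + β = 5) :
    Fin2 G Y U g D B 1 1 := by
  obtain ⟨n1, n2, -, n4, n5, n6, n7, n8, n9, -, -⟩ := h.num
  obtain rfl : α = 3 := by omega
  obtain rfl : β = 2 := by omega
  have t1 := h.mid.rs.top
  have t2 := h.mid.rs.AB (Nat.zero_le (g + 1)) le_rfl
  have t3 := Y.A_succ g
  rw [Y.A_zero, Y.B_zero] at t2
  obtain ⟨z, hz, p, hp, k⟩ := M1fS.core (G := G) (D := D) (X := Y.iv U 0 (g + 1)) (B := B)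
    ⟨by omega, h.mid.dD, h.mid.dDB, h.mid.dB.symm⟩ t1 n5 (by omega) n8 (by omega) (by omega)
    (fun w hw => by
      have := h.one w hw
      have := h.le w hw
      have := h.deg w hw
      have := h.dlow (Nat.zero_le g) hw
      rw [Y.B_zero] at this
      omega)
    fun v hv => by
      have := h.mid.suf 0 (Nat.zero_le _) v (hv.imp_right Or.inr)
      rw [Y.B_zero] at this
      omega
  exact ⟨{z}, {p}, singleton_subset_iff.2 hz, singleton_subset_iff.2 hp, card_singleton z,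
    card_singleton p, k, Rs.remove_iv (r := 1) (w := 0) (i := 0) h.mid.rs
      (singleton_subset_iff.2 hz) (card_singleton z) fun t h1 h2 => h.mid.pos t h1 h2.le⟩

end Pool.Agent.Lib.MP_af3016_co
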