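import Pool.Agent.Lib.MP_af3016_co.C.M1v

/-! Both quotas one, length six. -/

set_option autoImplicit false
set_option linter.unusedSectionVars false

namespace Pool.Agent.Lib.MP_af3016_co

open Finset SimpleGraph

variable {V : Type} [DecidableEq V] {G : SimpleGraph V} {Y : Lay V} {U : Finset V}

variable {W D B : Finset V} {g α β α' β' σ : ℕ} {I J : Multiset ℕ} {be : V → ℕ}

/-- a common neighbour in `X` -/
def M1gL (G : SimpleGraph V) (X : Finset V) (p q : V) : Prop :=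
  ∃ z ∈ X, G.Adj z p ∧ G.Adj z q

theorem M1gL.symm {X : Finset V} {p q : V} (h : M1gL G X p q) : M1gL G X q p := by
  obtain ⟨z, h1, h2, h3⟩ := h
  exact ⟨z, h1, h3, h2⟩

/-- the cyclic order of four vertices, all positions being gaps -/
theorem m1g_cs {a b c d : V} (hn : [a, b, c, d].Nodup) (hD : ∀ v, v ∈ [a, b, c, d] ↔ v ∈ D) :
    CS G D (s(a, b) ::ₘ s(b, c) ::ₘ s(c, d) ::ₘ {s(d, a)}) :=
  ⟨a, [b, c, d], hn, hD, 0, by rw [add_zero]; rfl, fun e he => absurd he (Multiset.notMem_zero e)⟩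

theorem m1g_fin (h : M1 G W Y U g D B α β α' β' 1 I J be) {a b p q : V}
    (hc : CS G D (s(a, b) ::ₘ {s(p, q)})) (h1 : M1gL G B a b)
    (h2 : M1gL G (Y.iv U 0 (g + 1)) p q) : Fin2 G Y U g D B 1 1 := by
  obtain ⟨y, k1, k2, k3⟩ := h1
  obtain ⟨z, l1, l2, l3⟩ := h2
  exact h.mark k1 k2 k3 hc (h.lnk1 l1 l2 l3)

/-- the two links sit at opposite positions -/
theorem m1g_opp (h : M1 G W Y U g D B α β α' β' 1 I J be) {a b c d : V}
    (hn : [a, b, c, d].Nodup) (hD : ∀ v, v ∈ [a, b, c, d] ↔ v ∈ D) (h1 : M1gL G B a b)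
    (e1 : G.Adj b c) (h2 : M1gL G (Y.iv U 0 (g + 1)) c d) (e2 : G.Adj d a) :
    Fin2 G Y U g D B 1 1 := by
  have k := (m1g_cs (G := G) hn hD).swap.edge e1
  have k' : CS G D (s(d, a) ::ₘ s(a, b) ::ₘ {s(c, d)}) := CS.rot (gs := 0) k
  exact m1g_fin h (k'.edge e2) h1 h2

/-- the two links sit at consecutive positions -/
theorem m1g_con (h : M1 G W Y U g D B α β α' β' 1 I J be) {a b c d : V}
    (hn : [a, b, c, d].Nodup) (hD : ∀ v, v ∈ [a, b, c, d] ↔ v ∈ D) (h1 : M1gL G B a b)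
    (h2 : M1gL G (Y.iv U 0 (g + 1)) b c) (e1 : G.Adj c d) (e2 : G.Adj d a) :
    Fin2 G Y U g D B 1 1 := by
  have k := (m1g_cs (G := G) hn hD).rot.edge e1
  have k' : CS G D (s(d, a) ::ₘ s(a, b) ::ₘ {s(b, c)}) := CS.rot (gs := 0) k
  exact m1g_fin h (k'.edge e2) h1 h2

theorem m1g_wt (h : M1 G W Y U g D B α β α' β' 1 I J be) {S : Finset V} (hS : S ⊆ D)
    (h2 : 2 ≤ S.card)
    (hn : ∀ a ∈ S, ∀ b ∈ S, a ≠ b → ¬M1gL G (Y.iv U 0 (g + 1)) a b) :
    S.card * (β + 2) ≤ 2 * β + 1 + ∑ v ∈ S, be v :=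
  h.wt hS h2 fun z hz => ab_le_one fun a ha b hb h1 h2 => by
    by_contra e
    exact hn a ha b hb e ⟨z, hz, h1, h2⟩

theorem m1g_wt2 (h : M1 G W Y U g D B α 3 α' β' 1 I J be) {a b : V} (ha : a ∈ D) (hb : b ∈ D)
    (hab : a ≠ b) (h1 : ¬M1gL G (Y.iv U 0 (g + 1)) a b) : 3 ≤ be a + be b := by
  have := m1g_wt h (S := {a, b}) (insert_subset ha (singleton_subset_iff.2 hb))
    (by rw [card_pair hab]) (by
      intro x hx y hy hxy
      simp only [mem_insert, mem_singleton] at hx hy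
      rcases hx with rfl | rfl <;> rcases hy with rfl | rfl
      exacts [absurd rfl hxy, h1, fun k => h1 k.symm, absurd rfl hxy])
  rw [card_pair hab, sum_pair hab] at this
  omega

theorem m1g_wt3 (h : M1 G W Y U g D B α 3 α' β' 1 I J be) {a b c : V} (ha : a ∈ D) (hb : b ∈ D)
    (hc : c ∈ D) (hab : a ≠ b) (hac : a ≠ c) (hbc : b ≠ c)
    (h1 : ¬M1gL G (Y.iv U 0 (g + 1)) a b) (h2 : ¬M1gL G (Y.iv U 0 (g + 1)) a c)
    (h3 : ¬M1gL G (Y.iv U 0 (g + 1)) b c) : 8 ≤ be a + be b + be c := by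
  have hn : a ∉ ({b, c} : Finset V) := by simp [hab, hac]
  have e : ({a, b, c} : Finset V).card = 3 := by rw [card_insert_of_notMem hn, card_pair hbc]
  have := m1g_wt h (S := {a, b, c})
    (insert_subset ha (insert_subset hb (singleton_subset_iff.2 hc))) (by omega) (by
      intro x hx y hy hxy
      simp only [mem_insert, mem_singleton] at hx hy
      rcases hx with rfl | rfl | rfl <;> rcases hy with rfl | rfl | rfl
      exacts [absurd rfl hxy, h1, h2, fun k => h1 k.symm, absurd rfl hxy, h3,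
        fun k => h2 k.symm, fun k => h3 k.symm, absurd rfl hxy])
  rw [e, sum_insert hn, sum_pair hbc] at this
  omega

theorem m1g_wt4 (h : M1 G W Y U g D B α 3 α' β' 1 I J be) (h4 : D.card = 4)
    (hn : ∀ a ∈ D, ∀ b ∈ D, a ≠ b → ¬M1gL G (Y.iv U 0 (g + 1)) a b) : False := by
  have h1 := m1g_wt h (Subset.refl D) (by omega) hn
  have h2 : ∑ v ∈ D, be v ≤ D.card * 3 :=
    sum_le_card_nsmul D be 3 fun v hv => by have := h.le v hv; omega
  omega

/-- a spanning path on four vertices -/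
theorem m1g_path {a d : V} (h : HP G a d D) (h4 : D.card = 4) :
    ∃ b c, [a, b, c, d].Nodup ∧ (∀ v, v ∈ [a, b, c, d] ↔ v ∈ D) ∧ G.Adj a b ∧ G.Adj b c ∧
      G.Adj c d := by
  obtain ⟨l, h1, h2, h3, h5, es, h6, h7⟩ := CS.cut (gs := 0) h.cs
  have hl : l.length = 4 := by
    rw [← h4, ← List.toFinset_card_of_nodup h3]
    congr 1
    ext v
    rw [List.mem_toFinset, h5]
  match l, hl with
  | [x, b, c, y], _ =>
    obtain rfl : x = a := by simpa using h1
    obtain rfl : y = d := by simpa using h2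
    rw [zero_add] at h6
    have e : lp [x, b, c, y] = s(x, b) ::ₘ s(b, c) ::ₘ s(c, y) ::ₘ 0 := rfl
    rw [← h6, e] at h7
    exact ⟨b, c, h3, h5, h7 s(x, b) (by simp), h7 s(b, c) (by simp), h7 s(c, y) (by simp)⟩

theorem m1_six {R : Finset V} (h : Nu G W Y U g D B α β α' β' 1 I J be R) (h6 : α + β = 6)
    (hc : Mk G D R 0) : Fin2 G Y U g D B 1 1 := by
  obtain ⟨n1, n2, -, n4, n5, -⟩ := h.m1.num
  obtain rfl : β = 3 := by omega
  have h4 : D.card = 4 := by omega
  obtain ⟨ν, hν⟩ : B.Nonempty := card_pos.1 (by omega)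
  have hνD : ν ∉ D := fun k => Finset.disjoint_left.1 h.m1.mid.dDB k hν
  obtain ⟨a, ha, d, hd, hc⟩ := hc
  obtain ⟨b, c, hn, hD, ab, bc, cd⟩ := m1g_path (CS.path hc) h4
  have aD : a ∈ D := (hD a).1 (by simp)
  have bD : b ∈ D := (hD b).1 (by simp)
  have cD : c ∈ D := (hD c).1 (by simp)
  have dD : d ∈ D := (hD d).1 (by simp)
  have hn' := hn
  simp only [List.nodup_cons, List.mem_cons, List.not_mem_nil, or_false, not_or,
    List.nodup_nil, and_true, not_false_eq_true] at hn'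
  obtain ⟨⟨nab, nac, nad⟩, ⟨nbc, nbd⟩, ncd⟩ := hn'
  have pn : ∀ {l : List V}, l.Perm [a, b, c, d] → l.Nodup ∧ ∀ v, v ∈ l ↔ v ∈ D :=
    fun p => ⟨p.nodup_iff.2 hn, fun v => p.mem_iff.trans (hD v)⟩
  have o : ∀ {x y z w : V}, ({x, y, z, w} : Multiset V) = {a, b, c, d} →
      [x, y, z, w].Nodup ∧ ∀ v, v ∈ [x, y, z, w] ↔ v ∈ D :=
    fun p => pn (Multiset.coe_eq_coe.1 p)
  have s4 : ∀ x y z w : V, ({x, y, z, w} : Multiset V) = {x} + {y} + {z} + {w} := by
    intro x y z w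
    simp only [Multiset.insert_eq_cons, ← Multiset.singleton_add, add_assoc]
  have ad : M1gL G B a d := h.lnk a ha d hd nad
  have m := h.m1
  by_contra no
  have la := m.le a aD
  have lb := m.le b bD
  have lc := m.le c cD
  have ld := m.le d dD
  have oa := m.one a aD
  have ob := m.one b bD
  have oc := m.one c cD
  have od := m.one d dD
  have o1 := o (x := d) (y := a) (z := b) (w := c) (by rw [s4, s4]; abel)
  have o2 := o (x := a) (y := d) (z := c) (w := b) (by rw [s4, s4]; abel)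
  have o3 := o (x := b) (y := c) (z := d) (w := a) (by rw [s4, s4]; abel)
  have o4 := o (x := c) (y := d) (z := a) (w := b) (by rw [s4, s4]; abel)
  have o5 := o (x := b) (y := a) (z := d) (w := c) (by rw [s4, s4]; abel)
  have o6 := o (x := d) (y := a) (z := c) (w := b) (by rw [s4, s4]; abel)
  have o7 := o (x := a) (y := d) (z := b) (w := c) (by rw [s4, s4]; abel)
  have uab : ¬M1gL G (Y.iv U 0 (g + 1)) a b := fun k =>
    no (m1g_con m o1.1 o1.2 ad.symm k bc cd)
  have ubc : ¬M1gL G (Y.iv U 0 (g + 1)) b c := fun k =>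
    no (m1g_opp m o1.1 o1.2 ad.symm ab k cd)
  have ucd : ¬M1gL G (Y.iv U 0 (g + 1)) c d := fun k =>
    no (m1g_con m o2.1 o2.2 ad k.symm bc.symm ab.symm)
  have wab := m1g_wt2 m aD bD nab uab
  have wbc := m1g_wt2 m bD cD nbc ubc
  have wcd := m1g_wt2 m cD dD ncd ucd
  have base : CS G D (s(d, a) ::ₘ s(a, c) ::ₘ {s(b, d)}) :=
    (m1g_cs (G := G) o6.1 o6.2).rot.edge bc.symm
  have sac : M1gL G (Y.iv U 0 (g + 1)) a c → be b = 1 ∨ be d = 1 := by
    rintro ⟨z, z1, z2, z3⟩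
    by_contra k
    have k1 : Mk G D R (s(b, d) ::ₘ {s(a, c)}) :=
      ⟨d, hd, a, ha, m6_re base (by
        rw [← Multiset.cons_zero, ← Multiset.cons_zero, Multiset.cons_swap s(a, c)])⟩
    have k2 := h.sum b bD d dD nbd
    exact no (h.fin (k1.bc1 hνD (by rw [Multiset.card_singleton]; omega)) (m.lnk1 z1 z2 z3))
  have sbd : M1gL G (Y.iv U 0 (g + 1)) b d → be a = 1 ∨ be c = 1 := by
    rintro ⟨z, z1, z2, z3⟩
    by_contra k
    have k1 : Mk G D R (s(a, c) ::ₘ {s(b, d)}) := ⟨d, hd, a, ha, base⟩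
    have k2 := h.sum a aD c cD nac
    exact no (h.fin (k1.bc1 hνD (by rw [Multiset.card_singleton]; omega)) (m.lnk1 z1 z2 z3))
  by_cases lac : M1gL G (Y.iv U 0 (g + 1)) a c
  · have t1 := sac lac
    by_cases lbd : M1gL G (Y.iv U 0 (g + 1)) b d
    · have t2 := sbd lbd
      have lad : M1gL G (Y.iv U 0 (g + 1)) a d := by
        by_contra k
        have := m1g_wt2 m aD dD nad k
        omega
      by_cases e1 : G.Adj b d
      · exact no (m1g_con m o6.1 o6.2 ad.symm lac bc.symm e1)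
      by_cases e2 : G.Adj a c
      · exact no (m1g_con m o7.1 o7.2 ad lbd.symm bc e2.symm)
      have d1 := dH_pos dD (Ne.symm nbd) e1
      have d2 := dH_pos aD nac fun k => e2 k.symm
      exact no (m1g_opp m o3.1 o3.2 (m.common bD cD (by omega) (by omega)) cd lad.symm ab)
    · have := m1g_wt3 m bD cD dD nbc nbd ncd ubc lbd ucd
      omega
  · have t1 := m1g_wt3 m aD bD cD nab nac nbc uab lac ubc
    by_cases lbd : M1gL G (Y.iv U 0 (g + 1)) b d
    · have t2 := sbd lbd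
      omega
    · have t2 := m1g_wt3 m bD cD dD nbc nbd ncd ubc lbd ucd
      have lad : M1gL G (Y.iv U 0 (g + 1)) a d := by
        by_contra k
        refine m1g_wt4 m h4 fun x hx y hy hxy => ?_
        rw [← hD] at hx hy
        simp only [List.mem_cons, List.not_mem_nil, or_false] at hx hy
        rcases hx with rfl | rfl | rfl | rfl <;> rcases hy with rfl | rfl | rfl | rfl
        exacts [absurd rfl hxy, uab, lac, k, fun e => uab e.symm, absurd rfl hxy, ubc, lbd,
          fun e => lac e.symm, fun e => ubc e.symm, absurd rfl hxy, ucd, fun e => k e.symm,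
          fun e => lbd e.symm, fun e => ucd e.symm, absurd rfl hxy]
      by_cases e1 : be b ≤ 2
      · exact no (m1g_con m o4.1 o4.2 (m.common cD dD (by omega) (by omega)) lad.symm ab bc)
      by_cases e2 : be c ≤ 2
      · exact no (m1g_con m o5.1 o5.2 (m.common bD aD (by omega) (by omega)) lad cd.symm bc.symm)
      exact no (m1g_opp m o3.1 o3.2 (m.common bD cD (by omega) (by omega)) cd lad.symm ab)

end Pool.Agent.Lib.MP_af3016_co
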