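import Pool.Agent.Lib.MP_af3016_co.C.M1nT

/-! Upper quota one, no vertex of the block with two neighbours in the class. -/

set_option autoImplicit false
set_option linter.unusedSectionVars false

namespace Pool.Agent.Lib.MP_af3016_co

open Finset SimpleGraph

variable {V : Type} [DecidableEq V] {G : SimpleGraph V} {Y : Lay V} {U : Finset V}

variable {W D B : Finset V} {g α β α' β' σ μ : ℕ} {I J : Multiset ℕ}

variable {j : ℕ} {be : V → ℕ} {Y0 : Finset V}

/-- the gaps inside the class, then the link from a removed port -/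
theorem Nm.tail (k : Nm G Y U g D B β α' j be Y0) (h : Mid G W Y U g D B α β α' β' σ μ I J)
    {U' : Finset V} (hU : U' ⊆ U) {r : ℕ} {gs : Multiset (Sym2 V)}
    (hR : Rs G Y U' (g + 1) (gs.card + r)) (hr : 1 ≤ r) {v w : V} (hv : v ∈ Y.iv U j (g + 1))
    (hw : w ∈ D) (h1 : r = 1 → be w ≤ 2)
    (hg : ∀ p q, s(p, q) ∈ gs → p ∈ D ∧ be p + be q ≤ r + 2) :
    Fb G Y U' (g + 1) (gs.card + r) (s(v, w) ::ₘ gs) := by
  rw [← Multiset.singleton_add, add_comm {s(v, w)}]
  exact k.gaps hU hR hg fun U'' a b => k.last h (a.trans hU) b hr hv hw h1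

/-- a vertex of the block sees the class and a port -/
theorem m1n_i (h : Mid G W Y U g D B α β α' β' σ 1 I J) (k : Nm G Y U g D B β α' j be Y0)
    {v p w : V} (hv : v ∈ Y.iv U j (g + 1)) (hp : p ∈ B) (hw : w ∈ D) (a1 : G.Adj p v)
    (a2 : G.Adj w p) : Fin2 G Y U g D B σ 1 := by
  obtain ⟨w', gs, hc, hw', hne, hH, hg⟩ := m1n_ord (G := G) k.two hw
  have k1 := k.key w hw w' hw' hne
  have k2 := (k.df w hw).2.1
  have k3 := (k.df w' hw').2.1
  have cD := h.cD
  have two := k.two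
  have five := h.five
  have ba := h.ba
  have ab := h.ab
  obtain ⟨r, rfl⟩ : ∃ r, σ = 1 + (gs.card + r) := ⟨σ - 1 - gs.card, by omega⟩
  have s1 : ({v} : Finset V) ⊆ Y.iv U j (g + 1) := singleton_subset_iff.2 hv
  refine h.fin1 s1 hp ((hc.ext (h.nBD hp) a2).ext (z := v) (by
      rw [mem_insert, not_or]
      exact ⟨a1.ne.symm, h.nAD hv⟩) a1)
    (fun x => by simp only [mem_insert, mem_singleton]; tauto) (by rw [card_singleton])
    (k.tail h sdiff_subset (k.port.legal (Subset.refl U) h.rs s1 (card_singleton v)) (by omega) hv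
      hw' (fun e => by omega) fun x y e => ⟨(hg x y e).1, ?_⟩)
  have := k.key x (hg x y e).1 y (hg x y e).2.1 (hg x y e).2.2.1
  have := Multiset.card_pos_iff_exists_mem.2 ⟨_, e⟩
  omega

/-- a port with few neighbours in the block -/
theorem m1n_ii (h : Mid G W Y U g D B α β α' β' σ 1 I J) (k : Nm G Y U g D B β α' j be Y0)
    (no : ∀ v ∈ Y.iv U j (g + 1), ∀ p ∈ B, G.Adj v p → p ∈ Y0) {v w w' : V}
    (hv : v ∈ Y.iv U j (g + 1)) (hd : dG G v B ≤ dH G v D + dH G v (Y.iv U j (g + 1)))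
    {gs : Multiset (Sym2 V)} (hc : CS G D (s(w, w') ::ₘ gs)) (hw : w ∈ D) (hw' : w' ∈ D)
    (hne : w ≠ w') (hH : 2 * gs.card ≤ ∑ v ∈ D, dH G v D)
    (hg : ∀ p q, s(p, q) ∈ gs → p ∈ D ∧ q ∈ D ∧ p ≠ q ∧ ¬G.Adj p q) (hb : be w' ≤ be w) :
    Fin2 G Y U g D B σ 1 := by
  have k1 := k.key w hw w' hw' hne
  have k2 := (k.df w hw).2.1
  have k3 := (k.df w' hw').2.1
  have cD := h.cD
  have two := k.two
  have five := h.five
  have ba := h.ba
  have ab := h.ab
  by_cases e0 : σ ≤ gs.card + 2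
  · by_cases e1 : gs.card = 0
    · obtain rfl : σ = 2 := by omega
      refine m1n_clique h k no (by omega) fun p hp q hq hpq => ?_
      by_contra n
      have := add_le_sum (f := fun v => dH G v D) (fun _ _ => Nat.zero_le _) hp hq hpq
      have := dH_pos (G := G) hq hpq.symm n
      have := dH_pos (G := G) hp hpq fun a => n a.symm
      omega
    · obtain ⟨e, he⟩ := Multiset.card_pos_iff_exists_mem.1 (Nat.pos_of_ne_zero e1)
      induction e using Sym2.ind with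
      | _ p q =>
      obtain ⟨b1, b2, b3, b4⟩ := hg p q he
      obtain rfl : σ = 3 := by omega
      obtain rfl : α = 3 := by omega
      obtain rfl : β = 3 := by omega
      obtain rfl : {p, q} = D := eq_of_subset_of_card_le
        (insert_subset b1 (singleton_subset_iff.2 b2)) (by rw [card_pair b3]; omega)
      exact m1n_pair h k no b4
  obtain ⟨p, hp, a, hp0, hpD⟩ := k.up h hw
  have hpA : dG G p (Y.iv U j (g + 1)) = 0 := dG_eq_zero.2 fun z hz b => hp0 (no z hz p hp b.symm)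
  have s1 : ({v} : Finset V) ⊆ Y.iv U j (g + 1) := singleton_subset_iff.2 hv
  obtain ⟨r, rfl⟩ : ∃ r, σ = 1 + (1 + (gs.card + r)) := ⟨σ - 2 - gs.card, by omega⟩
  refine h.fin1 s1 hp (m1n_gad h hc hv hp a)
    (fun x => by simp only [mem_insert, mem_singleton]; tauto) (by rw [card_singleton])
    (Fb.cons (fun _ _ => h.low_zp (k := 0) k.port s1 (Subset.refl _)
      (k.port.legal (Subset.refl U) h.rs s1 (card_singleton v)) (by rw [card_singleton]; omega) hv
      hp (by omega)) fun U' l1 l2 => ?_)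
  have hU := l1.trans sdiff_subset
  by_cases e2 : gs.card = 0 ∨ 4 + β ≤ D.card + α + gs.card
  · refine k.tail h hU l2 (by omega) hv hw' (fun e => by omega) fun x y e => ⟨(hg x y e).1, ?_⟩
    have := k.key x (hg x y e).1 y (hg x y e).2.1 (hg x y e).2.2.1
    have := Multiset.card_pos_iff_exists_mem.2 ⟨_, e⟩
    omega
  obtain ⟨e, rfl⟩ := Multiset.card_eq_one.1 (show gs.card = 1 by omega)
  induction e using Sym2.ind with
  | _ x y =>
  obtain ⟨b1, b2, b3, -⟩ := hg x y (Multiset.mem_singleton_self _)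
  have k4 := k.key x b1 y b2 b3
  have k5 := k.df x b1
  have k6 := k.df y b2
  have lo := h.lo
  rw [Multiset.card_singleton] at *
  exact k.wl h hU l2 hv hw' (by omega) fun U'' m1 m2 =>
    Fb.all m2 h.ord (by omega) (k5.1.sub (m1.trans hU)) (k6.1.sub (m1.trans hU)) (by omega)
      (by omega) (fun e => by omega) fun e => by omega

/-- a vertex of the block sees two ports -/
theorem m1n_a (h : Mid G W Y U g D B α β α' β' σ 1 I J) (k : Nm G Y U g D B β α' j be Y0)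
    (no : ∀ v ∈ Y.iv U j (g + 1), ∀ p ∈ B, G.Adj v p → p ∈ Y0)
    (hd : ∀ v ∈ Y.iv U j (g + 1), dH G v D + 1 ≤ dG G v B) {v v' p w w' : V}
    (hv : v ∈ Y.iv U j (g + 1)) (hv' : v' ∈ Y.iv U j (g + 1)) (hp : p ∈ B) (hvv : v ≠ v')
    (a : G.Adj v p) (a' : G.Adj v' p)
    {gs : Multiset (Sym2 V)} (hc : CS G D (s(w, w') ::ₘ gs)) (hw : w ∈ D) (hw' : w' ∈ D)
    (hne : w ≠ w') (hH : 2 * gs.card ≤ ∑ v ∈ D, dH G v D)
    (hg : ∀ p q, s(p, q) ∈ gs → p ∈ D ∧ q ∈ D ∧ p ≠ q ∧ ¬G.Adj p q) (hb : be w ≤ be w') :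
    Fin2 G Y U g D B σ 1 := by
  have k1 := k.key w hw w' hw' hne
  have k2 := (k.df w hw).2.1
  have k3 := (k.df w' hw').2.1
  have cD := h.cD
  have two := k.two
  have five := h.five
  have ba := h.ba
  have ab := h.ab
  have hy : 1 ≤ Y0.card := card_pos.2 ⟨p, no v hv p hp a⟩
  have all : Y0.card = 1 → ∀ z ∈ Y.iv U j (g + 1), ∀ x ∈ D, G.Adj z x := fun e z hz x hx => by
    have := hd z hz
    have := dG_le (no z hz)
    exact dH_eq_zero.1 (show dH G z D = 0 by omega) x hx fun e => h.nAD hz (e ▸ hx)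
  obtain ⟨r, rfl⟩ : ∃ r, σ = 2 + (gs.card + r) := ⟨σ - 2 - gs.card, by omega⟩
  by_cases e3 : 3 ≤ r
  · obtain ⟨r, rfl⟩ : ∃ r', r = 1 + r' := ⟨r - 1, by omega⟩
    exact m1n_a0 h k hy hv hv' hp hvv a a' hc hH hg fun U' l1 l2 =>
      k.wl h l1 l2 hv hw (by omega) fun U'' m1 m2 =>
        k.last h (m1.trans l1) m2 (by omega) hv' hw' fun e => by omega
  by_cases e2 : r = 2
  · obtain rfl : r = 1 + 1 := e2
    exact m1n_a0 h k hy hv hv' hp hvv a a' hc.flip hH hg fun U' l1 l2 =>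
      k.wl h l1 l2 hv hw' (by omega) fun U'' m1 m2 =>
        k.last h (m1.trans l1) m2 (by omega) hv' hw fun e => by omega
  by_cases e0 : r = 0
  · subst e0
    exact m1n_a0 h k hy hv hv' hp hvv a a' hc hH hg fun U' l1 l2 =>
      Fb.edge (all (by omega) v hv w hw) (Fb.adj l2 (all (by omega) v' hv' w' hw'))
  obtain rfl : r = 1 := by omega
  by_cases e1 : Y0.card = 1
  · exact m1n_a0 h k hy hv hv' hp hvv a a' hc.flip hH hg fun U' l1 l2 =>
      Fb.edge (all e1 v hv w' hw') (k.last h l1 l2 le_rfl hv' hw fun e => by omega)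
  by_cases b1 : G.Adj v w
  · exact m1n_a0 h k hy hv hv' hp hvv a a' hc hH hg fun U' l1 l2 =>
      Fb.edge b1 (k.last h l1 l2 le_rfl hv' hw' fun e => by omega)
  by_cases b2 : G.Adj v w'
  · exact m1n_a0 h k hy hv hv' hp hvv a a' hc.flip hH hg fun U' l1 l2 =>
      Fb.edge b2 (k.last h l1 l2 le_rfl hv' hw fun e => by omega)
  obtain ⟨v1, hv1, b3⟩ := k.nbr h hw (by omega)
  obtain ⟨p1, hp1, b4⟩ := exists_adj (G := G) (a := v1) (S := B) (by have := hd v1 hv1; omega)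
  have b5 : G.Adj v p1 := by
    by_contra n
    have d1 := dG_le (G := G) (a := v) (S := B) (R := Y0.erase p1) fun q hq b =>
      mem_erase.2 ⟨fun e => n (e ▸ b), no v hv q hq b⟩
    have d2 := card_erase_add_one (no v1 hv1 p1 hp1 b4)
    have d3 := dH_mono (G := G) (a := v) (insert_subset hw (singleton_subset_iff.2 hw'))
    have d4 := dH_eq_card (G := G) (a := v) (S := {w, w'}) fun x hx => by
      rcases mem_insert.1 hx with rfl | hx
      · exact ⟨fun e => h.nAD hv (e ▸ hw), b1⟩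
      · rw [mem_singleton.1 hx]
        exact ⟨fun e => h.nAD hv (e ▸ hw'), b2⟩
    rw [card_pair hne] at d4
    have := hd v hv
    omega
  exact m1n_a0 h k hy hv1 hv hp1 (fun e => b1 (e ▸ b3.symm)) b4 b5 hc hH hg fun U' l1 l2 =>
    Fb.edge b3.symm (k.last h l1 l2 le_rfl hv hw' fun e => by omega)

/-- the ports have disjoint neighbourhoods in the block -/
theorem m1n_b (h : Mid G W Y U g D B α β α' β' σ 1 I J) (k : Nm G Y U g D B β α' j be Y0)
    (no : ∀ v ∈ Y.iv U j (g + 1), ∀ p ∈ B, G.Adj v p → p ∈ Y0)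
    (hd : ∀ v ∈ Y.iv U j (g + 1), 1 ≤ dG G v B)
    (h1 : ∀ p ∈ B, dG G p (Y.iv U j (g + 1)) ≤ 1) : Fin2 G Y U g D B σ 1 := by
  have s0 : Y0 ⊆ B := fun p hp => ((k.y0 p).1 hp).1
  have a1 := ab_sum (G := G) (S := Y.iv U j (g + 1)) (L := B) (T := B \ Y0) sdiff_subset h1
    fun p hp => dG_eq_zero.2 fun z hz b => (mem_sdiff.1 hp).2 (no z hz p (mem_sdiff.1 hp).1 b.symm)
  have a2 := card_sdiff_add_card_eq_card s0
  have a3 : (Y.iv U j (g + 1)).card • 1 ≤ ∑ v ∈ Y.iv U j (g + 1), dG G v B :=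
    card_nsmul_le_sum _ _ 1 hd
  have a4 := h.port_three k.port
  obtain ⟨w, hw⟩ : D.Nonempty := card_pos.1 (by have := k.two; omega)
  obtain ⟨w', gs, hc, hw', hne, hH, hg⟩ := m1n_ord (G := G) k.two hw
  have k1 := k.key w hw w' hw' hne
  have k2 := (k.df w hw).2.1
  have k3 := (k.df w' hw').2.1
  have cD := h.cD
  have two := k.two
  have five := h.five
  have ba := h.ba
  have ab := h.ab
  simp only [smul_eq_mul] at a3
  obtain ⟨v, hv, a5⟩ : ∃ v ∈ Y.iv U j (g + 1), dG G v B ≤ 1 := by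
    by_contra n
    push Not at n
    have a6 : (Y.iv U j (g + 1)).card • 2 ≤ ∑ v ∈ Y.iv U j (g + 1), dG G v B :=
      card_nsmul_le_sum _ _ 2 n
    simp only [smul_eq_mul] at a6
    omega
  obtain ⟨p, hp, a, hp0, hpD⟩ := k.up h hw
  have hpA : dG G p (Y.iv U j (g + 1)) = 0 := dG_eq_zero.2 fun z hz b => hp0 (no z hz p hp b.symm)
  have a7 := dG_add_dH_out (G := G) (h.nAB hv)
  have a8 := dG_add_dH_out (G := G) (a := p) (S := Y.iv U j (g + 1)) fun e => h.nAB e hp
  have s1 : ({v} : Finset V) ⊆ Y.iv U j (g + 1) := singleton_subset_iff.2 hv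
  obtain ⟨r, rfl⟩ : ∃ r, σ = 1 + (2 + (gs.card + r)) := ⟨σ - 3 - gs.card, by omega⟩
  refine h.fin1 s1 hp (m1n_gad h hc hv hp a)
    (fun x => by simp only [mem_insert, mem_singleton]; tauto) (by rw [card_singleton])
    (Fb.cons (fun _ _ => h.low_two k.port s1 (Subset.refl _)
      (k.port.legal (Subset.refl U) h.rs s1 (card_singleton v)) (by rw [card_singleton]; omega)
      (Or.inl hv) (Or.inr (Or.inr hp)) (by omega) (Or.inr (by omega))) fun U' l1 l2 =>
      k.tail h (l1.trans sdiff_subset) l2 (by omega) hv hw' (fun e => by omega)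
        fun x y e => ⟨(hg x y e).1, ?_⟩)
  have := k.key x (hg x y e).1 y (hg x y e).2.1 (hg x y e).2.2.1
  omega

theorem mid_mu1_non (h : Mid G W Y U g D B α β α' β' σ 1 I J) (hN : 2 ≤ D.card)
    (hm : ∀ p ∈ B, dG G p D ≤ 1) : Fin2 G Y U g D B σ 1 := by
  obtain ⟨j, be, Y0, k⟩ := h.nm hN hm
  by_cases c1 : ∃ v ∈ Y.iv U j (g + 1), ∃ p ∈ B, G.Adj v p ∧ p ∉ Y0
  · obtain ⟨v, hv, p, hp, a, n⟩ := c1
    obtain ⟨w, hw, b⟩ := exists_adj (G := G) (a := p) (S := D)
      (Nat.pos_of_ne_zero fun e => n ((k.y0 p).2 ⟨hp, e⟩))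
    exact m1n_i h k hv hp hw a.symm b.symm
  have no : ∀ v ∈ Y.iv U j (g + 1), ∀ p ∈ B, G.Adj v p → p ∈ Y0 := fun v hv p hp a => by
    by_contra n
    exact c1 ⟨v, hv, p, hp, a, n⟩
  obtain ⟨w, hw⟩ : D.Nonempty := card_pos.1 (by omega)
  obtain ⟨w', gs, hc, hw', hne, hH, hg⟩ := m1n_ord (G := G) hN hw
  by_cases c2 : ∃ v ∈ Y.iv U j (g + 1), dG G v B ≤ dH G v D + dH G v (Y.iv U j (g + 1))
  · obtain ⟨v, hv, hd⟩ := c2
    rcases le_total (be w') (be w) with b | b
    · exact m1n_ii h k no hv hd hc hw hw' hne hH hg b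
    · exact m1n_ii h k no hv hd hc.flip hw' hw hne.symm hH hg b
  push Not at c2
  by_cases c3 : ∀ p ∈ B, dG G p (Y.iv U j (g + 1)) ≤ 1
  · exact m1n_b h k no (fun v hv => by have := c2 v hv; omega) c3
  push Not at c3
  obtain ⟨p, hp, c4⟩ := c3
  obtain ⟨v, hv, v', hv', hvv, a, a'⟩ := ab_two c4
  have hd : ∀ v ∈ Y.iv U j (g + 1), dH G v D + 1 ≤ dG G v B := fun v hv => by
    have := c2 v hv
    omega
  rcases le_total (be w) (be w') with b | b
  · exact m1n_a h k no hd hv hv' hp hvv a.symm a'.symm hc hw hw' hne hH hg b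
  · exact m1n_a h k no hd hv hv' hp hvv a.symm a'.symm hc.flip hw' hw hne.symm hH hg b

end Pool.Agent.Lib.MP_af3016_co
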