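import Pool.Agent.Lib.MP_af3016_co.C.Two2
import Pool.Agent.Lib.MP_af3016_co.C.MidAB

/-! Upper quota one, no vertex of the block with two neighbours in the class: tools. -/

set_option autoImplicit false
set_option linter.unusedSectionVars false

namespace Pool.Agent.Lib.MP_af3016_co

open Finset SimpleGraph

variable {V : Type} [DecidableEq V] {G : SimpleGraph V} {Y : Lay V} {U : Finset V}

variable {W D B : Finset V} {g α β α' β' σ μ : ℕ} {I J : Multiset ℕ}

/-- the data of the case in which every vertex of the block has at most one neighbour in `D` -/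
structure Nm (G : SimpleGraph V) (Y : Lay V) (U : Finset V) (g : ℕ) (D B : Finset V)
    (β α' j : ℕ) (be : V → ℕ) (Y0 : Finset V) : Prop where
  port : Port Y U (g + 1) j
  two : 2 ≤ D.card
  df : ∀ w ∈ D, Df G Y U (g + 1) w (be w) ∧ 1 ≤ be w ∧ be w + dH G w D ≤ β ∧
    α' + 1 + dH G w D + be w ≤ dG G w B + β
  one : ∀ p ∈ B, dG G p D ≤ 1
  y0 : ∀ p, p ∈ Y0 ↔ p ∈ B ∧ dG G p D = 0
  sum : ∑ w ∈ D, dG G w B + Y0.card ≤ B.card
  key : ∀ p ∈ D, ∀ q ∈ D, p ≠ q →
    be p + be q + ∑ w ∈ D, dH G w D + Y0.card + 2 * D.card ≤ 2 * β + 3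

variable {j : ℕ} {be : V → ℕ} {Y0 : Finset V}

theorem Mid.nm (h : Mid G W Y U g D B α β α' β' σ 1 I J) (hN : 2 ≤ D.card)
    (hm : ∀ p ∈ B, dG G p D ≤ 1) : ∃ j be Y0, Nm G Y U g D B β α' j be Y0 := by
  obtain ⟨j, P⟩ := exists_port h.rs h.sg
  obtain ⟨al, be, hd⟩ := h.defects
  have cB := h.cB
  have df : ∀ w ∈ D, Df G Y U (g + 1) w (be w) ∧ 1 ≤ be w ∧ be w + dH G w D ≤ β ∧
      α' + 1 + dH G w D + be w ≤ dG G w B + β := fun w hw => by
    obtain ⟨d1, d2, d3, d4, d5, d6, d7⟩ := hd w hw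
    have := flat_df.1 d1
    have := dG_add_dH_out (G := G) (Finset.disjoint_left.1 h.dDB hw)
    exact ⟨d2, d4, d6, by omega⟩
  have hs := ab_sum (G := G) (S := D) (L := B) (T := B.filter fun p => dG G p D = 0)
    (filter_subset _ _) hm fun z hz => (mem_filter.1 hz).2
  refine ⟨j, be, B.filter fun p => dG G p D = 0, P, hN, df, hm, fun p => mem_filter, hs,
    fun p hp q hq hpq => ?_⟩
  have a1 : ∑ w ∈ D, (α' + 1 + dH G w D + be w) ≤ ∑ w ∈ D, (dG G w B + β) :=
    sum_le_sum fun w hw => (df w hw).2.2.2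
  simp only [sum_add_distrib, sum_const, smul_eq_mul] at a1
  have s1 : ({p, q} : Finset V) ⊆ D := insert_subset hp (singleton_subset_iff.2 hq)
  have a2 := sum_sdiff (f := be) s1
  rw [sum_pair hpq] at a2
  have a3 : (D \ {p, q}).card • 1 ≤ ∑ w ∈ D \ {p, q}, be w :=
    card_nsmul_le_sum (D \ {p, q}) be 1 fun w hw => (df w (mem_sdiff.1 hw).1).2.1
  have a4 := card_sdiff_add_card_eq_card s1
  rw [card_pair hpq] at a4
  simp only [smul_eq_mul] at a3
  obtain ⟨x, rfl⟩ : ∃ x, α' = β + x := ⟨α' - β, by have := h.up; have := h.ba; omega⟩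
  have a5 := h.sJ.le
  have a6 := Nat.mul_le_mul_right x hN
  rw [Nat.mul_add] at a1
  omega

theorem m1n_list : ∀ (l : List V) (gs : Multiset (Sym2 V)), l.Nodup → gs ≤ lp l →
    (∀ p q, s(p, q) ∈ gs → ¬G.Adj p q) → 2 * gs.card ≤ ∑ v ∈ l.toFinset, dH G v l.toFinset
  | [], gs, _, h, _ => by
    obtain rfl : gs = 0 := Multiset.le_zero.1 h
    simp
  | [x], gs, _, h, _ => by
    obtain rfl : gs = 0 := Multiset.le_zero.1 h
    simp
  | x :: y :: t, gs, hl, h, hn => by
    rw [List.nodup_cons] at hl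
    have hx : x ∉ (y :: t).toFinset := fun k => hl.1 (List.mem_toFinset.1 k)
    have hy : y ∈ (y :: t).toFinset := by simp
    rw [cyc_lp_cons2] at h
    rw [List.toFinset_cons, sum_insert hx]
    have mono : ∀ v ∈ (y :: t).toFinset,
        dH G v (y :: t).toFinset ≤ dH G v (insert x (y :: t).toFinset) :=
      fun v _ => dH_mono (subset_insert _ _)
    by_cases e : s(x, y) ∈ gs
    · obtain ⟨gs', rfl⟩ := Multiset.exists_cons_of_mem e
      have ih := m1n_list (y :: t) gs' hl.2 ((Multiset.cons_le_cons_iff _).1 h)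
        fun p q k => hn p q (Multiset.mem_cons_of_mem k)
      have hxy : x ≠ y := fun k => hx (k ▸ hy)
      have n1 := hn x y e
      have a1 := dH_pos (G := G) (mem_insert_of_mem (b := x) hy) hxy.symm n1
      have a2 : ∑ v ∈ (y :: t).toFinset, dH G v (y :: t).toFinset <
          ∑ v ∈ (y :: t).toFinset, dH G v (insert x (y :: t).toFinset) := by
        refine sum_lt_sum mono ⟨y, hy, ?_⟩
        rw [insert_eq, dH_union (disjoint_singleton_left.2 hx)]
        have := dH_pos (G := G) (mem_singleton_self x) hxy fun k => n1 k.symm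
        omega
      rw [Multiset.card_cons]
      omega
    · have ih := m1n_list (y :: t) gs hl.2 ((Multiset.le_cons_of_notMem e).1 h) hn
      have := sum_le_sum mono
      omega

/-- a linear order with a given end and few gaps -/
theorem m1n_ord (hN : 2 ≤ D.card) {w : V} (hw : w ∈ D) :
    ∃ w' gs, CS G D (s(w, w') ::ₘ gs) ∧ w' ∈ D ∧ w ≠ w' ∧ 2 * gs.card ≤ ∑ v ∈ D, dH G v D ∧
      ∀ p q, s(p, q) ∈ gs → p ∈ D ∧ q ∈ D ∧ p ≠ q ∧ ¬G.Adj p q := by
  obtain ⟨w', gs, h1, h2, -⟩ := plan1 (G := G) hw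
  refine ⟨w', gs, h1, (h1.mem (Multiset.mem_cons_self _ _)).2,
    ab_ne h1 hN (Multiset.mem_cons_self _ _), ?_, fun p q k => ?_⟩
  · obtain ⟨l, -, -, k1, k2, es, k3, -⟩ := h1.cut
    have e : l.toFinset = D := Finset.ext fun v => by rw [List.mem_toFinset, k2]
    have := m1n_list (G := G) l gs k1 (k3 ▸ Multiset.le_add_right _ _) fun p q k => (h2 p q k).1
    rwa [e] at this
  · have k' := Multiset.mem_cons_of_mem (b := s(w, w')) k
    exact ⟨(h1.mem k').1, (h1.mem k').2, ab_ne h1 hN k', (h2 p q k).1⟩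

/-- a common neighbour: the defects matter only below the ports -/
theorem Port.one {m w e e' : ℕ} {u u' : V} (P : Port Y U m j) {U' : Finset V} (hU : U' ⊆ U)
    (h : Rs G Y U' m (1 + w)) (hu : u ∉ Y.iv U' 0 m) (hu' : u' ∉ Y.iv U' 0 m)
    (d : ∀ t ≤ j, dH G u (Y.iv U' t m) + 1 + Y.B t ≤ Y.B m + e)
    (d' : ∀ t ≤ j, dH G u' (Y.iv U' t m) + 1 + Y.B t ≤ Y.B m + e') (he : e + e' ≤ w + 2) :
    Lnk G Y U' m 1 w u u' := by
  classical
  obtain ⟨t, ht, hmax⟩ := exists_max_image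
    ((range (m + 1)).filter fun t => (Y.iv U' 0 t).card = Y.A t + Y.B t) id
    ⟨0, by simp [Y.iv_self, Y.A_zero, Y.B_zero]⟩
  rw [mem_filter, mem_range] at ht
  have htop := h.top
  have htm : t < m := by
    rcases (Nat.lt_succ_iff.1 ht.1).lt_or_eq with g | g
    · exact g
    · have := ht.2
      rw [g] at this
      omega
  have htj : t ≤ j := by
    by_contra k
    have := P.slack hU h t (by omega) htm
    omega
  have hsub : Y.iv U' t m ⊆ Y.iv U' 0 m := Lay.iv_mono (Subset.refl U') (Nat.zero_le t) (le_refl m)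
  have h1 := dG_add_dH_out (G := G) (a := u) (S := Y.iv U' t m) fun g => hu (hsub g)
  have h2 := dG_add_dH_out (G := G) (a := u') (S := Y.iv U' t m) fun g => hu' (hsub g)
  have h3 := d t htj
  have h4 := d' t htj
  have h5 := Y.card_iv U' (Nat.zero_le t) htm.le
  have h6 := h.AB htm.le (le_refl m)
  have h7 := ht.2
  obtain ⟨z, hz, g1, g2⟩ := exists_common (G := G) (a := u) (b := u') (S := Y.iv U' t m) (by omega)
  refine ⟨z, z, {z}, HP.single z, g1, g2, singleton_subset_iff.2 (hsub hz), card_singleton z,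
    h.remove_iv (singleton_subset_iff.2 hz) (card_singleton z) fun l hl hlm => ?_⟩
  have k1 := h.leg l hlm.le
  by_contra k2
  have k3 := hmax l (by rw [mem_filter, mem_range]; exact ⟨by omega, by omega⟩)
  simp only [id] at k3
  omega

/-- a common neighbour of a removed port and a vertex of small defect -/
theorem Port.wl {m s w e : ℕ} {v u : V} (P : Port Y U m j) (hR : Rs G Y U m s) {U' : Finset V}
    (hU : U' ⊆ U) (h : Rs G Y U' m (1 + w)) (hv : v ∈ Y.iv U j m) (hv' : v ∉ Y.iv U' 0 m)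
    (hu : u ∉ Y.iv U' 0 m) (d : Df G Y U m u e) (he : e ≤ w + 2) : Lnk G Y U' m 1 w v u :=
  P.one (e := 0) (e' := e) hU h hv' hu (fun t ht => by
    have := P.hap hR hv t ht
    have := dH_mono (G := G) (a := v) (Lay.iv_mono (Y := Y) hU (le_refl t) (le_refl m))
    omega) (fun t ht => (d.sub hU) t (ht.trans_lt P.lt)) (by omega)

/-- the last link, from a removed port to a vertex of the class -/
theorem Nm.last (k : Nm G Y U g D B β α' j be Y0) (h : Mid G W Y U g D B α β α' β' σ μ I J)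
    {U' : Finset V} (hU : U' ⊆ U) {r : ℕ} (hR : Rs G Y U' (g + 1) r) (hr : 1 ≤ r) {v w : V}
    (hv : v ∈ Y.iv U j (g + 1)) (hw : w ∈ D) (h1 : r = 1 → be w ≤ 2) :
    Fb G Y U' (g + 1) r {s(v, w)} := by
  obtain ⟨d1, d2, d3, -⟩ := k.df w hw
  by_cases e : r = 1
  · subst e
    exact Fb.one fun a b => k.port.wl (w := 0) h.rs hU hR hv a b d1 (h1 rfl)
  have := h.lo
  have := h.ba
  exact Fb.all hR h.ord hr ((k.port.df h.rs hv).sub hU) (d1.sub hU) (by omega) (by omega)
    (fun a => absurd a e) fun _ => Or.inl (by omega)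

/-- one vertex between a removed port and a vertex of the class, then the other gaps -/
theorem Nm.wl (k : Nm G Y U g D B β α' j be Y0) (h : Mid G W Y U g D B α β α' β' σ μ I J)
    {U' : Finset V} (hU : U' ⊆ U) {r : ℕ} (hR : Rs G Y U' (g + 1) (1 + r)) {v w : V}
    (hv : v ∈ Y.iv U j (g + 1)) (hw : w ∈ D) (h1 : be w ≤ r + 2) {gs : Multiset (Sym2 V)}
    (f : ∀ U'', U'' ⊆ U' → Rs G Y U'' (g + 1) r → Fb G Y U'' (g + 1) r gs) :
    Fb G Y U' (g + 1) (1 + r) (s(v, w) ::ₘ gs) :=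
  Fb.cons (fun a b => k.port.wl h.rs hU hR hv a b (k.df w hw).1 h1) f

/-- the gaps inside the class get one vertex each -/
theorem Nm.gaps (k : Nm G Y U g D B β α' j be Y0) {U' : Finset V} (hU : U' ⊆ U) {r : ℕ}
    {gs gs' : Multiset (Sym2 V)} (hR : Rs G Y U' (g + 1) (gs.card + r))
    (hg : ∀ p q, s(p, q) ∈ gs → p ∈ D ∧ be p + be q ≤ r + 2)
    (f : ∀ U'', U'' ⊆ U' → Rs G Y U'' (g + 1) r → Fb G Y U'' (g + 1) r gs') :
    Fb G Y U' (g + 1) (gs.card + r) (gs + gs') :=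
  Fb.ones (e := be) hR (fun p q a => ⟨(k.df p (hg p q a).1).1.sub hU, (hg p q a).2⟩) f

/-- the finish with a single vertex of the block -/
theorem Mid.fin1 (h : Mid G W Y U g D B α β α' β' σ 1 I J) {Z0 X : Finset V} {p : V}
    {gs : Multiset (Sym2 V)} {s : ℕ} (h1 : Z0 ⊆ Y.iv U j (g + 1)) (hp : p ∈ B) (hc : CS G X gs)
    (hX : ∀ v, v ∈ X ↔ v ∈ D ∨ v ∈ Z0 ∨ v = p) (c1 : Z0.card + s = σ)
    (k1 : Fb G Y (U \ Z0) (g + 1) s gs) : Fin2 G Y U g D B σ 1 :=
  h.two (Z0' := {p}) (gs' := 0) (u := 0)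
    (h1.trans (Lay.iv_mono (Subset.refl U) (Nat.zero_le j) le_rfl)) (singleton_subset_iff.2 hp)
    (by
      rw [add_zero]
      exact hc.set fun v => by rw [hX, mem_union, mem_union, mem_singleton, or_assoc])
    c1 (by simp) k1 (Fb.zero (h.rsB' (singleton_subset_iff.2 hp) (by simp)))

/-- a path on two vertices below the ports -/
theorem Mid.low_two (h : Mid G W Y U g D B α β α' β' σ μ I J) {w : ℕ}
    (P : Port Y U (g + 1) j) {Z0 U' : Finset V} (hZ : Z0 ⊆ Y.iv U j (g + 1)) (hU : U' ⊆ U \ Z0)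
    (hR : Rs G Y U' (g + 1) (2 + w)) (hk : Z0.card + 2 + w = σ) {x y : V}
    (hx : x ∈ Y.iv U j (g + 1) ∨ x ∈ D ∨ x ∈ B) (hy : y ∈ Y.iv U j (g + 1) ∨ y ∈ D ∨ y ∈ B)
    (hc : (Y.iv U j (g + 1)).card + D.card + B.card ≤
      2 + (dH G x (Y.iv U j (g + 1)) + dH G x D + dH G x B) +
        (dH G y (Y.iv U j (g + 1)) + dH G y D + dH G y B))
    (hs : (Y.iv U j (g + 1)).card + D.card + B.card ≤
      (dH G x (Y.iv U j (g + 1)) + dH G x D + dH G x B) +
        (dH G y (Y.iv U j (g + 1)) + dH G y D + dH G y B) ∨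
      (Y.iv U j (g + 1)).card + 2 ≤ α + β + σ) : Lnk G Y U' (g + 1) 2 w x y := by
  have hU' : U' ⊆ U := hU.trans sdiff_subset
  obtain ⟨e, e', s', h1, h2, h3, h4, h5, h6⟩ := h.pt2 P.lt.le hx hy
  obtain ⟨s'', k1⟩ := hR.low P.lt.le
  have c1 := Y.card_iv U (Nat.zero_le j) P.lt.le
  have c2 := Y.card_iv U' (Nat.zero_le j) P.lt.le
  have c3 := card_le_card (Lay.iv_mono (Y := Y) hU (le_refl j) (le_refl (g + 1)))
  rw [Y.iv_sdiff] at c3
  have c4 := card_sdiff_add_card_eq_card hZ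
  have c5 := h.rs.top
  have c6 := hR.top
  have c7 := h1.top
  have c8 := k1.top
  have hj : j ≤ g := Nat.lt_succ_iff.1 P.lt
  have c9 := Y.A_mono hj
  have c10 := Y.B_mono hj
  have c11 := Y.A_succ g
  have c12 := Y.B_succ g
  have c13 := h.lo
  obtain ⟨w', rfl⟩ : ∃ w', s'' = 2 + w' := ⟨s'' - 2, by omega⟩
  have key : ∀ v, v ∈ Y.iv U j (g + 1) ∨ v ∈ D ∨ v ∈ B → v ∉ Y.iv U' 0 j := fun v hv k => by
    have k' := Lay.iv_mono (Y := Y) hU' (le_refl 0) P.lt.le k
    rcases hv with hv | hv | hv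
    · rw [Lay.mem_iv] at hv k
      omega
    · exact Finset.disjoint_left.1 h.dD hv k'
    · exact Finset.disjoint_left.1 h.dB hv k'
  refine P.lift (w' := w') hU' hR ?_
  obtain ⟨i, rfl⟩ : ∃ i, j = i + 1 := ⟨j - 1, by
    by_contra k
    obtain rfl : j = 0 := by omega
    have := k1.zero
    omega⟩
  have a1 := (h.low i (by omega)).1
  have a2 := h.five
  have a3 := h.ba
  have ho := h.ord.mono P.lt.le
  by_cases c : e' ≤ e
  · exact link_edge k1 ho le_rfl (key x hx) (key y hy) (h2.sub hU') (h3.sub hU') h5 (by omega)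
      (by omega)
  · exact (link_edge k1 ho le_rfl (key y hy) (key x hx) (h3.sub hU') (h2.sub hU') h4 (by omega)
      (by omega)).symm

/-- a vertex of the class with defect one has a neighbour among the ports -/
theorem Nm.nbr (k : Nm G Y U g D B β α' j be Y0) (h : Mid G W Y U g D B α β α' β' σ μ I J) {w : V}
    (hw : w ∈ D) (h1 : be w = 1) : ∃ v ∈ Y.iv U j (g + 1), G.Adj w v := by
  have a1 := (k.df w hw).1 j k.port.lt
  have a2 := k.port.big
  have a3 := dG_add_dH_out (G := G) (a := w) (S := Y.iv U j (g + 1)) fun e =>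
    Finset.disjoint_left.1 h.dD hw (Lay.iv_mono (Subset.refl U) (Nat.zero_le j) le_rfl e)
  exact exists_adj (by omega)

/-- a vertex of the class has a neighbour in the block, which sees no other vertex of the class -/
theorem Nm.up (k : Nm G Y U g D B β α' j be Y0) (h : Mid G W Y U g D B α β α' β' σ μ I J) {w : V}
    (hw : w ∈ D) : ∃ p ∈ B, G.Adj w p ∧ p ∉ Y0 ∧ dH G p D + 1 = D.card := by
  have a1 := k.df w hw
  have a2 := h.up
  have a3 := h.ba
  obtain ⟨p, hp, a⟩ := exists_adj (G := G) (a := w) (S := B) (by omega)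
  have a4 := le_dG (G := G) (a := p) (S := D) (R := {w}) fun b hb => by
    rw [mem_singleton.1 hb]
    exact ⟨hw, a.symm⟩
  rw [card_singleton] at a4
  have a5 := k.one p hp
  have a6 := dG_add_dH_out (G := G) (a := p) (S := D) fun e => Finset.disjoint_left.1 h.dDB e hp
  exact ⟨p, hp, a, fun e => by have := ((k.y0 p).1 e).2; omega, by omega⟩

theorem Mid.nAD (h : Mid G W Y U g D B α β α' β' σ μ I J) {v : V} (hv : v ∈ Y.iv U j (g + 1)) :
    v ∉ D := fun e =>
  Finset.disjoint_left.1 h.dD e (Lay.iv_mono (Subset.refl U) (Nat.zero_le j) le_rfl hv)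

theorem Mid.nAB (h : Mid G W Y U g D B α β α' β' σ μ I J) {v : V} (hv : v ∈ Y.iv U j (g + 1)) :
    v ∉ B := fun e =>
  Finset.disjoint_left.1 h.dB e (Lay.iv_mono (Subset.refl U) (Nat.zero_le j) le_rfl hv)

theorem Mid.nBD (h : Mid G W Y U g D B α β α' β' σ μ I J) {p : V} (hp : p ∈ B) : p ∉ D := fun e =>
  Finset.disjoint_left.1 h.dDB e hp

/-- a port and a vertex of the block are put into the closing gap -/
theorem m1n_gad (h : Mid G W Y U g D B α β α' β' σ μ I J) {v p w w' : V} {gs : Multiset (Sym2 V)}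
    (hc : CS G D (s(w, w') ::ₘ gs)) (hv : v ∈ Y.iv U j (g + 1)) (hp : p ∈ B) (a : G.Adj w p) :
    CS G (insert v (insert p D)) (s(v, p) ::ₘ s(v, w') ::ₘ gs) :=
  ((hc.ext (h.nBD hp) a).ins (z := v) (by
    rw [mem_insert, not_or]
    exact ⟨fun e => h.nAB hv (e ▸ hp), h.nAD hv⟩)).flip.swap.flip.swap

theorem Fb.edge {m s : ℕ} {p q : V} {gs : Multiset (Sym2 V)} (a : G.Adj p q)
    (f : Fb G Y U m s gs) : Fb G Y U m s (s(p, q) ::ₘ gs) := fun X rest hX hd =>
  f X rest (CS.edge (by rwa [Multiset.cons_add] at hX) a) hd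

/-- two ports with a common neighbour in the block are put into the closing gap -/
theorem m1n_a0 {r : ℕ} {gs : Multiset (Sym2 V)}
    (h : Mid G W Y U g D B α β α' β' (2 + (gs.card + r)) 1 I J) (k : Nm G Y U g D B β α' j be Y0)
    (hy : 1 ≤ Y0.card) {v v' p w w' : V} (hv : v ∈ Y.iv U j (g + 1)) (hv' : v' ∈ Y.iv U j (g + 1))
    (hp : p ∈ B) (hvv : v ≠ v') (a : G.Adj v p) (a' : G.Adj v' p)
    (hc : CS G D (s(w, w') ::ₘ gs)) (hH : 2 * gs.card ≤ ∑ v ∈ D, dH G v D)
    (hg : ∀ p q, s(p, q) ∈ gs → p ∈ D ∧ q ∈ D ∧ p ≠ q ∧ ¬G.Adj p q)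
    (f : ∀ U', U' ⊆ U → Rs G Y U' (g + 1) r → Fb G Y U' (g + 1) r (s(v, w) ::ₘ {s(v', w')})) :
    Fin2 G Y U g D B (2 + (gs.card + r)) 1 := by
  have s1 : ({v, v'} : Finset V) ⊆ Y.iv U j (g + 1) := insert_subset hv (singleton_subset_iff.2 hv')
  have c1 := ((hc.ins (h.nAD hv)).swap.flip.ext (z := p) (by
    rw [mem_insert, not_or]
    exact ⟨a.ne.symm, h.nBD hp⟩) a).ext (z := v') (by
    simp only [mem_insert, not_or]
    exact ⟨a'.ne, hvv.symm, h.nAD hv'⟩) a'.symm
  have c2 := c1.swap.flip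
  have e : s(v, w) ::ₘ s(v', w') ::ₘ gs = gs + s(v, w) ::ₘ {s(v', w')} := by
    simp only [← Multiset.singleton_add]
    abel
  rw [e] at c2
  refine h.fin1 s1 hp c2 (fun x => by simp only [mem_insert, mem_singleton]; tauto)
    (by rw [card_pair hvv])
    (k.gaps sdiff_subset (k.port.legal (Subset.refl U) h.rs s1 (card_pair hvv))
      (fun x y e => ⟨(hg x y e).1, ?_⟩) fun U' l1 l2 => f U' (l1.trans sdiff_subset) l2)
  have := k.key x (hg x y e).1 y (hg x y e).2.1 (hg x y e).2.2.1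
  have := Multiset.card_pos_iff_exists_mem.2 ⟨_, e⟩
  have := h.cD
  have := k.two
  have := h.ba
  omega

end Pool.Agent.Lib.MP_af3016_co
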