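import Pool.Agent.Lib.MP_af3016_co.C.M1n0

/-! Upper quota one, no vertex of the block with two neighbours in the class: tight cases. -/

set_option autoImplicit false
set_option linter.unusedSectionVars false

namespace Pool.Agent.Lib.MP_af3016_co

open Finset SimpleGraph

variable {V : Type} [DecidableEq V] {G : SimpleGraph V} {Y : Lay V} {U : Finset V}

variable {W D B : Finset V} {g α β α' β' σ μ : ℕ} {I J : Multiset ℕ}

variable {j : ℕ} {be : V → ℕ} {Y0 : Finset V}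

/-- only one port sees the class -/
theorem m1n_t3 (h : Mid G W Y U g D B α β α' β' σ 1 I J) (k : Nm G Y U g D B β α' j be Y0)
    (no : ∀ v ∈ Y.iv U j (g + 1), ∀ p ∈ B, G.Adj v p → p ∈ Y0) {v w : V}
    (hT : ∀ z ∈ Y.iv U j (g + 1), ∀ x ∈ D, G.Adj z x → z = v) (hw : w ∈ D) :
    dG G w B + 3 * D.card + ∑ x ∈ D, dH G x D ≤
      dH G w (Y.iv U j (g + 1)) + dH G w D + 2 * β + 1 := by
  have a1 := dG_le (G := G) (a := w) (S := Y.iv U j (g + 1)) (R := {v}) fun z hz b =>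
    mem_singleton.2 (hT z hz w hw b.symm)
  rw [card_singleton] at a1
  have a2 := dG_add_dH_out (G := G) (a := w) (S := Y.iv U j (g + 1)) fun e => h.nAD e hw
  have a3 := k.port.big
  have a4 := h.port_three k.port
  obtain ⟨z, hz, hzv⟩ := exists_mem_ne (show 1 < (Y.iv U j (g + 1)).card by omega) v
  have a5 := dH_eq_card (G := G) (a := z) (S := D) fun x hx =>
    ⟨fun e => h.nAD hz (e ▸ hx), fun b => hzv (hT z hz x hx b)⟩
  have a6 := h.suf j k.port.lt.le z (Or.inl hz)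
  have a7 := dG_add_dH_out (G := G) (h.nAB hz)
  have a8 := dG_le (no z hz)
  have a9 := k.sum
  have b1 := add_sum_erase D (fun x => dG G x B) hw
  have b2 := add_sum_erase D (fun x => dH G x D) hw
  have b3 : ∑ x ∈ D.erase w, (α' + 2 + dH G x D) ≤ ∑ x ∈ D.erase w, (dG G x B + β) :=
    sum_le_sum fun x hx => by
      have := k.df x (mem_of_mem_erase hx)
      omega
  simp only [sum_add_distrib, sum_const, smul_eq_mul] at b1 b2 b3
  have b4 := card_erase_add_one hw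
  have b5 := k.two
  have cB := h.cB
  have b6 := h.sJ.le
  obtain ⟨x, rfl⟩ : ∃ x, α' = β + x := ⟨α' - β, by have := h.up; have := h.ba; omega⟩
  have b7 := Nat.mul_le_mul_right x (show 1 ≤ (D.erase w).card by omega)
  rw [Nat.mul_add] at b3
  omega

/-- a port that sees the class has one neighbour in the block and sees everything -/
theorem m1n_t2 (h : Mid G W Y U g D B α β α' β' σ 1 I J)
    (no : ∀ v ∈ Y.iv U j (g + 1), ∀ p ∈ B, G.Adj v p → p ∈ Y0) (hy : Y0.card ≤ 1) {v : V}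
    (hv : v ∈ Y.iv U j (g + 1)) (hd : dH G v D + dH G v (Y.iv U j (g + 1)) < dG G v B) :
    (∀ x ∈ D, G.Adj v x) ∧ ∃ p ∈ B, p ∈ Y0 ∧ G.Adj v p := by
  have := dG_le (no v hv)
  obtain ⟨p, hp, a⟩ := exists_adj (G := G) (a := v) (S := B) (by omega)
  exact ⟨fun x hx => dH_eq_zero.1 (show dH G v D = 0 by omega) x hx fun e => h.nAD hv (e ▸ hx),
    p, hp, no v hv p hp a, a⟩

theorem Nm.up' (k : Nm G Y U g D B β α' j be Y0) (h : Mid G W Y U g D B α β α' β' σ μ I J)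
    (no : ∀ v ∈ Y.iv U j (g + 1), ∀ p ∈ B, G.Adj v p → p ∈ Y0) {w : V} (hw : w ∈ D) :
    ∃ p ∈ B, G.Adj w p ∧ dH G p D + 1 = D.card ∧ dG G p (Y.iv U j (g + 1)) = 0 ∧
      dH G p (Y.iv U j (g + 1)) = (Y.iv U j (g + 1)).card := by
  obtain ⟨p, hp, a, hp0, hpD⟩ := k.up h hw
  have hpA : dG G p (Y.iv U j (g + 1)) = 0 := dG_eq_zero.2 fun z hz b => hp0 (no z hz p hp b.symm)
  have := dG_add_dH_out (G := G) (a := p) (S := Y.iv U j (g + 1)) fun e => h.nAB e hp
  exact ⟨p, hp, a, hpD, hpA, by omega⟩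

/-- the class is a clique on two or three vertices and the slack is two -/
theorem m1n_clique (h : Mid G W Y U g D B α β α' β' 2 1 I J) (k : Nm G Y U g D B β α' j be Y0)
    (no : ∀ v ∈ Y.iv U j (g + 1), ∀ p ∈ B, G.Adj v p → p ∈ Y0) (hα : α = 3)
    (hD : ∀ p ∈ D, ∀ q ∈ D, p ≠ q → G.Adj p q) : Fin2 G Y U g D B 2 1 := by
  have cD := h.cD
  have two := k.two
  by_cases c1 : ∃ v ∈ Y.iv U j (g + 1), ∃ w ∈ D, G.Adj v w ∧
      dG G v B ≤ dH G v D + dH G v (Y.iv U j (g + 1))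
  · obtain ⟨v, hv, w, hw, a, hd⟩ := c1
    obtain ⟨w', hw', hne⟩ := exists_mem_ne (show 1 < D.card by omega) w
    obtain ⟨p, hp, b, b1, b2, -⟩ := k.up' h no hw'
    have s1 : ({v} : Finset V) ⊆ Y.iv U j (g + 1) := singleton_subset_iff.2 hv
    exact h.fin1 (s := 1 + 0) s1 hp
      (m1n_gad (gs := 0) h (HP.clique _ D w' w rfl hD hw' hw hne).cs hv hp b)
      (fun x => by simp only [mem_insert, mem_singleton]; tauto) (by rw [card_singleton])
      (Fb.cons (fun _ _ => h.low_zp (k := 0) k.port s1 (Subset.refl _)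
        (k.port.legal (r := 1) (w := 1 + 0) (Subset.refl U) h.rs s1 (card_singleton v))
        (by rw [card_singleton]) hv hp (by omega)) fun U' _ l2 => Fb.adj l2 a)
  push Not at c1
  obtain ⟨x, hx, y, hy, hxy⟩ := one_lt_card.1 (show 1 < D.card by omega)
  have k1 := k.key x hx y hy hxy
  have k2 := (k.df x hx).2.1
  have k3 := (k.df y hy).2.1
  obtain ⟨v, hv, u, hu, a⟩ : ∃ v ∈ Y.iv U j (g + 1), ∃ u ∈ D, G.Adj v u := by
    by_cases e : be x = 1
    · obtain ⟨v, hv, a⟩ := k.nbr h hx e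
      exact ⟨v, hv, x, hx, a.symm⟩
    · obtain ⟨v, hv, a⟩ := k.nbr h hy (by omega)
      exact ⟨v, hv, y, hy, a.symm⟩
  have hY : Y0.card ≤ 1 := by omega
  obtain ⟨all, p, hp, hp0, b⟩ := m1n_t2 h no hY hv (c1 v hv u hu a)
  by_cases hT : ∀ z ∈ Y.iv U j (g + 1), ∀ x ∈ D, G.Adj z x → z = v
  · have t3 := m1n_t3 h k no hT hx
    obtain ⟨q, hq, d, d1, -, d2⟩ := k.up' h no hy
    have d3 := dG_add_dH_out (G := G) (Finset.disjoint_left.1 h.dDB hx)
    have s1 : ({v} : Finset V) ⊆ Y.iv U j (g + 1) := singleton_subset_iff.2 hv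
    have cl : Clq G (insert v D) := fun c hc c' hc' e => by
      rcases mem_insert.1 hc with e1 | e1 <;> rcases mem_insert.1 hc' with e2 | e2
      exacts [absurd (e1.trans e2.symm) e, e1 ▸ all c' e2, e2 ▸ (all c e1).symm, hD c e1 c' e2 e]
    have c2 := CS.ext (gs := 0) (z := q) (HP.clique _ _ y x rfl cl (mem_insert_of_mem hy)
      (mem_insert_of_mem hx) hxy.symm).cs (by
        rw [mem_insert, not_or]
        exact ⟨fun e => h.nAB hv (e ▸ hq), h.nBD hq⟩) d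
    exact h.fin1 (s := 1) s1 hq c2 (fun x => by simp only [mem_insert, mem_singleton]; tauto)
      (by rw [card_singleton])
      (Fb.one fun _ _ => h.low_link (k := 0) k.port s1 (Subset.refl _)
        (k.port.legal (r := 1) (w := 1 + 0) (Subset.refl U) h.rs s1 (card_singleton v))
        (by rw [card_singleton]) (Or.inr (Or.inr hq)) (Or.inr (Or.inl hx)) (by omega))
  push Not at hT
  obtain ⟨z, hz, u', hu', a', hzv⟩ := hT
  obtain ⟨all', p', -, hp0', b'⟩ := m1n_t2 h no hY hz (c1 z hz u' hu' a')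
  obtain rfl := card_le_one.1 hY p hp0 p' hp0'
  exact m1n_a0 (r := 0) (gs := 0) h k (card_pos.2 ⟨p, hp0⟩) hv hz hp hzv.symm b b'
    (HP.clique _ D x y rfl hD hx hy hxy).cs (by simp) (fun _ _ e => absurd e (by simp))
    fun U' _ l2 => Fb.edge (all x hx) (Fb.adj l2 (all' y hy))

theorem m1n_base {w w' : V} (hD : ∀ x, x ∈ D ↔ x = w ∨ x = w') (hne : w ≠ w') :
    CS G D (s(w, w') ::ₘ {s(w, w')}) :=
  (CS.ins (gs := 0) (z := w') (cs_single G w) (by simp [hne.symm])).set fun x => by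
    rw [hD, mem_insert, mem_singleton, or_comm]

/-- a port with few neighbours in the block sees `w` -/
theorem m1n_p1 (h : Mid G W Y U g D B 3 3 α' β' 3 1 I J) (k : Nm G Y U g D B 3 α' j be Y0)
    (no : ∀ v ∈ Y.iv U j (g + 1), ∀ p ∈ B, G.Adj v p → p ∈ Y0) {w w' v : V}
    (hD : ∀ x, x ∈ D ↔ x = w ∨ x = w') (hne : w ≠ w') (hb : be w + be w' + Y0.card ≤ 3)
    (hv : v ∈ Y.iv U j (g + 1)) (a : G.Adj v w)
    (hd : dG G v B ≤ dH G v D + dH G v (Y.iv U j (g + 1)))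
    (hc : be w + be w' ≤ 2 ∨ ¬G.Adj v w') : Fin2 G Y U g D B 3 1 := by
  have hw := (hD w).2 (Or.inl rfl)
  have hw' := (hD w').2 (Or.inr rfl)
  obtain ⟨p, hp, b, b1, b2, -⟩ := k.up' h no hw'
  have s1 : ({v} : Finset V) ⊆ Y.iv U j (g + 1) := singleton_subset_iff.2 hv
  have c1 := (m1n_gad h (m1n_base (G := G) hD hne).flip hv hp b).swap.edge a
  have hR := k.port.legal (r := 1) (w := 1 + (1 + 0)) (Subset.refl U) h.rs s1 (card_singleton v)
  have d1 := k.df w hw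
  have d2 := k.df w' hw'
  have cD := h.cD
  by_cases e : be w + be w' ≤ 2
  · exact h.fin1 (s := 1 + (1 + 0)) s1 hp c1
      (fun x => by simp only [mem_insert, mem_singleton]; tauto) (by rw [card_singleton])
      (Fb.cons (fun _ _ => h.low_zp (k := 0) k.port s1 (Subset.refl _) hR
        (by rw [card_singleton]) hv hp (by omega)) fun U' l1 l2 => Fb.one fun m1 m2 =>
          link_one l2 m1 m2 (d1.1.sub (l1.trans sdiff_subset)) (d2.1.sub (l1.trans sdiff_subset))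
            (by omega))
  have n := hc.resolve_left e
  have := dH_pos (G := G) (a := v) hw' (fun e => h.nAD hv (e ▸ hw')) n
  have := dG_le (no v hv)
  exact h.fin1 (s := 1 + (1 + 0)) s1 hp (CS.swap (gs := 0) c1)
    (fun x => by simp only [mem_insert, mem_singleton]; tauto) (by rw [card_singleton])
    (Fb.cons (fun m1 m2 => link_one hR m1 m2 (d1.1.sdiff _) (d2.1.sdiff _) (by omega))
      fun U' l1 l2 => Fb.one fun _ _ => h.low_zp (k := 1) (w := 0) k.port s1 l1 l2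
        (by rw [card_singleton]) hv hp (by omega))

/-- a port that sees both vertices and a neighbour of `w'` in the block -/
theorem m1n_p2 (h : Mid G W Y U g D B α β α' β' σ μ I J) {w w' v p : V}
    (hD : ∀ x, x ∈ D ↔ x = w ∨ x = w') (hne : w ≠ w') (hv : v ∈ Y.iv U j (g + 1)) (a : G.Adj v w)
    (a' : G.Adj v w') (hp : p ∈ B) (b : G.Adj w' p) :
    CS G (insert p (insert v D)) (s(p, w) ::ₘ 0) :=
  CS.ext (gs := 0) (CS.flip (gs := 0)
    ((((m1n_base (G := G) hD hne).ins (h.nAD hv)).edge a.symm).edge a'.symm)) (by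
      rw [mem_insert, not_or]
      exact ⟨fun e => h.nAB hv (e ▸ hp), h.nBD hp⟩) b

/-- a second port sees `w` -/
theorem m1n_p3 (h : Mid G W Y U g D B 3 3 α' β' 3 1 I J) (k : Nm G Y U g D B 3 α' j be Y0)
    (no : ∀ v ∈ Y.iv U j (g + 1), ∀ p ∈ B, G.Adj v p → p ∈ Y0) {w w' v z : V}
    (hD : ∀ x, x ∈ D ↔ x = w ∨ x = w') (hne : w ≠ w') (hy : Y0.card = 0)
    (hv : v ∈ Y.iv U j (g + 1)) (a : G.Adj v w) (a' : G.Adj v w') (hz : z ∈ Y.iv U j (g + 1))
    (hzv : z ≠ v) (d : G.Adj z w) : Fin2 G Y U g D B 3 1 := by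
  obtain ⟨p, hp, b, b1, b2, -⟩ := k.up' h no ((hD w').2 (Or.inr rfl))
  have s1 : ({z, v} : Finset V) ⊆ Y.iv U j (g + 1) := insert_subset hz (singleton_subset_iff.2 hv)
  have c1 := (m1n_p2 h hD hne hv a a' hp b).flip.ext (z := z) (by
    simp only [mem_insert, not_or]
    exact ⟨fun e => h.nAB hz (e ▸ hp), hzv, h.nAD hz⟩) d.symm
  have := dG_le (no z hz)
  exact h.fin1 (s := 1) s1 hp c1 (fun x => by simp only [mem_insert, mem_singleton]; tauto)
    (by rw [card_pair hzv])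
    (Fb.one fun _ _ => h.low_zp (k := 0) k.port s1 (Subset.refl _)
      (k.port.legal (r := 2) (w := 1 + 0) (Subset.refl U) h.rs s1 (card_pair hzv))
      (by rw [card_pair hzv]) hz hp (by omega))

/-- a single port sees the class -/
theorem m1n_p5 (h : Mid G W Y U g D B 3 3 α' β' 3 1 I J) (k : Nm G Y U g D B 3 α' j be Y0)
    (no : ∀ v ∈ Y.iv U j (g + 1), ∀ p ∈ B, G.Adj v p → p ∈ Y0) {w w' v : V}
    (hD : ∀ x, x ∈ D ↔ x = w ∨ x = w') (hne : w ≠ w') (hH : 2 ≤ ∑ x ∈ D, dH G x D)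
    (hv : v ∈ Y.iv U j (g + 1)) (a : G.Adj v w) (a' : G.Adj v w')
    (hT : ∀ z ∈ Y.iv U j (g + 1), ∀ x ∈ D, G.Adj z x → z = v) : Fin2 G Y U g D B 3 1 := by
  have hw := (hD w).2 (Or.inl rfl)
  obtain ⟨p, hp, b, b1, -, b2⟩ := k.up' h no ((hD w').2 (Or.inr rfl))
  have t3 := m1n_t3 h k no hT hw
  have d3 := dG_add_dH_out (G := G) (Finset.disjoint_left.1 h.dDB hw)
  have s1 : ({v} : Finset V) ⊆ Y.iv U j (g + 1) := singleton_subset_iff.2 hv
  have cD := h.cD
  exact h.fin1 (s := 2) s1 hp (m1n_p2 h hD hne hv a a' hp b)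
    (fun x => by simp only [mem_insert, mem_singleton]; tauto) (by rw [card_singleton])
    (Fb.one fun _ _ => h.low_two k.port s1 (Subset.refl _)
      (k.port.legal (r := 1) (w := 2 + 0) (Subset.refl U) h.rs s1 (card_singleton v))
      (by rw [card_singleton]) (Or.inr (Or.inr hp)) (Or.inr (Or.inl hw)) (by omega)
      (Or.inl (by omega)))

theorem m1n_p6 (h : Mid G W Y U g D B 3 3 α' β' 3 1 I J) (k : Nm G Y U g D B 3 α' j be Y0)
    (no : ∀ v ∈ Y.iv U j (g + 1), ∀ p ∈ B, G.Adj v p → p ∈ Y0) {w w' : V}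
    (hD : ∀ x, x ∈ D ↔ x = w ∨ x = w') (hn : ¬G.Adj w w') : Fin2 G Y U g D B 3 1 := by
  have cD := h.cD
  have hne : w ≠ w' := fun e => by
    have : D.card ≤ 1 := card_le_one.2 fun a ha b hb => by
      rw [hD, ← e, or_self] at ha hb
      rw [ha, hb]
    omega
  have hD' : ∀ x, x ∈ D ↔ x = w' ∨ x = w := fun x => (hD x).trans or_comm
  have hw := (hD w).2 (Or.inl rfl)
  have hw' := (hD w').2 (Or.inr rfl)
  have hH : 2 ≤ ∑ x ∈ D, dH G x D := by
    have := add_le_sum (f := fun v => dH G v D) (fun _ _ => Nat.zero_le _) hw hw' hne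
    have := dH_pos (G := G) hw' hne.symm hn
    have := dH_pos (G := G) hw hne fun a => hn a.symm
    omega
  have k1 := k.key w hw w' hw' hne
  have k2 := (k.df w hw).2.1
  have k3 := (k.df w' hw').2.1
  by_cases c1 : ∃ v ∈ Y.iv U j (g + 1), ∃ x ∈ D, G.Adj v x ∧
      dG G v B ≤ dH G v D + dH G v (Y.iv U j (g + 1))
  · obtain ⟨v, hv, x, hx, a, hd⟩ := c1
    by_cases c2 : be w + be w' ≤ 2 ∨ ¬G.Adj v w ∨ ¬G.Adj v w'
    · rcases (hD x).1 hx with rfl | rfl
      · exact m1n_p1 h k no hD hne (by omega) hv a hd (by tauto)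
      · exact m1n_p1 h k no hD' hne.symm (by omega) hv a hd (by rw [add_comm]; tauto)
    push Not at c2
    by_cases hT : ∀ z ∈ Y.iv U j (g + 1), ∀ x ∈ D, G.Adj z x → z = v
    · exact m1n_p5 h k no hD hne hH hv c2.2.1 c2.2.2 hT
    push Not at hT
    obtain ⟨z, hz, u, hu, d, hzv⟩ := hT
    rcases (hD u).1 hu with rfl | rfl
    · exact m1n_p3 h k no hD hne (by omega) hv c2.2.1 c2.2.2 hz hzv d
    · exact m1n_p3 h k no hD' hne.symm (by omega) hv c2.2.2 c2.2.1 hz hzv d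
  push Not at c1
  obtain ⟨v, hv, u, hu, a⟩ : ∃ v ∈ Y.iv U j (g + 1), ∃ u ∈ D, G.Adj v u := by
    by_cases e : be w = 1
    · obtain ⟨v, hv, a⟩ := k.nbr h hw e
      exact ⟨v, hv, w, hw, a.symm⟩
    · obtain ⟨v, hv, a⟩ := k.nbr h hw' (by omega)
      exact ⟨v, hv, w', hw', a.symm⟩
  have hY : Y0.card ≤ 1 := by omega
  obtain ⟨all, p, hp, hp0, b⟩ := m1n_t2 h no hY hv (c1 v hv u hu a)
  by_cases hT : ∀ z ∈ Y.iv U j (g + 1), ∀ x ∈ D, G.Adj z x → z = v
  · exact m1n_p5 h k no hD hne hH hv (all w hw) (all w' hw') hT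
  push Not at hT
  obtain ⟨z, hz, u', hu', a', hzv⟩ := hT
  obtain ⟨all', p', -, hp0', b'⟩ := m1n_t2 h no hY hz (c1 z hz u' hu' a')
  obtain rfl := card_le_one.1 hY p hp0 p' hp0'
  refine m1n_a0 (r := 0) (gs := {s(w, w')}) h k (card_pos.2 ⟨p, hp0⟩) hv hz hp hzv.symm b b'
    (m1n_base hD hne) hH (fun x y e => ?_)
    fun U' _ l2 => Fb.edge (all w hw) (Fb.adj l2 (all' w' hw'))
  rcases Sym2.eq_iff.1 (Multiset.mem_singleton.1 e) with ⟨rfl, rfl⟩ | ⟨rfl, rfl⟩
  · exact ⟨hw, hw', hne, hn⟩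
  · exact ⟨hw', hw, hne.symm, fun a => hn a.symm⟩

/-- the class consists of two non-adjacent vertices and the slack is three -/
theorem m1n_pair {w w' : V} (h : Mid G W Y U g {w, w'} B 3 3 α' β' 3 1 I J)
    (k : Nm G Y U g {w, w'} B 3 α' j be Y0)
    (no : ∀ v ∈ Y.iv U j (g + 1), ∀ p ∈ B, G.Adj v p → p ∈ Y0) (hn : ¬G.Adj w w') :
    Fin2 G Y U g {w, w'} B 3 1 :=
  m1n_p6 h k no (fun x => by rw [mem_insert, mem_singleton]) hn

end Pool.Agent.Lib.MP_af3016_co
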