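import Pool.Agent.Lib.MP_af3016_co.C.Thr

/-! Upper quota one, a class with one vertex. -/

set_option autoImplicit false
set_option linter.unusedSectionVars false

namespace Pool.Agent.Lib.MP_af3016_co

open Finset SimpleGraph

variable {V : Type} [DecidableEq V] {G : SimpleGraph V} {Y : Lay V} {U : Finset V}

variable {W B : Finset V} {g α β α' β' σ t be : ℕ} {I J : Multiset ℕ} {w : V}

/-- the threshold for a class with one vertex -/
structure Ot (G : SimpleGraph V) (W : Finset V) (Y : Lay V) (U : Finset V) (g : ℕ) (w : V)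
    (B : Finset V) (α β α' β' σ : ℕ) (I J : Multiset ℕ) (t be : ℕ) : Prop where
  mid : Mid G W Y U g {w} B α β α' β' σ 1 I J
  le : t ≤ g
  thr : Thr Y U t (g + 1)
  wl : Wl G Y U t (g + 1) σ w be
  one : 1 ≤ be
  lb : be ≤ β
  y0 : dH G w B + be ≤ β' + β
  big : Y.B (g + 1) + 1 ≤ (Y.iv U t (g + 1)).card + Y.B t
  nbr : Y.A (g + 1) + 2 ≤ dG G w (Y.iv U t (g + 1)) + be + Y.A t

theorem m1o_out (h : Mid G W Y U g {w} B α β α' β' σ 1 I J) (l : ℕ) : w ∉ Y.iv U l (g + 1) :=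
  fun k => Finset.disjoint_left.1 h.dD (mem_singleton_self w)
    (Lay.iv_mono (Subset.refl U) (Nat.zero_le l) le_rfl k)

theorem m1o_thr (h : Mid G W Y U g {w} B α β α' β' σ 1 I J) :
    ∃ t be, Ot G W Y U g w B α β α' β' σ I J t be := by
  classical
  obtain ⟨al, be, hd⟩ := h.defects
  obtain ⟨d1, d2, d3, d4, d5, d6, d7⟩ := hd w (mem_singleton_self w)
  rw [flat_df] at d1
  let P : ℕ → Prop := fun t => Y.A (g + 1) + 1 ≤ dG G w (Y.iv U t (g + 1)) + Y.A t ∨
    (Y.iv U 0 t).card + 1 ≤ Y.A t + Y.B t + σ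
  have h0 : P 0 := Or.inr (by
    have := h.sg
    rw [Y.iv_self, card_empty]
    omega)
  have hP : P (Nat.findGreatest P g) := Nat.findGreatest_spec (Nat.zero_le g) h0
  have hle := Nat.findGreatest_le (P := P) g
  have hmax : ∀ l, Nat.findGreatest P g < l → l ≤ g → ¬P l :=
    fun l h1 h2 => Nat.findGreatest_is_greatest h1 h2
  generalize Nat.findGreatest P g = t at hP hle hmax
  simp only [P, not_or, not_le] at hP hmax
  have top := h.rs.top
  have k1 := Y.card_iv U (Nat.zero_le t) (show t ≤ g + 1 by omega)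
  have k2 := dG_add_dH_out (G := G) (m1o_out h t)
  have k3 := h.rs.AB (show t ≤ g + 1 by omega) le_rfl
  have k4 := d2 t (by omega)
  have k5 := Y.A_mono (show t ≤ g + 1 by omega)
  refine ⟨t, be w, h, hle, thr_of_slack h.rs fun l h1 h2 => ?_, fun l h1 h2 => ?_, d4, by omega,
    by omega, by omega, by omega⟩
  · have := hmax l h1 (by omega)
    omega
  · rcases h2.lt_or_eq with h3 | rfl
    · have j0 := hmax l h1 (by omega)
      have j1 := Y.card_iv U (Nat.zero_le l) h2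
      have j2 := dG_add_dH_out (G := G) (m1o_out h l)
      exact ⟨be w + Y.B (g + 1) - (Y.B l + dH G w (Y.iv U l (g + 1))), d2.down h2 (by omega),
        by omega⟩
    · exact ⟨be w, d2, by omega⟩

theorem Ot.num (z : Ot G W Y U g w B α β α' β' σ I J t be) :
    σ + 2 = α + β ∧ β ≤ α ∧ α ≤ β + 1 ∧ 5 ≤ α + β ∧ β' ≤ α' ∧ B.card = α' + β' + 1 ∧
      Y.B t + β ≤ Y.B (g + 1) ∧ Y.B (g + 1) + Y.A t ≤ Y.A (g + 1) + Y.B t ∧
      Y.A t + α ≤ Y.A (g + 1) ∧ α ≤ α' := by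
  have h := z.mid
  have h2 := h.cD
  have h3 := Y.B_mono z.le
  have h4 := Y.B_succ g
  have h5 := h.lo
  have h6 := Y.A_mono z.le
  have h7 := Y.A_succ g
  rw [card_singleton] at h2
  exact ⟨by omega, h.ba, h.ab, h.five, h.sJ.le, h.cB, by omega,
    h.rs.AB (Nat.le_succ_of_le z.le) le_rfl, by omega, h.up.1⟩

theorem Ot.link (z : Ot G W Y U g w B α β α' β' σ I J t be) {U' : Finset V} (hU : U' ⊆ U)
    {r q : ℕ} (hR : Rs G Y U' (g + 1) (r + q)) (hr : 1 ≤ r) {v : V} (hv : v ∈ Y.iv U t (g + 1))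
    (hn : v ∉ U') (h1 : r = 1 → be ≤ q + 2 ∨ (be ≤ q + 3 ∧ ¬G.Adj w v)) :
    Lnk G Y U' (g + 1) r q w v :=
  z.wl.link z.thr z.mid.rs z.mid.ord hU hR hr hv hn (m1o_out z.mid 0) h1 fun l hl => by
    have := (z.mid.low l (by omega)).1
    have := z.lb
    have := z.mid.ba
    omega

/-- a path from `w` to a vertex of the upper part is closed by the whole slack -/
theorem Ot.fin (z : Ot G W Y U g w B α β α' β' σ I J t be) {Z0 Q X : Finset V} {p x : V}
    {q r : ℕ} (hp : p ∈ B) (h0 : Z0 ⊆ Y.iv U 0 t) (hR : Rs G Y (U \ Z0) t q)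
    (hQ : Q ⊆ Y.iv U t (g + 1)) (hx : x ∈ Q) (hc : Z0.card + Q.card + r = σ) (hX : HP G w x X)
    (hm : ∀ v, v ∈ X ↔ v ∈ ({w} : Finset V) ∨ v ∈ Z0 ∨ v ∈ Q ∨ v = p) (r0 : r = 0 → G.Adj w x)
    (r1 : r = 1 → be ≤ 2 ∨ (be ≤ 3 ∧ ¬G.Adj w x)) : Fin2 G Y U g {w} B σ 1 := by
  refine z.mid.gad (Nat.le_succ_of_le z.le) z.thr hp h0 hR hQ hc hX.cs hm
    fun U' hU hn hR' => Fb.last hR' ?_
  by_cases e : r = 0
  · exact Or.inl ⟨e, r0 e⟩
  · exact Or.inr (z.link (q := 0) hU hR' (by omega) (hQ hx) (hn x hx) r1)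

/-- the path from `w` through `p` and a lower link -/
theorem Ot.path (z : Ot G W Y U g w B α β α' β' σ I J t be) {p v : V} {k q : ℕ} (hp : p ∈ B)
    (e : G.Adj w p) (hv : v ∈ Y.iv U t (g + 1)) (l : Lnk G Y U t k q p v) :
    ∃ Z0, Z0 ⊆ Y.iv U 0 t ∧ Z0.card = k ∧ Rs G Y (U \ Z0) t q ∧
      HP G w v (insert w (insert p (insert v Z0))) := by
  have ht : t ≤ g + 1 := Nat.le_succ_of_le z.le
  obtain ⟨Z0, h1, h2, h3, h4⟩ := z.mid.lpath ht (Or.inl hv) hp l
  refine ⟨Z0, h1, h2, h3, h4.cons e fun j => ?_⟩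
  simp only [mem_insert] at j
  rcases j with j | j | j
  exacts [e.ne j, m1o_out z.mid t (j ▸ hv),
    z.mid.outT ht (Or.inr (Or.inl (mem_singleton_self w))) (Subset.refl U) (h1 j)]

theorem Ot.lk (z : Ot G W Y U g w B α β α' β' σ I J t be) {p v : V} {k q r : ℕ} (hp : p ∈ B)
    (e : G.Adj w p) (hv : v ∈ Y.iv U t (g + 1)) (l : Lnk G Y U t k q p v) (hc : k + 1 + r = σ)
    (r0 : 1 ≤ r) (r1 : r = 1 → be ≤ 2 ∨ (be ≤ 3 ∧ ¬G.Adj w v)) : Fin2 G Y U g {w} B σ 1 := by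
  obtain ⟨Z0, h1, h2, h3, h4⟩ := z.path hp e hv l
  refine z.fin (Q := {v}) (r := r) hp h1 h3 (singleton_subset_iff.2 hv) (mem_singleton_self v)
    (by rw [card_singleton]; omega) h4 (fun x => ?_) (by omega) r1
  simp only [mem_insert, mem_singleton]
  tauto

theorem Ot.g1 (z : Ot G W Y U g w B α β α' β' σ I J t be) {p v : V} (hp : p ∈ B)
    (e : G.Adj w p) (hv : v ∈ Y.iv U t (g + 1)) (e' : G.Adj p v) : Fin2 G Y U g {w} B σ 1 := by
  obtain ⟨q, hq⟩ := z.mid.rs.low (Nat.le_succ_of_le z.le)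
  have n := z.num
  have ne : w ≠ v := fun j => m1o_out z.mid t (j ▸ hv)
  refine z.fin (Z0 := ∅) (Q := {v}) (q := q) (r := σ - 1) hp (empty_subset _) (by simpa using hq)
    (singleton_subset_iff.2 hv) (mem_singleton_self v) (by rw [card_empty, card_singleton]; omega)
    (((HP.single v).cons e' (by simp [e'.ne])).cons e (by simp [e.ne, ne])) (fun x => ?_)
    (by omega) (by omega)
  simp only [mem_insert, mem_singleton, notMem_empty]
  tauto

theorem Ot.g3 (z : Ot G W Y U g w B α β α' β' σ I J t be) {p u v : V} (hp : p ∈ B)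
    (hu : u ∈ Y.iv U t (g + 1)) (hv : v ∈ Y.iv U t (g + 1)) (ne : u ≠ v) (e : G.Adj w u)
    (e1 : G.Adj p u) (e2 : G.Adj p v) : Fin2 G Y U g {w} B σ 1 := by
  obtain ⟨q, hq⟩ := z.mid.rs.low (Nat.le_succ_of_le z.le)
  have n := z.num
  have lb := z.lb
  have n1 : w ≠ v := fun j => m1o_out z.mid t (j ▸ hv)
  have n2 : w ≠ p := fun j => Finset.disjoint_left.1 z.mid.dDB (mem_singleton_self w) (j ▸ hp)
  refine z.fin (Z0 := ∅) (Q := {u, v}) (x := v) (q := q) (r := σ - 2) hp (empty_subset _)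
    (by simpa using hq) (insert_subset hu (singleton_subset_iff.2 hv)) (by simp)
    (by rw [card_empty, card_pair ne]; omega)
    ((((HP.single v).cons e2 (by simp [e2.ne])).cons e1.symm (by simp [e1.ne.symm, ne])).cons e
      (by simp [e.ne, n1, n2])) (fun x => ?_) (by omega) (by omega)
  simp only [mem_insert, mem_singleton, notMem_empty]
  tauto

theorem Ot.g3' (z : Ot G W Y U g w B α β α' β' σ I J t be) (h6 : 6 ≤ α + β) {p u v : V}
    (hp : p ∈ B) (hu : u ∈ Y.iv U t (g + 1)) (hv : v ∈ Y.iv U t (g + 1)) (ne : u ≠ v)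
    (e : ¬G.Adj w u) (e' : ¬G.Adj w v) (e1 : G.Adj p u) (e2 : G.Adj p v) :
    Fin2 G Y U g {w} B σ 1 := by
  have n := z.num
  have lb := z.lb
  have n0 : w ≠ u := fun j => m1o_out z.mid t (j ▸ hu)
  have n1 : w ≠ v := fun j => m1o_out z.mid t (j ▸ hv)
  have n2 : w ≠ p := fun j => Finset.disjoint_left.1 z.mid.dDB (mem_singleton_self w) (j ▸ hp)
  have c := CS.glue (gs := 0) (gs' := 0) (HP.single w).cs
    (((HP.single v).cons e2 (by simp [e2.ne])).cons e1.symm (by simp [e1.ne.symm, ne])).cs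
    (by simp [n0, n1, n2])
  refine z.mid.gad0 (Nat.le_succ_of_le z.le) z.thr (Q := {u, v}) (r := 1 + (σ - 3)) hp
    (insert_subset hu (singleton_subset_iff.2 hv)) (by rw [card_pair ne]; omega) c (fun x => ?_)
    fun U' hU hn hR => Fb.cons (fun _ _ => z.link hU hR le_rfl hu (hn u (by simp))
      fun _ => Or.inr ⟨by omega, e⟩) fun U2 hU2 hR2 => ?_
  · simp only [mem_union, mem_insert, mem_singleton]
    tauto
  · exact Fb.last hR2 (Or.inr (z.link (r := σ - 3) (q := 0) (hU2.trans hU) hR2 (by omega) hv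
      (fun j => hn v (by simp) (hU2 j)) fun j => Or.inr ⟨by omega, e'⟩))

theorem Ot.g4 (z : Ot G W Y U g w B α β α' β' σ I J t be) {p v u : V} {k q : ℕ} (hp : p ∈ B)
    (e : G.Adj w p) (hv : v ∈ Y.iv U t (g + 1)) (l : Lnk G Y U t k q p v) (hc : k + 2 = σ)
    (hu : u ∈ Y.iv U t (g + 1)) (e1 : G.Adj u v) (e2 : G.Adj w u) :
    Fin2 G Y U g {w} B σ 1 := by
  obtain ⟨Z0, h1, h2, h3, h4⟩ := z.path hp e hv l
  refine z.fin (Q := {v, u}) (x := u) (r := 0) hp h1 h3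
    (insert_subset hv (singleton_subset_iff.2 hu)) (by simp)
    (by rw [card_pair e1.ne.symm]; omega) (h4.symm.cons e1 fun j => ?_).symm (fun x => ?_)
    (fun _ => e2) (by omega)
  · simp only [mem_insert] at j
    rcases j with j | j | j | j
    exacts [e2.ne j.symm, Finset.disjoint_left.1 z.mid.dB (j ▸ hp)
      (Lay.iv_mono (Subset.refl U) (Nat.zero_le t) le_rfl hu), e1.ne j,
      z.mid.outT (Nat.le_succ_of_le z.le) (Or.inl hu) (Subset.refl U) (h1 j)]
  · simp only [mem_insert, mem_singleton]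
    tauto

theorem m1o_three {S : Finset V} {f : V → ℕ} (h : ∀ x ∈ S, 1 ≤ f x) {u : V} (hu : u ∈ S) :
    S.card + f u ≤ ∑ x ∈ S, f x + 1 := by
  have e1 := add_sum_erase S f hu
  have e3 : _ ≤ ∑ x ∈ S.erase u, f x := card_nsmul_le_sum _ f 1
    fun x hx => h x (mem_of_mem_erase hx)
  have e4 := card_erase_add_one hu
  rw [smul_eq_mul] at e3
  omega

theorem m1o_low {S : Finset V} {f : V → ℕ} {k : ℕ} (h : ∀ x ∈ S, k ≤ f x) :
    S.card * k ≤ ∑ x ∈ S, f x := card_nsmul_le_sum S f k h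

theorem mid_mu1_one (h : Mid G W Y U g {w} B α β α' β' σ 1 I J) : Fin2 G Y U g {w} B σ 1 := by
  obtain ⟨t, be, z⟩ := m1o_thr h
  by_contra nf
  have ht : t ≤ g + 1 := Nat.le_succ_of_le z.le
  have n := z.num
  have big := z.big
  have nbr := z.nbr
  have y0 := z.y0
  have lb := z.lb
  have one := z.one
  have wB : w ∉ B := Finset.disjoint_left.1 h.dDB (mem_singleton_self w)
  have dw := dG_add_dH_out (G := G) wB
  obtain ⟨p, hp, e⟩ := exists_adj (show 0 < dG G w B by omega)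
  have c0 : dG G p (Y.iv U t (g + 1)) = 0 :=
    dG_eq_zero.2 fun v hv j => nf (z.g1 hp e hv j)
  have c1 : dG G p {w} ≤ 1 := dG_le_card p {w}
  have dl : ∀ v ∈ Y.iv U t (g + 1),
      1 + α + dH G v {w} + dH G v (Y.iv U t (g + 1)) ≤ β + dG G v B := fun v hv => by
    by_contra k
    obtain ⟨q, l⟩ := h.ll ht (Or.inl hv) hp (by omega)
    exact nf (z.lk (r := σ - 2) hp e hv l (by omega) (by omega) (by omega))
  have cnt : ∀ S, S ⊆ Y.iv U t (g + 1) →
      (∀ q ∈ B, ∀ u ∈ S, ∀ v ∈ S, u ≠ v → G.Adj q u → ¬G.Adj q v) →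
      ∑ v ∈ S, dG G v B ≤ dH G w B := fun S hS k => by
    obtain ⟨N, n1, n2⟩ := exists_non (G := G) w B
    have a1 : ∑ v ∈ S, dG G v B ≤ ∑ v ∈ S, dG G v N := sum_le_sum fun v hv => by
      obtain ⟨M, m1, m2⟩ := exists_nbhd (G := G) v N
      rw [← m1]
      exact dG_le fun q hq j => (m2 q).2 ⟨(n2 q).2 ⟨hq, fun i => wB (i ▸ hq),
        fun i => nf (z.g1 hq i (hS hv) j.symm)⟩, j⟩
    have a2 : ∑ q ∈ N, dG G q S ≤ _ := sum_le_card_nsmul N _ 1 fun q hq => by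
      obtain ⟨M, m1, m2⟩ := exists_nbhd (G := G) q S
      rw [← m1, card_le_one]
      intro u hu v hv
      by_contra j
      exact k q ((n2 q).1 hq).1 u ((m2 u).1 hu).1 v ((m2 v).1 hv).1 j ((m2 u).1 hu).2
        ((m2 v).1 hv).2
    rw [sum_dG_comm S N] at a1
    rw [smul_eq_mul] at a2
    omega
  by_cases h6 : ¬6 ≤ α + β
  · obtain ⟨T, t1, t2⟩ := exists_nbhd (G := G) w (Y.iv U t (g + 1))
    have S1 := cnt T (fun v hv => ((t2 v).1 hv).1) fun q hq u hu v hv ne e1 e2 =>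
      nf (z.g3 hq ((t2 u).1 hu).1 ((t2 v).1 hv).1 ne ((t2 u).1 hu).2 e1 e2)
    have S2 := m1o_low (S := T) (f := fun v => dG G v B) (k := 2)
      fun v hv => by have := dl v ((t2 v).1 hv).1; omega
    obtain ⟨k, hk⟩ : ∃ k, α' + Y.B t = β + Y.B (g + 1) + k :=
      ⟨α' + Y.B t - (β + Y.B (g + 1)), by omega⟩
    have S3 := m1o_low (S := T) (f := fun v => dG G v B) (k := k + 2)
      fun v hv => by have := h.degB ht ((t2 v).1 hv).1; omega
    have := Nat.mul_le_mul_right k (show 3 ≤ T.card by omega)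
    rw [mul_add] at S3
    omega
  rw [not_not] at h6
  have S1 := cnt _ (Subset.refl _) fun q hq u hu v hv ne e1 e2 => by
    by_cases a : G.Adj w u
    · exact nf (z.g3 hq hu hv ne a e1 e2)
    by_cases b : G.Adj w v
    · exact nf (z.g3 hq hv hu ne.symm b e2 e1)
    exact nf (z.g3' h6 hq hu hv ne a b e1 e2)
  have d1 : ∀ v ∈ Y.iv U t (g + 1), 1 ≤ dG G v B := fun v hv => by have := dl v hv; omega
  have S0 := m1o_low d1
  have Dl : α' + Y.B t ≤ β + Y.B (g + 1) := by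
    by_contra k
    obtain ⟨k, hk⟩ : ∃ k, α' + Y.B t = β + Y.B (g + 1) + 1 + k :=
      ⟨α' + Y.B t - (β + Y.B (g + 1) + 1), by omega⟩
    have S3 := m1o_low (S := Y.iv U t (g + 1)) (f := fun v => dG G v B) (k := k + 3)
      fun v hv => by have := h.degB ht hv; omega
    have := Nat.mul_le_mul_right k (show 1 ≤ (Y.iv U t (g + 1)).card by omega)
    rw [mul_add] at S3
    omega
  have D2 : α' + Y.B t = β + Y.B (g + 1) →
      (Y.iv U t (g + 1)).card * 2 ≤ ∑ v ∈ Y.iv U t (g + 1), dG G v B := fun k =>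
    m1o_low fun v hv => by have := h.degB ht hv; omega
  obtain ⟨s, hs, -, -, sc⟩ := h.lev ht
  have L : ∀ v ∈ Y.iv U t (g + 1), dG G v B ≤ 2 → ∃ q, Lnk G Y U t 2 q p v := fun v hv k =>
    h.ll2 ht (Or.inl hv) hp hs (by omega) (by omega)
  by_cases c : 5 ≤ σ ∨ be ≤ 2
  · obtain ⟨v, hv, k⟩ : ∃ v ∈ Y.iv U t (g + 1), dG G v B ≤ 2 := by
      by_contra k
      push Not at k
      have := m1o_low (k := 3) k
      omega
    obtain ⟨q, l⟩ := L v hv k
    exact nf (z.lk (r := σ - 3) hp e hv l (by omega) (by omega) (by omega))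
  by_cases a : ∃ v ∈ Y.iv U t (g + 1), ¬G.Adj w v
  · obtain ⟨v, hv, a⟩ := a
    have := m1o_three d1 hv
    obtain ⟨q, l⟩ := L v hv (by omega)
    exact nf (z.lk (r := 1) hp e hv l (by omega) le_rfl fun _ => Or.inr ⟨by omega, a⟩)
  push Not at a
  obtain ⟨v, hv, k⟩ : ∃ v ∈ Y.iv U t (g + 1), dG G v B ≤ 1 := by
    by_contra k
    push Not at k
    have := m1o_low (k := 2) k
    omega
  obtain ⟨q, l⟩ := L v hv (by omega)
  obtain ⟨u, hu, ne⟩ := exists_mem_ne (show 1 < (Y.iv U t (g + 1)).card by omega) v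
  have := dl v hv
  exact nf (z.g4 hp e hv l (by omega) hu (dH_eq_zero.1 (by omega) u hu ne).symm (a u hu))

end Pool.Agent.Lib.MP_af3016_co
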