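import Pool.Agent.Lib.MP_af3016_co.C.M1D

/-! Marked orders. -/

set_option autoImplicit false
set_option linter.unusedSectionVars false

namespace Pool.Agent.Lib.MP_af3016_co

open Finset SimpleGraph

variable {V : Type} [DecidableEq V] {G : SimpleGraph V} {Y : Lay V} {U : Finset V}

variable {W D B : Finset V} {g α β α' β' σ : ℕ} {I J : Multiset ℕ} {be : V → ℕ}

/-- a gap with a large degree sum is closed -/
theorem Mk.bc1 {R : Finset V} {ν p q : V} {F : Multiset (Sym2 V)} (hν : ν ∉ D)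
    (h : Mk G D R (s(p, q) ::ₘ F))
    (hd : D.card + 1 + F.card ≤ dG G p D + m6i R p + dG G q D + m6i R q) : Mk G D R F := by
  obtain ⟨a, ha, b, hb, h⟩ := h
  have hm : ∀ x y, s(x, y) ∈ s(p, q) ::ₘ F → x ∈ D ∧ y ∈ D := fun x y e =>
    h.mem (Multiset.mem_cons_of_mem e)
  have hp := hm p q (Multiset.mem_cons_self _ _)
  have d1 := m6_deg (G := G) (M := R) hν hp.1
  have d2 := m6_deg (G := G) (M := R) hν hp.2
  exact m6_take ((m6_put h hν ha hb).bc1 (by rw [card_insert_of_notMem hν]; omega)) hν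
    fun y e => hν (hm _ y (Multiset.mem_cons_of_mem e)).1

theorem Mk.plan {R : Finset V} {ν : V} {F gs0 : Multiset (Sym2 V)} (hν : ν ∉ D)
    (h : Mk G D R (F + gs0)) : ∃ gs, Mk G D R (F + gs) ∧ gs.card ≤ gs0.card ∧
      ∀ p q, s(p, q) ∈ gs → p ∈ D ∧ q ∈ D ∧ p ≠ q ∧ ¬G.Adj p q ∧
        dG G p D + m6i R p + dG G q D + m6i R q + gs.card ≤ D.card + 1 + F.card := by
  obtain ⟨a, ha, b, hb, h⟩ := h
  have hm : ∀ x y, s(x, y) ∈ F + gs0 → x ∈ D ∧ y ∈ D := fun x y e =>
    h.mem (Multiset.mem_cons_of_mem e)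
  have hn : ∀ x ∈ D, x ≠ ν := fun x hx e => hν (e ▸ hx)
  have c := card_insert_of_notMem hν
  have c1 := card_pos.2 ⟨a, (h.mem (Multiset.mem_cons_self _ _)).1⟩
  obtain ⟨gs, k1, k2, k3⟩ := Pool.Agent.Lib.MP_af3016_co.plan (D := D) (m6_put h hν ha hb)
    fun x y e => hm x y (Multiset.mem_add.2 (Or.inr e))
  refine ⟨gs, m6_take k1 hν fun y e => ?_, k2, fun p q e => ?_⟩
  · exact (Multiset.mem_add.1 e).elim (fun e => hν (hm _ y (Multiset.mem_add.2 (Or.inl e))).1)
      fun e => hν (k3 _ y e).1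
  · obtain ⟨j1, j2, j3, j4⟩ := k3 p q e
    have d1 := m6_deg (G := G) (M := R) hν j1
    have d2 := m6_deg (G := G) (M := R) hν j2
    exact ⟨j1, j2, ab_ne k1 (by omega) (Multiset.mem_add.2 (Or.inr e)),
      fun i => j3 ((m6v_in (hn p j1) (hn q j2)).2 i), by omega⟩

theorem m1v_cyc (h : CS G D 0) (h3 : 3 ≤ D.card) :
    ∃ f f', Cyc G D f ∧ Cyc G D f' ∧ ∀ v ∈ D, f' (f v) = v ∧ f (f' v) = v ∧ f v ≠ f' v := by
  obtain ⟨x, t, hn, hD, es, he, hes⟩ := h
  rw [zero_add] at he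
  have ha : ∀ v ∈ x :: t, G.Adj v ((x :: t).formPerm v) := by
    intro v hv
    obtain ⟨A, B, e⟩ := List.append_of_mem hv
    cases B with
    | nil =>
      have h1 := succ_head (M := A) (z := v) hn (by rw [e])
      rw [← e] at h1
      have h3 : (x :: t).formPerm v = x := by simpa using h1.symm
      rw [h3, ← G.mem_edgeSet]
      refine hes _ ?_
      rw [← he, ← List.cons_append, e]
      simpa using succ_lp v x [] A
    | cons b B =>
      rw [succ_next (A := A) (B := B) (b := b) hn (by rw [e]), ← G.mem_edgeSet]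
      refine hes _ ?_
      rw [← he, ← List.cons_append, e]
      simpa using succ_lp v b (B ++ [x]) A
  refine ⟨(x :: t).formPerm, (x :: t).reverse.formPerm, succ_cyc hn hD ha,
    succ_cyc (List.nodup_reverse.2 hn) (fun v => by rw [List.mem_reverse, hD]) fun v hv => ?_,
    fun v hv => ⟨?_, ?_, fun e => ?_⟩⟩
  · rw [List.formPerm_reverse]
    rw [List.mem_reverse] at hv
    have h1 : (x :: t).formPerm ((x :: t).formPerm⁻¹ v) = v := by simp
    have h3 := ha ((x :: t).formPerm⁻¹ v) (List.mem_of_formPerm_apply_mem (by rw [h1]; exact hv))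
    rw [h1] at h3
    exact h3.symm
  · rw [List.formPerm_reverse]
    simp
  · rw [List.formPerm_reverse]
    simp
  · rw [List.formPerm_reverse] at e
    have e1 : (x :: t).formPerm ((x :: t).formPerm v) = v := by
      rw [e]
      simp
    obtain ⟨M, hM⟩ := succ_rot ((hD v).2 hv)
    have c1 := cyc_card hn hD
    have c2 := hM.perm.length_eq
    have c3 := hM.nodup_iff.1 hn
    rcases M with _ | ⟨a, _ | ⟨b, M⟩⟩
    · simp only [List.length_cons, List.length_append, List.length_nil] at c1 c2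
      omega
    · simp only [List.length_cons, List.length_append, List.length_nil] at c1 c2
      omega
    · have k1 : (x :: t).formPerm v = a := by simpa using (succ_head hn hM).symm
      have k2 : (x :: t).formPerm a = b :=
        succ_next (A := []) (B := M ++ [v]) hn (by simpa using hM)
      rw [k1, k2] at e1
      simp [e1] at c3

theorem m1v_lin {R : Finset V} {ν : V} {f f' : V → V} (hν : ν ∉ D)
    (k : Cyc (m6v G ν R) (insert ν D) f) (k' : Cyc (m6v G ν R) (insert ν D) f')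
    (hi : ∀ v ∈ insert ν D, f' (f v) = v) (hne : f ν ≠ f' ν) : Lin G D R (f ν) (f' ν) f f' := by
  have hn : ∀ x ∈ D, x ≠ ν := fun x hx e => hν (e ▸ hx)
  have h0 := mem_insert_self ν D
  have hm : ∀ v ∈ D, v ≠ f' ν → f v ∈ D := fun v hv e =>
    (mem_insert.1 (k.mem v (mem_insert_of_mem hv))).resolve_left fun i =>
      e (by rw [← i, hi v (mem_insert_of_mem hv)])
  have tk : ∀ p ∈ D, ∀ q ∈ D, HP (m6v G ν R) p q (insert ν D) → Mk G D R {s(p, q)} :=
    fun p hp q hq i => m6_take i.cs hν fun y e => by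
      rcases Sym2.eq_iff.1 (Multiset.mem_singleton.1 e) with e | e
      exacts [hn p hp e.1.symm, hn q hq e.1.symm]
  refine ⟨(m6v_nu (k.adj ν h0).ne.symm).1 (k.adj ν h0).symm,
    (m6v_nu (k'.adj ν h0).ne.symm).1 (k'.adj ν h0).symm, hne, hm,
    fun v hv _ => hi v (mem_insert_of_mem hv), fun v hv _ => ⟨fun e => ?_, ?_⟩, fun v hv e => ?_,
    fun p hp q hq hpq e e' hd => ?_⟩
  · exact hn v hv (k.inj v (mem_insert_of_mem hv) ν h0 e)
  · exact (k.adj v (mem_insert_of_mem hv)).ne.symm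
  · exact tk v hv _ (hm v hv e) (k.path v (mem_insert_of_mem hv)).symm
  · have d1 := m6_deg (G := G) (M := R) hν (hm p hp e)
    have d2 := m6_deg (G := G) (M := R) hν (hm q hq e')
    exact tk p hp q hq (k.succ p (mem_insert_of_mem hp) q (mem_insert_of_mem hq) hpq
      (by rw [card_insert_of_notMem hν]; omega))

theorem Mk.lin {R : Finset V} {ν : V} (hν : ν ∉ D) (h2 : 2 ≤ D.card) (h : Mk G D R 0) :
    ∃ r1 r2 f f', Lin G D R r1 r2 f f' ∧ Lin G D R r2 r1 f' f := by
  obtain ⟨a, ha, b, hb, h⟩ := h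
  obtain ⟨f, f', k1, k2, k3⟩ := m1v_cyc (m6_put h hν ha hb)
    (by rw [card_insert_of_notMem hν]; omega)
  have := (k3 ν (mem_insert_self _ _)).2.2
  exact ⟨f ν, f' ν, f, f', m1v_lin hν k1 k2 (fun v hv => (k3 v hv).1) this,
    m1v_lin hν k2 k1 (fun v hv => (k3 v hv).2.1) this.symm⟩

theorem m1v_order (n : ℕ) : ∀ (D : Finset V) (a b : V), D.card = n → a ∈ D → b ∈ D →
    (a = b → D = {b}) → ∃ gs, CS G D (s(a, b) ::ₘ gs) ∧ 2 * gs.card ≤ eH G D ∧
      ∀ p q, s(p, q) ∈ gs → p ∈ D ∧ q ∈ D ∧ p ≠ q ∧ ¬G.Adj p q := by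
  induction n with
  | zero =>
    intro D a b hc ha
    have := card_pos.2 ⟨a, ha⟩
    omega
  | succ n ih =>
    intro D a b hc ha hb hab
    by_cases e : a = b
    · obtain rfl := hab e
      subst e
      exact ⟨0, cs_single G a, by simp, by simp⟩
    have hb' : b ∈ D.erase a := mem_erase.2 ⟨Ne.symm e, hb⟩
    obtain ⟨c, hc', hcb⟩ : ∃ c ∈ D.erase a, c = b → D.erase a = {b} := by
      by_cases i : ∃ c ∈ D.erase a, c ≠ b
      · obtain ⟨c, i1, i2⟩ := i
        exact ⟨c, i1, fun j => absurd j i2⟩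
      · exact ⟨b, hb', fun _ => eq_singleton_iff_unique_mem.2
          ⟨hb', fun c i1 => by_contra fun i2 => i ⟨c, i1, i2⟩⟩⟩
    obtain ⟨gs, k1, k2, k3⟩ := ih (D.erase a) c b (by rw [card_erase_of_mem ha]; omega) hc' hb' hcb
    have k4 := k1.ins (notMem_erase a D)
    have k5 := eH_insert (G := G) (notMem_erase a D)
    rw [insert_erase ha] at k4 k5
    have k6 : ∀ p q, s(p, q) ∈ gs → p ∈ D ∧ q ∈ D ∧ p ≠ q ∧ ¬G.Adj p q := fun p q i =>
      ⟨mem_of_mem_erase (k3 p q i).1, mem_of_mem_erase (k3 p q i).2.1, (k3 p q i).2.2⟩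
    have hca := mem_erase.1 hc'
    by_cases i : G.Adj c a
    · exact ⟨gs, (k4.edge i).flip, by omega, k6⟩
    · have := dH_pos (G := G) hc' hca.1 fun j => i j.symm
      refine ⟨s(c, a) ::ₘ gs, k4.swap.flip, by rw [Multiset.card_cons]; omega, fun p q j => ?_⟩
      rcases Multiset.mem_cons.1 j with j | j
      · rcases Sym2.eq_iff.1 j with ⟨rfl, rfl⟩ | ⟨rfl, rfl⟩
        exacts [⟨hca.2, ha, hca.1, i⟩, ⟨ha, hca.2, hca.1.symm, fun j => i j.symm⟩]
      · exact k6 p q j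

/-- a linear order with prescribed ends; its gaps are different non-edges -/
theorem m1_order {a b : V} (ha : a ∈ D) (hb : b ∈ D) (hab : a ≠ b) :
    ∃ gs, CS G D (s(a, b) ::ₘ gs) ∧ 2 * gs.card ≤ eH G D ∧
      ∀ p q, s(p, q) ∈ gs → p ∈ D ∧ q ∈ D ∧ p ≠ q ∧ ¬G.Adj p q := by
  exact m1v_order _ D a b rfl ha hb fun e => absurd e hab

end Pool.Agent.Lib.MP_af3016_co
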