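import Pool.Agent.Lib.MP_af3016_co.C.Thr

/-! Upper quota one, empty class. -/

set_option autoImplicit false
set_option linter.unusedSectionVars false

namespace Pool.Agent.Lib.MP_af3016_co

open Finset SimpleGraph

variable {V : Type} [DecidableEq V] {G : SimpleGraph V} {Y : Lay V} {U : Finset V}

variable {W B : Finset V} {g α β α' β' σ t : ℕ} {I J : Multiset ℕ}

/-- the threshold for the empty class -/
structure Zt (G : SimpleGraph V) (W : Finset V) (Y : Lay V) (U : Finset V) (g : ℕ)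
    (B : Finset V) (α β α' β' σ : ℕ) (I J : Multiset ℕ) (t : ℕ) : Prop where
  mid : Mid G W Y U g ∅ B α β α' β' σ 1 I J
  le : t ≤ g
  big : β + Y.B (g + 1) + 1 ≤ (Y.iv U t (g + 1)).card + Y.B t
  small : ∀ l, t < l → l ≤ g + 1 → (Y.iv U l (g + 1)).card + Y.B l ≤ β + Y.B (g + 1)

theorem m1z_thr (h : Mid G W Y U g ∅ B α β α' β' σ 1 I J) :
    ∃ t, Zt G W Y U g B α β α' β' σ I J t := by
  classical
  let P : ℕ → Prop := fun t => β + Y.B (g + 1) + 1 ≤ (Y.iv U t (g + 1)).card + Y.B t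
  have h0 : P 0 := by
    have h1 := h.rs.top
    have h2 := h.cD
    have h3 := h.ba
    have h4 := h.five
    have h5 := h.ab
    rw [card_empty] at h2
    simp only [P]
    omega
  refine ⟨Nat.findGreatest P g, h, Nat.findGreatest_le g,
    Nat.findGreatest_spec (Nat.zero_le g) h0, fun l h1 h2 => ?_⟩
  rcases h2.lt_or_eq with h3 | rfl
  · have := Nat.findGreatest_is_greatest h1 (show l ≤ g by omega)
    simp only [P] at this
    omega
  · rw [Y.iv_self, card_empty]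
    omega

theorem Zt.num (z : Zt G W Y U g B α β α' β' σ I J t) :
    σ + 1 = α + β ∧ β ≤ α ∧ α ≤ β + 1 ∧ 5 ≤ α + β ∧ β' ≤ α' ∧ B.card = α' + β' + 1 ∧
      Y.B t + β ≤ Y.B (g + 1) ∧ Y.B (g + 1) + Y.A t ≤ Y.A (g + 1) + Y.B t := by
  have h := z.mid
  have h2 := h.cD
  have h3 := Y.B_mono z.le
  have h4 := Y.B_succ g
  have h5 := h.lo.2
  rw [card_empty] at h2
  exact ⟨by omega, h.ba, h.ab, h.five, h.sJ.le, h.cB, by omega,
    h.rs.AB (Nat.le_succ_of_le z.le) le_rfl⟩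

theorem Zt.thr (z : Zt G W Y U g B α β α' β' σ I J t) : Thr Y U t (g + 1) := fun l h1 h2 => by
  have := z.small l h1 h2.le
  have := Y.A_mono (show l ≤ g by omega)
  have := Y.A_succ g
  have := z.mid.lo.1
  have := z.mid.ba
  omega

theorem Zt.out (z : Zt G W Y U g B α β α' β' σ I J t) {p : V} (hp : p ∈ B) :
    p ∉ Y.iv U t (g + 1) := fun k => Finset.disjoint_left.1 z.mid.dB hp
  (Lay.iv_mono (Subset.refl U) (Nat.zero_le t) le_rfl k)

theorem Zt.pl' (z : Zt G W Y U g B α β α' β' σ I J t) {U' : Finset V} (hU : U' ⊆ U) {r : ℕ}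
    (hR : Rs G Y U' (g + 1) r) {v v' : V} (hv : v ∈ Y.iv U t (g + 1))
    (hv' : v' ∈ Y.iv U t (g + 1)) (hn : v ∉ U') (hn' : v' ∉ U') (hr : 1 ≤ r)
    (h1 : r = 1 → β ≤ 3 ∨ Y.f v = Y.f v') (hf : Y.f v' ≤ Y.f v) :
    Lnk G Y U' (g + 1) r 0 v v' := by
  have h := z.mid
  have m1 := Lay.mem_iv.1 hv
  have m2 := Lay.mem_iv.1 hv'
  have hu : v ∉ Y.iv U' 0 (Y.f v' + 1) := fun j => hn (Lay.mem_iv.1 j).1
  have d := (h.rs.int v m1.1 m1.2.2).sub hU
  rcases hf.lt_or_eq with c | c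
  · have k1 := z.small (Y.f v' + 1) (by omega) (by omega)
    have k2 := hR.top
    have k3 := Y.card_iv U' (Nat.zero_le _) (show Y.f v' + 1 ≤ g + 1 by omega)
    have k4 : (Y.iv U' (Y.f v' + 1) (g + 1)).card < (Y.iv U (Y.f v' + 1) (g + 1)).card :=
      card_lt_card ⟨Lay.iv_mono hU le_rfl le_rfl, fun j =>
        hn (Lay.mem_iv.1 (j (Lay.mem_iv.2 ⟨m1.1, by omega, m1.2.2⟩))).1⟩
    have k5 := h.rs.AB (show Y.f v' + 1 ≤ g + 1 by omega) le_rfl
    have k6 := Y.B_mono (show Y.f v + 1 ≤ g + 1 by omega)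
    have k7 := Y.B_mono (show Y.f v' + 1 ≤ Y.f v + 1 by omega)
    have k8 := (h.low (Y.f v') (by omega)).1
    have k9 := h.ba
    have k10 := z.num
    refine z.thr.link (w := 0) h.rs h.ord hU hR hr hv' hn' hu (k := β - 1)
      (e := Y.B (g + 1) - Y.B (Y.f v' + 1)) (d.down (by omega) (by omega)) (by omega)
      (fun j => by have := h1 j; omega) (by omega)
  · have k1 := (z.thr.mono hU).slack hR (Y.f v' + 1) (by omega) (by omega)
    exact z.thr.link (w := 0) h.rs h.ord hU hR hr hv' hn' hu (k := 0) (e := 0) (c ▸ d) (by omega)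
      (by omega) (by omega)

/-- two removed vertices of the upper part are linked by the whole slack -/
theorem Zt.pl (z : Zt G W Y U g B α β α' β' σ I J t) {U' : Finset V} (hU : U' ⊆ U) {r : ℕ}
    (hR : Rs G Y U' (g + 1) r) {v v' : V} (hv : v ∈ Y.iv U t (g + 1))
    (hv' : v' ∈ Y.iv U t (g + 1)) (hn : v ∉ U') (hn' : v' ∉ U') (h0 : r = 0 → G.Adj v v')
    (h1 : r = 1 → β ≤ 3 ∨ Y.f v = Y.f v') : Fb G Y U' (g + 1) r {s(v, v')} := by
  refine Fb.last hR ?_
  by_cases e : r = 0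
  · exact Or.inl ⟨e, h0 e⟩
  rcases le_total (Y.f v') (Y.f v) with c | c
  · exact Or.inr (z.pl' hU hR hv hv' hn hn' (by omega) h1 c)
  · exact Or.inr (z.pl' hU hR hv' hv hn' hn (by omega)
      (fun j => (h1 j).imp_right Eq.symm) c).symm

/-- a path from `v` to `v'` through `p` and a legal set below the threshold -/
theorem Zt.fin (z : Zt G W Y U g B α β α' β' σ I J t) {Z0 X : Finset V} {p v v' : V} {w r : ℕ}
    (hp : p ∈ B) (hv : v ∈ Y.iv U t (g + 1)) (hv' : v' ∈ Y.iv U t (g + 1)) (ne : v ≠ v')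
    (h0 : Z0 ⊆ Y.iv U 0 t) (hR : Rs G Y (U \ Z0) t w) (hc : Z0.card + 2 + r = σ)
    (hX : HP G v v' X) (hm : ∀ x, x ∈ X ↔ x = v ∨ x = p ∨ x = v' ∨ x ∈ Z0)
    (r0 : r = 0 → G.Adj v v') (r1 : r = 1 → β ≤ 3 ∨ Y.f v = Y.f v') :
    Fin2 G Y U g ∅ B σ 1 := by
  refine z.mid.gad (Nat.le_succ_of_le z.le) z.thr (Q := {v, v'}) hp h0 hR
    (insert_subset hv (singleton_subset_iff.2 hv')) (by rw [card_pair ne, hc]) hX.cs
    (fun x => ?_) fun U' hU hn hR' =>
      z.pl hU hR' hv hv' (hn v (by simp)) (hn v' (by simp)) r0 r1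
  simp only [hm, mem_insert, mem_singleton, notMem_empty]
  tauto

theorem Zt.lk (z : Zt G W Y U g B α β α' β' σ I J t) {p v v' : V} {k w r : ℕ} (hp : p ∈ B)
    (hv : v ∈ Y.iv U t (g + 1)) (hv' : v' ∈ Y.iv U t (g + 1)) (ne : v ≠ v') (hpv : G.Adj p v)
    (l : Lnk G Y U t k w p v') (hc : k + 2 + r = σ) (r0 : r = 0 → G.Adj v v')
    (r1 : r = 1 → β ≤ 3) : Fin2 G Y U g ∅ B σ 1 := by
  have ht : _ ≤ g + 1 := Nat.le_succ_of_le z.le
  obtain ⟨Z0, h1, h2, h3, h4⟩ := z.mid.lpath ht (Or.inl hv') hp l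
  refine z.fin hp hv hv' ne h1 h3 (by omega) (h4.cons hpv.symm fun j => ?_)
    (fun x => by simp only [mem_insert]) r0 fun j => Or.inl (r1 j)
  simp only [mem_insert] at j
  rcases j with j | j | j
  exacts [hpv.ne j.symm, ne j, z.mid.outT ht (Or.inl hv) (Subset.refl U) (h1 j)]

theorem Zt.p2 (z : Zt G W Y U g B α β α' β' σ I J t) {p : V} (hp : p ∈ B)
    (h2 : 2 ≤ dG G p (Y.iv U t (g + 1))) : Fin2 G Y U g ∅ B σ 1 := by
  obtain ⟨v, hv, h3⟩ := exists_adj (show 0 < dG G p (Y.iv U t (g + 1)) by omega)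
  obtain ⟨v', hv', h4, h5⟩ := exists_adj_notMem (R := {v})
    (show _ < dG G p (Y.iv U t (g + 1)) by rw [card_singleton]; omega)
  have ne : v ≠ v' := fun e => h5 (e ▸ mem_singleton_self v)
  obtain ⟨w, hw⟩ := z.mid.rs.low (Nat.le_succ_of_le z.le)
  have := z.num
  exact z.fin (Z0 := ∅) (w := w) (r := σ - 2) hp hv hv' ne (empty_subset _) (by simpa using hw)
    (by rw [card_empty]; omega)
    (((HP.single v').cons h4 (by simp [h4.ne])).cons h3.symm (by simp [h3.ne.symm, ne]))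
    (by simp) (by omega) (by omega)

theorem Zt.none (z : Zt G W Y U g B α β α' β' σ I J t)
    (hn : ∀ p ∈ B, ∀ v ∈ Y.iv U t (g + 1), ¬G.Adj p v) : Fin2 G Y U g ∅ B σ 1 := by
  have h := z.mid
  have hg := z.le
  have ht : _ ≤ g + 1 := Nat.le_succ_of_le z.le
  have n := z.num
  have k1 := z.big
  have k2 := z.small (t + 1) (by omega) (by omega)
  have k3 := Y.card_iv U (Nat.le_succ t) (show t + 1 ≤ g + 1 by omega)
  have k4 := Y.B_succ t
  simp only [Nat.succ_eq_add_one] at k3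
  obtain ⟨v, hv⟩ : (Y.iv U t (t + 1)).Nonempty := card_pos.1 (by omega)
  have k5 := fill1_hap h.rs (show t < g + 1 by omega) v hv
  have k6 := dG_add_dH_in (G := G) hv
  obtain ⟨v', hv', e⟩ := exists_adj (show 0 < dG G v (Y.iv U t (t + 1)) by omega)
  have f1 : Y.f v = Y.f v' := by
    have := Lay.mem_iv.1 hv
    have := Lay.mem_iv.1 hv'
    omega
  replace hv := Lay.iv_mono (Subset.refl U) le_rfl (show t + 1 ≤ g + 1 by omega) hv
  replace hv' := Lay.iv_mono (Subset.refl U) le_rfl (show t + 1 ≤ g + 1 by omega) hv'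
  obtain ⟨p, hp⟩ : B.Nonempty := card_pos.1 (by omega)
  obtain ⟨s, hs⟩ := h.rs.low ht
  have z1 : dG G p (Y.iv U t (g + 1)) = 0 := dG_eq_zero.2 (hn p hp)
  have z2 : dG G p ∅ = 0 := dG_eq_zero.2 (by simp)
  have z3 : dG G v B = 0 := dG_eq_zero.2 fun q hq j => hn q hq v hv j.symm
  have z4 : dG G v' B = 0 := dG_eq_zero.2 fun q hq j => hn q hq v' hv' j.symm
  obtain ⟨e1, e2, d1, d2, a1, a2, a3⟩ := h.pte ht (Or.inl hv) hp hs
  obtain ⟨e3, e4, d3, d4, a4, a5, a6⟩ := h.pte ht (Or.inl hv') hp hs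
  obtain ⟨w, rfl⟩ : ∃ w, s = 1 + (1 + w) := ⟨s - 2, by omega⟩
  have op := fun U' hU => h.outT ht (v := p) (Or.inr (Or.inr hp)) (U' := U') hU
  have ov := fun U' hU => h.outT ht (v := v) (Or.inl hv) (U' := U') hU
  have ov' := fun U' hU => h.outT ht (v := v') (Or.inl hv') (U' := U') hU
  obtain ⟨x, x', Z, b1, b2, b3, b4, b5, b6⟩ :=
    link_one hs (op U (Subset.refl U)) (ov U (Subset.refl U)) d1 d2 (by omega)
  obtain ⟨y, y', Z', c1, c2, c3, c4, c5, c6⟩ := link_one b6 (op _ sdiff_subset)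
    (ov' _ sdiff_subset) (d3.sdiff Z) (d4.sdiff Z) (by omega)
  have c4' : Z' ⊆ Y.iv U 0 t := c4.trans (Lay.iv_mono sdiff_subset le_rfl le_rfl)
  have hd : Disjoint Z Z' := by
    rw [Y.iv_sdiff] at c4
    exact disjoint_sdiff.mono_right c4
  have pv : p ≠ v := fun j => z.out hp (j ▸ hv)
  have pv' : p ≠ v' := fun j => z.out hp (j ▸ hv')
  have q1 : HP G v x (insert v Z) := b1.symm.cons b3 fun j => ov U (Subset.refl U) (b4 j)
  have q2 : HP G p v' (insert p (insert v' Z')) :=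
    (c1.symm.cons c3 fun j => ov' U (Subset.refl U) (c4' j)).symm.cons c2 fun j =>
      (mem_insert.1 j).elim pv' fun j => op U (Subset.refl U) (c4' j)
  refine z.fin (Z0 := Z ∪ Z') (w := w) (r := σ - 4) hp hv hv' e.ne (union_subset b4 c4')
    (by rwa [sdiff_sdiff_left] at c6) (by rw [card_union_of_disjoint hd]; omega)
    (q1.join q2 (fun u hu j => ?_) b2.symm fun u => mem_union) (fun u => ?_) (fun _ => e)
    fun _ => Or.inr f1
  · simp only [mem_insert] at hu j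
    rcases hu with rfl | hu <;> rcases j with j | j | j
    exacts [pv j.symm, e.ne j, ov U (Subset.refl U) (c4' j), op U (Subset.refl U) (b4 (j ▸ hu)),
      ov' U (Subset.refl U) (b4 (j ▸ hu)), Finset.disjoint_left.1 hd hu j]
  · simp only [mem_union, mem_insert]
    tauto

theorem m1z_lst (Y : Lay V) (I : Multiset ℕ) (ht : t ≤ g) : ∃ K, Y.lst I g = Y.lst I t + K := by
  induction g, ht using Nat.le_induction with
  | base => exact ⟨0, (add_zero _).symm⟩
  | succ g _ ih =>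
    obtain ⟨K, e⟩ := ih
    refine ⟨K + {Y.a (g + 1) + Y.b (g + 1)}, ?_⟩
    rw [← add_assoc, ← e]
    unfold Lay.lst
    rw [sum_range_succ, add_assoc]

/-- the two cliques exchange their lists -/
theorem Zt.swap (z : Zt G W Y U g B α β α' β' σ I J (t + 1)) (hs : Rs G Y U (t + 1) 1)
    (hP : Clq G (Y.iv U (t + 1) (g + 1))) (hB : Clq G B)
    (hc : (Y.iv U (t + 1) (g + 1)).card = α' + β')
    (he : β + Y.B (g + 1) = β' + 1 + Y.B (t + 1)) (he' : α' = β')
    (h1 : ∀ p ∈ B, dG G p (Y.iv U (t + 1) (g + 1)) ≤ 1) :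
    Til G W ((α + β) ::ₘ (Y.lst I g + J)) := by
  have h := z.mid
  have hg := z.le
  have ht : _ ≤ g + 1 := Nat.le_succ_of_le z.le
  have n := z.num
  obtain ⟨K, eK⟩ := m1z_lst Y I hg
  have s1 := mid0_sum (Y := Y) h.stk.sq.sum g
  have s2 := mid0_sum (Y := Y) h.stk.sq.sum (t + 1)
  rw [eK, Multiset.sum_add, s2, Y.A_succ (t + 1), Y.B_succ (t + 1)] at s1
  have l1 := h.stk.len t hg
  have l2 := h.low (t + 1) hg
  have c1 := hs.top
  have c2 := h.rs.top
  have c3 := Y.card_iv U (Nat.zero_le _) ht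
  obtain ⟨D', hD, cD⟩ := exists_subset_card_eq
    (show Y.a (t + 1) + Y.b (t + 1) - 1 ≤ B.card by omega)
  have hz : ∀ p ∈ B, ∀ S, S ⊆ B → dH G p S = 0 := fun p hp S hS =>
    dH_eq_zero.2 fun q hq j => hB p hp q (hS hq) j.symm
  have dB : Disjoint B (Y.iv U 0 (t + 1)) :=
    h.dB.mono_right (Lay.iv_mono (Subset.refl U) le_rfl ht)
  have top : Top G Y U (t + 1) 1 D' (Y.a (t + 1)) (Y.b (t + 1)) := by
    refine ⟨hs, l1.1, l1.2.1, l1.2.2, by omega, dB.mono_left hD,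
      fun p hp => by rw [hz p (hD hp) D' hD]; omega, fun p hp => ?_⟩
    obtain ⟨e, -, a2, a3⟩ := h.dfT ht (v := p) (Or.inr (Or.inr (hD hp)))
    have a4 := hz p (hD hp) D' hD
    have a5 := dG_add_dH_out (G := G) (z.out (hD hp))
    have a6 := h1 p (hD hp)
    exact a2.mono (by omega)
  obtain ⟨Z, z1, z2, z3, z4⟩ := fill1 top (h.ord.mono ht) (h.ord t (by omega))
  have T1 := descend (h.stk.mono (show t ≤ g by omega)) (sdiff_subset.trans h.sub) z4
  have T2 := til_clq h.sJ.three hP (by rw [h.sJ.sum, hc])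
  have c4 := card_sdiff_add_card_eq_card hD
  have T3 : Til G (B \ D') ((α + β) ::ₘ K) := by
    refine til_clq (fun x hx => ?_) (hB.mono fun x hx => (mem_sdiff.1 hx).1)
      (by rw [Multiset.sum_cons]; omega)
    rcases Multiset.mem_cons.1 hx with rfl | hx
    · omega
    rcases mid0_mem (eK ▸ Multiset.mem_add.2 (Or.inr hx) : x ∈ Y.lst I g) with k | ⟨l, hl, rfl⟩
    exacts [h.stk.sq.three x k, (h.stk.len l hl).2.2]
  have o1 := fun x hx => z.out (p := x) hx
  have o2 := Finset.disjoint_left.1 dB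
  have o3 := Finset.disjoint_left.1 (Y.iv_disj U 0 (t + 1) (g + 1))
  have T4 := T2.union T3 (Finset.disjoint_left.2 fun x hx j => o1 x (mem_sdiff.1 j).1 hx)
  have e : (α + β) ::ₘ (Y.lst I g + J) =
      (Y.a (t + 1) + Y.b (t + 1)) ::ₘ (Y.lst I t + (J + (α + β) ::ₘ K)) := by
    rw [eK]
    unfold Lay.lst
    simp only [sum_range_succ, ← Multiset.singleton_add]
    abel
  rw [e]
  rw [Y.iv_sdiff] at T1
  refine Til.three z3 ?_ T1 T4 ?_ ?_ ?_ fun x => ?_
  · rw [card_union_of_disjoint ((dB.mono_left hD).mono_right z1)]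
    omega
  · refine Finset.disjoint_left.2 fun x hx j => ?_
    simp only [mem_union, mem_sdiff] at hx j
    exact j.elim (o3 hx.1) fun j => o2 j.1 hx.1
  · refine Finset.disjoint_left.2 fun x hx j => ?_
    simp only [mem_union, mem_sdiff] at hx j
    exact hx.elim (fun k => o2 (hD k) j.1) j.2
  · refine Finset.disjoint_left.2 fun x hx j => ?_
    simp only [mem_union, mem_sdiff] at hx j
    rcases hx with hx | hx <;> rcases j with j | j
    exacts [o1 x (hD hx) j, j.2 hx, o3 (z1 hx) j, o2 j.1 (z1 hx)]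
  · have a1 := @z1 x
    have a2 := @hD x
    rw [h.mem, ← Y.iv_union U (Nat.zero_le (t + 1)) ht]
    simp only [mem_union, mem_sdiff, notMem_empty]
    tauto

theorem m1z_two {S : Finset V} {f : V → ℕ} (h : ∀ x ∈ S, 1 ≤ f x) {u v : V} (hu : u ∈ S)
    (hv : v ∈ S) (ne : u ≠ v) (h1 : 2 ≤ f u) (h2 : 2 ≤ f v) : S.card + 2 ≤ ∑ x ∈ S, f x := by
  have hv' : v ∈ S.erase u := mem_erase.2 ⟨ne.symm, hv⟩
  have e1 := add_sum_erase S f hu
  have e2 := add_sum_erase _ f hv'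
  have e3 : _ ≤ ∑ x ∈ (S.erase u).erase v, f x := card_nsmul_le_sum _ f 1
    fun x hx => h x (mem_of_mem_erase (mem_of_mem_erase hx))
  have e4 := card_erase_add_one hu
  have e5 := card_erase_add_one hv'
  rw [smul_eq_mul] at e3
  omega

theorem m1z_zero {S : Finset V} {f : V → ℕ} (h : ∀ x ∈ S, f x ≤ 1) {u v : V} (hu : u ∈ S)
    (hv : v ∈ S) (ne : u ≠ v) (h1 : f u = 0) (h2 : f v = 0) : ∑ x ∈ S, f x + 2 ≤ S.card := by
  have hv' : v ∈ S.erase u := mem_erase.2 ⟨ne.symm, hv⟩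
  have e1 := add_sum_erase S f hu
  have e2 := add_sum_erase _ f hv'
  have e3 : ∑ x ∈ (S.erase u).erase v, f x ≤ _ := sum_le_card_nsmul _ f 1
    fun x hx => h x (mem_of_mem_erase (mem_of_mem_erase hx))
  have e4 := card_erase_add_one hu
  have e5 := card_erase_add_one hv'
  rw [smul_eq_mul] at e3
  omega

theorem mid_mu1_zero (h : Mid G W Y U g ∅ B α β α' β' σ 1 I J) :
    Til G W ((α + β) ::ₘ (Y.lst I g + J)) := by
  obtain ⟨t, z⟩ := m1z_thr h
  by_contra hT
  have nf : ¬Fin2 G Y U g ∅ B σ 1 := fun k => hT (h.fin k)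
  have ht : _ ≤ g + 1 := Nat.le_succ_of_le z.le
  have n := z.num
  have big := z.big
  have z1 : ∀ x, dG G x ∅ = 0 := fun x => dG_eq_zero.2 (by simp)
  have z2 : ∀ x, dH G x ∅ = 0 := fun x => dH_eq_zero.2 (by simp)
  have c1 : ∀ p ∈ B, dG G p (Y.iv U t (g + 1)) ≤ 1 := fun p hp => by
    by_contra k
    exact nf (z.p2 hp (by omega))
  have nl : ∀ p ∈ B, ∀ v ∈ Y.iv U t (g + 1), ∀ u ∈ Y.iv U t (g + 1), v ≠ u → G.Adj p v →
      1 + α + α' + Y.A (g + 1) + Y.B t + dH G p B + dH G u (Y.iv U t (g + 1)) ≤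
        β + β' + Y.B (g + 1) + Y.A t + dG G u B := fun p hp v hv u hu ne e => by
    by_contra k
    have := c1 p hp
    obtain ⟨w, l⟩ := h.ll ht (Or.inl hu) hp (by rw [z1, z2]; omega)
    exact nf (z.lk (r := σ - 3) hp hv hu ne e l (by omega) (by omega) (by omega))
  have other : ∀ v, ∃ u ∈ Y.iv U t (g + 1), u ≠ v := fun v =>
    exists_mem_ne (by omega) v
  have dl : ∀ u ∈ Y.iv U t (g + 1), 1 + α + α' + Y.A (g + 1) + Y.B t +
      dH G u (Y.iv U t (g + 1)) ≤ β + β' + Y.B (g + 1) + Y.A t + dG G u B := by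
    obtain ⟨p, hp, v, hv, e⟩ : ∃ p ∈ B, ∃ v ∈ Y.iv U t (g + 1), G.Adj p v := by
      by_contra k
      push Not at k
      exact nf (z.none k)
    intro u hu
    by_cases c : v = u
    · obtain ⟨x, hx, ne⟩ := other v
      have := nl p hp v hv x hx ne.symm e
      obtain ⟨q, hq, e'⟩ := exists_adj (show 0 < dG G x B by omega)
      have := nl q hq x hx u hu (c ▸ ne) e'.symm
      omega
    · have := nl p hp v hv u hu c e
      omega
  have d1 : ∀ u ∈ Y.iv U t (g + 1), 1 ≤ dG G u B := fun u hu => by have := dl u hu; omega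
  have S1 := sum_dG_comm (G := G) (Y.iv U t (g + 1)) B
  have S2 := sum_le_card_nsmul B _ 1 c1
  have S3 := card_nsmul_le_sum _ _ 1 d1
  rw [smul_eq_mul] at S2 S3
  have Dl : α' + 1 + Y.B t ≤ β + Y.B (g + 1) := by
    by_contra k
    obtain ⟨b, hb⟩ : ∃ b, β + Y.B (g + 1) = Y.B t + b + 1 :=
      ⟨β + Y.B (g + 1) - Y.B t - 1, by omega⟩
    obtain ⟨k, hk⟩ : ∃ k, α' = b + 1 + k := ⟨α' - b - 1, by omega⟩
    have S4 := card_nsmul_le_sum (Y.iv U t (g + 1)) (fun u => dG G u B) (k + 2)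
      fun u hu => by have := h.degB ht hu; omega
    rw [smul_eq_mul] at S4
    have := Nat.mul_le_mul_right (k + 2) (show b + 2 ≤ (Y.iv U t (g + 1)).card by omega)
    nlinarith [Nat.zero_le (b * k)]
  obtain ⟨u, hu, du⟩ : ∃ u ∈ Y.iv U t (g + 1), dG G u B ≤ 1 := by
    by_contra k
    push Not at k
    have S4 := card_nsmul_le_sum (Y.iv U t (g + 1)) (fun u => dG G u B) 2 k
    rw [smul_eq_mul] at S4
    omega
  have O := dl u hu
  obtain ⟨s, hs, s1, s0, sc⟩ := h.lev ht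
  by_cases c : 2 ≤ s
  · obtain ⟨v, hv, ne⟩ := other u
    obtain ⟨p, hp, e⟩ := exists_adj (d1 v hv)
    have := c1 p hp
    obtain ⟨w, l⟩ := h.ll2 ht (Or.inl hu) hp hs c (by rw [z1]; omega)
    exact nf (z.lk (r := σ - 4) hp hv hu ne e.symm l (by omega)
      (fun _ => (dH_eq_zero.1 (by omega) v hv ne).symm) (by omega))
  have hP : Clq G (Y.iv U t (g + 1)) := fun x hx y hy ne => by
    by_contra k
    have a1 := dH_pos hy ne.symm k
    have a2 := dH_pos hx ne fun j => k j.symm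
    have a3 := dl x hx
    have a4 := dl y hy
    have := m1z_two d1 hx hy ne (by omega) (by omega)
    omega
  have hz : ∀ p ∈ B, 0 < dH G p B → dG G p (Y.iv U t (g + 1)) = 0 := fun p hp k => by
    by_contra j
    obtain ⟨v, hv, e⟩ := exists_adj (Nat.pos_of_ne_zero j)
    have a0 := card_erase_add_one hv
    obtain ⟨x, hx, y, hy, ne⟩ := one_lt_card.1
      (show 1 < ((Y.iv U t (g + 1)).erase v).card by omega)
    rw [mem_erase] at hx hy
    have a1 := nl p hp v hv x hx.2 hx.1.symm e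
    have a2 := nl p hp v hv y hy.2 hy.1.symm e
    have := m1z_two d1 hx.2 hy.2 ne (by omega) (by omega)
    omega
  have hB : Clq G B := fun x hx y hy ne => by
    by_contra k
    have := m1z_zero c1 hx hy ne (hz x hx (dH_pos hy ne.symm k))
      (hz y hy (dH_pos hx ne fun j => k j.symm))
    omega
  cases t with
  | zero =>
    have := s0 rfl
    rw [Y.A_zero, Y.B_zero] at *
    refine hT (h.prism h.dB.symm ?_ ⟨hP, hB, by omega, fun x hx => exists_adj (d1 x hx), c1⟩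
      (by omega) (by omega) (by omega))
    ext x
    simp only [h.mem, mem_union, notMem_empty, false_or]
  | succ t =>
    obtain rfl : s = 1 := by have := s1 (by omega); omega
    exact hT (z.swap hs hP hB (by omega) (by omega) (by omega) c1)

end Pool.Agent.Lib.MP_af3016_co
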