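import Pool.Agent.Lib.MP_af3016_co.C.M2X

/-! Surplus two, slack at least three: the crossing for an empty class. -/

set_option autoImplicit false
set_option linter.unusedSectionVars false

namespace Pool.Agent.Lib.MP_af3016_co

open Finset SimpleGraph

variable {V : Type} [DecidableEq V] {G : SimpleGraph V} {Y : Lay V} {U : Finset V}

variable {W B : Finset V} {g α β α' β' σ μ t : ℕ} {I J : Multiset ℕ}

/-- a path between two ports -/
theorem mz_open (h : Mid G W Y U g ∅ B α β α' β' σ μ I J) (c : Prt G Y U g σ t)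
    {Q Z Z' : Finset V} {z z' : V} {r : ℕ} (hQ : HP G z z' Q) (hz : z ∈ Y.iv U t (g + 1))
    (hz' : z' ∈ Y.iv U t (g + 1)) (hm : ∀ x, x ∈ Q ↔ x ∈ Z ∨ x ∈ Z')
    (h1 : Z ⊆ Y.iv U 0 (g + 1)) (h2 : Z' ⊆ B) (c1 : Z.card + r = σ) (c2 : Z'.card = μ)
    (hr : 1 ≤ r) (hR : Rs G Y (U \ Z) (g + 1) r) : Fin2 G Y U g ∅ B σ μ := by
  have ha : 1 ≤ Y.a g := (h.rs.one g (by omega)).trans (h.rs.ba g (by omega))
  have k2 : Ph G Y U g ∅ B σ μ Q Z Z' ((0 : Multiset (Sym2 V)).card + r) :=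
    ⟨h1, h2, by simpa using c1, c2, fun x => by simp [hm], by simpa using hR⟩
  exact k2.last h (e := fun _ => 1) hQ.cs hr (fun x y hxy => absurd hxy (Multiset.notMem_zero _))
    ⟨c.df z hz, le_rfl, ha⟩ ⟨c.df z' hz', le_rfl, ha⟩ (fun _ => le_rfl) fun _ => Or.inl (by omega)

/-- a path with adjacent ends -/
theorem mz_shut (h : Mid G W Y U g ∅ B α β α' β' σ μ I J) {Q Z Z' : Finset V} {a a' : V}
    (hQ : HP G a a' Q) (ha : G.Adj a a') (hm : ∀ x, x ∈ Q ↔ x ∈ Z ∨ x ∈ Z')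
    (h1 : Z ⊆ Y.iv U 0 (g + 1)) (h2 : Z' ⊆ B) (c1 : Z.card = σ) (c2 : Z'.card = μ)
    (hR : Rs G Y (U \ Z) (g + 1) 0) : Fin2 G Y U g ∅ B σ μ :=
  (show Ph G Y U g ∅ B σ μ Q Z Z' 0 from
    ⟨h1, h2, c1, c2, fun x => by simp [hm], hR⟩).closed h (CS.edge (gs := 0) hQ.cs ha)

theorem mz_sd (U Z0 Z1 : Finset V) : (U \ Z0) \ Z1 = U \ (Z0 ∪ Z1) := by
  ext v
  simp only [mem_sdiff, mem_union]
  tauto

/-- a path from `a` to `u` is closed below `t`, or continued to a port -/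
theorem mz_low (h : Mid G W Y U g ∅ B α β α' β' σ μ I J) (c : Prt G Y U g σ t)
    {Q Z0 Zp Z' : Finset V} {a u x : V} {r r' w : ℕ} (hQ : HP G a u Q)
    (hm : ∀ x, x ∈ Q ↔ (x ∈ Z0 ∨ x ∈ Zp) ∨ x ∈ Z') (h0 : Z0 ⊆ Y.iv U 0 t)
    (hp : Zp ⊆ Y.iv U t (g + 1)) (h2 : Z' ⊆ B) (c2 : Z'.card = μ)
    (hl : Lnk G Y (U \ Z0) t r w u x)
    (hx : (x = a ∧ Z0.card + Zp.card + r = σ) ∨ (x ∈ Y.iv U t (g + 1) ∧ x ∉ Zp ∧
      Z0.card + Zp.card + r + 1 + r' = σ ∧ (r' = 0 → G.Adj a x) ∧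
      (r' ≠ 0 → a ∈ Y.iv U t (g + 1)))) : Fin2 G Y U g ∅ B σ μ := by
  obtain ⟨y, y', Z1, k1, k2, k3, k4, k5, k6⟩ := hl
  rw [Y.iv_sdiff] at k4
  rw [mz_sd] at k6
  have l0 : ∀ y ∈ Z1, y ∈ Y.iv U 0 t ∧ y ∉ Z0 := fun y hy => mem_sdiff.1 (k4 hy)
  have l1 : Z0 ∪ Z1 ⊆ Y.iv U 0 t := union_subset h0 fun y hy => (l0 y hy).1
  have l2 : ∀ y ∈ Q, y ∉ Z1 := fun y hy hy' => by
    rcases (hm y).1 hy with (j | j) | j
    · exact (l0 y hy').2 j
    · exact iv_ne (hp j) (l0 y hy').1 rfl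
    · exact h.neB (h2 j) (c.dn (l0 y hy').1) rfl
  have l3 := hQ.join k1 l2 k2 fun _ => mem_union
  have d1 : Disjoint Z0 Z1 := Finset.disjoint_left.2 fun y a b => (l0 y b).2 a
  have d2 : ∀ P, P ⊆ Y.iv U t (g + 1) → (Z0 ∪ Z1 ∪ P).card = Z0.card + r + P.card := fun P hP => by
    rw [card_union_of_disjoint (Finset.disjoint_left.2 fun y a b => iv_ne (hP b) (l1 a) rfl),
      card_union_of_disjoint d1, k5]
  have d3 : ∀ P, P ⊆ Y.iv U t (g + 1) → Z0 ∪ Z1 ∪ P ⊆ Y.iv U 0 (g + 1) := fun P hP =>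
    union_subset (fun y hy => c.dn (l1 hy)) fun y hy => c.up (hP hy)
  have d4 : ∀ P w', P ⊆ Y.iv U t (g + 1) → Z0.card + r + P.card + w' = σ →
      Rs G Y (U \ (Z0 ∪ Z1 ∪ P)) (g + 1) w' := fun P w' hP e =>
    c.rem h.rs (fun y hy => (mem_union.1 hy).imp id fun j => hP j) l1 k6 (by rw [d2 P hP, e])
  rcases hx with ⟨rfl, e⟩ | ⟨i1, i2, i3, i4, i5⟩
  · exact mz_shut h l3 k3 (fun y => by simp only [mem_union, hm]; tauto) (d3 Zp hp) h2
      (by rw [d2 Zp hp]; omega) c2 (d4 Zp 0 hp (by omega))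
  · have l4 : x ∉ Q ∪ Z1 := fun j => by
      rcases mem_union.1 j with j | j
      · rcases (hm x).1 j with (j | j) | j
        · exact iv_ne i1 (h0 j) rfl
        · exact i2 j
        · exact h.neB (h2 j) (c.up i1) rfl
      · exact iv_ne i1 (l0 x j).1 rfl
    have l5 := l3.symm.cons k3 l4
    have l6 : insert x Zp ⊆ Y.iv U t (g + 1) := insert_subset i1 hp
    have l7 := card_insert_of_notMem i2
    have l8 : ∀ y, y ∈ insert x (Q ∪ Z1) ↔ y ∈ Z0 ∪ Z1 ∪ insert x Zp ∨ y ∈ Z' := fun y => by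
      simp only [mem_union, mem_insert, hm]
      tauto
    by_cases e : r' = 0
    · exact mz_shut h l5 (i4 e).symm l8 (d3 _ l6) h2 (by rw [d2 _ l6]; omega) c2
        (d4 _ 0 l6 (by omega))
    · exact mz_open h c (r := r') l5 i1 (i5 e) l8 (d3 _ l6) h2 (by rw [d2 _ l6]; omega) c2
        (by omega) (d4 _ _ l6 (by omega))

/-- a path from a port `a` to a vertex `u` of `B` that is close to all ports other than `f` -/
theorem mz_ll (h : Mid G W Y U g ∅ B α β α' β' σ μ I J) (c : Prt G Y U g σ t)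
    {Q Z0 Zp Z' : Finset V} {a u f : V} {r s' s : ℕ} (hQ : HP G a u Q)
    (hm : ∀ x, x ∈ Q ↔ (x ∈ Z0 ∨ x ∈ Zp) ∨ x ∈ Z') (h0 : Z0 ⊆ Y.iv U 0 t)
    (hp : Zp ⊆ Y.iv U t (g + 1)) (h2 : Z' ⊆ B) (c2 : Z'.card = μ) (hu : u ∈ B)
    (ha : a ∈ Y.iv U t (g + 1)) (hf : a ≠ f) (hp' : Zp ⊆ {a, f})
    (c1 : Z0.card + Zp.card + r = σ) (hr : 1 ≤ r) (hs' : Rs G Y U t s')
    (hs : Rs G Y (U \ Z0) t s)
    (hc : ∀ z ∈ Y.iv U t (g + 1), z ≠ f →
      s' + dG G z B + dG G u (Y.iv U t (g + 1)) ≤ s + 1 + dH G u B) : Fin2 G Y U g ∅ B σ μ := by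
  have ht : t ≤ g + 1 := by have := c.le; omega
  have hab := h.ba
  have n0 : u ∉ Y.iv (U \ Z0) 0 t := fun k =>
    Finset.disjoint_left.1 h.dB hu (Lay.iv_mono sdiff_subset le_rfl ht k)
  have one : ∀ z ∈ Y.iv U t (g + 1), z ≠ f → ∃ w, Lnk G Y (U \ Z0) t 1 w u z := fun z hz n => by
    obtain ⟨e, e', d, d', k1, k2, k3⟩ := h.pt ht hz hu hs'
    have k4 := hc z hz n
    have k5 : dG G u ∅ = 0 := dG_eq_zero.2 (by simp)
    obtain ⟨w, rfl⟩ : ∃ w, s = 1 + w := ⟨s - 1, by omega⟩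
    exact ⟨w, link_one hs n0 (iv_low_ne hz _) (d'.sdiff _) (d.sdiff _) (by omega)⟩
  by_cases e1 : r = 1
  · obtain ⟨w, hw⟩ := one a ha hf
    exact mz_low h c (r' := 0) hQ hm h0 hp h2 c2 hw (Or.inl ⟨rfl, by omega⟩)
  by_cases e2 : ∃ x ∈ Y.iv U t (g + 1), x ≠ a ∧ x ≠ f ∧ (r = 2 → G.Adj a x)
  · obtain ⟨x, k1, k2, k3, k4⟩ := e2
    obtain ⟨w, hw⟩ := one x k1 k3
    exact mz_low h c (r' := r - 2) hQ hm h0 hp h2 c2 hw (Or.inr ⟨k1,
      fun j => by have := hp' j; simp at this; tauto, by omega, fun j => k4 (by omega),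
      fun _ => ha⟩)
  · push Not at e2
    obtain ⟨x, k1, k2⟩ := exists_mem_notMem_of_card_lt_card
      (show ({a, f} : Finset V).card < (Y.iv U t (g + 1)).card by
        have := card_pair hf
        have := h.prt3 c
        omega)
    simp only [mem_insert, mem_singleton, not_or] at k2
    obtain ⟨rfl, k3⟩ := e2 x k1 k2.1 k2.2
    have k6 := dH_pos k1 k2.1 k3
    obtain ⟨e, e', d, d', l1, l2, l3⟩ := h.pt ht ha hu hs'
    have k4 := hc a ha hf
    have k5 : dG G u ∅ = 0 := dG_eq_zero.2 (by simp)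
    obtain ⟨w, rfl⟩ : ∃ w, s = 2 + w := ⟨s - 2, by omega⟩
    exact mz_low h c (r' := 0) hQ hm h0 hp h2 c2
      (link_two hs n0 (iv_low_ne ha _) (d'.sdiff _) (d.sdiff _) (by omega) (by omega))
      (Or.inl ⟨rfl, by omega⟩)

/-- the path `z p p'`, a lower link from `p'` to another port -/
theorem mz_l3 (h : Mid G W Y U g ∅ B α β α' β' σ 2 I J) (c : Prt G Y U g σ t) (h3 : 3 ≤ σ)
    {z x p p' : V} (hz : z ∈ Y.iv U t (g + 1)) (hx : x ∈ Y.iv U t (g + 1)) (hp : p ∈ B)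
    (hp' : p' ∈ B) (n : x ≠ z) (e1 : G.Adj z p) (e2 : G.Adj p p') (e3 : σ = 3 → G.Adj z x)
    (hc : dG G x B + dG G p' (Y.iv U t (g + 1)) ≤ 1 + dH G p' B) : Fin2 G Y U g ∅ B σ 2 := by
  have ht : t ≤ g + 1 := by have := c.le; omega
  have hab := h.ba
  have k5 : dG G p' ∅ = 0 := dG_eq_zero.2 (by simp)
  obtain ⟨y, k1, k2, k3, w, k4⟩ := h.low1 ht hx hp' (by omega)
  have m1 := e1.ne
  have m2 := e2.ne
  have m3 := (h.neB hp' (c.up hz)).symm
  exact mz_low h c (Z0 := ∅) (Zp := {z}) (Z' := {p, p'}) (r := 1) (r' := σ - 3) (w := w)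
    (hp_list [p] z p' (by simp [*]) (by simp [e1, e2])) (by simp) (empty_subset _)
    (by simpa using hz) (by simp [insert_subset_iff, hp, hp']) (card_pair m2)
    ⟨y, y, {y}, HP.single y, k3, k2, by simpa using k1, card_singleton y, by simpa using k4⟩
    (Or.inr ⟨hx, by simpa using n, by simp; omega, fun j => e3 (by omega), fun _ => hz⟩)

/-- the path `a p z p'` -/
theorem mz_p4 (h : Mid G W Y U g ∅ B α β α' β' σ 2 I J) (c : Prt G Y U g σ t) (h3 : 3 ≤ σ)
    {a z p p' : V} (ha : a ∈ Y.iv U t (g + 1)) (hz : z ∈ Y.iv U t (g + 1)) (hp : p ∈ B)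
    (hp' : p' ∈ B) (n : a ≠ z) (n' : p ≠ p') (e1 : G.Adj a p) (e2 : G.Adj p z) (e3 : G.Adj z p')
    (hc : ∀ x ∈ Y.iv U t (g + 1), x ≠ z →
      dG G x B + dG G p' (Y.iv U t (g + 1)) ≤ 1 + dH G p' B) : Fin2 G Y U g ∅ B σ 2 := by
  obtain ⟨s', hs⟩ := h.rs.low (show t ≤ g + 1 by have := c.le; omega)
  have m1 := e1.ne
  have m2 := e2.ne
  have m3 := e3.ne
  have m4 := (h.neB hp' (c.up ha)).symm
  have cz := card_pair n
  exact mz_ll h c (Z0 := ∅) (Zp := {a, z}) (Z' := {p, p'}) (r := σ - 2) (f := z)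
    (hp_list [p, z] a p' (by simp [*]) (by simp [e1, e2, e3])) (by simp; grind) (empty_subset _)
    (by simp [insert_subset_iff, ha, hz]) (by simp [insert_subset_iff, hp, hp']) (card_pair n') hp'
    ha n (Subset.refl _) (by simp only [card_empty]; omega) (by omega) hs (by simpa using hs)
    fun x hx j => by have := hc x hx j; omega

/-- the path `a p z p' x` -/
theorem mz_p5 (h : Mid G W Y U g ∅ B α β α' β' σ 2 I J) (c : Prt G Y U g σ t) (h3 : 3 ≤ σ)
    {a z x p p' : V} (ha : a ∈ Y.iv U t (g + 1)) (hz : z ∈ Y.iv U t (g + 1))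
    (hx : x ∈ Y.iv U t (g + 1)) (hp : p ∈ B) (hp' : p' ∈ B) (n1 : a ≠ z) (n2 : a ≠ x) (n3 : z ≠ x)
    (n' : p ≠ p') (e1 : G.Adj a p) (e2 : G.Adj p z) (e3 : G.Adj z p') (e4 : G.Adj p' x)
    (e5 : σ = 3 → G.Adj a x) : Fin2 G Y U g ∅ B σ 2 := by
  have m1 := e1.ne
  have m2 := e2.ne
  have m3 := e3.ne
  have m4 := e4.ne
  have m5 := (h.neB hp' (c.up ha)).symm
  have m6 := h.neB hp (c.up hx)
  have cz : ({a, z, x} : Finset V).card = 3 := card_eq_three.2 ⟨a, z, x, n1, n2, n3, rfl⟩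
  have k1 := hp_list (G := G) [p, z, p'] a x (by simp [*]) (by simp [e1, e2, e3, e4])
  have k2 : ({a, z, x} : Finset V) ⊆ Y.iv U t (g + 1) := by simp [insert_subset_iff, ha, hz, hx]
  by_cases e : σ = 3
  · exact mz_shut h (Z := {a, z, x}) (Z' := {p, p'}) k1 (e5 e) (by simp; grind)
      (fun y hy => c.up (k2 hy)) (by simp [insert_subset_iff, hp, hp']) (by omega) (card_pair n')
      (c.rem0 h.rs k2 (by omega))
  · exact mz_open h c (Z := {a, z, x}) (Z' := {p, p'}) (r := σ - 3) k1 ha hx (by simp; grind)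
      (fun y hy => c.up (k2 hy)) (by simp [insert_subset_iff, hp, hp']) (by omega) (card_pair n')
      (by omega) (c.rem0 h.rs k2 (by omega))

/-- no edge of `B` has distinct ports; then the vertices with ports form an independent set -/
theorem mz_ind (h : Mid G W Y U g ∅ B α β α' β' σ 2 I J) (c : Prt G Y U g σ t) (h3 : 3 ≤ σ)
    {z z' p p' : V} (hz : z ∈ Y.iv U t (g + 1)) (hz' : z' ∈ Y.iv U t (g + 1)) (hp : p ∈ B)
    (hp' : p' ∈ B) (e1 : G.Adj z p) (e2 : G.Adj p p') (e3 : G.Adj p' z') :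
    Fin2 G Y U g ∅ B σ 2 := by
  by_contra hn
  have a2 : ∀ x ∈ Y.iv U t (g + 1), ∀ x' ∈ Y.iv U t (g + 1), ∀ q ∈ B, ∀ q' ∈ B, G.Adj x q →
      G.Adj q q' → G.Adj q' x' → x = x' := fun x hx x' hx' q hq q' hq' f1 f2 f3 => by
    by_contra n
    have m1 := f1.ne
    have m2 := f2.ne
    have m3 := f3.ne
    have m4 := (h.neB hq' (c.up hx)).symm
    have m5 := h.neB hq (c.up hx')
    have k2 : ({x, x'} : Finset V) ⊆ Y.iv U t (g + 1) := by simp [insert_subset_iff, hx, hx']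
    have cz := card_pair n
    exact hn (mz_open h c (Z := {x, x'}) (Z' := {q, q'}) (r := σ - 2)
      (hp_list [q, q'] x x' (by simp [*]) (by simp [f1, f2, f3])) hx hx' (by simp; grind)
      (fun y hy => c.up (k2 hy)) (by simp [insert_subset_iff, hq, hq']) (by omega) (card_pair m2)
      (by omega) (c.rem0 h.rs k2 (by omega)))
  obtain ⟨x, hx, f⟩ := c.nb z hz
  refine hn (mz_l3 h c h3 hz hx hp hp' f.ne.symm e1 e2 (fun _ => f) ?_)
  obtain rfl := a2 z hz z' hz' p hp p' hp' e1 e2 e3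
  have k1 : dG G p' (Y.iv U t (g + 1)) ≤ 1 := (dG_le (R := {z}) fun y hy j =>
    mem_singleton.2 (a2 z hz y hy p hp p' hp' e1 e2 j).symm).trans (by simp)
  obtain ⟨N, j1, j2⟩ := exists_nbhd (G := G) x B
  have k2 : N.card ≤ dH G p' B := le_dH fun q hq => by
    rw [j2] at hq
    exact ⟨hq.1, fun e => f.ne (a2 z hz x hx p hp q hq.1 e1 (e ▸ e2) hq.2.symm),
      fun j => f.ne (a2 z hz x hx p' hp' q hq.1 e3.symm j hq.2.symm)⟩
  omega

theorem mz_cnt (h : Mid G W Y U g ∅ B α β α' β' σ 2 I J) (c : Prt G Y U g σ t) (h3 : 3 ≤ σ)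
    (hn : ¬Fin2 G Y U g ∅ B σ 2) {z x p : V} (hz : z ∈ Y.iv U t (g + 1))
    (hx : x ∈ Y.iv U t (g + 1)) (hp : p ∈ B) (e : G.Adj x p) {S : Finset V}
    (hS : ∀ q ∈ S, q ∈ B ∧ ¬G.Adj z q ∧ ∃ y ∈ Y.iv U t (g + 1), G.Adj y q) :
    dG G z B + S.card ≤ dH G p B + 1 := by
  obtain ⟨N, j1, j2⟩ := exists_nbhd (G := G) z B
  have d1 : Disjoint N S := Finset.disjoint_left.2 fun x h1 h2 => (hS x h2).2.1 ((j2 x).1 h1).2
  have d2 : ((N ∪ S).erase p).card ≤ dH G p B := le_dH fun q hq => by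
    rw [mem_erase, mem_union] at hq
    rcases hq with ⟨i1, i2 | i2⟩
    · rw [j2] at i2
      exact ⟨i2.1, i1, fun j => hn (mz_ind h c h3 hx hz hp i2.1 e j i2.2.symm)⟩
    · obtain ⟨i3, -, y, i4, i5⟩ := hS q i2
      exact ⟨i3, i1, fun j => hn (mz_ind h c h3 hx i4 hp i3 e j i5.symm)⟩
  have d3 := pred_card_le_card_erase (s := N ∪ S) (a := p)
  rw [card_union_of_disjoint d1] at d3
  omega

/-- some port has at most one neighbour in `B` -/
theorem mz_few (h : Mid G W Y U g ∅ B α β α' β' σ 2 I J) (c : Prt G Y U g σ t) (h3 : 3 ≤ σ)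
    {z : V} (hz : z ∈ Y.iv U t (g + 1)) (h1 : dG G z B ≤ 1) : Fin2 G Y U g ∅ B σ 2 := by
  classical
  by_contra hn
  have ht : t ≤ g + 1 := by have := c.le; omega
  have b1 := h.cB
  have b2 := h.sJ.le
  have b3 := h.cD
  have b4 := h.ab
  have b5 := h.ba
  rw [card_empty] at b3
  have deg : ∀ p ∈ B, α' + 2 ≤ dG G p B := fun p hp => by
    have := h.hapB p hp
    have := dG_add_dH_in (G := G) hp
    omega
  have k5 : ∀ q, dG G q ∅ = 0 := fun q => dG_eq_zero.2 (by simp)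
  by_cases e0 : ∃ x ∈ Y.iv U t (g + 1), ∃ p ∈ B, G.Adj x p
  · obtain ⟨x, hx, p, hp, f⟩ := e0
    by_cases e3 : σ = 3
    · obtain ⟨R, hR⟩ : ∃ R : Finset V, ∀ q, q ∈ R ↔ q ∈ B ∧ ∃ y ∈ Y.iv U t (g + 1), G.Adj y q :=
        ⟨@Finset.filter _ _ (Classical.decPred _) B, fun q => @mem_filter _ _ (Classical.decPred _) B q⟩
      have r1 : (R.erase p).card ≤ dH G p B := le_dH fun q hq => by
        rw [mem_erase, hR] at hq
        obtain ⟨i1, i2, y, i3, i4⟩ := hq
        exact ⟨i2, i1, fun j => hn (mz_ind h c h3 hx i3 hp i2 f j i4.symm)⟩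
      have r2 := pred_card_le_card_erase (s := R) (a := p)
      have r3 := h.hapB p hp
      obtain ⟨q, q1, -, q3⟩ := exists_adj_notMem (G := G) (a := p) (S := B) (R := R)
        (by have := deg p hp; omega)
      obtain ⟨q', q1', q2', q3'⟩ := exists_adj_notMem (G := G) (a := q) (S := B) (R := R)
        (by have := deg q q1; omega)
      have r4 : ∀ u ∈ B, u ∉ R → dG G u (Y.iv U t (g + 1)) = 0 := fun u hu j =>
        dG_eq_zero.2 fun y hy i => j ((hR u).2 ⟨hu, y, hy, i.symm⟩)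
      obtain ⟨y, hy, y', hy', f0, f1, f2, f3, f4, w, hw⟩ := h.low2 ht hz q1 hz q1'
        (by have := r4 q q1 q3; have := k5 q; omega) (by have := r4 q' q1' q3'; have := k5 q'; omega)
      have m1 := h.neB q1 (c.up hz)
      have m2 := h.neB q1 (c.dn hy)
      have m3 := h.neB q1 (c.dn hy')
      have m4 := (h.neB q1' (c.up hz)).symm
      have m5 := (h.neB q1' (c.dn hy)).symm
      have m6 := (h.neB q1' (c.dn hy')).symm
      have m7 := (iv_ne hz hy).symm
      have m8 := iv_ne hz hy'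
      have m9 := q2'.ne
      have cz : ({y, z, y'} : Finset V).card = 3 := card_eq_three.2 ⟨y, z, y', m7, f0, m8, rfl⟩
      exact hn (mz_shut h (Z := {y, z, y'}) (Z' := {q, q'})
        (hp_list [y, z, y'] q q' (by simp [*]) (by simp [f2, f1.symm, f3, f4.symm])) q2'
        (by simp; grind) (by simp [insert_subset_iff, c.up hz, c.dn hy', c.dn hy])
        (by simp [insert_subset_iff, q1, q1']) (by omega) (card_pair m9)
        (c.rem h.rs (Z0 := {y, y'}) (by simp [hz]) (by simp [insert_subset_iff, hy, hy']) hw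
          (by omega)))
    · have key : ∀ x ∈ Y.iv U t (g + 1), ∀ p ∈ B, G.Adj x p → ∀ y ∈ Y.iv U t (g + 1), y ≠ x →
          ¬dG G y B ≤ 1 := fun x hx p hp f y hy n j => by
        obtain ⟨q, q1, q2⟩ := exists_adj (G := G) (a := p) (S := B) (by have := deg p hp; omega)
        have := dG_eq_zero.2 fun u hu (i : G.Adj q u) => hn (mz_ind h c h3 hx hu hp q1 f q2 i)
        exact hn (mz_l3 h c h3 hx hy hp q1 n f q2 (fun i => absurd i e3) (by omega))
      obtain ⟨y, hy, f'⟩ := c.nb z hz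
      obtain rfl : z = x := by_contra fun n => key x hx p hp f z hz n h1
      have k1 := key z hz p hp f y hy f'.ne.symm
      obtain ⟨q, q1, q2⟩ := exists_adj (G := G) (a := y) (S := B) (by omega)
      exact key y hy q q1 q2 z hz f'.ne h1
  · push Not at e0
    have z1 : ∀ x ∈ Y.iv U t (g + 1), dG G x B = 0 := fun x hx => dG_eq_zero.2 (e0 x hx)
    have z2 : ∀ p ∈ B, dG G p (Y.iv U t (g + 1)) = 0 := fun p hp =>
      dG_eq_zero.2 fun x hx j => e0 x hx p hp j.symm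
    obtain ⟨p, hp⟩ : B.Nonempty := card_pos.1 (by omega)
    obtain ⟨q, q1, q2⟩ := exists_adj (G := G) (a := p) (S := B) (by have := deg p hp; omega)
    obtain ⟨s', hs⟩ := h.rs.low ht
    obtain ⟨y, hy, f1, f2, w, hw⟩ := h.low1 ht hz hp
      (by have := z1 z hz; have := z2 p hp; have := k5 p; omega)
    have m1 := (h.neB hp (c.up hz)).symm
    have m2 := (h.neB hp (c.dn hy)).symm
    have m4 := (h.neB q1 (c.up hz)).symm
    have m5 := (h.neB q1 (c.dn hy)).symm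
    have m7 := iv_ne hz hy
    have m9 := q2.ne
    have a1 := hs.top
    have a2 := hw.top
    rw [Y.iv_sdiff, card_sdiff_of_subset (by simpa using hy), card_singleton] at a2
    have a3 := card_pos.2 ⟨y, hy⟩
    exact hn (mz_ll h c (Z0 := {y}) (Zp := {z}) (Z' := {p, q}) (r := σ - 2) (f := p)
      (hp_list [y, p] z q (by simp [*]) (by simp [f1, f2.symm, q2])) (by simp; grind)
      (by simpa using hy) (by simpa using hz) (by simp [insert_subset_iff, hp, q1]) (card_pair m9)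
      q1 hz m1 (by simp) (by simp only [card_singleton]; omega) (by omega) hs hw
      fun x hx _ => by have := z1 x hx; have := z2 q q1; omega)

/-- a vertex of `B` with exactly one port -/
theorem mz_single (h : Mid G W Y U g ∅ B α β α' β' σ 2 I J) (c : Prt G Y U g σ t) (h3 : 3 ≤ σ)
    {z p : V} (hz : z ∈ Y.iv U t (g + 1)) (hp : p ∈ B) (e : G.Adj z p)
    (h1 : dG G p (Y.iv U t (g + 1)) ≤ 1) : Fin2 G Y U g ∅ B σ 2 := by
  by_contra hn
  have ht : t ≤ g + 1 := by have := c.le; omega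
  have b5 := h.ba
  have k5 : ∀ q, dG G q ∅ = 0 := fun q => dG_eq_zero.2 (by simp)
  have only : ∀ q, G.Adj z q → dG G q (Y.iv U t (g + 1)) ≤ 1 → ∀ x ∈ Y.iv U t (g + 1), x ≠ z →
      ¬G.Adj x q := fun q f j x hx n i => by
    have := le_dG (G := G) (a := q) (S := Y.iv U t (g + 1)) (R := {x, z})
      (by simp [hx, hz, i.symm, f.symm])
    have := card_pair n
    omega
  obtain ⟨q, q1, q2, q3⟩ := exists_adj_notMem (G := G) (a := z) (S := B) (R := {p}) (by
    by_contra j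
    exact hn (mz_few h c h3 hz (by simpa using j)))
  rw [mem_singleton] at q3
  by_cases e1 : dG G q (Y.iv U t (g + 1)) ≤ 1
  · have cn : ∀ u ∈ B, G.Adj z u → ∀ x ∈ Y.iv U t (g + 1), x ≠ z → dG G x B + 1 ≤ dH G u B :=
      fun u hu f x hx n => by
        have := mz_cnt h c h3 hn hx hz hu f (S := {q, p}) (by
          simp only [mem_insert, mem_singleton, forall_eq_or_imp, forall_eq]
          exact ⟨⟨q1, only q q2 e1 x hx n, z, hz, q2⟩, hp, only p e h1 x hx n, z, hz, e⟩)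
        have := card_pair q3
        omega
    obtain ⟨x, hx, f⟩ := c.nb z hz
    obtain ⟨s', hs⟩ := h.rs.low ht
    have m1 := q2.ne.symm
    have m2 := e.ne
    by_cases e3 : σ = 3
    · obtain ⟨e1, e1', -, d1, i1, i2, i3⟩ := h.pt ht hx q1 hs
      obtain ⟨e2, e2', -, d2, i4, i5, i6⟩ := h.pt ht hx hp hs
      have i7 := cn q q1 q2 x hx f.ne.symm
      have i8 := cn p hp e x hx f.ne.symm
      have i9 := k5 q
      have i10 := k5 p
      obtain ⟨w, rfl⟩ : ∃ w, s' = 2 + w := ⟨s' - 2, by omega⟩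
      have n0 : ∀ u ∈ B, u ∉ Y.iv U 0 t := fun u hu k => h.neB hu (c.dn k) rfl
      exact hn (mz_low h c (Z0 := ∅) (Zp := {z}) (Z' := {q, p}) (r := 2) (r' := 0) (w := w)
        (hp_list [z] q p (by simp [*]) (by simp [q2.symm, e])) (by simp; grind) (empty_subset _)
        (by simpa using hz) (by simp [insert_subset_iff, hp, q1]) (card_pair q3)
        (by simpa using link_two hs (n0 p hp) (n0 q q1) d2 d1 (by omega) (by omega))
        (Or.inl ⟨rfl, by simp [e3]⟩))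
    · obtain ⟨y, hy, f1, f2, w, hw⟩ := h.low1 ht hx q1
        (by have := cn q q1 q2 x hx f.ne.symm; have := k5 q; omega)
      have m3 := (h.neB hp (c.up hx)).symm
      have m4 := (h.neB q1 (c.up hx)).symm
      have m5 := (h.neB hp (c.dn hy)).symm
      have m6 := (h.neB q1 (c.dn hy)).symm
      have m7 := iv_ne hx hy
      have m8 := (iv_ne hz hy).symm
      have m9 := f.ne.symm
      have a1 := hs.top
      have a2 := hw.top
      rw [Y.iv_sdiff, card_sdiff_of_subset (by simpa using hy), card_singleton] at a2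
      have a3 := card_pos.2 ⟨y, hy⟩
      have a4 := card_pair m9
      exact hn (mz_ll h c (Z0 := {y}) (Zp := {x, z}) (Z' := {q, p}) (r := σ - 3) (f := z)
        (hp_list [y, q, z] x p (by simp [*]) (by simp [f1, f2.symm, q2.symm, e])) (by simp; grind)
        (by simpa using hy) (by simp [insert_subset_iff, hx, hz])
        (by simp [insert_subset_iff, hp, q1]) (card_pair q3)
        hp hx m9 (Subset.refl _) (by simp only [card_singleton]; omega) (by omega) hs hw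
        fun u hu n => by have := cn p hp e u hu n; omega)
  · obtain ⟨x, hx, f, n⟩ := exists_adj_notMem (G := G) (a := q) (S := Y.iv U t (g + 1)) (R := {z})
      (by rw [card_singleton]; omega)
    refine hn (mz_p4 h c h3 hx hz q1 hp (by simpa using n) q3 f.symm q2.symm e fun u hu n' => ?_)
    have := mz_cnt h c h3 hn hu hz hp e (S := {p}) (by
      simp only [mem_singleton, forall_eq]
      exact ⟨hp, only p e h1 u hu n', z, hz, e⟩)
    rw [card_singleton] at this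
    omega

theorem m2_zero (h : Mid G W Y U g ∅ B α β α' β' σ 2 I J) (h3 : 3 ≤ σ) :
    Fin2 G Y U g ∅ B σ 2 := by
  by_contra hn
  obtain ⟨t, c⟩ := h.rs.prt h.sg
  have ht : t ≤ g + 1 := by have := c.le; omega
  have a3 := (h.prt3 c).2
  have s1 : ∀ z ∈ Y.iv U t (g + 1), ∀ p, ∃ q ∈ B, G.Adj z q ∧ q ≠ p := fun z hz p => by
    obtain ⟨q, q1, q2, q3⟩ := exists_adj_notMem (G := G) (a := z) (S := B) (R := {p}) (by
      by_contra j
      exact hn (mz_few h c h3 hz (by simpa using j)))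
    exact ⟨q, q1, q2, by simpa using q3⟩
  have s2 : ∀ z ∈ Y.iv U t (g + 1), ∀ p ∈ B, G.Adj z p →
      ∃ x ∈ Y.iv U t (g + 1), G.Adj p x ∧ x ≠ z := fun z hz p hp e => by
    obtain ⟨q, q1, q2, q3⟩ := exists_adj_notMem (G := G) (a := p) (S := Y.iv U t (g + 1))
      (R := {z}) (by
        by_contra j
        exact hn (mz_single h c h3 hz hp e (by simpa using j)))
    exact ⟨q, q1, q2, by simpa using q3⟩
  by_cases e3 : σ = 3
  · have b3 := h.cD
    have b4 := h.ab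
    have b5 := h.ba
    rw [card_empty] at b3
    have all : ∀ a ∈ Y.iv U t (g + 1), ∀ q ∈ B, ∀ y ∈ Y.iv U t (g + 1), G.Adj y q → G.Adj a q := by
      intro a ha q hq y hy f
      by_contra n
      obtain ⟨p, hp, f1, -⟩ := s1 a ha a
      obtain ⟨z, hz, f2, n1⟩ := s2 a ha p hp f1
      obtain ⟨p', hp', f3, n2⟩ := s1 z hz p
      have k1 := mz_cnt h c h3 hn ha hz hp' f3 (S := {q}) (by
        simp only [mem_singleton, forall_eq]
        exact ⟨hq, n, y, hy, f⟩)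
      obtain ⟨N, j1, j2⟩ := exists_nbhd (G := G) p' (Y.iv U t (g + 1))
      have k2 : ((N.erase z).erase a).card ≤ dH G a (Y.iv U t (g + 1)) := le_dH fun x hx => by
        rw [mem_erase, mem_erase, j2] at hx
        exact ⟨hx.2.2.1, hx.1, fun j => hn (mz_p5 h c h3 ha hz hx.2.2.1 hp hp' n1.symm hx.1.symm
          hx.2.1.symm n2.symm f1 f2 f3 hx.2.2.2 fun _ => j)⟩
      have k3 := pred_card_le_card_erase (s := N) (a := z)
      have k4 := pred_card_le_card_erase (s := N.erase z) (a := a)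
      have k5 : dG G p' ∅ = 0 := dG_eq_zero.2 (by simp)
      rw [card_singleton] at k1
      obtain ⟨u, hu, g1, g2, w, hw⟩ := h.low1 ht ha hp' (by omega)
      have m1 := f1.ne
      have m2 := f2.ne
      have m3 := f3.ne
      have m4 := (h.neB hp' (c.up ha)).symm
      have m5 := n1.symm
      have m6 := n2.symm
      have cz := card_pair m5
      exact hn (mz_low h c (Z0 := ∅) (Zp := {a, z}) (Z' := {p, p'}) (r := 1) (r' := 0) (w := w)
        (hp_list [p, z] a p' (by simp [*]) (by simp [f1, f2, f3])) (by simp; grind)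
        (empty_subset _) (by simp [insert_subset_iff, ha, hz])
        (by simp [insert_subset_iff, hp, hp']) (card_pair m6)
        ⟨u, u, {u}, HP.single u, g2, g1, by simpa using hu, card_singleton u, by simpa using hw⟩
        (Or.inl ⟨rfl, by simp only [card_empty]; omega⟩))
    obtain ⟨a, ha⟩ : (Y.iv U t (g + 1)).Nonempty := card_pos.1 (by omega)
    obtain ⟨x, hx, f⟩ := c.nb a ha
    obtain ⟨z, hz, n⟩ := exists_mem_notMem_of_card_lt_card
      (show ({a, x} : Finset V).card < (Y.iv U t (g + 1)).card by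
        have := card_pair f.ne
        omega)
    simp only [mem_insert, mem_singleton, not_or] at n
    obtain ⟨p, hp, f1, -⟩ := s1 z hz z
    obtain ⟨p', hp', f2, n2⟩ := s1 z hz p
    exact hn (mz_p5 h c h3 ha hz hx hp hp' (Ne.symm n.1) f.ne n.2 n2.symm (all a ha p hp z hz f1)
      f1.symm f2 (all x hx p' hp' z hz f2).symm fun _ => f)
  · have p5 : ∀ z ∈ Y.iv U t (g + 1), ∀ a ∈ Y.iv U t (g + 1), ∀ x ∈ Y.iv U t (g + 1), ∀ p ∈ B,
        ∀ p' ∈ B, p ≠ p' → a ≠ z → x ≠ z → G.Adj z p → G.Adj z p' → G.Adj p a → G.Adj p' x →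
        a = x := fun z hz a ha x hx p hp p' hp' n1 n2 n3 f1 f2 f3 f4 => by_contra fun n =>
      hn (mz_p5 h c h3 ha hz hx hp hp' n2 n n3.symm n1 f3.symm f1.symm f2 f4 fun j => absurd j e3)
    have d2 : ∀ z ∈ Y.iv U t (g + 1), ∀ p ∈ B, G.Adj z p → dG G p (Y.iv U t (g + 1)) ≤ 2 :=
      fun z hz p hp f => by
        obtain ⟨q, hq, f1, n1⟩ := s1 z hz p
        obtain ⟨a, ha, f2, n2⟩ := s2 z hz q hq f1
        refine (dG_le (R := {z, a}) fun x hx j => ?_).trans card_le_two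
        by_cases e : x = z
        · simp [e]
        · simp [p5 z hz x hx a ha p hp q hq n1.symm e n2 f f1 j f2]
    obtain ⟨z, hz⟩ : (Y.iv U t (g + 1)).Nonempty := card_pos.1 (by omega)
    obtain ⟨p, hp, f1, -⟩ := s1 z hz z
    obtain ⟨p', hp', f2, n2⟩ := s1 z hz p
    obtain ⟨a, ha, f3, n3⟩ := s2 z hz p hp f1
    refine hn (mz_p4 h c h3 ha hz hp hp' n3 n2.symm f3.symm f1.symm f2 fun x hx _ => ?_)
    obtain ⟨q, hq, g1, -⟩ := s1 x hx x
    obtain ⟨N, j1, j2⟩ := exists_nbhd (G := G) q (Y.iv U t (g + 1))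
    obtain ⟨y, hy, g2⟩ := exists_mem_notMem_of_card_lt_card
      (show N.card < (Y.iv U t (g + 1)).card by have := d2 x hx q hq g1; omega)
    have g3 : ¬G.Adj q y := fun j => g2 ((j2 y).2 ⟨hy, j⟩)
    have g4 : y ≠ x := fun j => g3 (j ▸ g1.symm)
    obtain ⟨b, hb, g5, g6⟩ := s2 x hx q hq g1
    have g7 : ∀ u ∈ B, G.Adj y u → ¬G.Adj x u := fun u hu i i' =>
      g3 (p5 x hx y hy b hb u hu q hq (fun j => g3 (j ▸ i.symm)) g4 g6 i' g1 i.symm g5 ▸ g5)
    obtain ⟨u, hu, g8, -⟩ := s1 y hy y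
    obtain ⟨u', hu', g9, g10⟩ := s1 y hy u
    have k1 := mz_cnt h c h3 hn hx hz hp' f2 (S := {u', u}) (by
      simp only [mem_insert, mem_singleton, forall_eq_or_imp, forall_eq]
      exact ⟨⟨hu', g7 u' hu' g9, y, hy, g9⟩, hu, g7 u hu g8, y, hy, g8⟩)
    have k2 := card_pair g10
    have k3 := d2 z hz p' hp' f2
    omega

end Pool.Agent.Lib.MP_af3016_co
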