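import Pool.Agent.Lib.MP_af3016_co.C.Two
import Pool.Agent.Lib.MP_af3016_co.C.M6a

/-! A reservoir with slack two seen from the class. -/

set_option autoImplicit false
set_option linter.unusedSectionVars false

namespace Pool.Agent.Lib.MP_af3016_co

open Finset SimpleGraph

variable {V : Type} [DecidableEq V] {G : SimpleGraph V} {Y : Lay V} {U : Finset V}

theorem m6_top1 {X : Finset V} {a b : V} (ha : a ∈ X) (hb : b ∈ X) (hab : a ≠ b) :
    CS ⊤ X {s(a, b)} :=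
  (HP.clique _ X a b rfl (fun _ _ _ _ e => e) ha hb hab).cs

theorem m6_attach {X : Finset V} {gs : Multiset (Sym2 V)} {u y : V} (h : CS ⊤ X gs) (hu : u ∈ X)
    (h2 : 2 ≤ X.card) (hg : M6f u gs) (hy : y ∉ X) : CS ⊤ (insert y X) (s(u, y) ::ₘ gs) := by
  obtain ⟨q, -, k⟩ := m6_open h hu h2 hg
  have hq := (k.mem (Multiset.mem_cons_self _ _)).2
  have k2 := k.glue (gs' := 0) (HP.single (G := ⊤) y).cs (disjoint_singleton_right.2 hy)
  rw [Multiset.cons_swap, add_zero, union_comm, ← insert_eq] at k2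
  exact k2.edge fun e => hy (e ▸ hq)

theorem m6_top2' {X : Finset V} {a b a' b' : V} (ha : a ∈ X) (hb : b ∈ X) (ha' : a' ∈ X)
    (hb' : b' ∈ X) (hab : a ≠ b) (hab' : a' ≠ b') (h1 : a ≠ a') (h2 : a ≠ b') :
    CS ⊤ X (s(a, b) ::ₘ {s(a', b')}) := by
  have k1 : a' ∈ X.erase a := mem_erase.2 ⟨h1.symm, ha'⟩
  have k2 : b' ∈ X.erase a := mem_erase.2 ⟨h2.symm, hb'⟩
  have := m6_attach (m6_top1 k1 k2 hab') (mem_erase.2 ⟨hab.symm, hb⟩)
    (one_lt_card.2 ⟨a', k1, b', k2, hab'⟩) (m6f_one _ _) (notMem_erase a X)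
  rwa [insert_erase ha, Sym2.eq_swap] at this

theorem m6_top2 {X : Finset V} {a b a' b' : V} (ha : a ∈ X) (hb : b ∈ X) (ha' : a' ∈ X)
    (hb' : b' ∈ X) (hab : a ≠ b) (hab' : a' ≠ b') (h : s(a, b) ≠ s(a', b')) :
    CS ⊤ X (s(a, b) ::ₘ {s(a', b')}) := by
  by_cases e : a ≠ a' ∧ a ≠ b'
  · exact m6_top2' ha hb ha' hb' hab hab' e.1 e.2
  · rw [Sym2.eq_swap]
    refine m6_top2' hb ha ha' hb' hab.symm hab' (fun k => ?_) fun k => ?_
    · subst k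
      exact e ⟨hab, fun k => h (by rw [k, Sym2.eq_swap])⟩
    · subst k
      exact e ⟨fun k => h (by rw [k]), hab⟩

theorem m6_pigeon {S T J : Finset V} {k : ℕ} (hJ : ∀ y ∈ S, ∀ z ∈ T, G.Adj y z → z ∈ J)
    (hk : ∀ y ∈ S, k ≤ dG G y T) (hc : J.card < S.card * k) :
    ∃ z ∈ T, ∃ a ∈ S, ∃ b ∈ S, a ≠ b ∧ G.Adj a z ∧ G.Adj b z := by
  by_contra n
  push Not at n
  have h1 : ∀ z ∈ T ∩ J, dG G z S ≤ 1 := fun z hz => by
    obtain ⟨N, g1, g2⟩ := exists_nbhd (G := G) z S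
    rw [← g1]
    refine card_le_one.2 fun a ha b hb => ?_
    by_contra e
    exact n z (mem_inter.1 hz).1 a ((g2 a).1 ha).1 b ((g2 b).1 hb).1 e ((g2 a).1 ha).2.symm
      ((g2 b).1 hb).2.symm
  have h2 : ∀ y ∈ S, k ≤ dG G y (T ∩ J) := fun y hy => by
    obtain ⟨N, g1, g2⟩ := exists_nbhd (G := G) y (T ∩ J)
    rw [← g1]
    exact (hk y hy).trans (dG_le fun z hz e => (g2 z).2 ⟨mem_inter.2 ⟨hz, hJ y hy z hz e⟩, e⟩)
  have h3 := card_nsmul_le_sum S _ k h2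
  have h4 := sum_le_card_nsmul _ _ 1 h1
  rw [sum_dG_comm] at h3
  have := card_le_card (inter_subset_right (s₁ := T) (s₂ := J))
  simp only [smul_eq_mul] at h3 h4
  omega

/-- two vertices with two neighbours each in `S`, the pairs being different and not both at `u` -/
theorem m6_mm {S T L J JT : Finset V} {k kT : ℕ} (u : V) (hT : T ⊆ L)
    (hJ : ∀ y ∈ S, ∀ z ∈ L, G.Adj y z → z ∈ J) (hJT : ∀ y ∈ S, ∀ z ∈ T, G.Adj y z → z ∈ JT)
    (hk : ∀ y ∈ S, k + 1 ≤ dG G y L) (hkT : ∀ y ∈ S, kT ≤ dG G y T)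
    (c1 : JT.card < S.card * kT) (c2 : J.card ≤ (S.card - 1) * k) (c3 : 2 ≤ S.card) :
    ∃ z ∈ T, ∃ z' ∈ L, z ≠ z' ∧ ∃ a ∈ S, ∃ b ∈ S, ∃ a' ∈ S, ∃ b' ∈ S, a ≠ b ∧ a' ≠ b' ∧
      G.Adj a z ∧ G.Adj b z ∧ G.Adj a' z' ∧ G.Adj b' z' ∧ s(a, b) ≠ s(a', b') ∧
      ¬(u ∈ s(a, b) ∧ u ∈ s(a', b')) := by
  by_cases e : ∃ z ∈ T, ∃ a ∈ S, ∃ b ∈ S, a ≠ b ∧ G.Adj a z ∧ G.Adj b z ∧ u ∉ s(a, b)
  · obtain ⟨z, hz, a, ha, b, hb, k1, k2, k3, k4⟩ := e
    have hzJ := hJ a ha z (hT hz) k2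
    have := card_pos.2 ⟨z, hzJ⟩
    obtain ⟨z', hz', a', ha', b', hb', g1, g2, g3⟩ := m6_pigeon (G := G) (S := S.erase a)
      (T := L.erase z) (J := J.erase z) (k := k)
      (fun y hy x hx g => mem_erase.2 ⟨(mem_erase.1 hx).1,
        hJ y (mem_of_mem_erase hy) x (mem_of_mem_erase hx) g⟩)
      (fun y hy => by
        have := hk y (mem_of_mem_erase hy)
        have := (tools_erase (G := G) y z L).1
        omega)
      (by rw [card_erase_of_mem hzJ, card_erase_of_mem ha]; omega)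
    rw [mem_erase] at hz' ha' hb'
    refine ⟨z, hz, z', hz'.2, hz'.1.symm, a, ha, b, hb, a', ha'.2, b', hb'.2, k1, g1, k2, k3, g2,
      g3, fun g => ?_, fun g => k4 g.1⟩
    rcases Sym2.eq_iff.1 g with g | g
    exacts [ha'.1 g.1.symm, hb'.1 g.1.symm]
  · obtain ⟨z, hz, a, ha, b, hb, k1, k2, k3⟩ := m6_pigeon hJT hkT c1
    have k4 : u ∈ s(a, b) := by
      by_contra g
      exact e ⟨z, hz, a, ha, b, hb, k1, k2, k3, g⟩
    have hu : u ∈ S := by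
      rcases Sym2.mem_iff.1 k4 with g | g <;> rw [g] <;> assumption
    obtain ⟨z', hz', a', ha', b', hb', g1, g2, g3⟩ := m6_pigeon (G := G) (S := S.erase u)
      (T := L) (J := J) (k := k + 1) (fun y hy => hJ y (mem_of_mem_erase hy))
      (fun y hy => hk y (mem_of_mem_erase hy))
      (by rw [card_erase_of_mem hu, Nat.mul_succ]; omega)
    rw [mem_erase] at ha' hb'
    have g4 : u ∉ s(a', b') := fun g => by
      rcases Sym2.mem_iff.1 g with g | g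
      exacts [ha'.1 g.symm, hb'.1 g.symm]
    refine ⟨z, hz, z', hz', fun g => e ⟨z, hz, a', ha'.2, b', hb'.2, g1, g ▸ g2, g ▸ g3, g4⟩, a, ha,
      b, hb, a', ha'.2, b', hb'.2, k1, g1, k2, k3, g2, g3, fun g => g4 (g ▸ k4), fun g => g4 g.2⟩

theorem m6_full {T J : Finset V} {y : V} (hJ : ∀ z ∈ T, G.Adj y z → z ∈ J)
    (hc : J.card ≤ dG G y T) : ∀ z ∈ J, z ∈ T ∧ G.Adj y z := by
  obtain ⟨N, g1, g2⟩ := exists_nbhd (G := G) y T
  have : N = J := eq_of_subset_of_card_le (fun z hz => hJ z ((g2 z).1 hz).1 ((g2 z).1 hz).2)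
    (by omega)
  exact fun z hz => (g2 z).1 (this ▸ hz)

theorem m6_fb1 {m : ℕ} {a b z : V} (hz : z ∈ Y.iv U 0 m) (hR : Rs G Y (U \ {z}) m 0)
    (h1 : G.Adj a z) (h2 : G.Adj b z) : Fb G Y U m 1 {s(a, b)} :=
  Fb.one fun _ _ => ⟨z, z, {z}, HP.single z, h1, h2, singleton_subset_iff.2 hz, card_singleton z, hR⟩

theorem m6_fb2 {m : ℕ} {a b a' b' z z' : V} (hz : z ∈ Y.iv U 0 m) (hz' : z' ∈ Y.iv U 0 m)
    (hne : z ≠ z') (hR : Rs G Y (U \ {z, z'}) m 0) (h1 : G.Adj a z) (h2 : G.Adj b z)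
    (h3 : G.Adj a' z') (h4 : G.Adj b' z') : Fb G Y U m 2 (s(a, b) ::ₘ {s(a', b')}) := by
  intro X rest hX hd
  have hd' := Finset.disjoint_left.1 hd
  rw [Multiset.cons_add, Multiset.singleton_add] at hX
  have k := (hX.fill (HP.single z) h1 h2 (disjoint_singleton_right.2 fun e => hd' e hz)).fill
    (HP.single z') h3 h4 (disjoint_singleton_right.2 fun e => by
      rcases mem_union.1 e with e | e
      exacts [hd' e hz', hne (mem_singleton.1 e).symm])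
  refine ⟨{z, z'}, insert_subset hz (singleton_subset_iff.2 hz'), card_pair hne, ?_, hR⟩
  rwa [union_assoc, ← insert_eq] at k

/-- a reservoir with slack `s` in which the vertices of `D` have the defects `e` -/
structure M6s (G : SimpleGraph V) (Y : Lay V) (U : Finset V) (g s : ℕ) (D : Finset V) (β : ℕ)
    (e : V → ℕ) : Prop where
  rs : Rs G Y U (g + 1) s
  ord : Y.Ord (g + 1)
  pos : ∀ t, 1 ≤ t → t ≤ g + 1 → Y.A t + Y.B t + 1 ≤ (Y.iv U 0 t).card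
  disj : Disjoint D (Y.iv U 0 (g + 1))
  lo : β ≤ Y.a g
  df : ∀ v ∈ D, Df G Y U (g + 1) v (e v) ∧ 1 ≤ e v ∧ e v ≤ β

variable {D : Finset V} {g β : ℕ} {e : V → ℕ}

theorem M6s.pair (h : M6s G Y U g 2 D β e) {x y : V} (hx : x ∈ D) (hy : y ∈ D)
    (he : e x ≤ 2 ∨ e y ≤ 2) : Fb G Y U (g + 1) 2 {s(x, y)} :=
  Fb.all h.rs h.ord (by omega) (h.df x hx).1 (h.df y hy).1 ((h.df x hx).2.2.trans h.lo)
    ((h.df y hy).2.2.trans h.lo) (by omega) fun _ => he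

theorem M6s.ones (h : M6s G Y U g 2 D β e) {x y x' y' : V} (hx : x ∈ D) (hy : y ∈ D)
    (hx' : x' ∈ D) (hy' : y' ∈ D) (he : e x + e y ≤ 3) (he' : e x' + e y' ≤ 2) :
    Fb G Y U (g + 1) 2 (s(x, y) ::ₘ {s(x', y')}) :=
  Fb.cons (r := 1) (w := 1) (fun k1 k2 => link_one h.rs k1 k2 (h.df x hx).1 (h.df y hy).1 he)
    fun _ k1 k2 => Fb.one fun k3 k4 =>
      link_one k2 k3 k4 ((h.df x' hx').1.sub k1) ((h.df y' hy').1.sub k1) he'

/-- the layers from `i` on, any two vertices of which may be taken -/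
theorem M6s.top (h : M6s G Y U g 2 D β e) : ∃ i ≤ g, (Y.iv U 0 i).card ≤ Y.A i + Y.B i + 1 ∧
    ∀ z ∈ Y.iv U i (g + 1), ∀ z' ∈ Y.iv U 0 (g + 1), z ≠ z' → Rs G Y (U \ {z, z'}) (g + 1) 0 := by
  classical
  obtain ⟨i, hi, hm⟩ := exists_max_image
    ((range (g + 1)).filter fun t => (Y.iv U 0 t).card ≤ Y.A t + Y.B t + 1) id
    ⟨0, mem_filter.2 ⟨mem_range.2 (by omega), by rw [Y.iv_self]; simp⟩⟩
  rw [mem_filter, mem_range] at hi
  refine ⟨i, by omega, hi.2, fun z hz z' hz' hne => ?_⟩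
  have hz0 : z ∈ Y.iv U 0 (g + 1) := Lay.iv_mono (Subset.refl U) (Nat.zero_le i) le_rfl hz
  refine Rs.remove (r := 2) (w := 0) h.rs (insert_subset hz0 (singleton_subset_iff.2 hz'))
    (card_pair hne) fun t ht => ?_
  by_cases k : i < t
  · have h1 := card_le_card (Y.iv_sub {z, z'} 0 t)
    rw [card_pair hne] at h1
    by_contra n
    have := hm t (mem_filter.2 ⟨mem_range.2 ht, by omega⟩)
    exact absurd this (not_le.2 k)
  · rcases Nat.eq_zero_or_pos t with rfl | k0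
    · simp [Y.iv_self, Y.A_zero, Y.B_zero]
    · have h1 : (Y.iv {z, z'} 0 t).card ≤ ({z'} : Finset V).card := card_le_card fun v hv => by
        rw [Lay.mem_iv, mem_insert] at hv
        refine hv.1.resolve_left fun k1 => ?_
        rw [Lay.mem_iv] at hz
        rw [k1] at hv
        omega
      have := h.pos t k0 (by omega)
      rw [card_singleton] at h1
      omega

theorem M6s.deg0 {s : ℕ} (h : M6s G Y U g s D β e) {y : V} (hy : y ∈ D) :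
    Y.A (g + 1) + s + 1 ≤ dG G y (Y.iv U 0 (g + 1)) + e y := by
  have h1 := (h.df y hy).1 0 (by omega)
  have h2 := dG_add_dH_out (G := G) (Finset.disjoint_left.1 h.disj hy)
  have := h.rs.top
  rw [Y.B_zero] at h1
  omega

theorem M6s.degi (h : M6s G Y U g 2 D β e) {y : V} (hy : y ∈ D) {i : ℕ} (hi : i ≤ g)
    (hc : (Y.iv U 0 i).card ≤ Y.A i + Y.B i + 1) :
    Y.A (g + 1) + 2 ≤ dG G y (Y.iv U i (g + 1)) + e y + Y.A i := by
  have h1 := (h.df y hy).1 i (by omega)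
  have h2 := dG_add_dH_out (G := G) (a := y) (S := Y.iv U i (g + 1)) fun k =>
    Finset.disjoint_left.1 h.disj hy (Lay.iv_mono (Subset.refl U) (Nat.zero_le i) le_rfl k)
  have := h.rs.top
  have := Y.card_iv U (Nat.zero_le i) (show i ≤ g + 1 by omega)
  omega

theorem M6s.Alo {s : ℕ} (h : M6s G Y U g s D β e) {i : ℕ} (hi : i ≤ g) :
    Y.A i + β ≤ Y.A (g + 1) := by
  have := Y.A_mono hi
  have := h.lo
  rw [Y.A_succ]
  omega

/-- the neighbourhoods when no edge of the reservoir joins two members of `S` -/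
theorem M6s.noe (h : M6s G Y U g 2 D β e) {S : Finset V} (hS : S ⊆ D) (hne : S.Nonempty) {i : ℕ}
    (hi : i ≤ g) (hc : (Y.iv U 0 i).card ≤ Y.A i + Y.B i + 1)
    (nE : ∀ y ∈ S, ∀ y' ∈ S, y ≠ y' → ∀ z ∈ Y.iv U i (g + 1), ∀ z' ∈ Y.iv U 0 (g + 1),
      G.Adj y z → G.Adj y' z' → ¬G.Adj z z') :
    ∃ z0 ∈ Y.iv U i (g + 1), ∃ y0 ∈ S, G.Adj y0 z0 ∧ ∃ J JT : Finset V, z0 ∈ J ∧
      J.card ≤ Y.B (g + 1) ∧ J.card ≤ dH G z0 (Y.iv U 0 (g + 1)) + 1 ∧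
      JT.card + Y.B i ≤ Y.B (g + 1) ∧ ∀ y1 ∈ S, G.Adj y1 z0 → ∀ y ∈ S, y ≠ y1 →
        (∀ z ∈ Y.iv U 0 (g + 1), G.Adj y z → z ∈ J) ∧
        ∀ z ∈ Y.iv U i (g + 1), G.Adj y z → z ∈ JT := by
  classical
  obtain ⟨y, hy⟩ := hne
  obtain ⟨z, hz, hyz⟩ := exists_adj (G := G) (a := y) (S := Y.iv U i (g + 1)) (by
    have := h.degi (hS hy) hi hc
    have := h.Alo hi
    have := (h.df y (hS hy)).2.2
    omega)
  obtain ⟨z0, k1, k2⟩ := exists_max_image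
    ((Y.iv U i (g + 1)).filter fun z => ∃ y ∈ S, G.Adj y z) Y.f ⟨z, mem_filter.2 ⟨hz, y, hy, hyz⟩⟩
  rw [mem_filter] at k1
  obtain ⟨k1, y0, k3, k4⟩ := k1
  have k5 := Lay.mem_iv.1 k1
  obtain ⟨N, n1, n2⟩ := exists_non (G := G) z0 (Y.iv U 0 (Y.f z0 + 1))
  obtain ⟨N', n3, n4⟩ := exists_non (G := G) z0 (Y.iv U i (Y.f z0 + 1))
  have d := h.rs.int z0 k5.1 k5.2.2
  have d0 := d 0 (by omega)
  have di := d i (by omega)
  have c1 := card_insert_le z0 N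
  have c2 := card_insert_le z0 N'
  have c3 := Y.B_mono (show Y.f z0 + 1 ≤ g + 1 by omega)
  have c4 := dH_mono (G := G) (a := z0)
    (Lay.iv_mono (Y := Y) (Subset.refl U) (le_refl 0) (show Y.f z0 + 1 ≤ g + 1 by omega))
  have hf : ∀ y ∈ S, ∀ z ∈ Y.iv U 0 (g + 1), G.Adj y z → Y.f z ≤ Y.f z0 := fun y hy z hz k => by
    rw [Lay.mem_iv] at hz
    by_cases l : i ≤ Y.f z
    · exact k2 z (mem_filter.2 ⟨Lay.mem_iv.2 ⟨hz.1, l, hz.2.2⟩, y, hy, k⟩)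
    · omega
  refine ⟨z0, k1, y0, k3, k4, insert z0 N, insert z0 N', mem_insert_self _ _, by omega, by omega,
    by omega, fun y1 g1 g2 y g3 g4 => ⟨fun z g5 g6 => ?_, fun z g5 g6 => ?_⟩⟩
  · by_cases l : z = z0
    · exact l ▸ mem_insert_self _ _
    · have := hf y g3 z g5 g6
      exact mem_insert_of_mem ((n2 z).2 ⟨Lay.mem_iv.2 ⟨(Lay.mem_iv.1 g5).1, by omega, by omega⟩, l,
        nE y1 g1 y g3 g4.symm z0 k1 z g5 g2 g6⟩)
  · by_cases l : z = z0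
    · exact l ▸ mem_insert_self _ _
    · have g7 := Lay.iv_mono (Subset.refl U) (Nat.zero_le i) le_rfl g5
      have := hf y g3 z g7 g6
      exact mem_insert_of_mem ((n4 z).2 ⟨Lay.mem_iv.2 ⟨(Lay.mem_iv.1 g5).1, (Lay.mem_iv.1 g5).2.1,
        by omega⟩, l, nE y1 g1 y g3 g4.symm z0 k1 z g7 g2 g6⟩)

/-- an edge of the reservoir between neighbours of `y` and `y'` -/
theorem m6_fbE {m : ℕ} {y y' z z' : V} (hz : z ∈ Y.iv U 0 m) (hz' : z' ∈ Y.iv U 0 m)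
    (hR : Rs G Y (U \ {z, z'}) m 0) (h1 : G.Adj y z) (h2 : G.Adj y' z') (h3 : G.Adj z z') :
    Fb G Y U m 2 {s(y, y')} :=
  Fb.one fun _ _ => ⟨z, z', {z, z'}, (HP.single z').cons h3 (by simp [h3.ne]), h1, h2,
    insert_subset hz (singleton_subset_iff.2 hz'), card_pair h3.ne, hR⟩

/-- one or two positions inside `S` take the whole slack -/
theorem M6s.st (h : M6s G Y U g 2 D β e) {S : Finset V} (hS : S ⊆ D) (h3 : 3 ≤ S.card) {r : ℕ}
    (hr : ∀ y ∈ S, e y + r ≤ β) (hn : β ≤ r + 3 ∨ β ≤ (S.card - 2) * (r + 2)) (u : V) :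
    ∃ a b F, F.card ≤ 1 ∧ Fb G Y U (g + 1) 2 (s(a, b) ::ₘ F) ∧ CS ⊤ S (s(a, b) ::ₘ F) ∧
      M6f u (s(a, b) ::ₘ F) := by
  obtain ⟨i, hi, hc, hl⟩ := h.top
  have sub := Lay.iv_mono (Y := Y) (Subset.refl U) (Nat.zero_le i) (le_refl (g + 1))
  by_cases nE : ∃ y ∈ S, ∃ y' ∈ S, y ≠ y' ∧ ∃ z ∈ Y.iv U i (g + 1), ∃ z' ∈ Y.iv U 0 (g + 1),
      G.Adj y z ∧ G.Adj y' z' ∧ G.Adj z z'
  · obtain ⟨y, hy, y', hy', k1, z, hz, z', hz', k2, k3, k4⟩ := nE
    exact ⟨y, y', 0, by simp, m6_fbE (sub hz) hz' (hl z hz z' hz' k4.ne) k2 k3 k4,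
      m6_top1 hy hy' k1, m6f_one _ _⟩
  push Not at nE
  obtain ⟨z0, k1, y0, k2, k3, J, JT, k4, k5, -, k7, k8⟩ :=
    h.noe hS (card_pos.1 (by omega)) hi hc nE
  have k9 := k8 y0 k2 k3
  have hA := h.Alo hi
  have hA0 := h.Alo (Nat.zero_le g)
  have hB := h.rs.AB (show i ≤ g + 1 by omega) le_rfl
  have hB0 := h.rs.AB (Nat.zero_le (g + 1)) le_rfl
  rw [Y.A_zero] at hA0 hB0
  rw [Y.B_zero] at hB0
  have fin : ∀ z ∈ Y.iv U i (g + 1), ∀ z' ∈ Y.iv U 0 (g + 1), z ≠ z' → ∀ a ∈ S, ∀ b ∈ S,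
      ∀ a' ∈ S, ∀ b' ∈ S, a ≠ b → a' ≠ b' → G.Adj a z → G.Adj b z → G.Adj a' z' → G.Adj b' z' →
      s(a, b) ≠ s(a', b') → ¬(u ∈ s(a, b) ∧ u ∈ s(a', b')) →
      ∃ a b F, F.card ≤ 1 ∧ Fb G Y U (g + 1) 2 (s(a, b) ::ₘ F) ∧ CS ⊤ S (s(a, b) ::ₘ F) ∧
        M6f u (s(a, b) ::ₘ F) := fun z hz z' hz' g1 a ha b hb a' ha' b' hb' g2 g3 g4 g5 g6 g7 g8 g9 =>
    ⟨a, b, {s(a', b')}, by simp, m6_fb2 (sub hz) hz' g1 (hl z hz z' hz' g1) g4 g5 g6 g7,
      m6_top2 ha hb ha' hb' g2 g3 g8, m6f_two g9⟩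
  have c0 : (S.erase y0).card = S.card - 1 := card_erase_of_mem k2
  rcases hn with hn | hn
  · obtain ⟨y, hy, hyu⟩ := exists_mem_notMem_of_card_lt_card (s := {u}) (t := S.erase y0)
      (by rw [card_singleton]; omega)
    obtain ⟨y', hy', hy2⟩ := exists_mem_notMem_of_card_lt_card (s := {y}) (t := S.erase y0)
      (by rw [card_singleton]; omega)
    rw [mem_singleton] at hyu hy2
    rw [mem_erase] at hy hy'
    have d1 := h.deg0 (hS hy.2)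
    have d2 := h.deg0 (hS hy'.2)
    have := hr y hy.2
    have := hr y' hy'.2
    have f1 := m6_full (k9 y hy.2 hy.1).1 (by omega)
    have f2 := m6_full (k9 y' hy'.2 hy'.1).1 (by omega)
    obtain ⟨z, hz, g1, g2⟩ := exists_adj_notMem (G := G) (a := y) (S := Y.iv U 0 (g + 1))
      (R := {z0}) (by rw [card_singleton]; omega)
    rw [mem_singleton] at g2
    refine fin z0 k1 z hz (Ne.symm g2) y0 k2 y hy.2 y hy.2 y' hy'.2 hy.1.symm (Ne.symm hy2) k3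
      (f1 z0 k4).2 g1 (f2 z ((k9 y hy.2 hy.1).1 z hz g1)).2 (fun k => ?_) fun k => ?_
    · rcases Sym2.eq_iff.1 k with k | k
      exacts [hy.1 k.1.symm, hy'.1 k.1.symm]
    · rcases Sym2.mem_iff.1 k.1 with l | l
      · rcases Sym2.mem_iff.1 k.2 with l' | l'
        exacts [hyu l'.symm, hy'.1 (l'.symm.trans l)]
      · exact hyu l.symm
  · obtain ⟨x, hx⟩ := Nat.exists_eq_add_of_le hA
    obtain ⟨x0, hx0⟩ := Nat.exists_eq_add_of_le hA0
    obtain ⟨c, hc'⟩ := Nat.exists_eq_add_of_le h3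
    have c1 : S.card - 2 = c + 1 := by omega
    rw [c1] at hn
    obtain ⟨z, hz, z', hz', g1, a, ha, b, hb, a', ha', b', hb', g2⟩ :=
      m6_mm (G := G) (S := S.erase y0) (J := J) (JT := JT) (k := x0 + r + 2) (kT := x + r + 2) u sub
        (fun y hy => (k9 y (mem_erase.1 hy).2 (mem_erase.1 hy).1).1)
        (fun y hy => (k9 y (mem_erase.1 hy).2 (mem_erase.1 hy).1).2)
        (fun y hy => by
          have := h.deg0 (hS (mem_erase.1 hy).2)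
          have := hr y (mem_erase.1 hy).2
          omega)
        (fun y hy => by
          have := h.degi (hS (mem_erase.1 hy).2) hi hc
          have := hr y (mem_erase.1 hy).2
          omega)
        (by
          rw [c0, show S.card - 1 = c + 2 by omega]
          have : JT.card ≤ β + x := by omega
          nlinarith [Nat.zero_le (c * x)])
        (by
          rw [c0, show S.card - 1 - 1 = c + 1 by omega]
          have : J.card ≤ β + x0 := by omega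
          nlinarith [Nat.zero_le (c * x0)])
        (by omega)
    exact fin z hz z' hz' g1 a (mem_of_mem_erase ha) b (mem_of_mem_erase hb) a'
      (mem_of_mem_erase ha') b' (mem_of_mem_erase hb') g2.1 g2.2.1 g2.2.2.1 g2.2.2.2.1
      g2.2.2.2.2.1 g2.2.2.2.2.2.1 g2.2.2.2.2.2.2.1 g2.2.2.2.2.2.2.2

/-- the same for two vertices of defect at most three -/
theorem M6s.st2 (h : M6s G Y U g 2 D β e) {v v' : V} (hv : v ∈ D) (hv' : v' ∈ D) (hne : v ≠ v')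
    (h1 : e v ≤ 3) (h2 : e v' ≤ 3) : Fb G Y U (g + 1) 2 {s(v, v')} ∨
      ∃ z ∈ Y.iv U 0 (g + 1), ∃ z' ∈ Y.iv U 0 (g + 1), z ≠ z' ∧ Rs G Y (U \ {z, z'}) (g + 1) 0 ∧
        G.Adj v z ∧ G.Adj v' z ∧ G.Adj v z' ∧ G.Adj v' z' ∧
        Y.B (g + 1) ≤ dH G z (Y.iv U 0 (g + 1)) + 1 := by
  obtain ⟨i, hi, hc, hl⟩ := h.top
  have sub := Lay.iv_mono (Y := Y) (Subset.refl U) (Nat.zero_le i) (le_refl (g + 1))
  by_cases nE : ∃ y ∈ ({v, v'} : Finset V), ∃ y' ∈ ({v, v'} : Finset V), y ≠ y' ∧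
      ∃ z ∈ Y.iv U i (g + 1), ∃ z' ∈ Y.iv U 0 (g + 1), G.Adj y z ∧ G.Adj y' z' ∧ G.Adj z z'
  · obtain ⟨y, hy, y', hy', k1, z, hz, z', hz', k2, k3, k4⟩ := nE
    have := m6_fbE (sub hz) hz' (hl z hz z' hz' k4.ne) k2 k3 k4
    left
    rw [mem_insert, mem_singleton] at hy hy'
    rcases hy with rfl | rfl <;> rcases hy' with rfl | rfl
    exacts [absurd rfl k1, this, Sym2.eq_swap ▸ this, absurd rfl k1]
  push Not at nE
  have hS : ({v, v'} : Finset V) ⊆ D := insert_subset hv (singleton_subset_iff.2 hv')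
  obtain ⟨z0, k1, y0, k2, k3, J, JT, k4, k5, k6, -, k8⟩ :=
    h.noe hS ⟨v, mem_insert_self _ _⟩ hi hc nE
  have hA0 := h.Alo (Nat.zero_le g)
  have hB0 := h.rs.AB (Nat.zero_le (g + 1)) le_rfl
  rw [Y.A_zero] at hA0 hB0
  rw [Y.B_zero] at hB0
  have d1 := h.deg0 hv
  have d2 := h.deg0 hv'
  have m1 : v ∈ ({v, v'} : Finset V) := by simp
  have m2 : v' ∈ ({v, v'} : Finset V) := by simp
  have key : G.Adj v z0 ∧ G.Adj v' z0 := by
    rw [mem_insert, mem_singleton] at k2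
    rcases k2 with rfl | rfl
    · exact ⟨k3, (m6_full (k8 _ m1 k3 v' m2 hne.symm).1 (by omega) z0 k4).2⟩
    · exact ⟨(m6_full (k8 _ m2 k3 v m1 hne).1 (by omega) z0 k4).2, k3⟩
  have j1 := (k8 v' m2 key.2 v m1 hne).1
  have j2 := (k8 v m1 key.1 v' m2 hne.symm).1
  have := (h.df v hv).2.2
  have := dG_le j1
  obtain ⟨z, hz, g1, g2⟩ := exists_adj_notMem (G := G) (a := v) (S := Y.iv U 0 (g + 1))
    (R := {z0}) (by rw [card_singleton]; omega)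
  rw [mem_singleton] at g2
  exact Or.inr ⟨z0, sub k1, z, hz, Ne.symm g2, hl z0 k1 z hz (Ne.symm g2), key.1, key.2, g1,
    (m6_full j2 (by omega) z (j1 z hz g1)).2, by omega⟩

end Pool.Agent.Lib.MP_af3016_co
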