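import Pool.Agent.Lib.MP_af3016_co.C.M2X
import Pool.Agent.Lib.MP_af3016_co.C.M2Z
import Pool.Agent.Lib.MP_af3016_co.C.MidAB
import Pool.Agent.Lib.MP_af3016_co.C.M6s

/-! Surplus two, slack at least three: the assembly. -/

set_option autoImplicit false
set_option linter.unusedSectionVars false

namespace Pool.Agent.Lib.MP_af3016_co

open Finset SimpleGraph

variable {V : Type} [DecidableEq V] {G : SimpleGraph V} {Y : Lay V} {U : Finset V}

variable {W D B : Finset V} {g α β α' β' σ : ℕ} {I J : Multiset ℕ} {al be : V → ℕ}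

/-- one gap inside the class takes the whole slack -/
theorem m2_all (h : Mid G W Y U g D B α β α' β' σ 2 I J) (h3 : 3 ≤ σ)
    (hd : Dd G Y U g D B β α' β' al be) {p q : V} (hp : p ∈ D) (hq : q ∈ D) :
    Fb G Y U (g + 1) σ {s(p, q)} := by
  have := h.lo
  have := h.ba
  have k1 := hd p hp
  have k2 := hd q hq
  exact Fb.all h.rs h.ord (by omega) k1.2.1 k2.2.1 (by omega) (by omega) (by omega) (by omega)

/-- the gaps outside `F` are filled from below -/
theorem m2_dn (h : Mid G W Y U g D B α β α' β' σ 2 I J) (h3 : 3 ≤ σ)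
    (hd : Dd G Y U g D B β α' β' al be) {F gs : Multiset (Sym2 V)} (hc : CS G D (F + gs))
    (hF : F.card < D.card) (hs : ∀ p q, s(p, q) ∈ gs → be p + be q + gs.card ≤ σ + 2) :
    ∃ gs', CS G D (F + gs') ∧ Fb G Y U (g + 1) σ gs' := by
  by_cases e : gs = 0
  · subst e
    rw [add_zero] at hc
    obtain ⟨p, q, -, c⟩ := hc.open hF
    have m := c.mem (Multiset.mem_cons_self _ _)
    exact ⟨{s(p, q)}, by rwa [add_comm, Multiset.singleton_add], m2_all h h3 hd m.1 m.2⟩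
  · refine ⟨gs, hc, Fb.filly (e := be) e h.rs fun p q k => ?_⟩
    have m := hd p (hc.mem (Multiset.mem_add.2 (Or.inr k))).1
    exact ⟨m.2.1, m.2.2.2.1, hs p q k⟩

/-- the greedy split -/
theorem m2_greedy (h : Mid G W Y U g D B α β α' β' σ 2 I J) (h3 : 3 ≤ σ)
    (hd : Dd G Y U g D B β α' β' al be) {gs : Multiset (Sym2 V)} (hc : CS G D gs)
    (h2 : 2 ≤ gs.card)
    (hs : ∀ p q, s(p, q) ∈ gs → be p + be q + al p + al q + gs.card ≤ σ + 2 + 4)
    (hx : ∃ p q, s(p, q) ∈ gs ∧ al p ≤ 2) : Fin2 G Y U g D B σ 2 := by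
  have := h.up
  have := h.sJ.le
  have := h.lo
  have := h.ba
  obtain ⟨Z, Z', k1, k2, k3, k4, k5, k6, -⟩ := greedy (Y' := flat V α' β') (U' := B) (g' := 0)
    (e := be) (e' := al) hc h2 h.rs h.rsB h.ord (flat_ord _ _) h.sg h.mu h.dD
    (by rw [flat_iv]; exact h.dDB) (by rw [flat_iv]; exact h.dB.symm)
    (fun p q k => by
      have m := hd p (hc.mem k).1
      exact ⟨m.2.1, m.2.2.2.1, by omega⟩)
    (fun p q k => by
      have m := hd p (hc.mem k).1
      exact ⟨m.1, m.2.2.1, show al p ≤ α' by omega⟩) hs (fun _ => Or.inl h3)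
    (fun _ => Or.inr ⟨rfl, hx⟩)
  rw [flat_iv] at k2
  refine ⟨Z, Z', k1, k2, k3, k4, k5.done ?_, k6⟩
  rw [card_union_of_disjoint (disjoint_union_left.2 ⟨h.dDB.mono_right k2,
    (h.dB.mono_left k2).symm.mono_left k1⟩), card_union_of_disjoint (h.dD.mono_right k1), k3, k4]
  have := h.cD
  have := h.five
  omega

/-- some member of the class has a small upper defect -/
theorem m2_small (h : Mid G W Y U g D B α β α' β' σ 2 I J) (h3 : 3 ≤ σ)
    (hd : Dd G Y U g D B β α' β' al be) (hN : 2 ≤ D.card) {v : V} (hv : v ∈ D) (hb : al v ≤ 2) :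
    Fin2 G Y U g D B σ 2 := by
  have := h.cD
  have := h.ba
  have := h.up
  obtain ⟨g0, c0⟩ := exists_cs G ⟨v, hv⟩
  obtain ⟨gs, c, -, k⟩ := plan (X := D) (D := D) (F := 0) (gs0 := g0) (by rwa [zero_add])
    fun p q e => c0.mem e
  rw [zero_add] at c
  have ks : ∀ p q, s(p, q) ∈ gs → be p + be q + al p + al q + gs.card ≤ σ + 2 + 4 := by
    intro p q e
    obtain ⟨m1, m2, -, m3⟩ := k p q e
    have := hd p m1
    have := hd q m2
    have := dG_add_dH_in (G := G) m1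
    have := dG_add_dH_in (G := G) m2
    rw [Multiset.card_zero] at m3
    omega
  have fin : ∀ q g1, CS G D (s(v, q) ::ₘ g1) → g1.card ≤ 1 ∨
      (∀ p q, s(p, q) ∈ g1 → be p + be q + g1.card ≤ σ + 2) → Fin2 G Y U g D B σ 2 := by
    intro q g1 c1 k1
    have m := hd q (c1.mem (Multiset.mem_cons_self _ _)).2
    have m' := hd v hv
    have f1 : Fb G (flat V α' β') B 1 2 {s(v, q)} := Fb.all (g := 0) h.rsB (flat_ord _ _)
      (by omega) m'.1 m.1 (show al v ≤ α' by omega) (show al q ≤ α' by omega) (by omega)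
      fun _ => Or.inl hb
    rw [← Multiset.singleton_add] at c1
    by_cases e : g1.card = 1
    · obtain ⟨x, rfl⟩ := Multiset.card_eq_one.1 e
      induction x using Sym2.ind with
      | _ a b =>
        have m2 := c1.mem (p := a) (q := b) (by simp)
        exact h.two0 (by rwa [add_comm] at c1) (m2_all h h3 hd m2.1 m2.2) f1
    · obtain ⟨g2, c2, f2⟩ := m2_dn h h3 hd c1 (by rw [Multiset.card_singleton]; omega) fun p q k => by
        rcases k1 with k1 | k1
        · have := Multiset.card_pos_iff_exists_mem.2 ⟨_, k⟩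
          omega
        · exact k1 p q k
      exact h.two0 (by rwa [add_comm] at c2) f2 f1
  by_cases e : ∃ q, s(v, q) ∈ gs
  · obtain ⟨q, e⟩ := e
    by_cases e2 : 2 ≤ gs.card
    · exact m2_greedy h h3 hd c e2 ks ⟨v, q, e, hb⟩
    · obtain ⟨g1, rfl⟩ := Multiset.exists_cons_of_mem e
      rw [Multiset.card_cons] at e2
      exact fin q g1 c (Or.inl (by omega))
  obtain ⟨q, -, c1⟩ := c.openAt hv fun q k => e ⟨q, k⟩
  by_cases e2 : gs.card ≤ 1
  · exact fin q gs c1 (Or.inl e2)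
  by_cases e3 : ∃ p q, s(p, q) ∈ gs ∧ al p ≤ 2
  · exact m2_greedy h h3 hd c (by omega) ks e3
  refine fin q gs c1 (Or.inr fun a b k1 => ?_)
  have := ks a b k1
  have : ¬al a ≤ 2 := fun k2 => e3 ⟨a, b, k1, k2⟩
  have : ¬al b ≤ 2 := fun k2 => e3 ⟨b, a, Sym2.eq_swap ▸ k1, k2⟩
  omega

/-- at most two protected pairs are filled from the block -/
theorem m2_prot (h : Mid G W Y U g D B α β α' β' σ 2 I J) (h3 : 3 ≤ σ)
    (hd : Dd G Y U g D B β α' β' al be) (ha : ∀ v ∈ D, 3 ≤ al v) {F : Multiset (Sym2 V)}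
    (hc : CS ⊤ D F) (h2 : F.card ≤ 2) (hF : F.card < D.card)
    (k : Fb G (flat V α' β') B 1 2 F) : Fin2 G Y U g D B σ 2 := by
  have := h.cD
  have := h.ba
  obtain ⟨g0, c0, -⟩ := hc.virt (G := G)
  obtain ⟨gs, c, -, k1⟩ := plan (D := D) c0 fun p q e => c0.mem (Multiset.mem_add.2 (Or.inr e))
  obtain ⟨g2, c2, f⟩ := m2_dn h h3 hd c hF fun p q e => by
    obtain ⟨m1, m2, -, m3⟩ := k1 p q e
    have := hd p m1
    have := hd q m2
    have := ha p m1
    have := ha q m2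
    have := dG_add_dH_in (G := G) m1
    have := dG_add_dH_in (G := G) m2
    omega
  exact h.two0 (by rwa [add_comm] at c2) f k

theorem m2_rs (h : Mid G W Y U g D B α β α' β' σ 2 I J) {p p' : V} (hp : p ∈ B) (hp' : p' ∈ B)
    (n : p ≠ p') : Rs G (flat V α' β') (B \ {p, p'}) 1 0 :=
  h.rsB' (by simp [insert_subset_iff, hp, hp']) (by rw [card_pair n])

/-- the number of neighbours in the block -/
theorem m2_deg (h : Mid G W Y U g D B α β α' β' σ 2 I J) (hd : Dd G Y U g D B β α' β' al be)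
    {u : V} (hu : u ∈ D) : α' + 3 ≤ dG G u B + β := by
  have k := hd u hu
  have := flat_df.1 k.1
  have := dG_add_dH_out (G := G) (Finset.disjoint_left.1 h.dDB hu)
  have := h.cB
  omega

/-- the count for slack three -/
theorem m2_count (h : Mid G W Y U g D B α β α' β' 3 2 I J) (hd : Dd G Y U g D B β α' β' al be)
    (hN : 2 ≤ D.card)
    (hE : ∀ y ∈ D, ∀ y' ∈ D, ∀ p ∈ B, ∀ p' ∈ B, G.Adj y p → G.Adj p p' → G.Adj p' y' → y = y')
    (hM : ∀ p ∈ B, ∀ p' ∈ B, p ≠ p' → ∀ y1 ∈ D, ∀ y2 ∈ D, ∀ y3 ∈ D, ∀ y4 ∈ D, y1 ≠ y2 → y3 ≠ y4 →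
      G.Adj p y1 → G.Adj p y2 → G.Adj p' y3 → G.Adj p' y4 → s(y1, y2) = s(y3, y4)) : β ≤ 3 := by
  by_contra hn
  have b1 := h.cD
  have b2 := h.ba
  have b3 := h.ab
  have b4 := h.up
  have b5 := h.sJ.le
  obtain ⟨y0, hy0, w, hw⟩ : ∃ y0 ∈ D, ∃ w, ∀ q ∈ B, q ≠ w → ∀ a ∈ D.erase y0, ∀ b ∈ D.erase y0,
      a ≠ b → G.Adj a q → ¬G.Adj b q := by
    by_cases e : ∃ p ∈ B, ∃ y1 ∈ D, ∃ y2 ∈ D, y1 ≠ y2 ∧ G.Adj p y1 ∧ G.Adj p y2
    · obtain ⟨p, hp, y1, h1, y2, h2, n, a1, a2⟩ := e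
      refine ⟨y1, h1, p, fun q hq n' a ha b hb n'' a3 a4 => ?_⟩
      rw [mem_erase] at ha hb
      rcases Sym2.eq_iff.1 (hM p hp q hq n'.symm y1 h1 y2 h2 a ha.2 b hb.2 n n'' a1 a2 a3.symm
        a4.symm) with j | j
      exacts [ha.1 j.1.symm, hb.1 j.1.symm]
    · obtain ⟨y0, hy0⟩ := card_pos.1 (show 0 < D.card by omega)
      exact ⟨y0, hy0, y0, fun q hq _ a ha b hb n a3 a4 =>
        e ⟨q, hq, a, mem_of_mem_erase ha, b, mem_of_mem_erase hb, n, a3.symm, a4.symm⟩⟩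
  obtain ⟨p0, hp0, a0⟩ := exists_adj (G := G) (a := y0) (S := B)
    (by have := m2_deg h hd hy0; omega)
  obtain ⟨N, n1, n2⟩ := exists_non (G := G) p0 B
  have n3 := h.hapB p0 hp0
  have n4 := card_insert_le p0 N
  have hJ : ∀ y ∈ D.erase y0, ∀ z ∈ B, G.Adj y z → z ∈ insert p0 N := fun y hy z hz a => by
    rw [mem_erase] at hy
    rw [mem_insert, n2]
    by_cases e : z = p0
    · exact Or.inl e
    · exact Or.inr ⟨hz, e, fun j => hy.1 (hE y0 hy0 y hy.2 p0 hp0 z hz a0 j a.symm).symm⟩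
  obtain ⟨w', w1, w2⟩ : ∃ w' ∈ insert p0 N, ∀ z ∈ insert p0 N, z ≠ w' → z ≠ w := by
    by_cases e : w ∈ insert p0 N
    · exact ⟨w, e, fun _ _ j => j⟩
    · exact ⟨p0, mem_insert_self _ _, fun z hz _ j => e (j ▸ hz)⟩
  obtain ⟨z, hz, a, ha, b, hb, n, a1, a2⟩ := m6_pigeon (G := G) (S := D.erase y0) (T := B.erase w')
    (J := (insert p0 N).erase w') (k := α' - β + 2)
    (fun y hy x hx j => mem_erase.2 ⟨(mem_erase.1 hx).1, hJ y hy x (mem_of_mem_erase hx) j⟩)
    (fun y hy => by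
      have := m2_deg h hd (mem_of_mem_erase hy)
      have := (tools_erase (G := G) y w' B).1
      omega)
    (by
      rw [card_erase_of_mem w1, card_erase_of_mem hy0, Nat.mul_add]
      have := Nat.le_mul_of_pos_left (α' - β) (show 0 < D.card - 1 by omega)
      omega)
  rw [mem_erase] at hz
  exact hw z hz.2 (w2 z (hJ a ha z hz.2 a1) hz.1) a ha b hb n a1 a2

/-- slack at least three -/
theorem m2_three (h : Mid G W Y U g D B α β α' β' σ 2 I J) (h3 : 3 ≤ σ) :
    Fin2 G Y U g D B σ 2 := by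
  rcases D.eq_empty_or_nonempty with rfl | hD
  · exact m2_zero h h3
  obtain ⟨al, be, hd⟩ := h.defects
  have hd : Dd G Y U g D B β α' β' al be := hd
  obtain ⟨t, ht⟩ := h.rs.prt h.sg
  have b1 := h.cD
  have b2 := h.ba
  have b4 := h.up
  have b6 := h.lo
  have df : ∀ u ∈ D, Df G Y U (g + 1) u (be u) ∧ 1 ≤ be u ∧ be u ≤ Y.a g := fun u hu => by
    have k := hd u hu
    exact ⟨k.2.1, k.2.2.2.1, by omega⟩
  have dg : ∀ u ∈ D, 3 ≤ dG G u B := fun u hu => by
    have := m2_deg h hd hu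
    omega
  by_cases hN : D.card = 1
  · obtain ⟨v, rfl⟩ := card_eq_one.1 hN
    refine Cr.fin (s := σ) (v := v) (v' := v) (gs := 0) h
      ⟨ht, (HP.single v).cs, by simp, h3, df, by simp, fun _ => Or.inl ⟨rfl, rfl⟩⟩
      (fun y hy y' hy' _ _ _ _ _ _ _ => ?_) (fun _ _ _ _ _ y hy y' hy' _ _ _ _ n => ?_) dg
    · rw [mem_singleton] at hy hy'
      rw [hy, hy']
    · rw [mem_singleton] at hy hy'
      exact absurd (hy.trans hy'.symm) n
  have hN : 2 ≤ D.card := by have := card_pos.2 hD; omega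
  by_cases ha : ∃ v ∈ D, al v ≤ 2
  · obtain ⟨v, hv, k⟩ := ha
    exact m2_small h h3 hd hN hv k
  have ha : ∀ v ∈ D, 3 ≤ al v := fun v hv => by
    by_contra k
    exact ha ⟨v, hv, by omega⟩
  by_contra hn
  have hE : ∀ y ∈ D, ∀ y' ∈ D, ∀ p ∈ B, ∀ p' ∈ B, G.Adj y p → G.Adj p p' → G.Adj p' y' →
      y = y' := fun y hy y' hy' p hp p' hp' a1 a2 a3 => by
    by_contra n
    exact hn (m2_prot h h3 hd ha (m6_top1 hy hy' n) (by simp) (by rw [Multiset.card_singleton]; omega)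
      (m6_fbE (by rwa [flat_iv]) (by rwa [flat_iv]) (m2_rs h hp hp' a2.ne) a1 a3.symm a2))
  have hM : ∀ p ∈ B, ∀ p' ∈ B, p ≠ p' → ∀ y1 ∈ D, ∀ y2 ∈ D, ∀ y3 ∈ D, ∀ y4 ∈ D, y1 ≠ y2 →
      y3 ≠ y4 → G.Adj p y1 → G.Adj p y2 → G.Adj p' y3 → G.Adj p' y4 → s(y1, y2) = s(y3, y4) :=
    fun p hp p' hp' n y1 h1 y2 h2 y3 h3' y4 h4 n1 n2 a1 a2 a3 a4 => by
      by_contra n3
      have c3 : 2 < D.card := by
        by_contra j
        have key : ∀ y ∈ D, y = y1 ∨ y = y2 := fun y hy => by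
          by_contra j2
          rw [not_or] at j2
          exact j (two_lt_card_iff.2 ⟨y, y1, y2, hy, h1, h2, j2.1, j2.2, n1⟩)
        rcases key y3 h3' with rfl | rfl <;> rcases key y4 h4 with rfl | rfl
        exacts [n2 rfl, n3 rfl, n3 Sym2.eq_swap, n2 rfl]
      exact hn (m2_prot h h3 hd ha (m6_top2 h1 h2 h3' h4 n1 n2 n3) (by simp) (by simpa using c3)
        (m6_fb2 (by rwa [flat_iv]) (by rwa [flat_iv]) n (m2_rs h hp hp' n) a1.symm a2.symm a3.symm
          a4.symm))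
  obtain ⟨g0, c0⟩ := exists_cs G hD
  obtain ⟨gs, c, -, k⟩ := plan (X := D) (D := D) (F := 0) (gs0 := g0) (by rwa [zero_add])
    fun p q e => c0.mem e
  rw [zero_add] at c
  have ks : ∀ p q, s(p, q) ∈ gs → be p + be q + gs.card ≤ σ := by
    intro p q e
    obtain ⟨m1, m2, -, m3⟩ := k p q e
    have := hd p m1
    have := hd q m2
    have := ha p m1
    have := ha q m2
    have := dG_add_dH_in (G := G) m1
    have := dG_add_dH_in (G := G) m2
    rw [Multiset.card_zero] at m3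
    omega
  by_cases e : gs = 0
  · subst e
    obtain ⟨v, v', -, c1⟩ := c.open (by rw [Multiset.card_zero]; omega)
    have m := c1.mem (Multiset.mem_cons_self _ _)
    refine hn (Cr.fin (s := σ) h ⟨ht, c1, by simp, h3, df, by simp, fun e => Or.inr ?_⟩ hE hM dg)
    subst e
    have := m2_count h hd hN hE hM
    have := hd v m.1
    have := hd v' m.2
    have := ha v m.1
    have := ha v' m.2
    omega
  · obtain ⟨x, hx⟩ := Multiset.exists_mem_of_ne_zero e
    induction x using Sym2.ind with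
    | _ v v' =>
      obtain ⟨g1, rfl⟩ := Multiset.exists_cons_of_mem hx
      have m := c.mem hx
      have k1 := ks v v' hx
      have k2 := df v m.1
      have k3 := df v' m.2
      rw [Multiset.card_cons] at k1
      refine hn (Cr.fin (s := σ - g1.card) h ⟨ht, c, by omega, by omega, df, fun p q j => ?_,
        fun e => Or.inr (by omega)⟩ hE hM dg)
      have := ks p q (Multiset.mem_cons_of_mem j)
      rw [Multiset.card_cons] at this
      omega

end Pool.Agent.Lib.MP_af3016_co
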