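import Pool.Agent.Lib.MP_af3016_co.C.Mid0

/-! Ports in the upper layers, lower links, and the completion of a class. -/

set_option autoImplicit false
set_option linter.unusedSectionVars false

namespace Pool.Agent.Lib.MP_af3016_co

open Finset SimpleGraph

variable {V : Type} [DecidableEq V] {G : SimpleGraph V} {Y : Lay V} {U : Finset V}

variable {W D B : Finset V} {g α β α' β' σ μ : ℕ} {I J : Multiset ℕ}

/-- the layers from `t` on are the first upper part that exceeds its budget -/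
structure Prt (G : SimpleGraph V) (Y : Lay V) (U : Finset V) (g σ t : ℕ) : Prop where
  le : t ≤ g
  big : Y.B (g + 1) + 1 ≤ (Y.iv U t (g + 1)).card + Y.B t
  leg : ∀ l, t < l → l < g + 1 → Y.A l + Y.B l + σ ≤ (Y.iv U 0 l).card
  df : ∀ z ∈ Y.iv U t (g + 1), Df G Y U (g + 1) z 1
  nb : ∀ z ∈ Y.iv U t (g + 1), ∃ y ∈ Y.iv U t (g + 1), G.Adj z y

theorem Rs.prt {s : ℕ} (h : Rs G Y U (g + 1) s) (hs : 1 ≤ s) : ∃ t, Prt G Y U g s t := by
  classical
  have h0 : Y.B (g + 1) + 1 ≤ (Y.iv U 0 (g + 1)).card + Y.B 0 := by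
    have := h.top
    omega
  let P : ℕ → Prop := fun t => Y.B (g + 1) + 1 ≤ (Y.iv U t (g + 1)).card + Y.B t
  have hP : P (Nat.findGreatest P g) := Nat.findGreatest_spec (Nat.zero_le g) h0
  have hle := Nat.findGreatest_le (P := P) g
  have hmax : ∀ l, Nat.findGreatest P g < l → l ≤ g + 1 →
      (Y.iv U l (g + 1)).card + Y.B l ≤ Y.B (g + 1) := by
    intro l h1 h2
    rcases h2.lt_or_eq with h3 | rfl
    · have := Nat.findGreatest_is_greatest h1 (show l ≤ g by omega)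
      simp only [P] at this
      omega
    · rw [Y.iv_self]
      simp
  generalize Nat.findGreatest P g = t at hP hle hmax
  simp only [P] at hP
  have key : ∀ z ∈ Y.iv U t (g + 1), ∀ l ≤ Y.f z,
      dH G z (Y.iv U l (g + 1)) + 1 + Y.B l ≤ Y.B (g + 1) := by
    intro z hz l hl
    rw [Lay.mem_iv] at hz
    have h1 := h.int z hz.1 hz.2.2 l (by omega)
    have h2 := Y.dH_iv (G := G) U z (show l ≤ Y.f z + 1 by omega) (show Y.f z + 1 ≤ g + 1 by omega)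
    have h3 := dH_le_card (G := G) z (Y.iv U (Y.f z + 1) (g + 1))
    have h4 := hmax (Y.f z + 1) (by omega) (by omega)
    omega
  refine ⟨t, hle, hP, fun l h1 h2 => ?_, fun z hz l hl => ?_, fun z hz => ?_⟩
  · have k1 := hmax l h1 h2.le
    have k2 := Y.card_iv U (Nat.zero_le l) h2.le
    have k3 := h.top
    have k4 := Y.A_mono h2.le
    omega
  · by_cases e : l ≤ Y.f z
    · have := key z hz l e
      omega
    · have k1 := hmax l (by have := Lay.mem_iv.1 hz; omega) hl.le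
      have k2 := dH_le_card (G := G) z (Y.iv U l (g + 1))
      omega
  · have k1 := key z hz t (Lay.mem_iv.1 hz).2.1
    have k2 := dG_add_dH_in (G := G) hz
    exact exists_adj (by omega)

/-- removal of vertices below `t` (legal there) together with vertices of the upper part -/
theorem Prt.rem {s t w w' : ℕ} (p : Prt G Y U g s t) (h : Rs G Y U (g + 1) s) {Z Z0 : Finset V}
    (hZ : ∀ v ∈ Z, v ∈ Z0 ∨ v ∈ Y.iv U t (g + 1)) (h0 : Z0 ⊆ Y.iv U 0 t)
    (hR : Rs G Y (U \ Z0) t w') (hc : Z.card + w = s) : Rs G Y (U \ Z) (g + 1) w := by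
  subst hc
  have ht := p.le
  refine h.remove (fun v hv => ?_) rfl fun l hl => ?_
  · rcases hZ v hv with k | k
    · exact Lay.iv_mono (Subset.refl U) (le_refl 0) (by omega) (h0 k)
    · exact Lay.iv_mono (Subset.refl U) (Nat.zero_le t) le_rfl k
  · by_cases e : t < l
    · have := p.leg l e hl
      have := card_le_card (Y.iv_sub Z 0 l)
      omega
    · have k1 := hR.leg l (by omega)
      have k2 : Y.iv Z 0 l ⊆ Y.iv U 0 l \ Y.iv (U \ Z0) 0 l := fun v hv => by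
        rw [Lay.mem_iv] at hv
        rcases hZ v hv.1 with k | k
        · refine mem_sdiff.2 ⟨Lay.mem_iv.2 ⟨(Lay.mem_iv.1 (h0 k)).1, hv.2⟩, fun j => ?_⟩
          exact (mem_sdiff.1 (Lay.mem_iv.1 j).1).2 k
        · have := Lay.mem_iv.1 k
          omega
      have k3 := card_le_card k2
      have k4 := card_sdiff_add_card_eq_card
        (Lay.iv_mono (Y := Y) (sdiff_subset (s := U) (t := Z0)) (le_refl 0) (le_refl l))
      omega

/-- removal of vertices of the upper part -/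
theorem Prt.rem0 {s t w : ℕ} (p : Prt G Y U g s t) (h : Rs G Y U (g + 1) s) {Z : Finset V}
    (hZ : Z ⊆ Y.iv U t (g + 1)) (hc : Z.card + w = s) : Rs G Y (U \ Z) (g + 1) w := by
  obtain ⟨w', hw⟩ := h.low (show t ≤ g + 1 by have := p.le; omega)
  exact p.rem h (Z0 := ∅) (fun v hv => Or.inr (hZ hv)) (empty_subset _) (by simpa using hw) hc

theorem Mid.prt3 (h : Mid G W Y U g D B α β α' β' σ μ I J) {t : ℕ} (p : Prt G Y U g σ t) :
    β + 1 ≤ (Y.iv U t (g + 1)).card ∧ 3 ≤ (Y.iv U t (g + 1)).card := by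
  have h1 := p.big
  have h2 := Y.B_succ g
  have h3 := Y.B_mono p.le
  have h4 := h.lo.2
  have h5 := h.five
  have h6 := h.ab
  omega

/-- exact defects below `t` of a vertex of the upper layers and a vertex of `B` -/
theorem Mid.pt (h : Mid G W Y U g D B α β α' β' σ μ I J) {t : ℕ} (ht : t ≤ g + 1) {z p : V}
    (hz : z ∈ Y.iv U t (g + 1)) (hp : p ∈ B) {s' : ℕ} (hs : Rs G Y U t s') :
    ∃ e e', Df G Y U t z e ∧ Df G Y U t p e' ∧ 1 ≤ e ∧ 1 ≤ e' ∧
      e + e' + α + dH G p B + dH G z D + dH G z (Y.iv U t (g + 1)) ≤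
        s' + β + dG G z B + dG G p D + dG G p (Y.iv U t (g + 1)) := by
  have a1 := h.suf t ht z (Or.inl hz)
  have a2 := h.suf t ht p (Or.inr (Or.inr hp))
  have hz0 : z ∈ Y.iv U 0 (g + 1) := Lay.iv_mono (Subset.refl U) (Nat.zero_le t) le_rfl hz
  have hp0 : p ∉ Y.iv U 0 (g + 1) := Finset.disjoint_left.1 h.dB hp
  have b1 := dG_add_dH_out (G := G) (show z ∉ B from fun k => Finset.disjoint_left.1 h.dB k hz0)
  have b2 := dG_add_dH_out (G := G) (show p ∉ D from fun k => Finset.disjoint_left.1 h.dDB k hp)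
  have b3 := dG_add_dH_out (G := G) (show p ∉ Y.iv U t (g + 1) from fun k =>
    hp0 (Lay.iv_mono (Subset.refl U) (Nat.zero_le t) le_rfl k))
  have c1 := Y.card_iv U (Nat.zero_le t) ht
  have c2 := h.rs.top
  have c3 := hs.top
  have c4 := h.rs.AB ht le_rfl
  have c5 := h.cD
  have c6 := h.cB
  have c7 := h.sJ.le
  refine ⟨Y.B (g + 1) + β + β' - (dH G z (Y.iv U t (g + 1)) + dH G z D + dH G z B + Y.B t),
    Y.B (g + 1) + β + β' - (dH G p (Y.iv U t (g + 1)) + dH G p D + dH G p B + Y.B t),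
    fun l hl => ?_, fun l hl => ?_, by omega, by omega, by omega⟩
  · have k1 := h.suf l (by omega) z
      (Or.inl (Lay.iv_mono (Subset.refl U) hl.le le_rfl hz))
    have k2 := Y.dH_iv (G := G) U z hl.le ht
    omega
  · have k1 := h.suf l (by omega) p (Or.inr (Or.inr hp))
    have k2 := Y.dH_iv (G := G) U p hl.le ht
    omega

theorem iv_low_ne {t m : ℕ} {z : V} (hz : z ∈ Y.iv U t m) (U' : Finset V) : z ∉ Y.iv U' 0 t :=
  fun k => by
    have := Lay.mem_iv.1 hz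
    have := Lay.mem_iv.1 k
    omega

theorem Lnk.one {m w : ℕ} {u u' : V} (h : Lnk G Y U m 1 w u u') :
    ∃ y ∈ Y.iv U 0 m, G.Adj u y ∧ G.Adj u' y ∧ Rs G Y (U \ {y}) m w := by
  obtain ⟨y, y', Z, h1, h2, h3, h4, h5, h6⟩ := h
  obtain ⟨x, rfl⟩ := card_eq_one.1 h5
  obtain rfl := mem_singleton.1 h1.left
  obtain rfl := mem_singleton.1 h1.right
  exact ⟨_, h4 (mem_singleton_self _), h2, h3, h6⟩

/-- a lower link -/
theorem Mid.low1 (h : Mid G W Y U g D B α β α' β' σ μ I J) {t : ℕ} (ht : t ≤ g + 1) {z p : V}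
    (hz : z ∈ Y.iv U t (g + 1)) (hp : p ∈ B)
    (hc : β + dG G z B + dG G p D + dG G p (Y.iv U t (g + 1)) ≤
      1 + α + dH G p B + dH G z D + dH G z (Y.iv U t (g + 1))) :
    ∃ y ∈ Y.iv U 0 t, G.Adj z y ∧ G.Adj p y ∧ ∃ w, Rs G Y (U \ {y}) t w := by
  obtain ⟨s', hs⟩ := h.rs.low ht
  obtain ⟨e, e', d, d', k1, k2, k3⟩ := h.pt ht hz hp hs
  obtain ⟨w, rfl⟩ : ∃ w, s' = 1 + w := ⟨s' - 1, by omega⟩
  have hp0 : p ∉ Y.iv U 0 t := fun k =>
    Finset.disjoint_left.1 h.dB hp (Lay.iv_mono (Subset.refl U) le_rfl ht k)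
  obtain ⟨y, j1, j2, j3, j4⟩ := (link_one hs (iv_low_ne hz U) hp0 d d' (by omega)).one
  exact ⟨y, j1, j2, j3, w, j4⟩

/-- two lower links -/
theorem Mid.low2 (h : Mid G W Y U g D B α β α' β' σ μ I J) {t : ℕ} (ht : t ≤ g + 1)
    {z p z' p' : V} (hz : z ∈ Y.iv U t (g + 1)) (hp : p ∈ B) (hz' : z' ∈ Y.iv U t (g + 1))
    (hp' : p' ∈ B)
    (hc : β + dG G z B + dG G p D + dG G p (Y.iv U t (g + 1)) ≤
      α + dH G p B + dH G z D + dH G z (Y.iv U t (g + 1)))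
    (hc' : β + dG G z' B + dG G p' D + dG G p' (Y.iv U t (g + 1)) ≤
      α + dH G p' B + dH G z' D + dH G z' (Y.iv U t (g + 1))) :
    ∃ y ∈ Y.iv U 0 t, ∃ y' ∈ Y.iv U 0 t, y ≠ y' ∧ G.Adj z y ∧ G.Adj p y ∧ G.Adj z' y' ∧
      G.Adj p' y' ∧ ∃ w, Rs G Y (U \ {y, y'}) t w := by
  obtain ⟨s', hs⟩ := h.rs.low ht
  obtain ⟨e, e', d, d', k1, k2, k3⟩ := h.pt ht hz hp hs
  obtain ⟨f, f', c, c', l1, l2, l3⟩ := h.pt ht hz' hp' hs
  obtain ⟨w, rfl⟩ : ∃ w, s' = 1 + (1 + w) := ⟨s' - 2, by omega⟩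
  have n0 : ∀ q ∈ B, ∀ Z, q ∉ Y.iv (U \ Z) 0 t := fun q hq Z k =>
    Finset.disjoint_left.1 h.dB hq (Lay.iv_mono sdiff_subset le_rfl ht k)
  have hp0 : p ∉ Y.iv U 0 t := by simpa using n0 p hp ∅
  obtain ⟨y, j1, j2, j3, j4⟩ := (link_one hs (iv_low_ne hz U) hp0 d d' (by omega)).one
  obtain ⟨y', i1, i2, i3, i4⟩ := (link_one j4 (iv_low_ne hz' _) (n0 p' hp' _) (c.sdiff _)
    (c'.sdiff _) (by omega)).one
  rw [Y.iv_sdiff, mem_sdiff, mem_singleton] at i1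
  refine ⟨y, j1, y', i1.1, fun k => i1.2 k.symm, j2, j3, i2, i3, w, ?_⟩
  have : U \ {y, y'} = (U \ {y}) \ {y'} := by
    ext v
    simp only [mem_sdiff, mem_insert, mem_singleton]
    tauto
  exact this ▸ i4

/-- a path is attached at one end of a gap -/
theorem CS.att {X Q : Finset V} {gs : Multiset (Sym2 V)} {p q a a' : V}
    (h : CS G X (s(p, q) ::ₘ gs)) (hQ : HP G a a' Q) (hd : Disjoint X Q) (ha : G.Adj p a) :
    CS G (X ∪ Q) (s(q, a') ::ₘ gs) := by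
  have := (h.glue (gs' := 0) hQ.cs hd).edge ha
  simpa using this

/-- the state after the removal of `Z` from the reservoir and of all of the surplus from `B` -/
structure Ph (G : SimpleGraph V) (Y : Lay V) (U : Finset V) (g : ℕ) (D B : Finset V)
    (σ μ : ℕ) (X Z Z' : Finset V) (s : ℕ) : Prop where
  z : Z ⊆ Y.iv U 0 (g + 1)
  z' : Z' ⊆ B
  c : Z.card + s = σ
  c' : Z'.card = μ
  mem : ∀ v, v ∈ X ↔ v ∈ D ∨ v ∈ Z ∨ v ∈ Z'
  rs : Rs G Y (U \ Z) (g + 1) s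

variable {X Z Z' : Finset V} {s : ℕ}

theorem Ph.disj (h : Mid G W Y U g D B α β α' β' σ μ I J) (k : Ph G Y U g D B σ μ X Z Z' s) :
    Disjoint X (Y.iv (U \ Z) 0 (g + 1)) := by
  rw [Finset.disjoint_left]
  intro v hv hv'
  rw [Y.iv_sdiff, mem_sdiff] at hv'
  rcases (k.mem v).1 hv with j | j | j
  · exact Finset.disjoint_left.1 h.dD j hv'.1
  · exact hv'.2 j
  · exact Finset.disjoint_left.1 h.dB (k.z' j) hv'.1

theorem Ph.fin (h : Mid G W Y U g D B α β α' β' σ μ I J) (k : Ph G Y U g D B σ μ X Z Z' s)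
    {Q : Finset V} (h1 : Q ⊆ Y.iv (U \ Z) 0 (g + 1)) (h2 : Q.card = s) (h3 : CS G (X ∪ Q) 0)
    (h4 : Rs G Y ((U \ Z) \ Q) (g + 1) 0) : Fin2 G Y U g D B σ μ := by
  rw [Y.iv_sdiff] at h1
  have d1 : Disjoint Z Q := Finset.disjoint_left.2 fun v hv hv' => (mem_sdiff.1 (h1 hv')).2 hv
  have s1 : Z ∪ Q ⊆ Y.iv U 0 (g + 1) := union_subset k.z (h1.trans sdiff_subset)
  have c1 : (Z ∪ Q).card = σ := by rw [card_union_of_disjoint d1, h2, k.c]
  have e1 : X ∪ Q = D ∪ (Z ∪ Q) ∪ Z' := by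
    ext v
    simp only [mem_union, k.mem]
    tauto
  have e2 : U \ (Z ∪ Q) = (U \ Z) \ Q := by
    ext v
    simp only [mem_sdiff, mem_union]
    tauto
  refine ⟨Z ∪ Q, Z', s1, k.z', c1, k.c', ?_, e2 ▸ h4⟩
  rw [e1] at h3
  refine h3.done ?_
  rw [card_union_of_disjoint (disjoint_union_left.2 ⟨h.dDB.mono_right k.z',
      (h.dB.symm.mono s1 k.z')⟩), card_union_of_disjoint (h.dD.mono_right s1), c1, k.c']
  have := h.cD
  have := h.five
  omega

/-- no gap and no slack is left -/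
theorem Ph.closed (h : Mid G W Y U g D B α β α' β' σ μ I J) (k : Ph G Y U g D B σ μ X Z Z' 0)
    (h3 : CS G X 0) : Fin2 G Y U g D B σ μ :=
  k.fin h (Q := ∅) (empty_subset _) card_empty (by simpa using h3) (by simpa using k.rs)

theorem Ph.gaps (h : Mid G W Y U g D B α β α' β' σ μ I J) (k : Ph G Y U g D B σ μ X Z Z' s)
    {gs : Multiset (Sym2 V)} {e : V → ℕ} (h3 : CS G X gs) (h0 : gs ≠ 0)
    (he : ∀ p q, s(p, q) ∈ gs →
      Df G Y U (g + 1) p (e p) ∧ 1 ≤ e p ∧ e p + e q + gs.card ≤ s + 2) :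
    Fin2 G Y U g D B σ μ := by
  obtain ⟨Q, j1, j2, j3, j4⟩ := filly (rest := 0) (e := e) (by simpa using h3) h0 k.rs (k.disj h)
    fun p q hpq => ⟨(he p q hpq).1.sdiff Z, (he p q hpq).2⟩
  exact k.fin h j1 j2 j3 j4

theorem Ph.last (h : Mid G W Y U g D B α β α' β' σ μ I J) {gs : Multiset (Sym2 V)} {r : ℕ}
    (k : Ph G Y U g D B σ μ X Z Z' (gs.card + r)) {e : V → ℕ} {p q : V}
    (h3 : CS G X (s(p, q) ::ₘ gs)) (hr : 1 ≤ r)
    (he : ∀ x y, s(x, y) ∈ gs → Df G Y U (g + 1) x (e x) ∧ e x + e y ≤ r + 2)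
    (hp : Df G Y U (g + 1) p (e p) ∧ 1 ≤ e p ∧ e p ≤ Y.a g)
    (hq : Df G Y U (g + 1) q (e q) ∧ 1 ≤ e q ∧ e q ≤ Y.a g)
    (h1 : r = 1 → e p + e q ≤ 2) (h2 : r = 2 → e p ≤ 2 ∨ e q ≤ 2) :
    Fin2 G Y U g D B σ μ := by
  obtain ⟨Q, j1, j2, j3, j4⟩ := fill_last (rest := 0) (e := e) (by simpa using h3) k.rs h.ord hr
    (k.disj h) (fun x y hxy => ⟨(he x y hxy).1.sdiff Z, (he x y hxy).2⟩)
    ⟨hp.1.sdiff Z, hp.2⟩ ⟨hq.1.sdiff Z, hq.2⟩ h1 h2
  exact k.fin h j1 j2 j3 j4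

end Pool.Agent.Lib.MP_af3016_co
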