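import Pool.Agent.Lib.MP_af3016_co.C.M2T

/-! Surplus two, slack at least three: the crossing for a nonempty sparse class. -/

set_option autoImplicit false
set_option linter.unusedSectionVars false

namespace Pool.Agent.Lib.MP_af3016_co

open Finset SimpleGraph

variable {V : Type} [DecidableEq V] {G : SimpleGraph V} {Y : Lay V} {U : Finset V}

variable {W D B : Finset V} {g α β α' β' σ μ : ℕ} {I J : Multiset ℕ}

theorem hp_list : ∀ (l : List V) (a b : V), (a :: (l ++ [b])).Nodup →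
    List.IsChain G.Adj (a :: (l ++ [b])) → HP G a b (a :: (l ++ [b])).toFinset
  | [], a, b, h1, h2 => by
    simp only [List.nil_append, List.isChain_cons_cons, List.nodup_cons, List.mem_cons] at h1 h2
    simpa using (HP.single b).cons h2.1 (by simpa using h1.1)
  | c :: l, a, b, h1, h2 => by
    rw [List.cons_append, List.isChain_cons_cons] at h2
    rw [List.cons_append, List.nodup_cons] at h1
    rw [List.cons_append, List.toFinset_cons]
    exact (hp_list l c b h1.2 h2.2).cons h2.1 fun k => h1.1 (List.mem_toFinset.1 k)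

theorem Mid.neB (h : Mid G W Y U g D B α β α' β' σ μ I J) {p z : V} (hp : p ∈ B)
    (hz : z ∈ Y.iv U 0 (g + 1)) : p ≠ z :=
  fun e => Finset.disjoint_left.1 h.dB hp (e ▸ hz)

theorem Prt.up {s t : ℕ} (_ : Prt G Y U g s t) {z : V} (hz : z ∈ Y.iv U t (g + 1)) :
    z ∈ Y.iv U 0 (g + 1) := Lay.iv_mono (Subset.refl U) (Nat.zero_le t) le_rfl hz

theorem Prt.dn {s t : ℕ} (p : Prt G Y U g s t) {z : V} (hz : z ∈ Y.iv U 0 t) :
    z ∈ Y.iv U 0 (g + 1) := Lay.iv_mono (Subset.refl U) le_rfl (by have := p.le; omega) hz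

theorem iv_ne {t m : ℕ} {z y : V} (hz : z ∈ Y.iv U t m) (hy : y ∈ Y.iv U 0 t) : z ≠ y :=
  fun e => iv_low_ne hz U (e ▸ hy)

/-- an order of `D` cut between `v` and `v'`, with cheap gaps -/
structure Cr (G : SimpleGraph V) (Y : Lay V) (U : Finset V) (g : ℕ) (D : Finset V) (σ t s : ℕ)
    (be : V → ℕ) (v v' : V) (gs : Multiset (Sym2 V)) : Prop where
  prt : Prt G Y U g σ t
  cs : CS G D (s(v, v') ::ₘ gs)
  card : gs.card + s = σ
  three : 3 ≤ s
  df : ∀ u ∈ D, Df G Y U (g + 1) u (be u) ∧ 1 ≤ be u ∧ be u ≤ Y.a g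
  gap : ∀ p q, s(p, q) ∈ gs → be p + be q + 1 ≤ s
  sp : s = 3 → (v = v' ∧ gs = 0) ∨ (be v ≤ 1 ∧ be v' ≤ 1)

variable {t s : ℕ} {be : V → ℕ} {v v' : V} {gs : Multiset (Sym2 V)}

theorem Cr.symm (c : Cr G Y U g D σ t s be v v' gs) : Cr G Y U g D σ t s be v' v gs :=
  ⟨c.prt, by rw [Sym2.eq_swap]; exact c.cs, c.card, c.three, c.df, c.gap,
    fun e => (c.sp e).imp (fun k => ⟨k.1.symm, k.2⟩) fun k => k.symm⟩

theorem Cr.mem (c : Cr G Y U g D σ t s be v v' gs) : v ∈ D :=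
  (c.cs.mem (Multiset.mem_cons_self _ _)).1

theorem Cr.memg (c : Cr G Y U g D σ t s be v v' gs) {p q : V} (hg : s(p, q) ∈ gs) :
    p ∈ D ∧ q ∈ D := c.cs.mem (Multiset.mem_cons_of_mem hg)

theorem m2_disj (h : Mid G W Y U g D B α β α' β' σ μ I J) {Q Z Z' : Finset V}
    (h1 : Z ⊆ Y.iv U 0 (g + 1)) (h2 : Z' ⊆ B) (hQ : ∀ x ∈ Q, x ∈ Z ∨ x ∈ Z') : Disjoint D Q :=
  Finset.disjoint_left.2 fun x hx hx' => (hQ x hx').elim
    (fun k => Finset.disjoint_left.1 h.dD hx (h1 k)) fun k => Finset.disjoint_left.1 h.dDB hx (h2 k)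

/-- the last gap joins `p` and `q`, each of them being `v'` or a port -/
theorem Cr.last (h : Mid G W Y U g D B α β α' β' σ μ I J) (c : Cr G Y U g D σ t s be v v' gs)
    {X Z Z' : Finset V} {r : ℕ} (k : Ph G Y U g D B σ μ X Z Z' (gs.card + r)) {p q : V}
    (h3 : CS G X (s(p, q) ::ₘ gs)) (hr : 1 ≤ r) (hs : s ≤ r + 3)
    (hp : (p = v' ∧ (r = 1 → be v' ≤ 1)) ∨ p ∈ Y.iv U t (g + 1)) (hq : q ∈ Y.iv U t (g + 1)) :
    Fin2 G Y U g D B σ μ := by
  classical
  have ha : 1 ≤ Y.a g := (h.rs.one g (by omega)).trans (h.rs.ba g (by omega))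
  have n1 : ∀ z ∈ Y.iv U t (g + 1), z ∉ D := fun z hz j =>
    Finset.disjoint_left.1 h.dD j (c.prt.up hz)
  have e1 : ∀ z ∈ Y.iv U t (g + 1), (if z ∈ D then be z else 1) = 1 := fun z hz => if_neg (n1 z hz)
  have e2 : ∀ z ∈ D, (if z ∈ D then be z else 1) = be z := fun z hz => if_pos hz
  have hv := c.symm.mem
  refine k.last h (e := fun x => if x ∈ D then be x else 1) h3 hr (fun x y hxy => ?_) ?_ ?_ ?_ ?_
  · have := c.gap x y hxy
    simp only [e2 x (c.memg hxy).1, e2 y (c.memg hxy).2]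
    exact ⟨(c.df x (c.memg hxy).1).1, by omega⟩
  · rcases hp with ⟨rfl, -⟩ | hp
    · simp only [e2 p hv]
      exact c.df p hv
    · simp only [e1 p hp]
      exact ⟨c.prt.df p hp, le_rfl, ha⟩
  · simp only [e1 q hq]
    exact ⟨c.prt.df q hq, le_rfl, ha⟩
  · intro e
    rcases hp with ⟨rfl, j⟩ | hp
    · have := j e
      simp only [e2 p hv, e1 q hq]
      omega
    · simp only [e1 p hp, e1 q hq]
      omega
  · intro _
    simp only [e1 q hq]
    omega

/-- one path from a neighbour of `v` to a port -/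
theorem Cr.open1 (h : Mid G W Y U g D B α β α' β' σ μ I J) (c : Cr G Y U g D σ t s be v v' gs)
    {Q Z Z' : Finset V} {a z : V} {r : ℕ} (hQ : HP G a z Q) (ha : G.Adj v a)
    (hz : z ∈ Y.iv U t (g + 1)) (hm : ∀ x, x ∈ Q ↔ x ∈ Z ∨ x ∈ Z') (h1 : Z ⊆ Y.iv U 0 (g + 1))
    (h2 : Z' ⊆ B) (c1 : Z.card + r = s) (c2 : Z'.card = μ) (c3 : Z.card ≤ 3) (hr : 1 ≤ r)
    (hR : ∀ w, Z.card + w = σ → Rs G Y (U \ Z) (g + 1) w) (hb : r = 1 → be v' ≤ 1) :
    Fin2 G Y U g D B σ μ := by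
  have := c.card
  refine c.last h (X := D ∪ Q) (r := r) ⟨h1, h2, by omega, c2, fun x => ?_, hR _ (by omega)⟩
    (c.cs.att hQ (m2_disj h h1 h2 fun x hx => (hm x).1 hx) ha) hr (by omega) (Or.inl ⟨rfl, hb⟩) hz
  rw [mem_union, hm]

/-- two paths, from neighbours of `v` and `v'` to ports -/
theorem Cr.open2 (h : Mid G W Y U g D B α β α' β' σ μ I J) (c : Cr G Y U g D σ t s be v v' gs)
    {Q Q' Z Z' : Finset V} {a z a' z' : V} {r : ℕ} (hQ : HP G a z Q) (hQ' : HP G a' z' Q')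
    (hd : Disjoint Q Q') (ha : G.Adj v a) (ha' : G.Adj v' a')
    (hz : z ∈ Y.iv U t (g + 1)) (hz' : z' ∈ Y.iv U t (g + 1))
    (hm : ∀ x, x ∈ Q ∨ x ∈ Q' ↔ x ∈ Z ∨ x ∈ Z') (h1 : Z ⊆ Y.iv U 0 (g + 1))
    (h2 : Z' ⊆ B) (c1 : Z.card + r = s) (c2 : Z'.card = μ) (c3 : Z.card ≤ 3 ∨ gs = 0) (hr : 1 ≤ r)
    (hR : ∀ w, Z.card + w = σ → Rs G Y (U \ Z) (g + 1) w) : Fin2 G Y U g D B σ μ := by
  have := c.card
  have k1 := (c.cs.att hQ (m2_disj h h1 h2 fun x hx => (hm x).1 (Or.inl hx)) ha).att hQ'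
    (disjoint_union_left.2 ⟨m2_disj h h1 h2 fun x hx => (hm x).1 (Or.inr hx), hd⟩) ha'
  have k2 : Ph G Y U g D B σ μ (D ∪ Q ∪ Q') Z Z' (gs.card + r) :=
    ⟨h1, h2, by omega, c2, fun x => by rw [mem_union, mem_union, or_assoc, hm], hR _ (by omega)⟩
  rcases c3 with c3 | rfl
  · exact c.last h k2 k1 hr (by omega) (Or.inr hz) hz'
  · have ha : 1 ≤ Y.a g := (h.rs.one g (by omega)).trans (h.rs.ba g (by omega))
    exact k2.last h (e := fun _ => 1) k1 hr (fun x y hxy => absurd hxy (Multiset.notMem_zero _))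
      ⟨c.prt.df z hz, le_rfl, ha⟩ ⟨c.prt.df z' hz', le_rfl, ha⟩ (fun _ => le_rfl)
      fun _ => Or.inl (by omega)

/-- one path from a neighbour of `v` to a neighbour of `v'` -/
theorem Cr.shut (h : Mid G W Y U g D B α β α' β' σ μ I J) (c : Cr G Y U g D σ t s be v v' gs)
    {Q Z Z' : Finset V} {a a' : V} (hQ : HP G a a' Q) (ha : G.Adj v a) (ha' : G.Adj v' a')
    (hm : ∀ x, x ∈ Q ↔ x ∈ Z ∨ x ∈ Z') (h1 : Z ⊆ Y.iv U 0 (g + 1))
    (h2 : Z' ⊆ B) (c1 : gs = 0 → Z.card = s) (c2 : Z'.card = μ) (c3 : gs ≠ 0 → Z.card = 3)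
    (hR : ∀ w, Z.card + w = σ → Rs G Y (U \ Z) (g + 1) w) : Fin2 G Y U g D B σ μ := by
  have k0 := c.card
  have k3 := c.three
  have k1 := (c.cs.att hQ (m2_disj h h1 h2 fun x hx => (hm x).1 hx) ha).edge ha'
  have k2 : ∀ w, Z.card + w = σ → Ph G Y U g D B σ μ (D ∪ Q) Z Z' w := fun w hw =>
    ⟨h1, h2, hw, c2, fun x => by rw [mem_union, hm], hR _ hw⟩
  by_cases e : gs = 0
  · subst e
    have := c1 rfl
    rw [Multiset.card_zero] at k0
    exact (k2 0 (by omega)).closed h k1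
  · have := c3 e
    refine (k2 (σ - 3) (by omega)).gaps h (e := be) k1 e fun p q hpq => ?_
    have k4 := c.gap p q hpq
    have k5 := c.df p (c.memg hpq).1
    exact ⟨k5.1, k5.2.1, by omega⟩

/-- the gadget `v p p' z` -/
theorem Cr.a1 (h : Mid G W Y U g D B α β α' β' σ 2 I J) (c : Cr G Y U g D σ t s be v v' gs)
    {p p' z : V} (hp : p ∈ B) (hp' : p' ∈ B) (hz : z ∈ Y.iv U t (g + 1)) (e1 : G.Adj v p)
    (e2 : G.Adj p p') (e3 : G.Adj p' z) : Fin2 G Y U g D B σ 2 := by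
  have := c.three
  have n1 := h.neB hp (c.prt.up hz)
  have n2 := e2.ne
  have n3 := e3.ne
  refine c.open1 h (Z := {z}) (Z' := {p, p'}) (r := s - 1)
    (hp_list [p'] p z (by simp [n1, n2, n3]) (by simp [e2, e3])) e1 hz (by simp; grind)
    (by simpa using c.prt.up hz) (by simp [insert_subset_iff, hp, hp']) (by simp; omega)
    (card_pair n2) (by simp) (by omega) (fun w hw => c.prt.rem0 h.rs (by simpa using hz) hw)
    (by omega)

/-- the neighbourhood of `v` in `B` contains an edge -/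
theorem Cr.a2 (h : Mid G W Y U g D B α β α' β' σ 2 I J) (c : Cr G Y U g D σ t s be v v' gs)
    (hE : ∀ y ∈ D, ∀ y' ∈ D, ∀ p ∈ B, ∀ p' ∈ B, G.Adj y p → G.Adj p p' → G.Adj p' y' → y = y')
    {p p' : V} (hp : p ∈ B) (hp' : p' ∈ B) (e1 : G.Adj v p) (e1' : G.Adj v p')
    (e2 : G.Adj p p') : Fin2 G Y U g D B σ 2 := by
  by_contra hn
  have h3 := c.three
  have ht : t ≤ g + 1 := by have := c.prt.le; omega
  have hab := h.ba
  have key : ∀ q ∈ B, ∀ q' ∈ B, G.Adj v q → G.Adj v q' → G.Adj q q' →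
      dG G q' D ≤ 1 ∧ dG G q' (Y.iv U t (g + 1)) = 0 ∧
        ∀ z ∈ Y.iv U t (g + 1), dG G z B ≤ dH G q' B := by
    intro q hq q' hq' f1 f2 f3
    have k2 : ∀ z ∈ Y.iv U t (g + 1), ¬G.Adj q' z := fun z hz j => hn (c.a1 h hq hq' hz f1 f3 j)
    refine ⟨(dG_le (R := {v}) fun y hy j => ?_).trans (by simp), dG_eq_zero.2 k2, fun z hz => ?_⟩
    · exact mem_singleton.2 (hE v c.mem y hy q hq q' hq' f1 f3 j).symm
    · obtain ⟨N, j1, j2⟩ := exists_nbhd (G := G) z B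
      rw [← j1]
      refine le_dH fun x hx => ?_
      rw [j2] at hx
      exact ⟨hx.1, fun e => k2 z hz (e ▸ hx.2.symm),
        fun j => hn (c.a1 h hq' hx.1 hz f2 j hx.2.symm)⟩
  obtain ⟨k1, k2, k3⟩ := key p hp p' hp' e1 e1' e2
  obtain ⟨l1, l2, l3⟩ := key p' hp' p hp e1' e1 e2.symm
  have n2 := e2.ne
  have low : ∀ z ∈ Y.iv U t (g + 1),
      ∃ y ∈ Y.iv U 0 t, G.Adj z y ∧ G.Adj p' y ∧ ∃ w, Rs G Y (U \ {y}) t w := fun z hz =>
    h.low1 ht hz hp' (by have := k3 z hz; omega)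
  by_cases e : s = 3 ∧ v = v' ∧ gs = 0
  · obtain ⟨rfl, rfl, rfl⟩ := e
    by_cases e' : ∃ x ∈ Y.iv U t (g + 1), G.Adj v x
    · obtain ⟨x, hx, f1⟩ := e'
      obtain ⟨z, hz, f2⟩ := c.prt.nb x hx
      obtain ⟨y, hy, f3, f4, w, hw⟩ := low z hz
      have m1 := h.neB hp (c.prt.up hz)
      have m2 := h.neB hp (c.prt.up hx)
      have m3 := h.neB hp (c.prt.dn hy)
      have m4 := h.neB hp' (c.prt.up hz)
      have m5 := h.neB hp' (c.prt.up hx)
      have m6 := f4.ne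
      have m7 := (iv_ne hz hy).symm
      have m8 := (iv_ne hx hy).symm
      have m9 := f2.ne.symm
      have cz : ({y, z, x} : Finset V).card = 3 := card_eq_three.2 ⟨y, z, x, m7, m8, m9, rfl⟩
      exact hn (c.shut h (Z := {y, z, x}) (Z' := {p, p'})
        (hp_list [p', y, z] p x (by simp [*]) (by simp [e2, f4, f3.symm, f2.symm])) e1 f1
        (by simp; grind) (by simp [insert_subset_iff, c.prt.up hz, c.prt.up hx, c.prt.dn hy])
        (by simp [insert_subset_iff, hp, hp']) (fun _ => cz) (card_pair n2) (fun _ => cz)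
        fun w' hw' => c.prt.rem h.rs (Z0 := {y}) (by simp [hz, hx]) (by simpa using hy) hw hw')
    · push Not at e'
      obtain ⟨z, hz⟩ : (Y.iv U t (g + 1)).Nonempty := card_pos.1 (by have := h.prt3 c.prt; omega)
      have d1 : 0 < dH G z D := dH_pos c.mem
        (fun j => Finset.disjoint_left.1 h.dD c.mem (j ▸ c.prt.up hz)) fun j => e' z hz j.symm
      obtain ⟨y, hy, y', hy', f0, f1, f2, f3, f4, w, hw⟩ := h.low2 ht hz hp hz hp'
        (by have := l3 z hz; omega) (by have := k3 z hz; omega)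
      have m1 := h.neB hp (c.prt.up hz)
      have m2 := h.neB hp (c.prt.dn hy)
      have m3 := h.neB hp (c.prt.dn hy')
      have m4 := (h.neB hp' (c.prt.up hz)).symm
      have m5 := (h.neB hp' (c.prt.dn hy)).symm
      have m6 := (h.neB hp' (c.prt.dn hy')).symm
      have m7 := (iv_ne hz hy).symm
      have m8 := iv_ne hz hy'
      have cz : ({y, z, y'} : Finset V).card = 3 := card_eq_three.2 ⟨y, z, y', m7, f0, m8, rfl⟩
      exact hn (c.shut h (Z := {y, z, y'}) (Z' := {p, p'})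
        (hp_list [y, z, y'] p p' (by simp [*]) (by simp [f2, f1.symm, f3, f4.symm])) e1 e1'
        (by simp; grind) (by simp [insert_subset_iff, c.prt.up hz, c.prt.dn hy', c.prt.dn hy])
        (by simp [insert_subset_iff, hp, hp']) (fun _ => cz) (card_pair n2) (fun _ => cz)
        fun w' hw' => c.prt.rem h.rs (Z0 := {y, y'}) (by simp [hz])
          (by simp [insert_subset_iff, hy, hy']) hw hw')
  · obtain ⟨z, hz⟩ : (Y.iv U t (g + 1)).Nonempty := card_pos.1 (by have := h.prt3 c.prt; omega)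
    obtain ⟨y, hy, f3, f4, w, hw⟩ := low z hz
    have m1 := h.neB hp (c.prt.up hz)
    have m3 := h.neB hp (c.prt.dn hy)
    have m4 := h.neB hp' (c.prt.up hz)
    have m6 := f4.ne
    have m7 := (iv_ne hz hy).symm
    have cz := card_pair m7
    refine hn (c.open1 h (Z := {y, z}) (Z' := {p, p'}) (r := s - 2)
      (hp_list [p', y] p z (by simp [*]) (by simp [e2, f4, f3.symm])) e1 hz
      (by simp; grind) (by simp [insert_subset_iff, c.prt.up hz, c.prt.dn hy])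
      (by simp [insert_subset_iff, hp, hp']) (by omega) (card_pair n2) (by omega) (by omega)
      (fun w' hw' => c.prt.rem h.rs (Z0 := {y}) (by simp [hz]) (by simpa using hy) hw hw')
      fun j => ?_)
    rcases c.sp (by omega) with i | i
    · exact absurd ⟨by omega, i⟩ e
    · exact i.2

/-- two disjoint edges to ports -/
theorem Cr.b1 (h : Mid G W Y U g D B α β α' β' σ 2 I J) (c : Cr G Y U g D σ t s be v v' gs)
    {p p' z z' : V} (hp : p ∈ B) (hp' : p' ∈ B) (hz : z ∈ Y.iv U t (g + 1))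
    (hz' : z' ∈ Y.iv U t (g + 1)) (n1 : p ≠ p') (n2 : z ≠ z') (e1 : G.Adj v p) (e2 : G.Adj v' p')
    (e3 : G.Adj p z) (e4 : G.Adj p' z') : Fin2 G Y U g D B σ 2 := by
  have := c.three
  have m1 := h.neB hp (c.prt.up hz')
  have m2 := (h.neB hp' (c.prt.up hz)).symm
  have m3 := e3.ne
  have m4 := e4.ne
  have cz := card_pair n2
  exact c.open2 h (Z := {z, z'}) (Z' := {p, p'}) (r := s - 2)
    (hp_list [] p z (by simp [*]) (by simp [e3])) (hp_list [] p' z' (by simp [*]) (by simp [e4]))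
    (by simp; grind) e1 e2 hz hz' (by simp; grind)
    (by simp [insert_subset_iff, c.prt.up hz, c.prt.up hz']) (by simp [insert_subset_iff, hp, hp'])
    (by omega) (card_pair n1) (by omega) (by omega)
    fun w hw => c.prt.rem0 h.rs (by simp [insert_subset_iff, hz, hz']) hw

/-- two lower links -/
theorem Cr.b2 (h : Mid G W Y U g D B α β α' β' σ 2 I J) (c : Cr G Y U g D σ t s be v v' gs)
    {p p' : V} (hp : p ∈ B) (hp' : p' ∈ B) (n1 : p ≠ p') (e1 : G.Adj v p) (e2 : G.Adj v' p')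
    (k : ∀ z ∈ Y.iv U t (g + 1), dG G z B + dG G p D + dG G p (Y.iv U t (g + 1)) ≤ dH G p B)
    (k' : ∀ z ∈ Y.iv U t (g + 1), dG G z B + dG G p' D + dG G p' (Y.iv U t (g + 1)) ≤ dH G p' B) :
    Fin2 G Y U g D B σ 2 := by
  have h3 := c.three
  have ht : t ≤ g + 1 := by have := c.prt.le; omega
  have hab := h.ba
  obtain ⟨z, hz⟩ : (Y.iv U t (g + 1)).Nonempty := card_pos.1 (by have := h.prt3 c.prt; omega)
  have m1 := h.neB hp (c.prt.up hz)
  have m4 := (h.neB hp' (c.prt.up hz)).symm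
  by_cases e : s = 3 ∨ gs ≠ 0
  · obtain ⟨y, hy, y', hy', f0, f1, f2, f3, f4, w, hw⟩ := h.low2 ht hz hp hz hp'
      (by have := k z hz; omega) (by have := k' z hz; omega)
    have m2 := h.neB hp (c.prt.dn hy)
    have m3 := h.neB hp (c.prt.dn hy')
    have m5 := (h.neB hp' (c.prt.dn hy)).symm
    have m6 := (h.neB hp' (c.prt.dn hy')).symm
    have m7 := (iv_ne hz hy).symm
    have m8 := iv_ne hz hy'
    have cz : ({y, z, y'} : Finset V).card = 3 := card_eq_three.2 ⟨y, z, y', m7, f0, m8, rfl⟩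
    exact c.shut h (Z := {y, z, y'}) (Z' := {p, p'})
      (hp_list [y, z, y'] p p' (by simp [*]) (by simp [f2, f1.symm, f3, f4.symm])) e1 e2
      (by simp; grind) (by simp [insert_subset_iff, c.prt.up hz, c.prt.dn hy', c.prt.dn hy])
      (by simp [insert_subset_iff, hp, hp']) (fun j => by rw [cz]; exact (e.resolve_right (by simp [j])).symm)
      (card_pair n1) (fun _ => cz)
      fun w' hw' => c.prt.rem h.rs (Z0 := {y, y'}) (by simp [hz])
        (by simp [insert_subset_iff, hy, hy']) hw hw'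
  · push Not at e
    obtain ⟨z', hz', f5⟩ := c.prt.nb z hz
    obtain ⟨y, hy, y', hy', f0, f1, f2, f3, f4, w, hw⟩ := h.low2 ht hz hp hz' hp'
      (by have := k z hz; omega) (by have := k' z' hz'; omega)
    have m2 := h.neB hp (c.prt.dn hy)
    have m3 := h.neB hp (c.prt.dn hy')
    have m5 := (h.neB hp' (c.prt.dn hy)).symm
    have m6 := (h.neB hp' (c.prt.dn hy')).symm
    have m6' := h.neB hp' (c.prt.dn hy')
    have m7 := (iv_ne hz hy).symm
    have m8 := iv_ne hz hy'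
    have m9 := h.neB hp (c.prt.up hz')
    have m10 := (h.neB hp' (c.prt.up hz')).symm
    have m10' := h.neB hp' (c.prt.up hz')
    have m11 := (iv_ne hz' hy).symm
    have m12 := iv_ne hz' hy'
    have m12' := (iv_ne hz' hy').symm
    have m13 := f5.ne
    have cz : ({y, z, z', y'} : Finset V).card = 4 := by
      rw [card_insert_of_notMem (by simp [*]), card_eq_three.2 ⟨z, z', y', m13, m8, m12, rfl⟩]
    have s1 : ({y, z, z', y'} : Finset V) ⊆ Y.iv U 0 (g + 1) := by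
      simp [insert_subset_iff, c.prt.up hz, c.prt.up hz', c.prt.dn hy', c.prt.dn hy]
    have s2 : ∀ w', ({y, z, z', y'} : Finset V).card + w' = σ →
        Rs G Y (U \ {y, z, z', y'}) (g + 1) w' := fun w' hw' =>
      c.prt.rem h.rs (Z0 := {y, y'}) (by simp [hz, hz']) (by simp [insert_subset_iff, hy, hy']) hw hw'
    by_cases e4 : s = 4
    · exact c.shut h (Z := {y, z, z', y'}) (Z' := {p, p'})
        (hp_list [y, z, z', y'] p p' (by simp [*]) (by simp [f2, f1.symm, f3, f4.symm, f5])) e1 e2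
        (by simp; grind) s1 (by simp [insert_subset_iff, hp, hp']) (fun _ => by omega)
        (card_pair n1) (fun j => absurd e.2 j) s2
    · exact c.open2 h (Z := {y, z, z', y'}) (Z' := {p, p'}) (r := s - 4)
        (hp_list [y] p z (by simp [*]) (by simp [f2, f1.symm]))
        (hp_list [y'] p' z' (by simp [*]) (by simp [f4, f3.symm]))
        (by simp; grind) e1 e2 hz hz' (by simp; grind) s1 (by simp [insert_subset_iff, hp, hp'])
        (by omega) (card_pair n1) (Or.inr e.2) (by omega) s2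

/-- one edge to a port and one lower link -/
theorem Cr.b3 (h : Mid G W Y U g D B α β α' β' σ 2 I J) (c : Cr G Y U g D σ t s be v v' gs)
    {p p' x : V} (hp : p ∈ B) (hp' : p' ∈ B) (n1 : p ≠ p') (e1 : G.Adj v p) (e2 : G.Adj v' p')
    (hx : x ∈ Y.iv U t (g + 1)) (e3 : G.Adj p x)
    (k' : ∀ z ∈ Y.iv U t (g + 1), z ≠ x →
      dG G z B + dG G p' D + dG G p' (Y.iv U t (g + 1)) ≤ dH G p' B + 1) :
    Fin2 G Y U g D B σ 2 := by
  have h3 := c.three
  have ht : t ≤ g + 1 := by have := c.prt.le; omega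
  have hab := h.ba
  obtain ⟨z, hz, f5⟩ := c.prt.nb x hx
  obtain ⟨y, hy, f1, f2, w, hw⟩ := h.low1 ht hz hp' (by have := k' z hz f5.ne.symm; omega)
  have m1 := h.neB hp (c.prt.up hz)
  have m2 := h.neB hp (c.prt.dn hy)
  have m3 := e3.ne
  have m4 := (h.neB hp' (c.prt.up hz)).symm
  have m4' := h.neB hp' (c.prt.up hz)
  have m5 := (h.neB hp' (c.prt.dn hy)).symm
  have m5' := h.neB hp' (c.prt.dn hy)
  have m6 := (h.neB hp' (c.prt.up hx)).symm
  have m7 := iv_ne hz hy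
  have m7' := (iv_ne hz hy).symm
  have m8 := iv_ne hx hy
  have m9 := f5.ne
  have cz : ({x, z, y} : Finset V).card = 3 := card_eq_three.2 ⟨x, z, y, m9, m8, m7, rfl⟩
  have s1 : ({x, z, y} : Finset V) ⊆ Y.iv U 0 (g + 1) := by
    simp [insert_subset_iff, c.prt.up hz, c.prt.up hx, c.prt.dn hy]
  have s2 : ∀ w', ({x, z, y} : Finset V).card + w' = σ →
      Rs G Y (U \ {x, z, y}) (g + 1) w' := fun w' hw' =>
    c.prt.rem h.rs (Z0 := {y}) (by simp [hz, hx]) (by simpa using hy) hw hw'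
  by_cases e : s = 3
  · exact c.shut h (Z := {x, z, y}) (Z' := {p, p'})
      (hp_list [x, z, y] p p' (by simp [*]) (by simp [e3, f5, f1, f2.symm])) e1 e2
      (by simp; grind) s1 (by simp [insert_subset_iff, hp, hp']) (fun _ => by omega)
      (card_pair n1) (fun _ => cz) s2
  · exact c.open2 h (Z := {x, z, y}) (Z' := {p, p'}) (r := s - 3)
      (hp_list [] p x (by simp [*]) (by simp [e3]))
      (hp_list [y] p' z (by simp [*]) (by simp [f2, f1.symm]))
      (by simp; grind) e1 e2 hx hz (by simp; grind) s1 (by simp [insert_subset_iff, hp, hp'])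
      (by omega) (card_pair n1) (by omega) (by omega) s2

/-- the count of the non-neighbours of a neighbour of `v` -/
theorem Cr.cnt (h : Mid G W Y U g D B α β α' β' σ 2 I J) (c : Cr G Y U g D σ t s be v v' gs)
    (hE : ∀ y ∈ D, ∀ y' ∈ D, ∀ p ∈ B, ∀ p' ∈ B, G.Adj y p → G.Adj p p' → G.Adj p' y' → y = y')
    (hn : ¬Fin2 G Y U g D B σ 2) {p z : V} (hp : p ∈ B) (e1 : G.Adj v p)
    (hz : z ∈ Y.iv U t (g + 1)) {S : Finset V}
    (hS : ∀ x ∈ S, x ∈ B ∧ (G.Adj v x ∨ G.Adj v' x) ∧ ¬G.Adj z x) :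
    dG G z B + S.card ≤ dH G p B + 1 := by
  obtain ⟨N, j1, j2⟩ := exists_nbhd (G := G) z B
  have d1 : Disjoint N S := Finset.disjoint_left.2 fun x h1 h2 => (hS x h2).2.2 ((j2 x).1 h1).2
  have d2 : ((N ∪ S).erase p).card ≤ dH G p B := le_dH fun x hx => by
    rw [mem_erase, mem_union] at hx
    rcases hx with ⟨i1, i2 | i2⟩
    · rw [j2] at i2
      exact ⟨i2.1, i1, fun j => hn (c.a1 h hp i2.1 hz e1 j i2.2.symm)⟩
    · obtain ⟨i3, i4, -⟩ := hS x i2
      refine ⟨i3, i1, fun j => hn (c.a2 h hE hp i3 e1 ?_ j)⟩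
      rcases i4 with i4 | i4
      · exact i4
      · exact hE v c.mem v' c.symm.mem p hp x i3 e1 j i4.symm ▸ i4
  have d3 := pred_card_le_card_erase (s := N ∪ S) (a := p)
  rw [card_union_of_disjoint d1] at d3
  omega

/-- an edge from `A1` to a port -/
theorem Cr.b4 (h : Mid G W Y U g D B α β α' β' σ 2 I J) (c : Cr G Y U g D σ t s be v v' gs)
    (hE : ∀ y ∈ D, ∀ y' ∈ D, ∀ p ∈ B, ∀ p' ∈ B, G.Adj y p → G.Adj p p' → G.Adj p' y' → y = y')
    {A2 : Finset V} (h2 : ∀ p ∈ A2, p ∈ B ∧ G.Adj v' p ∧ dG G p D ≤ 2) {p x : V} (hp : p ∈ B)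
    (e1 : G.Adj v p) (hx : x ∈ Y.iv U t (g + 1)) (e3 : G.Adj p x)
    (hA : (p ∉ A2 ∧ 2 ≤ A2.card ∧ ∀ q ∈ A2, dG G q D ≤ 1) ∨
      (3 ≤ A2.card ∧ (p ∈ A2 → ∀ q ∈ A2, dG G q D = 2 → G.Adj v q))) :
    Fin2 G Y U g D B σ 2 := by
  by_contra hn
  have k1 : ∀ q ∈ A2, q ≠ p → ∀ z ∈ Y.iv U t (g + 1), G.Adj q z → z = x := fun q hq n z hz j => by
    by_contra n'
    exact hn (c.b1 h hp (h2 q hq).1 hx hz n.symm (Ne.symm n') e1 (h2 q hq).2.1 e3 j)
  have k2 : ∀ q ∈ A2, q ≠ p → dG G q (Y.iv U t (g + 1)) ≤ 1 := fun q hq n =>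
    (dG_le (R := {x}) fun z hz j => mem_singleton.2 (k1 q hq n z hz j)).trans (by simp)
  have k3 : ∀ q ∈ A2, ∀ z ∈ Y.iv U t (g + 1), z ≠ x →
      dG G z B + (A2.erase p).card ≤ dH G q B + 1 := fun q hq z hz n =>
    c.symm.cnt h hE hn (h2 q hq).1 (h2 q hq).2.1 hz fun y hy => by
      rw [mem_erase] at hy
      exact ⟨(h2 y hy.2).1, Or.inl (h2 y hy.2).2.1, fun j => n (k1 y hy.2 hy.1 z hz j.symm)⟩
  have k4 := pred_card_le_card_erase (s := A2) (a := p)
  obtain ⟨q, hq⟩ : (A2.erase p).Nonempty := card_pos.1 (by omega)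
  rw [mem_erase] at hq
  have k5 := k2 q hq.2 hq.1
  have k6 := h2 q hq.2
  refine hn (c.b3 h hp k6.1 hq.1.symm e1 k6.2.1 hx e3 fun z hz n => ?_)
  have k7 := k3 q hq.2 z hz n
  rcases hA with ⟨i1, i2, i3⟩ | ⟨i1, i2⟩
  · have := i3 q hq.2
    rw [erase_eq_of_notMem i1] at k7
    omega
  · by_cases e : p ∈ A2 ∧ G.Adj z p
    · by_contra i4
      obtain ⟨y, hy, i5⟩ := exists_adj (G := G) (a := q) (S := Y.iv U t (g + 1)) (by omega)
      obtain rfl := k1 q hq.2 hq.1 y hy i5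
      exact hn (c.b1 h k6.1 hp hy hz hq.1 n.symm (i2 e.1 q hq.2 (by omega)) (h2 p e.1).2.1 i5
        e.2.symm)
    · have := c.symm.cnt h hE hn k6.1 k6.2.1 hz (S := A2) fun y hy =>
        ⟨(h2 y hy).1, Or.inl (h2 y hy).2.1, fun j => by
          by_cases e' : y = p
          · exact e ⟨e' ▸ hy, e' ▸ j⟩
          · exact n (k1 y hy e' z hz j.symm)⟩
      omega

theorem Cr.fin (h : Mid G W Y U g D B α β α' β' σ 2 I J) (c : Cr G Y U g D σ t s be v v' gs)
    (hE : ∀ y ∈ D, ∀ y' ∈ D, ∀ p ∈ B, ∀ p' ∈ B, G.Adj y p → G.Adj p p' → G.Adj p' y' → y = y')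
    (hM : ∀ p ∈ B, ∀ p' ∈ B, p ≠ p' → ∀ y1 ∈ D, ∀ y2 ∈ D, ∀ y3 ∈ D, ∀ y4 ∈ D, y1 ≠ y2 → y3 ≠ y4 →
      G.Adj p y1 → G.Adj p y2 → G.Adj p' y3 → G.Adj p' y4 → s(y1, y2) = s(y3, y4))
    (hd : ∀ u ∈ D, 3 ≤ dG G u B) : Fin2 G Y U g D B σ 2 := by
  by_contra hn
  obtain ⟨N, j1, j2⟩ := exists_nbhd (G := G) v B
  obtain ⟨N', j1', j2'⟩ := exists_nbhd (G := G) v' B
  have d1 := hd v c.mem
  have d2 := hd v' c.symm.mem
  have two : ∀ q, ∀ u ∈ D, G.Adj u q → 2 ≤ dG G q D → ∃ y ∈ D, G.Adj q y ∧ u ≠ y := fun q u _ _ j => by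
    obtain ⟨y, i1, i2, i3⟩ := exists_adj_notMem (G := G) (a := q) (S := D) (R := {u})
      (by rw [card_singleton]; omega)
    exact ⟨y, i1, i2, fun e => i3 (by simp [e])⟩
  have main : ∀ A1 A2 : Finset V, (∀ p ∈ A1, p ∈ B ∧ G.Adj v p ∧ dG G p D ≤ 2) →
      (∀ p ∈ A2, p ∈ B ∧ G.Adj v' p ∧ dG G p D ≤ 2) → 2 ≤ A1.card → 2 ≤ A2.card →
      3 ≤ (A1 ∪ A2).card → (∀ p ∈ A1, ∀ x ∈ Y.iv U t (g + 1), ¬G.Adj p x) →
      (∀ p ∈ A2, ∀ x ∈ Y.iv U t (g + 1), ¬G.Adj p x) → False := by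
    intro A1 A2 h1 h2 c1 c2 c3 n1 n2
    obtain ⟨p, hp⟩ : A1.Nonempty := card_pos.1 (by omega)
    obtain ⟨q, hq, n⟩ := exists_mem_ne (show 1 < A2.card by omega) p
    have hS : ∀ z ∈ Y.iv U t (g + 1), ∀ x ∈ A1 ∪ A2, x ∈ B ∧ (G.Adj v x ∨ G.Adj v' x) ∧
        ¬G.Adj z x := fun z hz x hx => (mem_union.1 hx).elim
      (fun i => ⟨(h1 x i).1, Or.inl (h1 x i).2.1, fun j => n1 x i z hz j.symm⟩)
      fun i => ⟨(h2 x i).1, Or.inr (h2 x i).2.1, fun j => n2 x i z hz j.symm⟩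
    refine hn (c.b2 h (h1 p hp).1 (h2 q hq).1 n.symm (h1 p hp).2.1 (h2 q hq).2.1
      (fun z hz => ?_) fun z hz => ?_)
    · have := c.cnt h hE hn (h1 p hp).1 (h1 p hp).2.1 hz (hS z hz)
      have := dG_eq_zero.2 (n1 p hp)
      have := (h1 p hp).2.2
      omega
    · have := c.symm.cnt h hE hn (h2 q hq).1 (h2 q hq).2.1 hz
        fun x hx => ⟨(hS z hz x hx).1, (hS z hz x hx).2.1.symm, (hS z hz x hx).2.2⟩
      have := dG_eq_zero.2 (n2 q hq)
      have := (h2 q hq).2.2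
      omega
  by_cases e : ∃ w ∈ B, 3 ≤ dG G w D
  · obtain ⟨w, hw, h3⟩ := e
    have one : ∀ q ∈ B, q ≠ w → dG G q D ≤ 1 := fun q hq n => by
      by_contra i
      obtain ⟨y1, i1, i2⟩ := exists_adj (G := G) (a := q) (S := D) (by omega)
      obtain ⟨y2, i3, i4, i5⟩ := two q y1 i1 i2.symm (by omega)
      obtain ⟨y3, i6, i7, i8⟩ := exists_adj_notMem (G := G) (a := w) (S := D) (R := {y1, y2})
        (by have := card_pair i5; omega)
      obtain ⟨y4, i9, i10, i11⟩ := two w y3 i6 i7.symm (by omega)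
      have := hM q hq w hw n y1 i1 y2 i3 y3 i6 y4 i9 i5 i11 i2 i4 i7 i10
      rw [Sym2.eq_iff] at this
      simp only [mem_insert, mem_singleton] at i8
      tauto
    have nv : v ≠ v' := by
      rintro rfl
      obtain ⟨l, a1, a2, a3, a4, -⟩ := c.cs.cut
      have : D ⊆ {v} := fun y hy => by
        rw [← a4] at hy
        match l, a1, a2, a3, hy with
        | [x], a1, _, _, hy => simp_all
        | x :: y :: l, a1, a2, a3, _ =>
          exfalso
          have := List.mem_of_getLast? (l := y :: l) (a := v) (by simpa using a2)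
          simp only [List.head?_cons, Option.some.injEq] at a1
          exact (List.nodup_cons.1 a3).1 (a1 ▸ this)
      have := card_le_card this
      have := dG_le_card (G := G) w D
      simp at *
      omega
    have h1 : ∀ p ∈ N.erase w, p ∈ B ∧ G.Adj v p ∧ dG G p D ≤ 1 := fun p hp => by
      rw [mem_erase, j2] at hp
      exact ⟨hp.2.1, hp.2.2, one p hp.2.1 hp.1⟩
    have h2 : ∀ p ∈ N'.erase w, p ∈ B ∧ G.Adj v' p ∧ dG G p D ≤ 1 := fun p hp => by
      rw [mem_erase, j2'] at hp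
      exact ⟨hp.2.1, hp.2.2, one p hp.2.1 hp.1⟩
    have dj : Disjoint (N.erase w) (N'.erase w) := Finset.disjoint_left.2 fun p a1 a2 => by
      have := le_dG (G := G) (a := p) (S := D) (R := {v, v'}) (by
        simp [c.mem, c.symm.mem, (h1 p a1).2.1.symm, (h2 p a2).2.1.symm])
      have := card_pair nv
      have := (h1 p a1).2.2
      omega
    have c1 := pred_card_le_card_erase (s := N) (a := w)
    have c2 := pred_card_le_card_erase (s := N') (a := w)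
    have h1' : ∀ p ∈ N.erase w, p ∈ B ∧ G.Adj v p ∧ dG G p D ≤ 2 := fun p hp =>
      ⟨(h1 p hp).1, (h1 p hp).2.1, (h1 p hp).2.2.trans (by omega)⟩
    have h2' : ∀ p ∈ N'.erase w, p ∈ B ∧ G.Adj v' p ∧ dG G p D ≤ 2 := fun p hp =>
      ⟨(h2 p hp).1, (h2 p hp).2.1, (h2 p hp).2.2.trans (by omega)⟩
    exact main _ _ h1' h2' (by omega) (by omega) (by rw [card_union_of_disjoint dj]; omega)
      (fun p hp x hx j => hn (c.b4 h hE h2' (h1 p hp).1 (h1 p hp).2.1 hx j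
        (Or.inl ⟨Finset.disjoint_left.1 dj hp, by omega, fun q hq => (h2 q hq).2.2⟩)))
      fun p hp x hx j => hn (c.symm.b4 h hE h1' (h2 p hp).1 (h2 p hp).2.1 hx j
        (Or.inl ⟨Finset.disjoint_left.1 dj.symm hp, by omega, fun q hq => (h1 q hq).2.2⟩))
  · push Not at e
    have h1 : ∀ p ∈ N, p ∈ B ∧ G.Adj v p ∧ dG G p D ≤ 2 := fun p hp => by
      rw [j2] at hp
      exact ⟨hp.1, hp.2, by have := e p hp.1; omega⟩
    have h2 : ∀ p ∈ N', p ∈ B ∧ G.Adj v' p ∧ dG G p D ≤ 2 := fun p hp => by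
      rw [j2'] at hp
      exact ⟨hp.1, hp.2, by have := e p hp.1; omega⟩
    have sw : ∀ u ∈ D, ∀ u' ∈ D, ∀ p ∈ B, ∀ q ∈ B, G.Adj u p → G.Adj u' p → G.Adj u' q →
        dG G q D = 2 → G.Adj u q := fun u hu u' hu' p hp q hq a1 a2 a3 a4 => by
      by_cases i1 : u = u'
      · exact i1 ▸ a3
      by_cases i2 : p = q
      · exact i2 ▸ a1
      obtain ⟨y, i3, i4, i5⟩ := two q u' hu' a3 (by omega)
      have := hM p hp q hq i2 u hu u' hu' u' hu' y i3 i1 i5 a1.symm a2.symm a3.symm i4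
      rw [Sym2.eq_iff] at this
      rcases this with ⟨i6, -⟩ | ⟨i6, -⟩
      · exact absurd i6 i1
      · exact i6 ▸ i4.symm
    have c3 := card_le_card (subset_union_left (s₁ := N) (s₂ := N'))
    exact main _ _ h1 h2 (by omega) (by omega) (by omega)
      (fun p hp x hx j => hn (c.b4 h hE h2 (h1 p hp).1 (h1 p hp).2.1 hx j
        (Or.inr ⟨by omega, fun i q hq i' => sw v c.mem v' c.symm.mem p (h1 p hp).1 q (h2 q hq).1
          (h1 p hp).2.1 (h2 p i).2.1 (h2 q hq).2.1 i'⟩)))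
      fun p hp x hx j => hn (c.symm.b4 h hE h1 (h2 p hp).1 (h2 p hp).2.1 hx j
        (Or.inr ⟨by omega, fun i q hq i' => sw v' c.symm.mem v c.mem p (h2 p hp).1 q (h1 q hq).1
          (h2 p hp).2.1 (h1 p i).2.1 (h1 q hq).2.1 i'⟩))

end Pool.Agent.Lib.MP_af3016_co
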