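import Pool.Agent.Lib.MP_af3016_co.C.M6m

/-! The middle class with slack one and surplus two. -/

set_option autoImplicit false
set_option linter.unusedSectionVars false

namespace Pool.Agent.Lib.MP_af3016_co

open Finset SimpleGraph

variable {V : Type} [DecidableEq V] {G : SimpleGraph V} {Y : Lay V} {U : Finset V}

variable {W D B : Finset V} {g α β α' β' : ℕ} {I J : Multiset ℕ} {e : V → ℕ}

theorem m6b_leg (h : M6s G Y U g 1 D β e) {z : V} (hz : z ∈ Y.iv U 0 (g + 1)) :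
    Rs G Y (U \ {z}) (g + 1) 0 :=
  Rs.remove_iv (r := 1) (w := 0) h.rs (singleton_subset_iff.2 hz) (card_singleton z)
    fun t h1 h2 => h.pos t h1 h2.le

theorem m6b_one (h : M6s G Y U g 1 D β e) {x y : V} (hx : x ∈ D) (hy : y ∈ D)
    (he : e x + e y ≤ 2) : Fb G Y U (g + 1) 1 {s(x, y)} :=
  Fb.one fun k1 k2 => link_one (w := 0) h.rs k1 k2 (h.df x hx).1 (h.df y hy).1 he

/-- the side with slack one, when some vertex of the reservoir has two neighbours in `D` -/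
theorem m6b_str (h : M6s G Y U g 1 D β e)
    (hm : ∃ z ∈ Y.iv U 0 (g + 1), ∃ a ∈ D, ∃ b ∈ D, a ≠ b ∧ G.Adj a z ∧ G.Adj b z) :
    ∃ M, M6x G D M 0 e 1 (Fb G Y U (g + 1) 1) ∧ ∃ a ∈ M, ∃ b ∈ M, a ≠ b := by
  classical
  have nb : ∀ z ∈ Y.iv U 0 (g + 1), (∃ a ∈ D, ∃ b ∈ D, a ≠ b ∧ G.Adj a z ∧ G.Adj b z) →
      (∀ x ∈ D, ∀ y ∈ D, x ≠ y → e x = 1 → ¬G.Adj x z → 3 ≤ e y ∨ (e y = 2 ∧ G.Adj y z)) →
      ∃ M, M6x G D M 0 e 1 (Fb G Y U (g + 1) 1) ∧ ∃ a ∈ M, ∃ b ∈ M, a ≠ b := by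
    rintro z hz ⟨a, ha, b, hb, k1, k2, k3⟩ k
    refine ⟨D.filter fun v => G.Adj v z, ⟨filter_subset _ _, fun x hx y hy hxy _ => ?_,
      fun x hx y hy _ => m6_fb1 hz (m6b_leg h hz) (mem_filter.1 hx).2 (mem_filter.1 hy).2⟩,
      a, mem_filter.2 ⟨ha, k2⟩, b, mem_filter.2 ⟨hb, k3⟩, k1⟩
    have i : ∀ v ∈ D, G.Adj v z → m6i (D.filter fun v => G.Adj v z) v = 1 := fun v hv l =>
      m6i_pos (mem_filter.2 ⟨hv, l⟩)
    have := (h.df x hx).2.1
    have := (h.df y hy).2.1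
    rw [Multiset.card_zero]
    by_cases l : e x = 1 ∧ ¬G.Adj x z
    · rcases k x hx y hy hxy l.1 l.2 with l' | l'
      · omega
      · have := i y hy l'.2
        omega
    by_cases l' : e y = 1 ∧ ¬G.Adj y z
    · rcases k y hy x hx hxy.symm l'.1 l'.2 with l' | l'
      · omega
      · have := i x hx l'.2
        omega
    have j : ∀ v ∈ D, ¬(e v = 1 ∧ ¬G.Adj v z) →
        2 ≤ e v + m6i (D.filter fun v => G.Adj v z) v := fun v hv l => by
      have := (h.df v hv).2.1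
      by_cases l1 : G.Adj v z
      · have := i v hv l1
        omega
      · have : e v ≠ 1 := fun l2 => l ⟨l2, l1⟩
        omega
    have := j x hx l
    have := j y hy l'
    omega
  by_cases c2 : ∃ a ∈ D, ∃ b ∈ D, a ≠ b ∧ e a = 1 ∧ e b = 1
  · obtain ⟨a, ha, b, hb, k1, k2, k3⟩ := c2
    refine ⟨D.filter fun v => e v = 1, ⟨filter_subset _ _, fun x hx y hy _ _ => ?_,
      fun x hx y hy _ => ?_⟩, a, mem_filter.2 ⟨ha, k2⟩, b, mem_filter.2 ⟨hb, k3⟩, k1⟩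
    · have j : ∀ v ∈ D, 2 ≤ e v + m6i (D.filter fun v => e v = 1) v := fun v hv => by
        have := (h.df v hv).2.1
        by_cases l1 : e v = 1
        · have := m6i_pos (mem_filter.2 ⟨hv, l1⟩ : v ∈ D.filter fun v => e v = 1)
          omega
        · omega
      have := j x hx
      have := j y hy
      rw [Multiset.card_zero]
      omega
    · rw [mem_filter] at hx hy
      exact m6b_one h hx.1 hy.1 (by omega)
  by_cases c1 : ∃ z ∈ Y.iv U 0 (g + 1), (∃ a ∈ D, ∃ b ∈ D, a ≠ b ∧ G.Adj a z ∧ G.Adj b z) ∧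
      ∀ x ∈ D, e x = 1 → G.Adj x z
  · obtain ⟨z, hz, k1, k2⟩ := c1
    exact nb z hz k1 fun x hx _ _ _ l l' => absurd (k2 x hx l) l'
  obtain ⟨z, hz, k⟩ := hm
  refine nb z hz k fun x hx y hy hxy l l' => ?_
  by_contra n
  have n1 : e y ≠ 1 := fun l1 => c2 ⟨x, hx, y, hy, hxy, l, l1⟩
  have := (h.df y hy).2.1
  have n2 : e y = 2 := by omega
  have n3 : ¬G.Adj y z := fun l1 => n (Or.inr ⟨n2, l1⟩)
  have d1 := h.deg0 hx
  have d2 := h.deg0 hy
  have t1 := (tools_erase (G := G) x z (Y.iv U 0 (g + 1))).2 l'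
  have t2 := (tools_erase (G := G) y z (Y.iv U 0 (g + 1))).2 n3
  have t3 := h.rs.top
  have t4 := h.rs.AB (Nat.zero_le (g + 1)) le_rfl
  rw [Y.A_zero, Y.B_zero] at t4
  obtain ⟨w, hw, w1, w2⟩ := exists_common (G := G) (a := x) (b := y)
    (S := (Y.iv U 0 (g + 1)).erase z) (by rw [card_erase_of_mem hz]; omega)
  refine c1 ⟨w, mem_of_mem_erase hw, ⟨x, hx, y, hy, hxy, w1, w2⟩, fun v hv l1 => ?_⟩
  by_cases l2 : v = x
  · exact l2 ▸ w1
  · exact absurd ⟨v, hv, x, hx, l2, l1, l⟩ c2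

theorem m6b_multi (h : Mid G W Y U g D B α β α' β' 1 2 I J)
    (hm : ∃ z ∈ Y.iv U 0 (g + 1), ∃ a ∈ D, ∃ b ∈ D, a ≠ b ∧ G.Adj a z ∧ G.Adj b z) :
    Fin2 G Y U g D B 1 2 := by
  obtain ⟨be, al, sW, sB, hs, n⟩ := h.m6
  have := h.cD
  have := h.five
  have := h.ba
  have := h.ab
  have n := n (by omega)
  obtain ⟨M, x1, a, ha, b, hb, hab⟩ := m6b_str sW hm
  have ha' := x1.sub ha
  have hb' := x1.sub hb
  by_cases c : ∃ u ∈ D, al u ≤ 2
  · obtain ⟨u, hu, he⟩ := c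
    obtain ⟨gs, gs', k1, k2, k3⟩ := m6_AX n x1 sB ha hb (m6_top1 ha' hb' hab) hu he (m6f_one _ _)
    exact h.two0 k1 k2 k3
  push Not at c
  have := c a ha'
  have := (sB.df a ha').2.2
  by_cases c3 : β = 3
  · obtain ⟨p, q, F, k1, k2, k3, -⟩ := sB.st (r := 0) (Subset.refl D) (by omega)
      (fun y hy => (sB.df y hy).2.2) (Or.inl (by omega)) a
    obtain ⟨x, y, -, k4⟩ := k3.open (by rw [Multiset.card_cons]; omega)
    have m := k4.mem (Multiset.mem_cons_self _ _)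
    have key : ∀ v ∈ D, be v = 1 ∧ dH G v D = 0 := fun v hv => by
      have := c v hv
      have := hs v hv
      have := (sW.df v hv).2.1
      omega
    exact h.two0 (gs := {s(x, y)}) (k4.congr fun x hx y hy l => dH_eq_zero.1 (key x hx).2 y hy l.ne')
      (m6b_one sW m.1 m.2 (by have := key x m.1; have := key y m.2; omega)) k2
  have ce := card_erase_of_mem ha'
  obtain ⟨p, q, F, k1, k2, k3, k4⟩ := sB.st (r := 0) (erase_subset a D) (by omega)
    (fun y hy => (sB.df y (mem_of_mem_erase hy)).2.2) (Or.inr (by omega)) b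
  have m := k3.mem (Multiset.mem_cons_self _ _)
  have k5 := m6_attach k3 (mem_erase.2 ⟨hab.symm, hb'⟩) (by omega) k4 (notMem_erase a D)
  rw [insert_erase ha'] at k5
  obtain ⟨gs, gs', g1, g2, g3⟩ := m6_XX n x1
    (m6x_pair c k1 (mem_of_mem_erase m.1) (mem_of_mem_erase m.2) k2) hb ha (mem_insert_self _ _)
    (mem_insert_of_mem (mem_singleton_self _)) (by rwa [zero_add])
  exact h.two0 g1 g2 g3

theorem m6b_sparse (h : Mid G W Y U g D B α β α' β' 1 2 I J)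
    (hm : ¬∃ z ∈ Y.iv U 0 (g + 1), ∃ a ∈ D, ∃ b ∈ D, a ≠ b ∧ G.Adj a z ∧ G.Adj b z) :
    Fin2 G Y U g D B 1 2 := by
  classical
  obtain ⟨be, al, sW, sB, hs, -⟩ := h.m6
  have := h.cD
  have := h.five
  have := h.ba
  have := h.ab
  have := h.up
  have := h.cB
  have := h.sJ.le
  have t3 := h.rs.top
  have t4 := h.rs.AB (Nat.zero_le (g + 1)) le_rfl
  have t5 := sW.Alo (Nat.zero_le g)
  rw [Y.A_zero] at t4 t5
  rw [Y.B_zero] at t4
  obtain ⟨T, hT⟩ : ∃ T : Finset V, ∀ z, z ∈ T ↔ z ∈ Y.iv U 0 (g + 1) ∧ ∃ v ∈ D, G.Adj v z :=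
    ⟨(Y.iv U 0 (g + 1)).filter fun z => ∃ v ∈ D, G.Adj v z, fun z => mem_filter⟩
  have sT : T ⊆ Y.iv U 0 (g + 1) := fun z hz => ((hT z).1 hz).1
  have cT := card_le_card sT
  have one : ∀ z ∈ T, dG G z D ≤ 1 := fun z hz => by
    obtain ⟨N, g1, g2⟩ := exists_nbhd (G := G) z D
    rw [← g1]
    refine card_le_one.2 fun a ha b hb => ?_
    by_contra l
    exact hm ⟨z, sT hz, a, ((g2 a).1 ha).1, b, ((g2 b).1 hb).1, l, ((g2 a).1 ha).2.symm,
      ((g2 b).1 hb).2.symm⟩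
  have deg : ∀ v ∈ D, Y.A (g + 1) + 2 ≤ dG G v T + be v := fun v hv => by
    have := sW.deg0 hv
    obtain ⟨N, g1, g2⟩ := exists_nbhd (G := G) v T
    have := dG_le (G := G) (a := v) (S := Y.iv U 0 (g + 1)) (R := N) fun z hz l =>
      (g2 z).2 ⟨(hT z).2 ⟨hz, v, hv, l⟩, l⟩
    omega
  obtain ⟨x0, hx0⟩ := Nat.exists_eq_add_of_le t5
  obtain ⟨c, hc⟩ := Nat.exists_eq_add_of_le (show 2 ≤ D.card by omega)
  have key : ∀ x ∈ D, ∀ y ∈ D, x ≠ y →
      al x + al y + dH G x D + dH G y D + c * (x0 + 2) + 2 * x0 + 2 ≤ T.card := by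
    intro x hx y hy hxy
    have hy' : y ∈ D.erase x := mem_erase.2 ⟨hxy.symm, hy⟩
    have s1 := sum_le_card_nsmul T _ 1 one
    rw [← sum_dG_comm, ← add_sum_erase D _ hx, ← add_sum_erase _ _ hy'] at s1
    have s2 := card_nsmul_le_sum ((D.erase x).erase y) (fun v => dG G v T) (x0 + 2) fun v hv => by
      have hv' := mem_of_mem_erase (mem_of_mem_erase hv)
      have := deg v hv'
      have := (sW.df v hv').2.2
      omega
    rw [card_erase_of_mem hy', card_erase_of_mem hx, show D.card - 1 - 1 = c by omega] at s2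
    simp only [smul_eq_mul] at s1 s2
    have := deg x hx
    have := deg y hy
    have := hs x hx
    have := hs y hy
    omega
  obtain ⟨v0, hv0, v1, hv1, h01⟩ := one_lt_card.1 (show 1 < D.card by omega)
  have k01 := key v0 hv0 v1 hv1 h01
  have := (sB.df v0 hv0).2.1
  have := (sB.df v1 hv1).2.1
  have hc1 : c = 0 ∧ β = 2 ∨ c = 1 ∧ β = 3 := by
    have := Nat.mul_le_mul_left c (Nat.le_add_left 2 x0)
    omega
  have cl : ∀ x ∈ D, ∀ y ∈ D, x ≠ y → G.Adj x y ∧ al y ≤ 2 := fun x hx y hy hxy => by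
    have k := key x hx y hy hxy
    have := (sB.df x hx).2.1
    have := (sB.df y hy).2
    refine ⟨?_, by rcases hc1 with ⟨rfl, l⟩ | ⟨rfl, l⟩ <;> omega⟩
    by_contra l
    have := dH_pos hy hxy.symm l
    have := dH_pos hx hxy fun l' => l l'.symm
    rcases hc1 with ⟨rfl, l⟩ | ⟨rfl, l⟩ <;> omega
  by_cases zp : ∃ z ∈ T, ∃ p ∈ B, G.Adj z p
  · obtain ⟨z, hz, p, hp, l⟩ := zp
    obtain ⟨hz, v, hv, l'⟩ := (hT z).1 hz
    obtain ⟨v', hv', l1⟩ := exists_mem_ne (s := D) (by omega) v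
    exact h.m6zp (singleton_subset_iff.2 hz) (card_singleton z) (m6b_leg sW hz)
      ((HP.clique _ D v v' rfl (fun a ha b hb l => (cl a ha b hb l).1) hv hv' l1.symm).cs.ext
        (fun l => Finset.disjoint_left.1 h.dD l hz) l')
      (fun x => by rw [mem_insert, mem_singleton, or_comm]) hp l (sB.df v' hv').1
      (cl v hv v' hv' l1.symm).2
  exfalso
  push Not at zp
  obtain ⟨z, hz⟩ := card_pos.1 (show 0 < T.card by omega)
  have u1 := h.suf 0 (Nat.zero_le _) z (Or.inl (sT hz))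
  have u2 := dG_add_dH_out (G := G) (a := z) fun l => Finset.disjoint_left.1 h.dB l (sT hz)
  have u3 := dG_add_dH_out (G := G) (a := z) fun l => Finset.disjoint_left.1 h.dD l (sT hz)
  have u4 := dG_eq_zero.2 (zp z hz)
  have u5 := one z hz
  obtain ⟨p, hp⟩ := card_pos.1 (show 0 < B.card by omega)
  have u6 := h.suf 0 (Nat.zero_le _) p (Or.inr (Or.inr hp))
  have u7 := dG_add_dH_out (G := G) (Finset.disjoint_left.1 h.dB hp)
  have u8 := dG_le (G := G) (a := p) (S := Y.iv U 0 (g + 1)) (R := Y.iv U 0 (g + 1) \ T)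
    fun y hy l => mem_sdiff.2 ⟨hy, fun l' => zp y l' p hp l.symm⟩
  have u9 := card_sdiff_add_card_eq_card sT
  rw [Y.B_zero] at u1 u6
  rcases hc1 with ⟨rfl, l⟩ | ⟨rfl, l⟩ <;> omega

theorem mid_21 (h : Mid G W Y U g D B α β α' β' 1 2 I J) : Fin2 G Y U g D B 1 2 := by
  by_cases hm : ∃ z ∈ Y.iv U 0 (g + 1), ∃ a ∈ D, ∃ b ∈ D, a ≠ b ∧ G.Adj a z ∧ G.Adj b z
  exacts [m6b_multi h hm, m6b_sparse h hm]

end Pool.Agent.Lib.MP_af3016_co
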