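import Pool.Agent.Lib.MP_af3016_co.C.M6m

/-! The middle class with slack two and surplus two. -/

set_option autoImplicit false
set_option linter.unusedSectionVars false

namespace Pool.Agent.Lib.MP_af3016_co

open Finset SimpleGraph

variable {V : Type} [DecidableEq V] {G : SimpleGraph V} {Y : Lay V} {U : Finset V}

variable {W D B : Finset V} {g α β α' β' : ℕ} {I J : Multiset ℕ} {e e' : V → ℕ}

/-- all defects are large on the first side only -/
theorem m6c_one {Y' : Lay V} {U' : Finset V} {g' : ℕ} (n : M6n G D β 4 e e')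
    (hs : M6s G Y U g 2 D β e) (hs' : M6s G Y' U' g' 2 D β e') (he : ∀ v ∈ D, 3 ≤ e v) {u : V}
    (hu : u ∈ D) (hu' : e' u ≤ 2) :
    (∃ gs gs', CS G D (gs + gs') ∧ Fb G Y U (g + 1) 2 gs ∧ Fb G Y' U' (g' + 1) 2 gs') ∨
    ∃ v v', D = {v, v'} ∧ v ≠ v' ∧ e' v = 1 ∧ β = 3 ∧
      ∃ z ∈ Y.iv U 0 (g + 1), ∃ z' ∈ Y.iv U 0 (g + 1), z ≠ z' ∧ Rs G Y (U \ {z, z'}) (g + 1) 0 ∧
        G.Adj v z ∧ G.Adj v' z ∧ G.Adj v z' ∧ G.Adj v' z' ∧
        Y.B (g + 1) ≤ dH G z (Y.iv U 0 (g + 1)) + 1 := by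
  have := n.card
  have := n.two
  have := he u hu
  have := (hs.df u hu).2.2
  by_cases c : 3 ≤ D.card
  · obtain ⟨a, b, F, k1, k2, k3, k4⟩ := hs.st (r := 0) (Subset.refl D) c
      (fun y hy => (hs.df y hy).2.2) (by omega) u
    have m := k3.mem (Multiset.mem_cons_self _ _)
    exact Or.inl (m6_AX (d := 2) n (m6x_pair he k1 m.1 m.2 k2) hs' (mem_insert_self _ _)
      (mem_insert_of_mem (mem_singleton_self _)) k3 hu hu' k4)
  obtain ⟨v, v', hne, rfl⟩ := card_eq_two.1 (show D.card = 2 by omega)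
  have hv : v ∈ ({v, v'} : Finset V) := by simp
  have hv' : v' ∈ ({v, v'} : Finset V) := by simp
  have := (hs.df v hv).2.2
  have := (hs.df v' hv').2.2
  rcases hs.st2 hv hv' hne (by omega) (by omega) with k | k
  · exact Or.inl (m6_AX (d := 2) (F := 0) n (m6x_pair he (by simp) hv hv' k) hs' hv hv'
      (m6_top1 hv hv' hne) hu hu' (m6f_one _ _))
  · have := n.sum v hv
    have := he v hv
    have := (hs'.df v hv).2.1
    exact Or.inr ⟨v, v', rfl, hne, by omega, by omega, k⟩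

/-- all defects are large on both sides -/
theorem m6c_both {Y' : Lay V} {U' : Finset V} {g' : ℕ} (n : M6n G D β 4 e e')
    (hs : M6s G Y U g 2 D β e) (hs' : M6s G Y' U' g' 2 D β e') (he : ∀ v ∈ D, 3 ≤ e v)
    (he' : ∀ v ∈ D, 3 ≤ e' v) :
    ∃ gs gs', CS G D (gs + gs') ∧ Fb G Y U (g + 1) 2 gs ∧ Fb G Y' U' (g' + 1) 2 gs' := by
  have := n.card
  obtain ⟨u, hu⟩ := card_pos.1 (show 0 < D.card by have := n.two; omega)
  have key : ∀ v ∈ D, e v + 2 ≤ β ∧ e' v + 2 ≤ β := fun v hv => by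
    have := n.sum v hv
    have := he v hv
    have := he' v hv
    omega
  have := key u hu
  have := he u hu
  obtain ⟨S, hS, cS⟩ := exists_subset_card_eq (show β - 2 ≤ D.card by omega)
  have cS' := card_sdiff_add_card_eq_card hS
  obtain ⟨a, b, F, k1, k2, k3, -⟩ := hs.st (r := 2) hS (by omega) (fun y hy => (key y (hS hy)).1)
    (by omega) u
  obtain ⟨a', b', F', l1, l2, l3, -⟩ := hs'.st (r := 2) (sdiff_subset (s := D) (t := S)) (by omega)
    (fun y hy => (key y (mem_sdiff.1 hy).1).2) (by omega) u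
  have m := k3.mem (Multiset.mem_cons_self _ _)
  have m' := l3.mem (Multiset.mem_cons_self _ _)
  obtain ⟨p, q, -, k4⟩ := k3.open (by rw [Multiset.card_cons]; omega)
  obtain ⟨p', q', -, l4⟩ := l3.open (by rw [Multiset.card_cons]; omega)
  have j := k4.mem (Multiset.mem_cons_self _ _)
  have j' := l4.mem (Multiset.mem_cons_self _ _)
  have k5 := ((k4.glue l4 disjoint_sdiff).edge fun l => (mem_sdiff.1 j'.1).2 (l ▸ j.1)).edge
    fun l => (mem_sdiff.1 j'.2).2 (l ▸ j.2)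
  rw [union_sdiff_of_subset hS] at k5
  exact m6_XX (d := 2) (d' := 2) n (m6x_pair he k1 (hS m.1) (hS m.2) k2)
    (m6x_pair he' l1 (mem_sdiff.1 m'.1).1 (mem_sdiff.1 m'.2).1 l2) (mem_insert_self _ _)
    (mem_insert_of_mem (mem_singleton_self _)) (mem_insert_self _ _)
    (mem_insert_of_mem (mem_singleton_self _))
    (m6_re k5 (by simp only [← Multiset.singleton_add]; abel))

theorem m6c_path {v v' z z' : V} (h0 : v ≠ v') (h1 : z ≠ z') (n1 : z ∉ ({v, v'} : Finset V))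
    (h2 : G.Adj v' z) (h3 : G.Adj v z') (h4 : G.Adj v' z') :
    CS G (insert z (insert v' (insert z' {v}))) (s(z, v) ::ₘ 0) := by
  rw [mem_insert, mem_singleton, not_or] at n1
  refine (((cs_single G v).ext (by simpa using h3.ne') h3).ext ?_ h4.symm).ext ?_ h2
  · simp [h0.symm, h4.ne]
  · simp [h1, n1.1, n1.2]

theorem m6c_big (h : Mid G W Y U g D B α β α' β' 2 2 I J) (h2 : 2 ≤ D.card) :
    Fin2 G Y U g D B 2 2 := by
  obtain ⟨be, al, sW, sB, hs, n⟩ := h.m6
  have n : M6n G D β 4 be al := n h2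
  have := h.ba
  have := h.up
  have := h.lo
  have := h.cB
  by_cases c : ∃ u ∈ D, be u ≤ 2 <;> by_cases c' : ∃ u ∈ D, al u ≤ 2
  · obtain ⟨u, hu, he⟩ := c
    obtain ⟨u', hu', he'⟩ := c'
    obtain ⟨gs, gs', k1, k2, k3⟩ := m6_AA n sW sB hu he hu' he'
    exact h.two0 k1 k2 k3
  · obtain ⟨u, hu, he⟩ := c
    push Not at c'
    rcases m6c_one n.symm sB sW c' hu he with ⟨gs, gs', k1, k2, k3⟩ |
      ⟨v, v', rfl, k1, k2, rfl, z, hz, z', hz', k3, k4, k5, k6, k7, k8, k9⟩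
    · exact h.two0 (by rwa [add_comm]) k3 k2
    rw [zero_add, flat_iv] at hz hz' k9
    have k0 : (flat V α' β').B 1 = β' := by simp [Lay.B, flat]
    have hv : v ∈ ({v, v'} : Finset V) := by simp
    have dz : Df G Y U (g + 1) z 4 := fun t ht => by
      have := h.suf t ht.le z (Or.inr (Or.inr hz))
      omega
    refine h.two (Z0 := ∅) (Z0' := {z, z'}) (gs := {s(z, v)}) (gs' := 0) (s := 2) (u := 0)
      (empty_subset _) (insert_subset hz (singleton_subset_iff.2 hz')) ?_ rfl (card_pair k3) ?_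
      (Fb.zero k4)
    · exact (m6c_path k1 k3 (fun l => Finset.disjoint_left.1 h.dDB l hz) k6 k7 k8).set fun x => by
        simp only [mem_insert, mem_union, mem_singleton, notMem_empty]
        tauto
    · rw [sdiff_empty]
      exact Fb.one fun l1 l2 => link_edge (r := 2) (w := 0) h.rs h.ord le_rfl l1 l2 dz
        (k2 ▸ (sW.df v hv).1) le_rfl (by omega) (by omega)
  · obtain ⟨u, hu, he⟩ := c'
    push Not at c
    rcases m6c_one n sW sB c hu he with ⟨gs, gs', k1, k2, k3⟩ |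
      ⟨v, v', rfl, k1, k2, rfl, z, hz, z', hz', k3, k4, k5, k6, k7, k8, k9⟩
    · exact h.two0 k1 k2 k3
    have hv : v ∈ ({v, v'} : Finset V) := by simp
    have u1 := h.suf 0 (Nat.zero_le _) z (Or.inl hz)
    have u2 := dG_add_dH_out (G := G) (a := z) fun l => Finset.disjoint_left.1 h.dB l hz
    obtain ⟨p, hp, l⟩ := exists_adj (G := G) (a := z) (S := B) (by omega)
    exact h.m6zp (insert_subset hz (singleton_subset_iff.2 hz')) (card_pair k3) k4
      (m6c_path k1 k3 (fun l => Finset.disjoint_left.1 h.dD l hz) k6 k7 k8)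
      (fun x => by
        simp only [mem_insert, mem_singleton]
        tauto) hp l (sB.df v hv).1 (by omega)
  · push Not at c c'
    obtain ⟨gs, gs', k1, k2, k3⟩ := m6c_both n sW sB c c'
    exact h.two0 k1 k2 k3

theorem m6c_small (h : Mid G W Y U g D B α β α' β' 2 2 I J) (h1 : D.card ≤ 1) :
    Fin2 G Y U g D B 2 2 := by
  obtain ⟨be, al, sW, sB, hs, -⟩ := h.m6
  have := h.ba
  have := h.ab
  have := h.five
  have := h.cD
  have := h.up
  have := h.lo
  have := h.cB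
  have := h.sJ.le
  obtain ⟨v, rfl⟩ := card_eq_one.1 (show D.card = 1 by omega)
  rw [card_singleton] at *
  have hv := mem_singleton_self v
  have dD := Finset.disjoint_left.1 h.dD
  have dB := Finset.disjoint_left.1 h.dB
  have dDB := Finset.disjoint_left.1 h.dDB
  obtain ⟨i, hi, hc, hl⟩ := sW.top
  have sub := Lay.iv_mono (Y := Y) (Subset.refl U) (Nat.zero_le i) (le_refl (g + 1))
  have e1 := (sW.df v hv).2
  have e2 := (sB.df v hv).2
  by_cases oA : ∃ z ∈ Y.iv U i (g + 1), G.Adj v z ∧ ∃ z' ∈ Y.iv U 0 (g + 1), G.Adj z z' ∧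
      ∃ p ∈ B, G.Adj z' p
  · obtain ⟨z, hz, k1, z', hz', k2, p, hp, k3⟩ := oA
    refine h.m6zp (insert_subset (sub hz) (singleton_subset_iff.2 hz')) (card_pair k2.ne)
      (hl z hz z' hz' k2.ne) (((cs_single G v).ext (fun l => dD l (sub hz)) k1).ext ?_ k2)
      (fun x => by
        simp only [mem_insert, mem_singleton]
        tauto) hp k3 (sB.df v hv).1 (by omega)
    exact fun l => (mem_insert.1 l).elim k2.ne' fun l => dD l hz'
  push Not at oA
  obtain ⟨Z, z1, z2⟩ := exists_nbhd (G := G) v (Y.iv U i (g + 1))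
  have t1 := h.rs.top
  have t2 := h.rs.AB (Nat.zero_le (g + 1)) le_rfl
  have t3 := h.rs.AB (show i ≤ g + 1 by omega) le_rfl
  have t4 := Y.card_iv U (Nat.zero_le i) (show i ≤ g + 1 by omega)
  have t5 := sW.degi hv hi hc
  have t6 := sW.Alo hi
  rw [Y.A_zero, Y.B_zero] at t2
  have two : ∀ z ∈ Z, 2 ≤ dG G z B := fun z hz => by
    obtain ⟨g1, g2⟩ := (z2 z).1 hz
    have u2 := dG_add_dH_out (G := G) (a := z) fun l => dB l (sub g1)
    by_contra n
    obtain ⟨N, n1, n2⟩ := exists_non (G := G) z B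
    obtain ⟨p, hp⟩ := card_pos.1 (show 0 < N.card by omega)
    obtain ⟨g3, -, g4⟩ := (n2 p).1 hp
    have u1 := h.suf 0 (Nat.zero_le _) z (Or.inl (sub g1))
    have u3 := h.suf 0 (Nat.zero_le _) p (Or.inr (Or.inr g3))
    have u4 := dG_add_dH_in (G := G) (sub g1)
    have u5 := dG_add_dH_out (G := G) (dB g3)
    have u6 := (tools_erase (G := G) p z (Y.iv U 0 (g + 1))).2 fun l => g4 l.symm
    have u7 := dG_erase_self (G := G) z (Y.iv U 0 (g + 1))
    rw [Y.B_zero] at u1 u3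
    obtain ⟨y, hy, y1, y2⟩ := exists_common (G := G) (a := z) (b := p)
      (S := (Y.iv U 0 (g + 1)).erase z) (by rw [card_erase_of_mem (sub g1)]; omega)
    exact oA z g1 g2 y (mem_of_mem_erase hy) y1 p g3 y2.symm
  have ind : ∀ z ∈ Z, ∀ z' ∈ Z, ¬G.Adj z z' := fun z hz z' hz' l => by
    obtain ⟨p, hp, l'⟩ := exists_adj (G := G) (a := z') (S := B) (by have := two z' hz'; omega)
    exact oA z ((z2 z).1 hz).1 ((z2 z).1 hz).2 z' (sub ((z2 z').1 hz').1) l p hp l'
  obtain ⟨z0, hz0, hm⟩ := exists_max_image Z Y.f (card_pos.1 (by omega))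
  obtain ⟨g1, g2⟩ := (z2 z0).1 hz0
  have g3 := Lay.mem_iv.1 g1
  obtain ⟨N, n1, n2⟩ := exists_non (G := G) z0 (Y.iv U i (Y.f z0 + 1))
  have d := h.rs.int z0 g3.1 g3.2.2 i (by omega)
  have sN : Z.erase z0 ⊆ N := fun z hz => by
    rw [mem_erase] at hz
    have k := Lay.mem_iv.1 ((z2 z).1 hz.2).1
    have := hm z hz.2
    exact (n2 z).2 ⟨Lay.mem_iv.2 ⟨k.1, k.2.1, by omega⟩, hz.1, ind z0 hz0 z hz.2⟩
  have cN := card_le_card sN
  have cZ := card_erase_of_mem hz0
  have fg : Y.f z0 = g := by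
    by_contra n
    have := Y.B_mono (show Y.f z0 + 1 ≤ g by omega)
    have := Y.B_succ g
    omega
  rw [fg] at n1 n2 d
  have eN : Z.erase z0 = N := eq_of_subset_of_card_le sN (by omega)
  have see : ∀ y ∈ Y.iv U i (g + 1), y ∉ Z → ∀ p ∈ B, ¬G.Adj y p := fun y hy l => by
    refine oA z0 g1 g2 y (sub hy) ?_
    by_contra l'
    exact l (mem_of_mem_erase (eN ▸ (n2 y).2 ⟨hy, fun l1 => l (l1 ▸ hz0), l'⟩ : y ∈ Z.erase z0))
  have u0 := dG_add_dH_in (G := G) g1
  obtain ⟨y, hy, y1⟩ := exists_adj (G := G) (a := z0) (S := Y.iv U i (g + 1)) (by omega)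
  have y2 : y ∉ Z := fun l => ind z0 hz0 y l y1
  have u1 := h.suf i (by omega) y (Or.inl hy)
  have u2 := dG_add_dH_out (G := G) (a := y) fun l => dB l (sub hy)
  have u3 := dG_eq_zero.2 (see y hy y2)
  have u4 := dH_pos (G := G) (a := y) hv (fun l => dD hv (l ▸ sub hy))
    fun l => y2 ((z2 y).2 ⟨hy, l.symm⟩)
  have nb : ∀ p ∈ B, ∀ x, ∃ z ∈ Z, G.Adj p z ∧ z ≠ x := fun p hp x => by
    have u5 := h.suf i (by omega) p (Or.inr (Or.inr hp))
    have u6 := dG_add_dH_out (G := G) (a := p) fun l => dB hp (sub l)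
    obtain ⟨z, hz, l1, l2⟩ := exists_adj_notMem (G := G) (a := p) (S := Y.iv U i (g + 1))
      (R := {x}) (by rw [card_singleton]; omega)
    refine ⟨z, ?_, l1, fun l => l2 (mem_singleton.2 l)⟩
    by_contra l
    exact see z hz l p hp l1.symm
  have u7 := flat_df.1 (sB.df v hv).1
  have u8 := dG_add_dH_out (G := G) (dDB hv)
  obtain ⟨p', hp', a1⟩ := exists_adj (G := G) (a := v) (S := B) (by omega)
  obtain ⟨x2, hx2, a2, -⟩ := nb p' hp' v
  obtain ⟨p, hp, a3, a4⟩ := exists_adj_notMem (G := G) (a := x2) (S := B) (R := {p'})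
    (by rw [card_singleton]; exact two x2 hx2)
  rw [mem_singleton] at a4
  obtain ⟨x1, hx1, a5, a6⟩ := nb p hp x2
  obtain ⟨b1, b2⟩ := (z2 x1).1 hx1
  obtain ⟨b3, b4⟩ := (z2 x2).1 hx2
  have sB' : ({p, p'} : Finset V) ⊆ B := insert_subset hp (singleton_subset_iff.2 hp')
  have c1 : p ≠ v := fun l => dDB hv (l ▸ hp)
  have c2 : p' ≠ x1 := fun l => dB hp' (l ▸ sub b1)
  refine h.two (Z0 := {x1, x2}) (Z0' := {p, p'}) (gs := 0) (gs' := 0) (s := 0) (u := 0)
    (insert_subset (sub b1) (singleton_subset_iff.2 (sub b3))) sB' ?_ (card_pair a6) (card_pair a4)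
    (Fb.zero (hl x1 b1 x2 (sub b3) a6)) (Fb.zero (h.rsB' sB' (card_pair a4)))
  refine ((((((cs_single G v).ext (by simpa using b2.ne') b2).ext ?_ a5.symm).ext ?_ a3.symm).ext
    ?_ a2.symm).edge a1.symm).set fun x => ?_
  · simp [a5.ne, c1]
  · simp [a3.ne, a6.symm, b4.ne']
  · simp [a2.ne, c2, a1.ne', Ne.symm a4]
  · simp only [mem_insert, mem_union, mem_singleton]
    tauto

theorem mid_22 (h : Mid G W Y U g D B α β α' β' 2 2 I J) : Fin2 G Y U g D B 2 2 := by
  by_cases h2 : 2 ≤ D.card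
  exacts [m6c_big h h2, m6c_small h (by omega)]

end Pool.Agent.Lib.MP_af3016_co
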