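import Pool.Agent.Lib.MP_af3016_co.C.Walk

/-! The top layers down to the first one that exceeds the budget. -/

set_option autoImplicit false
set_option linter.unusedSectionVars false

namespace Pool.Agent.Lib.MP_af3016_co

open Finset SimpleGraph

variable {V : Type} [DecidableEq V] {G : SimpleGraph V} {Y : Lay V} {U : Finset V}

/-- the layers `j, ..., m - 1` exceed their budget, no shorter top part does -/
structure Port (Y : Lay V) (U : Finset V) (m j : ℕ) : Prop where
  lt : j < m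
  big : Y.B m + 1 ≤ (Y.iv U j m).card + Y.B j
  small : ∀ t, j < t → t < m → (Y.iv U t m).card + Y.B t ≤ Y.B m

theorem exists_port {m s : ℕ} (h : Rs G Y U m s) (hs : 1 ≤ s) : ∃ j, Port Y U m j := by
  have hm : 0 < m := Nat.pos_of_ne_zero fun e => by
    subst e
    have := h.zero
    omega
  obtain ⟨j, hj, hmax⟩ := exists_max_image
    ((range m).filter fun t => Y.B m + 1 ≤ (Y.iv U t m).card + Y.B t) id
    ⟨0, mem_filter.2 ⟨mem_range.2 hm, by have := h.top; omega⟩⟩
  rw [mem_filter, mem_range] at hj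
  refine ⟨j, hj.1, hj.2, fun t h1 h2 => ?_⟩
  by_contra k
  have : t ≤ j := hmax t (mem_filter.2 ⟨mem_range.2 h2, by omega⟩)
  omega

/-- the slacks above `j` are large -/
theorem Port.slack {m j s : ℕ} (h : Port Y U m j) {U' : Finset V} (hU : U' ⊆ U)
    (hR : Rs G Y U' m s) : ∀ t, j < t → t < m → Y.A t + Y.B t + s + 1 ≤ (Y.iv U' 0 t).card := by
  intro t h1 h2
  have a1 := h.small t h1 h2
  have a2 := card_le_card (Lay.iv_mono (Y := Y) hU (le_refl t) (le_refl m))
  have a3 := Y.card_iv U' (Nat.zero_le t) h2.le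
  have a4 := hR.top
  have a5 := hR.ba t h2
  have a6 := hR.one t h2
  have a7 := Y.A_succ t
  have a8 := Y.A_mono (show t + 1 ≤ m from h2)
  omega

theorem Port.legal {m j r w : ℕ} (h : Port Y U m j) {U' Z : Finset V} (hU : U' ⊆ U)
    (hR : Rs G Y U' m (r + w)) (hZ : Z ⊆ Y.iv U' j m) (hr : Z.card = r) :
    Rs G Y (U' \ Z) m w := by
  refine hR.remove_iv hZ hr fun t h1 h2 => ?_
  have := h.slack hU hR t h1 h2
  omega

/-- a link below the ports -/
theorem Port.lift {m j r w w' : ℕ} (h : Port Y U m j) {U' : Finset V} (hU : U' ⊆ U)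
    (hR : Rs G Y U' m (r + w)) {u u' : V} (hl : Lnk G Y U' j r w' u u') :
    Lnk G Y U' m r w u u' := by
  refine Lnk.lift hR h.lt.le hl fun t h1 h2 => ?_
  have := h.slack hU hR t h1 h2
  omega

theorem port_low {m j s : ℕ} (h : Port Y U m j) (hR : Rs G Y U m s) {z : V}
    (hz : z ∈ Y.iv U j m) : ∀ t ≤ Y.f z, dH G z (Y.iv U t m) + 1 + Y.B t ≤ Y.B m := by
  intro t ht
  rw [Lay.mem_iv] at hz
  have a1 := hR.int z hz.1 hz.2.2 t (by omega)
  by_cases e : Y.f z + 1 = m
  · rw [e] at a1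
    omega
  · have a2 := h.small (Y.f z + 1) (by omega) (by omega)
    have a3 := Y.dH_iv (G := G) U z (show t ≤ Y.f z + 1 by omega) (show Y.f z + 1 ≤ m by omega)
    have a4 := dH_le_card (G := G) z (Y.iv U (Y.f z + 1) m)
    omega

theorem Port.hap {m j s : ℕ} (h : Port Y U m j) (hR : Rs G Y U m s) {z : V}
    (hz : z ∈ Y.iv U j m) : ∀ t ≤ j, dH G z (Y.iv U t m) + 1 + Y.B t ≤ Y.B m := by
  intro t ht
  exact port_low h hR hz t (ht.trans (Lay.mem_iv.1 hz).2.1)

theorem Port.df {m j s : ℕ} (h : Port Y U m j) (hR : Rs G Y U m s) {z : V}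
    (hz : z ∈ Y.iv U j m) : Df G Y U m z 1 := by
  intro t ht
  by_cases e : t ≤ Y.f z
  · have := port_low h hR hz t e
    omega
  · have := (Lay.mem_iv.1 hz).2.1
    have := h.small t (by omega) ht
    have := dH_le_card (G := G) z (Y.iv U t m)
    omega

theorem Port.nbr {m j s : ℕ} (h : Port Y U m j) (hR : Rs G Y U m s) {z : V}
    (hz : z ∈ Y.iv U j m) : ∃ z' ∈ Y.iv U j m, G.Adj z z' := by
  have a1 := h.hap hR hz j (le_refl j)
  have a2 := h.big
  have a3 := dG_add_dH_in (G := G) hz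
  exact exists_adj (by omega)

/-- two removed ports are linked by any number of vertices -/
theorem Port.walk {m j s r w : ℕ} (h : Port Y U m j) (hR : Rs G Y U m s) (ho : Y.Ord m)
    {U' : Finset V} (hU : U' ⊆ U) (hR' : Rs G Y U' m (r + w)) (hr : 1 ≤ r) {z z' : V}
    (hz : z ∈ Y.iv U j m) (hz' : z' ∈ Y.iv U j m) (hn : z ∉ U') (hn' : z' ∉ U') :
    Lnk G Y U' m r w z z' := by
  have _ := ho
  exact link_walk hR' hr (fun g => hn (Y.iv_sub U' 0 m g)) (fun g => hn' (Y.iv_sub U' 0 m g))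
    ((h.df hR hz).sub hU) ((h.df hR hz').sub hU) (by omega)

end Pool.Agent.Lib.MP_af3016_co
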