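import Pool.Agent.Lib.MP_af3016_co.C.Two
import Pool.Agent.Lib.MP_af3016_co.C.Port

/-! Small gadgets and the lower link. -/

set_option autoImplicit false
set_option linter.unusedSectionVars false

namespace Pool.Agent.Lib.MP_af3016_co

open Finset SimpleGraph

variable {V : Type} [DecidableEq V] {G : SimpleGraph V} {Y : Lay V} {U : Finset V}

variable {W D B : Finset V} {g α β α' β' σ μ : ℕ} {I J : Multiset ℕ}

theorem cs_single (G : SimpleGraph V) (x : V) : CS G {x} {s(x, x)} := (HP.single x).cs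

/-- a new vertex is put into a gap -/
theorem CS.ins {X : Finset V} {gs : Multiset (Sym2 V)} {p q z : V} (h : CS G X (s(p, q) ::ₘ gs))
    (hz : z ∉ X) : CS G (insert z X) (s(p, z) ::ₘ s(q, z) ::ₘ gs) := by
  have := h.glue (gs' := 0) (cs_single G z) (disjoint_singleton_right.2 hz)
  rwa [add_zero, union_comm, ← insert_eq] at this

/-- a neighbour of the first end is put into a gap -/
theorem CS.ext {X : Finset V} {gs : Multiset (Sym2 V)} {p q z : V} (h : CS G X (s(p, q) ::ₘ gs))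
    (hz : z ∉ X) (hp : G.Adj p z) : CS G (insert z X) (s(z, q) ::ₘ gs) := by
  have := (h.ins hz).edge hp
  rwa [Sym2.eq_swap] at this

theorem CS.flip {X : Finset V} {gs : Multiset (Sym2 V)} {p q : V} (h : CS G X (s(p, q) ::ₘ gs)) :
    CS G X (s(q, p) ::ₘ gs) := by rwa [Sym2.eq_swap]

theorem CS.swap {X : Finset V} {gs : Multiset (Sym2 V)} {e e' : Sym2 V}
    (h : CS G X (e ::ₘ e' ::ₘ gs)) : CS G X (e' ::ₘ e ::ₘ gs) := by rwa [Multiset.cons_swap]

theorem CS.rot {X : Finset V} {gs : Multiset (Sym2 V)} {e e' e'' : Sym2 V}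
    (h : CS G X (e ::ₘ e' ::ₘ e'' ::ₘ gs)) : CS G X (e'' ::ₘ e ::ₘ e' ::ₘ gs) := by
  rwa [Multiset.cons_swap e'' e, Multiset.cons_swap e'' e']

theorem CS.set {X X' : Finset V} {gs : Multiset (Sym2 V)} (h : CS G X gs)
    (e : ∀ v, v ∈ X ↔ v ∈ X') : CS G X' gs := (Finset.ext e : X = X') ▸ h

/-- a gap that is an edge needs no vertex -/
theorem Fb.adj {m : ℕ} {p q : V} (h : Rs G Y U m 0) (hpq : G.Adj p q) :
    Fb G Y U m 0 {s(p, q)} := fun X rest hX _ =>
  ⟨∅, empty_subset _, card_empty, by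
    rw [union_empty]
    exact CS.edge (by rwa [Multiset.singleton_add] at hX) hpq, by simpa using h⟩

theorem Fb.flip {m s : ℕ} {p q : V} {gs : Multiset (Sym2 V)} (h : Fb G Y U m s (s(p, q) ::ₘ gs)) :
    Fb G Y U m s (s(q, p) ::ₘ gs) := by rwa [Sym2.eq_swap]

/-- two removed ports, adjacent if no vertex is left -/
theorem Port.fb {m j s r : ℕ} (h : Port Y U m j) (hR : Rs G Y U m s) (ho : Y.Ord m)
    {U' : Finset V} (hU : U' ⊆ U) (hR' : Rs G Y U' m r) {z z' : V} (hz : z ∈ Y.iv U j m)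
    (hz' : z' ∈ Y.iv U j m) (hr : r = 0 → G.Adj z z') : Fb G Y U' m r {s(z, z')} := by
  by_cases e : r = 0
  · subst e
    exact Fb.adj hR' (hr rfl)
  have key : ∀ x ∈ Y.iv U j m, x ∉ Y.iv U' 0 m → x ∉ U' := fun x hx k k' =>
    k (Lay.mem_iv.2 ⟨k', Nat.zero_le _, (Lay.mem_iv.1 hx).2.2⟩)
  exact Fb.one fun k k' => h.walk (r := r) (w := 0) hR ho hU hR' (by omega) hz hz'
    (key z hz k) (key z' hz' k')

theorem Mid.port_three (h : Mid G W Y U g D B α β α' β' σ μ I J) {j : ℕ}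
    (P : Port Y U (g + 1) j) : β + 1 ≤ (Y.iv U j (g + 1)).card ∧ 2 ≤ β := by
  have := P.big
  have := Y.B_mono (show j ≤ g from Nat.lt_succ_iff.1 P.lt)
  have := Y.B_succ g
  have := h.lo
  have := h.five
  have := h.ab
  omega

/-- the defects below level `t` of two vertices above, in terms of their non-degrees -/
theorem Mid.pt2 (h : Mid G W Y U g D B α β α' β' σ μ I J) {t : ℕ} (ht : t ≤ g + 1) {x y : V}
    (hx : x ∈ Y.iv U t (g + 1) ∨ x ∈ D ∨ x ∈ B) (hy : y ∈ Y.iv U t (g + 1) ∨ y ∈ D ∨ y ∈ B) :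
    ∃ e e' s', Rs G Y U t s' ∧ Df G Y U t x e ∧ Df G Y U t y e' ∧ 1 ≤ e ∧ 1 ≤ e' ∧
      e + e' + (dH G x (Y.iv U t (g + 1)) + dH G x D + dH G x B) +
        (dH G y (Y.iv U t (g + 1)) + dH G y D + dH G y B) ≤
        s' + (Y.iv U t (g + 1)).card + D.card + B.card := by
  obtain ⟨e, h1, h2, h3⟩ := h.dfT ht hx
  obtain ⟨e', k1, k2, k3⟩ := h.dfT ht hy
  obtain ⟨s', l1, -, -, l4⟩ := h.lev ht
  refine ⟨e, e', s', l1, h2, k2, h1, k1, ?_⟩
  have := h.rs.AB ht le_rfl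
  have := h.cD
  have := h.cB
  have := h.ba
  have := h.sJ.le
  omega

/-- a common neighbour below the ports, after `k` earlier removals below the ports -/
theorem Mid.low_link (h : Mid G W Y U g D B α β α' β' σ μ I J) {j k w : ℕ}
    (P : Port Y U (g + 1) j) {Z0 U' : Finset V} (hZ : Z0 ⊆ Y.iv U j (g + 1)) (hU : U' ⊆ U \ Z0)
    (hR : Rs G Y U' (g + 1) (1 + w)) (hk : Z0.card + k + 1 + w = σ) {x y : V}
    (hx : x ∈ Y.iv U j (g + 1) ∨ x ∈ D ∨ x ∈ B) (hy : y ∈ Y.iv U j (g + 1) ∨ y ∈ D ∨ y ∈ B)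
    (hc : (Y.iv U j (g + 1)).card + D.card + B.card + k ≤
      1 + (dH G x (Y.iv U j (g + 1)) + dH G x D + dH G x B) +
        (dH G y (Y.iv U j (g + 1)) + dH G y D + dH G y B)) : Lnk G Y U' (g + 1) 1 w x y := by
  have hU' : U' ⊆ U := hU.trans sdiff_subset
  obtain ⟨e, e', s', h1, h2, h3, h4, h5, h6⟩ := h.pt2 P.lt.le hx hy
  obtain ⟨s'', k1⟩ := hR.low P.lt.le
  have c1 := Y.card_iv U (Nat.zero_le j) P.lt.le
  have c2 := Y.card_iv U' (Nat.zero_le j) P.lt.le
  have c3 := card_le_card (Lay.iv_mono (Y := Y) hU (le_refl j) (le_refl (g + 1)))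
  rw [Y.iv_sdiff] at c3
  have c4 := card_sdiff_add_card_eq_card hZ
  have c5 := h.rs.top
  have c6 := hR.top
  have c7 := h1.top
  have c8 := k1.top
  obtain ⟨w', rfl⟩ : ∃ w', s'' = 1 + w' := ⟨s'' - 1, by omega⟩
  have key : ∀ v, v ∈ Y.iv U j (g + 1) ∨ v ∈ D ∨ v ∈ B → v ∉ Y.iv U' 0 j := fun v hv k => by
    have k' := Lay.iv_mono (Y := Y) hU' (le_refl 0) P.lt.le k
    rcases hv with hv | hv | hv
    · rw [Lay.mem_iv] at hv k
      omega
    · exact Finset.disjoint_left.1 h.dD hv k'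
    · exact Finset.disjoint_left.1 h.dB hv k'
  exact P.lift hU' hR (link_one k1 (key x hx) (key y hy) (h2.sub hU') (h3.sub hU') (by omega))

/-- the lower link between a port and a vertex of the block -/
theorem Mid.low_zp (h : Mid G W Y U g D B α β α' β' σ μ I J) {j k w : ℕ}
    (P : Port Y U (g + 1) j) {Z0 U' : Finset V} (hZ : Z0 ⊆ Y.iv U j (g + 1)) (hU : U' ⊆ U \ Z0)
    (hR : Rs G Y U' (g + 1) (1 + w)) (hk : Z0.card + k + 1 + w = σ) {z p : V}
    (hz : z ∈ Y.iv U j (g + 1)) (hp : p ∈ B)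
    (hc : D.card + dG G z B + dG G p (Y.iv U j (g + 1)) + k ≤
      1 + dH G z D + dH G p D + dH G z (Y.iv U j (g + 1)) + dH G p B) :
    Lnk G Y U' (g + 1) 1 w z p := by
  have hz' : z ∈ Y.iv U 0 (g + 1) := Lay.iv_mono (Subset.refl U) (Nat.zero_le j) le_rfl hz
  have := dG_add_dH_out (G := G) (show z ∉ B from fun k => Finset.disjoint_left.1 h.dB k hz')
  have := dG_add_dH_out (G := G) (show p ∉ Y.iv U j (g + 1) from fun k =>
    Finset.disjoint_left.1 h.dB hp (Lay.iv_mono (Subset.refl U) (Nat.zero_le j) le_rfl k))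
  exact h.low_link P hZ hU hR hk (Or.inl hz) (Or.inr (Or.inr hp)) (by omega)

/-- two vertices of the block are linked inside the block -/
theorem Mid.fbB (h : Mid G W Y U g D B α β α' β' σ μ I J) {Z : Finset V} {u : ℕ} (hZ : Z ⊆ B)
    (hc : Z.card + u = μ) {p p' : V} (hp : p ∈ B) (hp' : p' ∈ B) (hu : u = 0 → G.Adj p p') :
    Fb G (flat V α' β') (B \ Z) 1 u {s(p, p')} := by
  by_cases e : u = 0
  · subst e
    exact Fb.adj (h.rsB' hZ hc) (hu rfl)
  exact Fb.all (h.rsB' hZ hc) (flat_ord α' β') (by omega) (h.dfB hp sdiff_subset)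
    (h.dfB hp' sdiff_subset) (Nat.zero_le _) (Nat.zero_le _) (fun _ => by omega)
    fun _ => by omega

/-- a vertex of small defect is linked to a vertex of the block inside the block -/
theorem Mid.fbD (h : Mid G W Y U g D B α β α' β' σ μ I J) {Z : Finset V} {u e : ℕ} (hZ : Z ⊆ B)
    (hc : Z.card + u = μ) {v p : V} (hv : Df G (flat V α' β') B 1 v e) (he : e ≤ α') (hp : p ∈ B)
    (h0 : 1 ≤ u) (h1 : u = 1 → e ≤ 2) : Fb G (flat V α' β') (B \ Z) 1 u {s(v, p)} :=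
  Fb.all (h.rsB' hZ hc) (flat_ord α' β') h0 (hv.sdiff Z) (h.dfB hp sdiff_subset) he
    (Nat.zero_le _) (fun k => by have := h1 k; omega) fun _ => by omega

end Pool.Agent.Lib.MP_af3016_co
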