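import Pool.Agent.Lib.MP_af3016_co.C.M6s
import Pool.Agent.Lib.MP_af3016_co.C.Two2

/-! The choice of the positions that are filled from the two sides. -/

set_option autoImplicit false
set_option linter.unusedSectionVars false

namespace Pool.Agent.Lib.MP_af3016_co

open Finset SimpleGraph

variable {V : Type} [DecidableEq V] {G : SimpleGraph V} {Y : Lay V} {U : Finset V}

/-- a side on which every pair of `M` can be used and every non-edge is expensive -/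
structure M6x (G : SimpleGraph V) (D M : Finset V) (F : Multiset (Sym2 V)) (e : V → ℕ) (d : ℕ)
    (P : Multiset (Sym2 V) → Prop) : Prop where
  sub : M ⊆ D
  bad : ∀ x ∈ D, ∀ y ∈ D, x ≠ y → ¬G.Adj x y → d + 3 + F.card ≤ e x + e y + m6i M x + m6i M y
  fill : ∀ a ∈ M, ∀ b ∈ M, a ≠ b → P (s(a, b) ::ₘ F)

/-- the numbers of the class -/
structure M6n (G : SimpleGraph V) (D : Finset V) (β d : ℕ) (e e' : V → ℕ) : Prop where
  card : 2 * β ≤ D.card + d
  two : 2 ≤ D.card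
  sum : ∀ v ∈ D, e v + e' v + dH G v D ≤ β + 1
  out : ∃ x y, x ∉ D ∧ y ∉ D ∧ y ≠ x

variable {D M M' : Finset V} {g β d d' : ℕ} {e e' : V → ℕ} {F F' : Multiset (Sym2 V)}
  {P P' : Multiset (Sym2 V) → Prop}

theorem M6n.symm (h : M6n G D β d e e') : M6n G D β d e' e :=
  ⟨h.card, h.two, fun v hv => by have := h.sum v hv; omega, h.out⟩

theorem M6n.bd (h : M6n G D β d e e') {f c : ℕ} {x y : V} (k : M6b G D M M' f c x y) :
    e x + e y + m6i M x + m6i M y + (e' x + e' y + m6i M' x + m6i M' y) + c ≤ d + 6 + f := by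
  obtain ⟨hx, hy, -, -, k⟩ := k
  have := h.sum x hx
  have := h.sum y hy
  have := dG_add_dH_in (G := G) hx
  have := dG_add_dH_in (G := G) hy
  have := h.card
  omega

theorem m6x_pair (he : ∀ v ∈ D, 3 ≤ e v) (hF : F.card ≤ 1) {a b : V} (ha : a ∈ D) (hb : b ∈ D)
    (hP : P (s(a, b) ::ₘ F)) : M6x G D {a, b} F e 2 P := by
  refine ⟨insert_subset ha (singleton_subset_iff.2 hb), fun x hx y hy _ _ => ?_,
    fun x hx y hy hxy => ?_⟩
  · have := he x hx
    have := he y hy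
    omega
  · rw [mem_insert, mem_singleton] at hx hy
    rcases hx with rfl | rfl <;> rcases hy with rfl | rfl
    exacts [absurd rfl hxy, hP, Sym2.eq_swap ▸ hP, absurd rfl hxy]

/-- the vertices of small defect and one more vertex -/
def m6M (D : Finset V) (e : V → ℕ) (q : V) : Finset V := insert q (D.filter fun v => e v ≤ 2)

theorem m6M_sub {q : V} (hq : q ∈ D) : m6M D e q ⊆ D := insert_subset hq (filter_subset _ _)

theorem m6M_mem {q u : V} (hu : u ∈ D) (he : e u ≤ 2) : u ∈ m6M D e q :=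
  mem_insert_of_mem (mem_filter.2 ⟨hu, he⟩)

theorem M6s.cheap (h : M6s G Y U g 2 D β e) (q : V) {x y : V} (hx : x ∈ D) (hy : y ∈ D) :
    4 ≤ e x + e y + m6i (m6M D e q) x + m6i (m6M D e q) y ∧
    (e x + e y + m6i (m6M D e q) x + m6i (m6M D e q) y ≤ 4 →
      x ∈ m6M D e q ∧ y ∈ m6M D e q ∧ e x + e y ≤ 2) := by
  have key : ∀ v ∈ D, (v ∈ m6M D e q ∧ m6i (m6M D e q) v = 1 ∧ 1 ≤ e v) ∨ 3 ≤ e v := fun v hv => by
    by_cases k : e v ≤ 2
    · exact Or.inl ⟨m6M_mem hv k, m6i_pos (m6M_mem hv k), (h.df v hv).2.1⟩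
    · exact Or.inr (by omega)
  rcases key x hx with k | k <;> rcases key y hy with k' | k'
  · exact ⟨by omega, fun _ => ⟨k.1, k'.1, by omega⟩⟩
  all_goals exact ⟨by omega, fun _ => by omega⟩

theorem M6s.fillM (h : M6s G Y U g 2 D β e) {q : V} (hq : q ∈ D) {x y : V} (hx : x ∈ m6M D e q)
    (hy : y ∈ m6M D e q) (hxy : x ≠ y) : Fb G Y U (g + 1) 2 {s(x, y)} := by
  refine h.pair (m6M_sub hq hx) (m6M_sub hq hy) ?_
  rcases mem_insert.1 hx with k | k
  · rcases mem_insert.1 hy with k' | k'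
    exacts [absurd (k.trans k'.symm) hxy, Or.inr (mem_filter.1 k').2]
  · exact Or.inl (mem_filter.1 k).2

theorem m6_gap {gs : Multiset (Sym2 V)} (h : gs ≠ 0) : ∃ p q gs', gs = s(p, q) ::ₘ gs' := by
  obtain ⟨x, hx⟩ := Multiset.exists_mem_of_ne_zero h
  obtain ⟨gs', rfl⟩ := Multiset.exists_cons_of_mem hx
  induction x using Sym2.ind with
  | h p q => exact ⟨p, q, gs', rfl⟩

theorem m6_XX (n : M6n G D β (d + d') e e') (x1 : M6x G D M F e d P) (x2 : M6x G D M' F' e' d' P')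
    {a b a' b' : V} (ha : a ∈ M) (hb : b ∈ M) (ha' : a' ∈ M') (hb' : b' ∈ M')
    (hc : CS ⊤ D (s(a, b) ::ₘ s(a', b') ::ₘ (F + F'))) :
    ∃ gs gs', CS G D (gs + gs') ∧ P gs ∧ P' gs' := by
  obtain ⟨gs0, k, -⟩ := hc.virt (G := G)
  obtain ⟨x, y, o1, o2, o3⟩ := n.out
  obtain ⟨a1, b1, a2, b2, gs, c, c1, c2, c3, -⟩ :=
    m6_core (F := F + F') (gs0 := gs0) ⟨ha, hb, ha', hb',
      m6_re k (by simp only [← Multiset.singleton_add]; abel)⟩ o1 o2 o3 x2.sub n.two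
  by_cases z : gs = 0
  · subst z
    exact ⟨_, _, m6_re c.2.2.2.2 (by simp only [← Multiset.singleton_add]; abel),
      x1.fill a1 c.1 b1 c.2.1 c1, x2.fill a2 c.2.2.1 b2 c.2.2.2.1 c2⟩
  obtain ⟨p, q, gs', rfl⟩ := m6_gap z
  have b := c3 p q (Multiset.mem_cons_self _ _)
  have b1 := n.bd b
  have := x1.bad p b.1 q b.2.1 b.2.2.1 b.2.2.2.1
  have := x2.bad p b.1 q b.2.1 b.2.2.1 b.2.2.2.1
  rw [Multiset.card_add, Multiset.card_cons] at b1
  omega

theorem m6_AX (n : M6n G D β (d + 2) e' e) (x1 : M6x G D M F e' d P) (hs : M6s G Y U g 2 D β e)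
    {a b u : V} (ha : a ∈ M) (hb : b ∈ M) (hc : CS ⊤ D (s(a, b) ::ₘ F)) (hu : u ∈ D)
    (he : e u ≤ 2) (hf : M6f u (s(a, b) ::ₘ F)) :
    ∃ gs gs', CS G D (gs + gs') ∧ P gs ∧ Fb G Y U (g + 1) 2 gs' := by
  obtain ⟨r, -, k0⟩ := m6_open hc hu n.two hf
  have hr := (k0.mem (Multiset.mem_cons_self _ _)).2
  obtain ⟨gs0, k, -⟩ := k0.virt (G := G)
  obtain ⟨x, y, o1, o2, o3⟩ := n.out
  obtain ⟨a1, b1, a2, b2, gs, c, c1, c2, c3, -, c4⟩ :=
    m6_core (M2 := m6M D e r) (F := F) (gs0 := gs0) ⟨ha, hb, m6M_mem hu he, mem_insert_self _ _,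
      m6_re k (by simp only [← Multiset.singleton_add]; abel)⟩ o1 o2 o3 (m6M_sub hr) n.two
  have f1 := x1.fill a1 c.1 b1 c.2.1 c1
  by_cases z : gs = 0
  · subst z
    exact ⟨_, _, m6_re c.2.2.2.2 (by simp only [← Multiset.singleton_add]; abel), f1,
      hs.fillM hr c.2.2.1 c.2.2.2.1 c2⟩
  obtain ⟨p, q, gs', rfl⟩ := m6_gap z
  have b := c3 p q (Multiset.mem_cons_self _ _)
  have b1 := n.bd b
  have := x1.bad p b.1 q b.2.1 b.2.2.1 b.2.2.2.1
  have t := hs.cheap r b.1 b.2.1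
  rw [Multiset.card_cons] at b1
  obtain rfl : gs' = 0 := Multiset.card_eq_zero.1 (by omega)
  obtain ⟨t1, t2, t3⟩ := t.2 (by omega)
  have b' := c4 p q (Multiset.mem_cons_self _ _) t1 t2
  have b3 := n.bd b'
  have := x1.bad a2 b'.1 b2 b'.2.1 b'.2.2.1 b'.2.2.2.1
  have := m6i_pos c.2.2.1
  have := m6i_pos c.2.2.2.1
  exact ⟨_, _, m6_re c.2.2.2.2 (by simp only [← Multiset.singleton_add]; abel), f1,
    hs.ones b'.1 b'.2.1 b.1 b.2.1 (by omega) t3⟩

theorem m6_AA {Y' : Lay V} {U' : Finset V} {g' : ℕ} (n : M6n G D β 4 e e')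
    (hs : M6s G Y U g 2 D β e) (hs' : M6s G Y' U' g' 2 D β e') {u u' : V} (hu : u ∈ D)
    (he : e u ≤ 2) (hu' : u' ∈ D) (he' : e' u' ≤ 2) :
    ∃ gs gs', CS G D (gs + gs') ∧ Fb G Y U (g + 1) 2 gs ∧ Fb G Y' U' (g' + 1) 2 gs' := by
  obtain ⟨r, hr, hru⟩ := exists_mem_ne (s := D) n.two u
  obtain ⟨r', -, k0⟩ := m6_open (m6_top1 hu hr hru.symm) hu' n.two (m6f_one _ _)
  have hr' := (k0.mem (Multiset.mem_cons_self _ _)).2
  obtain ⟨gs0, k, -⟩ := k0.virt (G := G)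
  obtain ⟨x, y, o1, o2, o3⟩ := n.out
  obtain ⟨a1, b1, a2, b2, gs, c, c1, c2, c3, c4, c5⟩ :=
    m6_core (M1 := m6M D e r) (M2 := m6M D e' r') (F := 0) (gs0 := gs0)
      ⟨m6M_mem hu he, mem_insert_self _ _, m6M_mem hu' he', mem_insert_self _ _,
        m6_re k (by simp only [← Multiset.singleton_add]; abel)⟩ o1 o2 o3 (m6M_sub hr') n.two
  have f1 := hs.fillM hr c.1 c.2.1 c1
  have f2 := hs'.fillM hr' c.2.2.1 c.2.2.2.1 c2
  by_cases z : gs = 0
  · subst z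
    exact ⟨_, _, m6_re c.2.2.2.2 (by simp only [← Multiset.singleton_add]; abel), f1, f2⟩
  obtain ⟨p, q, gs', rfl⟩ := m6_gap z
  have b := c3 p q (Multiset.mem_cons_self _ _)
  have b0 := n.bd b
  have t := hs.cheap r b.1 b.2.1
  have t' := hs'.cheap r' b.1 b.2.1
  have i1 := m6i_pos c.1
  have i2 := m6i_pos c.2.1
  have i3 := m6i_pos c.2.2.1
  have i4 := m6i_pos c.2.2.2.1
  rw [Multiset.card_cons, Multiset.card_zero] at b0
  have s1 : p ∈ m6M D e r → q ∈ m6M D e r → e a1 + e b1 + gs'.card ≤ 3 := fun t1 t2 => by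
    have b' := c4 p q (Multiset.mem_cons_self _ _) t1 t2
    have b1 := n.bd b'
    have := (hs'.cheap r' b'.1 b'.2.1).1
    rw [Multiset.card_cons, Multiset.card_zero] at b1
    omega
  have s2 : p ∈ m6M D e' r' → q ∈ m6M D e' r' → e' a2 + e' b2 + gs'.card ≤ 3 := fun t1 t2 => by
    have b' := c5 p q (Multiset.mem_cons_self _ _) t1 t2
    have b1 := n.bd b'
    have := (hs.cheap r b'.1 b'.2.1).1
    rw [Multiset.card_cons, Multiset.card_zero] at b1
    omega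
  have m1 := m6M_sub hr c.1
  have m2 := m6M_sub hr c.2.1
  have m3 := m6M_sub hr' c.2.2.1
  have m4 := m6M_sub hr' c.2.2.2.1
  by_cases z' : gs' = 0
  · subst z'
    by_cases l : e p + e q + m6i (m6M D e r) p + m6i (m6M D e r) q ≤ 4
    · obtain ⟨t1, t2, t3⟩ := t.2 l
      exact ⟨_, _, m6_re c.2.2.2.2 (by simp only [← Multiset.singleton_add]; abel),
        hs.ones m1 m2 b.1 b.2.1 (by have := s1 t1 t2; omega) t3, f2⟩
    · obtain ⟨t1, t2, t3⟩ := t'.2 (by omega)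
      exact ⟨_, _, m6_re c.2.2.2.2 (by simp only [← Multiset.singleton_add]; abel), f1,
        hs'.ones m3 m4 b.1 b.2.1 (by have := s2 t1 t2; omega) t3⟩
  obtain ⟨p', q', gs'', rfl⟩ := m6_gap z'
  rw [Multiset.card_cons] at b0 s1 s2
  obtain rfl : gs'' = 0 := Multiset.card_eq_zero.1 (by omega)
  obtain ⟨t1, t2, t3⟩ := t.2 (by omega)
  obtain ⟨t4, t5, -⟩ := t'.2 (by omega)
  have b' := c3 p' q' (Multiset.mem_cons_of_mem (Multiset.mem_cons_self _ _))
  have b1 := n.bd b'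
  have := (hs.cheap r b'.1 b'.2.1).1
  rw [Multiset.card_cons, Multiset.card_cons] at b1
  obtain ⟨-, -, t6⟩ := (hs'.cheap r' b'.1 b'.2.1).2 (by simp only [Multiset.card_zero] at b1; omega)
  exact ⟨_, _, m6_re c.2.2.2.2 (by simp only [← Multiset.singleton_add]; abel),
    hs.ones m1 m2 b.1 b.2.1 (by have := s1 t1 t2; omega) t3,
    hs'.ones m3 m4 b'.1 b'.2.1 (by have := s2 t4 t5; omega) t6⟩

variable {W B : Finset V} {α α' β' σ μ : ℕ} {I J : Multiset ℕ}

/-- the two sides of the class -/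
theorem Mid.m6 (h : Mid G W Y U g D B α β α' β' σ μ I J) : ∃ be al,
    M6s G Y U g σ D β be ∧ M6s G (flat V α' β') B 0 μ D β al ∧
      (∀ v ∈ D, be v + al v + dH G v D ≤ β + 1) ∧ (2 ≤ D.card → M6n G D β (σ + μ) be al) := by
  obtain ⟨al, be, k⟩ := h.defects
  have := h.ba
  have := h.lo
  have := h.up
  have := h.cD
  have := h.cB
  have := h.mu
  have := h.sg
  have := h.rs.top
  have hs : ∀ v ∈ D, be v + al v + dH G v D ≤ β + 1 := fun v hv => by have := k v hv; omega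
  refine ⟨be, al, ⟨h.rs, h.ord, h.pos, h.dD, by omega,
      fun v hv => ⟨(k v hv).2.1, by have := k v hv; omega⟩⟩,
    ⟨h.rsB, flat_ord α' β', fun t h1 h2 => ?_, by rw [zero_add, flat_iv]; exact h.dDB,
      show β ≤ α' by omega, fun v hv => ⟨(k v hv).1, by have := k v hv; omega⟩⟩, hs,
    fun h2 => ⟨by omega, h2, hs, ?_⟩⟩
  · obtain rfl : t = 1 := by omega
    have := h.rsB.top
    omega
  · obtain ⟨x, hx⟩ := card_pos.1 (show 0 < (Y.iv U 0 (g + 1)).card by omega)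
    obtain ⟨y, hy⟩ := card_pos.1 (show 0 < B.card by omega)
    exact ⟨x, y, fun l => Finset.disjoint_left.1 h.dD l hx, fun l => Finset.disjoint_left.1 h.dDB l hy,
      fun l => Finset.disjoint_left.1 h.dB hy (l ▸ hx)⟩

/-- a path through the class and the whole slack is closed by two vertices of the block -/
theorem Mid.m6zp (h : Mid G W Y U g D B α β α' β' σ 2 I J) {X Z : Finset V}
    (hZ : Z ⊆ Y.iv U 0 (g + 1)) (hc : Z.card = σ) (hR : Rs G Y (U \ Z) (g + 1) 0) {z v p : V}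
    (k : CS G X (s(z, v) ::ₘ 0)) (hX : ∀ x, x ∈ X ↔ x ∈ D ∨ x ∈ Z) (hp : p ∈ B) (hz : G.Adj z p)
    {c : ℕ} (hv : Df G (flat V α' β') B 1 v c) (he : c ≤ 2) : Fin2 G Y U g D B σ 2 := by
  have n : p ∉ X := fun l => ((hX p).1 l).elim (fun l => Finset.disjoint_left.1 h.dDB l hp)
    fun l => Finset.disjoint_left.1 h.dB hp (hZ l)
  have := h.five
  have := h.ba
  have := h.up
  refine h.two (Z0 := Z) (Z0' := {p}) (gs := 0) (gs' := {s(v, p)}) (s := 0) (u := 1) hZ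
    (singleton_subset_iff.2 hp) ?_ hc rfl (Fb.zero hR)
    (h.fbD (singleton_subset_iff.2 hp) rfl hv (by omega) hp le_rfl fun _ => he)
  rw [zero_add]
  exact (k.ext n hz).flip.set fun x => by
    simp only [mem_insert, mem_union, mem_singleton, hX]
    tauto

end Pool.Agent.Lib.MP_af3016_co
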