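import Pool.Agent.Lib.MP_af3016_co.C.MB1

/-! Lower quota one: a reservoir vertex has two neighbours in the class. -/

set_option autoImplicit false
set_option linter.unusedSectionVars false

namespace Pool.Agent.Lib.MP_af3016_co

open Finset SimpleGraph

variable {V : Type} [DecidableEq V] {G : SimpleGraph V} {Y : Lay V} {U : Finset V}

variable {W D B : Finset V} {g α β α' β' σ μ : ℕ} {I J : Multiset ℕ}

/-- the set of vertices joined to the virtual vertex -/
theorem ma1_set (h : Mid G W Y U g D B α β α' β' 1 μ I J) {al be : V → ℕ}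
    (hd : Dd G Y U g D B β α' β' al be) {z : V} (hz : z ∈ Y.iv U 0 (g + 1)) (h3 : 2 ≤ dG G z D) :
    ∃ (M : Finset V) (v0 y1 y2 : V), y1 ∈ M ∧ y2 ∈ M ∧ y1 ∈ D ∧ y2 ∈ D ∧ y1 ≠ y2 ∧
      (∀ a ∈ M, ∀ b ∈ M, a ≠ b → Fb G Y U (g + 1) 1 {s(a, b)}) ∧
      ∀ v ∈ D, v ∉ M → v ≠ v0 → 2 ≤ be v := by
  by_cases e : 1 < (D.filter fun v => be v = 1).card
  · obtain ⟨a, ha, b, hb, hab⟩ := one_lt_card.1 e
    refine ⟨_, z, a, b, ha, hb, (mem_filter.1 ha).1, (mem_filter.1 hb).1, hab,
      fun x hx y hy _ => Fb.one fun k1 k2 => ?_, fun v hv k _ => ?_⟩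
    · rw [mem_filter] at hx hy
      exact link_one (w := 0) h.rs k1 k2 (hd x hx.1).2.1 (hd y hy.1).2.1 (by omega)
    · have := hd v hv
      have : be v ≠ 1 := fun k' => k (mem_filter.2 ⟨hv, k'⟩)
      omega
  · obtain ⟨a, ha, b, hb, hab, k1, k2⟩ := ab_two h3
    obtain ⟨v0, h0⟩ : ∃ v0, ∀ v ∈ D, be v = 1 → v = v0 := by
      by_cases k : ∃ v ∈ D, be v = 1
      · obtain ⟨v, m1, m2⟩ := k
        exact ⟨v, fun u n1 n2 => card_le_one.1 (not_lt.1 e) u (mem_filter.2 ⟨n1, n2⟩) v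
          (mem_filter.2 ⟨m1, m2⟩)⟩
      · exact ⟨z, fun u n1 n2 => absurd ⟨u, n1, n2⟩ k⟩
    have adj : ∀ x ∈ ({a, b} : Finset V), G.Adj x z := fun x hx => by
      rcases mem_insert.1 hx with rfl | hx
      · exact k1.symm
      · exact mem_singleton.1 hx ▸ k2.symm
    refine ⟨{a, b}, v0, a, b, by simp, by simp, ha, hb, hab, fun x hx y hy _ => Fb.one fun _ _ =>
      ⟨z, z, {z}, HP.single z, adj x hx, adj y hy, singleton_subset_iff.2 hz, card_singleton z,
        h.leg1 hz⟩, fun v hv _ k => ?_⟩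
    have := hd v hv
    have : be v ≠ 1 := fun k' => k (h0 v hv k')
    omega

theorem ma1 (h : Mid G W Y U g D B α β α' β' 1 μ I J) (h2 : 3 ≤ μ) {z : V}
    (hz : z ∈ Y.iv U 0 (g + 1)) (h3 : 2 ≤ dG G z D) : Fin2 G Y U g D B 1 μ := by
  obtain ⟨al, be, hd⟩ := h.defects
  have := h.cD
  have := h.ba
  obtain ⟨M, v0, y1, y2, m1, m2, n1, n2, n3, hM, hb⟩ := ma1_set h hd hz h3
  have hN : 1 < D.card := one_lt_card.2 ⟨y1, n1, y2, n2, n3⟩
  obtain ⟨g0, c0⟩ := exists_cs G ⟨y1, n1⟩
  obtain ⟨g1, c1, -⟩ := c0.opt n1 n2 n3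
  obtain ⟨x1, l1, x2, l2, gs, c, k⟩ := ab_mark c1 m1 m2
  have hx := ab_ne c hN (Multiset.mem_cons_self _ _)
  have f1 := hM x1 l1 x2 l2 hx
  have key : ∀ p q, s(p, q) ∈ gs → p ∈ D ∧ q ∈ D ∧ al p + al q + gs.card ≤ μ + 3 ∧
      (p ≠ v0 → q ≠ v0 → al p + al q + gs.card ≤ μ + 2) := by
    intro p q e
    have m := c.mem (Multiset.mem_cons_of_mem e)
    have hpq := ab_ne c hN (Multiset.mem_cons_of_mem e)
    have k1 := k p q e
    have := hd p m.1
    have := hd q m.2
    have := dG_add_dH_in (G := G) m.1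
    have := dG_add_dH_in (G := G) m.2
    have b1 := hb p m.1
    have b2 := hb q m.2
    have : p ≠ v0 ∨ q ≠ v0 := by
      by_contra k2
      push Not at k2
      exact hpq (k2.1.trans k2.2.symm)
    refine ⟨m.1, m.2, ?_, fun k2 k3 => ?_⟩ <;> by_cases kp : p ∈ M <;> by_cases kq : q ∈ M <;>
      simp only [kp, kq, if_true, if_false, not_true, not_false_iff, true_imp_iff,
        false_imp_iff] at k1 b1 b2
    all_goals first
      | omega
      | (rcases this with k4 | k4 <;> first | (have := b1 k4; omega) | (have := b2 k4; omega) | omega)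
      | (have := b1 k2; have := b2 k3; omega)
      | (have := b1 k2; omega)
      | (have := b2 k3; omega)
  by_cases e : gs = 0
  · subst e
    obtain ⟨g2, c2, f2⟩ := mb1_up h h2 hd (F := {s(x1, x2)}) (gs := 0) c
      (by rwa [Multiset.card_singleton]) (by simp)
    exact h.two0 c2 f1 f2
  obtain ⟨p, q, e1, e2⟩ : ∃ p q, s(p, q) ∈ gs ∧ (3 ≤ gs.card → p ≠ v0 ∧ q ≠ v0) := by
    by_cases k3 : 3 ≤ gs.card
    · by_contra k4
      push Not at k4
      have := ((c.congr (G' := ⊤) fun _ _ _ _ k => k.ne).edge hx).two_at (v := v0) fun x => by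
        induction x using Sym2.ind with
        | _ a b =>
          intro k5
          by_cases k6 : a = v0
          · simp [k6]
          · simp [(k4 a b k5).2 k6]
      omega
    · obtain ⟨x, k4⟩ := Multiset.exists_mem_of_ne_zero e
      induction x using Sym2.ind with
      | _ a b => exact ⟨a, b, k4, fun k5 => absurd k5 k3⟩
  have k1 := key p q e1
  obtain ⟨g2, rfl⟩ := Multiset.exists_cons_of_mem e1
  rw [Multiset.card_cons] at key e2 k1
  have dp := hd p k1.1
  have dq := hd q k1.2.1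
  have k5 : 2 ≤ g2.card → al p + al q + (g2.card + 1) ≤ μ + 2 := fun k6 =>
    k1.2.2.2 (e2 (by omega)).1 (e2 (by omega)).2
  have f2 := h.fbY (K := ∅) (gs := g2) (r := μ - g2.card) hd (empty_subset _)
    (by rw [card_empty]; omega) (by omega) (fun x y k6 => by
      have := key x y (Multiset.mem_cons_of_mem k6)
      exact ⟨this.1, by omega⟩) dp.1 dq.1 (by omega) (by omega) (by omega) (by omega)
  rw [sdiff_empty, show g2.card + (μ - g2.card) = μ by omega] at f2
  exact h.two0 (by rwa [add_comm g2, Multiset.singleton_add, Multiset.singleton_add]) f1 f2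

end Pool.Agent.Lib.MP_af3016_co
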