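import Pool.Agent.Lib.MP_af3016_co.C.MidL

/-! Lower quota one: a reservoir vertex sees the class and the block. -/

set_option autoImplicit false
set_option linter.unusedSectionVars false

namespace Pool.Agent.Lib.MP_af3016_co

open Finset SimpleGraph

variable {V : Type} [DecidableEq V] {G : SimpleGraph V} {Y : Lay V} {U : Finset V}

variable {W D B : Finset V} {g α β α' β' σ μ : ℕ} {I J : Multiset ℕ}

/-- degrees into the reservoir -/
theorem ma2a_deg (h : Mid G W Y U g D B α β α' β' σ μ I J) {al be : V → ℕ}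
    (hd : Dd G Y U g D B β α' β' al be) {v : V} (hv : v ∈ D) :
    Y.A (g + 1) + σ + 1 ≤ dG G v (Y.iv U 0 (g + 1)) + be v := by
  have h1 := (hd v hv).2.1 0 (by omega)
  have h2 := dG_add_dH_out (G := G) (Finset.disjoint_left.1 h.dD hv)
  have h3 := h.rs.top
  rw [Y.B_zero] at h1
  omega

/-- disjoint neighbourhoods force large defects -/
theorem ma2a_sum (h : Mid G W Y U g D B α β α' β' 1 μ I J) {al be : V → ℕ}
    (hd : Dd G Y U g D B β α' β' al be) (h1 : ∀ z ∈ Y.iv U 0 (g + 1), dG G z D ≤ 1) {a b : V}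
    (ha : a ∈ D) (hb : b ∈ D) (hab : a ≠ b) : 2 * D.card ≤ be a + be b + 1 := by
  have k1 := ab_sum (G := G) (S := D) (empty_subset _) h1 (by simp)
  have hb' : b ∈ D.erase a := mem_erase.2 ⟨hab.symm, hb⟩
  rw [← add_sum_erase _ _ ha, ← add_sum_erase _ _ hb'] at k1
  have k2 := h.rs.AB (Nat.zero_le (g + 1)) le_rfl
  have k3 := Y.A_succ g
  have k4 := h.lo
  have k5 := h.ba
  have k6 := card_nsmul_le_sum ((D.erase a).erase b) (fun v => dG G v (Y.iv U 0 (g + 1))) 2
    fun v hv => by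
      have m := mem_of_mem_erase (mem_of_mem_erase hv)
      have := ma2a_deg h hd m
      have := hd v m
      omega
  have k7 := card_erase_add_one ha
  have k8 := card_erase_add_one hb'
  have := ma2a_deg h hd ha
  have := ma2a_deg h hd hb
  have := h.rs.top
  rw [Y.A_zero, Y.B_zero] at k2
  simp only [smul_eq_mul, card_empty] at k1 k6
  omega

theorem ma2a (h : Mid G W Y U g D B α β α' β' 1 μ I J) (h2 : 3 ≤ μ)
    (h1 : ∀ z ∈ Y.iv U 0 (g + 1), dG G z D ≤ 1) {v z p : V} (hv : v ∈ D)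
    (hz : z ∈ Y.iv U 0 (g + 1)) (hp : p ∈ B) (hvz : G.Adj v z) (hzp : G.Adj z p) :
    Fin2 G Y U g D B 1 μ := by
  obtain ⟨al, be, hd⟩ := h.defects
  have := h.cD
  have := h.ba
  obtain ⟨v', gs, c, k1, k2, -⟩ := plan1 (G := G) hv
  have hv' := (c.mem (Multiset.mem_cons_self _ _)).2
  have c1 := c.card_le
  rw [Multiset.card_cons] at c1
  have key : ∀ a ∈ D, ∀ b ∈ D, a ≠ b → ¬G.Adj a b →
      1 ≤ al a ∧ 1 ≤ al b ∧ al a + al b + 2 * D.card ≤ 2 * β + 1 := by
    intro a m1 b m2 e k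
    have := hd a m1
    have := hd b m2
    have := ma2a_sum h hd h1 m1 m2 e
    have := dH_pos m2 e.symm k
    have := dH_pos m1 e fun k' => k k'.symm
    omega
  have b1 : gs.card + 2 ≤ μ ∧ (gs.card + 2 = μ → al v' ≤ 2) := by
    by_cases e : gs = 0
    · subst e
      rw [Multiset.card_zero]
      omega
    · obtain ⟨y, m1, m2, m3, -⟩ := k2 e
      have := key v' hv' y m1 m2.symm m3
      omega
  refine h.endp (K := {p}) (r := μ - 1 - gs.card) hd c ((ab_hp2 hzp).set fun x => by simp) hvz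
    (singleton_subset_iff.2 hz) (singleton_subset_iff.2 hp) hp (card_singleton z) (h.leg1 hz)
    (by rw [card_singleton]; omega) (by omega) (fun x y e => ?_) fun _ => b1.2 (by omega)
  have m := c.mem (Multiset.mem_cons_of_mem e)
  have := Multiset.card_pos_iff_exists_mem.2 ⟨_, e⟩
  have := key x m.1 y m.2 (ab_ne c (by omega) (Multiset.mem_cons_of_mem e)) (k1 x y e).1
  omega

end Pool.Agent.Lib.MP_af3016_co
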