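import Pool.Agent.Lib.MP_af3016_co.C.MidL

/-! Lower quota one: no reservoir vertex sees both the class and the block. -/

set_option autoImplicit false
set_option linter.unusedSectionVars false

namespace Pool.Agent.Lib.MP_af3016_co

open Finset SimpleGraph

variable {V : Type} [DecidableEq V] {G : SimpleGraph V} {Y : Lay V} {U : Finset V}

variable {W D B : Finset V} {g α β α' β' σ μ : ℕ} {I J : Multiset ℕ}

theorem ma2b_sum {S : Finset V} {f : V → ℕ} {c : ℕ} {a : V} (ha : a ∈ S)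
    (h : ∀ x ∈ S, c ≤ f x) : f a + (S.card - 1) * c ≤ ∑ x ∈ S, f x := by
  rw [← add_sum_erase S f ha]
  have := card_nsmul_le_sum (S.erase a) f c fun x hx => h x (mem_of_mem_erase hx)
  rw [card_erase_of_mem ha, smul_eq_mul] at this
  exact Nat.add_le_add_left this _

/-- the degrees of a vertex of the class -/
theorem ma2b_deg (h : Mid G W Y U g D B α β α' β' 1 μ I J) {al be : V → ℕ}
    (hd : Dd G Y U g D B β α' β' al be) {v : V} (hv : v ∈ D) :
    Y.A (g + 1) + 2 ≤ dG G v (Y.iv U 0 (g + 1)) + be v ∧ α' + μ + 1 ≤ dG G v B + al v := by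
  have k := hd v hv
  have h1 := k.2.1 0 (by omega)
  have h2 := flat_df.1 k.1
  have h3 := dG_add_dH_out (G := G) (Finset.disjoint_left.1 h.dD hv)
  have h4 := dG_add_dH_out (G := G) (Finset.disjoint_left.1 h.dDB hv)
  have := h.rs.top
  have := h.cB
  rw [Y.B_zero] at h1
  omega

/-- the degree of a vertex of the block -/
theorem ma2b_blk (h : Mid G W Y U g D B α β α' β' 1 μ I J) {p : V} (hp : p ∈ B) :
    Y.A (g + 1) + 2 ≤ dG G p (Y.iv U 0 (g + 1)) + β + β' := by
  have h1 := h.suf 0 (Nat.zero_le _) p (Or.inr (Or.inr hp))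
  have h3 := dG_add_dH_out (G := G) (Finset.disjoint_left.1 h.dB hp)
  have := h.rs.top
  rw [Y.B_zero] at h1
  omega

/-- the reservoir has a large budget -/
theorem ma2b_low (h : Mid G W Y U g D B α β α' β' 1 μ I J) {al be : V → ℕ}
    (hd : Dd G Y U g D B β α' β' al be) (h1 : ∀ z ∈ Y.iv U 0 (g + 1), dG G z D ≤ 1)
    (hD : D.Nonempty)
    (h0 : ∀ v ∈ D, ∀ z ∈ Y.iv U 0 (g + 1), ∀ p ∈ B, G.Adj v z → ¬G.Adj z p) :
    α + α' ≤ Y.B (g + 1) + 1 ∧ Y.B (g + 1) ≤ Y.A (g + 1) := by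
  obtain ⟨v, hv⟩ := hD
  have k := hd v hv
  have k1 := (ma2b_deg h hd hv).1
  have k2 := h.rs.AB (Nat.zero_le (g + 1)) le_rfl
  have k3 := Y.B_succ g
  have k4 := h.lo
  rw [Y.A_zero, Y.B_zero] at k2
  obtain ⟨z, hz, hvz⟩ := exists_adj (G := G) (a := v) (S := Y.iv U 0 (g + 1)) (by omega)
  have s := h.suf 0 (Nat.zero_le _) z (Or.inl hz)
  have s1 := dG_add_dH_out (G := G) (Finset.disjoint_right.1 h.dD hz)
  have s2 := dG_add_dH_out (G := G) (Finset.disjoint_right.1 h.dB hz)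
  have s3 := h1 z hz
  have s4 : dG G z B = 0 := dG_eq_zero.2 fun p hp => h0 v hv z hz p hp hvz
  have := h.cD
  have := h.cB
  rw [Y.B_zero] at s
  omega

/-- a neighbour of `v` in the block shares a neighbour in the reservoir with another vertex -/
theorem ma2b_link (h : Mid G W Y U g D B α β α' β' 1 μ I J) {al be : V → ℕ}
    (hd : Dd G Y U g D B β α' β' al be) (h1 : ∀ z ∈ Y.iv U 0 (g + 1), dG G z D ≤ 1)
    (h0 : ∀ v ∈ D, ∀ z ∈ Y.iv U 0 (g + 1), ∀ p ∈ B, G.Adj v z → ¬G.Adj z p) {v : V}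
    (hv : v ∈ D) : ∃ p2 ∈ B, ∃ p1 ∈ B, ∃ z ∈ Y.iv U 0 (g + 1),
      p1 ≠ p2 ∧ G.Adj v p2 ∧ G.Adj z p2 ∧ G.Adj z p1 := by
  by_contra k
  push Not at k
  have kv := hd v hv
  have k1 := ma2b_deg h hd hv
  have k2 := ma2b_low h hd h1 ⟨v, hv⟩ h0
  have c1 := h.cD
  have c2 := h.cB
  have c3 := h.rs.top
  have c4 := h.ba
  have c5 := h.up
  have c6 := h.sJ.le
  have c7 := h.sJ.one
  obtain ⟨S, s1, s2, s3⟩ : ∃ S : Finset V, S ⊆ B ∧ α' + μ + 2 ≤ S.card + al v ∧
      ∀ a ∈ S, ∀ b ∈ S, a ≠ b → G.Adj v a ∨ G.Adj v b := by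
    by_cases e : ∀ p ∈ B, G.Adj v p
    · exact ⟨B, Subset.refl B, by omega, fun a ha _ _ _ => Or.inl (e a ha)⟩
    push Not at e
    obtain ⟨p, hp, hn⟩ := e
    obtain ⟨N, n1, n2⟩ := exists_nbhd (G := G) v B
    refine ⟨insert p N, insert_subset hp fun b hb => ((n2 b).1 hb).1, ?_, fun a ha b hb hab => ?_⟩
    · rw [card_insert_of_notMem fun hb => hn ((n2 p).1 hb).2]
      omega
    · rcases mem_insert.1 ha with rfl | ha
      · rcases mem_insert.1 hb with rfl | hb
        exacts [absurd rfl hab, Or.inr ((n2 b).1 hb).2]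
      · exact Or.inl ((n2 a).1 ha).2
  have e1 : ∀ z ∈ Y.iv U 0 (g + 1), dG G z (S ∪ D) ≤ 1 := fun z hz =>
    ab_le_one fun a ha b hb za zb => by
      by_contra e
      rcases mem_union.1 ha with ha | ha <;> rcases mem_union.1 hb with hb | hb
      · rcases s3 a ha b hb e with q | q
        · exact k a (s1 ha) b (s1 hb) z hz (Ne.symm e) q za zb
        · exact k b (s1 hb) a (s1 ha) z hz e q zb za
      · exact h0 b hb z hz a (s1 ha) zb.symm za
      · exact h0 a ha z hz b (s1 hb) za.symm zb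
      · have := le_dG (G := G) (a := z) (S := D) (R := {a, b}) fun c hc => by
          rcases mem_insert.1 hc with rfl | hc
          · exact ⟨ha, za⟩
          · rw [mem_singleton.1 hc]
            exact ⟨hb, zb⟩
        have := h1 z hz
        rw [card_pair e] at *
        omega
  have e2 := ab_sum (empty_subset _) e1 (fun z hz => absurd hz (notMem_empty z))
  rw [sum_union (h.dDB.symm.mono_left s1), card_empty] at e2
  obtain ⟨p, hp⟩ : S.Nonempty := card_pos.1 (by omega)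
  have e3 := ma2b_sum (f := fun x => dG G x (Y.iv U 0 (g + 1))) (c := 1) hp fun x hx => by
    have := ma2b_blk h (s1 hx)
    omega
  have e4 := ma2b_sum (f := fun x => dG G x (Y.iv U 0 (g + 1))) (c := 1) hv fun x hx => by
    have := (ma2b_deg h hd hx).1
    have := hd x hx
    omega
  have e5 := ma2b_blk h (s1 hp)
  have e6 := card_pos.2 ⟨v, hv⟩
  omega

theorem ma2b (h : Mid G W Y U g D B α β α' β' 1 μ I J) (h2 : 3 ≤ μ)
    (h1 : ∀ z ∈ Y.iv U 0 (g + 1), dG G z D ≤ 1) (hD : D.Nonempty)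
    (h0 : ∀ v ∈ D, ∀ z ∈ Y.iv U 0 (g + 1), ∀ p ∈ B, G.Adj v z → ¬G.Adj z p) :
    Fin2 G Y U g D B 1 μ := by
  obtain ⟨al, be, hd⟩ : ∃ al be, Dd G Y U g D B β α' β' al be := h.defects
  have fin : ∀ v v' gs r, CS G D (s(v, v') ::ₘ gs) → 2 + (gs.card + r) = μ → 1 ≤ r →
      (∀ x y, s(x, y) ∈ gs → al x + al y ≤ r + 2) → (r = 1 → al v' ≤ 2) →
      Fin2 G Y U g D B 1 μ := by
    intro v v' gs r hc c2 hr hgs h3
    obtain ⟨p2, hp2, p1, hp1, z, hz, ne, a1, a2, a3⟩ :=
      ma2b_link h hd h1 h0 (hc.mem (Multiset.mem_cons_self _ _)).1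
    have hp : HP G p2 p1 ({z} ∪ {p1, p2}) :=
      ((ab_hp2 a3).cons a2.symm (by simp [a2.ne', ne.symm])).set fun v => by simp; tauto
    exact h.endp hd hc hp a1 (singleton_subset_iff.2 hz)
      (insert_subset hp1 (singleton_subset_iff.2 hp2)) hp1 (card_singleton z) (h.leg1 hz)
      (by rw [card_pair ne]; exact c2) hr hgs h3
  have k2 := ma2b_low h hd h1 hD h0
  have c1 := h.cD
  have c2 := h.cB
  have c3 := h.rs.top
  have c4 := h.ba
  have c5 := h.up
  have c6 := h.sJ.le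
  have c7 := h.ab
  have c8 := h.five
  obtain ⟨T, t1, t2⟩ : ∃ T : Finset V,
      ∑ v ∈ D, dG G v (Y.iv U 0 (g + 1)) + T.card ≤ (Y.iv U 0 (g + 1)).card ∧
      ∀ p ∈ B, ∃ z ∈ T, z ∈ Y.iv U 0 (g + 1) ∧ G.Adj p z := by
    refine ⟨(Y.iv U 0 (g + 1)).filter fun z => dG G z D = 0,
      ab_sum (filter_subset _ _) h1 fun z hz => (mem_filter.1 hz).2, fun p hp => ?_⟩
    have := ma2b_blk h hp
    obtain ⟨z, hz, a⟩ := exists_adj (G := G) (a := p) (S := Y.iv U 0 (g + 1)) (by omega)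
    exact ⟨z, mem_filter.2 ⟨hz, dG_eq_zero.2 fun v hv b => h0 v hv z hz p hp b.symm a.symm⟩, hz, a⟩
  have t3 : 1 ≤ T.card := by
    obtain ⟨p, hp⟩ : B.Nonempty := card_pos.1 (by omega)
    obtain ⟨z, hz, -⟩ := t2 p hp
    exact card_pos.2 ⟨z, hz⟩
  have two : ∀ v w, v ≠ w → D = {v, w} → al w ≤ al v → Fin2 G Y U g D B 1 μ := by
    intro v w ne e hle
    have hv : v ∈ D := by simp [e]
    have hw : w ∈ D := by simp [e]
    have kv := hd v hv
    have kw := hd w hw
    have dv := ma2b_deg h hd hv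
    have dw := ma2b_deg h hd hw
    have n2 : D.card = 2 := by rw [e, card_pair ne]
    have t4 : ∑ x ∈ D, dG G x (Y.iv U 0 (g + 1)) =
      dG G v (Y.iv U 0 (g + 1)) + dG G w (Y.iv U 0 (g + 1)) := by rw [e, sum_pair ne]
    by_cases a : G.Adj v w
    · exact fin v w 0 (μ - 2) (e ▸ (ab_hp2 a).cs) (by simp; omega) (by omega) (by simp)
        fun _ => by omega
    have hv1 := dH_pos hw ne.symm a
    have hw1 := dH_pos hv ne fun b => a b.symm
    by_cases m : 4 ≤ μ
    · have c := (HP.single (G := G) v).cs.glue (gs := 0) (gs' := 0) (HP.single (G := G) w).cs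
        (disjoint_singleton.2 ne)
      rw [show ({v} ∪ {w} : Finset V) = D by rw [e]; rfl, add_zero] at c
      refine fin v w _ (μ - 3) c (by simp; omega) (by omega) (fun x y hxy => ?_) fun _ => by omega
      rcases Sym2.eq_iff.1 (Multiset.mem_singleton.1 hxy) with ⟨rfl, rfl⟩ | ⟨rfl, rfl⟩ <;> omega
    obtain ⟨p2, hp2, a2⟩ := exists_adj (G := G) (a := v) (S := B) (by omega)
    obtain ⟨p1, hp1, a1, n1⟩ := exists_adj_notMem (G := G) (a := w) (S := B) (R := {p2})
      (by rw [card_singleton]; omega)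
    obtain ⟨z, z1, hz, a3⟩ := t2 p1 hp1
    obtain ⟨z', z2, -, a4⟩ := t2 p2 hp2
    obtain rfl : z = z' := card_le_one.1 (by omega) z z1 z' z2
    have n2 : p1 ≠ p2 := fun q => n1 (mem_singleton.2 q)
    have o1 : ∀ x ∈ D, x ≠ z := fun x hx q => Finset.disjoint_left.1 h.dD hx (q ▸ hz)
    have o2 : ∀ x ∈ D, ∀ p ∈ B, x ≠ p := fun x hx p hp q =>
      Finset.disjoint_left.1 h.dDB hx (q ▸ hp)
    have hp : HP G v w (D ∪ {z} ∪ {p1, p2}) :=
      (((((ab_hp2 a1.symm).cons a3.symm (by simp [a3.ne', (o1 w hw).symm])).cons a4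
        (by simp [a4.ne, n2.symm, (o2 w hw p2 hp2).symm])).cons a2
        (by simp [a2.ne, o1 v hv, o2 v hv p1 hp1, ne]))).set fun x => by simp [e]; tauto
    exact h.close (r := 1) hp (singleton_subset_iff.2 hz)
      (insert_subset hp1 (singleton_subset_iff.2 hp2)) kv.1 kw.1 (by omega) (by omega)
      (card_singleton z) (h.leg1 hz) (by rw [card_pair n2]; omega) le_rfl (fun _ => by omega)
      fun q => by omega
  have n0 := card_pos.2 hD
  by_cases n1 : D.card = 1
  · obtain ⟨v, e⟩ := card_eq_one.1 n1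
    have kv := hd v (by simp [e])
    exact fin v v 0 (μ - 2) (e ▸ (HP.single v).cs) (by simp; omega) (by omega) (by simp)
      fun _ => by omega
  by_cases n2 : D.card = 2
  · obtain ⟨v, w, ne, e⟩ := card_eq_two.1 n2
    rcases le_total (al w) (al v) with q | q
    · exact two v w ne e q
    · exact two w v ne.symm (e.trans (pair_comm v w)) q
  have key : ∀ x ∈ D, D.card = 3 ∧ al x + 4 ≤ β := fun x hx => by
    have e := ma2b_sum (f := fun x => dG G x (Y.iv U 0 (g + 1))) (c := Y.A (g + 1) + 2 - β) hx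
      fun y hy => by
        have := (ma2b_deg h hd hy).1
        have := hd y hy
        omega
    have := (ma2b_deg h hd hx).1
    have := hd x hx
    by_cases n3 : D.card = 3
    · rw [n3] at e
      omega
    · have := Nat.mul_le_mul_right (Y.A (g + 1) + 2 - β) (show 3 ≤ D.card - 1 by omega)
      omega
  obtain ⟨gs0, c0⟩ := exists_cs G hD
  obtain ⟨v, hv⟩ := hD
  obtain ⟨u, gs, c, -⟩ := scan_mark c0 hv
  have l := c.card_le
  have kv := key v hv
  have := hd v hv
  rw [Multiset.card_cons] at l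
  refine fin v u gs (μ - 2 - gs.card) c (by omega) (by omega) (fun x y hxy => ?_)
    fun _ => by omega
  have m := c.mem (Multiset.mem_cons_of_mem hxy)
  have := key x m.1
  have := key y m.2
  omega

end Pool.Agent.Lib.MP_af3016_co
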