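import Pool.Agent.Lib.MP_af3016_co.C.MidL

/-! Lower quota one: the class is empty. -/

set_option autoImplicit false
set_option linter.unusedSectionVars false

namespace Pool.Agent.Lib.MP_af3016_co

open Finset SimpleGraph

variable {V : Type} [DecidableEq V] {G : SimpleGraph V} {Y : Lay V} {U : Finset V}

variable {W D B : Finset V} {g α β α' β' σ μ : ℕ} {I J : Multiset ℕ}

theorem ma2c (h : Mid G W Y U g ∅ B α β α' β' 1 μ I J) :
    Til G W ((α + β) ::ₘ (Y.lst I g + J)) := by
  have hba := h.ba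
  have hab := h.ab
  have h5 := h.five
  have hup := h.up
  have hle := h.sJ.le
  have cD := h.cD
  have cB := h.cB
  have top := h.rs.top
  have hAB := h.rs.AB (Nat.zero_le (g + 1)) le_rfl
  rw [Y.A_zero, Y.B_zero] at hAB
  rw [card_empty] at cD
  have dB := Finset.disjoint_left.1 h.dB
  by_cases k : ∃ z ∈ Y.iv U 0 (g + 1), 2 ≤ dG G z B
  · obtain ⟨z, hz, k⟩ := k
    obtain ⟨p, hp, q, hq, hne, a1, a2⟩ := ab_two k
    have hpz : p ≠ z := a1.ne.symm
    refine h.fin (h.both (Z0 := {z}) (K := {p, q}) (p := p) (q := q) (r := μ - 2) ?_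
      (singleton_subset_iff.2 hz) (insert_subset hp (singleton_subset_iff.2 hq)) hp hq
      (card_singleton z) (h.leg1 hz) (by rw [card_pair hne]; omega) (by omega))
    refine ((ab_hp2 a2).cons a1.symm (by simp [hpz, hne])).set fun v => ?_
    simp only [mem_insert, mem_singleton, mem_union, notMem_empty]
    tauto
  push Not at k
  have k1 : ∀ z ∈ Y.iv U 0 (g + 1), dG G z B ≤ 1 := fun z hz => by have := k z hz; omega
  have sz : ∀ z ∈ Y.iv U 0 (g + 1),
      dH G z (Y.iv U 0 (g + 1)) + α + α' ≤ Y.B (g + 1) + 1 := fun z hz => by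
    have e1 := h.suf 0 (Nat.zero_le _) z (Or.inl hz)
    have e2 := dG_add_dH_out (G := G) (a := z) (S := B) fun e => dB e hz
    have e3 := k1 z hz
    omega
  have sp : ∀ p ∈ B, Y.A (g + 1) + 2 + dH G p B ≤ dG G p (Y.iv U 0 (g + 1)) + β + β' :=
    fun p hp => by
      have e1 := h.suf 0 (Nat.zero_le _) p (Or.inr (Or.inr hp))
      have e2 := dG_add_dH_out (G := G) (dB hp)
      omega
  obtain ⟨z0, hz0⟩ : (Y.iv U 0 (g + 1)).Nonempty := card_pos.1 (by omega)
  have s0 := sz z0 hz0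
  have sm := ab_sum (G := G) (S := B) (T := ∅) (empty_subset _) k1 (by simp)
  rw [card_empty, add_zero] at sm
  obtain ⟨c, hc⟩ : ∃ c, Y.A (g + 1) + 1 = β + β' + c := ⟨Y.A (g + 1) + 1 - (β + β'), by omega⟩
  have s1 : ∑ p ∈ B, (1 + c + dH G p B) ≤ ∑ p ∈ B, dG G p (Y.iv U 0 (g + 1)) :=
    sum_le_sum fun p hp => by have := sp p hp; omega
  rw [sum_add_distrib, sum_const, smul_eq_mul, mul_add, mul_one] at s1
  have s2 : 7 * c ≤ B.card * c := Nat.mul_le_mul_right c (by omega)
  have s3 : ∑ p ∈ B, dH G p B = 0 := by omega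
  rw [sum_eq_zero_iff] at s3
  refine h.prism (R := B) (P := Y.iv U 0 (g + 1)) h.dB ?_
    ⟨fun a ha b hb e => dH_eq_zero.1 (s3 a ha) b hb e.symm,
      fun a ha b hb e => dH_eq_zero.1 (by have := sz a ha; omega) b hb e.symm, by omega,
      fun p hp => exists_adj (by have := sp p hp; omega), k1⟩ (by omega) (by omega) (by omega)
  ext v
  rw [mem_union, h.mem]
  simp only [notMem_empty]
  tauto

end Pool.Agent.Lib.MP_af3016_co
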