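import Pool.Agent.Lib.MP_af3016_co.C.MidL

/-! Lower quota two: gadgets inside the class. -/

set_option autoImplicit false
set_option linter.unusedSectionVars false

namespace Pool.Agent.Lib.MP_af3016_co

open Finset SimpleGraph

variable {V : Type} [DecidableEq V] {G : SimpleGraph V} {Y : Lay V} {U : Finset V}

variable {W D B : Finset V} {g α β α' β' σ μ : ℕ} {I J : Multiset ℕ}

/-- one gap inside the class takes the whole upper quota -/
theorem mb1_all (h : Mid G W Y U g D B α β α' β' σ μ I J) (h2 : 3 ≤ μ) {al be : V → ℕ}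
    (hd : Dd G Y U g D B β α' β' al be) {p q : V} (hp : p ∈ D) (hq : q ∈ D) :
    Fb G (flat V α' β') B 1 μ {s(p, q)} := by
  have := h.up
  have := h.sJ.le
  have k1 := hd p hp
  have k2 := hd q hq
  exact Fb.all (g := 0) h.rsB (flat_ord _ _) (by omega) k1.1 k2.1 (show al p ≤ α' by omega)
    (show al q ≤ α' by omega) (by omega) (by omega)

/-- the gaps outside `F` are filled from the block -/
theorem mb1_up (h : Mid G W Y U g D B α β α' β' σ μ I J) (h2 : 3 ≤ μ) {al be : V → ℕ}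
    (hd : Dd G Y U g D B β α' β' al be) {F gs : Multiset (Sym2 V)} (hc : CS G D (F + gs))
    (hF : F.card < D.card) (hs : ∀ p q, s(p, q) ∈ gs → al p + al q + gs.card ≤ μ + 2) :
    ∃ gs', CS G D (F + gs') ∧ Fb G (flat V α' β') B 1 μ gs' := by
  by_cases e : gs = 0
  · subst e
    rw [add_zero] at hc
    obtain ⟨p, q, -, c⟩ := hc.open hF
    have m := c.mem (Multiset.mem_cons_self _ _)
    exact ⟨{s(p, q)}, by rwa [add_comm, Multiset.singleton_add], mb1_all h h2 hd m.1 m.2⟩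
  · refine ⟨gs, hc, Fb.filly (e := al) e h.rsB fun p q k => ?_⟩
    have m := hd p (hc.mem (Multiset.mem_add.2 (Or.inr k))).1
    exact ⟨m.1, m.2.2.1, hs p q k⟩

/-- a gadget that uses the whole lower quota -/
theorem mb1_gad (h : Mid G W Y U g D B α β α' β' σ μ I J) {Z0 : Finset V}
    {gs : Multiset (Sym2 V)} (hc : CS G (D ∪ Z0) gs) (h1 : Z0 ⊆ Y.iv U 0 (g + 1))
    (c1 : Z0.card = σ) (hR : Rs G Y (U \ Z0) (g + 1) 0) (k : Fb G (flat V α' β') B 1 μ gs) :
    Fin2 G Y U g D B σ μ :=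
  h.two (Z0' := ∅) (gs := 0) (gs' := gs) (s := 0) (u := μ) h1 (empty_subset _) (by simpa using hc)
    c1 (by simp) (Fb.zero hR) (by simpa using k)

/-- the greedy split -/
theorem mb1_greedy (h : Mid G W Y U g D B α β α' β' σ μ I J) (h2 : 3 ≤ μ) {al be : V → ℕ}
    (hd : Dd G Y U g D B β α' β' al be) {gs : Multiset (Sym2 V)} (hc : CS G D gs)
    (h3 : 2 ≤ gs.card)
    (hs : ∀ p q, s(p, q) ∈ gs → be p + be q + al p + al q + gs.card ≤ σ + μ + 4)
    (hx : (∀ p q, s(p, q) ∈ gs → σ + 2 ≤ be p + be q) →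
      3 ≤ σ ∨ (σ = 2 ∧ ∃ p q, s(p, q) ∈ gs ∧ be p ≤ 2)) : Fin2 G Y U g D B σ μ := by
  have := h.up
  have := h.sJ.le
  have := h.lo
  have := h.ba
  obtain ⟨Z, Z', k1, k2, k3, k4, k5, k6, -⟩ := greedy (Y' := flat V α' β') (U' := B) (g' := 0)
    (e := be) (e' := al) hc h3 h.rs h.rsB h.ord (flat_ord _ _) h.sg h.mu h.dD
    (by rw [flat_iv]; exact h.dDB) (by rw [flat_iv]; exact h.dB.symm)
    (fun p q k => by
      have m := hd p (hc.mem k).1
      exact ⟨m.2.1, m.2.2.2.1, by omega⟩)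
    (fun p q k => by
      have m := hd p (hc.mem k).1
      exact ⟨m.1, m.2.2.1, show al p ≤ α' by omega⟩) hs hx (fun _ => Or.inl h2)
  rw [flat_iv] at k2
  refine ⟨Z, Z', k1, k2, k3, k4, k5.done ?_, k6⟩
  rw [card_union_of_disjoint (disjoint_union_left.2 ⟨h.dDB.mono_right k2,
    (h.dB.mono_left k2).symm.mono_left k1⟩), card_union_of_disjoint (h.dD.mono_right k1), k3, k4]
  have := h.cD
  have := h.five
  omega

theorem mb1a (h : Mid G W Y U g D B α β α' β' 2 μ I J) (h2 : 3 ≤ μ) {al be : V → ℕ}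
    (hd : Dd G Y U g D B β α' β' al be) (hN : 2 ≤ D.card) {v : V} (hv : v ∈ D) (hb : be v ≤ 2) :
    Fin2 G Y U g D B 2 μ := by
  have := h.cD
  have := h.ba
  have := h.lo
  obtain ⟨g0, c0⟩ := exists_cs G ⟨v, hv⟩
  obtain ⟨gs, c, -, k⟩ := plan (X := D) (D := D) (F := 0) (gs0 := g0) (by rwa [zero_add])
    fun p q e => c0.mem e
  rw [zero_add] at c
  have ks : ∀ p q, s(p, q) ∈ gs → be p + be q + al p + al q + gs.card ≤ 2 + μ + 4 := by
    intro p q e
    obtain ⟨m1, m2, -, m3⟩ := k p q e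
    have := hd p m1
    have := hd q m2
    have := dG_add_dH_in (G := G) m1
    have := dG_add_dH_in (G := G) m2
    rw [Multiset.card_zero] at m3
    omega
  have fin : ∀ q g1, CS G D (s(v, q) ::ₘ g1) → g1.card ≤ 1 ∨
      (∀ p q, s(p, q) ∈ g1 → al p + al q + g1.card ≤ μ + 2) → Fin2 G Y U g D B 2 μ := by
    intro q g1 c1 k1
    have m := hd q (c1.mem (Multiset.mem_cons_self _ _)).2
    have m' := hd v hv
    have f1 : Fb G Y U (g + 1) 2 {s(v, q)} := Fb.all h.rs h.ord (by omega) m'.2.1 m.2.1 (by omega)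
      (by omega) (by omega) fun _ => Or.inl hb
    rw [← Multiset.singleton_add] at c1
    by_cases e : g1.card = 1
    · obtain ⟨x, rfl⟩ := Multiset.card_eq_one.1 e
      induction x using Sym2.ind with
      | _ a b =>
        have m2 := c1.mem (p := a) (q := b) (by simp)
        exact h.two0 c1 f1 (mb1_all h h2 hd m2.1 m2.2)
    · obtain ⟨g2, c2, f2⟩ := mb1_up h h2 hd c1 (by rw [Multiset.card_singleton]; omega) fun p q k => by
        rcases k1 with k1 | k1
        · have := Multiset.card_pos_iff_exists_mem.2 ⟨_, k⟩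
          omega
        · exact k1 p q k
      exact h.two0 c2 f1 f2
  by_cases e : ∃ q, s(v, q) ∈ gs
  · obtain ⟨q, e⟩ := e
    by_cases e2 : 2 ≤ gs.card
    · exact mb1_greedy h h2 hd c e2 ks fun _ => Or.inr ⟨rfl, v, q, e, hb⟩
    · obtain ⟨g1, rfl⟩ := Multiset.exists_cons_of_mem e
      rw [Multiset.card_cons] at e2
      exact fin q g1 c (Or.inl (by omega))
  obtain ⟨q, -, c1⟩ := c.openAt hv fun q k => e ⟨q, k⟩
  by_cases e2 : gs.card ≤ 1
  · exact fin q gs c1 (Or.inl e2)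
  by_cases e3 : ∃ p q, s(p, q) ∈ gs ∧ be p ≤ 2
  · exact mb1_greedy h h2 hd c (by omega) ks fun _ => Or.inr ⟨rfl, e3⟩
  refine fin q gs c1 (Or.inr fun a b k1 => ?_)
  have := ks a b k1
  have : ¬be a ≤ 2 := fun k2 => e3 ⟨a, b, k1, k2⟩
  have : ¬be b ≤ 2 := fun k2 => e3 ⟨b, a, Sym2.eq_swap ▸ k1, k2⟩
  omega

theorem mb1e (h : Mid G W Y U g D B α β α' β' 2 μ I J) (h2 : 3 ≤ μ) {al be : V → ℕ}
    (hd : Dd G Y U g D B β α' β' al be) (h3 : ∀ v ∈ D, 3 ≤ be v) {y y' z z' : V} (hy : y ∈ D)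
    (hy' : y' ∈ D) (hne : y ≠ y') (hz : z ∈ Y.iv U 0 (g + 1)) (hz' : z' ∈ Y.iv U 0 (g + 1))
    (hR : Rs G Y (U \ {z, z'}) (g + 1) 0) (a1 : G.Adj y z) (a2 : G.Adj z z') (a3 : G.Adj y' z') :
    Fin2 G Y U g D B 2 μ := by
  have := h.cD
  have := h.ba
  obtain ⟨g0, c0⟩ := exists_cs G ⟨y, hy⟩
  obtain ⟨g1, c1, -⟩ := c0.opt hy hy' hne
  obtain ⟨gs, c, -, k⟩ := plan (X := D) (D := D) (F := {s(y, y')}) (gs0 := g1)
    (by rwa [Multiset.singleton_add]) fun p q e => c1.mem (Multiset.mem_cons_of_mem e)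
  obtain ⟨g2, c2, f⟩ := mb1_up h h2 hd c (by
    rw [Multiset.card_singleton]; exact one_lt_card.2 ⟨y, hy, y', hy', hne⟩) fun p q e => by
      obtain ⟨m1, m2, -, m3⟩ := k p q e
      have := hd p m1
      have := hd q m2
      have := h3 p m1
      have := h3 q m2
      have := dG_add_dH_in (G := G) m1
      have := dG_add_dH_in (G := G) m2
      rw [Multiset.card_singleton] at m3
      omega
  rw [Multiset.singleton_add] at c2
  have s1 : ({z, z'} : Finset V) ⊆ Y.iv U 0 (g + 1) := insert_subset hz (singleton_subset_iff.2 hz')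
  exact mb1_gad h (c2.fill (ab_hp2 a2) a1 a3 (h.dD.mono_right s1)) s1 (card_pair a2.ne) hR f

theorem mb1m (h : Mid G W Y U g D B α β α' β' 2 μ I J) (h2 : 3 ≤ μ) {al be : V → ℕ}
    (hd : Dd G Y U g D B β α' β' al be) (h3 : ∀ v ∈ D, 3 ≤ be v) {y1 y2 y3 z z' : V} (h1 : y1 ∈ D)
    (h1' : y2 ∈ D) (h1'' : y3 ∈ D) (n1 : y1 ≠ y2) (n2 : y1 ≠ y3) (n3 : y2 ≠ y3)
    (hz : z ∈ Y.iv U 0 (g + 1)) (hz' : z' ∈ Y.iv U 0 (g + 1)) (hne : z ≠ z')
    (hR : Rs G Y (U \ {z, z'}) (g + 1) 0) (a1 : G.Adj y1 z) (a2 : G.Adj y2 z) (a3 : G.Adj y2 z')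
    (a4 : G.Adj y3 z') : Fin2 G Y U g D B 2 μ := by
  have := h.cD
  have := h.ba
  have c3 : 3 ≤ D.card := two_lt_card_iff.2 ⟨y1, y2, y3, h1, h1', h1'', n1, n2, n3⟩
  obtain ⟨v', g0, c0, -⟩ := plan1 (G := G) (D := (D.erase y1).erase y2) (v := y3)
    (by simp [h1'', n2.symm, n3.symm])
  have d1 := c0.glue (HP.single y2).cs (by simp)
  rw [Multiset.cons_swap, Sym2.eq_swap] at d1
  have d2 := d1.glue (HP.single y1).cs (by simp [n1])
  have e : (D.erase y1).erase y2 ∪ {y2} ∪ {y1} = D := by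
    ext x
    simp only [mem_union, mem_erase, mem_singleton]
    by_cases e1 : x = y1
    · simp [e1, h1]
    · by_cases e2 : x = y2 <;> simp [e1, e2, h1', n1.symm]
  rw [e] at d2
  have d3 : CS G D ((s(y2, y1) ::ₘ {s(y3, y2)}) + (s(v', y1) ::ₘ g0)) := by
    convert d2 using 1
    simp only [add_zero, Multiset.cons_add, Multiset.singleton_add]
    rw [Multiset.cons_swap s(y3, y2)]
  obtain ⟨gs, c, -, k⟩ := plan (D := D) d3 fun p q e => d3.mem (Multiset.mem_add.2 (Or.inr e))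
  obtain ⟨g2, c2, f⟩ := mb1_up h h2 hd c (by
    rw [Multiset.card_cons, Multiset.card_singleton]; omega) fun p q e => by
      obtain ⟨m1, m2, -, m3⟩ := k p q e
      have := hd p m1
      have := hd q m2
      have := h3 p m1
      have := h3 q m2
      have := dG_add_dH_in (G := G) m1
      have := dG_add_dH_in (G := G) m2
      rw [Multiset.card_cons, Multiset.card_singleton] at m3
      omega
  rw [Multiset.cons_add, Multiset.singleton_add] at c2
  have s1 : ({z, z'} : Finset V) ⊆ Y.iv U 0 (g + 1) := insert_subset hz (singleton_subset_iff.2 hz')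
  have nz : z' ∉ D := fun k => Finset.disjoint_left.1 h.dD k hz'
  have c4 := (c2.fill (HP.single z) a2 a1 (h.dD.mono_right (singleton_subset_iff.2 hz))).fill
    (HP.single z') a4 a3 (by simp [nz, hne.symm])
  rw [union_assoc] at c4
  exact mb1_gad h c4 s1 (card_pair hne) hR f

theorem mb1o (h : Mid G W Y U g D B α β α' β' 2 μ I J) (h2 : 3 ≤ μ) {al be : V → ℕ}
    (hd : Dd G Y U g D B β α' β' al be) (h3 : 2 ≤ D.card → ∀ v ∈ D, 3 ≤ be v) {v z z' p : V}
    (hv : v ∈ D) (hz : z ∈ Y.iv U 0 (g + 1)) (hz' : z' ∈ Y.iv U 0 (g + 1)) (hp : p ∈ B)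
    (hR : Rs G Y (U \ {z, z'}) (g + 1) 0) (a1 : G.Adj v z) (a2 : G.Adj z z') (a3 : G.Adj z' p) :
    Fin2 G Y U g D B 2 μ := by
  have := h.cD
  have := h.ba
  obtain ⟨v', gs, c, k1, k2, -⟩ := plan1 (G := G) hv
  have hv' := (c.mem (Multiset.mem_cons_self _ _)).2
  have key : ∀ a ∈ D, ∀ b ∈ D, gs ≠ 0 → dG G a D + dG G b D + gs.card ≤ D.card →
      2 ≤ al a + al b ∧ 1 ≤ al b ∧ al a + al b + gs.card ≤ μ := by
    intro a m1 b m2 e k
    have c1 := c.card_le
    rw [Multiset.card_cons] at c1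
    have := Multiset.card_pos.2 e
    have := hd a m1
    have := hd b m2
    have := h3 (by omega) a m1
    have := h3 (by omega) b m2
    have := dG_add_dH_in (G := G) m1
    have := dG_add_dH_in (G := G) m2
    omega
  have nz : z ∉ ({z', p} : Finset V) := by
    have : z ≠ p := fun e => Finset.disjoint_left.1 h.dB hp (e ▸ hz)
    simp [a2.ne, this]
  have b1 : gs.card + 2 ≤ μ ∧ (gs.card + 2 = μ → al v' ≤ 2) := by
    by_cases e : gs = 0
    · subst e
      rw [Multiset.card_zero]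
      omega
    · obtain ⟨y, m1, -, -, m2⟩ := k2 e
      have := key v' hv' y m1 e m2
      omega
  refine h.endp (K := {p}) (r := μ - 1 - gs.card) hd c (((ab_hp2 a3).cons a2 nz).set fun x => ?_) a1
    (insert_subset hz (singleton_subset_iff.2 hz')) (singleton_subset_iff.2 hp) hp
    (card_pair a2.ne) hR (by rw [card_singleton]; omega) (by omega) (fun x y e => ?_)
    fun _ => b1.2 (by omega)
  · simp only [mem_insert, mem_union, mem_singleton]
    tauto
  · have m := c.mem (Multiset.mem_cons_of_mem e)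
    have := key x m.1 y m.2 (fun e0 => by simp [e0] at e) (k1 x y e).2
    omega

end Pool.Agent.Lib.MP_af3016_co
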