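import Pool.Agent.Lib.MP_af3016_co.C.MB1

/-! Lower quota two: the class is not empty. -/

set_option autoImplicit false
set_option linter.unusedSectionVars false

namespace Pool.Agent.Lib.MP_af3016_co

open Finset SimpleGraph

variable {V : Type} [DecidableEq V] {G : SimpleGraph V} {Y : Lay V} {U : Finset V}

variable {W D B : Finset V} {g α β α' β' σ μ : ℕ} {I J : Multiset ℕ}

/-- two disjoint neighbourhoods and a set that avoids both -/
theorem mb2_avoid {a b : V} {S T : Finset V} (hT : T ⊆ S)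
    (h : ∀ c ∈ S, G.Adj a c → ¬G.Adj b c) (ha : ∀ c ∈ T, ¬G.Adj a c) (hb : ∀ c ∈ T, ¬G.Adj b c) :
    dG G a S + dG G b S + T.card ≤ S.card := by
  have h1 := dG_sdiff (G := G) (a := a) hT
  have h2 := dG_sdiff (G := G) (a := b) hT
  have h3 := card_sdiff_add_card_eq_card hT
  rw [dG_eq_zero.2 ha] at h1
  rw [dG_eq_zero.2 hb] at h2
  by_contra k
  obtain ⟨c, k1, k2, k3⟩ := exists_common (G := G) (a := a) (b := b) (S := S \ T) (by omega)
  exact h c (mem_sdiff.1 k1).1 k2 k3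

/-- a path on five vertices -/
theorem mb2_hp5 {a b c d e : V} (h1 : G.Adj a b) (h2 : G.Adj b c) (h3 : G.Adj c d)
    (h4 : G.Adj d e) (ac : a ≠ c) (ad : a ≠ d) (ae : a ≠ e) (bd : b ≠ d) (be : b ≠ e)
    (ce : c ≠ e) : HP G a e {a, b, c, d, e} :=
  (((ab_hp2 h4).cons h3 (by simp [h3.ne, ce])).cons h2 (by simp [h2.ne, bd, be])).cons h1
    (by simp [h1.ne, ac, ad, ae])

theorem mb2 (h : Mid G W Y U g D B α β α' β' 2 μ I J) (h2 : 3 ≤ μ) {al be : V → ℕ}
    (hd : Dd G Y U g D B β α' β' al be) (h3 : 2 ≤ D.card → ∀ v ∈ D, 3 ≤ be v)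
    (hD : D.Nonempty) : Fin2 G Y U g D B 2 μ := by
  classical
  by_contra hn
  obtain ⟨i, hi⟩ := h.lv
  have hS := h.suf i (by have := hi.le; omega)
  have hS0 := h.suf 0 (Nat.zero_le _)
  have O : ∀ v ∈ D, ∀ z ∈ Y.iv U i (g + 1), ∀ z' ∈ Y.iv U 0 (g + 1), ∀ p ∈ B, G.Adj v z →
      G.Adj z z' → ¬G.Adj z' p := fun v hv z hz z' hz' p hp a1 a2 a3 =>
    hn (mb1o h h2 hd h3 hv (Lv.sub hz) hz' hp (h.leg2 hi hz hz' a2.ne) a1 a2 a3)
  have E : ∀ y ∈ D, ∀ y' ∈ D, ∀ z ∈ Y.iv U i (g + 1), ∀ z' ∈ Y.iv U 0 (g + 1), G.Adj y z →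
      G.Adj z z' → G.Adj y' z' → y = y' := fun y hy y' hy' z hz z' hz' a1 a2 a3 => by
    by_contra e
    exact hn (mb1e h h2 hd (h3 (one_lt_card.2 ⟨y, hy, y', hy', e⟩)) hy hy' e (Lv.sub hz) hz'
      (h.leg2 hi hz hz' a2.ne) a1 a2 a3)
  obtain ⟨c1, c2, c3, c4⟩ := hi.card h.rs
  have c5 := h.cD
  have c6 := h.cB
  have c7 := h.rs.top
  have c8 := h.ba
  have c9 := h.up
  have c10 := h.lo
  have c11 := h.sJ.le
  have c12 := h.sJ.two
  have c13 := h.rs.AB (Nat.zero_le (g + 1)) le_rfl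
  rw [Y.A_zero, Y.B_zero] at c13
  have nD : ∀ z ∈ Y.iv U 0 (g + 1), z ∉ D := fun z hz k => Finset.disjoint_left.1 h.dD k hz
  have nB : ∀ z ∈ Y.iv U 0 (g + 1), z ∉ B := fun z hz k => Finset.disjoint_left.1 h.dB k hz
  have nDB : ∀ v ∈ D, v ∉ B := fun v hv => Finset.disjoint_left.1 h.dDB hv
  obtain ⟨Z, hZ⟩ : ∃ Z : Finset V, ∀ z, z ∈ Z ↔ z ∈ Y.iv U i (g + 1) ∧ ∃ v ∈ D, G.Adj v z :=
    ⟨(Y.iv U i (g + 1)).filter fun z => ∃ v ∈ D, G.Adj v z, fun z => mem_filter⟩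
  have hZP : Z ⊆ Y.iv U i (g + 1) := fun z hz => ((hZ z).1 hz).1
  have dZ : ∀ v ∈ D, Y.A (g + 1) + 2 ≤ dG G v Z + Y.A i + β := fun v hv => by
    obtain ⟨-, k1, -, -, -, k2, -⟩ := hd v hv
    have k3 := k1 i (by have := hi.le; omega)
    have k4 := dG_add_dH_out (G := G) (a := v) (S := Y.iv U i (g + 1))
      fun k => nD v (Lv.sub k) hv
    obtain ⟨N, k5, k6⟩ := exists_nbhd (G := G) v (Y.iv U i (g + 1))
    have k7 : N.card ≤ dG G v Z := le_dG fun b hb =>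
      ⟨(hZ b).2 ⟨((k6 b).1 hb).1, v, hv, ((k6 b).1 hb).2⟩, ((k6 b).1 hb).2⟩
    omega
  have two : ∀ z ∈ Z, 2 ≤ dG G z D + dG G z B := fun z hz => by
    by_contra k
    obtain ⟨hzP, v, hv, a⟩ := (hZ z).1 hz
    have hzL := Lv.sub hzP
    have k1 : ({v} : Finset V).card ≤ dG G z D := le_dG fun b hb => by
      rw [mem_singleton.1 hb]
      exact ⟨hv, a.symm⟩
    rw [card_singleton] at k1
    obtain ⟨p, hp⟩ : B.Nonempty := card_pos.1 (by omega)
    have k2 : ¬G.Adj z p := dG_eq_zero.1 (by omega) p hp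
    have k3 := mb2_avoid (G := G) (a := z) (b := p) (singleton_subset_iff.2 hzL)
      (fun c hc a1 a2 => O v hv z hzP c hc p hp a a1 a2.symm) (by simp)
      (by simpa using fun a2 => k2 (G.adj_symm a2))
    rw [card_singleton] at k3
    have k4 := hS0 z (Or.inl hzL)
    have k5 := hS0 p (Or.inr (Or.inr hp))
    have k6 := dG_add_dH_in (G := G) hzL
    have k7 := dG_add_dH_out (G := G) (a := p) (S := Y.iv U 0 (g + 1)) fun k => nB p k hp
    have k8 := dG_add_dH_out (G := G) (nD z hzL)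
    have k9 := dG_add_dH_out (G := G) (nB z hzL)
    omega
  have ind : ∀ z ∈ Z, ∀ z' ∈ Z, ¬G.Adj z z' := fun z hz z' hz' a' => by
    obtain ⟨hzP, v, hv, a⟩ := (hZ z).1 hz
    have hL := Lv.sub (hZP hz')
    have k1 : dG G z' B = 0 := dG_eq_zero.2 fun p hp => O v hv z hzP z' hL p hp a a'
    have k2 : dG G z' D ≤ 1 := ab_le_one fun y hy y' hy' a1 a2 =>
      (E v hv y hy z hzP z' hL a a' a1.symm).symm.trans (E v hv y' hy' z hzP z' hL a a' a2.symm)
    have := two z' hz'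
    omega
  have cZ := h.rs.ind (show i ≤ g + 1 by have := hi.le; omega) hZP ind
  obtain ⟨v0, hv0⟩ := hD
  obtain ⟨z0, hz0, a0⟩ := exists_adj (G := G) (a := v0) (S := Z) (by have := dZ v0 hv0; omega)
  have big : α + α' + Y.B i ≤ Y.B (g + 1) + 1 := by
    obtain ⟨z', hz', a'⟩ := hi.nbr h.rs (hZP hz0)
    have hL := Lv.sub hz'
    have k1 : dG G z' B = 0 := dG_eq_zero.2 fun p hp => O v0 hv0 z0 (hZP hz0) z' hL p hp a0 a'
    have k2 : dG G z' D = 0 := dG_eq_zero.2 fun y hy a1 =>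
      ind z0 hz0 z' ((hZ z').2 ⟨hz', y, hy, a1.symm⟩) a'
    have k3 := hS z' (Or.inl hz')
    have k4 := dG_add_dH_out (G := G) (nD z' hL)
    have k5 := dG_add_dH_out (G := G) (nB z' hL)
    omega
  have com : ∀ y ∈ D, ∀ y' ∈ D, ∀ w, ∃ z ∈ Z, z ≠ w ∧ G.Adj y z ∧ G.Adj y' z :=
    fun y hy y' hy' w => by
      have k : ∀ x, dG G x Z ≤ dG G x (Z.erase w) + 1 := fun x => by
        have k1 := dG_mono (G := G) (a := x) (show Z ⊆ Z.erase w ∪ {w} from fun b hb => by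
          by_cases e : b = w <;> simp [e, hb])
        have k2 := dG_le_card (G := G) x {w}
        rw [dG_union (by simp)] at k1
        rw [card_singleton] at k2
        omega
      have k1 := k y
      have k2 := k y'
      have k3 := dZ y hy
      have k4 := dZ y' hy'
      have k5 := card_erase_le (s := Z) (a := w)
      obtain ⟨z, k6, k7⟩ := exists_common (G := G) (a := y) (b := y') (S := Z.erase w) (by omega)
      exact ⟨z, mem_of_mem_erase k6, ne_of_mem_erase k6, k7⟩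
  have fin : dG G z0 B + D.card ≤ 2 → ∀ p ∈ B, (∀ z ∈ Z, ¬G.Adj p z) → False := fun k p hp k' => by
    have hL := Lv.sub (hZP hz0)
    have k1 := mb2_avoid (G := G) (a := z0) (b := p) hZP
      (fun c hc a1 a2 => O v0 hv0 z0 (hZP hz0) c (Lv.sub hc) p hp a0 a1 a2.symm) (ind z0 hz0) k'
    have k2 := hS z0 (Or.inl (hZP hz0))
    have k3 := hS p (Or.inr (Or.inr hp))
    have k4 := dG_add_dH_in (G := G) (hZP hz0)
    have k5 := dG_add_dH_out (G := G) (a := p) (S := Y.iv U i (g + 1)) fun k => nB p (Lv.sub k) hp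
    have k6 := dG_add_dH_out (G := G) (nB z0 hL)
    have k7 := dZ v0 hv0
    have k8 := dG_le_card (G := G) v0 Z
    omega
  have pL : ∀ {z z'}, z ∈ Z → z' ∈ Z → ({z, z'} : Finset V) ⊆ Y.iv U 0 (g + 1) := fun k k' =>
    insert_subset (Lv.sub (hZP k)) (singleton_subset_iff.2 (Lv.sub (hZP k')))
  have zD : ∀ {z v}, z ∈ Z → v ∈ D → z ≠ v := fun k k' e => nD _ (Lv.sub (hZP k)) (e ▸ k')
  have zB : ∀ {z p}, z ∈ Z → p ∈ B → z ≠ p := fun k k' e => nB _ (Lv.sub (hZP k)) (e ▸ k')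
  have vB : ∀ {v p}, v ∈ D → p ∈ B → v ≠ p := fun k k' e => nDB _ k (e ▸ k')
  by_cases n3 : 2 < D.card
  · obtain ⟨y1, y2, y3, m1, m2, m3, e1, e2, e3⟩ := two_lt_card_iff.1 n3
    obtain ⟨z, hz, -, a1, a2⟩ := com y1 m1 y2 m2 y1
    obtain ⟨z', hz', e, a3, a4⟩ := com y2 m2 y3 m3 z
    exact hn (mb1m h h2 hd (h3 n3.le) m1 m2 m3 e1 e2 e3 (Lv.sub (hZP hz)) (Lv.sub (hZP hz'))
      e.symm (h.leg2 hi (hZP hz) (Lv.sub (hZP hz')) e.symm) a1 a2 a3 a4)
  by_cases n2 : D.card = 2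
  · have k : ∀ p ∈ B, ∀ z ∈ Z, ¬G.Adj p z := fun p hp z hz a => by
      obtain ⟨-, v, hv, a1⟩ := (hZ z).1 hz
      obtain ⟨v', hv', e⟩ := exists_mem_ne (show 1 < D.card by omega) v
      have eD : D = {v', v} := (eq_of_subset_of_card_le
        (insert_subset hv' (singleton_subset_iff.2 hv)) (by rw [card_pair e, n2])).symm
      obtain ⟨z1, hz1, e1, a2, a3⟩ := com v' hv' v hv z
      have k1 := hd v' hv'
      refine hn (h.close (Z0 := {z1, z}) (K := {p}) (r := μ - 1)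
        ((mb2_hp5 a2 a3.symm a1 a.symm e (zD hz hv').symm (vB hv' hp) e1 (zB hz1 hp)
          (vB hv hp)).set fun x => by
            simp only [eD, mem_insert, mem_singleton, mem_union]; tauto)
        (pL hz1 hz) (singleton_subset_iff.2 hp) k1.1 (h.dfB hp (Subset.refl B)) (by omega)
        (Nat.zero_le _) (card_pair e1) (h.leg2 hi (hZP hz1) (Lv.sub (hZP hz)) e1)
        (by rw [card_singleton]; omega) (by omega) (fun _ => by omega) fun _ => Or.inr (by omega))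
    obtain ⟨p, hp⟩ : B.Nonempty := card_pos.1 (by omega)
    have k1 : dG G z0 B = 0 := dG_eq_zero.2 fun q hq a => k q hq z0 hz0 a.symm
    exact fin (by omega) p hp (k p hp)
  have n1 : D.card = 1 := by
    have := card_pos.2 ⟨v0, hv0⟩
    omega
  have eD : D = {v0} := (eq_of_subset_of_card_le (singleton_subset_iff.2 hv0)
    (by rw [card_singleton, n1])).symm
  have av : ∀ z ∈ Z, G.Adj v0 z := fun z hz => by
    obtain ⟨-, v, hv, a⟩ := (hZ z).1 hz
    rw [eD, mem_singleton] at hv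
    exact hv ▸ a
  have k : ∀ z1 ∈ Z, ∀ z2 ∈ Z, z1 ≠ z2 → ∀ p1 ∈ B, ∀ p2 ∈ B, G.Adj z1 p1 → G.Adj z2 p2 →
      p1 = p2 := fun z1 m1 z2 m2 e p1 m3 p2 m4 a1 a2 => by
    by_contra e'
    exact hn (h.both (Z0 := {z1, z2}) (K := {p1, p2}) (r := μ - 2)
      ((mb2_hp5 a1.symm (av z1 m1).symm (av z2 m2) a2 (vB hv0 m3).symm (zB m2 m3).symm e' e
        (zB m1 m4) (vB hv0 m4)).set fun x => by
          simp only [eD, mem_insert, mem_singleton, mem_union]; tauto)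
      (pL m1 m2) (insert_subset m3 (singleton_subset_iff.2 m4)) m3 m4 (card_pair e)
      (h.leg2 hi (hZP m1) (Lv.sub (hZP m2)) e) (by rw [card_pair e']; omega) (by omega))
  have ex : ∀ z ∈ Z, ∃ p ∈ B, G.Adj z p := fun z hz => exists_adj (by
    have := two z hz
    have := dG_le_card (G := G) z D
    omega)
  obtain ⟨z1, m1, e1, -⟩ := com v0 hv0 v0 hv0 z0
  obtain ⟨p0, m0, b0⟩ := ex z0 hz0
  obtain ⟨p1, m2, b1⟩ := ex z1 m1
  have only : ∀ z ∈ Z, ∀ p ∈ B, G.Adj z p → p = p0 := fun z hz p hp a => by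
    by_cases e : z = z0
    · exact (k z hz z1 m1 (e ▸ e1.symm) p hp p1 m2 a b1).trans
        (k z1 m1 z0 hz0 e1 p1 m2 p0 m0 b1 b0)
    · exact k z hz z0 hz0 e p hp p0 m0 a b0
  have k1 : dG G z0 B ≤ 1 := ab_le_one fun p hp q hq a1 a2 =>
    (only z0 hz0 p hp a1).trans (only z0 hz0 q hq a2).symm
  obtain ⟨p, hp, e⟩ := exists_mem_ne (show 1 < B.card by omega) p0
  exact fin (by omega) p hp fun z hz a => e (only z hz p hp a.symm)

end Pool.Agent.Lib.MP_af3016_co
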