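import Pool.Agent.Lib.MP_af3016_co.C.MidL

/-! Lower quota two: the class is empty. -/

set_option autoImplicit false
set_option linter.unusedSectionVars false

namespace Pool.Agent.Lib.MP_af3016_co

open Finset SimpleGraph

variable {V : Type} [DecidableEq V] {G : SimpleGraph V} {Y : Lay V} {U : Finset V}

variable {W D B : Finset V} {g α β α' β' σ μ : ℕ} {I J : Multiset ℕ}

/-- a path `p z z' p'` finishes -/
theorem mb3_edge (h : Mid G W Y U g ∅ B α β α' β' 2 μ I J) {i : ℕ} (hi : Lv Y U g i)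
    {p p' z z' : V} (hp : p ∈ B) (hp' : p' ∈ B) (hne : p ≠ p') (hz : z ∈ Y.iv U i (g + 1))
    (hz' : z' ∈ Y.iv U 0 (g + 1)) (a1 : G.Adj z p) (a2 : G.Adj z z') (a3 : G.Adj z' p') :
    Fin2 G Y U g ∅ B 2 μ := by
  have hc := h.cD
  have h5 := h.five
  rw [card_empty] at hc
  have d := Finset.disjoint_left.1 h.dB
  have n1 : p ≠ z' := fun e => d hp (e ▸ hz')
  have n2 : z ≠ p' := fun e => d hp' (e ▸ Lv.sub hz)
  have q : HP G p p' {p, z, z', p'} :=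
    ((ab_hp2 a3).cons a2 (by simp [a2.ne, n2])).cons a1.symm (by simp [a1.ne', n1, hne])
  refine h.both (Z0 := {z, z'}) (K := {p, p'}) (r := μ - 2)
    (q.set fun v => by simp only [mem_insert, mem_singleton, mem_union, notMem_empty]; tauto)
    (insert_subset (Lv.sub hz) (singleton_subset_iff.2 hz'))
    (insert_subset hp (singleton_subset_iff.2 hp')) hp hp' (card_pair a2.ne)
    (h.leg2 hi hz hz' a2.ne) (by rw [card_pair hne]; omega) (by omega)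

/-- a path `p1 z1 p2 z2 p3` finishes (closed up if the length is five) -/
theorem mb3_path (h : Mid G W Y U g ∅ B α β α' β' 2 μ I J) {i : ℕ} (hi : Lv Y U g i)
    {p1 p2 p3 z1 z2 : V} (h1 : p1 ∈ B) (h2 : p2 ∈ B) (h3 : p3 ∈ B) (n12 : p1 ≠ p2)
    (n13 : p1 ≠ p3) (n23 : p2 ≠ p3) (hz : z1 ∈ Y.iv U i (g + 1)) (hz' : z2 ∈ Y.iv U 0 (g + 1))
    (nz : z1 ≠ z2) (a1 : G.Adj z1 p1) (a2 : G.Adj z1 p2) (a3 : G.Adj z2 p2) (a4 : G.Adj z2 p3)
    (a5 : α + β = 5 → G.Adj p3 p1) : Fin2 G Y U g ∅ B 2 μ := by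
  have hc := h.cD
  have h5 := h.five
  rw [card_empty] at hc
  have d := Finset.disjoint_left.1 h.dB
  have n1 : p1 ≠ z2 := fun e => d h1 (e ▸ hz')
  have n2 : z1 ≠ p3 := fun e => d h3 (e ▸ Lv.sub hz)
  have q0 : HP G p1 p3 {p1, z1, p2, z2, p3} :=
    (((ab_hp2 a4).cons a3.symm (by simp [a3.ne', n23])).cons a2
      (by simp [a2.ne, nz, n2])).cons a1.symm (by simp [a1.ne', n1, n12, n13])
  have q : HP G p1 p3 (∅ ∪ {z1, z2} ∪ {p1, p2, p3}) := q0.set fun v => by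
    simp only [mem_insert, mem_singleton, mem_union, notMem_empty]; tauto
  have c3 : ({p1, p2, p3} : Finset V).card = 3 := card_eq_three.2 ⟨p1, p2, p3, n12, n13, n23, rfl⟩
  have s1 : ({z1, z2} : Finset V) ⊆ Y.iv U 0 (g + 1) :=
    insert_subset (Lv.sub hz) (singleton_subset_iff.2 hz')
  have s2 : ({p1, p2, p3} : Finset V) ⊆ B :=
    insert_subset h1 (insert_subset h2 (singleton_subset_iff.2 h3))
  by_cases e : α + β = 5
  · refine h.whole (q.cycle (a5 e) ?_) s1 s2 (card_pair nz) (h.leg2 hi hz hz' nz) (by omega)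
    exact c3.ge.trans (card_le_card subset_union_right)
  · exact h.both (r := μ - 3) q s1 s2 h1 h3 (card_pair nz) (h.leg2 hi hz hz' nz) (by omega)
      (by omega)

/-- double counting when the neighbours of `S` have at most two neighbours -/
theorem mb3_sum {S P Z : Finset V} (hZ : Z ⊆ P) (h0 : ∀ z ∈ P, z ∉ Z → dG G z S = 0)
    (h2 : ∀ z ∈ Z, dG G z S ≤ 2) {k : ℕ} (hk : ∀ p ∈ S, k ≤ dG G p P) :
    S.card * k ≤ Z.card * 2 := by
  have e1 := card_nsmul_le_sum S (fun p => dG G p P) k hk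
  have e2 := sum_le_card_nsmul Z (fun z => dG G z S) 2 h2
  rw [sum_dG_comm, ← sum_sdiff hZ,
    sum_eq_zero fun z hz => h0 z (mem_sdiff.1 hz).1 (mem_sdiff.1 hz).2, zero_add] at e1
  simp only [smul_eq_mul] at e1 e2
  exact e1.trans e2

theorem mb3_num {b z gg k : ℕ} (h1 : b * gg ≤ z * 2) (h2 : 2 * k + 6 ≤ b) (h3 : z ≤ gg + k + 2)
    (h4 : 2 ≤ gg) : False := by
  nlinarith [Nat.mul_le_mul_right gg h2]

/-- a vertex with a neighbour in the block has two -/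
theorem mb3_two {L : Finset V} {z : V} (hz : z ∈ L) (d : ∀ {p}, p ∈ B → p ∉ L) (h2 : 2 ≤ B.card)
    (k0 : 0 < dG G z B)
    (hs : ∀ p ∈ B, dH G z L + dH G z B + dH G p L + 2 ≤ L.card + B.card)
    (he : ∀ p ∈ B, ∀ p' ∈ B, p ≠ p' → ∀ z' ∈ L, G.Adj z p → G.Adj z z' → G.Adj z' p' → False) :
    2 ≤ dG G z B := by
  by_contra k
  obtain ⟨p0, hp0, a0⟩ := exists_adj k0
  obtain ⟨p, hp, hpp⟩ : ∃ p ∈ B, p ≠ p0 := exists_mem_ne (by omega) p0
  have na : ¬G.Adj z p := fun a => by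
    have := le_dG (G := G) (a := z) (S := B) (R := {p, p0}) fun b hb => by
      rcases mem_insert.1 hb with rfl | hb
      · exact ⟨hp, a⟩
      · rw [mem_singleton.1 hb]; exact ⟨hp0, a0⟩
    rw [card_pair hpp] at this
    omega
  have k1 := hs p hp
  have k3 := dG_add_dH_out (G := G) (a := z) (S := B) fun k => d k hz
  have k4 := dG_add_dH_out (G := G) (d hp)
  have k5 := dG_add_dH_in (G := G) hz
  have k6 := dG_erase_self (G := G) z L
  have k7 : dG G p L ≤ dG G p (L.erase z) := by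
    obtain ⟨N, h1, h2⟩ := exists_nbhd (G := G) p (L.erase z)
    rw [← h1]
    exact dG_le fun b hb a => (h2 b).2 ⟨mem_erase.2 ⟨fun e => na (e ▸ a.symm), hb⟩, a⟩
  have k8 := card_erase_of_mem hz
  obtain ⟨c, hc1, c1, c2⟩ := exists_common (G := G) (a := z) (b := p) (S := L.erase z) (by omega)
  exact he p0 hp0 p hp hpp.symm c (mem_of_mem_erase hc1) a0 c1 c2.symm

/-- the case of a five-cycle -/
theorem mb3_five {z1 z2 p2 : V} {η : ℕ} (hmax : ∀ p ∈ B, dH G p B ≤ η) (d1 : η + 2 ≤ dG G z1 B)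
    (d2 : η + 2 ≤ dG G z2 B) (hp2 : p2 ∈ B) (a2 : G.Adj z1 p2) (b2 : G.Adj z2 p2)
    (hc : ∀ p1 ∈ B, ∀ q ∈ B, ∀ p3 ∈ B, p1 ≠ q → p1 ≠ p3 → q ≠ p3 → G.Adj z1 p1 → G.Adj z1 q →
      G.Adj z2 q → G.Adj z2 p3 → ¬G.Adj p3 p1) : dG G z1 B ≤ 2 := by
  by_contra k
  obtain ⟨Q1, c1, m1⟩ := exists_nbhd (G := G) z1 B
  obtain ⟨Q2, c2, m2⟩ := exists_nbhd (G := G) z2 B
  have miss : ∀ q ∈ Q1, q ∈ Q2 → ∀ p3 ∈ Q2, p3 ≠ q → ∀ p1 ∈ Q1, p1 ≠ q → p1 ≠ p3 →
      ¬G.Adj p3 p1 := fun q hq hq' p3 h3 n3 p1 h1 n1 n13 =>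
    hc p1 ((m1 p1).1 h1).1 q ((m1 q).1 hq).1 p3 ((m2 p3).1 h3).1 n1 n13 n3.symm
      ((m1 p1).1 h1).2 ((m1 q).1 hq).2 ((m2 q).1 hq').2 ((m2 p3).1 h3).2
  have q1 : p2 ∈ Q1 := (m1 p2).2 ⟨hp2, a2⟩
  have q2 : p2 ∈ Q2 := (m2 p2).2 ⟨hp2, b2⟩
  have cnt : ∀ p3 ∈ Q2, p3 ≠ p2 → ((Q1.erase p2).erase p3).card ≤ η := fun p3 h3 n3 =>
    le_trans (le_dH fun b hb => ⟨((m1 b).1 (mem_of_mem_erase (mem_of_mem_erase hb))).1,
      ne_of_mem_erase hb, miss p2 q1 q2 p3 h3 n3 b (mem_of_mem_erase (mem_of_mem_erase hb))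
        (ne_of_mem_erase (mem_of_mem_erase hb)) (ne_of_mem_erase hb)⟩)
      (hmax p3 ((m2 p3).1 h3).1)
  have ce := card_erase_of_mem q1
  have sub : Q2 ⊆ Q1 := fun p3 h3 => by
    by_contra n
    have n3 : p3 ≠ p2 := fun e => n (e ▸ q1)
    have := cnt p3 h3 n3
    rw [erase_eq_of_notMem fun k => n (mem_of_mem_erase k)] at this
    omega
  obtain ⟨p3, h3, n3⟩ : ∃ p ∈ Q2, p ≠ p2 := exists_mem_ne (by omega) p2
  have k1 := cnt p3 h3 n3
  have k2 := pred_card_le_card_erase (s := Q1.erase p2) (a := p3)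
  have eq : Q2 = Q1 := eq_of_subset_of_card_le sub (by omega)
  subst eq
  have k3 := le_dH (G := G) (a := p2) (S := B) (R := Q2.erase p2) fun b hb => by
    refine ⟨((m1 b).1 (mem_of_mem_erase hb)).1, ne_of_mem_erase hb, ?_⟩
    obtain ⟨r, hr, nr⟩ : ∃ r ∈ Q2.erase p2, r ≠ b := exists_mem_ne (by omega) b
    exact miss r (mem_of_mem_erase hr) (mem_of_mem_erase hr) p2 q1 (ne_of_mem_erase hr).symm b
      (mem_of_mem_erase hb) nr.symm (ne_of_mem_erase hb)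
  have k4 := hmax p2 hp2
  omega

/-- the counting argument on abstract sets -/
theorem mb3_core {L P Q : Finset V} {A Bb Ai Bi : ℕ} (hPL : ∀ {z}, z ∈ P → z ∈ L)
    (hQL : ∀ {z}, z ∈ Q → z ∈ L) (dQ : ∀ {z}, z ∈ Q → z ∉ P) (d : ∀ {p}, p ∈ B → p ∉ L)
    (h5 : 5 ≤ α + β) (hcB : B.card + 2 = α' + β' + α + β) (hba : β ≤ α) (hab : α ≤ β + 1)
    (hu1 : α ≤ α') (hu2 : β ≤ β') (hJ : β' ≤ α') (htop : L.card = A + Bb + 2)
    (hsl : Q.card ≤ Ai + Bi + 1) (hleg : Ai + Bi ≤ Q.card) (hcard : Q.card + P.card = L.card)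
    (hAB : Bb + Ai ≤ A + Bi) (hABi : Bi ≤ Ai) (hBm : Bi ≤ Bb)
    (hiv : ∀ p, dH G p Q + dH G p P = dH G p L)
    (S0 : ∀ v, v ∈ L ∨ v ∈ B → dH G v L + dH G v B + 1 ≤ Bb + β + β')
    (Si : ∀ v, v ∈ P ∨ v ∈ B → dH G v P + dH G v B + 1 + Bi ≤ Bb + β + β')
    (ind : ∀ Z ⊆ P, (∀ a ∈ Z, ∀ b ∈ Z, ¬G.Adj a b) → Z.card + Bi ≤ Bb)
    (nbr : ∀ z ∈ P, ∃ z' ∈ P, G.Adj z z')
    (he : ∀ z ∈ P, ∀ p ∈ B, ∀ p' ∈ B, p ≠ p' → ∀ z' ∈ L, G.Adj z p → G.Adj z z' → G.Adj z' p' →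
      False)
    (hp : ∀ z1 ∈ P, ∀ z2 ∈ L, z1 ≠ z2 → ∀ p1 ∈ B, ∀ p2 ∈ B, ∀ p3 ∈ B, p1 ≠ p2 → p1 ≠ p3 →
      p2 ≠ p3 → G.Adj z1 p1 → G.Adj z1 p2 → G.Adj z2 p2 → G.Adj z2 p3 →
      (α + β = 5 → G.Adj p3 p1) → False) : False := by
  classical
  obtain ⟨Z, hZ⟩ : ∃ Z : Finset V, ∀ z, z ∈ Z ↔ z ∈ P ∧ 0 < dG G z B :=
    ⟨P.filter fun z => 0 < dG G z B, fun z => mem_filter⟩
  have hZP : Z ⊆ P := fun z hz => ((hZ z).1 hz).1
  have inZ : ∀ {z p}, z ∈ P → p ∈ B → G.Adj z p → z ∈ Z := fun {z p} hz hp a =>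
    (hZ z).2 ⟨hz, Nat.pos_of_ne_zero fun e => dG_eq_zero.1 e p hp a⟩
  have degP : ∀ p ∈ B, dG G p P + dH G p P = P.card := fun p hp =>
    dG_add_dH_out fun k => d hp (hPL k)
  have degL : ∀ p ∈ B, dG G p L + dH G p L = L.card := fun p hp => dG_add_dH_out (d hp)
  have degB : ∀ z ∈ L, dG G z B + dH G z B = B.card := fun z hz =>
    dG_add_dH_out fun k => d k hz
  obtain ⟨p00, hp00⟩ : B.Nonempty := card_pos.1 (by omega)
  have big : ∀ z ∈ P, dG G z B = 0 → α + α' + Bi ≤ Bb + 1 := fun z hz e => by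
    have := Si z (Or.inl hz)
    have := degB z (hPL hz)
    omega
  obtain ⟨z0, hz0⟩ : Z.Nonempty := by
    by_contra k
    rw [not_nonempty_iff_eq_empty] at k
    obtain ⟨z, hz⟩ : P.Nonempty := card_pos.1 (by omega)
    have k1 : dG G z B = 0 := by
      by_contra e
      have := (hZ z).2 ⟨hz, Nat.pos_of_ne_zero e⟩
      rw [k] at this
      exact notMem_empty _ this
    have := big z hz k1
    have := Si p00 (Or.inr hp00)
    have := degP p00 hp00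
    obtain ⟨y, hy, a⟩ := exists_adj (G := G) (a := p00) (S := P) (by omega)
    have := inZ hy hp00 a.symm
    rw [k] at this
    exact notMem_empty _ this
  have two : ∀ z ∈ Z, 2 ≤ dG G z B := fun z hz =>
    mb3_two (hPL (hZP hz)) d (by omega) ((hZ z).1 hz).2 (fun p hp => by
      have := S0 z (Or.inl (hPL (hZP hz)))
      have := S0 p (Or.inr hp)
      omega) (he z (hZP hz))
  have far : ∀ z ∈ Z, ∀ z' ∈ L, G.Adj z z' → ∀ p ∈ B, ¬G.Adj z' p := fun z hz z' hz' a p hp a' => by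
    obtain ⟨q, hq, c1, c2⟩ := exists_adj_notMem (G := G) (a := z) (S := B) (R := {p})
      (by have := two z hz; rw [card_singleton]; omega)
    exact he z (hZP hz) q hq p hp (by simpa using c2) z' hz' c1 a a'
  have hind : Z.card + Bi ≤ Bb :=
    ind Z hZP fun a ha b hb e => by
      obtain ⟨p, hp, c⟩ := exists_adj ((hZ b).1 hb).2
      exact far a ha b (hPL (hZP hb)) e p hp c
  have hbig : α + α' + Bi ≤ Bb + 1 := by
    obtain ⟨z', hz', a⟩ := nbr z0 (hZP hz0)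
    exact big z' hz' (dG_eq_zero.2 (far z0 hz0 z' (hPL hz') a))
  have outZ : ∀ S ⊆ B, ∀ z ∈ P, z ∉ Z → dG G z S = 0 := fun S hS z hz k =>
    dG_eq_zero.2 fun b hb a => k (inZ hz (hS hb) a)
  obtain ⟨gg, hgg⟩ : ∃ gg, gg + β + β' + Bb = P.card + 1 + Bi :=
    ⟨P.card + 1 + Bi - (β + β' + Bb), by omega⟩
  have low : ∀ p ∈ B, gg ≤ dG G p P := fun p hp => by
    have := Si p (Or.inr hp)
    have := degP p hp
    omega
  have count : 2 ≤ gg → (∀ z ∈ Z, dG G z B ≤ 2) → False := fun k1 k2 =>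
    mb3_num (k := β + β' - 4) (mb3_sum hZP (outZ B (Subset.refl B)) k2 low) (by omega) (by omega) k1
  by_cases e5 : α + β = 5
  · refine count (by omega) fun z1 hz1 => ?_
    obtain ⟨p0, hp0, hmax⟩ := exists_max_image B (fun p => dH G p B) ⟨p00, hp00⟩
    have deg : ∀ z ∈ Z, dH G p0 B + 2 ≤ dG G z B := fun z hz => by
      obtain ⟨N, h1, h2⟩ := exists_nbhd (G := G) p0 L
      have k1 := le_dH (G := G) (a := z) (S := L) (R := N.erase z) fun b hb =>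
        ⟨((h2 b).1 (mem_of_mem_erase hb)).1, ne_of_mem_erase hb, fun a =>
          far z hz b ((h2 b).1 (mem_of_mem_erase hb)).1 a p0 hp0
            ((h2 b).1 (mem_of_mem_erase hb)).2.symm⟩
      have k2 := pred_card_le_card_erase (s := N) (a := z)
      have k3 := S0 z (Or.inl (hPL (hZP hz)))
      have k4 := S0 p0 (Or.inr hp0)
      have k5 := degL p0 hp0
      have k6 := degB z (hPL (hZP hz))
      omega
    obtain ⟨p2, hp2, a2⟩ := exists_adj ((hZ z1).1 hz1).2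
    obtain ⟨z2, hz2, b2, n2⟩ := exists_adj_notMem (G := G) (a := p2) (S := P) (R := {z1})
      (by have := low p2 hp2; rw [card_singleton]; omega)
    have nz : z1 ≠ z2 := fun e => n2 (by simp [e])
    exact mb3_five hmax (deg z1 hz1) (deg z2 (inZ hz2 hp2 b2.symm)) hp2 a2 b2.symm
      fun p1 h1 q hq p3 h3 n1 n2 n3 a1 a2 a3 a4 a5 =>
        hp z1 (hZP hz1) z2 (hPL hz2) nz p1 h1 q hq p3 h3 n1 n2 n3 a1 a2 a3 a4 fun _ => a5
  have two' : ∀ a ∈ B, 2 ≤ dG G a P → ∀ z1 ∈ P, G.Adj z1 a → dG G z1 B ≤ 2 :=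
    fun a ha k1 z1 hz1 a1 => by
      by_contra k
      obtain ⟨z2, hz2, b2, n2⟩ := exists_adj_notMem (G := G) (a := a) (S := P) (R := {z1})
        (by rw [card_singleton]; omega)
      obtain ⟨p3, h3, b3, n3⟩ := exists_adj_notMem (G := G) (a := z2) (S := B) (R := {a})
        (by have := two z2 (inZ hz2 ha b2.symm); rw [card_singleton]; omega)
      obtain ⟨p1, h1, b1, n1⟩ := exists_adj_notMem (G := G) (a := z1) (S := B) (R := {a, p3})
        (by have := card_le_two (a := a) (b := p3); omega)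
      simp only [mem_insert, mem_singleton, not_or] at n1 n2 n3
      exact hp z1 hz1 z2 (hPL hz2) (Ne.symm n2) p1 h1 a ha p3 h3 n1.1 n1.2 (Ne.symm n3) b1 a1
        b2.symm b3 fun e => absurd e e5
  by_cases g2 : 2 ≤ gg
  · refine count g2 fun z hz => ?_
    obtain ⟨a, ha, a1⟩ := exists_adj ((hZ z).1 hz).2
    exact two' a ha (g2.trans (low a ha)) z (hZP hz) a1
  obtain ⟨B1, B2, m1, m2, k2⟩ : ∃ B1 B2 : Finset V, (∀ p ∈ B1, p ∈ B ∧ ¬2 ≤ dG G p P) ∧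
      (∀ p ∈ B2, p ∈ B ∧ 2 ≤ dG G p P) ∧ B2.card + B1.card = B.card :=
    ⟨B.filter fun p => ¬2 ≤ dG G p P, B.filter fun p => 2 ≤ dG G p P, fun p => mem_filter.1,
      fun p => mem_filter.1, card_filter_add_card_filter_not _⟩
  have s2 : B2 ⊆ B := fun p hp => (m2 p hp).1
  have k1 := mb3_sum (G := G) (S := B2) (k := 2) hZP (outZ _ s2) (fun z hz => by
      by_cases e : dG G z B2 = 0
      · omega
      · obtain ⟨a, ha, a1⟩ := exists_adj (Nat.pos_of_ne_zero e)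
        exact (dG_mono s2).trans (two' a (s2 ha) (m2 a ha).2 z (hZP hz) a1))
    fun p hp => (m2 p hp).2
  have degQ : ∀ p ∈ B1, Q.card ≤ dG G p Q + Bi := fun p hp => by
    obtain ⟨hp1, hp2⟩ := m1 p hp
    have := S0 p (Or.inr hp1)
    have := degP p hp1
    have := hiv p
    have := dG_add_dH_out (G := G) (a := p) (S := Q) fun k => d hp1 (hQL k)
    omega
  obtain ⟨p2, hp2⟩ : B1.Nonempty := card_pos.1 (by omega)
  have hp2B := (m1 p2 hp2).1
  obtain ⟨z1, hz1, a2⟩ := exists_adj (G := G) (a := p2) (S := P) (by have := low p2 hp2B; omega)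
  obtain ⟨p1, h1, b1, n1⟩ := exists_adj_notMem (G := G) (a := z1) (S := B) (R := {p2})
    (by have := two z1 (inZ hz1 hp2B a2.symm); rw [card_singleton]; omega)
  obtain ⟨p3, h3, n3⟩ : ∃ p ∈ B1, p ∉ ({p1, p2} : Finset V) :=
    exists_mem_notMem_of_card_lt_card (by have := card_le_two (a := p1) (b := p2); omega)
  obtain ⟨z2, hz2, c1, c2⟩ := exists_common (G := G) (a := p2) (b := p3) (S := Q) (by
    have := degQ p2 hp2
    have := degQ p3 h3
    omega)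
  simp only [mem_insert, mem_singleton, not_or] at n1 n3
  exact hp z1 hz1 z2 (hQL hz2) (fun e => dQ hz2 (e ▸ hz1)) p1 h1 p2 hp2B p3 (m1 p3 h3).1 n1
    (Ne.symm n3.1) (Ne.symm n3.2) b1 a2.symm c1.symm c2.symm fun e => absurd e e5

theorem mb3 (h : Mid G W Y U g ∅ B α β α' β' 2 μ I J) : Fin2 G Y U g ∅ B 2 μ := by
  by_contra hF
  obtain ⟨i, hi⟩ := h.lv
  have hc := h.cD
  rw [card_empty] at hc
  have hcB := h.cB
  have hil : i ≤ g + 1 := hi.le.trans (Nat.le_succ g)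
  have hABi := h.rs.AB (Nat.zero_le i) hil
  rw [Y.A_zero, Y.B_zero] at hABi
  have e0 : ∀ v, dH G v (∅ : Finset V) = 0 := fun v => by
    have := dH_le_card (G := G) v (∅ : Finset V)
    rw [card_empty] at this
    omega
  refine mb3_core (G := G) (B := B) (L := Y.iv U 0 (g + 1)) (P := Y.iv U i (g + 1))
    (Q := Y.iv U 0 i) (fun hz => Lv.sub hz)
    (fun hz => Lay.iv_mono (Subset.refl U) le_rfl hil hz)
    (fun hz => Finset.disjoint_left.1 (Y.iv_disj U 0 i (g + 1)) hz)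
    (fun hp => Finset.disjoint_left.1 h.dB hp) h.five (by omega) h.ba h.ab h.up.1 h.up.2 h.sJ.le
    h.rs.top hi.sl (h.rs.leg i hil) (Y.card_iv U (Nat.zero_le i) hil) (h.rs.AB hil le_rfl)
    (by omega) (Y.B_mono hil) (fun p => Y.dH_iv U p (Nat.zero_le i) hil) (fun v hv => ?_)
    (fun v hv => ?_) (fun Z hZ k => h.rs.ind hil hZ k) (fun z hz => hi.nbr h.rs hz)
    (fun z hz p hp p' hp' n z' hz' a1 a2 a3 => hF (mb3_edge h hi hp hp' n hz hz' a1 a2 a3))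
    fun z1 hz1 z2 hz2 nz p1 h1 p2 h2 p3 h3 n1 n2 n3 a1 a2 a3 a4 a5 =>
      hF (mb3_path h hi h1 h2 h3 n1 n2 n3 hz1 hz2 nz a1 a2 a3 a4 a5)
  · have := h.suf 0 (Nat.zero_le _) v (hv.imp id Or.inr)
    rw [e0, Y.B_zero] at this
    omega
  · have := h.suf i hil v (hv.imp id Or.inr)
    rw [e0] at this
    omega

end Pool.Agent.Lib.MP_af3016_co
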