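import Pool.Agent.Lib.MP_af3016_co.C.Fill1
import Pool.Agent.Lib.MP_af3016_co.C.Greedy
import Pool.Agent.Lib.MP_af3016_co.F.Cliq
import Pool.Agent.Lib.MP_af3016_co.F.Final

/-! Common facts for the class between the two reservoirs. -/

set_option autoImplicit false
set_option linter.unusedSectionVars false

namespace Pool.Agent.Lib.MP_af3016_co

open Finset SimpleGraph

variable {V : Type} [DecidableEq V] {G : SimpleGraph V} {Y : Lay V} {U : Finset V}

variable {W D B : Finset V} {g α β α' β' σ μ : ℕ} {I J : Multiset ℕ}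

theorem Mid.ord (h : Mid G W Y U g D B α β α' β' σ μ I J) : Y.Ord (g + 1) := h.stk.ord

theorem Mid.sg (h : Mid G W Y U g D B α β α' β' σ μ I J) : 1 ≤ σ := by
  have := h.pos (g + 1) (by omega) le_rfl
  have := h.rs.top
  omega

theorem Mid.rsB (h : Mid G W Y U g D B α β α' β' σ μ I J) : Rs G (flat V α' β') B 1 μ :=
  flat_rs h.sJ.le h.sJ.one h.cB h.hapB

/-- all layers are at least as long as the class -/
theorem Mid.low (h : Mid G W Y U g D B α β α' β' σ μ I J) :
    ∀ l ≤ g, α ≤ Y.a l ∧ β ≤ Y.b l := by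
  have key : ∀ k l, l + k = g → α ≤ Y.a l ∧ β ≤ Y.b l := by
    intro k
    induction k with
    | zero =>
      intro l e
      obtain rfl : l = g := by omega
      exact h.lo
    | succ k ih =>
      intro l e
      have h1 := ih (l + 1) (by omega)
      have h2 := h.stk.dec l (by omega)
      omega
  exact fun l hl => key (g - l) l (by omega)

/-- the defects on both sides -/
theorem Mid.defects (h : Mid G W Y U g D B α β α' β' σ μ I J) :
    ∃ al be : V → ℕ, ∀ v ∈ D, Df G (flat V α' β') B 1 v (al v) ∧ Df G Y U (g + 1) v (be v) ∧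
      1 ≤ al v ∧ 1 ≤ be v ∧ al v + dH G v D ≤ β ∧ be v + dH G v D ≤ β ∧
      al v + be v + dH G v D ≤ β + 1 := by
  classical
  have key : ∀ v ∈ D, ∃ p : ℕ × ℕ, Df G (flat V α' β') B 1 v p.1 ∧ Df G Y U (g + 1) v p.2 ∧
      1 ≤ p.1 ∧ 1 ≤ p.2 ∧ p.1 + dH G v D ≤ β ∧ p.2 + dH G v D ≤ β ∧
      p.1 + p.2 + dH G v D ≤ β + 1 := by
    intro v hv
    have h1 := h.hapD v hv
    have h2 := h.suf (g + 1) le_rfl v (Or.inr (Or.inl hv))
    have ex : ∃ e, 1 ≤ e ∧ Df G Y U (g + 1) v e := ⟨β - dH G v D, by omega, h.df v hv⟩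
    have h3 := Nat.find_spec ex
    have h4 : Nat.find ex ≤ β - dH G v D := Nat.find_min' ex ⟨by omega, h.df v hv⟩
    refine ⟨(max 1 (dH G v B + 1 - β'), Nat.find ex), flat_df.2 (by omega), h3.2, by omega, h3.1,
      by omega, by omega, ?_⟩
    by_cases e : Nat.find ex = 1
    · omega
    · have h5 := Nat.find_min ex (m := Nat.find ex - 1) (by omega)
      have h6 : ¬Df G Y U (g + 1) v (Nat.find ex - 1) := fun k => h5 ⟨by omega, k⟩
      generalize Nat.find ex = n at *
      unfold Df at h6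
      push Not at h6
      obtain ⟨t, ht, h7⟩ := h6
      have h8 := h.suf t ht.le v (Or.inr (Or.inl hv))
      omega
  choose! p hp using key
  exact ⟨fun v => (p v).1, fun v => (p v).2, hp⟩

/-- the form with an arbitrary rest on the upper side -/
theorem Mid.fin' (h : Mid G W Y U g D B α β α' β' σ μ I J) {Z C R : Finset V}
    (hZ : Rs G Y (U \ Z) (g + 1) 0) (hZ' : Z ⊆ Y.iv U 0 (g + 1)) (hC : HC G C)
    (hc : C.card = α + β) (hR : Hap G R β') (hd : Disjoint C R)
    (hm : ∀ v, v ∈ C ∨ v ∈ R ↔ v ∈ Z ∨ v ∈ D ∨ v ∈ B) :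
    Til G W ((α + β) ::ₘ (Y.lst I g + J)) := by
  have e1 := Y.iv_sdiff U Z 0 (g + 1)
  have c1 := card_sdiff_add_card_eq_card hZ'
  have c2 := hZ.top
  have c3 := h.rs.top
  rw [e1] at c2
  have d1 : Disjoint Z D := (h.dD.mono_right hZ').symm
  have d2 : Disjoint (Z ∪ D) B := disjoint_union_left.2 ⟨(h.dB.mono_right hZ').symm, h.dDB⟩
  have e2 : C ∪ R = Z ∪ D ∪ B := by
    ext v
    simp only [mem_union]
    rw [hm, or_assoc]
  have c4 := congrArg card e2
  rw [card_union_of_disjoint hd, card_union_of_disjoint d2, card_union_of_disjoint d1] at c4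
  have c5 := h.cD
  have c6 := h.cB
  have hS : ∀ v, v ∈ Y.iv (U \ Z) 0 (g + 1) → ¬(v ∈ C ∨ v ∈ R) := by
    intro v hv k
    rw [e1, mem_sdiff] at hv
    rcases (hm v).1 k with k | k | k
    · exact hv.2 k
    · exact Finset.disjoint_left.1 h.dD k hv.1
    · exact Finset.disjoint_left.1 h.dB k hv.1
  have hW : ∀ v, v ∈ C ∨ v ∈ R → v ∈ W := fun v k =>
    (h.mem v).2 (((hm v).1 k).imp_left fun k' => hZ' k')
  refine Til.three hC hc (descend h.stk (sdiff_subset.trans h.sub) hZ)
    (h.sJ.orc R (fun v hv => hW v (Or.inr hv)) (by omega) hR)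
    (Finset.disjoint_left.2 fun v hv k => hS v hv (Or.inr k))
    (Finset.disjoint_left.2 fun v k hv => hS v hv (Or.inl k)) hd fun v => ?_
  have k1 := hm v
  have k2 := @hZ' v
  rw [h.mem, e1, mem_sdiff]
  tauto

theorem Mid.fin (h : Mid G W Y U g D B α β α' β' σ μ I J) (k : Fin2 G Y U g D B σ μ) :
    Til G W ((α + β) ::ₘ (Y.lst I g + J)) := by
  obtain ⟨Z, Z', h1, h2, h3, h4, h5, h6⟩ := k
  have d1 : Disjoint D Z := h.dD.mono_right h1
  have d2 : Disjoint (D ∪ Z) B := disjoint_union_left.2 ⟨h.dDB, (h.dB.mono_right h1).symm⟩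
  refine h.fin' (R := B \ Z') h6 h1 h5 ?_ (h.hapB.mono sdiff_subset)
    (disjoint_union_left.2 ⟨d2.mono_right sdiff_subset, disjoint_sdiff⟩) fun v => ?_
  · rw [card_union_of_disjoint (d2.mono_right h2), card_union_of_disjoint d1, h3, h4, h.cD]
  · have := @h2 v
    simp only [mem_union, mem_sdiff]
    tauto

theorem mid0_sum {I : Multiset ℕ} (hI : I.sum = Y.a 0 + Y.b 0) (m : ℕ) :
    (Y.lst I m).sum = Y.A (m + 1) + Y.B (m + 1) := by
  induction m with
  | zero => simp [Lay.lst, Lay.A, Lay.B, hI]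
  | succ m ih =>
    unfold Lay.lst at ih ⊢
    rw [sum_range_succ, ← add_assoc, Multiset.sum_add, ih, Multiset.sum_singleton,
      Y.A_succ (m + 1), Y.B_succ (m + 1)]
    omega

theorem mid0_mem {I : Multiset ℕ} {m x : ℕ} (hx : x ∈ Y.lst I m) :
    x ∈ I ∨ ∃ l < m, x = Y.a (l + 1) + Y.b (l + 1) := by
  unfold Lay.lst at hx
  rcases Multiset.mem_add.1 hx with k | k
  · exact Or.inl k
  · obtain ⟨l, hl, k⟩ := Multiset.mem_sum.1 k
    exact Or.inr ⟨l, mem_range.1 hl, Multiset.mem_singleton.1 k⟩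

theorem Mid.prism (h : Mid G W Y U g D B α β α' β' σ μ I J) {R P : Finset V} (hd : Disjoint R P)
    (hW : R ∪ P = W) (hP : Pr G R P) (e1 : Y.A (g + 1) = Y.B (g + 1)) (e2 : α = β)
    (e3 : α' = β') : Til G W ((α + β) ::ₘ (Y.lst I g + J)) := by
  have hab : ∀ l ≤ g, Y.a l = Y.b l := fun l hl => by
    have k1 := h.rs.AB (Nat.zero_le l) (by omega)
    have k2 := h.rs.AB (t := l + 1) (g := g + 1) (by omega) le_rfl
    have k3 := h.rs.ba l (by omega)
    rw [Y.A_zero, Y.B_zero] at k1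
    rw [Y.A_succ l, Y.B_succ l] at k2
    omega
  have h5 := h.five
  rw [← hW]
  refine til_prism (fun x hx => ?_) (fun x hx => ?_) hd hP ?_
  · rcases Multiset.mem_cons.1 hx with rfl | hx
    · omega
    rcases Multiset.mem_add.1 hx with hx | hx
    · rcases mid0_mem hx with k | ⟨l, hl, rfl⟩
      · exact h.stk.sq.three x k
      · exact (h.stk.len l hl).2.2
    · exact h.sJ.three x hx
  · rcases Multiset.mem_cons.1 hx with rfl | hx
    · omega
    rcases Multiset.mem_add.1 hx with hx | hx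
    · rcases mid0_mem hx with k | ⟨l, hl, rfl⟩
      · exact h.stk.sq.even (hab 0 (Nat.zero_le g)) x k
      · have := hab (l + 1) hl
        omega
    · exact h.sJ.even e3 x hx
  · have d2 : Disjoint (Y.iv U 0 (g + 1) ∪ D) B := disjoint_union_left.2 ⟨h.dB.symm, h.dDB⟩
    have e : R ∪ P = Y.iv U 0 (g + 1) ∪ D ∪ B := by
      ext v
      rw [hW, h.mem, mem_union, mem_union, or_assoc]
    have c := congrArg card e
    rw [card_union_of_disjoint hd, card_union_of_disjoint d2,
      card_union_of_disjoint h.dD.symm] at c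
    have c3 := h.rs.top
    have c5 := h.cD
    have c6 := h.cB
    rw [Multiset.sum_cons, Multiset.sum_add, mid0_sum h.stk.sq.sum, h.sJ.sum]
    omega

end Pool.Agent.Lib.MP_af3016_co
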