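import Pool.Agent.Lib.MP_af3016_co.C.MA1
import Pool.Agent.Lib.MP_af3016_co.C.MA2a
import Pool.Agent.Lib.MP_af3016_co.C.MA2b
import Pool.Agent.Lib.MP_af3016_co.C.MA2c

/-! Lower quota one, upper quota at least three. -/

set_option autoImplicit false
set_option linter.unusedSectionVars false

namespace Pool.Agent.Lib.MP_af3016_co

open Finset SimpleGraph

variable {V : Type} [DecidableEq V] {G : SimpleGraph V} {Y : Lay V} {U : Finset V}

variable {W D B : Finset V} {g α β α' β' σ μ : ℕ} {I J : Multiset ℕ}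

theorem mid_a (h : Mid G W Y U g D B α β α' β' 1 μ I J) (h2 : 3 ≤ μ) :
    Til G W ((α + β) ::ₘ (Y.lst I g + J)) := by
  rcases D.eq_empty_or_nonempty with rfl | hD
  · exact ma2c h
  refine h.fin ?_
  by_cases k : ∃ z ∈ Y.iv U 0 (g + 1), 2 ≤ dG G z D
  · obtain ⟨z, k1, k2⟩ := k
    exact ma1 h h2 k1 k2
  have h1 : ∀ z ∈ Y.iv U 0 (g + 1), dG G z D ≤ 1 := fun z hz => by
    by_contra e
    exact k ⟨z, hz, by omega⟩
  by_cases h0 : ∀ v ∈ D, ∀ z ∈ Y.iv U 0 (g + 1), ∀ p ∈ B, G.Adj v z → ¬G.Adj z p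
  · exact ma2b h h2 h1 hD h0
  push Not at h0
  obtain ⟨v, hv, z, hz, p, hp, k1, k2⟩ := h0
  exact ma2a h h2 h1 hv hz hp k1 k2

end Pool.Agent.Lib.MP_af3016_co
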