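import Pool.Agent.Lib.MP_af3016_co.C.MB2
import Pool.Agent.Lib.MP_af3016_co.C.MB3

/-! Lower quota two, upper quota at least three. -/

set_option autoImplicit false
set_option linter.unusedSectionVars false

namespace Pool.Agent.Lib.MP_af3016_co

open Finset SimpleGraph

variable {V : Type} [DecidableEq V] {G : SimpleGraph V} {Y : Lay V} {U : Finset V}

variable {W D B : Finset V} {g α β α' β' σ μ : ℕ} {I J : Multiset ℕ}

theorem mid_b (h : Mid G W Y U g D B α β α' β' 2 μ I J) (h2 : 3 ≤ μ) :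
    Til G W ((α + β) ::ₘ (Y.lst I g + J)) := by
  refine h.fin ?_
  rcases D.eq_empty_or_nonempty with rfl | hD
  · exact mb3 h
  obtain ⟨al, be, hd⟩ := h.defects
  by_cases h3 : 2 ≤ D.card → ∀ v ∈ D, 3 ≤ be v
  · exact mb2 h h2 hd h3 hD
  push Not at h3
  obtain ⟨k1, v, k2, k3⟩ := h3
  exact mb1a h h2 hd k1 k2 (by omega)

end Pool.Agent.Lib.MP_af3016_co
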