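import Pool.Agent.Lib.MP_af3016_co.C.Two2

/-! Both quotas are at least three, at most one vertex in the class. -/

set_option autoImplicit false
set_option linter.unusedSectionVars false

namespace Pool.Agent.Lib.MP_af3016_co

open Finset SimpleGraph

variable {V : Type} [DecidableEq V] {G : SimpleGraph V} {Y : Lay V} {U : Finset V}

variable {W D B : Finset V} {g α β α' β' σ μ : ℕ} {I J : Multiset ℕ}

theorem mc_zero (h : Mid G W Y U g ∅ B α β α' β' σ μ I J) (h1 : 3 ≤ σ) (h2 : 3 ≤ μ) :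
    Fin2 G Y U g ∅ B σ μ := by
  obtain ⟨j, P⟩ := exists_port h.rs (by omega)
  have sA : Y.iv U j (g + 1) ⊆ Y.iv U 0 (g + 1) := Lay.iv_mono (Subset.refl U) (Nat.zero_le j) le_rfl
  have ne : ∀ z ∈ Y.iv U j (g + 1), ∀ p ∈ B, z ≠ p := fun z hz p hp e =>
    Finset.disjoint_left.1 h.dB hp (e ▸ sA hz)
  have cB := h.cB
  have two : ∀ p ∈ B, ∃ p' ∈ B, p' ≠ p := fun p _ => exists_mem_ne (by omega) p
  have sub : ∀ {z z' : V}, z ∈ Y.iv U j (g + 1) → z' ∈ Y.iv U j (g + 1) →
      ({z, z'} : Finset V) ⊆ Y.iv U j (g + 1) := fun hz hz' =>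
    insert_subset hz (singleton_subset_iff.2 hz')
  have subB : ∀ {z z' : V}, z ∈ B → z' ∈ B → ({z, z'} : Finset V) ⊆ B := fun hz hz' =>
    insert_subset hz (singleton_subset_iff.2 hz')
  have four : ∀ z ∈ Y.iv U j (g + 1), ∀ z' ∈ Y.iv U j (g + 1), ∀ p ∈ B, ∀ p' ∈ B, z ≠ z' →
      p ≠ p' → CS G (∅ ∪ {z, z'} ∪ {p, p'}) (s(z, p) ::ₘ s(z', p') ::ₘ s(z, z') ::ₘ {s(p, p')}) := by
    intro z hz z' hz' p hp p' hp' e1 e2
    have a1 := ((cs_single G z).ins (z := p) (by simp [(ne z hz p hp).symm])).ins (z := z')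
      (by simp [e1.symm, ne z' hz' p hp])
    have a2 := a1.swap.flip.ins (z := p') (by
      simp [e2.symm, (ne z hz p' hp').symm, (ne z' hz' p' hp').symm])
    have e : s(z', p') ::ₘ s(p, p') ::ₘ s(z, z') ::ₘ s(z, p) ::ₘ (0 : Multiset (Sym2 V)) =
        s(z, p) ::ₘ s(z', p') ::ₘ s(z, z') ::ₘ {s(p, p')} := by
      simp only [← Multiset.singleton_add]
      abel
    exact (e ▸ a2).set fun v => by simp only [mem_insert, mem_singleton, mem_union, notMem_empty]; tauto
  by_cases m2 : ∃ z ∈ Y.iv U j (g + 1), ∃ z' ∈ Y.iv U j (g + 1), ∃ p ∈ B, ∃ p' ∈ B, z ≠ z' ∧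
      p ≠ p' ∧ G.Adj z p ∧ G.Adj z' p'
  · obtain ⟨z, hz, z', hz', p, hp, p', hp', e1, e2, a1, a2⟩ := m2
    obtain ⟨r, rfl⟩ : ∃ r, σ = 2 + r := ⟨σ - 2, by omega⟩
    exact h.two (gs := {s(z, z')}) (s := r) (u := μ - 2) ((sub hz hz').trans sA) (subB hp hp')
      (((four z hz z' hz' p hp p' hp' e1 e2).edge a1).edge a2) (by rw [card_pair e1])
      (by rw [card_pair e2]; omega)
      (P.fb h.rs h.ord sdiff_subset (P.legal (Subset.refl U) h.rs (sub hz hz') (card_pair e1)) hz hz'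
        fun e => by omega)
      (h.fbB (subB hp hp') (by rw [card_pair e2]; omega) hp hp' fun e => by omega)
  by_cases m1 : ∃ z ∈ Y.iv U j (g + 1), ∃ p ∈ B, G.Adj z p
  · obtain ⟨z, hz, p, hp, a⟩ := m1
    obtain ⟨z', hz', a'⟩ := P.nbr h.rs hz
    obtain ⟨p', hp', e2⟩ := two p hp
    obtain ⟨r, rfl⟩ : ∃ r, σ = 2 + (1 + r) := ⟨σ - 3, by omega⟩
    have hR := P.legal (Subset.refl U) h.rs (sub hz hz') (card_pair a'.ne)
    have hc : dG G z' B + dG G p' (Y.iv U j (g + 1)) ≤ 1 := by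
      have k1 : ∀ q ∈ B, G.Adj z' q → q ∈ ({p} : Finset V) := fun q hq k => by
        by_contra k'
        exact m2 ⟨z, hz, z', hz', p, hp, q, hq, a'.ne, fun e => k' (by simp [e]), a, k⟩
      have k2 : ∀ y ∈ Y.iv U j (g + 1), G.Adj p' y → y ∈ ({z} : Finset V) := fun y hy k => by
        by_contra k'
        exact m2 ⟨z, hz, y, hy, p, hp, p', hp', fun e => k' (by simp [e]), e2.symm, a, k.symm⟩
      have k3 := dG_le k1
      have k4 := dG_le k2
      rw [card_singleton] at k3 k4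
      by_contra k
      obtain ⟨q, hq, b1⟩ := exists_adj (G := G) (a := z') (S := B) (by omega)
      obtain ⟨y, hy, b2⟩ := exists_adj (G := G) (a := p') (S := Y.iv U j (g + 1)) (by omega)
      rw [mem_singleton.1 (k1 q hq b1)] at b1
      rw [mem_singleton.1 (k2 y hy b2)] at b2
      exact m2 ⟨z', hz', z, hz, p, hp, p', hp', a'.ne.symm, e2.symm, b1, b2.symm⟩
    exact h.two (gs := s(z', p') ::ₘ {s(z, z')}) (s := 1 + r) (u := μ - 2) ((sub hz hz').trans sA)
      (subB hp hp') ((four z hz z' hz' p hp p' hp' a'.ne e2.symm).edge a) (by rw [card_pair a'.ne])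
      (by rw [card_pair e2.symm]; omega)
      (Fb.cons (fun _ _ => h.low_zp (k := 0) P (sub hz hz') (Subset.refl _) hR
        (by rw [card_pair a'.ne]; omega) hz' hp' (by rw [card_empty]; omega))
        fun U' k1 k2 => P.fb h.rs h.ord (k1.trans sdiff_subset) k2 hz hz' fun _ => a')
      (h.fbB (subB hp hp') (by rw [card_pair e2.symm]; omega) hp hp' fun e => by omega)
  push Not at m1
  have z1 : ∀ z ∈ Y.iv U j (g + 1), dG G z B = 0 := fun z hz => dG_eq_zero.2 (m1 z hz)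
  have z2 : ∀ p ∈ B, dG G p (Y.iv U j (g + 1)) = 0 := fun p hp =>
    dG_eq_zero.2 fun z hz k => m1 z hz p hp k.symm
  obtain ⟨z, hz⟩ : (Y.iv U j (g + 1)).Nonempty := card_pos.1 (by have := h.port_three P; omega)
  obtain ⟨p, hp⟩ : B.Nonempty := card_pos.1 (by omega)
  obtain ⟨p', hp', e2⟩ := two p hp
  have := z2 p hp
  have := z2 p' hp'
  have := z1 z hz
  by_cases e3 : σ = 3
  · obtain rfl : σ = 1 + (1 + (1 + 0)) := e3
    have s1 : ({z} : Finset V) ⊆ Y.iv U j (g + 1) := singleton_subset_iff.2 hz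
    have hR := P.legal (Subset.refl U) h.rs s1 (card_singleton z)
    have a1 := ((cs_single G z).ins (z := p) (by simp [(ne z hz p hp).symm])).ins (z := p')
      (by simp [e2, (ne z hz p' hp').symm])
    exact h.two (gs := s(z, p') ::ₘ s(z, p) ::ₘ 0) (gs' := {s(p, p')}) (s := 1 + (1 + 0))
      (u := μ - 2) (s1.trans sA) (subB hp hp') (by
        have e : s(z, p') ::ₘ s(p, p') ::ₘ s(z, p) ::ₘ (0 : Multiset (Sym2 V)) =
            s(z, p') ::ₘ s(z, p) ::ₘ 0 + {s(p, p')} := by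
          simp only [← Multiset.singleton_add]
          abel
        exact (e ▸ a1).set fun v => by
          simp only [mem_insert, mem_singleton, mem_union, notMem_empty]; tauto)
      (by rw [card_singleton]) (by rw [card_pair e2.symm]; omega)
      (Fb.cons (fun _ _ => h.low_zp (k := 0) P s1 (Subset.refl _) hR (by rw [card_singleton]) hz hp'
        (by rw [card_empty]; omega)) fun U' k1 k2 => Fb.cons (fun _ _ => h.low_zp (k := 1) P s1 k1 k2
          (by rw [card_singleton]) hz hp (by rw [card_empty]; omega)) fun _ _ k => Fb.zero k)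
      (h.fbB (subB hp hp') (by rw [card_pair e2.symm]; omega) hp hp' fun e => by omega)
  obtain ⟨z', hz', a'⟩ := P.nbr h.rs hz
  have := z1 z' hz'
  obtain ⟨r, rfl⟩ : ∃ r, σ = 2 + (1 + (1 + r)) := ⟨σ - 4, by omega⟩
  have hR := P.legal (Subset.refl U) h.rs (sub hz hz') (card_pair a'.ne)
  exact h.two (gs := s(z, p) ::ₘ s(z', p') ::ₘ {s(z, z')}) (s := 1 + (1 + r)) (u := μ - 2)
    ((sub hz hz').trans sA) (subB hp hp') (four z hz z' hz' p hp p' hp' a'.ne e2.symm)
    (by rw [card_pair a'.ne]) (by rw [card_pair e2.symm]; omega)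
    (Fb.cons (fun _ _ => h.low_zp (k := 0) P (sub hz hz') (Subset.refl _) hR
      (by rw [card_pair a'.ne]; omega) hz hp (by rw [card_empty]; omega))
      fun U' k1 k2 => Fb.cons (fun _ _ => h.low_zp (k := 1) P (sub hz hz') k1 k2
        (by rw [card_pair a'.ne]; omega) hz' hp' (by rw [card_empty]; omega))
        fun U'' l1 l2 => P.fb h.rs h.ord (l1.trans (k1.trans sdiff_subset)) l2 hz hz' fun _ => a')
    (h.fbB (subB hp hp') (by rw [card_pair e2.symm]; omega) hp hp' fun e => by omega)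

theorem mc_one {v : V} (h : Mid G W Y U g {v} B α β α' β' σ μ I J) (h1 : 3 ≤ σ) (h2 : 3 ≤ μ) :
    Fin2 G Y U g {v} B σ μ := by
  obtain ⟨j, P⟩ := exists_port h.rs (by omega)
  have sA : Y.iv U j (g + 1) ⊆ Y.iv U 0 (g + 1) := Lay.iv_mono (Subset.refl U) (Nat.zero_le j) le_rfl
  have ne : ∀ z ∈ Y.iv U j (g + 1), ∀ p ∈ B, z ≠ p := fun z hz p hp e =>
    Finset.disjoint_left.1 h.dB hp (e ▸ sA hz)
  have hv := mem_singleton_self v
  have n1 : ∀ z ∈ Y.iv U j (g + 1), z ≠ v := fun z hz e =>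
    Finset.disjoint_left.1 h.dD hv (e ▸ sA hz)
  have n2 : ∀ p ∈ B, p ≠ v := fun p hp e => Finset.disjoint_left.1 h.dDB hv (e ▸ hp)
  have cB := h.cB
  obtain ⟨al, be, hd⟩ := h.defects
  obtain ⟨d1, d2, d3, d4, d5, d6, -⟩ := hd v hv
  have lo := h.lo
  have up := h.up
  have ba := h.ba
  have p3 := h.port_three P
  have three : ∀ z ∈ Y.iv U j (g + 1), ∀ p ∈ B,
      CS G ({v} ∪ {z} ∪ {p}) (s(z, p) ::ₘ s(v, z) ::ₘ {s(v, p)}) := by
    intro z hz p hp
    have a1 := ((cs_single G v).ins (z := z) (by simp [n1 z hz])).ins (z := p)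
      (by simp [n2 p hp, (ne z hz p hp).symm])
    have e : s(v, p) ::ₘ s(z, p) ::ₘ s(v, z) ::ₘ (0 : Multiset (Sym2 V)) =
        s(z, p) ::ₘ s(v, z) ::ₘ {s(v, p)} := by
      simp only [← Multiset.singleton_add]
      abel
    exact (e ▸ a1).set fun v => by simp only [mem_insert, mem_singleton, mem_union]; tauto
  have fvz : ∀ z ∈ Y.iv U j (g + 1), ∀ U' r, U' ⊆ U → Rs G Y U' (g + 1) r → 2 ≤ r →
      Fb G Y U' (g + 1) r {s(v, z)} := fun z hz U' r k1 k2 k3 =>
    Fb.all k2 h.ord (by omega) (d2.sub k1) ((P.df h.rs hz).sub k1) (by omega) (by omega)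
      (fun e => by omega) fun _ => Or.inr (by omega)
  have fvp : ∀ p ∈ B, Fb G (flat V α' β') (B \ {p}) 1 (μ - 1) {s(v, p)} := fun p hp =>
    h.fbD (singleton_subset_iff.2 hp) (by rw [card_singleton]; omega) d1 (by omega) hp (by omega)
      fun e => by omega
  by_cases m1 : ∃ z ∈ Y.iv U j (g + 1), ∃ p ∈ B, G.Adj z p
  · obtain ⟨z, hz, p, hp, a⟩ := m1
    obtain ⟨r, rfl⟩ : ∃ r, σ = 1 + r := ⟨σ - 1, by omega⟩
    have s1 : ({z} : Finset V) ⊆ Y.iv U j (g + 1) := singleton_subset_iff.2 hz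
    exact h.two (gs := {s(v, z)}) (s := r) (u := μ - 1) (s1.trans sA) (singleton_subset_iff.2 hp)
      ((three z hz p hp).edge a) (by rw [card_singleton]) (by rw [card_singleton]; omega)
      (fvz z hz _ _ sdiff_subset (P.legal (Subset.refl U) h.rs s1 (card_singleton z)) (by omega))
      (fvp p hp)
  push Not at m1
  have z1 : ∀ z ∈ Y.iv U j (g + 1), dG G z B = 0 := fun z hz => dG_eq_zero.2 (m1 z hz)
  have z2 : ∀ p ∈ B, dG G p (Y.iv U j (g + 1)) = 0 := fun p hp =>
    dG_eq_zero.2 fun z hz k => m1 z hz p hp k.symm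
  obtain ⟨p, hp⟩ : B.Nonempty := card_pos.1 (by omega)
  have := z2 p hp
  by_cases e3 : 4 ≤ σ
  · obtain ⟨z, hz⟩ : (Y.iv U j (g + 1)).Nonempty := card_pos.1 (by omega)
    have := z1 z hz
    obtain ⟨r, rfl⟩ : ∃ r, σ = 1 + (1 + r) := ⟨σ - 2, by omega⟩
    have s1 : ({z} : Finset V) ⊆ Y.iv U j (g + 1) := singleton_subset_iff.2 hz
    exact h.two (gs := s(z, p) ::ₘ {s(v, z)}) (s := 1 + r) (u := μ - 1) (s1.trans sA)
      (singleton_subset_iff.2 hp) (three z hz p hp) (by rw [card_singleton])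
      (by rw [card_singleton]; omega)
      (Fb.cons (fun _ _ => h.low_zp (k := 0) P s1 (Subset.refl _)
        (P.legal (Subset.refl U) h.rs s1 (card_singleton z)) (by rw [card_singleton]; omega) hz hp
        (by rw [card_singleton]; omega))
        fun U' k1 k2 => fvz z hz _ _ (k1.trans sdiff_subset) k2 (by omega))
      (fvp p hp)
  by_cases m2 : ∃ y ∈ Y.iv U j (g + 1), G.Adj v y
  · obtain ⟨y, hy, a⟩ := m2
    obtain ⟨z, hz, a'⟩ := P.nbr h.rs hy
    have := z1 z hz
    obtain rfl : σ = 2 + (1 + 0) := by omega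
    have s1 : ({y, z} : Finset V) ⊆ Y.iv U j (g + 1) := insert_subset hy (singleton_subset_iff.2 hz)
    have a1 := (((three z hz p hp).swap.ext (z := y) (by
      simp [n1 y hy, a'.ne, ne y hy p hp]) a).edge a')
    exact h.two (gs := s(z, p) ::ₘ 0) (gs' := {s(v, p)}) (s := 1 + 0) (u := μ - 1) (s1.trans sA)
      (singleton_subset_iff.2 hp) (a1.set fun v => by
        simp only [mem_insert, mem_singleton, mem_union]; tauto)
      (by rw [card_pair a'.ne]) (by rw [card_singleton]; omega)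
      (Fb.cons (fun _ _ => h.low_zp (k := 0) P s1 (Subset.refl _)
        (P.legal (Subset.refl U) h.rs s1 (card_pair a'.ne)) (by rw [card_pair a'.ne]) hz hp
        (by rw [card_singleton]; omega)) fun _ _ k => Fb.zero k)
      (fvp p hp)
  push Not at m2
  obtain ⟨z, hz⟩ : (Y.iv U j (g + 1)).Nonempty := card_pos.1 (by omega)
  have := z1 z hz
  have := dH_pos (G := G) hv (n1 z hz).symm fun k => m2 z hz k.symm
  obtain rfl : σ = 1 + (1 + (1 + 0)) := by omega
  have s1 : ({z} : Finset V) ⊆ Y.iv U j (g + 1) := singleton_subset_iff.2 hz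
  have hvB : v ∉ (flat V α' β').iv B 0 1 := by
    rw [flat_iv]
    exact fun k => n2 v k rfl
  obtain ⟨q, q', Z, k1, k2, k3, k4, k5, -⟩ := link_seg (g := 0) (r := μ) (w := 0) h.rsB
    (flat_ord α' β') h2 hvB hvB d1 d1 (by show _ ≤ α' + 0 + 1; omega)
    (by show _ ≤ α' + 0 + 1; omega)
  rw [flat_iv] at k4
  obtain ⟨c, l1, l2⟩ := k1.tail (k1.ne (by omega))
  have hq := k4 k1.left
  have hc := k4 (mem_of_mem_erase l2.left)
  have := z2 q hq
  have := z2 c hc
  have a1 := ((l2.symm.cs.ext (z := v) (fun k => n2 v (k4 (mem_of_mem_erase k)) rfl) k3.symm).ext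
    (z := q) (by simp [n2 q hq]) k2).ins (z := z) (by
      simp only [mem_insert, mem_erase, not_or]
      exact ⟨ne z hz q hq, n1 z hz, fun k => ne z hz z (k4 k.2) rfl⟩)
  exact h.two (gs := s(q, z) ::ₘ s(c, z) ::ₘ 0) (gs' := 0) (s := 1 + (1 + 0)) (u := 0) (s1.trans sA)
    k4 (by
      rw [add_zero]
      refine a1.set fun x => ?_
      have := k1.left
      simp only [mem_insert, mem_singleton, mem_union, mem_erase]
      by_cases e : x = q
      · subst e
        tauto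
      · tauto)
    (by rw [card_singleton]) (by omega)
    (Fb.cons (fun _ _ => (h.low_zp (k := 0) P s1 (Subset.refl _)
      (P.legal (Subset.refl U) h.rs s1 (card_singleton z)) (by rw [card_singleton]) hz hq
      (by rw [card_singleton]; omega)).symm) fun U' k1 k2 => Fb.cons (fun _ _ =>
        (h.low_zp (k := 1) P s1 k1 k2 (by rw [card_singleton]) hz hc
          (by rw [card_singleton]; omega)).symm) fun _ _ k => Fb.zero k)
    (Fb.zero (h.rsB' k4 (by omega)))

theorem mid_c (h : Mid G W Y U g D B α β α' β' σ μ I J) (h1 : 3 ≤ σ) (h2 : 3 ≤ μ)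
    (hD : D.card ≤ 1) : Fin2 G Y U g D B σ μ := by
  by_cases e : D.card = 0
  · obtain rfl := card_eq_zero.1 e
    exact mc_zero h h1 h2
  · obtain ⟨v, rfl⟩ := card_eq_one.1 (show D.card = 1 by omega)
    exact mc_one h h1 h2

end Pool.Agent.Lib.MP_af3016_co
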