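import Pool.Agent.Lib.MP_af3016_co.C.Two

/-! Both quotas are at least three. -/

set_option autoImplicit false
set_option linter.unusedSectionVars false

namespace Pool.Agent.Lib.MP_af3016_co

open Finset SimpleGraph

variable {V : Type} [DecidableEq V] {G : SimpleGraph V} {Y : Lay V} {U : Finset V}

variable {W D B : Finset V} {g α β α' β' σ μ : ℕ} {I J : Multiset ℕ}

/-- an order with at most two gaps is opened to an order with exactly two gaps -/
theorem midg_two {X : Finset V} {gs : Multiset (Sym2 V)} (h : CS G X gs) (h1 : gs.card ≤ 2)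
    (hX : 2 ≤ X.card) : ∃ p q p' q', CS G X ({s(p, q)} + {s(p', q')}) := by
  have k2 : ∀ gs : Multiset (Sym2 V), CS G X gs → gs.card = 2 →
      ∃ p q p' q', CS G X ({s(p, q)} + {s(p', q')}) := by
    intro gs c e
    obtain ⟨x, y, rfl⟩ := Multiset.card_eq_two.1 e
    induction x using Sym2.ind with
    | _ p q =>
      induction y using Sym2.ind with
      | _ p' q' => exact ⟨p, q, p', q', c⟩
  have k1 : ∀ gs : Multiset (Sym2 V), CS G X gs → gs.card = 1 →
      ∃ p q p' q', CS G X ({s(p, q)} + {s(p', q')}) := by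
    intro gs c e
    obtain ⟨p, q, -, c'⟩ := c.open (by omega)
    exact k2 _ c' (by rw [Multiset.card_cons, e])
  by_cases e2 : gs.card = 2
  · exact k2 _ h e2
  by_cases e1 : gs.card = 1
  · exact k1 _ h e1
  obtain ⟨p, q, -, c'⟩ := h.open (by omega)
  exact k1 _ c' (by rw [Multiset.card_cons]; omega)

theorem mid_big (h : Mid G W Y U g D B α β α' β' σ μ I J) (h1 : 3 ≤ σ) (h2 : 3 ≤ μ)
    (hD : 2 ≤ D.card) : Fin2 G Y U g D B σ μ := by
  obtain ⟨al, be, hd⟩ := h.defects
  obtain ⟨gs0, c0⟩ := exists_cs G (card_pos.1 (show 0 < D.card by omega))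
  obtain ⟨gs, c, -, k⟩ := plan (F := 0) (D := D) (gs0 := gs0) (by rwa [zero_add])
    fun p q e => c0.mem e
  rw [zero_add] at c
  have ba := h.ba
  have lo := h.lo.1
  have up := h.up.1
  have cD := h.cD
  have five := h.five
  have ea : (flat V α' β').a 0 = α' := rfl
  by_cases e2 : 2 ≤ gs.card
  · obtain ⟨Z, Z', z1, z2, z3, z4, z5, z6, -⟩ := greedy (Y' := flat V α' β') (U' := B) (g' := 0)
      (e := be) (e' := al) c e2 h.rs h.rsB h.ord (flat_ord α' β') (by omega) (by omega) h.dD
      (by rw [zero_add, flat_iv]; exact h.dDB) (by rw [zero_add, flat_iv]; exact h.dB.symm)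
      (fun p q e => by
        have := hd p (k p q e).1
        exact ⟨this.2.1, this.2.2.2.1, by omega⟩)
      (fun p q e => by
        have := hd p (k p q e).1
        exact ⟨this.1, this.2.2.1, by omega⟩)
      (fun p q e => by
        obtain ⟨hp, hq, -, k4⟩ := k p q e
        have g1 := hd p hp
        have g2 := hd q hq
        have g3 := dG_add_dH_in (G := G) hp
        have g4 := dG_add_dH_in (G := G) hq
        rw [Multiset.card_zero] at k4
        omega)
      (fun _ => Or.inl h1) (fun _ => Or.inl h2)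
    rw [zero_add, flat_iv] at z2
    refine ⟨Z, Z', z1, z2, z3, z4, z5.done ?_, z6⟩
    rw [card_union_of_disjoint (disjoint_union_left.2 ⟨h.dDB.mono_right z2,
      (h.dB.mono_left z2).symm.mono_left z1⟩), card_union_of_disjoint (h.dD.mono_right z1), z3, z4]
    omega
  · obtain ⟨p, q, p', q', c'⟩ := midg_two c (by omega) hD
    have m := c'.mem (p := p) (q := q) (Multiset.mem_add.2 (Or.inl (Multiset.mem_singleton_self _)))
    have m' := c'.mem (p := p') (q := q')
      (Multiset.mem_add.2 (Or.inr (Multiset.mem_singleton_self _)))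
    have g1 := hd p m.1
    have g2 := hd q m.2
    have g3 := hd p' m'.1
    have g4 := hd q' m'.2
    exact h.two0 c'
      (Fb.all h.rs h.ord (by omega) g1.2.1 g2.2.1 (by omega) (by omega) (fun _ => by omega)
        fun _ => by omega)
      (Fb.all (g := 0) h.rsB (flat_ord α' β') (by omega) g3.1 g4.1 (by omega) (by omega)
        (fun _ => by omega) fun _ => by omega)

end Pool.Agent.Lib.MP_af3016_co
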