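import Pool.Agent.Lib.MP_af3016_co.C.MidAB

/-! Legal removals for the lower quotas one and two. -/

set_option autoImplicit false
set_option linter.unusedSectionVars false

namespace Pool.Agent.Lib.MP_af3016_co

open Finset SimpleGraph

variable {V : Type} [DecidableEq V] {G : SimpleGraph V} {Y : Lay V} {U : Finset V}

variable {W D B : Finset V} {g α β α' β' σ μ : ℕ} {I J : Multiset ℕ}

/-- `i` is the highest level whose slack is at most one -/
structure Lv (Y : Lay V) (U : Finset V) (g i : ℕ) : Prop where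
  le : i ≤ g
  sl : (Y.iv U 0 i).card ≤ Y.A i + Y.B i + 1
  up : ∀ t, i < t → t ≤ g + 1 → Y.A t + Y.B t + 2 ≤ (Y.iv U 0 t).card

theorem Mid.leg1 (h : Mid G W Y U g D B α β α' β' 1 μ I J) {z : V} (hz : z ∈ Y.iv U 0 (g + 1)) :
    Rs G Y (U \ {z}) (g + 1) 0 :=
  Rs.remove_iv (r := 1) (w := 0) h.rs (singleton_subset_iff.2 hz) (card_singleton z)
    fun t h1 h2 => h.pos t h1 h2.le

theorem Mid.lv (h : Mid G W Y U g D B α β α' β' 2 μ I J) : ∃ i, Lv Y U g i := by
  classical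
  obtain ⟨i, h1, h2⟩ := exists_max_image ((range (g + 1)).filter fun t =>
    (Y.iv U 0 t).card ≤ Y.A t + Y.B t + 1) id ⟨0, by simp [Lay.iv_self]⟩
  rw [mem_filter, mem_range] at h1
  refine ⟨i, by omega, h1.2, fun t k1 k2 => ?_⟩
  rcases k2.lt_or_eq with k | rfl
  · by_contra e
    have := h2 t (mem_filter.2 ⟨mem_range.2 k, by omega⟩)
    simp only [id] at this
    omega
  · exact h.rs.top.ge

theorem Lv.sub {i : ℕ} {z : V} (hz : z ∈ Y.iv U i (g + 1)) : z ∈ Y.iv U 0 (g + 1) :=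
  Lay.iv_mono (Subset.refl U) (Nat.zero_le i) (le_refl _) hz

/-- one vertex of the layers from `i` on and any other vertex of the reservoir -/
theorem Mid.leg2 (h : Mid G W Y U g D B α β α' β' 2 μ I J) {i : ℕ} (hi : Lv Y U g i) {z z' : V}
    (hz : z ∈ Y.iv U i (g + 1)) (hz' : z' ∈ Y.iv U 0 (g + 1)) (hne : z ≠ z') :
    Rs G Y (U \ {z, z'}) (g + 1) 0 := by
  refine Rs.remove (r := 2) (w := 0) h.rs
    (insert_subset (Lv.sub hz) (singleton_subset_iff.2 hz')) (card_pair hne) fun t ht => ?_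
  by_cases e : i < t
  · have := hi.up t e ht.le
    have := card_le_card (Y.iv_sub {z, z'} 0 t)
    rw [card_pair hne] at this
    omega
  by_cases e0 : t = 0
  · subst e0
    simp [Lay.iv_self, Lay.A_zero, Lay.B_zero]
  have := h.pos t (by omega) ht.le
  have : (Y.iv {z, z'} 0 t).card ≤ ({z'} : Finset V).card := card_le_card fun v hv => by
    rw [Lay.mem_iv] at hv hz
    rcases mem_insert.1 hv.1 with rfl | k
    · omega
    · exact k
  rw [card_singleton] at this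
  omega

/-- the size of the layers from `i` on -/
theorem Lv.card {i : ℕ} (hi : Lv Y U g i) (h : Rs G Y U (g + 1) 2) :
    Y.A (g + 1) + Y.B (g + 1) + 1 ≤ (Y.iv U i (g + 1)).card + Y.A i + Y.B i ∧
      Y.B (g + 1) + Y.A i ≤ Y.A (g + 1) + Y.B i ∧ Y.A i + Y.a g ≤ Y.A (g + 1) ∧
      Y.B i + Y.b g ≤ Y.B (g + 1) := by
  have := hi.le
  have := hi.sl
  have := h.top
  have := Y.card_iv U (Nat.zero_le i) (show i ≤ g + 1 by omega)
  have := h.AB (show i ≤ g + 1 by omega) le_rfl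
  have := Y.A_mono hi.le
  have := Y.B_mono hi.le
  have := Y.A_succ g
  have := Y.B_succ g
  omega

/-- every member of the layers from `i` on has a neighbour there -/
theorem Lv.nbr {i s : ℕ} (hi : Lv Y U g i) (h : Rs G Y U (g + 1) s) {z : V}
    (hz : z ∈ Y.iv U i (g + 1)) : ∃ z' ∈ Y.iv U i (g + 1), G.Adj z z' := by
  have k := Lay.mem_iv.1 hz
  have h1 := h.int z k.1 k.2.2 i (by omega)
  have h2 := hi.up (Y.f z + 1) (by omega) (by omega)
  have h3 := hi.sl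
  have h4 := Y.card_iv U (Nat.zero_le i) (show i ≤ Y.f z + 1 by omega)
  have h5 := dG_add_dH_in (G := G) (a := z) (S := Y.iv U i (Y.f z + 1))
    (Lay.mem_iv.2 ⟨k.1, k.2.1, by omega⟩)
  have h6 := Y.A_mono (show i ≤ Y.f z + 1 by omega)
  obtain ⟨z', k1, k2⟩ := exists_adj (G := G) (a := z) (S := Y.iv U i (Y.f z + 1)) (by omega)
  exact ⟨z', Lay.iv_mono (Subset.refl U) (le_refl i) (by omega) k1, k2⟩

/-- an independent set inside the layers from `i` on is within the budget -/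
theorem Rs.ind {m s i : ℕ} (h : Rs G Y U m s) (hi : i ≤ m) {Z : Finset V} (hZ : Z ⊆ Y.iv U i m)
    (h0 : ∀ a ∈ Z, ∀ b ∈ Z, ¬G.Adj a b) : Z.card + Y.B i ≤ Y.B m := by
  rcases Z.eq_empty_or_nonempty with rfl | hn
  · simpa using Y.B_mono hi
  obtain ⟨z, h1, h2⟩ := exists_max_image Z Y.f hn
  have k := Lay.mem_iv.1 (hZ h1)
  have h3 := h.int z k.1 k.2.2 i (by omega)
  have h4 : Z ⊆ Y.iv U i (Y.f z + 1) := fun v hv => by
    have := Lay.mem_iv.1 (hZ hv)
    have := h2 v hv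
    exact Lay.mem_iv.2 ⟨by tauto, by omega, by omega⟩
  have h5 := dH_mono (G := G) (a := z) h4
  have h6 := dG_add_dH_in (G := G) h1
  have h7 : dG G z Z = 0 := dG_eq_zero.2 (h0 z h1)
  have := Y.B_mono (show Y.f z + 1 ≤ m by omega)
  omega

/-- a spanning path of the gadget is closed through the block -/
theorem Mid.close (h : Mid G W Y U g D B α β α' β' σ μ I J) {Z0 K : Finset V} {p q : V}
    {r e e' : ℕ} (hp : HP G p q (D ∪ Z0 ∪ K)) (h1 : Z0 ⊆ Y.iv U 0 (g + 1)) (h2 : K ⊆ B)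
    (dp : Df G (flat V α' β') B 1 p e) (dq : Df G (flat V α' β') B 1 q e') (he : e ≤ β)
    (he' : e' ≤ β) (c1 : Z0.card = σ) (hR : Rs G Y (U \ Z0) (g + 1) 0) (c2 : K.card + r = μ)
    (hr : 1 ≤ r) (r1 : r = 1 → e + e' ≤ 2) (r2 : r = 2 → e ≤ 2 ∨ e' ≤ 2) :
    Fin2 G Y U g D B σ μ := by
  have := h.up
  have := h.sJ.le
  exact h.two (gs := 0) (gs' := {s(p, q)}) (s := 0) h1 h2 (by rw [zero_add]; exact hp.cs) c1 c2
    (Fb.zero hR) (Fb.all (g := 0) (h.rsB' h2 c2) (flat_ord _ _) hr (dp.sdiff K) (dq.sdiff K)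
      (show e ≤ α' by omega) (show e' ≤ α' by omega) r1 r2)

/-- the cycle is complete -/
theorem Mid.whole (h : Mid G W Y U g D B α β α' β' σ μ I J) {Z0 K : Finset V}
    (hp : HC G (D ∪ Z0 ∪ K)) (h1 : Z0 ⊆ Y.iv U 0 (g + 1)) (h2 : K ⊆ B) (c1 : Z0.card = σ)
    (hR : Rs G Y (U \ Z0) (g + 1) 0) (c2 : K.card = μ) : Fin2 G Y U g D B σ μ :=
  ⟨Z0, K, h1, h2, c1, c2, hp, hR⟩

end Pool.Agent.Lib.MP_af3016_co
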