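import Pool.Agent.Lib.MP_af3016_co.C.M1v
import Pool.Agent.Lib.MP_af3016_co.C.M1a
import Pool.Agent.Lib.MP_af3016_co.C.M1b
import Pool.Agent.Lib.MP_af3016_co.C.M1f
import Pool.Agent.Lib.MP_af3016_co.C.M1g
import Pool.Agent.Lib.MP_af3016_co.C.M1n
import Pool.Agent.Lib.MP_af3016_co.C.M1o
import Pool.Agent.Lib.MP_af3016_co.C.M1z

/-! Upper quota one. -/

set_option autoImplicit false
set_option linter.unusedSectionVars false

namespace Pool.Agent.Lib.MP_af3016_co

open Finset SimpleGraph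

variable {V : Type} [DecidableEq V] {G : SimpleGraph V} {Y : Lay V} {U : Finset V}

variable {W D B : Finset V} {g α β α' β' σ μ : ℕ} {I J : Multiset ℕ}

/-- the neighbourhood of a vertex `p` with two neighbours in the class -/
theorem midm1_nbhd {be : V → ℕ} (h : M1 G W Y U g D B α β α' β' σ I J be) (h2 : 2 ≤ D.card)
    {p : V} (hp : p ∈ B) (hd : 2 ≤ dG G p D)
    (h0 : ∀ w ∈ D, ∀ w' ∈ D, be w + dH G w D = β → be w' + dH G w' D = β → w = w')
    (h1 : ∀ w ∈ D, be w + dH G w D = β → ¬G.Adj p w → ∀ q ∈ B, G.Adj q w → dG G q D ≤ 1) :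
    ∃ R, Nu G W Y U g D B α β α' β' σ I J be R := by
  obtain ⟨R, c, hR⟩ := exists_nbhd (G := G) p D
  have k1 : ∀ w ∈ D, be w + dH G w D + 1 ≤ β + m6i R w ∨ (be w + dH G w D = β ∧ ¬G.Adj p w) := by
    intro w hw
    have := h.le w hw
    by_cases e : w ∈ R
    · rw [m6i_pos e]
      omega
    · have : ¬G.Adj p w := fun i => e ((hR w).2 ⟨hw, i⟩)
      by_cases i : be w + dH G w D = β
      · exact Or.inr ⟨i, this⟩
      · omega
  have k2 : ∀ w ∈ D, ∀ w' ∈ D, w ≠ w' → be w + dH G w D = β → ¬G.Adj p w →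
      be w' + dH G w' D + 2 ≤ β + m6i R w' := by
    intro w hw w' hw' hne e e'
    have a1 := h.le w' hw'
    have a2 : be w' + dH G w' D ≠ β := fun i => hne (h0 w hw w' hw' e i)
    by_cases i : w' ∈ R
    · rw [m6i_pos i]
      omega
    have a3 : ¬G.Adj p w' := fun j => i ((hR w').2 ⟨hw', j⟩)
    have a4 := (tools_erase (G := G) w p B).2 fun j => e' j.symm
    have a5 := (tools_erase (G := G) w' p B).2 fun j => a3 j.symm
    have a6 := card_erase_add_one hp
    have a7 := h.deg w hw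
    have a8 := h.deg w' hw'
    have a9 := h.num
    by_contra j
    obtain ⟨q, q1, q2, q3⟩ := exists_common (G := G) (a := w) (b := w') (S := B.erase p) (by omega)
    have b1 := h1 w hw e e' q (mem_of_mem_erase q1) q2.symm
    have b2 := le_dG (G := G) (a := q) (S := D) (R := {w, w'}) fun b hb => by
      rcases mem_insert.1 hb with rfl | hb
      · exact ⟨hw, q2.symm⟩
      · rw [mem_singleton.1 hb]
        exact ⟨hw', q3.symm⟩
    rw [card_pair hne] at b2
    omega
  refine ⟨R, h, h2, fun w hw => ((hR w).1 hw).1, by omega,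
    fun a ha b hb _ => ⟨p, hp, ((hR a).1 ha).2, ((hR b).1 hb).2⟩, fun w hw w' hw' hne => ?_,
    fun w hw w' hw' hne e e' => absurd (h0 w hw w' hw' e e') hne⟩
  have a1 := dG_add_dH_in (G := G) hw
  have a2 := dG_add_dH_in (G := G) hw'
  rcases k1 w hw with e | e
  · rcases k1 w' hw' with e' | e'
    · omega
    · have := k2 w' hw' w hw hne.symm e'.1 e'.2
      omega
  · have := k2 w hw w' hw' hne e.1 e.2
    omega

theorem midm1_nu {be : V → ℕ} (h : M1 G W Y U g D B α β α' β' σ I J be) (h2 : 2 ≤ D.card)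
    {p : V} (hp : p ∈ B) (hd : 2 ≤ dG G p D) : ∃ R, Nu G W Y U g D B α β α' β' σ I J be R := by
  by_cases c : 2 ≤ (D.filter fun w => be w + dH G w D = β).card
  · have k : ∀ w ∈ D, be w + D.card ≤
        dG G w D + m6i (D.filter fun w => be w + dH G w D = β) w + β := fun w hw => by
      have a1 := dG_add_dH_in (G := G) hw
      have a2 := h.le w hw
      by_cases e : be w + dH G w D = β
      · rw [m6i_pos (mem_filter.2 ⟨hw, e⟩)]
        omega
      · omega
    refine ⟨_, h, h2, filter_subset _ _, c, fun a ha b hb _ => ?_, fun w hw w' hw' _ => ?_,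
      fun w hw _ _ _ e _ => mem_filter.2 ⟨hw, e⟩⟩
    · rw [mem_filter] at ha hb
      exact h.common ha.1 hb.1 ha.2 hb.2
    · have := k w hw
      have := k w' hw'
      omega
  have h0 : ∀ w ∈ D, ∀ w' ∈ D, be w + dH G w D = β → be w' + dH G w' D = β → w = w' :=
    fun w hw w' hw' e e' => card_le_one.1
      (show (D.filter fun w => be w + dH G w D = β).card ≤ 1 by omega) w (mem_filter.2 ⟨hw, e⟩) w'
      (mem_filter.2 ⟨hw', e'⟩)
  by_cases e : ∃ w ∈ D, be w + dH G w D = β ∧ ∃ q ∈ B, G.Adj q w ∧ 2 ≤ dG G q D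
  · obtain ⟨w, hw, e, q, hq, q1, q2⟩ := e
    exact midm1_nbhd h h2 hq q2 h0 fun w' hw' e' i => absurd (h0 w hw w' hw' e e' ▸ q1) i
  · exact midm1_nbhd h h2 hp hd h0 fun w hw e' _ q hq i => by
      by_contra j
      exact e ⟨w, hw, e', q, hq, i, by omega⟩

theorem midm1_multi {be : V → ℕ} {R : Finset V} (h : Nu G W Y U g D B α β α' β' σ I J be R) :
    Fin2 G Y U g D B σ 1 := by
  have a0 := h.m1.num
  obtain ⟨a, ha, b, hb, hab⟩ := one_lt_card.1 h.cR
  obtain ⟨gs0, k0, -⟩ := m1_order (G := G) (h.sub ha) (h.sub hb) hab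
  obtain ⟨ν, hν⟩ := card_pos.1 (show 0 < B.card by omega)
  obtain ⟨gs, k1, -, k2⟩ := Mk.plan (G := G) (R := R) (F := 0) (gs0 := gs0)
    (show ν ∉ D from fun i => Finset.disjoint_left.1 h.m1.mid.dDB i hν)
    ⟨a, ha, b, hb, by rwa [zero_add]⟩
  rw [zero_add] at k1
  by_cases e : gs = 0
  swap
  · refine h.fin k1 (Fb.filly (e := be) e h.m1.mid.rs fun p q i => ?_)
    obtain ⟨j1, j2, j3, -, j5⟩ := k2 p q i
    have := h.sum p j1 q j2 j3
    rw [Multiset.card_zero] at j5
    exact ⟨h.m1.dfe p j1, h.m1.one p j1, by omega⟩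
  subst e
  by_cases c : 2 ≤ σ ∧ ∃ w ∈ D, σ = 2 → be w ≤ 2
  · obtain ⟨c, w, hw, c'⟩ := c
    obtain ⟨x, hx, y, hy, k3⟩ := k1
    obtain ⟨q, -, k4⟩ := m6_open k3 hw h.two (m6f_one w _)
    have hq := (k4.mem (Multiset.mem_cons_self _ _)).2
    have := h.m1.le w hw
    have := h.m1.le q hq
    exact h.fin ⟨x, hx, y, hy, k4.swap⟩ (Fb.all h.m1.mid.rs h.m1.mid.ord (by omega) (h.m1.dfe w hw)
      (h.m1.dfe q hq) (by omega) (by omega) (by omega) fun i => Or.inl (c' i))
  by_cases c1 : σ = 1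
  · subst c1
    rcases Nat.lt_trichotomy (α + β) 6 with i | i | i
    exacts [m1_five h.m1 (by omega), m1_six h i k1, m1_seven h i k1]
  obtain rfl : σ = 2 := by
    by_contra i
    exact c ⟨by omega, a, h.sub ha, fun j => absurd j i⟩
  exact m1_hard h fun v hv => by
    by_contra i
    exact c ⟨le_rfl, v, hv, fun _ => by omega⟩

theorem mid_mu1 (h : Mid G W Y U g D B α β α' β' σ 1 I J) :
    Til G W ((α + β) ::ₘ (Y.lst I g + J)) := by
  rcases Nat.lt_trichotomy D.card 1 with c | c | c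
  · obtain rfl : D = ∅ := card_eq_zero.1 (by omega)
    exact mid_mu1_zero h
  · obtain ⟨w, rfl⟩ := card_eq_one.1 c
    exact h.fin (mid_mu1_one h)
  refine h.fin ?_
  by_cases e : ∀ p ∈ B, dG G p D ≤ 1
  · exact mid_mu1_non h c e
  simp only [not_forall] at e
  obtain ⟨p, hp, e⟩ := e
  obtain ⟨be, k⟩ := h.m1
  obtain ⟨R, k'⟩ := midm1_nu k c hp (by omega)
  exact midm1_multi k'

end Pool.Agent.Lib.MP_af3016_co
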