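import Pool.Agent.Lib.MP_af3016_co.C.M2A
import Pool.Agent.Lib.MP_af3016_co.C.M6b
import Pool.Agent.Lib.MP_af3016_co.C.M6c

/-! Upper quota two. -/

set_option autoImplicit false
set_option linter.unusedSectionVars false

namespace Pool.Agent.Lib.MP_af3016_co

open Finset SimpleGraph

variable {V : Type} [DecidableEq V] {G : SimpleGraph V} {Y : Lay V} {U : Finset V}

variable {W D B : Finset V} {g α β α' β' σ μ : ℕ} {I J : Multiset ℕ}

theorem mid_mu2 (h : Mid G W Y U g D B α β α' β' σ 2 I J) :
    Til G W ((α + β) ::ₘ (Y.lst I g + J)) := by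
  refine h.fin ?_
  have := h.sg
  by_cases e1 : σ = 1
  · subst e1
    exact mid_21 h
  by_cases e2 : σ = 2
  · subst e2
    exact mid_22 h
  exact m2_three h (by omega)

end Pool.Agent.Lib.MP_af3016_co
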