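import Pool.Agent.Lib.MP_af3016_co.C.Cyc

/-! Cyclic orders with a least number of gaps. -/

set_option autoImplicit false
set_option linter.unusedSectionVars false

namespace Pool.Agent.Lib.MP_af3016_co

open Finset SimpleGraph

variable {V : Type} [DecidableEq V] {G : SimpleGraph V} {Y : Lay V} {U : Finset V}

theorem plan_app (a : V) (B : List V) : ∀ A : List V, lp (A ++ a :: B) = lp (A ++ [a]) + lp (a :: B)
  | [] => by simp [lp]
  | [x] => by simp [lp]
  | x :: y :: A => by
    have := plan_app a B (y :: A)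
    simp only [List.cons_append, lp] at this ⊢
    rw [this, Multiset.cons_add]

theorem plan_rev : ∀ l : List V, lp l.reverse = lp l
  | [] => rfl
  | [_] => rfl
  | x :: y :: t => by
    have := plan_rev (y :: t)
    rw [List.reverse_cons, List.reverse_cons, List.append_assoc, List.singleton_append, plan_app,
      ← List.reverse_cons, this, add_comm]
    simp [lp, Sym2.eq_swap]

theorem plan_card : ∀ (t : List V) (x : V), (lp (x :: t)).card = t.length
  | [], _ => rfl
  | y :: t, x => by simp [lp, plan_card t y]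

theorem plan_mid (A B : List V) (a b : V) :
    lp (A ++ a :: b :: B) = s(a, b) ::ₘ (lp (A ++ [a]) + lp (b :: B)) := by
  rw [plan_app, lp, Multiset.add_cons]

theorem plan_cnt (P Q : V → Bool) (w : Sym2 V → ℕ) : ∀ l : List V,
    (∀ A a b B, l = A ++ a :: b :: B → (if P b then 1 else 0) + (if Q a then 1 else 0) ≤ w s(a, b)) →
    l.tail.countP P + l.dropLast.countP Q ≤ ((lp l).map w).sum
  | [], _ => by simp
  | [_], _ => by simp
  | x :: y :: t, h => by
    have h1 := h [] x y t rfl
    have h2 := plan_cnt P Q w (y :: t) fun A a b B e => h (x :: A) a b B (by rw [e]; rfl)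
    simp only [List.tail_cons, List.dropLast_cons_cons, List.countP_cons, lp, Multiset.map_cons,
      Multiset.sum_cons] at h2 ⊢
    omega

open Classical in
theorem plan_dG {X : Finset V} {p : V} {t : List V} (h : ∀ v ∈ X, v ≠ p → v ∈ t) :
    dG G p X ≤ t.countP fun v => G.Adj p v := by
  rw [List.countP_eq_length_filter]
  exact (dG_le fun b hb e => by simpa using ⟨h b hb e.ne', e⟩).trans (List.toFinset_card_le _)

/-- the initial segment is reversed -/
theorem plan_flip {X : Finset V} {gs es : Multiset (Sym2 V)} {p q a b : V} {A B : List V}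
    (h1 : (A ++ a :: b :: B).head? = some p) (h2 : (A ++ a :: b :: B).getLast? = some q)
    (h3 : (A ++ a :: b :: B).Nodup) (h4 : ∀ v, v ∈ A ++ a :: b :: B ↔ v ∈ X)
    (h5 : lp (A ++ [a]) + lp (b :: B) = gs + es) (h6 : ∀ e ∈ es, e ∈ G.edgeSet) :
    CS G X (s(a, q) ::ₘ s(p, b) ::ₘ gs) := by
  obtain ⟨C, hC⟩ : ∃ C, A ++ [a] = p :: C := by
    cases A with
    | nil => exact ⟨[], by simpa using h1⟩
    | cons x A => exact ⟨A ++ [a], by simpa using h1⟩
  have pm : List.Perm ((A ++ [a]).reverse ++ b :: B) (A ++ a :: b :: B) := by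
    simpa using ((A ++ [a]).reverse_perm).append_right (b :: B)
  refine cs_of_list (l := (A ++ [a]).reverse ++ b :: B) (es := es) (by simp) ?_ (pm.nodup_iff.2 h3)
    (fun v => pm.mem_iff.trans (h4 v)) ?_ h6
  · rw [List.getLast?_append_cons] at h2 ⊢
    rwa [List.getLast?_cons_cons] at h2
  · rw [Multiset.cons_add, ← h5, ← plan_rev (A ++ [a]), hC, List.reverse_cons, List.append_assoc,
      List.singleton_append, plan_mid]

theorem plan_opt {X : Finset V} {gs : Multiset (Sym2 V)} {p p' q : V}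
    (h : CS G X (s(p, p') ::ₘ gs)) (hq : q ∈ X) (hpq : p ≠ q) :
    ∃ gs', CS G X (s(p, q) ::ₘ gs') ∧ gs'.card ≤ gs.card + 1 := by
  obtain ⟨l, h1, h2, h3, h4, es, h5, h6⟩ := h.cut
  obtain ⟨A, B, rfl⟩ := List.append_of_mem ((h4 q).2 hq)
  obtain ⟨A, a, rfl⟩ : ∃ A' a, A = A' ++ [a] := by
    rcases A.eq_nil_or_concat with rfl | ⟨A', a, rfl⟩
    · exact absurd (by simpa using h1) hpq.symm
    · exact ⟨A', a, List.concat_eq_append⟩
  rw [List.append_assoc, List.singleton_append] at h1 h2 h3 h4 h5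
  rw [plan_mid] at h5
  rcases Multiset.mem_add.1 (h5 ▸ Multiset.mem_cons_self _ _) with e | e <;>
    obtain ⟨g1, rfl⟩ := Multiset.exists_cons_of_mem e
  · rw [Multiset.cons_add, Multiset.cons_inj_right] at h5
    exact ⟨_, Multiset.cons_swap _ _ _ ▸ plan_flip h1 h2 h3 h4 h5 h6, by simp⟩
  · rw [Multiset.add_cons, Multiset.cons_inj_right] at h5
    exact ⟨_, Multiset.cons_swap _ _ _ ▸ plan_flip h1 h2 h3 h4 h5
      fun e he => h6 e (Multiset.mem_cons_of_mem he), by simp⟩

/-- a gap with a large degree sum lowers the number of gaps -/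
theorem CS.bc {X D : Finset V} {F gs : Multiset (Sym2 V)} {p q : V}
    (h : CS G X (F + s(p, q) ::ₘ gs)) (hp : p ∈ D) (hq : q ∈ D)
    (hD : ∀ x y, s(x, y) ∈ gs → x ∈ D ∧ y ∈ D)
    (hd : X.card + F.card ≤ dG G p X + dG G q X + gs.card) :
    ∃ gs', CS G X (F + gs') ∧ gs'.card ≤ gs.card ∧ ∀ x y, s(x, y) ∈ gs' → x ∈ D ∧ y ∈ D := by
  classical
  rw [Multiset.add_cons] at h
  obtain ⟨l, h1, h2, h3, h4, es, h5, h6⟩ := h.cut
  by_contra hn
  have k := plan_cnt (fun v => G.Adj p v) (fun v => G.Adj q v)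
    (fun e => if e ∈ gs then 0 else if e ∈ es then 1 else 2) l (by
    rintro A a b B rfl
    rw [plan_mid] at h5
    by_cases e1 : s(a, b) ∈ gs
    · obtain ⟨g1, rfl⟩ := Multiset.exists_cons_of_mem e1
      rw [Multiset.add_cons, Multiset.cons_add, Multiset.cons_inj_right] at h5
      have c := plan_flip h1 h2 h3 h4 h5 h6
      have hab := hD a b e1
      have m : ∀ {u v : V}, u ∈ D → v ∈ D → CS G X (s(u, v) ::ₘ (F + g1)) → False :=
        fun {u v} hu hv c => hn ⟨s(u, v) ::ₘ g1, by rwa [Multiset.add_cons], by simp,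
          fun x y hxy => (Multiset.mem_cons.1 hxy).elim (fun e => by
            rcases Sym2.eq_iff.1 e with ⟨rfl, rfl⟩ | ⟨rfl, rfl⟩
            exacts [⟨hu, hv⟩, ⟨hv, hu⟩]) fun e => hD x y (Multiset.mem_cons_of_mem e)⟩
      have n1 : ¬G.Adj p b := fun e => m hab.1 hq ((Multiset.cons_swap _ _ _ ▸ c).edge e)
      have n2 : ¬G.Adj q a := fun e => m hp hab.2 (c.edge e.symm)
      simp [n1, n2]
    · by_cases e2 : s(a, b) ∈ es
      · obtain ⟨g1, rfl⟩ := Multiset.exists_cons_of_mem e2
        rw [Multiset.add_cons, Multiset.cons_inj_right] at h5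
        have c := plan_flip h1 h2 h3 h4 h5 fun e he => h6 e (Multiset.mem_cons_of_mem he)
        have n : G.Adj p b → ¬G.Adj q a := fun e e' => hn ⟨gs, (c.edge e'.symm).edge e, le_rfl, hD⟩
        simp only [e1, e2, if_true, if_false, decide_eq_true_eq]
        split_ifs with a1 a2
        exacts [absurd a2 (n a1), le_rfl, le_rfl, Nat.zero_le _]
      · simp only [e1, e2, if_false]
        split_ifs <;> omega)
  obtain ⟨t, rfl⟩ : ∃ t, l = p :: t := List.head?_eq_some_iff.1 h1
  obtain ⟨u, hu⟩ := List.getLast?_eq_some_iff.1 h2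
  have d1 := plan_dG (G := G) (X := X) (p := p) (t := (p :: t).tail) fun v hv e => by
    simpa [e] using (h4 v).2 hv
  have d2 := plan_dG (G := G) (X := X) (p := q) (t := (p :: t).dropLast) fun v hv e => by
    have := (h4 v).2 hv
    rw [hu] at this ⊢
    simpa [e] using this
  have c1 := plan_card t p
  have c2 : X.card = t.length + 1 := by
    rw [show X = (p :: t).toFinset from Finset.ext fun v => by rw [List.mem_toFinset, h4],
      List.toFinset_card_of_nodup h3, List.length_cons]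
  rw [h5] at k c1
  simp only [Multiset.map_add, Multiset.sum_add, Multiset.card_add] at k c1
  have s1 := Multiset.sum_le_card_nsmul
    (F.map fun e => if e ∈ gs then 0 else if e ∈ es then 1 else 2) 2 fun x hx => by
      obtain ⟨e, -, rfl⟩ := Multiset.mem_map.1 hx
      split_ifs <;> omega
  have s2 := Multiset.sum_le_card_nsmul
    (gs.map fun e => if e ∈ gs then 0 else if e ∈ es then 1 else 2) 0 fun x hx => by
      obtain ⟨e, he, rfl⟩ := Multiset.mem_map.1 hx
      rw [if_pos he]
  have s3 := Multiset.sum_le_card_nsmul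
    (es.map fun e => if e ∈ gs then 0 else if e ∈ es then 1 else 2) 1 fun x hx => by
      obtain ⟨e, he, rfl⟩ := Multiset.mem_map.1 hx
      rw [if_pos he]
      split_ifs <;> omega
  simp only [Multiset.card_map, smul_eq_mul] at s1 s2 s3
  omega

theorem CS.bc1 {X : Finset V} {F : Multiset (Sym2 V)} {p q : V} (h : CS G X (s(p, q) ::ₘ F))
    (hd : X.card + F.card ≤ dG G p X + dG G q X) : CS G X F := by
  have m := h.mem (Multiset.mem_cons_self _ _)
  obtain ⟨gs', c, k, -⟩ := CS.bc (F := F) (gs := 0) (D := X) (by rwa [Multiset.add_cons, add_zero])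
    m.1 m.2 (by simp) (by simpa using hd)
  rwa [Multiset.card_eq_zero.1 (Nat.le_zero.1 k), add_zero] at c

/-- an order with a least number of gaps, the pairs in `F` being kept and all gaps lying in `D` -/
theorem plan {X D : Finset V} {F gs0 : Multiset (Sym2 V)} (h : CS G X (F + gs0))
    (hD : ∀ p q, s(p, q) ∈ gs0 → p ∈ D ∧ q ∈ D) :
    ∃ gs, CS G X (F + gs) ∧ gs.card ≤ gs0.card ∧ ∀ p q, s(p, q) ∈ gs →
      p ∈ D ∧ q ∈ D ∧ ¬G.Adj p q ∧ dG G p X + dG G q X + gs.card ≤ X.card + F.card := by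
  induction hn : gs0.card using Nat.strong_induction_on generalizing gs0 with
  | _ n ih =>
    subst hn
    by_cases k : ∀ p q, s(p, q) ∈ gs0 →
      ¬G.Adj p q ∧ dG G p X + dG G q X + gs0.card ≤ X.card + F.card
    · exact ⟨gs0, h, le_rfl, fun p q e => ⟨(hD p q e).1, (hD p q e).2, k p q e⟩⟩
    simp only [not_forall] at k
    obtain ⟨p, q, e, k⟩ := k
    obtain ⟨g1, rfl⟩ := Multiset.exists_cons_of_mem e
    have hD1 := fun x y hxy => hD x y (Multiset.mem_cons_of_mem hxy)
    obtain ⟨g2, c, l, hD2⟩ : ∃ gs', CS G X (F + gs') ∧ gs'.card ≤ g1.card ∧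
        ∀ x y, s(x, y) ∈ gs' → x ∈ D ∧ y ∈ D := by
      by_cases a : G.Adj p q
      · exact ⟨g1, (Multiset.add_cons _ _ _ ▸ h).edge a, le_rfl, hD1⟩
      · refine h.bc (hD p q e).1 (hD p q e).2 hD1 ?_
        rw [Multiset.card_cons] at k
        by_contra k'
        exact k ⟨a, by omega⟩
    rw [Multiset.card_cons] at ih ⊢
    obtain ⟨g3, c3, l3, k3⟩ := ih _ (by omega) c hD2 rfl
    exact ⟨g3, c3, by omega, k3⟩

/-- any two vertices are made consecutive at the price of one more gap -/
theorem CS.opt {X : Finset V} {gs : Multiset (Sym2 V)} {p q : V} (h : CS G X gs) (hp : p ∈ X)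
    (hq : q ∈ X) (hpq : p ≠ q) : ∃ gs', CS G X (s(p, q) ::ₘ gs') ∧ gs'.card ≤ gs.card + 1 := by
  by_cases k : ∃ p', s(p, p') ∈ gs
  · obtain ⟨p', e⟩ := k
    obtain ⟨g1, rfl⟩ := Multiset.exists_cons_of_mem e
    obtain ⟨g2, c, l⟩ := plan_opt h hq hpq
    exact ⟨g2, c, by rw [Multiset.card_cons]; omega⟩
  · obtain ⟨p', -, c⟩ := h.openAt hp fun x e => k ⟨x, e⟩
    exact plan_opt c hq hpq

/-- an end of a gap is made consecutive to any other vertex without a further gap -/
theorem CS.opt' {X : Finset V} {gs : Multiset (Sym2 V)} {p p' q : V}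
    (h : CS G X (s(p, p') ::ₘ gs)) (hq : q ∈ X) (hpq : p ≠ q) :
    ∃ gs', CS G X (s(p, q) ::ₘ gs') ∧ gs'.card ≤ gs.card + 1 := by
  exact plan_opt h hq hpq

end Pool.Agent.Lib.MP_af3016_co
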