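import Pool.Agent.Lib.MP_af3016_co.C.Walk

/-! The lower link and merging of small top layers. -/

set_option autoImplicit false
set_option linter.unusedSectionVars false

namespace Pool.Agent.Lib.MP_af3016_co

open Finset SimpleGraph

variable {V : Type} [DecidableEq V] {G : SimpleGraph V} {Y : Lay V} {U : Finset V}

/-- exact defects, for the layers below `t`, of a vertex of `D` and a vertex above `t` -/
theorem Star.pt {D : Finset V} {m s α β t : ℕ} (h : Star G Y U m s D α β) (ht : t ≤ m) {u y : V}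
    (hu : u ∈ D) (hy : y ∈ Y.iv U t m) :
    ∃ e e' s', Rs G Y U t s' ∧ Df G Y U t u e ∧ Df G Y U t y e' ∧ 1 ≤ e ∧ 1 ≤ e' ∧
      e + dH G u D + dH G u (Y.iv U t m) + Y.B t = β + Y.B m ∧
      e' + dH G y D + dH G y (Y.iv U t m) + Y.B t = β + Y.B m ∧
      e + e' + α + Y.A m + Y.B t + dH G u D + dH G y (Y.iv U t m) =
        s' + β + Y.B m + Y.A t + dG G y D + dG G u (Y.iv U t m) := by
  obtain ⟨hyU, hty, hym⟩ := Lay.mem_iv.1 hy
  obtain ⟨s', hs'⟩ := h.rs.low ht
  have h1 := h.df u hu t (by omega)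
  have h2 := h.hap u hu
  have h3 := h.suf y hyU hym t hty
  have hsub : Y.iv U t m ⊆ Y.iv U 0 m := Lay.iv_mono (Subset.refl U) (Nat.zero_le t) (le_refl m)
  have huP : u ∉ Y.iv U t m := fun g => Finset.disjoint_left.1 h.disj hu (hsub g)
  have hyD : y ∉ D := fun g => Finset.disjoint_left.1 h.disj g (hsub hy)
  have h4 := dG_add_dH_out (G := G) huP
  have h5 := dG_add_dH_out (G := G) hyD
  have h6 := Y.card_iv U (Nat.zero_le t) ht
  have h7 := h.rs.top
  have h8 := hs'.top
  have h9 := h.card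
  refine ⟨β + Y.B m - Y.B t - dH G u D - dH G u (Y.iv U t m),
    β + Y.B m - Y.B t - dH G y D - dH G y (Y.iv U t m), s', hs', (h.df u hu).down ht (by omega),
    fun t' ht' => ?_, by omega, by omega, by omega, by omega, by omega⟩
  have := h.suf y hyU hym t' (by omega)
  have := Y.dH_iv (G := G) U y ht'.le ht
  omega

/-- the layers `t, ..., m - 1` merged into the layer `t` -/
def pt_lay (Y : Lay V) (t m : ℕ) : Lay V :=
  ⟨fun v => if Y.f v < m then min (Y.f v) t else t + 1,
    fun l => if l < t then Y.a l else Y.A m - Y.A t,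
    fun l => if l < t then Y.b l else Y.B m - Y.B t⟩

theorem pt_A {t m l : ℕ} (h : l ≤ t) : (pt_lay Y t m).A l = Y.A l :=
  sum_congr rfl fun i hi => if_pos (by have := mem_range.1 hi; omega)

theorem pt_B {t m l : ℕ} (h : l ≤ t) : (pt_lay Y t m).B l = Y.B l :=
  sum_congr rfl fun i hi => if_pos (by have := mem_range.1 hi; omega)

theorem pt_a_lt {t m l : ℕ} (h : l < t) : (pt_lay Y t m).a l = Y.a l := if_pos h

theorem pt_b_lt {t m l : ℕ} (h : l < t) : (pt_lay Y t m).b l = Y.b l := if_pos h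

theorem pt_a_top {t m : ℕ} : (pt_lay Y t m).a t = Y.A m - Y.A t := if_neg (lt_irrefl t)

theorem pt_b_top {t m : ℕ} : (pt_lay Y t m).b t = Y.B m - Y.B t := if_neg (lt_irrefl t)

theorem pt_A_top {t m : ℕ} (h : t ≤ m) : (pt_lay Y t m).A (t + 1) = Y.A m := by
  have := Y.A_mono h
  rw [Lay.A_succ, pt_A (le_refl t), pt_a_top]
  omega

theorem pt_B_top {t m : ℕ} (h : t ≤ m) : (pt_lay Y t m).B (t + 1) = Y.B m := by
  have := Y.B_mono h
  rw [Lay.B_succ, pt_B (le_refl t), pt_b_top]
  omega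

theorem pt_f {t m : ℕ} (v : V) : (Y.f v < m ∧ Y.f v < t ∧ (pt_lay Y t m).f v = Y.f v) ∨
    (Y.f v < m ∧ t ≤ Y.f v ∧ (pt_lay Y t m).f v = t) ∨ (m ≤ Y.f v ∧ (pt_lay Y t m).f v = t + 1) := by
  by_cases g : Y.f v < m
  · have e : (pt_lay Y t m).f v = min (Y.f v) t := if_pos g
    omega
  · have e : (pt_lay Y t m).f v = t + 1 := if_neg g
    omega

theorem pt_iv {t m l l' : ℕ} (U : Finset V) (h : t ≤ m) (hl : l' ≤ t) :
    (pt_lay Y t m).iv U l l' = Y.iv U l l' := by
  ext v
  have := pt_f (Y := Y) (t := t) (m := m) v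
  simp only [Lay.mem_iv]
  constructor <;> exact fun g => ⟨g.1, by omega, by omega⟩

theorem pt_iv_top {t m l : ℕ} (U : Finset V) (hl : l ≤ t) :
    (pt_lay Y t m).iv U l (t + 1) = Y.iv U l m := by
  ext v
  have := pt_f (Y := Y) (t := t) (m := m) v
  simp only [Lay.mem_iv]
  constructor <;> exact fun g => ⟨g.1, by omega, by omega⟩

/-- merging keeps the reservoir if all higher parts are within their budgets -/
theorem pt_rs {m s t : ℕ} (h : Rs G Y U m s) (ht : t < m)
    (hx : ∀ l, t < l → l ≤ m → (Y.iv U l m).card + Y.B l ≤ Y.B m) :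
    Rs G (pt_lay Y t m) U (t + 1) s := by
  refine ⟨fun l hl => ?_, fun l hl => ?_, fun l hl => ?_, ?_, fun v hv g l hl => ?_⟩
  · rcases (Nat.le_of_lt_succ hl).lt_or_eq with e | rfl
    · rw [pt_a_lt e, pt_b_lt e]
      exact h.ba l (by omega)
    · have := h.AB ht.le (le_refl m)
      rw [pt_a_top, pt_b_top]
      omega
  · rcases (Nat.le_of_lt_succ hl).lt_or_eq with e | rfl
    · rw [pt_b_lt e]
      exact h.one l (by omega)
    · have := Y.B_mono (show l + 1 ≤ m from ht)
      have := h.one l ht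
      rw [Y.B_succ] at *
      rw [pt_b_top]
      omega
  · rcases hl.lt_or_eq with e | rfl
    · have e' : l ≤ t := by omega
      rw [pt_A e', pt_B e', pt_iv U ht.le e']
      exact h.leg l (by omega)
    · rw [pt_A_top ht.le, pt_B_top ht.le, pt_iv_top U (Nat.zero_le t)]
      exact h.leg m (le_refl m)
  · rw [pt_A_top ht.le, pt_B_top ht.le, pt_iv_top U (Nat.zero_le t)]
    exact h.top
  · rcases pt_f (Y := Y) (t := t) (m := m) v with ⟨g1, g2, e⟩ | ⟨g1, g2, e⟩ | ⟨_, e⟩
    · rw [e] at hl ⊢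
      rw [pt_B (show l ≤ t by omega), pt_B (show Y.f v + 1 ≤ t from g2),
        pt_iv U ht.le (show Y.f v + 1 ≤ t from g2)]
      exact h.int v hv g1 l hl
    · rw [e] at hl ⊢
      rw [pt_B (show l ≤ t by omega), pt_B_top ht.le, pt_iv_top U (show l ≤ t by omega)]
      have := h.int v hv g1 l (by omega)
      have := hx (Y.f v + 1) (by omega) g1
      have := Y.dH_iv (G := G) U v (show l ≤ Y.f v + 1 by omega) (show Y.f v + 1 ≤ m from g1)
      have := dH_le_card (G := G) v (Y.iv U (Y.f v + 1) m)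
      omega
    · omega

/-- the small top layers are merged into one layer that exceeds its budget -/
theorem Star.merge {D : Finset V} {m s α β : ℕ} (h : Star G Y U m s D α β) (hs : 1 ≤ s) :
    ∃ (Y' : Lay V) (g : ℕ), Star G Y' U (g + 1) s D α β ∧
      Y'.b g + 1 ≤ (Y'.iv U g (g + 1)).card ∧ (Fil G Y' U (g + 1) s D → Fil G Y U m s D) := by
  have hm : 0 < m := Nat.pos_of_ne_zero fun e => by
    have := (e ▸ h.rs : Rs G Y U 0 s).zero
    omega
  obtain ⟨t, ht, h1, hx⟩ : ∃ t, t < m ∧ Y.B m + 1 ≤ (Y.iv U t m).card + Y.B t ∧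
      ∀ l, t < l → l ≤ m → (Y.iv U l m).card + Y.B l ≤ Y.B m := by
    classical
    let P : ℕ → Prop := fun t => Y.B m + 1 ≤ (Y.iv U t m).card + Y.B t
    have p0 : P 0 := by
      have := h.rs.top
      show Y.B m + 1 ≤ (Y.iv U 0 m).card + Y.B 0
      omega
    have pm : ¬P m := by
      show ¬(Y.B m + 1 ≤ (Y.iv U m m).card + Y.B m)
      rw [Y.iv_self, card_empty]
      omega
    have p1 : P (Nat.findGreatest P m) := Nat.findGreatest_spec (Nat.zero_le m) p0
    refine ⟨Nat.findGreatest P m, lt_of_le_of_ne (Nat.findGreatest_le m) fun e => pm (e ▸ p1), p1,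
      fun l g1 g2 => ?_⟩
    have p2 : ¬(Y.B m + 1 ≤ (Y.iv U l m).card + Y.B l) :=
      Nat.findGreatest_is_greatest (P := P) g1 g2
    omega
  have e0 := pt_iv_top (Y := Y) (m := m) U (Nat.zero_le t)
  refine ⟨pt_lay Y t m, t, ⟨⟨pt_rs h.rs ht hx, h.ba, h.ab, h.three, h.card, e0 ▸ h.disj, h.hap,
    fun v hv l hl => ?_⟩, fun l g1 g2 => ?_, fun l hl => ?_, fun v hv g l hl => ?_⟩, ?_, ?_⟩
  · rw [pt_B (show l ≤ t by omega), pt_B_top ht.le, pt_iv_top U (show l ≤ t by omega)]
    exact h.df v hv l (by omega)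
  · rcases g2.lt_or_eq with e | rfl
    · have e' : l ≤ t := by omega
      rw [pt_A e', pt_B e', pt_iv U ht.le e']
      exact h.pos l g1 (by omega)
    · rw [pt_A_top ht.le, pt_B_top ht.le, e0]
      exact h.pos m hm (le_refl m)
  · rcases (Nat.le_of_lt_succ hl).lt_or_eq with e | rfl
    · rw [pt_a_lt e]
      exact h.two l (by omega)
    · have := Y.A_mono (show l + 1 ≤ m from ht)
      have := h.two l ht
      rw [Y.A_succ] at *
      rw [pt_a_top]
      omega
  · have := pt_f (Y := Y) (t := t) (m := m) v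
    rw [pt_B (show l ≤ t by omega), pt_B_top ht.le, pt_iv_top U (show l ≤ t by omega)]
    exact h.suf v hv (by omega) l (by omega)
  · have := Y.B_mono ht.le
    rw [pt_b_top, pt_iv_top U (le_refl t)]
    omega
  · rintro ⟨Z, g1, g2, g3, g4⟩
    rw [e0] at g1
    have g5 := g4.top
    rw [pt_A_top ht.le, pt_B_top ht.le, pt_iv_top _ (Nat.zero_le t)] at g5
    refine ⟨Z, g1, g2, g3, h.rs.ba, h.rs.one, fun l hl => ?_, g5,
      fun v hv g => (h.rs.int v (mem_sdiff.1 hv).1 g).sdiff Z⟩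
    by_cases e : l ≤ t
    · have := g4.leg l (by omega)
      rwa [pt_A e, pt_B e, pt_iv _ ht.le e] at this
    · have := hx l (by omega) hl
      have := Y.card_iv U (Nat.zero_le l) hl
      have := h.rs.top
      have := Y.A_mono hl
      have := le_card_sdiff Z (Y.iv U 0 l)
      rw [Y.iv_sdiff]
      omega

end Pool.Agent.Lib.MP_af3016_co
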