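import Pool.Agent.Lib.MP_af3016_co.C.Plan

/-! The crossing count with weights on the kept pairs. -/

set_option autoImplicit false
set_option linter.unusedSectionVars false

namespace Pool.Agent.Lib.MP_af3016_co

open Finset SimpleGraph

variable {V : Type} [DecidableEq V] {G : SimpleGraph V} {Y : Lay V} {U : Finset V}

open Classical in
theorem scan_one (p b : V) : dG G p {b} = if G.Adj p b then 1 else 0 := by
  unfold dG
  rw [Finset.filter_singleton]
  split_ifs <;> simp

theorem scan_mark {X : Finset V} {gs : Multiset (Sym2 V)} {v : V} (h : CS G X gs) (hv : v ∈ X) :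
    ∃ u gs', CS G X (s(v, u) ::ₘ gs') ∧ gs'.card ≤ gs.card := by
  by_cases k : ∃ u, s(v, u) ∈ gs
  · obtain ⟨u, e⟩ := k
    obtain ⟨g1, rfl⟩ := Multiset.exists_cons_of_mem e
    exact ⟨u, g1, h, by simp⟩
  · obtain ⟨u, -, c⟩ := h.openAt hv fun x e => k ⟨x, e⟩
    exact ⟨u, gs, c, le_rfl⟩

theorem scan_ends (z : V) : ∀ (l : List V) (gs : Multiset (Sym2 V)), l.Nodup →
    gs ≤ lp (l ++ [z]) →
    ∃ E : Finset V, (∀ v ∈ E, v ∈ l) ∧ E.card = gs.card ∧ ∀ v ∈ E, ∃ q, s(v, q) ∈ gs
  | [], gs, _, h => by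
    obtain rfl : gs = 0 := Multiset.le_zero.1 h
    exact ⟨∅, by simp, by simp, by simp⟩
  | a :: l, gs, hn, h => by
    obtain ⟨c, hc⟩ : ∃ c, lp (a :: l ++ [z]) = s(a, c) ::ₘ lp (l ++ [z]) := by
      cases l with
      | nil => exact ⟨z, rfl⟩
      | cons y l => exact ⟨y, rfl⟩
    rw [hc] at h
    rw [List.nodup_cons] at hn
    by_cases k : s(a, c) ∈ gs
    · obtain ⟨g1, rfl⟩ := Multiset.exists_cons_of_mem k
      obtain ⟨E, e1, e2, e3⟩ := scan_ends z l g1 hn.2 ((Multiset.cons_le_cons_iff _).1 h)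
      have n : a ∉ E := fun g => hn.1 (e1 a g)
      refine ⟨insert a E, fun v hv => ?_, by rw [card_insert_of_notMem n, e2, Multiset.card_cons],
        fun v hv => ?_⟩
      · rcases mem_insert.1 hv with rfl | g
        exacts [List.mem_cons_self, List.mem_cons_of_mem _ (e1 v g)]
      · rcases mem_insert.1 hv with rfl | g
        · exact ⟨c, k⟩
        · obtain ⟨q, hq⟩ := e3 v g
          exact ⟨q, Multiset.mem_cons_of_mem hq⟩
    · obtain ⟨E, e1, e2, e3⟩ := scan_ends z l gs hn.2 ((Multiset.le_cons_of_notMem k).1 h)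
      exact ⟨E, fun v hv => List.mem_cons_of_mem _ (e1 v hv), e2, e3⟩

/-- either the number of gaps drops, or a kept pair scores more than its weight (and the exchange
at this pair is available), or the degree sum is bounded -/
theorem CS.scan {X D : Finset V} {F gs : Multiset (Sym2 V)} {p q : V} (w : Sym2 V → ℕ)
    (h : CS G X (F + s(p, q) ::ₘ gs)) (hp : p ∈ D) (hq : q ∈ D)
    (hD : ∀ x y, s(x, y) ∈ gs → x ∈ D ∧ y ∈ D) :
    (∃ gs', CS G X (F + gs') ∧ gs'.card ≤ gs.card ∧ ∀ x y, s(x, y) ∈ gs' → x ∈ D ∧ y ∈ D) ∨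
    (∃ a b F', F = s(a, b) ::ₘ F' ∧ w s(a, b) < dG G p {b} + dG G q {a} ∧
      CS G X (s(p, b) ::ₘ s(q, a) ::ₘ (F' + gs))) ∨
    dG G p X + dG G q X + F.card + gs.card + 1 ≤ X.card + (F.map w).sum := by
  classical
  rw [Multiset.add_cons] at h
  obtain ⟨l, h1, h2, h3, h4, es, h5, h6⟩ := h.cut
  refine or_iff_not_imp_left.2 fun hn => or_iff_not_imp_left.2 fun hm => ?_
  have k := plan_cnt (fun v => G.Adj p v) (fun v => G.Adj q v)
    (fun e => min (min (if e ∈ gs then 0 else 2) (if e ∈ es then 1 else 2))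
      (if e ∈ F then w e else 2)) l (by
    rintro A a b B rfl
    rw [plan_mid] at h5
    simp only [decide_eq_true_eq]
    refine le_min (le_min ?_ ?_) ?_
    · by_cases e1 : s(a, b) ∈ gs
      · obtain ⟨g1, rfl⟩ := Multiset.exists_cons_of_mem e1
        rw [Multiset.add_cons, Multiset.cons_add, Multiset.cons_inj_right] at h5
        have c := plan_flip h1 h2 h3 h4 h5 h6
        have hab := hD a b e1
        have m : ∀ {u v : V}, u ∈ D → v ∈ D → CS G X (s(u, v) ::ₘ (F + g1)) → False :=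
          fun {u v} hu hv c => hn ⟨s(u, v) ::ₘ g1, by rwa [Multiset.add_cons], by simp,
            fun x y hxy => (Multiset.mem_cons.1 hxy).elim (fun e => by
              rcases Sym2.eq_iff.1 e with ⟨rfl, rfl⟩ | ⟨rfl, rfl⟩
              exacts [⟨hu, hv⟩, ⟨hv, hu⟩]) fun e => hD x y (Multiset.mem_cons_of_mem e)⟩
        have n1 : ¬G.Adj p b := fun e => m hab.1 hq ((Multiset.cons_swap _ _ _ ▸ c).edge e)
        have n2 : ¬G.Adj q a := fun e => m hp hab.2 (c.edge e.symm)
        simp [n1, n2]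
      · rw [if_neg e1]
        split_ifs <;> omega
    · by_cases e2 : s(a, b) ∈ es
      · obtain ⟨g1, rfl⟩ := Multiset.exists_cons_of_mem e2
        rw [Multiset.add_cons, Multiset.cons_inj_right] at h5
        have c := plan_flip h1 h2 h3 h4 h5 fun e he => h6 e (Multiset.mem_cons_of_mem he)
        have n : G.Adj p b → ¬G.Adj q a := fun e e' => hn ⟨gs, (c.edge e'.symm).edge e, le_rfl, hD⟩
        rw [if_pos e2]
        split_ifs with a1 a2
        exacts [absurd a2 (n a1), le_rfl, le_rfl, Nat.zero_le _]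
      · rw [if_neg e2]
        split_ifs <;> omega
    · by_cases e3 : s(a, b) ∈ F
      · rw [if_pos e3]
        obtain ⟨F', hF⟩ := Multiset.exists_cons_of_mem e3
        rw [hF, Multiset.cons_add, Multiset.cons_add, Multiset.cons_inj_right] at h5
        have c := plan_flip h1 h2 h3 h4 h5 h6
        rw [Multiset.cons_swap, Sym2.eq_swap (a := a) (b := q)] at c
        by_contra g
        exact hm ⟨a, b, F', hF, by rw [scan_one, scan_one]; exact not_le.1 g, c⟩
      · rw [if_neg e3]
        split_ifs <;> omega)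
  obtain ⟨t, rfl⟩ : ∃ t, l = p :: t := List.head?_eq_some_iff.1 h1
  obtain ⟨u, hu⟩ := List.getLast?_eq_some_iff.1 h2
  have d1 := plan_dG (G := G) (X := X) (p := p) (t := (p :: t).tail) fun v hv e => by
    simpa [e] using (h4 v).2 hv
  have d2 := plan_dG (G := G) (X := X) (p := q) (t := (p :: t).dropLast) fun v hv e => by
    have := (h4 v).2 hv
    rw [hu] at this ⊢
    simpa [e] using this
  have c1 := plan_card t p
  have c2 : X.card = t.length + 1 := cyc_card h3 h4
  rw [h5] at k c1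
  simp only [Multiset.map_add, Multiset.sum_add, Multiset.card_add] at k c1
  have s1 := Multiset.sum_map_le_sum_map (s := F)
    (fun e => min (min (if e ∈ gs then 0 else 2) (if e ∈ es then 1 else 2))
      (if e ∈ F then w e else 2)) w fun e he => by
      rw [if_pos he]
      exact min_le_right _ _
  have s2 := Multiset.sum_le_card_nsmul
    (gs.map fun e => min (min (if e ∈ gs then 0 else 2) (if e ∈ es then 1 else 2))
      (if e ∈ F then w e else 2)) 0 fun x hx => by
      obtain ⟨e, he, rfl⟩ := Multiset.mem_map.1 hx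
      rw [if_pos he]
      exact (min_le_left _ _).trans (min_le_left _ _)
  have s3 := Multiset.sum_le_card_nsmul
    (es.map fun e => min (min (if e ∈ gs then 0 else 2) (if e ∈ es then 1 else 2))
      (if e ∈ F then w e else 2)) 1 fun x hx => by
      obtain ⟨e, he, rfl⟩ := Multiset.mem_map.1 hx
      rw [if_pos he]
      exact (min_le_left _ _).trans (min_le_right _ _)
  simp only [Multiset.card_map, smul_eq_mul] at s2 s3
  omega

theorem scan_min {D : Finset V} {gs : Multiset (Sym2 V)} {v u p q : V} (hv : v ∈ D)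
    (h : CS G D (s(v, u) ::ₘ gs))
    (ho : ∀ u gs', CS G D (s(v, u) ::ₘ gs') → gs.card ≤ gs'.card) (e : s(p, q) ∈ gs) :
    ¬G.Adj p q ∧ dG G p D + dG G q D + gs.card ≤ D.card := by
  obtain ⟨g1, rfl⟩ := Multiset.exists_cons_of_mem e
  rw [Multiset.card_cons] at ho ⊢
  refine ⟨fun a => ?_, ?_⟩
  · have := ho u g1 ((Multiset.cons_swap _ _ _ ▸ h).edge a)
    omega
  have m := h.mem (Multiset.mem_cons_of_mem e)
  rcases CS.scan (F := {s(v, u)}) (D := D) (fun _ => 1)
    (by rwa [Multiset.singleton_add]) m.1 m.2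
    (fun x y hxy => h.mem (Multiset.mem_cons_of_mem (Multiset.mem_cons_of_mem hxy))) with
    ⟨g2, c, k, -⟩ | ⟨a, b, F', hF, k, c⟩ | k
  · rw [Multiset.singleton_add] at c
    have := ho u g2 c
    omega
  · rw [scan_one, scan_one] at k
    have a1 : G.Adj p b := by
      by_contra g
      rw [if_neg g] at k
      split_ifs at k <;> omega
    have a2 : G.Adj q a := by
      by_contra g
      rw [if_neg g] at k
      split_ifs at k <;> omega
    obtain ⟨u', g2, c', k'⟩ := scan_mark ((c.edge a1).edge a2) hv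
    have := ho u' g2 c'
    have := congrArg Multiset.card hF
    rw [Multiset.card_singleton, Multiset.card_cons] at this
    rw [Multiset.card_add] at k'
    omega
  · rw [Multiset.map_singleton, Multiset.sum_singleton, Multiset.card_singleton] at k
    omega

/-- a linear order that starts at `v` and has a least number of gaps -/
theorem plan1 {D : Finset V} {v : V} (hv : v ∈ D) :
    ∃ v' gs, CS G D (s(v, v') ::ₘ gs) ∧
      (∀ p q, s(p, q) ∈ gs → ¬G.Adj p q ∧ dG G p D + dG G q D + gs.card ≤ D.card) ∧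
      (gs ≠ 0 → ∃ y ∈ D, y ≠ v' ∧ ¬G.Adj v' y ∧ dG G v' D + dG G y D + gs.card ≤ D.card) ∧
      ∀ u gs', CS G D (s(v, u) ::ₘ gs') → gs.card ≤ gs'.card := by
  classical
  have ex : ∃ n, ∃ u gs, CS G D (s(v, u) ::ₘ gs) ∧ gs.card = n := by
    obtain ⟨g0, c⟩ := exists_cs G (X := D) ⟨v, hv⟩
    obtain ⟨u, g1, c1, -⟩ := scan_mark c hv
    exact ⟨_, u, g1, c1, rfl⟩
  obtain ⟨u, gs, c, hk⟩ := Nat.find_spec ex
  have ho : ∀ u gs', CS G D (s(v, u) ::ₘ gs') → gs.card ≤ gs'.card := fun u' gs' c' =>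
    hk ▸ Nat.find_min' ex ⟨u', gs', c', rfl⟩
  by_cases z : gs = 0
  · exact ⟨u, gs, c, fun p q e => scan_min hv c ho e, fun n => absurd z n, ho⟩
  obtain ⟨e, he⟩ := Multiset.exists_mem_of_ne_zero z
  obtain ⟨l, h1, h2, h3, h4, es, h5, h6⟩ := c.cut
  obtain ⟨A, a, b, B, rfl, rfl⟩ := cyc_mem_lp (l := l) (e := e)
    (by rw [h5]; exact Multiset.mem_add.2 (Or.inl he))
  have k := scan_min hv c ho he
  have m := c.mem (Multiset.mem_cons_of_mem he)
  obtain ⟨g1, rfl⟩ := Multiset.exists_cons_of_mem he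
  rw [plan_mid, Multiset.cons_add, Multiset.cons_inj_right] at h5
  have c' := plan_flip h1 h2 h3 h4 h5 h6
  rw [Multiset.cons_swap] at c'
  have ho' : ∀ u' gs', CS G D (s(v, u') ::ₘ gs') → (s(a, u) ::ₘ g1).card ≤ gs'.card := by
    simpa only [Multiset.card_cons] using ho
  refine ⟨b, s(a, u) ::ₘ g1, c', fun p q e => scan_min hv c' ho' e,
    fun _ => ⟨a, m.1, ?_, fun g => k.1 g.symm, ?_⟩, ho'⟩
  · rintro rfl
    simp [List.nodup_append] at h3
  · have := k.2
    rw [Multiset.card_cons] at this ⊢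
    omega

/-- every vertex is an end of at most two gaps; the gaps have distinct first ends -/
theorem CS.ends {X : Finset V} {gs : Multiset (Sym2 V)} (h : CS G X gs) :
    ∃ E : Finset V, E ⊆ X ∧ E.card = gs.card ∧ ∀ v ∈ E, ∃ q, s(v, q) ∈ gs := by
  obtain ⟨x, t, h1, h2, es, h3, -⟩ := h
  obtain ⟨E, e1, e2, e3⟩ := scan_ends x (x :: t) gs h1
    (by rw [List.cons_append, h3]; exact Multiset.le_add_right _ _)
  exact ⟨E, fun v hv => (h2 v).1 (e1 v hv), e2, e3⟩

theorem CS.two_at {X : Finset V} {gs : Multiset (Sym2 V)} (h : CS G X gs) {v : V}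
    (hv : ∀ e ∈ gs, v ∈ e) : gs.card ≤ 2 := by
  classical
  by_cases z : gs = 0
  · simp [z]
  obtain ⟨e, he⟩ := Multiset.exists_mem_of_ne_zero z
  obtain ⟨q, rfl⟩ := Sym2.mem_iff_exists.1 (hv e he)
  obtain ⟨g1, rfl⟩ := Multiset.exists_cons_of_mem he
  obtain ⟨l, h1, -, h3, -, es, h5, -⟩ := h.cut
  obtain ⟨t, rfl⟩ : ∃ t, l = v :: t := List.head?_eq_some_iff.1 h1
  have k : g1 ≤ (lp (v :: t)).filter fun e => v ∈ e :=
    Multiset.le_filter.2 ⟨by rw [h5]; exact Multiset.le_add_right _ _,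
      fun e he => hv e (Multiset.mem_cons_of_mem he)⟩
  have k' := Multiset.card_le_card k
  rw [Multiset.card_cons]
  cases t with
  | nil =>
    rw [cyc_lp_single, Multiset.filter_zero, Multiset.card_zero] at k'
    omega
  | cons y t =>
    rw [cyc_lp_cons2,
      Multiset.filter_cons_of_pos (p := fun e => v ∈ e) _ (Sym2.mem_mk_left v y),
      Multiset.filter_eq_nil.2, Multiset.card_cons, Multiset.card_zero] at k'
    · omega
    · intro e he g
      obtain ⟨r, rfl⟩ := Sym2.mem_iff_exists.1 g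
      exact (List.nodup_cons.1 h3).1 (cyc_ends he).1

end Pool.Agent.Lib.MP_af3016_co
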