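import Pool.Agent.Lib.MP_af3016_co.C.Fill1a
import Pool.Agent.Lib.MP_af3016_co.C.Pt

/-! The last class lacks one vertex. -/

set_option autoImplicit false
set_option linter.unusedSectionVars false

namespace Pool.Agent.Lib.MP_af3016_co

open Finset SimpleGraph

variable {V : Type} [DecidableEq V] {G : SimpleGraph V} {Y : Lay V} {U : Finset V}

/-- the degree of a reservoir vertex into the class -/
theorem star1_c {D : Finset V} {m α β : ℕ} (h : Star G Y U m 1 D α β) {y : V}
    (hy : y ∈ Y.iv U 0 m) : α + dH G y (Y.iv U 0 m) ≤ dG G y D + Y.B m := by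
  have h1 := Lay.mem_iv.1 hy
  have h2 := h.suf y h1.1 h1.2.2 0 (Nat.zero_le _)
  have h3 := dG_add_dH_out (G := G) (Finset.disjoint_right.1 h.disj hy)
  have h4 := h.card
  rw [Y.B_zero] at h2
  omega

/-- the degree of a vertex of the class into the reservoir -/
theorem star1_d {D : Finset V} {m α β : ℕ} (h : Star G Y U m 1 D α β) (hm : 0 < m) {u : V}
    (hu : u ∈ D) : Y.A m + 2 + dH G u D ≤ dG G u (Y.iv U 0 m) + β := by
  have h2 := h.df u hu 0 hm
  have h3 := dG_add_dH_out (G := G) (Finset.disjoint_left.1 h.disj hu)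
  have h4 := h.rs.top
  have h5 := h.hap u hu
  rw [Y.B_zero] at h2
  omega

theorem star1 {D : Finset V} {m α β : ℕ} (h : Star G Y U m 1 D α β) (hC : HC G D) :
    Fil G Y U m 1 D ∨ (α = β ∧ Y.A m = Y.B m ∧ Pr G D (Y.iv U 0 m)) := by
  have hm : 0 < m := by
    rcases Nat.eq_zero_or_pos m with rfl | g
    · exact absurd h.rs.zero one_ne_zero
    · exact g
  have hl : ∀ t, 0 < t → t < m → Y.A t + Y.B t + 1 ≤ (Y.iv U 0 t).card :=
    fun t h1 h2 => h.pos t h1 h2.le
  by_cases hx : β ≤ Y.A m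
  · exact Or.inl (fill1a' h.toTop hC hm hl (by rw [Y.iv_self, Y.A_zero, Y.B_zero]; rfl)
      (by rw [Y.A_zero]; exact hx))
  have hAB := h.rs.AB (Nat.zero_le m) (le_refl m)
  rw [Y.A_zero, Y.B_zero] at hAB
  have hba := h.ba
  have hc := h.card
  have ht := h.rs.top
  by_cases hz : ∃ z ∈ Y.iv U 0 m, 2 ≤ dG G z D
  · obtain ⟨z, hz, h2⟩ := hz
    rcases one_multi h.toTop hC hl hz h2 with g | ⟨v, hv, q, hq, hvq, g1, g2, g3, g4, g5⟩
    · exact Or.inl g
    exfalso
    have dv := star1_d h hm hv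
    obtain ⟨y, hy, hvy⟩ := exists_adj (G := G) (a := v) (S := Y.iv U 0 m) (by omega)
    have cy := star1_c h hy
    have e1 := g5 y hy hvy.symm
    have s1 : ∑ y ∈ Y.iv U 0 m, dG G y (D.erase q) ≤ (Y.iv U 0 m).card := by
      rw [card_eq_sum_ones]
      exact sum_le_sum g4
    rw [← sum_dG_comm] at s1
    have hv' : v ∈ D.erase q := mem_erase.2 ⟨hvq.ne, hv⟩
    rw [← add_sum_erase _ _ hv'] at s1
    have s2 : ((D.erase q).erase v).card ≤ ∑ u ∈ (D.erase q).erase v, dG G u (Y.iv U 0 m) := by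
      rw [card_eq_sum_ones]
      refine sum_le_sum fun u hu => ?_
      have := star1_d h hm (mem_of_mem_erase (mem_of_mem_erase hu))
      omega
    rw [card_erase_of_mem hv', card_erase_of_mem hq] at s2
    omega
  · push Not at hz
    obtain ⟨y, hy⟩ : (Y.iv U 0 m).Nonempty := card_pos.1 (by omega)
    have cy := star1_c h hy
    have c1 := hz y hy
    have s1 : ∑ y ∈ Y.iv U 0 m, dG G y D ≤ (Y.iv U 0 m).card := by
      rw [card_eq_sum_ones]
      exact sum_le_sum fun y hy => by have := hz y hy; omega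
    rw [← sum_dG_comm] at s1
    have s2 : ∑ u ∈ D, (1 + dH G u D) ≤ ∑ u ∈ D, dG G u (Y.iv U 0 m) :=
      sum_le_sum fun u hu => by have := star1_d h hm hu; omega
    rw [sum_add_distrib, ← card_eq_sum_ones] at s2
    have s3 : ∑ u ∈ D, dH G u D = 0 := by omega
    rw [sum_eq_zero_iff] at s3
    refine Or.inr ⟨by omega, by omega, ?_, ?_, by omega, fun u hu => ?_, fun p hp => ?_⟩
    · intro a ha b hb hab
      exact dH_eq_zero.1 (s3 a ha) b hb (Ne.symm hab)
    · intro a ha b hb hab
      have := star1_c h ha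
      have := hz a ha
      exact dH_eq_zero.1 (show dH G a (Y.iv U 0 m) = 0 by omega) b hb (Ne.symm hab)
    · have := star1_d h hm hu
      exact exists_adj (by omega)
    · have := hz p hp
      omega

end Pool.Agent.Lib.MP_af3016_co
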