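import Pool.Agent.Lib.MP_af3016_co.C.Succ
import Pool.Agent.Lib.MP_af3016_co.C.Pt

/-! The last class lacks two vertices. -/

set_option autoImplicit false
set_option linter.unusedSectionVars false

namespace Pool.Agent.Lib.MP_af3016_co

open Finset SimpleGraph

variable {V : Type} [DecidableEq V] {G : SimpleGraph V} {Y : Lay V} {U : Finset V}

/-- the graph with all pairs inside `H` added -/
def st2_G (G : SimpleGraph V) (H : Finset V) : SimpleGraph V :=
  G ⊔ SimpleGraph.fromRel fun a b => a ∈ H ∧ b ∈ H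

theorem st2_clq (G : SimpleGraph V) (H : Finset V) : Clq (st2_G G H) H :=
  fun _ ha _ hb e => Or.inr ((fromRel_adj _ _ _).2 ⟨e, .inl ⟨ha, hb⟩⟩)

theorem st2_le (G : SimpleGraph V) (H : Finset V) : G ≤ st2_G G H := le_sup_left

/-- the added pairs are removed from the final cycle -/
theorem st2_close {D H Z : Finset V} {m α β : ℕ} (h : Top G Y U m 2 D α β)
    (hH : ∀ v ∈ H, v ∈ D ∧ dH G v D + 3 ≤ β) (hZ : Z ⊆ Y.iv U 0 m) (hc : Z.card = 2)
    (hR : Rs G Y (U \ Z) m 0) (hC : HC (st2_G G H) (D ∪ Z)) : Fil G Y U m 2 D := by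
  refine ⟨Z, hZ, hc, closure hC fun x _ y _ g1 g2 => ?_, hR⟩
  have g3 : x ∈ H ∧ y ∈ H := by
    rcases ((fromRel_adj _ _ _).1 (g1.resolve_left g2)).2 with e | e
    exacts [e, e.symm]
  have k1 := hH x g3.1
  have k2 := hH y g3.2
  have k3 := dG_add_dH_in (G := G) k1.1
  have k4 := dG_add_dH_in (G := G) k2.1
  have k5 := dG_mono (G := G) (a := x) (subset_union_left (s₁ := D) (s₂ := Z))
  have k6 := dG_mono (G := G) (a := y) (subset_union_left (s₁ := D) (s₂ := Z))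
  have k7 := card_union_le D Z
  have k8 := h.card
  have k9 := h.ba
  omega

theorem st2_fil {D H : Finset V} {m α β : ℕ} {p q : V} (h : Top G Y U m 2 D α β)
    (hH : ∀ v ∈ H, v ∈ D ∧ dH G v D + 3 ≤ β) (hp : HP (st2_G G H) p q D)
    (hl : Lnk G Y U m 2 0 p q) : Fil G Y U m 2 D := by
  obtain ⟨z, z', Z, h1, h2, h3, h4, h5, h6⟩ := hl
  have hZ : Disjoint D Z := h.disj.mono_right h4
  refine st2_close h hH h4 h5 h6 ((hp.join (h1.symm.mono (st2_le G H))
    (fun t ht => Finset.disjoint_left.1 hZ ht) (st2_le G H h3) fun t => mem_union).cycle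
      (st2_le G H h2.symm) ?_)
  have := card_pos.2 ⟨p, hp.left⟩
  rw [card_union_of_disjoint hZ]
  omega

/-- two ears on a class without light vertices -/
theorem st2_ears {D : Finset V} {m α β : ℕ} {z z' p q p' q' : V} (h : Top G Y U m 2 D α β)
    (hH : ∀ v ∈ D, dH G v D + 3 ≤ β) (hz : z ∈ Y.iv U 0 m) (hz' : z' ∈ Y.iv U 0 m) (hzz : z ≠ z')
    (hR : Rs G Y (U \ {z, z'}) m 0) (hp : p ∈ D) (hq : q ∈ D) (hp' : p' ∈ D) (hq' : q' ∈ D)
    (a1 : G.Adj z p) (a2 : G.Adj z q) (a3 : G.Adj z' p') (a4 : G.Adj z' q') (n1 : p ≠ q)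
    (n2 : p ≠ p') (n3 : p ≠ q') (n4 : q' ≠ q) (n5 : q' ≠ p') : Fil G Y U m 2 D := by
  have hS : ({q, p'} : Finset V) ⊆ D := insert_subset hq (singleton_subset_iff.2 hp')
  have c := st2_clq G D
  have l := st2_le G D
  have dz : z ∉ D := fun g => Finset.disjoint_left.1 h.disj g hz
  have dz' : z' ∉ D := fun g => Finset.disjoint_left.1 h.disj g hz'
  have p1 : HP (st2_G G D) q p' {q, p'} := by
    by_cases e : q = p'
    · subst e
      simpa using HP.single (G := st2_G G D) q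
    · exact HP.clique _ _ q p' rfl (c.mono hS) (by simp) (by simp) e
  have p2 : HP (st2_G G D) q' p (D \ {q, p'}) :=
    HP.clique _ _ q' p rfl (c.mono sdiff_subset) (by simp [hq', n4, n5]) (by simp [hp, n1, n2])
      n3.symm
  have p3 := (p2.cons (l a4) fun g => dz' (mem_sdiff.1 g).1).join
    (p1.cons (l a2) fun g => dz (hS g)) (Z := D ∪ {z, z'}) (fun t ht g => by
      rcases mem_insert.1 ht with rfl | ht <;> rcases mem_insert.1 g with e | g
      exacts [hzz e.symm, dz' (hS g), dz (e ▸ (mem_sdiff.1 ht).1), (mem_sdiff.1 ht).2 g])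
    (l a1.symm) fun t => by
      have := @hS t
      simp only [mem_union, mem_insert, mem_singleton, mem_sdiff] at this ⊢
      tauto
  have hZ : ({z, z'} : Finset V) ⊆ Y.iv U 0 m := insert_subset hz (singleton_subset_iff.2 hz')
  refine st2_close h (H := D) (fun v hv => ⟨hv, hH v hv⟩) hZ (card_pair hzz) hR
    (p3.cycle (l a3.symm) ?_)
  have := card_pos.2 ⟨p, hp⟩
  rw [card_union_of_disjoint (h.disj.mono_right hZ), card_pair hzz]
  omega

theorem st2_idx {m : ℕ} (h : Rs G Y U m 2) : ∃ i < m, (Y.iv U 0 i).card ≤ Y.A i + Y.B i + 1 ∧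
    ∀ t, i < t → t ≤ m → Y.A t + Y.B t + 2 ≤ (Y.iv U 0 t).card := by
  obtain ⟨i, hi, hm⟩ := exists_max_image
    ((range (m + 1)).filter fun t => (Y.iv U 0 t).card ≤ Y.A t + Y.B t + 1) id
    ⟨0, by simp [Y.iv_self]⟩
  rw [mem_filter, mem_range] at hi
  have := h.top
  refine ⟨i, ?_, hi.2, fun t h1 h2 => ?_⟩
  · rcases (Nat.lt_succ_iff.1 hi.1).lt_or_eq with e | rfl
    exacts [e, by omega]
  · by_contra k
    have := hm t (mem_filter.2 ⟨mem_range.2 (by omega), by omega⟩)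
    simp only [id] at this
    omega

theorem st2_card (Y : Lay V) (U : Finset V) (z : V) (t : ℕ) :
    (Y.iv U 0 t).card ≤ (Y.iv (U \ {z}) 0 t).card + 1 := by
  rw [Y.iv_sdiff]
  simpa using card_le_card_sdiff_add_card (s := Y.iv U 0 t) (t := {z})

/-- a common neighbour below the level `g` after one removal above the level `i` -/
theorem st2_low {m i g c e e' : ℕ} {z u u' : V} (h : Rs G Y U m 2) (hg : i ≤ g) (hm : g ≤ m)
    (hl : ∀ t, i < t → t ≤ m → Y.A t + Y.B t + 2 ≤ (Y.iv U 0 t).card) (hz : z ∈ Y.iv U i m)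
    (hu : u ∉ Y.iv (U \ {z}) 0 g) (hu' : u' ∉ Y.iv (U \ {z}) 0 g) (d : Df G Y U g u e)
    (d' : Df G Y U g u' e') (hc : Y.A g + Y.B g + c + 1 ≤ (Y.iv (U \ {z}) 0 g).card)
    (he : e + e' ≤ c + 2) : Lnk G Y (U \ {z}) m 1 0 u u' := by
  have h1 : Rs G Y (U \ {z}) m 1 := Rs.remove_iv (r := 1) (w := 1) h (singleton_subset_iff.2 hz)
    (card_singleton z) fun t t1 t2 => by have := hl t t1 t2.le; omega
  obtain ⟨s', h2⟩ := h1.low hm
  have := h2.top
  obtain ⟨w, rfl⟩ : ∃ w, s' = 1 + w := ⟨s' - 1, by omega⟩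
  refine Lnk.lift (r := 1) (w := 0) h1 hm
    (link_one h2 hu hu' (d.sdiff _) (d'.sdiff _) (by omega)) fun t t1 t2 => ?_
  have := hl t (by omega) t2.le
  have := st2_card Y U z t
  omega

/-- an edge above the level `i` is a link -/
theorem st2_edge {m i : ℕ} {z z' y y' : V} (h : Rs G Y U m 2)
    (hl : ∀ t, i < t → t ≤ m → Y.A t + Y.B t + 2 ≤ (Y.iv U 0 t).card) (hz : z ∈ Y.iv U i m)
    (hz' : z' ∈ Y.iv U i m) (a : G.Adj z z') (a1 : G.Adj y z) (a2 : G.Adj y' z') :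
    Lnk G Y U m 2 0 y y' := by
  have hZ : ({z, z'} : Finset V) ⊆ Y.iv U i m := insert_subset hz (singleton_subset_iff.2 hz')
  exact ⟨z, z', {z, z'}, (HP.single z').cons a (by simp [a.ne]), a1, a2,
    hZ.trans (Lay.iv_mono (Subset.refl U) (Nat.zero_le i) le_rfl), card_pair a.ne,
    Rs.remove_iv (r := 2) (w := 0) h hZ (card_pair a.ne) fun t t1 t2 => hl t t1 t2.le⟩

theorem st2_keep {i m : ℕ} {z : V} (hz : z ∈ Y.iv U i m) :
    Y.iv (U \ {z}) 0 i = Y.iv U 0 i := by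
  rw [Y.iv_sdiff]
  refine sdiff_eq_self_of_disjoint (disjoint_singleton_right.2 fun g => ?_)
  rw [Lay.mem_iv] at hz g
  omega

/-- a vertex above the level `i` with a single neighbour in the class -/
theorem st2_K {D : Finset V} {m i α β : ℕ} {z y u : V} (h : Star G Y U m 2 D α β) (hi : i ≤ m)
    (hl : ∀ t, i < t → t ≤ m → Y.A t + Y.B t + 2 ≤ (Y.iv U 0 t).card) (hz : z ∈ Y.iv U i m)
    (hu : u ∈ D) (a : G.Adj y z) (n : ¬G.Adj u z) (h1 : dG G z D ≤ 1) :
    Lnk G Y U m 2 0 y u := by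
  by_cases k : ∃ z' ∈ Y.iv U i m, G.Adj z z' ∧ G.Adj u z'
  · obtain ⟨z', k1, k2, k3⟩ := k
    exact st2_edge h.rs hl hz k1 k2 a k3
  obtain ⟨N, k1, k2⟩ := exists_non (G := G) z (Y.iv U i m)
  have k3 : dG G u (Y.iv U i m) ≤ N.card := dG_le fun b hb g =>
    (k2 b).2 ⟨hb, fun e => n (e ▸ g), fun g' => k ⟨b, hb, g', g⟩⟩
  obtain ⟨e, e', s', r, d, d', e1, e2, -, -, e3⟩ := h.pt hi hu hz
  have k4 := h.rs.AB hi le_rfl
  have k5 := h.ba
  have k6 := r.top
  have hz0 : z ∈ Y.iv U 0 m := Lay.iv_mono (Subset.refl U) (Nat.zero_le i) le_rfl hz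
  refine Lnk.cons (r := 1) hz0 a (st2_low (c := s' - 1) h.rs le_rfl hi hl hz (fun g => ?_)
    (fun g => ?_) d' d (by rw [st2_keep hz]; omega) (by omega))
  · exact (mem_sdiff.1 (Y.iv_sub _ _ _ g)).2 (mem_singleton_self z)
  · exact Finset.disjoint_left.1 h.disj hu (Lay.iv_mono sdiff_subset le_rfl hi g)

/-- exactly one light vertex -/
theorem st2_one {D : Finset V} {m α β : ℕ} {v : V} (h : Star G Y U m 2 D α β) (hC : HC G D)
    (hv : v ∈ D) (h1 : β ≤ dH G v D + 2) (hH : ∀ u ∈ D, u ≠ v → dH G u D + 3 ≤ β) :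
    Fil G Y U m 2 D := by
  classical
  obtain ⟨i, hi, s1, hl⟩ := st2_idx h.rs
  have hH' : ∀ u ∈ D.erase v, u ∈ D ∧ dH G u D + 3 ≤ β := fun u hu =>
    ⟨mem_of_mem_erase hu, hH u (mem_of_mem_erase hu) (mem_erase.1 hu).1⟩
  obtain ⟨c, p, hcp, ac, ap, hP⟩ := hC.del hv
  have path : ∀ u ∈ D.erase v, HP (st2_G G (D.erase v)) v u D := fun u hu => by
    obtain ⟨x, hx, ax, n⟩ : ∃ x ∈ D.erase v, G.Adj v x ∧ x ≠ u := by
      by_cases e : c = u
      exacts [⟨p, hP.right, ap, e ▸ hcp.symm⟩, ⟨c, hP.left, ac, e⟩]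
    have := (HP.clique _ _ x u rfl (st2_clq G (D.erase v)) hx hu n).cons (st2_le G _ ax)
      (notMem_erase v D)
    rwa [insert_erase hv] at this
  have k1 := Y.card_iv U (Nat.zero_le i) hi.le
  have k2 := h.rs.top
  have k3 := Y.A_mono hi.le
  have k4 := Y.B_mono hi.le
  obtain ⟨y, hy⟩ : (Y.iv U i m).Nonempty := card_pos.1 (by omega)
  have hT : ((Y.iv U i m).filter fun z => ∃ u ∈ D, G.Adj z u).Nonempty := by
    obtain ⟨e, e', s', r, -, -, e1, e2, -, -, e3⟩ := h.pt hi.le hv hy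
    have k5 := h.rs.AB hi.le le_rfl
    have k6 := h.ba
    have k7 := r.top
    by_cases k : 0 < dG G y D
    · exact ⟨y, mem_filter.2 ⟨hy, exists_adj k⟩⟩
    · obtain ⟨b, hb, ab⟩ := exists_adj (G := G) (a := v) (S := Y.iv U i m) (by omega)
      exact ⟨b, mem_filter.2 ⟨hb, v, hv, ab.symm⟩⟩
  obtain ⟨z, hz, hmax⟩ := exists_max_image _ Y.f hT
  obtain ⟨hz, x, hx, ax⟩ := mem_filter.1 hz
  by_cases k : ∃ u ∈ D.erase v, G.Adj z u
  · obtain ⟨u, hu, au⟩ := k
    obtain ⟨z1, z2, z3⟩ := Lay.mem_iv.1 hz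
    have hz0 : z ∈ Y.iv U 0 m := Lay.mem_iv.2 ⟨z1, Nat.zero_le _, z3⟩
    have k5 := hl (Y.f z + 1) (by omega) z3
    have k6 := st2_card Y U z (Y.f z + 1)
    have k7 := Y.card_iv U (Nat.zero_le (Y.f z + 1)) z3
    have k8 : dH G v (Y.iv U (Y.f z + 1) m) = (Y.iv U (Y.f z + 1) m).card :=
      dH_eq_card fun b hb => by
        have hb' := Lay.mem_iv.1 hb
        refine ⟨fun e => Finset.disjoint_left.1 h.disj hv
          (e ▸ Lay.mem_iv.2 ⟨hb'.1, Nat.zero_le _, hb'.2.2⟩), fun g => ?_⟩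
        have := hmax b (mem_filter.2 ⟨Lay.mem_iv.2 ⟨hb'.1, by omega, hb'.2.2⟩, v, hv, g.symm⟩)
        omega
    have k9 := Y.A_mono (show Y.f z + 1 ≤ m from z3)
    obtain ⟨w, hw⟩ := Nat.exists_eq_add_of_le k5
    have d : Df G Y U (Y.f z + 1) v (w + 2) := (h.df v hv).down z3 (by omega)
    refine st2_fil h.toTop hH' (path u hu) (Lnk.symm (Lnk.cons (r := 1) hz0 au.symm
      (st2_low (c := w) (g := Y.f z + 1) h.rs (by omega) z3 hl hz (fun g => ?_) (fun g => ?_)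
        (h.rs.int z z1 z3) d (by omega) (by omega))))
    · exact (mem_sdiff.1 (Y.iv_sub _ _ _ g)).2 (mem_singleton_self z)
    · exact Finset.disjoint_left.1 h.disj hv (Lay.iv_mono sdiff_subset le_rfl z3 g)
  · have k5 : ∀ u ∈ D, G.Adj z u → u = v := fun u hu g => by
      by_contra e
      exact k ⟨u, mem_erase.2 ⟨e, hu⟩, g⟩
    refine st2_fil h.toTop hH' (path c hP.left) (st2_K h hi.le hl hz (mem_of_mem_erase hP.left)
      (k5 x hx ax ▸ ax.symm) (fun g => k ⟨c, hP.left, g.symm⟩) ?_)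
    exact dG_le (R := {v}) fun b hb g => mem_singleton.2 (k5 b hb g)

/-- no light vertex -/
theorem st2_none {D : Finset V} {m α β : ℕ} (h : Star G Y U m 2 D α β) (h3 : 3 ≤ D.card)
    (hH : ∀ u ∈ D, dH G u D + 3 ≤ β) : Fil G Y U m 2 D := by
  obtain ⟨i, hi, s1, hl⟩ := st2_idx h.rs
  by_contra hn
  have lnk : ∀ p ∈ D, ∀ q ∈ D, p ≠ q → ¬Lnk G Y U m 2 0 p q := fun p hp q hq n l =>
    hn (st2_fil h.toTop (H := D) (fun v hv => ⟨hv, hH v hv⟩)
      (HP.clique _ _ p q rfl (st2_clq G D) hp hq n) l)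
  have third : ∀ p q, ∃ w ∈ D, w ≠ p ∧ w ≠ q := fun p q => by
    by_contra k
    push Not at k
    have : D ⊆ {p, q} := fun w hw => by
      by_cases e : w = p
      exacts [by simp [e], by simp [k w hw e]]
    have := card_le_card this
    have := card_le_two (a := p) (b := q)
    omega
  have multi : ∀ z ∈ Y.iv U i m, ∀ y ∈ D, G.Adj z y → ∃ x ∈ D, G.Adj z x ∧ x ≠ y :=
    fun z hz y hy a => by
      by_contra k
      push Not at k
      obtain ⟨w, hw, n, -⟩ := third y y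
      exact lnk y hy w hw n.symm (st2_K h hi.le hl hz hw a.symm (fun g => n (k w hw g.symm))
        (dG_le (R := {y}) fun b hb g => mem_singleton.2 (k b hb g)))
  have sub : Y.iv U i m ⊆ Y.iv U 0 m := Lay.iv_mono (Subset.refl U) (Nat.zero_le i) le_rfl
  have sub' : Y.iv U i (i + 1) ⊆ Y.iv U i m := Lay.iv_mono (Subset.refl U) le_rfl hi
  obtain ⟨y, hy, y0⟩ : ∃ y ∈ Y.iv U i m, dG G y D = 0 := by
    have k1 := Y.card_iv U (Nat.zero_le i) (Nat.le_succ i)
    have k2 := hl (i + 1) (Nat.lt_succ_self i) hi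
    have k3 := Y.A_succ i
    have k4 := Y.B_succ i
    simp only [Nat.succ_eq_add_one] at k1
    obtain ⟨y, hy⟩ : (Y.iv U i (i + 1)).Nonempty := card_pos.1 (by omega)
    obtain ⟨y1, y2, y3⟩ := Lay.mem_iv.1 hy
    have k5 := h.rs.int y y1 (by omega) i (by omega)
    rw [show Y.f y = i by omega] at k5
    have k6 := dG_add_dH_in (G := G) hy
    have k7 := h.rs.ba i hi
    have k8 := h.rs.one i hi
    obtain ⟨y', hy', a⟩ := exists_adj (G := G) (a := y) (S := Y.iv U i (i + 1)) (by omega)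
    by_contra k
    push Not at k
    obtain ⟨p, hp, ap⟩ := exists_adj (Nat.pos_of_ne_zero (k y (sub' hy)))
    obtain ⟨q, hq, aq⟩ := exists_adj (Nat.pos_of_ne_zero (k y' (sub' hy')))
    obtain ⟨q', hq', aq', n⟩ := multi y' (sub' hy') q hq aq
    by_cases e : p = q
    · exact lnk p hp q' hq' (e ▸ n.symm) (st2_edge h.rs hl (sub' hy) (sub' hy') a ap.symm aq'.symm)
    · exact lnk p hp q hq e (st2_edge h.rs hl (sub' hy) (sub' hy') a ap.symm aq.symm)
  have k1 := h.rs.AB hi.le le_rfl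
  have k2 := h.ba
  have pt : ∀ u ∈ D, 0 < dG G u (Y.iv U i m) ∧ (dG G u (Y.iv U i m) ≤ 1 →
      Df G Y U i u 1 ∧ Y.A i + Y.B i + 1 ≤ (Y.iv U 0 i).card) := fun u hu => by
    obtain ⟨e, e', s', r, d, -, e1, e2, -, -, e3⟩ := h.pt hi.le hu hy
    have := r.top
    exact ⟨by omega, fun k => ⟨d.mono (by omega), by omega⟩⟩
  have ears : ∀ z ∈ Y.iv U i m, ∀ z' ∈ Y.iv U i m, z ≠ z' → Rs G Y (U \ {z, z'}) m 0 :=
    fun z hz z' hz' n => Rs.remove_iv (r := 2) (w := 0) h.rs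
      (insert_subset hz (singleton_subset_iff.2 hz')) (card_pair n) fun t t1 t2 => hl t t1 t2.le
  obtain ⟨p, hp, -⟩ := third y y
  obtain ⟨z, hz, ap⟩ := exists_adj (pt p hp).1
  obtain ⟨q, hq, aq, n⟩ := multi z hz p hp ap.symm
  by_cases k : ∃ u ∈ D, ¬G.Adj z u
  · obtain ⟨u, hu, nu⟩ := k
    obtain ⟨z', hz', au⟩ := exists_adj (pt u hu).1
    obtain ⟨x, hx, ax, nx⟩ := multi z' hz' u hu au.symm
    have zz : z ≠ z' := fun e => nu (e ▸ au.symm)
    have n1 : p ≠ u := fun e => nu (e ▸ ap.symm)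
    have n2 : q ≠ u := fun e => nu (e ▸ aq)
    by_cases e : p = x
    · exact hn (st2_ears h.toTop hH (sub hz) (sub hz') zz (ears z hz z' hz' zz) hq hp hx hu aq
        ap.symm ax au.symm n (e ▸ n) n2 n1.symm nx.symm)
    · exact hn (st2_ears h.toTop hH (sub hz) (sub hz') zz (ears z hz z' hz' zz) hp hq hx hu ap.symm
        aq ax au.symm n.symm e n1 n2.symm nx.symm)
  push Not at k
  by_cases k' : ∃ z' ∈ Y.iv U i m, z ≠ z' ∧ ∃ u ∈ D, G.Adj z' u
  · obtain ⟨z', hz', zz, u, hu, au⟩ := k'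
    obtain ⟨x, hx, ax, nx⟩ := multi z' hz' u hu au
    obtain ⟨w, hw, n1, n2⟩ := third x u
    exact hn (st2_ears h.toTop hH (sub hz) (sub hz') zz (ears z hz z' hz' zz) hw hx hx hu (k w hw)
      (k x hx) ax au n1 n1 n2 nx.symm nx.symm)
  have one : ∀ u ∈ D, dG G u (Y.iv U i m) ≤ 1 := fun u hu =>
    dG_le (R := {z}) fun b hb g => mem_singleton.2 (by
      by_contra e
      exact k' ⟨b, hb, fun e' => e e'.symm, u, hu, g.symm⟩)
  have out : ∀ u ∈ D, u ∉ Y.iv (U \ {z}) 0 i := fun u hu g =>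
    Finset.disjoint_left.1 h.disj hu (Lay.iv_mono sdiff_subset le_rfl hi.le g)
  obtain ⟨a, b, Z, g1, g2, g3, g4, g5, g6⟩ := st2_low (c := 0) h.rs le_rfl hi.le hl hz (out p hp)
    (out q hq) ((pt p hp).2 (one p hp)).1 ((pt q hq).2 (one q hq)).1
    (by rw [st2_keep hz]; exact ((pt p hp).2 (one p hp)).2) le_rfl
  obtain ⟨z', rfl⟩ := card_eq_one.1 g5
  have ea := mem_singleton.1 g1.left
  have eb := mem_singleton.1 g1.right
  subst ea
  rw [eb] at g3
  have g7 := g4 (mem_singleton_self a)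
  rw [Y.iv_sdiff, mem_sdiff, mem_singleton] at g7
  obtain ⟨w, hw, n1, n2⟩ := third p q
  refine hn (st2_ears h.toTop hH (sub hz) g7.1 (Ne.symm g7.2) ?_ hw hp hp hq (k w hw) (k p hp)
    g2.symm g3.symm n1 n1 n2 n n)
  rwa [sdiff_sdiff_left, sup_eq_union, ← insert_eq] at g6

theorem star2 {D : Finset V} {m α β : ℕ} (h : Star G Y U m 2 D α β) (hC : HC G D) :
    Fil G Y U m 2 D := by
  have h3 := hC.three
  by_cases k : ∀ u ∈ D, dH G u D + 3 ≤ β
  · exact st2_none h h3 k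
  push Not at k
  obtain ⟨v, hv, lv⟩ := k
  by_cases k : ∀ u ∈ D, u ≠ v → dH G u D + 3 ≤ β
  · exact st2_one h hC hv (by omega) k
  push Not at k
  obtain ⟨u, hu, n, lu⟩ := k
  have two : ∀ p ∈ D, ∀ q ∈ D, β < dH G p D + 3 → β < dH G q D + 3 → HP G p q D →
      Fil G Y U m 2 D := fun p hp q hq lp lq hP =>
    (link_two (w := 0) h.rs (Finset.disjoint_left.1 h.disj hp) (Finset.disjoint_left.1 h.disj hq)
      (h.df p hp) (h.df q hq) (by omega) (by omega)).fil hP h.disj (by omega)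
  obtain ⟨σ, -, c, -⟩ := hC.cs.cyc (by omega)
  by_cases e1 : β < dH G (σ u) D + 3
  · exact two _ (c.mem u hu) u hu e1 lu (c.path u hu)
  by_cases e2 : β < dH G (σ v) D + 3
  · exact two _ (c.mem v hv) v hv e2 lv (c.path v hv)
  have k1 := dG_add_dH_in (G := G) (c.mem u hu)
  have k2 := dG_add_dH_in (G := G) (c.mem v hv)
  have k3 := h.card
  have k4 := h.ba
  exact two u hu v hv lu lv (c.succ u hu v hv n (by omega))

end Pool.Agent.Lib.MP_af3016_co
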