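import Pool.Agent.Lib.MP_af3016_co.C.Succ
import Pool.Agent.Lib.MP_af3016_co.C.Pt

/-! The last class lacks at least three vertices. -/

set_option autoImplicit false
set_option linter.unusedSectionVars false

namespace Pool.Agent.Lib.MP_af3016_co

open Finset SimpleGraph

variable {V : Type} [DecidableEq V] {G : SimpleGraph V} {Y : Lay V} {U : Finset V}

theorem st3_low {g : ℕ} {z : V} (hz : z ∈ Y.iv U g (g + 1)) : z ∈ Y.iv U 0 (g + 1) :=
  Lay.iv_mono (Subset.refl U) (Nat.zero_le g) (le_refl _) hz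

theorem st3_not {t g : ℕ} {U' : Finset V} {z : V} (h : U' ⊆ U \ {z}) : z ∉ Y.iv U' t g :=
  fun e => (mem_sdiff.1 (h (Y.iv_sub _ _ _ e))).2 (mem_singleton_self z)

theorem st3_keep {t g : ℕ} {z p : V} (hp : p ∈ Y.iv U t g) (e : p ≠ z) :
    p ∈ Y.iv (U \ {z}) t g := by
  rw [Y.iv_sdiff]
  exact mem_sdiff.2 ⟨hp, fun k => e (mem_singleton.1 k)⟩

theorem st3_df {g s : ℕ} {z : V} (h : Rs G Y U (g + 1) s) (hz : z ∈ Y.iv U g (g + 1)) :
    Df G Y U (g + 1) z 0 := by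
  obtain ⟨h1, h2, h3⟩ := Lay.mem_iv.1 hz
  have := h.int z h1 h3
  rwa [show Y.f z = g by omega] at this

theorem st3_one {g w : ℕ} {u u' z : V} (h : Rs G Y U (g + 1) (1 + w))
    (hz : z ∈ Y.iv U g (g + 1)) (h1 : G.Adj u z) (h2 : G.Adj u' z) : Lnk G Y U (g + 1) 1 w u u' :=
  ⟨z, z, {z}, HP.single z, h1, h2, singleton_subset_iff.2 (st3_low hz), card_singleton z,
    h.remove_top hz⟩

/-- a link through two members of the top layer -/
theorem st3_two {g r w : ℕ} {u u' p p' : V} (h : Rs G Y U (g + 1) (r + 2 + w))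
    (hp : p ∈ Y.iv U g (g + 1)) (hp' : p' ∈ Y.iv U g (g + 1)) (hne : p' ≠ p)
    (h0 : r = 0 → G.Adj p p') (h1 : G.Adj u p) (h2 : G.Adj u' p') :
    Lnk G Y U (g + 1) (r + 2) w u u' := by
  have r1 : Rs G Y (U \ {p}) (g + 1) (1 + (r + w)) :=
    Rs.remove_top (by rwa [show 1 + (1 + (r + w)) = r + 2 + w by omega]) hp
  have k := st3_keep hp' hne
  refine Lnk.cons (st3_low hp) h1 ?_
  rcases Nat.eq_zero_or_pos r with rfl | hr
  · exact st3_one (by simpa using r1) k (h0 rfl) h2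
  · exact (Lnk.cons (st3_low k) h2 (link_walk (r1.remove_top k) hr (st3_not (Subset.refl _))
      (st3_not sdiff_subset) ((st3_df r1 k).sdiff _) (((st3_df h hp).sdiff _).sdiff _)
      (by omega))).symm

/-- removal of a vertex below the top layer -/
theorem st3_up {g s s' : ℕ} {z : V} (h : Rs G Y U (g + 1) (1 + s)) (hz : z ∈ Y.iv U 0 g)
    (h' : Rs G Y (U \ {z}) g s') : Rs G Y (U \ {z}) (g + 1) s :=
  h.lift (Nat.le_succ g) (singleton_subset_iff.2 hz) (card_singleton z) h' fun t h1 h2 => by omega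

theorem st3_out {g : ℕ} {U' : Finset V} {p : V} (hp : p ∈ Y.iv U g (g + 1)) : p ∉ Y.iv U' 0 g :=
  fun e => by
    rw [Lay.mem_iv] at hp e
    omega

/-- a common neighbour below the top layer -/
theorem st3_com {U' : Finset V} {g w e e' : ℕ} {u p : V} (h : Rs G Y U' g (1 + w)) (hU : U' ⊆ U)
    (hu : u ∉ Y.iv U 0 (g + 1)) (hp : p ∈ Y.iv U g (g + 1)) (d : Df G Y U g u e)
    (d' : Df G Y U g p e') (he : e + e' ≤ w + 2) :
    ∃ z ∈ Y.iv U' 0 g, G.Adj u z ∧ G.Adj p z ∧ Rs G Y (U' \ {z}) g w := by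
  obtain ⟨z, z', Z, h1, h2, h3, h4, h5, h6⟩ := link_one h
    (fun k => hu (Lay.iv_mono hU (le_refl 0) (Nat.le_succ g) k)) (st3_out hp) (d.sub hU)
    (d'.sub hU) he
  obtain ⟨x, rfl⟩ := card_eq_one.1 h5
  obtain rfl := mem_singleton.1 h1.left
  obtain rfl := mem_singleton.1 h1.right
  exact ⟨_, h4 h1.left, h2, h3, h6⟩

theorem st3_pt {D : Finset V} {g s α β : ℕ} (h : Star G Y U (g + 1) s D α β) {u p : V}
    (hu : u ∈ D) (hp : p ∈ Y.iv U g (g + 1)) :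
    ∃ e e' s', Rs G Y U g s' ∧ Df G Y U g u e ∧ Df G Y U g p e' ∧ 2 ≤ e + e' ∧
      e + e' ≤ s' + dG G p D + dG G u (Y.iv U g (g + 1)) := by
  obtain ⟨e, e', s', h1, h2, h3, h4, h5, -, -, h6⟩ := h.pt (Nat.le_succ g) hu hp
  have := h.ba
  have := h.rs.ba g (Nat.lt_succ_self g)
  simp only [Y.A_succ, Y.B_succ] at h6
  exact ⟨e, e', s', h1, h2, h3, by omega, by omega⟩

theorem st3_main {D : Finset V} {g s α β : ℕ} (h : Star G Y U (g + 1) (s + 3) D α β)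
    (hP : Y.b g + 1 ≤ (Y.iv U g (g + 1)).card) (h2 : 2 ≤ D.card) {σ : V → V} (hσ : Cyc G D σ) :
    Fil G Y U (g + 1) (s + 3) D := by
  have out : ∀ u ∈ D, u ∉ Y.iv U 0 (g + 1) := fun u hu => Finset.disjoint_left.1 h.disj hu
  have nb : ∀ z ∈ Y.iv U g (g + 1), ∃ p ∈ Y.iv U g (g + 1), G.Adj z p := fun z hz => by
    have h3 := st3_df h.rs hz g (Nat.lt_succ_self g)
    have h4 := dG_add_dH_in (G := G) hz
    rw [Y.B_succ] at h3
    exact exists_adj (by omega)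
  have below : ∀ {U' : Finset V} {z : V}, z ∈ Y.iv U' 0 g → z ∈ Y.iv U' 0 (g + 1) := fun k =>
    Lay.iv_mono (Subset.refl _) (le_refl 0) (Nat.le_succ g) k
  have ne : ∀ {U' : Finset V} {z p : V}, p ∈ Y.iv U g (g + 1) → z ∈ Y.iv U' 0 g → p ≠ z :=
    fun k k' e => st3_out k (e ▸ k')
  have hr : Rs G Y U (g + 1) (1 + (s + 2 + 0)) := by
    rw [show 1 + (s + 2 + 0) = s + 3 by omega]
    exact h.rs
  by_cases c1 : ∃ y1 ∈ D, ∃ y2 ∈ D, ∃ z1 ∈ Y.iv U g (g + 1), ∃ z2 ∈ Y.iv U g (g + 1),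
      y1 ≠ y2 ∧ z2 ≠ z1 ∧ G.Adj y1 z1 ∧ G.Adj y2 z2
  · obtain ⟨y1, k1, y2, k2, z1, l1, z2, l2, n1, n2, a1, a2⟩ := c1
    have key : ∀ y ∈ D, ∀ z ∈ Y.iv U g (g + 1), G.Adj y z → β - dH G (σ y) D ≤ s + 2 →
        Fil G Y U (g + 1) (s + 3) D := fun y hy z hz a t => by
      have r1 := hr.remove_top hz
      have d := (h.df _ (hσ.mem y hy)).sdiff {z}
      have d0 := (st3_df h.rs hz).sdiff {z}
      have o : σ y ∉ Y.iv (U \ {z}) 0 (g + 1) := fun k =>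
        out _ (hσ.mem y hy) (Lay.iv_mono sdiff_subset (le_refl 0) (le_refl _) k)
      refine (Lnk.cons (st3_low hz) a ?_).fil (hσ.path y hy).symm h.disj (by omega)
      rcases Nat.eq_zero_or_pos s with rfl | hs
      · exact link_walk r1 (by omega) (st3_not (Subset.refl _)) o d0 d (by omega)
      · exact (link_desc r1 o d t fun U' x j1 j2 j3 j4 => link_walk j3 hs
          (fun k => j2 (Y.iv_sub _ _ _ k)) (st3_not j1) j4 (d0.sub j1) (by omega)).symm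
    by_cases t1 : β - dH G (σ y1) D ≤ s + 2
    · exact key y1 k1 z1 l1 a1 t1
    by_cases t2 : β - dH G (σ y2) D ≤ s + 2
    · exact key y2 k2 z2 l2 a2 t2
    have e1 := dG_add_dH_in (G := G) (hσ.mem y1 k1)
    have e2 := dG_add_dH_in (G := G) (hσ.mem y2 k2)
    have := h.card
    have := h.ba
    exact (st3_two (r := s + 1) (w := 0) h.rs l1 l2 n2 (by omega) a1 a2).fil
      (hσ.succ y1 k1 y2 k2 n1 (by omega)) h.disj (by omega)
  push Not at c1
  by_cases c2 : ∃ y ∈ D, ∃ z ∈ Y.iv U g (g + 1), G.Adj y z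
  · obtain ⟨y, hy, z, hz, a⟩ := c2
    obtain ⟨p, hp, b⟩ := nb z hz
    have hy' := hσ.mem y hy
    have n := (hσ.adj y hy).ne
    obtain ⟨e, e', s', j1, j2, j3, j4, j5⟩ := st3_pt h hy' hp
    have f1 : ∀ x ∈ D, G.Adj p x → x = y := fun x hx k => by
      by_contra k'
      exact c1 x hx y hy p hp z hz k' b.ne k.symm a
    have f2 : ∀ x ∈ Y.iv U g (g + 1), G.Adj (σ y) x → x = z := fun x hx k => by
      by_contra k'
      exact c1 y hy _ hy' z hz x hx n k' a k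
    have f3 : dG G p D + dG G (σ y) (Y.iv U g (g + 1)) ≤ 1 := by
      have g1 : dG G p D ≤ 1 := (dG_le (R := {y}) fun x hx k => mem_singleton.2 (f1 x hx k)).trans
        (card_singleton y).le
      have g2 : dG G (σ y) (Y.iv U g (g + 1)) ≤ 1 :=
        (dG_le (R := {z}) fun x hx k => mem_singleton.2 (f2 x hx k)).trans (card_singleton z).le
      by_contra k
      obtain ⟨x, hx, k1⟩ := exists_adj (G := G) (a := p) (S := D) (by omega)
      obtain ⟨x', hx', k2⟩ := exists_adj (G := G) (a := σ y) (S := Y.iv U g (g + 1)) (by omega)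
      rw [f1 x hx k1] at k1
      rw [f2 x' hx' k2] at k2
      exact c1 y hy _ hy' p hp z hz n b.ne k1.symm k2
    obtain ⟨w, rfl⟩ : ∃ w, s' = 1 + w := ⟨s' - 1, by omega⟩
    obtain ⟨x, hx, k1, k2, k3⟩ := st3_com j1 (Subset.refl U) (out _ hy') hp j2 j3 (by omega)
    exact (Lnk.cons (below hx) k1 (st3_two (st3_up hr hx k3) (st3_keep hp (ne hp hx))
      (st3_keep hz (ne hz hx)) b.ne (fun _ => b.symm) k2.symm a)).fil (hσ.path y hy) h.disj
      (by omega)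
  push Not at c2
  obtain ⟨y, hy⟩ : D.Nonempty := card_pos.1 (by omega)
  have hy' := hσ.mem y hy
  obtain ⟨p, hp⟩ : (Y.iv U g (g + 1)).Nonempty := card_pos.1 (by omega)
  have two : ∀ p' ∈ Y.iv U g (g + 1), ∃ x ∈ Y.iv U 0 g, ∃ x' ∈ Y.iv (U \ {x}) 0 g,
      G.Adj y x ∧ G.Adj p x ∧ G.Adj (σ y) x' ∧ G.Adj p' x' ∧
        Rs G Y ((U \ {x}) \ {x'}) (g + 1) (s + 1) := fun p' hp' => by
    obtain ⟨e, e', s', j1, j2, j3, j4, j5⟩ := st3_pt h hy hp
    obtain ⟨d, d', s'', i1, i2, i3, i4, i5⟩ := st3_pt h hy' hp'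
    rw [dG_eq_zero.2 fun x hx k => c2 x hx _ hp k.symm, dG_eq_zero.2 (c2 y hy)] at j5
    rw [dG_eq_zero.2 fun x hx k => c2 x hx _ hp' k.symm, dG_eq_zero.2 (c2 _ hy')] at i5
    have := j1.top
    have := i1.top
    obtain ⟨w, rfl⟩ : ∃ w, s' = 1 + (1 + w) := ⟨s' - 2, by omega⟩
    obtain ⟨x, hx, k1, k2, k3⟩ := st3_com j1 (Subset.refl U) (out _ hy) hp j2 j3 (by omega)
    obtain ⟨x', hx', l1, l2, l3⟩ := st3_com k3 sdiff_subset (out _ hy') hp' i2 i3 (by omega)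
    refine ⟨x, hx, x', hx', k1, k2, l1, l2, st3_up ?_ hx' l3⟩
    rw [show 1 + (s + 1) = s + 2 + 0 by omega]
    exact st3_up hr hx k3
  have fin : ∀ x ∈ Y.iv U 0 g, ∀ x' ∈ Y.iv (U \ {x}) 0 g, G.Adj y x → G.Adj (σ y) x' →
      Lnk G Y ((U \ {x}) \ {x'}) (g + 1) (s + 1) 0 x' x → Fil G Y U (g + 1) (s + 3) D :=
    fun x hx x' hx' k1 k2 k3 =>
      (Lnk.cons (below hx) k1 (Lnk.cons (below hx') k2 k3).symm).fil (hσ.path y hy).symm h.disj
        (by omega)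
  rcases s with _ | s
  · obtain ⟨x, hx, x', hx', k1, k2, k3, k4, k5⟩ := two p hp
    exact fin x hx x' hx' k1 k3 (st3_one k5 (st3_keep (st3_keep hp (ne hp hx)) (ne hp hx'))
      k4.symm k2.symm)
  · obtain ⟨p', hp', b⟩ := nb p hp
    obtain ⟨x, hx, x', hx', k1, k2, k3, k4, k5⟩ := two p' hp'
    exact fin x hx x' hx' k1 k3 (st3_two (r := s) k5
      (st3_keep (st3_keep hp' (ne hp' hx)) (ne hp' hx'))
      (st3_keep (st3_keep hp (ne hp hx)) (ne hp hx')) b.ne (fun _ => b.symm) k4.symm k2.symm)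

theorem star3 {D : Finset V} {m s α β : ℕ} (h : Star G Y U m s D α β) (hs : 3 ≤ s)
    (h2 : 2 ≤ D.card) (hC : CS G D 0) : Fil G Y U m s D := by
  obtain ⟨Y', g, h1, h3, h4⟩ := h.merge (by omega)
  obtain ⟨σ, -, h5, -⟩ := hC.cyc h2
  obtain ⟨s, rfl⟩ : ∃ t, s = t + 3 := ⟨s - 3, by omega⟩
  exact h4 (st3_main h1 h3 h2 h5)

end Pool.Agent.Lib.MP_af3016_co
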