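import Pool.Agent.Lib.MP_af3016_co.C.MidG
import Pool.Agent.Lib.MP_af3016_co.C.MidC
import Pool.Agent.Lib.MP_af3016_co.C.MidA
import Pool.Agent.Lib.MP_af3016_co.C.MidB
import Pool.Agent.Lib.MP_af3016_co.C.MidM1
import Pool.Agent.Lib.MP_af3016_co.C.MidM2
import Pool.Agent.Lib.MP_af3016_co.C.Star1
import Pool.Agent.Lib.MP_af3016_co.C.Star2
import Pool.Agent.Lib.MP_af3016_co.C.Star3
import Pool.Agent.Lib.MP_af3016_co.C.Chain

/-! From a large bottom block to a tiling. -/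

set_option autoImplicit false
set_option linter.unusedSectionVars false

namespace Pool.Agent.Lib.MP_af3016_co

open Finset SimpleGraph

variable {V : Type} [DecidableEq V] {G : SimpleGraph V} {Y : Lay V} {U : Finset V}

variable {W D B : Finset V} {g α β α' β' σ μ : ℕ} {I J : Multiset ℕ}

theorem fill2 (h : Mid G W Y U g D B α β α' β' σ μ I J) :
    Til G W ((α + β) ::ₘ (Y.lst I g + J)) := by
  have h1 := h.sg
  have h2 := h.mu
  by_cases e1 : μ = 1
  · subst e1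
    exact mid_mu1 h
  by_cases e2 : μ = 2
  · subst e2
    exact mid_mu2 h
  by_cases e3 : σ = 1
  · subst e3
    exact mid_a h (by omega)
  by_cases e4 : σ = 2
  · subst e4
    exact mid_b h (by omega)
  by_cases e5 : 2 ≤ D.card
  · exact h.fin (mid_big h (by omega) (by omega) e5)
  · exact h.fin (mid_c h (by omega) (by omega) (by omega))

theorem fill1s {m s : ℕ} (h : Star G Y U m s D α β) :
    Fil G Y U m s D ∨ (α = β ∧ Y.A m = Y.B m ∧ Pr G D (Y.iv U 0 m)) := by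
  rcases fill1_pre h.toTop with k | ⟨k1, k2, k3, k4⟩
  · exact Or.inl k
  by_cases e : 3 ≤ s
  · exact Or.inl (star3 h e k2 k3)
  have hC : HC G D := k3.done (by omega)
  obtain rfl | rfl : s = 1 ∨ s = 2 := by omega
  exacts [star1 h hC, Or.inl (star2 h hC)]

theorem stack_sq (ih : Ia G W.card) (hI : I ≠ 0) (h3 : ∀ x ∈ I, 3 ≤ x) (h1 : I.sum < W.card) :
    Sq G W I (aS I) (bS I) := by
  obtain ⟨e1, e2, e3⟩ := aS_bS I
  have two : 2 ≤ aS I ∧ 1 ≤ bS I := by
    obtain ⟨a, ha⟩ := Multiset.exists_mem_of_ne_zero hI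
    obtain ⟨K, rfl⟩ := Multiset.exists_cons_of_mem ha
    have := h3 a ha
    rw [aS_cons, bS_cons]
    omega
  exact ⟨e2, two.1, two.2, fun X _ g1 g2 => ih X I (by omega) h3 (by omega) g2, e1.symm, h3, e3⟩

theorem stack_add (L M : Multiset ℕ) : aS (L + M) = aS L + aS M := by simp [aS]

/-- the list of the layers `t + 1, ..., m` -/
def stack_T (Y : Lay V) (t m : ℕ) : Multiset ℕ := ∑ l ∈ Ico t m, {Y.a (l + 1) + Y.b (l + 1)}

theorem stack_list {t m : ℕ} (h : t ≤ m) (len : ∀ l < m, Y.b (l + 1) ≤ Y.a (l + 1) ∧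
      Y.a (l + 1) ≤ Y.b (l + 1) + 1 ∧ 5 ≤ Y.a (l + 1) + Y.b (l + 1)) :
    aS (stack_T Y t m) + Y.A (t + 1) = Y.A (m + 1) ∧
      bS (stack_T Y t m) + Y.B (t + 1) = Y.B (m + 1) ∧ ∀ x ∈ stack_T Y t m, 5 ≤ x := by
  induction m, h using Nat.le_induction with
  | base => simp [stack_T, aS, bS]
  | succ m hm ih =>
    obtain ⟨e1, e2, e3⟩ := ih fun l hl => len l (by omega)
    have e : stack_T Y t (m + 1) = (Y.a (m + 1) + Y.b (m + 1)) ::ₘ stack_T Y t m := by
      rw [stack_T, sum_Ico_succ_top hm, add_comm, Multiset.singleton_add]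
      rfl
    have := len m (Nat.lt_succ_self m)
    rw [e, aS_cons, bS_cons, Y.A_succ (m + 1), Y.B_succ (m + 1)]
    refine ⟨by omega, by omega, fun x hx => ?_⟩
    rcases Multiset.mem_cons.1 hx with rfl | hx
    exacts [this.2.2, e3 x hx]

theorem stack_split (Y : Lay V) (I : Multiset ℕ) {t m : ℕ} (h : t ≤ m) :
    Y.lst I m = Y.lst I t + stack_T Y t m := by
  rw [Lay.lst, Lay.lst, stack_T, add_assoc, sum_range_add_sum_Ico _ h]

theorem stack_succ (Y : Lay V) (I : Multiset ℕ) (m : ℕ) :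
    Y.lst I (m + 1) = (Y.a (m + 1) + Y.b (m + 1)) ::ₘ Y.lst I m := by
  rw [Lay.lst, Lay.lst, sum_range_succ, ← add_assoc, add_comm, Multiset.singleton_add]

/-- the members of one layer -/
theorem stack_D (hint : ∀ v ∈ W, Df G Y W (Y.f v + 1) v 0) (r : ℕ) :
    Hap G (Y.iv W r (r + 1)) (Y.b r) ∧
      ∀ v ∈ Y.iv W r (r + 1), Df G Y W r v (Y.b r - dH G v (Y.iv W r (r + 1))) := by
  have key : ∀ v ∈ Y.iv W r (r + 1), Df G Y W (r + 1) v 0 := fun v hv => by
    rw [Lay.mem_iv] at hv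
    obtain rfl : r = Y.f v := by omega
    exact hint v hv.1
  refine ⟨fun v hv => ?_, fun v hv => (key v hv).down1 (by omega)⟩
  have := key v hv r (Nat.lt_succ_self r)
  rw [Y.B_succ] at this
  omega

theorem stack_main {k : ℕ} (ih : Ia G W.card) (hk : 1 ≤ k) (hI : I ≠ 0)
    (h3 : ∀ x ∈ I, 3 ≤ x) (h0 : Y.a 0 = aS I ∧ Y.b 0 = bS I)
    (len : ∀ l < k, Y.b (l + 1) ≤ Y.a (l + 1) ∧ Y.a (l + 1) ≤ Y.b (l + 1) + 1 ∧
      5 ≤ Y.a (l + 1) + Y.b (l + 1))
    (dec : ∀ l, l + 1 < k → Y.a (l + 1) ≤ Y.a l ∧ Y.b (l + 1) ≤ Y.b l)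
    (top : ∀ l, 1 ≤ l → l < k → Y.a l ≤ Y.a k ∧ Y.b l ≤ Y.b k)
    (hc : W.card = Y.A (k + 1) + Y.B (k + 1)) (hf : ∀ v ∈ W, Y.f v ≤ k)
    (hint : ∀ v ∈ W, Df G Y W (Y.f v + 1) v 0)
    (hup : ∀ v ∈ W, ∀ t ≤ Y.f v, dH G v (Y.iv W t (k + 1)) + 1 + Y.B t ≤ Y.B (k + 1))
    (big : Y.a 0 + Y.b 0 < (Y.iv W 0 1).card) : Til G W (Y.lst I k) := by
  have eW : Y.iv W 0 (k + 1) = W := by
    ext v
    rw [Lay.mem_iv]
    exact ⟨fun h => h.1, fun h => ⟨h, Nat.zero_le _, Nat.lt_succ_of_le (hf v h)⟩⟩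
  have a1 : Y.A 1 = Y.a 0 := by simp [Lay.A]
  have b1 : Y.B 1 = Y.b 0 := by simp [Lay.B]
  have sI : Sq G W I (Y.a 0) (Y.b 0) := by
    rw [h0.1, h0.2]
    refine stack_sq ih hI h3 ?_
    have := (aS_bS I).1
    have := card_le_card (Y.iv_sub W 0 1)
    omega
  have hl : ∀ l ≤ k, Y.b l ≤ Y.a l ∧ 1 ≤ Y.b l ∧ 2 ≤ Y.a l := fun l hl => by
    cases l with
    | zero => exact ⟨sI.le, sI.one, sI.two⟩
    | succ l =>
      have := len l hl
      omega
  have stk : ∀ m < k, Stk G W Y I m := fun m hm =>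
    ⟨sI, fun l g => by have := len l (by omega); omega, fun l g => dec l (by omega)⟩
  have ex : ∃ g, (Y.iv W 0 (g + 1 + 1)).card ≤ Y.A (g + 1 + 1) + Y.B (g + 1 + 1) :=
    ⟨k - 1, by rw [Nat.sub_add_cancel hk, eW, hc]⟩
  classical
  obtain ⟨g, h1, hg, pos⟩ : ∃ g, (Y.iv W 0 (g + 1 + 1)).card ≤ Y.A (g + 1 + 1) + Y.B (g + 1 + 1) ∧
      g + 1 ≤ k ∧ ∀ t, 1 ≤ t → t ≤ g + 1 → Y.A t + Y.B t + 1 ≤ (Y.iv W 0 t).card := by
    refine ⟨Nat.find ex, Nat.find_spec ex, ?_, fun t g1 g2 => ?_⟩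
    · have := Nat.find_min' ex (m := k - 1) (by rw [Nat.sub_add_cancel hk, eW, hc])
      omega
    · obtain rfl | ⟨u, rfl⟩ : t = 1 ∨ ∃ u, t = u + 1 + 1 := by
        rcases g1.lt_or_eq with e | e
        exacts [Or.inr ⟨t - 2, by omega⟩, Or.inl e.symm]
      · omega
      · have := Nat.find_min ex (m := u) (by omega)
        omega
  have leg : ∀ t ≤ g + 1, Y.A t + Y.B t ≤ (Y.iv W 0 t).card := fun t ht => by
    rcases Nat.eq_zero_or_pos t with rfl | e
    · exact Nat.zero_le _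
    · have := pos t e ht
      omega
  obtain ⟨σ, hσ⟩ := Nat.exists_eq_add_of_le (leg _ le_rfl)
  have rs : Rs G Y W (g + 1) σ := ⟨fun l h => (hl l (by omega)).1, fun l h => (hl l (by omega)).2.1,
    leg, hσ, fun v hv _ => hint v hv⟩
  obtain ⟨hD, df⟩ := stack_D hint (g + 1)
  have c1 := Y.card_iv W (Nat.zero_le (g + 1)) (Nat.le_succ (g + 1))
  have lg := len g hg
  have eA := Y.A_succ (g + 1)
  have eB := Y.B_succ (g + 1)
  simp only [Nat.succ_eq_add_one] at c1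
  rcases hg.lt_or_eq with hr | rfl
  · obtain ⟨j1, j2, j3⟩ := stack_list (Y := Y) hr.le len
    have j4 := (aS_bS (stack_T Y (g + 1) k)).1
    have j5 : ∀ x ∈ stack_T Y (g + 1) k, 3 ≤ x := fun x hx => by have := j3 x hx; omega
    have hB : Hap G (Y.iv W (g + 1 + 1) (k + 1)) (bS (stack_T Y (g + 1) k)) := fun v hv => by
      have := hup v (Lay.mem_iv.1 hv).1 _ (Lay.mem_iv.1 hv).2.1
      omega
    have c2 := Y.card_iv W (Nat.zero_le (g + 1 + 1)) (show g + 1 + 1 ≤ k + 1 by omega)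
    rw [eW] at c2
    rw [stack_split Y I hr.le]
    rcases h1.lt_or_eq with h2 | h2
    · obtain ⟨μ, hμ⟩ := Nat.exists_eq_add_of_lt h2
      have m1 := Y.A_mono (show g + 1 + 1 ≤ k from hr)
      have m2 := Y.B_mono (show g + 1 + 1 ≤ k from hr)
      have m3 := Y.A_succ k
      have m4 := Y.B_succ k
      have m5 := top (g + 1) (by omega) hr
      rw [stack_succ, Multiset.cons_add]
      refine fill2 (U := W) (D := Y.iv W (g + 1) (g + 1 + 1)) (B := Y.iv W (g + 1 + 1) (k + 1))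
        (σ := σ) (μ := μ + 1) ⟨ih, stk g (by omega), stack_sq ih (fun e => ?_) j5 (by omega), h0,
          ⟨rfl, rfl, j3⟩, rs, pos, Subset.refl W, fun v => ?_, (Y.iv_disj W _ _ _).symm,
          Finset.disjoint_left.2 fun v g1 g2 => ?_, Y.iv_disj W _ _ _, lg.1, lg.2.1, lg.2.2,
          dec g hr, ⟨by omega, by omega⟩, by omega, by omega, by omega, hD, hB, df,
          fun t ht v hv => ?_⟩
      · rw [e, bS_zero] at j2
        omega
      · simp only [Lay.mem_iv]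
        refine ⟨fun h => ?_, fun h => by tauto⟩
        have := hf v h
        simp only [h, true_and]
        omega
      · rw [Lay.mem_iv] at g1 g2
        omega
      · have hv' : v ∈ W ∧ t ≤ Y.f v := by
          simp only [Lay.mem_iv] at hv
          rcases hv with h | h | h <;> exact ⟨h.1, by omega⟩
        have := hup v hv'.1 t hv'.2
        have := Y.dH_iv (G := G) W v ht (show g + 1 ≤ k + 1 by omega)
        have := Y.dH_iv (G := G) W v (Nat.le_add_right (g + 1) 1) (show g + 1 + 1 ≤ k + 1 by omega)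
        omega
    · have rs' : Rs G Y W (g + 1 + 1) 0 := ⟨fun l h => (hl l (by omega)).1,
        fun l h => (hl l (by omega)).2.1, fun t ht => by
          rcases ht.lt_or_eq with e | rfl
          exacts [leg t (by omega), h2.ge], h2, fun v hv _ => hint v hv⟩
      have := (descend (stk _ hr) (Subset.refl W) rs').union
        (ih _ _ (by omega) j5 (by omega) hB) (Y.iv_disj W _ _ _)
      rwa [Y.iv_union W (Nat.zero_le _) (by omega), eW] at this
  · rw [eW] at c1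
    have u := Y.iv_union W (Nat.zero_le (g + 1)) (Nat.le_add_right (g + 1) 1)
    rw [eW] at u
    have d := Y.iv_disj W 0 (g + 1) (g + 1 + 1)
    rcases fill1s (⟨⟨rs, lg.1, lg.2.1, by omega, by omega, d.symm, hD, df⟩, pos,
      fun l h => (hl l h.le).2.2, fun v hv h t ht => by
        have := hup v hv t ht
        have := Y.dH_iv (G := G) W v (show t ≤ g + 1 by omega) (Nat.le_add_right (g + 1) 1)
        omega⟩ : Star G Y W (g + 1) σ (Y.iv W (g + 1) (g + 1 + 1)) (Y.a (g + 1)) (Y.b (g + 1))) with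
      ⟨Z, z1, z2, z3, z4⟩ | ⟨p1, p2, p3⟩
    · have t1 := descend (stk g (Nat.lt_succ_self g)) sdiff_subset z4
      rw [Y.iv_sdiff] at t1
      rw [stack_succ]
      refine t1.add z3 ?_ (disjoint_union_left.2 ⟨d.symm.mono_right sdiff_subset, disjoint_sdiff⟩) ?_
      · rw [card_union_of_disjoint (d.symm.mono_right z1)]
        omega
      · rw [union_assoc, union_sdiff_of_subset z1, union_comm, u]
    · obtain ⟨j1, j2, j3⟩ := stack_list (Y := Y) (Nat.zero_le (g + 1)) len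
      have e : Y.lst I (g + 1) = I + stack_T Y 0 (g + 1) := by
        rw [stack_split Y I (Nat.zero_le _), Lay.lst, sum_range_zero, add_zero]
      obtain ⟨k1, -, k3⟩ := aS_bS (Y.lst I (g + 1))
      have k4 := stack_add I (stack_T Y 0 (g + 1))
      have k5 := bS_add I (stack_T Y 0 (g + 1))
      rw [← e] at k4 k5
      rw [zero_add] at j1 j2
      have := til_prism (L := Y.lst I (g + 1)) (fun x hx => by
        rw [e] at hx
        rcases Multiset.mem_add.1 hx with hx | hx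
        · exact h3 x hx
        · have := j3 x hx
          omega) (k3 (by omega)) d.symm p3 (by omega)
      rwa [union_comm, u] at this

theorem stack {k : ℕ} {a b : ℕ → ℕ} (ih : Ia G W.card) (hk : 1 ≤ k) (hI : I ≠ 0)
    (h3 : ∀ x ∈ I, 3 ≤ x) (h0 : a 0 = aS I ∧ b 0 = bS I)
    (len : ∀ l < k, b (l + 1) ≤ a (l + 1) ∧ a (l + 1) ≤ b (l + 1) + 1 ∧ 5 ≤ a (l + 1) + b (l + 1))
    (dec : ∀ l, l + 1 < k → a (l + 1) ≤ a l ∧ b (l + 1) ≤ b l)
    (top : ∀ l, 1 ≤ l → l < k → a l ≤ a k ∧ b l ≤ b k)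
    (hc : W.card = ∑ i ∈ range (k + 1), a i + ∑ i ∈ range (k + 1), b i)
    (hW : Hap G W (∑ i ∈ range (k + 1), b i))
    (big : ∃ S, IsMin G W (b 0) (∑ i ∈ range (k + 1), b i - b 0) S ∧ a 0 + b 0 < S.card) :
    Til G W (I + ∑ l ∈ range k, {a (l + 1) + b (l + 1)}) := by
  obtain ⟨Y, rfl, rfl, h1, h2, h4, h5⟩ := chain a b k hW
  obtain ⟨S, s1, s2⟩ := big
  exact stack_main ih hk hI h3 h0 len dec top hc h1 h2 h4 (s2.trans_le (h5 hk S s1))

end Pool.Agent.Lib.MP_af3016_co
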