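import Pool.Agent.Lib.MP_af3016_co.C.Two

/-! Thresholds, links from removed vertices, lower links and gadgets for upper quota one. -/

set_option autoImplicit false
set_option linter.unusedSectionVars false

namespace Pool.Agent.Lib.MP_af3016_co

open Finset SimpleGraph

variable {V : Type} [DecidableEq V] {G : SimpleGraph V} {Y : Lay V} {U : Finset V}

variable {W D B : Finset V} {g α β α' β' σ μ : ℕ} {I J : Multiset ℕ}

/-- the upper parts above `t` do not exceed their nominal sizes -/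
def Thr (Y : Lay V) (U : Finset V) (t m : ℕ) : Prop :=
  ∀ l, t < l → l < m → (Y.iv U l m).card + Y.A l + Y.B l ≤ Y.A m + Y.B m

/-- the defect of `u` at the levels above `t` exceeds `k` at most by the gain of slack -/
def Wl (G : SimpleGraph V) (Y : Lay V) (U : Finset V) (t m s : ℕ) (u : V) (k : ℕ) : Prop :=
  ∀ l, t < l → l ≤ m → ∃ e, Df G Y U l u e ∧ e + Y.A l + Y.B l + s ≤ k + (Y.iv U 0 l).card

theorem Thr.mono {U' : Finset V} {t m : ℕ} (h : Thr Y U t m) (hU : U' ⊆ U) : Thr Y U' t m :=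
  fun l h1 h2 => by
    have := h l h1 h2
    have := card_le_card (Lay.iv_mono (Y := Y) hU (le_refl l) (le_refl m))
    omega

theorem Thr.slack {t m q : ℕ} (h : Thr Y U t m) (hR : Rs G Y U m q) :
    ∀ l, t < l → l ≤ m → Y.A l + Y.B l + q ≤ (Y.iv U 0 l).card := fun l h1 h2 => by
  have k1 := hR.top
  rcases h2.lt_or_eq with h2 | rfl
  · have := h l h1 h2
    have := Y.card_iv U (Nat.zero_le l) h2.le
    omega
  · omega

/-- large slacks give a threshold -/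
theorem thr_of_slack {t m s : ℕ} (hR : Rs G Y U m s)
    (h : ∀ l, t < l → l < m → Y.A l + Y.B l + s ≤ (Y.iv U 0 l).card) : Thr Y U t m :=
  fun l h1 h2 => by
    have := h l h1 h2
    have := Y.card_iv U (Nat.zero_le l) h2.le
    have := hR.top
    omega

/-- removal of vertices below `t` (legal there) together with vertices of the upper part -/
theorem Thr.rem {t m s w w' : ℕ} (p : Thr Y U t m) (ht : t ≤ m) (h : Rs G Y U m s)
    {Z0 Q : Finset V} (h0 : Z0 ⊆ Y.iv U 0 t) (hR : Rs G Y (U \ Z0) t w') (hQ : Q ⊆ Y.iv U t m)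
    (hc : Z0.card + Q.card + w = s) : Rs G Y (U \ (Z0 ∪ Q)) m w := by
  have hd : Disjoint Z0 Q := ((Y.iv_disj U 0 t m).mono_left h0).mono_right hQ
  have e := card_union_of_disjoint hd
  obtain rfl : s = (Z0 ∪ Q).card + w := by omega
  refine h.remove (union_subset (h0.trans (Lay.iv_mono (Subset.refl U) (le_refl 0) ht))
    (hQ.trans (Lay.iv_mono (Subset.refl U) (Nat.zero_le t) le_rfl))) rfl fun l hl => ?_
  by_cases e : t < l
  · have := p.slack h l e hl.le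
    have := card_le_card (Y.iv_sub (Z0 ∪ Q) 0 l)
    omega
  · have k1 := hR.leg l (by omega)
    have k2 : Y.iv (Z0 ∪ Q) 0 l ⊆ Y.iv U 0 l \ Y.iv (U \ Z0) 0 l := fun v hv => by
      rw [Lay.mem_iv, mem_union] at hv
      rcases hv.1 with k | k
      · refine mem_sdiff.2 ⟨Lay.mem_iv.2 ⟨(Lay.mem_iv.1 (h0 k)).1, hv.2⟩, fun j => ?_⟩
        exact (mem_sdiff.1 (Lay.mem_iv.1 j).1).2 k
      · have := Lay.mem_iv.1 (hQ k)
        omega
    have k3 := card_le_card k2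
    have k4 := card_sdiff_add_card_eq_card
      (Lay.iv_mono (Y := Y) (sdiff_subset (s := U) (t := Z0)) (le_refl 0) (le_refl l))
    omega

/-- a link to a removed vertex `v` of the upper part, made at the level of `v` -/
theorem Thr.link {t m s r w e k : ℕ} {U' : Finset V} {u v : V} (h : Thr Y U t m)
    (hR0 : Rs G Y U m s) (ho : Y.Ord m) (hU : U' ⊆ U) (hR : Rs G Y U' m (r + w)) (hr : 1 ≤ r)
    (hv : v ∈ Y.iv U t m) (hn : v ∉ U') (hu : u ∉ Y.iv U' 0 (Y.f v + 1))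
    (d : Df G Y U' (Y.f v + 1) u e)
    (he : e + Y.A (Y.f v + 1) + Y.B (Y.f v + 1) + (r + w) ≤ k + (Y.iv U' 0 (Y.f v + 1)).card)
    (h1 : r = 1 → k ≤ w + 2) (h2 : k ≤ Y.a (Y.f v) + w + 1) : Lnk G Y U' m r w u v := by
  rw [Lay.mem_iv] at hv
  have hm : Y.f v + 1 ≤ m := hv.2.2
  obtain ⟨s', h'⟩ := hR.low hm
  have k1 := h'.top
  have k2 := (h.mono hU).slack hR (Y.f v + 1) (by omega) hm
  obtain ⟨w1, rfl⟩ : ∃ w1, s' = r + w1 := ⟨s' - r, by omega⟩
  have dv : Df G Y U' (Y.f v + 1) v 0 := (hR0.int v hv.1 hv.2.2).sub hU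
  have hv' : v ∉ Y.iv U' 0 (Y.f v + 1) := fun j => hn (Lay.mem_iv.1 j).1
  refine Lnk.lift (w' := w1) hR hm ?_ fun l l1 l2 => ?_
  · by_cases e1 : r = 1
    · subst e1
      exact link_one h' hu hv' d dv (by have := h1 rfl; omega)
    · exact link_edge h' (ho.mono hm) (by omega) hu hv' d (dv.mono (Nat.zero_le 1)) le_rfl
        (by omega) (by omega)
  · have := (h.mono hU).slack hR l (by omega) l2.le
    omega

/-- the link between a removed vertex `v` of the upper part and an outer vertex `u` -/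
theorem Wl.link {t m s r w k : ℕ} {U' : Finset V} {u v : V} (hw : Wl G Y U t m s u k)
    (h : Thr Y U t m) (hR0 : Rs G Y U m s) (ho : Y.Ord m) (hU : U' ⊆ U)
    (hR : Rs G Y U' m (r + w)) (hr : 1 ≤ r) (hv : v ∈ Y.iv U t m) (hn : v ∉ U')
    (hu : u ∉ Y.iv U 0 m) (h1 : r = 1 → k ≤ w + 2 ∨ (k ≤ w + 3 ∧ ¬G.Adj u v))
    (h2 : ∀ l < m, k ≤ Y.a l + w + 1) : Lnk G Y U' m r w u v := by
  have hv' := Lay.mem_iv.1 hv
  have hm : Y.f v + 1 ≤ m := hv'.2.2
  obtain ⟨e, d, he⟩ := hw (Y.f v + 1) (by omega) hm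
  have hu' : u ∉ Y.iv U' 0 (Y.f v + 1) := fun j => hu (Lay.iv_mono hU (le_refl 0) hm j)
  have k1 := hR0.top
  have k2 := hR.top
  have k3 := Y.card_iv U (Nat.zero_le _) hm
  have k4 := Y.card_iv U' (Nat.zero_le _) hm
  have k5 := card_le_card (Lay.iv_mono (Y := Y) hU (le_refl (Y.f v + 1)) (le_refl m))
  have k6 := h2 (Y.f v) hv'.2.2
  by_cases c : r = 1 → k ≤ w + 2
  · exact h.link hR0 ho hU hR hr hv hn hu' (d.sub hU) (k := k) (by omega) c k6
  · have c1 : r = 1 := by omega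
    have c2 := (h1 c1).resolve_left (by omega)
    have k7 := h.slack hR0 (Y.f v + 1) (by omega) hm
    refine h.link hR0 ho hU hR hr hv hn hu' (e := e - 1) (k := k - 1) (fun l hl => ?_) (by omega)
      (by omega) (by omega)
    have j1 := d l hl
    have j2 : v ∈ Y.iv U l (Y.f v + 1) := Lay.mem_iv.2 ⟨hv'.1, by omega, by omega⟩
    have j3 := dH_sdiff (G := G) (a := u) (singleton_subset_iff.2 j2)
    have j4 := dH_pos (G := G) (mem_singleton_self v) (a := u)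
      (fun j => hu (j ▸ Lay.iv_mono (Subset.refl U) (Nat.zero_le t) le_rfl hv)) c2.2
    have j5 : dH G u (Y.iv U' l (Y.f v + 1)) ≤ dH G u (Y.iv U l (Y.f v + 1) \ {v}) :=
      dH_mono fun x hx => mem_sdiff.2 ⟨Lay.iv_mono hU (le_refl l) le_rfl hx,
        fun j => hn (mem_singleton.1 j ▸ (Lay.mem_iv.1 hx).1)⟩
    have j6 := Y.B_mono (show l + 1 ≤ Y.f v + 1 by omega)
    have j7 := hR0.one l (by omega)
    rw [Y.B_succ] at j6
    omega

/-- exact defects below `t` of a vertex of the upper layers or of `D` and a vertex of `B` -/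
theorem Mid.pte (h : Mid G W Y U g D B α β α' β' σ μ I J) {t : ℕ} (ht : t ≤ g + 1) {v p : V}
    (hv : v ∈ Y.iv U t (g + 1) ∨ v ∈ D) (hp : p ∈ B) {s : ℕ} (hs : Rs G Y U t s) :
    ∃ e e', Df G Y U t p e ∧ Df G Y U t v e' ∧ 1 ≤ e ∧ 1 ≤ e' ∧
      e + e' + α + α' + Y.A (g + 1) + Y.B t + dH G p B + dH G v D + dH G v (Y.iv U t (g + 1)) =
        s + β + β' + Y.B (g + 1) + Y.A t + dG G v B + dG G p D + dG G p (Y.iv U t (g + 1)) := by
  obtain ⟨e, a1, a2, a3⟩ := h.dfT ht (v := p) (Or.inr (Or.inr hp))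
  obtain ⟨e', b1, b2, b3⟩ := h.dfT ht (v := v) (hv.imp_right Or.inl)
  have s1 : Y.iv U t (g + 1) ⊆ Y.iv U 0 (g + 1) :=
    Lay.iv_mono (Subset.refl U) (Nat.zero_le t) le_rfl
  have c1 := dG_add_dH_out (G := G) (show v ∉ B from fun k => hv.elim
    (fun j => Finset.disjoint_left.1 h.dB k (s1 j)) fun j => Finset.disjoint_left.1 h.dDB j k)
  have c2 := dG_add_dH_out (G := G) (show p ∉ D from fun k => Finset.disjoint_left.1 h.dDB k hp)
  have c3 := dG_add_dH_out (G := G) (show p ∉ Y.iv U t (g + 1) from fun k =>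
    Finset.disjoint_left.1 h.dB hp (s1 k))
  have c4 := Y.card_iv U (Nat.zero_le t) ht
  have c5 := h.rs.top
  have c6 := hs.top
  have c7 := h.cD
  have c8 := h.cB
  exact ⟨e, e', a2, b2, a1, b1, by omega⟩

/-- the lower bound for the degree into `B` -/
theorem Mid.degB (h : Mid G W Y U g D B α β α' β' σ μ I J) {t : ℕ} (ht : t ≤ g + 1) {v : V}
    (hv : v ∈ Y.iv U t (g + 1)) :
    α' + μ + 1 + Y.B t + dH G v D + dH G v (Y.iv U t (g + 1)) ≤ dG G v B + β + Y.B (g + 1) := by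
  have a := h.suf t ht v (Or.inl hv)
  have c1 := dG_add_dH_out (G := G) (show v ∉ B from fun k => Finset.disjoint_left.1 h.dB k
    (Lay.iv_mono (Subset.refl U) (Nat.zero_le t) le_rfl hv))
  have c8 := h.cB
  omega

theorem Mid.outT (h : Mid G W Y U g D B α β α' β' σ μ I J) {t : ℕ} (ht : t ≤ g + 1) {v : V}
    (hv : v ∈ Y.iv U t (g + 1) ∨ v ∈ D ∨ v ∈ B) {U' : Finset V} (hU : U' ⊆ U) :
    v ∉ Y.iv U' 0 t := fun k => by
  have k' : v ∈ Y.iv U 0 (g + 1) := Lay.iv_mono hU (le_refl 0) ht k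
  rcases hv with j | j | j
  · have := Lay.mem_iv.1 j
    have := Lay.mem_iv.1 k
    omega
  · exact Finset.disjoint_left.1 h.dD j k'
  · exact Finset.disjoint_left.1 h.dB j k'

/-- the lower link by one vertex -/
theorem Mid.ll (h : Mid G W Y U g D B α β α' β' σ μ I J) {t : ℕ} (ht : t ≤ g + 1) {v p : V}
    (hv : v ∈ Y.iv U t (g + 1) ∨ v ∈ D) (hp : p ∈ B)
    (hc : β + β' + Y.B (g + 1) + Y.A t + dG G v B + dG G p D + dG G p (Y.iv U t (g + 1)) ≤
      1 + α + α' + Y.A (g + 1) + Y.B t + dH G p B + dH G v D + dH G v (Y.iv U t (g + 1))) :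
    ∃ w, Lnk G Y U t 1 w p v := by
  obtain ⟨s, hs⟩ := h.rs.low ht
  obtain ⟨e, e', d, d', h1, h2, h3⟩ := h.pte ht hv hp hs
  obtain ⟨w, rfl⟩ : ∃ w, s = 1 + w := ⟨s - 1, by omega⟩
  exact ⟨w, link_one hs (h.outT ht (Or.inr (Or.inr hp)) (Subset.refl U))
    (h.outT ht (hv.imp_right Or.inl) (Subset.refl U)) d d' (by omega)⟩

/-- the lower link by two vertices -/
theorem Mid.ll2 (h : Mid G W Y U g D B α β α' β' σ μ I J) {t : ℕ} (ht : t ≤ g + 1) {v p : V}
    (hv : v ∈ Y.iv U t (g + 1) ∨ v ∈ D) (hp : p ∈ B) {s : ℕ} (hs : Rs G Y U t s) (h2 : 2 ≤ s)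
    (hc : dG G v B + dG G p D + dG G p (Y.iv U t (g + 1)) ≤
      3 + dH G p B + dH G v D + dH G v (Y.iv U t (g + 1))) : ∃ w, Lnk G Y U t 2 w p v := by
  obtain ⟨e, e', d, d', h1, h1', h3⟩ := h.pte ht hv hp hs
  obtain ⟨w, rfl⟩ : ∃ w, s = 2 + w := ⟨s - 2, by omega⟩
  have o1 := h.outT ht (Or.inr (Or.inr hp)) (Subset.refl U)
  have o2 := h.outT ht (hv.imp_right Or.inl) (Subset.refl U)
  have a1 := h.rs.AB ht le_rfl
  have a2 := h.ba
  have a3 := h.sJ.le
  have a4 := h.ab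
  have a5 := h.five
  cases t with
  | zero => exact absurd hs.zero (by omega)
  | succ t =>
    have a6 := (h.low t (by omega)).1
    by_cases c : e' ≤ e
    · exact ⟨w, link_edge hs (h.ord.mono ht) le_rfl o1 o2 d d' h1' (by omega) (by omega)⟩
    · exact ⟨w, (link_edge hs (h.ord.mono ht) le_rfl o2 o1 d' d h1 (by omega) (by omega)).symm⟩

/-- a gadget with `Z0` below `t`, `Q` in the upper part and one vertex `p` of `B` -/
theorem Mid.gad (h : Mid G W Y U g D B α β α' β' σ 1 I J) {t : ℕ} (ht : t ≤ g + 1)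
    (T : Thr Y U t (g + 1)) {Z0 Q X : Finset V} {p : V} {w r : ℕ} {gs : Multiset (Sym2 V)}
    (hp : p ∈ B) (h0 : Z0 ⊆ Y.iv U 0 t) (hR : Rs G Y (U \ Z0) t w) (hQ : Q ⊆ Y.iv U t (g + 1))
    (hc : Z0.card + Q.card + r = σ) (hX : CS G X gs)
    (hm : ∀ v, v ∈ X ↔ v ∈ D ∨ v ∈ Z0 ∨ v ∈ Q ∨ v = p)
    (hl : ∀ U', U' ⊆ U → (∀ q ∈ Q, q ∉ U') → Rs G Y U' (g + 1) r → Fb G Y U' (g + 1) r gs) :
    Fin2 G Y U g D B σ 1 := by
  have hd : Disjoint Z0 Q := ((Y.iv_disj U 0 t (g + 1)).mono_left h0).mono_right hQ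
  have e : X = D ∪ (Z0 ∪ Q) ∪ {p} := by
    ext v
    simp only [hm, mem_union, mem_singleton]
    tauto
  refine h.two (Z0 := Z0 ∪ Q) (Z0' := {p}) (gs := gs) (gs' := 0) (s := r) (u := 0)
    (union_subset (h0.trans (Lay.iv_mono (Subset.refl U) (le_refl 0) ht))
      (hQ.trans (Lay.iv_mono (Subset.refl U) (Nat.zero_le t) le_rfl)))
    (singleton_subset_iff.2 hp) (by rwa [add_zero, ← e]) (by rw [card_union_of_disjoint hd, hc])
    (by simp) (hl _ sdiff_subset (fun q hq k => (mem_sdiff.1 k).2 (mem_union_right _ hq))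
      (T.rem ht h.rs h0 hR hQ hc)) (Fb.zero (h.rsB' (singleton_subset_iff.2 hp) (by simp)))

/-- the gadget without lower vertices -/
theorem Mid.gad0 (h : Mid G W Y U g D B α β α' β' σ 1 I J) {t : ℕ} (ht : t ≤ g + 1)
    (T : Thr Y U t (g + 1)) {Q X : Finset V} {p : V} {r : ℕ} {gs : Multiset (Sym2 V)}
    (hp : p ∈ B) (hQ : Q ⊆ Y.iv U t (g + 1)) (hc : Q.card + r = σ) (hX : CS G X gs)
    (hm : ∀ v, v ∈ X ↔ v ∈ D ∨ v ∈ Q ∨ v = p)
    (hl : ∀ U', U' ⊆ U → (∀ q ∈ Q, q ∉ U') → Rs G Y U' (g + 1) r → Fb G Y U' (g + 1) r gs) :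
    Fin2 G Y U g D B σ 1 := by
  obtain ⟨w, hw⟩ := h.rs.low ht
  exact h.gad ht T (Z0 := ∅) (w := w) hp (empty_subset _) (by simpa using hw) hQ
    (by simpa using hc) hX (by simpa using hm) hl

/-- a lower link as a path from `p` to `v` -/
theorem Mid.lpath (h : Mid G W Y U g D B α β α' β' σ μ I J) {t k w : ℕ} (ht : t ≤ g + 1) {v p : V}
    (hv : v ∈ Y.iv U t (g + 1) ∨ v ∈ D) (hp : p ∈ B) (l : Lnk G Y U t k w p v) :
    ∃ Z0, Z0 ⊆ Y.iv U 0 t ∧ Z0.card = k ∧ Rs G Y (U \ Z0) t w ∧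
      HP G p v (insert p (insert v Z0)) := by
  obtain ⟨z, z', Z, h1, h2, h3, h4, h5, h6⟩ := l
  have o1 := h.outT ht (Or.inr (Or.inr hp)) (Subset.refl U)
  have o2 := h.outT ht (hv.imp_right Or.inl) (Subset.refl U)
  have ne : p ≠ v := by
    rintro rfl
    exact hv.elim (fun j => Finset.disjoint_left.1 h.dB hp
      (Lay.iv_mono (Subset.refl U) (Nat.zero_le t) le_rfl j))
      fun j => Finset.disjoint_left.1 h.dDB j hp
  refine ⟨Z, h4, h5, h6, (h1.symm.cons h3 fun j => o2 (h4 j)).symm.cons h2 fun j => ?_⟩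
  exact (mem_insert.1 j).elim ne fun j => o1 (h4 j)

/-- the last gap is an edge or takes the whole slack -/
theorem Fb.last {m r : ℕ} {x y : V} (hR : Rs G Y U m r)
    (h : (r = 0 ∧ G.Adj x y) ∨ Lnk G Y U m r 0 x y) : Fb G Y U m r {s(x, y)} := by
  rcases h with ⟨rfl, h⟩ | h
  · intro X rest hX hd
    exact Fb.zero hR X rest (by rw [zero_add]; exact CS.edge hX h) hd
  · exact Fb.one fun _ _ => h

end Pool.Agent.Lib.MP_af3016_co
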