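import Pool.Agent.Lib.MP_af3016_co.C.Mid0
import Pool.Agent.Lib.MP_af3016_co.C.Scan

/-! Filling procedures and the two-sided finish. -/

set_option autoImplicit false
set_option linter.unusedSectionVars false

namespace Pool.Agent.Lib.MP_af3016_co

open Finset SimpleGraph

variable {V : Type} [DecidableEq V] {G : SimpleGraph V} {Y : Lay V} {U : Finset V}

variable {W D B : Finset V} {g α β α' β' σ μ : ℕ} {I J : Multiset ℕ}

/-- the gaps `gs` of any order can be filled by exactly the slack `s` of the reservoir -/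
def Fb (G : SimpleGraph V) (Y : Lay V) (U : Finset V) (m s : ℕ) (gs : Multiset (Sym2 V)) : Prop :=
  ∀ (X : Finset V) (rest : Multiset (Sym2 V)), CS G X (gs + rest) → Disjoint X (Y.iv U 0 m) →
    ∃ Z, Z ⊆ Y.iv U 0 m ∧ Z.card = s ∧ CS G (X ∪ Z) rest ∧ Rs G Y (U \ Z) m 0

theorem Fb.zero {m : ℕ} (h : Rs G Y U m 0) : Fb G Y U m 0 0 := fun X rest hX _ =>
  ⟨∅, empty_subset _, card_empty, by simpa using hX, by simpa using h⟩

/-- one gap is filled first -/
theorem Fb.cons {m r w : ℕ} {p q : V} {gs : Multiset (Sym2 V)}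
    (h : p ∉ Y.iv U 0 m → q ∉ Y.iv U 0 m → Lnk G Y U m r w p q)
    (k : ∀ U', U' ⊆ U → Rs G Y U' m w → Fb G Y U' m w gs) :
    Fb G Y U m (r + w) (s(p, q) ::ₘ gs) := by
  intro X rest hX hd
  rw [Multiset.cons_add] at hX
  have hm := hX.mem (Multiset.mem_cons_self _ _)
  obtain ⟨Z, h1, h2, h3, h4⟩ := hX.lnk hd
    (h (Finset.disjoint_left.1 hd hm.1) (Finset.disjoint_left.1 hd hm.2))
  obtain ⟨Z', k1, k2, k3, k4⟩ := k _ sdiff_subset h4 _ _ h3 (by
    rw [Y.iv_sdiff, disjoint_union_left]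
    exact ⟨hd.mono_right sdiff_subset, disjoint_sdiff⟩)
  rw [Y.iv_sdiff] at k1
  have hZ : Disjoint Z Z' := disjoint_sdiff.mono_right k1
  refine ⟨Z ∪ Z', union_subset h1 (k1.trans sdiff_subset), ?_, by rwa [← union_assoc], ?_⟩
  · rw [card_union_of_disjoint hZ, h2, k2]
  · rwa [sdiff_sdiff_left] at k4

theorem Fb.one {m r : ℕ} {p q : V}
    (h : p ∉ Y.iv U 0 m → q ∉ Y.iv U 0 m → Lnk G Y U m r 0 p q) : Fb G Y U m r {s(p, q)} :=
  Fb.cons (gs := 0) h fun _ _ k => Fb.zero k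

theorem Fb.filly {m s : ℕ} {gs : Multiset (Sym2 V)} {e : V → ℕ} (h0 : gs ≠ 0) (hR : Rs G Y U m s)
    (he : ∀ p q, s(p, q) ∈ gs → Df G Y U m p (e p) ∧ 1 ≤ e p ∧ e p + e q + gs.card ≤ s + 2) :
    Fb G Y U m s gs := fun _ _ hX hd => Pool.Agent.Lib.MP_af3016_co.filly hX h0 hR hd he

/-- the gaps `gs` get one vertex each, then the gaps `gs'` are filled -/
theorem Fb.ones {m w : ℕ} {gs gs' : Multiset (Sym2 V)} {e : V → ℕ}
    (hR : Rs G Y U m (gs.card + w))
    (he : ∀ p q, s(p, q) ∈ gs → Df G Y U m p (e p) ∧ e p + e q ≤ w + 2)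
    (k : ∀ U', U' ⊆ U → Rs G Y U' m w → Fb G Y U' m w gs') :
    Fb G Y U m (gs.card + w) (gs + gs') := by
  intro X rest hX hd
  rw [add_assoc] at hX
  obtain ⟨Z, h1, h2, h3, h4⟩ := fill_ones hX hR hd he
  obtain ⟨Z', k1, k2, k3, k4⟩ := k _ sdiff_subset h4 _ _ h3 (by
    rw [Y.iv_sdiff, disjoint_union_left]
    exact ⟨hd.mono_right sdiff_subset, disjoint_sdiff⟩)
  rw [Y.iv_sdiff] at k1
  have hZ : Disjoint Z Z' := disjoint_sdiff.mono_right k1
  refine ⟨Z ∪ Z', union_subset h1 (k1.trans sdiff_subset), ?_, by rwa [← union_assoc], ?_⟩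
  · rw [card_union_of_disjoint hZ, h2, k2]
  · rwa [sdiff_sdiff_left] at k4

/-- one gap takes the whole slack, by the ordered links -/
theorem Fb.all {g r e e' : ℕ} {p q : V} (h : Rs G Y U (g + 1) r) (ho : Y.Ord (g + 1))
    (hr : 1 ≤ r) (d : Df G Y U (g + 1) p e) (d' : Df G Y U (g + 1) q e') (h2 : e ≤ Y.a g)
    (h2' : e' ≤ Y.a g) (h3 : r = 1 → e + e' ≤ 2) (h4 : r = 2 → e ≤ 2 ∨ e' ≤ 2) :
    Fb G Y U (g + 1) r {s(p, q)} := by
  refine Fb.one fun hp hq => ?_
  by_cases e1 : r = 1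
  · subst e1
    exact link_one h hp hq d d' (h3 rfl)
  have := h.one g (by omega)
  have := h.ba g (by omega)
  exact link_all h ho hr hp hq (d.mono (le_max_left e 1)) (d'.mono (le_max_left e' 1))
    (le_max_right _ _) (le_max_right _ _) (by omega) (by omega) (fun e => absurd e e1)
    fun e => by have := h4 e; omega

/-- the finish: a gadget uses `Z0` below and `Z0'` above, the gaps are filled from the two sides -/
theorem Mid.two (h : Mid G W Y U g D B α β α' β' σ μ I J) {Z0 Z0' : Finset V}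
    {gs gs' : Multiset (Sym2 V)} {s u : ℕ} (h1 : Z0 ⊆ Y.iv U 0 (g + 1)) (h2 : Z0' ⊆ B)
    (hc : CS G (D ∪ Z0 ∪ Z0') (gs + gs')) (c1 : Z0.card + s = σ) (c2 : Z0'.card + u = μ)
    (k1 : Fb G Y (U \ Z0) (g + 1) s gs) (k2 : Fb G (flat V α' β') (B \ Z0') 1 u gs') :
    Fin2 G Y U g D B σ μ := by
  have dD := Finset.disjoint_left.1 h.dD
  have dB := Finset.disjoint_left.1 h.dB
  have dDB := Finset.disjoint_left.1 h.dDB
  obtain ⟨Z, g1, g2, g3, g4⟩ := k1 _ _ hc (by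
    rw [Y.iv_sdiff, Finset.disjoint_left]
    intro v hv hv'
    simp only [mem_union, mem_sdiff] at hv hv'
    rcases hv with (hv | hv) | hv
    exacts [dD hv hv'.1, hv'.2 hv, dB (h2 hv) hv'.1])
  rw [Y.iv_sdiff] at g1
  obtain ⟨Z', l1, l2, l3, -⟩ := k2 _ 0 (by rwa [add_zero]) (by
    rw [flat_iv, Finset.disjoint_left]
    intro v hv hv'
    simp only [mem_union, mem_sdiff] at hv hv'
    rcases hv with ((hv | hv) | hv) | hv
    exacts [dDB hv hv'.1, dB hv'.1 (h1 hv), hv'.2 hv, dB hv'.1 (mem_sdiff.1 (g1 hv)).1])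
  rw [flat_iv] at l1
  have e1 : (Z0 ∪ Z).card = σ := by
    rw [card_union_of_disjoint (disjoint_sdiff.mono_right g1), g2, c1]
  have e2 : (Z0' ∪ Z').card = μ := by
    rw [card_union_of_disjoint (disjoint_sdiff.mono_right l1), l2, c2]
  have s1 : Z0 ∪ Z ⊆ Y.iv U 0 (g + 1) := union_subset h1 (g1.trans sdiff_subset)
  have s2 : Z0' ∪ Z' ⊆ B := union_subset h2 (l1.trans sdiff_subset)
  have e : D ∪ Z0 ∪ Z0' ∪ Z ∪ Z' = D ∪ (Z0 ∪ Z) ∪ (Z0' ∪ Z') := by
    ext v
    simp only [mem_union]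
    tauto
  rw [e] at l3
  refine ⟨Z0 ∪ Z, Z0' ∪ Z', s1, s2, e1, e2, l3.done ?_, by rwa [sdiff_sdiff_left] at g4⟩
  rw [card_union_of_disjoint (disjoint_union_left.2 ⟨h.dDB.mono_right s2,
    (h.dB.mono_left s2).symm.mono_left s1⟩), card_union_of_disjoint (h.dD.mono_right s1), e1, e2]
  have := h.cD
  have := h.five
  omega

/-- the finish without a gadget -/
theorem Mid.two0 (h : Mid G W Y U g D B α β α' β' σ μ I J) {gs gs' : Multiset (Sym2 V)}
    (hc : CS G D (gs + gs')) (k1 : Fb G Y U (g + 1) σ gs)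
    (k2 : Fb G (flat V α' β') B 1 μ gs') : Fin2 G Y U g D B σ μ :=
  h.two (Z0 := ∅) (Z0' := ∅) (s := σ) (u := μ) (empty_subset _) (empty_subset _) (by simpa using hc) (by simp)
    (by simp) (by simpa using k1) (by simpa using k2)

/-- the rest of the block after a removal -/
theorem Mid.rsB' (h : Mid G W Y U g D B α β α' β' σ μ I J) {Z : Finset V} {u : ℕ} (hZ : Z ⊆ B)
    (hc : Z.card + u = μ) : Rs G (flat V α' β') (B \ Z) 1 u := by
  refine flat_rs h.sJ.le h.sJ.one ?_ (h.hapB.mono sdiff_subset)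
  have := card_sdiff_add_card_eq_card hZ
  have := h.cB
  omega

/-- a vertex of the block has no defect there -/
theorem Mid.dfB (h : Mid G W Y U g D B α β α' β' σ μ I J) {p : V} (hp : p ∈ B) {B' : Finset V}
    (hB : B' ⊆ B) : Df G (flat V α' β') B' 1 p 0 :=
  (flat_df.2 (h.hapB p hp)).sub hB

/-- exact defects, for the layers below `t`, of the vertices above these layers -/
theorem Mid.dfT (h : Mid G W Y U g D B α β α' β' σ μ I J) {t : ℕ} (ht : t ≤ g + 1) {v : V}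
    (hv : v ∈ Y.iv U t (g + 1) ∨ v ∈ D ∨ v ∈ B) :
    ∃ e, 1 ≤ e ∧ Df G Y U t v e ∧ e + dH G v (Y.iv U t (g + 1)) + dH G v D + dH G v B + Y.B t =
      Y.B (g + 1) + β + β' := by
  have h1 := h.suf t ht v hv
  refine ⟨Y.B (g + 1) + β + β' - (dH G v (Y.iv U t (g + 1)) + dH G v D + dH G v B + Y.B t),
    by omega, fun l hl => ?_, by omega⟩
  have h2 := h.suf l (by omega) v
    (hv.imp_left fun k => Lay.iv_mono (Subset.refl U) hl.le (le_refl _) k)
  have := Y.dH_iv (G := G) U v hl.le ht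
  omega

/-- the slack at level `t` and the number of vertices of the layers from `t` on -/
theorem Mid.lev (h : Mid G W Y U g D B α β α' β' σ μ I J) {t : ℕ} (ht : t ≤ g + 1) :
    ∃ s', Rs G Y U t s' ∧ (1 ≤ t → 1 ≤ s') ∧ (t = 0 → s' = 0) ∧
      (Y.iv U t (g + 1)).card + s' + Y.A t + Y.B t = Y.A (g + 1) + Y.B (g + 1) + σ := by
  obtain ⟨s', h1⟩ := h.rs.low ht
  have := h1.top
  have := h.rs.top
  have := Y.card_iv U (Nat.zero_le t) ht
  refine ⟨s', h1, fun k => ?_, fun k => (k ▸ h1).zero, by omega⟩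
  have := h.pos t k ht
  omega

end Pool.Agent.Lib.MP_af3016_co
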